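import Mathlib

/-!
# EPL.T1: one-dimensional theta functions (for the cusp lemma); this text also covers T1b, T1c

`th σ x = ∑_{k ∈ ℤ} exp (-x (k+σ)²)` and `th2 σ x = ∑_{k ∈ ℤ} x (k+σ)² exp (-x (k+σ)²)`.

PROOFS.
* summability: comparison with a geometric series (`x (k+σ)² ≥ x |k| - c`); for `th2` use
  `p e^{-p} ≤ e^{-p/2}`.
* `th_le`: Poisson summation.  Mathlib: `Complex.tsum_exp_neg_quadratic`
  (`∑ cexp (-π a n² + 2 π b n) = 1 / a ^ (1/2) * ∑ cexp (-π / a (n + I b)²)`) with `a = π / x`,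
  `b = - I σ`:  `th σ x = sqrt (π / x) * ∑_n exp (-π² n² / x) * cos (2 π n σ)`, and the same with
  `σ = 0`; `cos ≤ 1`.
* `le_th`: if `x ≤ π`: by the same formula `th σ x / th 0 x ≥ (1 - 2E) / (1 + 2E)`,
  `E = ∑_{n ≥ 1} exp (-π² n² / x) ≤ e^{-π} + e^{-4π} + ... < 0.0433`, quotient `≥ 0.84`; and
  `0.9 e^{-x/4} ≤ 0.84` for `x ≥ 0.28`.  For `x ≤ 0.28`: `E ≤ 2 e^{-35}`, quotient `≥ 0.9`.
  If `x ≥ π`: `th 0 x ≤ 1 + 2 (e^{-π} + ...) ≤ 1.09` and `th σ x ≥ e^{-x/4}` (the nearest integer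
  to `-σ` gives one term with `(k+σ)² ≤ 1/4`); `0.9 * 1.09 ≤ 1`.
* `th2_lower`: all terms with `|k| ≥ 2` have `x k² ≥ 2 x e^{-x} / (1 + 2 e^{-x})`
  (as `e^{-x}/(1+2e^{-x}) ≤ 1`), the terms `k = 0, ±1` give exactly the quotient:
  `∑ x k² e^{-x k²} - q ∑ e^{-x k²} = (2 x e^{-x} - q (1 + 2 e^{-x})) + ∑_{|k| ≥ 2} (x k² - q) e^{-x k²} ≥ 0`
  for `q = 2 x e^{-x} / (1 + 2 e^{-x})`.
* `th2_lower'` (`0 < x ≤ 2`): from Poisson for `th 0` (or by differentiating it):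
  `th2 0 x / th 0 x = 1/2 - th2 0 (π²/x) / th 0 (π²/x)`, and for `y = π²/x ≥ 4.93`:
  `th2 0 y ≤ 2 y e^{-y} (1 + small) ≤ 0.0725`, `th 0 y ≥ 1`.  Alternative without derivatives: for
  `1 ≤ x ≤ 2` use `th2_lower` (`2 x e^{-x}/(1+2e^{-x}) ≥ 0.42` on `[1, 2]`); for `x ≤ 1` compare
  `th 0 x` and `th 0 (x/2)` (convexity of `log th`), or use the derivative formula above.
* `th2_le`: let `|k₀ + σ| ≤ 1/2`.  Terms `f(p) = p e^{-p}`, `f ≤ 1/e` everywhere, `f` decreasing for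
  `p ≥ 1`.  The two nearest `k` contribute at most `2/e ≤ 0.7358`, the next two at most
  `f(x) + f(9x/4) ≤ f(3.33) + f(7.49) ≤ 0.1193 + 0.0042`, the rest `≤ 2 (f(4x) + ...) ≤ 0.0005`
  (distance of the `j`-th pair at least `j - 1 + 1/2` and `j`, all `p ≥ 3.33`); total `≤ 0.86`.
-/

namespace Pool.Agent.Lib.EPL

/-- the one-dimensional theta function with characteristic `σ` -/
noncomputable def th (σ x : ℝ) : ℝ := ∑' k : ℤ, Real.exp (-(x * ((k : ℝ) + σ) ^ 2))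

/-- the weighted sum -/
noncomputable def th2 (σ x : ℝ) : ℝ :=
  ∑' k : ℤ, x * ((k : ℝ) + σ) ^ 2 * Real.exp (-(x * ((k : ℝ) + σ) ^ 2))

namespace T1Aux

theorem summable_geo {r : ℝ} (h0 : 0 ≤ r) (h1 : r < 1) :
    Summable fun k : ℤ => r ^ k.natAbs := by
  apply Summable.of_nat_of_neg
  · simpa using summable_geometric_of_lt_one h0 h1
  · simpa using summable_geometric_of_lt_one h0 h1

theorem sq_ge (σ : ℝ) (k : ℤ) : 2 * (k.natAbs : ℝ) - (2 * |σ| + 1) ≤ ((k : ℝ) + σ) ^ 2 := by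
  have h1 : (k.natAbs : ℝ) = |(k : ℝ)| := by
    rw [Nat.cast_natAbs]; push_cast; rfl
  have h2 : |(k : ℝ)| ≤ |(k : ℝ) + σ| + |σ| := by
    calc |(k : ℝ)| = |((k : ℝ) + σ) - σ| := by ring_nf
      _ ≤ _ := abs_sub _ _
  have h3 : 0 ≤ (|(k : ℝ) + σ| - 1) ^ 2 := sq_nonneg _
  have h4 : |(k : ℝ) + σ| ^ 2 = ((k : ℝ) + σ) ^ 2 := sq_abs _
  rw [h1]
  nlinarith

end T1Aux

theorem summable_th (σ : ℝ) {x : ℝ} (hx : 0 < x) :
    Summable fun k : ℤ => Real.exp (-(x * ((k : ℝ) + σ) ^ 2)) := by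
  have hr0 : 0 ≤ Real.exp (-(2 * x)) := (Real.exp_pos _).le
  have hr1 : Real.exp (-(2 * x)) < 1 := by
    rw [Real.exp_lt_one_iff]; linarith
  have hg := (T1Aux.summable_geo hr0 hr1).mul_left (Real.exp (x * (2 * |σ| + 1)))
  refine Summable.of_nonneg_of_le (fun k => (Real.exp_pos _).le) (fun k => ?_) hg
  rw [← Real.exp_nat_mul, ← Real.exp_add]
  apply Real.exp_le_exp.mpr
  have := mul_le_mul_of_nonneg_left (T1Aux.sq_ge σ k) hx.le
  linarith

theorem summable_th2 (σ : ℝ) {x : ℝ} (hx : 0 < x) :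
    Summable fun k : ℤ => x * ((k : ℝ) + σ) ^ 2 * Real.exp (-(x * ((k : ℝ) + σ) ^ 2)) := by
  have hg := summable_th σ (half_pos hx)
  refine Summable.of_nonneg_of_le (fun k => ?_) (fun k => ?_) hg
  · exact mul_nonneg (mul_nonneg hx.le (sq_nonneg _)) (Real.exp_pos _).le
  · set p : ℝ := x * ((k : ℝ) + σ) ^ 2 with hp
    have hp0 : 0 ≤ p := mul_nonneg hx.le (sq_nonneg _)
    have e : x / 2 * ((k : ℝ) + σ) ^ 2 = p / 2 := by rw [hp]; ring
    rw [e]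
    have h1 : p ≤ Real.exp (p / 2) := by
      have h2 := Real.add_one_le_exp (p / 4)
      have h3 : Real.exp (p / 2) = Real.exp (p / 4) ^ 2 := by
        rw [← Real.exp_nat_mul]; congr 1; push_cast; ring
      rw [h3]
      nlinarith [sq_nonneg (p / 4 - 1)]
    have h4 : Real.exp (-(p / 2)) = Real.exp (p / 2) * Real.exp (-p) := by
      rw [← Real.exp_add]; congr 1; ring
    rw [h4]
    exact mul_le_mul_of_nonneg_right h1 (Real.exp_pos _).le

theorem th_pos (σ : ℝ) {x : ℝ} (hx : 0 < x) : 0 < th σ x :=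
  (summable_th σ hx).tsum_pos (fun _ => (Real.exp_pos _).le) 0 (Real.exp_pos _)

namespace T1Aux

open Complex in
/-- Poisson summation -/
theorem poisson (σ : ℝ) {x : ℝ} (hx : 0 < x) :
    ((th σ x : ℝ) : ℂ) = ((Real.pi / x : ℝ) : ℂ) ^ (1 / 2 : ℂ) *
      ∑' n : ℤ, cexp (-Real.pi * ((Real.pi / x : ℝ) : ℂ) * n ^ 2 + 2 * Real.pi * (-(I * σ)) * n) := by
  have hpi := Real.pi_pos
  have ha : 0 < (((Real.pi / x : ℝ) : ℂ)).re := by
    rw [ofReal_re]; positivity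
  have h := Complex.tsum_exp_neg_quadratic ha (-(I * σ))
  have ha0 : (((Real.pi / x : ℝ) : ℂ)) ≠ 0 := by
    rw [Ne, ofReal_eq_zero]; positivity
  have hne : ((Real.pi / x : ℝ) : ℂ) ^ (1 / 2 : ℂ) ≠ 0 := by
    rw [Ne, cpow_eq_zero_iff]; tauto
  rw [h, ← mul_assoc, mul_one_div_cancel hne, one_mul, th, ofReal_tsum]
  apply tsum_congr
  intro k
  rw [ofReal_exp]
  congr 1
  have hx' : (x : ℂ) ≠ 0 := by exact_mod_cast hx.ne'
  have hp' : (Real.pi : ℂ) ≠ 0 := by exact_mod_cast hpi.ne'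
  push_cast
  have e1 : (k : ℂ) + I * -(I * σ) = k + σ := by
    have : I * -(I * (σ : ℂ)) = -(I * I) * σ := by ring
    rw [this, I_mul_I]; ring
  rw [e1]
  field_simp

end T1Aux

/-- the theta function is largest without shift -/
theorem th_le (σ : ℝ) {x : ℝ} (hx : 0 < x) : th σ x ≤ th 0 x := by
  have hpi := Real.pi_pos
  have hterm : ∀ (τ : ℝ) (n : ℤ), ‖Complex.exp (-Real.pi * ((Real.pi / x : ℝ) : ℂ) * n ^ 2
      + 2 * Real.pi * (-(Complex.I * τ)) * n)‖ = Real.exp (-(Real.pi * (Real.pi / x) * (n : ℝ) ^ 2)) := by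
    intro τ n
    have e : -(Real.pi : ℂ) * ((Real.pi / x : ℝ) : ℂ) * n ^ 2 + 2 * Real.pi * (-(Complex.I * τ)) * n
        = ((-(Real.pi * (Real.pi / x) * (n : ℝ) ^ 2) : ℝ) : ℂ)
          + ((-(2 * Real.pi * τ * n) : ℝ) : ℂ) * Complex.I := by
      push_cast; ring
    rw [e, Complex.exp_add, norm_mul, Complex.norm_exp_ofReal_mul_I, mul_one, ← Complex.ofReal_exp,
      Complex.norm_real, Real.norm_eq_abs, abs_of_pos (Real.exp_pos _)]
  have hsum : Summable fun n : ℤ => Real.exp (-(Real.pi * (Real.pi / x) * (n : ℝ) ^ 2)) := by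
    have := summable_th 0 (x := Real.pi * (Real.pi / x)) (by positivity)
    simpa using this
  have hS : ∀ τ : ℝ, ‖∑' n : ℤ, Complex.exp (-Real.pi * ((Real.pi / x : ℝ) : ℂ) * n ^ 2
      + 2 * Real.pi * (-(Complex.I * τ)) * n)‖
      ≤ ∑' n : ℤ, Real.exp (-(Real.pi * (Real.pi / x) * (n : ℝ) ^ 2)) := by
    intro τ
    have h1 := norm_tsum_le_tsum_norm (f := fun n : ℤ => Complex.exp (-Real.pi *
      ((Real.pi / x : ℝ) : ℂ) * n ^ 2 + 2 * Real.pi * (-(Complex.I * τ)) * n))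
      (by simpa only [hterm τ] using hsum)
    simpa only [hterm τ] using h1
  have h0 : ∑' n : ℤ, Complex.exp (-Real.pi * ((Real.pi / x : ℝ) : ℂ) * n ^ 2
      + 2 * Real.pi * (-(Complex.I * ((0 : ℝ) : ℂ))) * n)
      = ((∑' n : ℤ, Real.exp (-(Real.pi * (Real.pi / x) * (n : ℝ) ^ 2)) : ℝ) : ℂ) := by
    rw [Complex.ofReal_tsum]
    apply tsum_congr
    intro n
    rw [Complex.ofReal_exp]
    congr 1
    push_cast; ring
  have hσ := congrArg (‖·‖) (T1Aux.poisson σ hx)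
  have hz := congrArg (‖·‖) (T1Aux.poisson 0 hx)
  simp only [norm_mul] at hσ hz
  rw [Complex.norm_real, Real.norm_eq_abs, abs_of_pos (th_pos σ hx)] at hσ
  rw [Complex.norm_real, Real.norm_eq_abs, abs_of_pos (th_pos 0 hx)] at hz
  rw [h0, Complex.norm_real, Real.norm_eq_abs,
    abs_of_nonneg (tsum_nonneg fun n => (Real.exp_pos _).le)] at hz
  rw [hσ, hz]
  exact mul_le_mul_of_nonneg_left (hS σ) (norm_nonneg _)

/-- decreasing in `x` -/
theorem th_anti {x y : ℝ} (hx : 0 < x) (hxy : x ≤ y) : th 0 y ≤ th 0 x := by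
  refine (summable_th 0 (hx.trans_le hxy)).tsum_le_tsum (fun k => ?_) (summable_th 0 hx)
  apply Real.exp_le_exp.mpr
  have := mul_le_mul_of_nonneg_right hxy (sq_nonneg ((k : ℝ) + 0))
  linarith

/-- `th 0 x ≤ 1 + 2.01 e^{-x}` for `x ≥ 2.1` (`e^{-3x} ≤ 0.0019`) -/
theorem th_upper {x : ℝ} (hx : 21 / 10 ≤ x) : th 0 x ≤ 1 + 201 / 100 * Real.exp (-x) := by
  have hx0 : 0 < x := by linarith
  set r : ℝ := Real.exp (-(3 * x)) with hr
  have hr0 : 0 < r := Real.exp_pos _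
  have hr1 : r ≤ 1 / 202 := by
    have h1 : r ≤ Real.exp (-(6 : ℝ)) := by
      rw [hr]; apply Real.exp_le_exp.mpr; linarith
    have h2 : Real.exp (-(6 : ℝ)) = (Real.exp 1 ^ 6)⁻¹ := by
      rw [← Real.exp_nat_mul, ← Real.exp_neg]; congr 1; norm_num
    have h3 : (202 : ℝ) ≤ Real.exp 1 ^ 6 := by
      have h4 : (2.7 : ℝ) ≤ Real.exp 1 := by
        have := Real.exp_one_gt_d9; linarith
      calc (202 : ℝ) ≤ 2.7 ^ 6 := by norm_num
        _ ≤ _ := pow_le_pow_left₀ (by norm_num) h4 6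
    rw [h2] at h1
    refine h1.trans ?_
    rw [one_div]
    exact inv_anti₀ (by norm_num) h3
  have hs := summable_th 0 hx0
  have hev : Function.Even fun k : ℤ => Real.exp (-(x * ((k : ℝ) + 0) ^ 2)) := by
    intro k; simp
  have h1 := tsum_int_eq_zero_add_two_mul_tsum_pnat hev hs
  have hgeo : HasSum (fun n : ℕ => Real.exp (-x) * r ^ n) (Real.exp (-x) * (1 - r)⁻¹) :=
    (hasSum_geometric_of_lt_one hr0.le (by linarith)).mul_left _
  have hle : ∀ n : ℕ, Real.exp (-(x * (((n + 1 : ℕ) : ℝ)) ^ 2)) ≤ Real.exp (-x) * r ^ n := by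
    intro n
    rw [hr, ← Real.exp_nat_mul, ← Real.exp_add]
    apply Real.exp_le_exp.mpr
    have : (1 : ℝ) + 3 * n ≤ (((n + 1 : ℕ) : ℝ)) ^ 2 := by
      have hn : (n : ℝ) ≤ (n : ℝ) ^ 2 := by
        exact_mod_cast Nat.le_self_pow two_ne_zero n
      push_cast; nlinarith
    nlinarith
  have hsum1 : Summable fun n : ℕ => Real.exp (-(x * (((n + 1 : ℕ) : ℝ)) ^ 2)) :=
    Summable.of_nonneg_of_le (fun n => (Real.exp_pos _).le) hle hgeo.summable
  have h2 : ∑' n : ℕ+, Real.exp (-(x * (((n : ℕ) : ℝ)) ^ 2)) ≤ Real.exp (-x) * (1 - r)⁻¹ := by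
    rw [tsum_pnat_eq_tsum_succ (f := fun n : ℕ => Real.exp (-(x * ((n : ℝ)) ^ 2)))]
    rw [← hgeo.tsum_eq]
    exact hsum1.tsum_le_tsum hle hgeo.summable
  have h3 : (1 - r)⁻¹ ≤ 201 / 200 := by
    have : (201 / 200 : ℝ) = (200 / 201)⁻¹ := by norm_num
    rw [this]
    apply inv_anti₀ (by norm_num)
    linarith
  have h4 : th 0 x = 1 + 2 * ∑' n : ℕ+, Real.exp (-(x * (((n : ℕ) : ℝ)) ^ 2)) := by
    rw [th, h1]; simp
  rw [h4]
  have h5 := mul_le_mul_of_nonneg_left h3 (Real.exp_pos (-x)).le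
  linarith

end Pool.Agent.Lib.EPL
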