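import Mathlib

/-!
# Abel summation with prefix conditions
-/

namespace Pool.Agent.Lib.EPL

/-- If every prefix sum ending at a negative item is at least `-W` and the negative items have
length at least `y0`, then the exponential sum is at least `-W e^{-c y0}`. -/
theorem abel {ι : Type*} (s : Finset ι) (m q : ι → ℝ) {W y0 c : ℝ} (hW : 0 ≤ W) (hc : 0 ≤ c)
    (h : ∀ j ∈ s, m j < 0 → y0 ≤ q j ∧ -W ≤ ∑ i ∈ s with q i ≤ q j, m i) :
    -(W * Real.exp (-(c * y0))) ≤ ∑ i ∈ s, m i * Real.exp (-(c * q i)) := by
  classical
  -- the total is at least `-W`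
  have tot : ∀ s : Finset ι, (∀ j ∈ s, m j < 0 → y0 ≤ q j ∧ -W ≤ ∑ i ∈ s with q i ≤ q j, m i) →
      -W ≤ ∑ i ∈ s, m i := by
    intro s h
    by_cases hneg : (s.filter fun j => m j < 0).Nonempty
    · obtain ⟨j, hj, hmax⟩ := Finset.exists_max_image _ q hneg
      rw [Finset.mem_filter] at hj
      have h1 := (h j hj.1 hj.2).2
      refine h1.trans (Finset.sum_le_sum_of_subset_of_nonneg (Finset.filter_subset _ _) ?_)
      intro i hi hni
      by_contra hlt
      push Not at hlt
      exact hni (Finset.mem_filter.mpr ⟨hi, hmax i (Finset.mem_filter.mpr ⟨hi, hlt⟩)⟩)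
    · have h1 : 0 ≤ ∑ i ∈ s, m i := by
        refine Finset.sum_nonneg fun i hi => ?_
        by_contra hlt
        push Not at hlt
        exact hneg ⟨i, Finset.mem_filter.mpr ⟨hi, hlt⟩⟩
      linarith
  have key : ∀ s : Finset ι, (∀ j ∈ s, m j < 0 → y0 ≤ q j ∧ -W ≤ ∑ i ∈ s with q i ≤ q j, m i) →
      ∀ K : ℝ, y0 ≤ K → (∀ i ∈ s, q i ≤ K) →
      -(W * (Real.exp (-(c * y0)) - Real.exp (-(c * K)))) + (∑ i ∈ s, m i) * Real.exp (-(c * K)) ≤
        ∑ i ∈ s, m i * Real.exp (-(c * q i)) := by
    intro s
    refine Finset.induction_on_max_value (fun i => toLex (q i, if m i < 0 then (1 : ℕ) else 0)) s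
      ?_ ?_
    · intro _ K hK _
      simp only [Finset.sum_empty, zero_mul, add_zero]
      have h1 : Real.exp (-(c * K)) ≤ Real.exp (-(c * y0)) :=
        Real.exp_le_exp.mpr (by nlinarith)
      nlinarith
    · intro a s ha hmax ih h K hK hKs
      have htot := tot (insert a s) h
      have hqa : q a ≤ K := hKs a (Finset.mem_insert_self _ _)
      have hqs : ∀ i ∈ s, q i ≤ q a := by
        intro i hi
        have := hmax i hi
        rw [Prod.Lex.le_iff] at this
        rcases this with h1 | h1
        · exact le_of_lt h1
        · exact le_of_eq h1.1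
      rw [Finset.sum_insert ha] at htot ⊢
      rw [Finset.sum_insert ha]
      by_cases hya : y0 ≤ q a
      · have ih' := ih ?_ (q a) hya hqs
        · have h1 : Real.exp (-(c * K)) ≤ Real.exp (-(c * q a)) :=
            Real.exp_le_exp.mpr (by nlinarith)
          nlinarith
        · intro j hj hjm
          obtain ⟨h1, h2⟩ := h j (Finset.mem_insert_of_mem hj) hjm
          refine ⟨h1, ?_⟩
          rw [Finset.filter_insert] at h2
          split_ifs at h2 with h3
          · -- a tie: then `m a < 0`
            have h4 : q j = q a := le_antisymm (hqs j hj) h3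
            have h5 : m a < 0 := by
              have := hmax j hj
              rw [Prod.Lex.le_iff] at this
              rcases this with h6 | h6
              · exact absurd h6 (by simp [h4])
              · have h7 := h6.2
                simp only [ofLex_toLex, hjm, if_true] at h7
                by_contra h8
                simp [h8] at h7
            rw [Finset.sum_insert (by simp [ha])] at h2
            linarith
          · exact h2
      · push Not at hya
        have hnn : ∀ i ∈ insert a s, 0 ≤ m i := by
          intro i hi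
          by_contra hlt
          push Not at hlt
          have h1 := (h i hi hlt).1
          rcases Finset.mem_insert.mp hi with rfl | hi'
          · linarith
          · have := hqs i hi'
            linarith
        have h1 : ∀ i ∈ insert a s, m i * Real.exp (-(c * K)) ≤ m i * Real.exp (-(c * q i)) := by
          intro i hi
          refine mul_le_mul_of_nonneg_left (Real.exp_le_exp.mpr ?_) (hnn i hi)
          have := hKs i hi
          nlinarith
        have h2 := Finset.sum_le_sum h1
        rw [Finset.sum_insert ha, Finset.sum_insert ha, ← Finset.sum_mul] at h2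
        have h3 : Real.exp (-(c * K)) ≤ Real.exp (-(c * y0)) :=
          Real.exp_le_exp.mpr (by nlinarith)
        nlinarith
  obtain ⟨K, hK0, hK⟩ : ∃ K : ℝ, y0 ≤ K ∧ ∀ i ∈ s, q i ≤ K := by
    rcases s.eq_empty_or_nonempty with hs | hs
    · exact ⟨y0, le_refl _, by simp [hs]⟩
    · obtain ⟨j, _, hmax⟩ := Finset.exists_max_image s q hs
      exact ⟨max y0 (q j), le_max_left _ _, fun i hi => (hmax i hi).trans (le_max_right _ _)⟩
  have h1 := key s h K hK0 hK
  have h2 := tot s h
  have h3 := Real.exp_pos (-(c * K))
  nlinarith

end Pool.Agent.Lib.EPL
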