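import Pool.Agent.Lib.EPL.BMel

/-!
# EPL.BCrit: the bcc lattice is critical

`Crit s Qb`: for symmetric `H` put `h = (Pb⁻¹)ᵀ H Pb⁻¹` (so `H = Pbᵀ h Pb`, `Qb = Pbᵀ Pb`, `H[x] = ∑ h i j v_i v_j` with `v = bv x`, and
`tr(Qb⁻¹ H) = tr h`). By the symmetries (`nz_n0`, `nz_s01`, `nz_s12`) `∑ v_i v_j / Q^(s+1) = 0` for `i ≠ j` and `∑ v_i² / Q^(s+1) = F/3`
(the sum over `i` is `∑ Q / Q^(s+1) = F`). For `i ≠ j`: `v₁ v₂`, `v₁ v₃` change sign under `n0`, and `v₂ v₃` is `v₁ v₃` after `s01`.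
All sums converge absolutely (`Low.summable_mul` as in First.lean, or `Pg.summable_rpow`).
-/

open MeasureTheory Set Filter Topology Matrix
open scoped Matrix.Norms.Elementwise

namespace Pool.Agent.Lib.EPL

open Pool.Agent.Lib.EpZ Pool.Agent.Lib.EPS

namespace BCritAux

theorem bv_dot (i : Fin 3) (x : Fin 3 → ℤ) : (bv x i : ℝ) = Pb i ⬝ᵥ rv x := by
  fin_cases i <;> simp [Pb, bv, rv, dotProduct, Fin.sum_univ_three] <;> ring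

theorem Pg_bv (i j : Fin 3) : Pg (fun x => (bv x i : ℝ) * (bv x j : ℝ)) 1 := by
  have h := Pg.qf (vecMulVec (Pb i) (Pb j))
  have e : (fun x : Fin 3 → ℤ => (bv x i : ℝ) * (bv x j : ℝ)) =
      fun x => EpZ.qf (vecMulVec (Pb i) (Pb j)) x := by
    funext x
    unfold EpZ.qf
    rw [qr_vecMulVec, bv_dot, bv_dot]
  rw [e]
  exact h

/-- second moments -/
noncomputable def m2 (s : ℝ) (i j : Fin 3) : ℝ :=
  ∑' x : NZ 3, (bv x.1 i : ℝ) * (bv x.1 j : ℝ) / qf Qb x.1 ^ (s + 1)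

theorem sm {s : ℝ} (hs : 3 / 2 < s) (i j : Fin 3) :
    Summable fun x : NZ 3 => (bv x.1 i : ℝ) * (bv x.1 j : ℝ) / qf Qb x.1 ^ (s + 1) :=
  BMelAux.summ (Pg_bv i j) (by norm_num; linarith)

theorem m11 (s : ℝ) : m2 s 1 1 = m2 s 0 0 :=
  nz_s01 (fun v => (v 0 : ℝ) * (v 0 : ℝ)) (s + 1)
theorem m22 (s : ℝ) : m2 s 2 2 = m2 s 0 0 :=
  (nz_s12 (fun v => (v 1 : ℝ) * (v 1 : ℝ)) (s + 1)).trans (m11 s)
theorem m01 (s : ℝ) : m2 s 0 1 = 0 := by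
  have h := nz_n0 (fun v => (v 0 : ℝ) * (v 1 : ℝ)) (s + 1)
  have e : ∑' x : NZ 3, (fun v : Fin 3 → ℤ => (v 0 : ℝ) * (v 1 : ℝ)) (n0 (bv x.1)) /
      qf Qb x.1 ^ (s + 1) = -m2 s 0 1 := by
    unfold m2
    rw [← tsum_neg]
    refine tsum_congr fun x => ?_
    simp [n0]
    ring
  rw [e] at h
  have h2 : -m2 s 0 1 = m2 s 0 1 := h
  linarith
theorem m02 (s : ℝ) : m2 s 0 2 = 0 :=
  (nz_s12 (fun v => (v 0 : ℝ) * (v 1 : ℝ)) (s + 1)).trans (m01 s)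
theorem m12 (s : ℝ) : m2 s 1 2 = 0 :=
  (nz_s01 (fun v => (v 0 : ℝ) * (v 2 : ℝ)) (s + 1)).trans (m02 s)

theorem expand {s : ℝ} (hs : 3 / 2 < s) (a b c d e f : ℝ) :
    ∑' x : NZ 3, (a * ((bv x.1 0 : ℝ) * (bv x.1 0 : ℝ)) + b * ((bv x.1 1 : ℝ) * (bv x.1 1 : ℝ)) +
      c * ((bv x.1 2 : ℝ) * (bv x.1 2 : ℝ)) + d * ((bv x.1 0 : ℝ) * (bv x.1 1 : ℝ)) +
      e * ((bv x.1 0 : ℝ) * (bv x.1 2 : ℝ)) + f * ((bv x.1 1 : ℝ) * (bv x.1 2 : ℝ))) /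
        qf Qb x.1 ^ (s + 1) = (a + b + c) * m2 s 0 0 := by
  have h0 := (sm hs 0 0).mul_left a
  have h1 := (sm hs 1 1).mul_left b
  have h2 := (sm hs 2 2).mul_left c
  have h3 := (sm hs 0 1).mul_left d
  have h4 := (sm hs 0 2).mul_left e
  have h5 := (sm hs 1 2).mul_left f
  have key : ∑' x : NZ 3, (((((a * ((bv x.1 0 : ℝ) * (bv x.1 0 : ℝ) / qf Qb x.1 ^ (s + 1)) +
      b * ((bv x.1 1 : ℝ) * (bv x.1 1 : ℝ) / qf Qb x.1 ^ (s + 1))) +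
      c * ((bv x.1 2 : ℝ) * (bv x.1 2 : ℝ) / qf Qb x.1 ^ (s + 1))) +
      d * ((bv x.1 0 : ℝ) * (bv x.1 1 : ℝ) / qf Qb x.1 ^ (s + 1))) +
      e * ((bv x.1 0 : ℝ) * (bv x.1 2 : ℝ) / qf Qb x.1 ^ (s + 1))) +
      f * ((bv x.1 1 : ℝ) * (bv x.1 2 : ℝ) / qf Qb x.1 ^ (s + 1))) =
      a * m2 s 0 0 + b * m2 s 1 1 + c * m2 s 2 2 + d * m2 s 0 1 + e * m2 s 0 2 +
        f * m2 s 1 2 := by
    rw [((((h0.add h1).add h2).add h3).add h4).tsum_add h5,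
      (((h0.add h1).add h2).add h3).tsum_add h4, ((h0.add h1).add h2).tsum_add h3,
      (h0.add h1).tsum_add h2, h0.tsum_add h1, tsum_mul_left, tsum_mul_left, tsum_mul_left,
      tsum_mul_left, tsum_mul_left, tsum_mul_left]
    rfl
  rw [m11, m22, m01, m02, m12] at key
  rw [show (a + b + c) * m2 s 0 0 = a * m2 s 0 0 + b * m2 s 0 0 + c * m2 s 0 0 + d * 0 + e * 0 +
    f * 0 by ring, ← key]
  exact tsum_congr fun x => by ring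

end BCritAux

open BCritAux

theorem Qb_crit {s : ℝ} (hs : 3 / 2 < s) : Crit s Qb := by
  intro H hH
  have h10 : H 1 0 = H 0 1 := hH.apply 0 1
  have h20 : H 2 0 = H 0 2 := hH.apply 0 2
  have h21 : H 2 1 = H 1 2 := hH.apply 1 2
  have hF : F s Qb = 3 * m2 s 0 0 := by
    have h := expand hs 1 1 1 0 0 0
    unfold F
    have e : ∀ x : NZ 3, qf Qb x.1 ^ (-s) = (1 * ((bv x.1 0 : ℝ) * (bv x.1 0 : ℝ)) +
        1 * ((bv x.1 1 : ℝ) * (bv x.1 1 : ℝ)) + 1 * ((bv x.1 2 : ℝ) * (bv x.1 2 : ℝ)) +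
        0 * ((bv x.1 0 : ℝ) * (bv x.1 1 : ℝ)) + 0 * ((bv x.1 0 : ℝ) * (bv x.1 2 : ℝ)) +
        0 * ((bv x.1 1 : ℝ) * (bv x.1 2 : ℝ))) / qf Qb x.1 ^ (s + 1) := by
      intro x
      have hp := Qb_pd.pos x
      have e1 : 1 * ((bv x.1 0 : ℝ) * (bv x.1 0 : ℝ)) +
        1 * ((bv x.1 1 : ℝ) * (bv x.1 1 : ℝ)) + 1 * ((bv x.1 2 : ℝ) * (bv x.1 2 : ℝ)) +
        0 * ((bv x.1 0 : ℝ) * (bv x.1 1 : ℝ)) + 0 * ((bv x.1 0 : ℝ) * (bv x.1 2 : ℝ)) +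
        0 * ((bv x.1 1 : ℝ) * (bv x.1 2 : ℝ)) = qf Qb x.1 := by
        rw [qf_Qb]; ring
      rw [e1, Real.rpow_add hp, Real.rpow_one, Real.rpow_neg hp.le]
      field_simp
    rw [tsum_congr e, h]
    ring
  rw [hF]
  have htr : (Qb⁻¹ * H).trace = (H 0 0 + H 1 1 + H 2 2) / 2 + (H 0 1 + H 0 2 + H 1 2) / 2 := by
    rw [Qb_inv, trace_fin_three]
    simp [Matrix.mul_apply, Fin.sum_univ_three, h10, h20, h21]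
    ring
  rw [htr]
  have h := expand hs ((H 0 0 + H 1 1 + 2 * H 0 1) / 4) ((H 0 0 + H 2 2 + 2 * H 0 2) / 4)
    ((H 1 1 + H 2 2 + 2 * H 1 2) / 4) ((2 * H 0 0 + 2 * H 0 1 + 2 * H 0 2 + 2 * H 1 2) / 4)
    ((2 * H 1 1 + 2 * H 0 1 + 2 * H 0 2 + 2 * H 1 2) / 4)
    ((2 * H 2 2 + 2 * H 0 1 + 2 * H 0 2 + 2 * H 1 2) / 4)
  have e : ∀ x : NZ 3, qf Qb x.1 ^ (-s) * (qf H x.1 / qf Qb x.1) =
      ((H 0 0 + H 1 1 + 2 * H 0 1) / 4 * ((bv x.1 0 : ℝ) * (bv x.1 0 : ℝ)) +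
        (H 0 0 + H 2 2 + 2 * H 0 2) / 4 * ((bv x.1 1 : ℝ) * (bv x.1 1 : ℝ)) +
        (H 1 1 + H 2 2 + 2 * H 1 2) / 4 * ((bv x.1 2 : ℝ) * (bv x.1 2 : ℝ)) +
        (2 * H 0 0 + 2 * H 0 1 + 2 * H 0 2 + 2 * H 1 2) / 4 *
          ((bv x.1 0 : ℝ) * (bv x.1 1 : ℝ)) +
        (2 * H 1 1 + 2 * H 0 1 + 2 * H 0 2 + 2 * H 1 2) / 4 *
          ((bv x.1 0 : ℝ) * (bv x.1 2 : ℝ)) +
        (2 * H 2 2 + 2 * H 0 1 + 2 * H 0 2 + 2 * H 1 2) / 4 *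
          ((bv x.1 1 : ℝ) * (bv x.1 2 : ℝ))) / qf Qb x.1 ^ (s + 1) := by
    intro x
    have hp := Qb_pd.pos x
    have e1 : qf H x.1 = (H 0 0 + H 1 1 + 2 * H 0 1) / 4 * ((bv x.1 0 : ℝ) * (bv x.1 0 : ℝ)) +
        (H 0 0 + H 2 2 + 2 * H 0 2) / 4 * ((bv x.1 1 : ℝ) * (bv x.1 1 : ℝ)) +
        (H 1 1 + H 2 2 + 2 * H 1 2) / 4 * ((bv x.1 2 : ℝ) * (bv x.1 2 : ℝ)) +
        (2 * H 0 0 + 2 * H 0 1 + 2 * H 0 2 + 2 * H 1 2) / 4 *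
          ((bv x.1 0 : ℝ) * (bv x.1 1 : ℝ)) +
        (2 * H 1 1 + 2 * H 0 1 + 2 * H 0 2 + 2 * H 1 2) / 4 *
          ((bv x.1 0 : ℝ) * (bv x.1 2 : ℝ)) +
        (2 * H 2 2 + 2 * H 0 1 + 2 * H 0 2 + 2 * H 1 2) / 4 *
          ((bv x.1 1 : ℝ) * (bv x.1 2 : ℝ)) := by
      simp [qf, qr, rv, bv, dotProduct, mulVec, Fin.sum_univ_three, h10, h20, h21]
      ring
    rw [e1, Real.rpow_add hp, Real.rpow_one, Real.rpow_neg hp.le]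
    field_simp
  rw [tsum_congr e, h]
  push_cast
  ring

end Pool.Agent.Lib.EPL
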