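import Pool.Agent.Lib.EPL.Sec

/-!
# EPL.BDef: the body-centred cubic lattice, definitions
-/

open MeasureTheory Set Filter Topology Matrix
open scoped Matrix.Norms.Elementwise

namespace Pool.Agent.Lib.EPL

open Pool.Agent.Lib.EpZ Pool.Agent.Lib.EPS

/-- the form of the body-centred cubic lattice -/
def Qb : Mx 3 := !![3, -1, -1; -1, 3, -1; -1, -1, 3]

/-- the matrix of the cubic coordinates -/
def Pb : Mx 3 := !![1, 1, -1; 1, -1, 1; -1, 1, 1]

/-- cubic coordinates of a vector of the body-centred cubic lattice -/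
def bv (x : Fin 3 → ℤ) : Fin 3 → ℤ := ![x 0 + x 1 - x 2, x 0 - x 1 + x 2, -x 0 + x 1 + x 2]

/-- cubic coordinates of (two times) a vector of the dual lattice -/
def du (y : Fin 3 → ℤ) : Fin 3 → ℤ := ![y 0 + y 1, y 0 + y 2, y 1 + y 2]

/-- the weights `v₁⁴ - v₁² v₂²`, `v₁²`, `v₁² v₂²` -/
def wE (v : Fin 3 → ℤ) : ℝ := (v 0 : ℝ) ^ 4 - (v 0 : ℝ) ^ 2 * (v 1 : ℝ) ^ 2
/-- the weight `v₁²` -/
def wK (v : Fin 3 → ℤ) : ℝ := (v 0 : ℝ) ^ 2
/-- the weight `v₁² v₂²` -/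
def wT (v : Fin 3 → ℤ) : ℝ := (v 0 : ℝ) ^ 2 * (v 1 : ℝ) ^ 2

/-- second derivative of the theta function of the bcc lattice in the tetragonal direction -/
noncomputable def gE (t : ℝ) : ℝ :=
  t ^ 2 * Tw Qb (fun x => wE (bv x)) t - t * Tw Qb (fun x => wK (bv x)) t

/-- second derivative of the theta function of the bcc lattice in the trigonal direction -/
noncomputable def gT (t : ℝ) : ℝ :=
  2 * t ^ 2 * Tw Qb (fun x => wT (bv x)) t - t * Tw Qb (fun x => wK (bv x)) t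

/-- the same for the dual lattice -/
noncomputable def gE' (t : ℝ) : ℝ :=
  t ^ 2 * (Tw Qb⁻¹ (fun y => wE (du y)) t / 16) - t * (Tw Qb⁻¹ (fun y => wK (du y)) t / 4)

/-- the same for the dual lattice -/
noncomputable def gT' (t : ℝ) : ℝ :=
  2 * t ^ 2 * (Tw Qb⁻¹ (fun y => wT (du y)) t / 16) - t * (Tw Qb⁻¹ (fun y => wK (du y)) t / 4)

/-- the moments -/
noncomputable def X4 (s : ℝ) : ℝ := ∑' x : NZ 3, ((bv x.1 0 : ℝ)) ^ 4 / qf Qb x.1 ^ (s + 2)
/-- the moments -/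
noncomputable def X22 (s : ℝ) : ℝ := ∑' x : NZ 3, wT (bv x.1) / qf Qb x.1 ^ (s + 2)

/-- second derivatives of the energy, up to positive factors -/
noncomputable def ME (s : ℝ) : ℝ := s * X4 s - (s + 3) * X22 s
/-- second derivatives of the energy, up to positive factors -/
noncomputable def MT (s : ℝ) : ℝ := 2 * s * X22 s - X4 s

lemma Qb_eq : Qb = Pbᵀ * Pb := by
  ext i j
  fin_cases i <;> fin_cases j <;> simp [Qb, Pb, Matrix.mul_apply, Fin.sum_univ_three] <;> norm_num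

lemma Pb_det : Pb.det = -4 := by
  simp [Pb, det_fin_three]; norm_num

lemma Qb_det : Qb.det = 16 := by
  simp [Qb, det_fin_three]; norm_num

lemma qf_Qb (x : Fin 3 → ℤ) :
    qf Qb x = (bv x 0 : ℝ) ^ 2 + (bv x 1 : ℝ) ^ 2 + (bv x 2 : ℝ) ^ 2 := by
  simp [qf, qr, rv, Qb, bv, dotProduct, mulVec, Fin.sum_univ_three]
  ring

lemma Qb_pd : PD Qb := by
  constructor
  · ext i j
    fin_cases i <;> fin_cases j <;> simp [Qb]
  · intro v hv
    have e : qr Qb v = (v 0 + v 1 - v 2) ^ 2 + (v 0 - v 1 + v 2) ^ 2 + (-v 0 + v 1 + v 2) ^ 2 := by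
      simp [qr, Qb, dotProduct, mulVec, Fin.sum_univ_three]
      ring
    rw [e]
    by_contra hcon
    push Not at hcon
    have p1 := sq_nonneg (v 0 + v 1 - v 2)
    have p2 := sq_nonneg (v 0 - v 1 + v 2)
    have p3 := sq_nonneg (-v 0 + v 1 + v 2)
    have h1 : (v 0 + v 1 - v 2) ^ 2 = 0 := by linarith
    have h2 : (v 0 - v 1 + v 2) ^ 2 = 0 := by linarith
    have h3 : (-v 0 + v 1 + v 2) ^ 2 = 0 := by linarith
    have h1' := (pow_eq_zero_iff two_ne_zero).1 h1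
    have h2' := (pow_eq_zero_iff two_ne_zero).1 h2
    have h3' := (pow_eq_zero_iff two_ne_zero).1 h3
    refine hv (funext fun i => ?_)
    fin_cases i <;> simp <;> linarith

lemma Qb_inv : Qb⁻¹ = !![1/2, 1/4, 1/4; 1/4, 1/2, 1/4; 1/4, 1/4, 1/2] := by
  refine inv_eq_right_inv ?_
  ext i j
  fin_cases i <;> fin_cases j <;> simp [Qb, Matrix.mul_apply, Fin.sum_univ_three] <;> norm_num

lemma qf_Qb_inv (y : Fin 3 → ℤ) :
    qf Qb⁻¹ y = ((du y 0 : ℝ) ^ 2 + (du y 1 : ℝ) ^ 2 + (du y 2 : ℝ) ^ 2) / 4 := by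
  rw [Qb_inv]
  simp [qf, qr, rv, du, dotProduct, mulVec, Fin.sum_univ_three]
  ring

lemma bv_zero : bv 0 = 0 := by
  ext i; fin_cases i <;> simp [bv]

/-- the norm as a natural number -/
def nb (x : Fin 3 → ℤ) : ℕ :=
  (bv x 0).natAbs ^ 2 + (bv x 1).natAbs ^ 2 + (bv x 2).natAbs ^ 2

lemma nb_cast (x : Fin 3 → ℤ) : (nb x : ℝ) = qf Qb x := by
  rw [qf_Qb]
  unfold nb
  push_cast
  have h : ∀ a : ℤ, ((a.natAbs : ℝ)) ^ 2 = (a : ℝ) ^ 2 := fun a => by
    rw [Nat.cast_natAbs, ← sq_abs (a : ℝ)]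
    push_cast
    rfl
  rw [h, h, h]

lemma exp_nb (t : ℝ) (x : Fin 3 → ℤ) : Real.exp (-(t * qf Qb x)) = Real.exp (-t) ^ nb x := by
  rw [← nb_cast, ← Real.exp_nat_mul]
  congr 1
  ring

end Pool.Agent.Lib.EPL
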