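import Pool.Agent.Lib.EPL.BHalf

/-!
# EPL.BDir: bounds for the theta sums of the bcc lattice at `t ≥ 7/10`

The norms `nb x < 11` are `0, 3, 4, 8` (all `|v_i| ≤ 3`: finite check), with 1, 8, 6, 12 vectors. `X = exp(-t) ≤ 1/2`
(`exp(7/10) ≥ 2`: `exp_bound`, or `Real.log_two_lt_d9`). LOWER BOUNDS: sums of nonnegative terms (`wS`, `wK`, `wT ≥ 0`) are at least the sums over a finite
set of vectors (`sum_le_tsum`), e.g. `wS`: `v = (±2,0,0), (0,±2,0)` give `4 * 8 X⁴`; `wT`: `(±1,±1,±1)`: `8 X³`; `wK`: `8 X³ + 2 * 4 X⁴ + 8 * 4 X⁸ + (8 * 9 + 16) X¹¹` (norm 11: the 24 vectors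
`(±3,±1,±1)`, `(±1,±3,±1)`, `(±1,±1,±3)`; give the finite set by the vectors `x`, `x₀ = (v₁+v₂)/2`, `x₁ = (v₁+v₃)/2`, `x₂ = (v₂+v₃)/2`).
UPPER BOUNDS: let `S` be the finite set of the 26 vectors of norm 3, 4, 8; for all other `x` with `w ≠ 0` `nb x ≥ 11` and
`X^(nb x) ≤ X^11 * 2^11 * (1/2)^(nb x)`. Hence `w(x) X^(nb x) ≤ 2048 X^11 w(x) (1/2)^(nb x) + (if x ∈ S then w(x) (X^(nb x) - 2048 X^11 (1/2)^(nb x)) else 0)`;
sum up: `K ≤ 8 X³ + 8 X⁴ + 32 X⁸ + 2048 X¹¹ (1677/1000 - 8/8 - 8/16 - 32/256)`, `2048 * 0.052 = 106.5`;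
`wS`: shells `0, 32, 64`: `2048 * (2.511 - 2 - 1/4) = 534.5`.
-/

open MeasureTheory Set Filter Topology Matrix
open scoped Matrix.Norms.Elementwise

namespace Pool.Agent.Lib.EPL

open Pool.Agent.Lib.EpZ Pool.Agent.Lib.EPS

namespace BDirAux

/-- the vectors with entries between `-3` and `3` -/
def bx (i : Fin 7 × Fin 7 × Fin 7) : Fin 3 → ℤ :=
  ![(i.1.val : ℤ) - 3, (i.2.1.val : ℤ) - 3, (i.2.2.val : ℤ) - 3]

theorem mem_of {x : Fin 3 → ℤ} (h : ∀ j, -3 ≤ x j ∧ x j ≤ 3) : ∃ i, bx i = x := by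
  have h0 := h 0
  have h1 := h 1
  have h2 := h 2
  refine ⟨(⟨(x 0 + 3).toNat, by omega⟩, ⟨(x 1 + 3).toNat, by omega⟩,
    ⟨(x 2 + 3).toNat, by omega⟩), funext fun j => ?_⟩
  fin_cases j
  · show ((x 0 + 3).toNat : ℤ) - 3 = x 0
    omega
  · show ((x 1 + 3).toNat : ℤ) - 3 = x 1
    omega
  · show ((x 2 + 3).toNat : ℤ) - 3 = x 2
    omega

theorem bx_inj : Function.Injective bx := by
  intro i j h
  have h0 : ((i.1.val : ℤ) - 3) = (j.1.val : ℤ) - 3 := congrFun h 0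
  have h1 : ((i.2.1.val : ℤ) - 3) = (j.2.1.val : ℤ) - 3 := congrFun h 1
  have h2 : ((i.2.2.val : ℤ) - 3) = (j.2.2.val : ℤ) - 3 := congrFun h 2
  exact Prod.ext (Fin.ext (by omega)) (Prod.ext (Fin.ext (by omega)) (Fin.ext (by omega)))

theorem box_of {x : Fin 3 → ℤ} (hx : nb x < 16) : ∃ i, bx i = x := by
  refine mem_of fun j => ?_
  by_contra hj
  have h4 : 16 ≤ x j ^ 2 := by
    by_cases h5 : -3 ≤ x j
    · have h6 : 4 ≤ x j := by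
        by_contra h7
        exact hj ⟨h5, by omega⟩
      nlinarith
    · have h6 : x j ≤ -4 := by omega
      nlinarith
  have h2 : ((nb x : ℕ) : ℤ) =
      (x 0 + x 1 - x 2) ^ 2 + (x 0 - x 1 + x 2) ^ 2 + (-(x 0) + x 1 + x 2) ^ 2 := by
    unfold nb
    push_cast
    simp only [sq_abs]
    rfl
  have h3 : ((nb x : ℕ) : ℤ) < 16 := by exact_mod_cast hx
  rw [h2] at h3
  fin_cases j
  · have h5 : 16 ≤ x 0 ^ 2 := h4
    nlinarith [sq_nonneg (x 1 - x 2), sq_nonneg (x 0 - x 1), sq_nonneg (x 0 - x 2),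
      sq_nonneg (-(x 0) + x 1 + x 2)]
  · have h5 : 16 ≤ x 1 ^ 2 := h4
    nlinarith [sq_nonneg (x 0 - x 2), sq_nonneg (x 0 - x 1), sq_nonneg (x 1 - x 2),
      sq_nonneg (x 0 - x 1 + x 2)]
  · have h5 : 16 ≤ x 2 ^ 2 := h4
    nlinarith [sq_nonneg (x 0 - x 1), sq_nonneg (x 0 - x 2), sq_nonneg (x 1 - x 2),
      sq_nonneg (x 0 + x 1 - x 2)]

/-- twice the weights -/
def iS (v : Fin 3 → ℤ) : ℤ := (v 0 ^ 2 - v 1 ^ 2) ^ 2
/-- twice the weights -/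
def iK (v : Fin 3 → ℤ) : ℤ := 2 * v 0 ^ 2
/-- twice the weights -/
def iT (v : Fin 3 → ℤ) : ℤ := 2 * (v 0 ^ 2 * v 1 ^ 2)

theorem wS_i (v : Fin 3 → ℤ) : wS v = (iS v : ℝ) / 2 := by
  unfold wS iS; push_cast; rfl

theorem wK_i (v : Fin 3 → ℤ) : wK v = (iK v : ℝ) / 2 := by
  unfold wK iK; push_cast; ring

theorem wT_i (v : Fin 3 → ℤ) : wT v = (iT v : ℝ) / 2 := by
  unfold wT iT; push_cast; ring

/-- the sum over a shell -/
def cs (wi : (Fin 3 → ℤ) → ℤ) (n : ℕ) : ℤ :=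
  ∑ i : Fin 7 × Fin 7 × Fin 7, if nb (bx i) = n then wi (bv (bx i)) else 0

theorem box_sum {w : (Fin 3 → ℤ) → ℝ} {wi : (Fin 3 → ℤ) → ℤ} (hw : ∀ v, w v = (wi v : ℝ) / 2)
    (N : ℕ) (X : ℝ) :
    ∑ i, (if nb (bx i) < N then w (bv (bx i)) * X ^ nb (bx i) else 0) =
      ∑ n ∈ Finset.range N, (cs wi n : ℝ) / 2 * X ^ n := by
  have h1 : ∀ n ∈ Finset.range N, (cs wi n : ℝ) / 2 * X ^ n =
      ∑ i : Fin 7 × Fin 7 × Fin 7, (if nb (bx i) = n then w (bv (bx i)) * X ^ n else 0) := by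
    intro n _
    unfold cs
    push_cast
    rw [Finset.sum_div, Finset.sum_mul]
    refine Finset.sum_congr rfl fun i _ => ?_
    split_ifs
    · rw [hw]
    · simp
  rw [Finset.sum_congr rfl h1, Finset.sum_comm]
  refine Finset.sum_congr rfl fun i _ => ?_
  rw [Finset.sum_ite_eq]
  simp only [Finset.mem_range]

theorem box_le {f : (Fin 3 → ℤ) → ℝ} (h0 : ∀ x, 0 ≤ f x) (hf : Summable f) (N : ℕ) :
    ∑ i, (if nb (bx i) < N then f (bx i) else 0) ≤ ∑' x, f x := by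
  classical
  have h1 : ∑ i, (if nb (bx i) < N then f (bx i) else 0) ≤ ∑ i, f (bx i) := by
    refine Finset.sum_le_sum fun i _ => ?_
    split_ifs
    · exact le_rfl
    · exact h0 _
  have h2 : ∑ i, f (bx i) = ∑ x ∈ Finset.univ.image bx, f x := by
    rw [Finset.sum_image (fun a _ b _ hab => bx_inj hab)]
  rw [h2] at h1
  exact h1.trans (hf.sum_le_tsum _ fun x _ => h0 x)

theorem box_has {g : (Fin 3 → ℤ) → ℝ} (h0 : ∀ x, 16 ≤ nb x → g x = 0) :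
    HasSum g (∑ i, g (bx i)) := by
  classical
  have h2 : ∑ i, g (bx i) = ∑ x ∈ Finset.univ.image bx, g x := by
    rw [Finset.sum_image (fun a _ b _ hab => bx_inj hab)]
  rw [h2]
  refine hasSum_sum_of_ne_finset_zero fun x hx => h0 x ?_
  by_contra hlt
  obtain ⟨i, hi⟩ := box_of (x := x) (by omega)
  exact hx (Finset.mem_image.mpr ⟨i, Finset.mem_univ i, hi⟩)

theorem Tw_X (w : (Fin 3 → ℤ) → ℝ) (t : ℝ) :
    Tw Qb (fun x => w (bv x)) t = ∑' x, w (bv x) * Real.exp (-t) ^ nb x := by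
  unfold Tw
  exact tsum_congr fun x => by rw [exp_nb]

theorem sum_X {w : (Fin 3 → ℤ) → ℝ} (hw : w = wE ∨ w = wK ∨ w = wT ∨ w = wS) {t : ℝ}
    (ht : 0 < t) : Summable fun x : Fin 3 → ℤ => w (bv x) * Real.exp (-t) ^ nb x :=
  (summable_b hw ht).congr fun x => by rw [exp_nb]

theorem lower {w : (Fin 3 → ℤ) → ℝ} {wi : (Fin 3 → ℤ) → ℤ}
    (hw : w = wE ∨ w = wK ∨ w = wT ∨ w = wS) (hwi : ∀ v, w v = (wi v : ℝ) / 2)
    (h0 : ∀ v, 0 ≤ w v) {t : ℝ} (ht : 0 < t) (N : ℕ) :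
    ∑ n ∈ Finset.range N, (cs wi n : ℝ) / 2 * Real.exp (-t) ^ n ≤
      Tw Qb (fun x => w (bv x)) t := by
  rw [Tw_X, ← box_sum hwi]
  exact box_le (f := fun x => w (bv x) * Real.exp (-t) ^ nb x)
    (fun x => mul_nonneg (h0 _) (by positivity)) (sum_X hw ht) N

theorem upper {w : (Fin 3 → ℤ) → ℝ} {wi : (Fin 3 → ℤ) → ℤ}
    (hw : w = wE ∨ w = wK ∨ w = wT ∨ w = wS) (hwi : ∀ v, w v = (wi v : ℝ) / 2)
    (h0 : ∀ v, 0 ≤ w v) {H : ℝ}
    (hH : Summable (fun x : Fin 3 → ℤ => w (bv x) * (1 / 2 : ℝ) ^ nb x) ∧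
      ∑' x : Fin 3 → ℤ, w (bv x) * (1 / 2 : ℝ) ^ nb x ≤ H) {t : ℝ} (ht : 0 < t)
    (hX : Real.exp (-t) ≤ 1 / 2) :
    Tw Qb (fun x => w (bv x)) t ≤
      ∑ n ∈ Finset.range 11, (cs wi n : ℝ) / 2 * Real.exp (-t) ^ n +
      2048 * Real.exp (-t) ^ 11 *
        (H - ∑ n ∈ Finset.range 11, (cs wi n : ℝ) / 2 * (1 / 2 : ℝ) ^ n) := by
  set X := Real.exp (-t) with hXd
  have hX0 : 0 < X := Real.exp_pos _
  rw [Tw_X, ← box_sum hwi, ← box_sum hwi]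
  set g : (Fin 3 → ℤ) → ℝ := fun x => if nb x < 11 then
    w (bv x) * X ^ nb x - 2048 * X ^ 11 * (w (bv x) * (1 / 2 : ℝ) ^ nb x) else 0 with hg
  have hgs : HasSum g (∑ i, g (bx i)) := box_has fun x hx => by
    simp only [hg]
    rw [if_neg (by omega)]
  have hsum := hgs.add (hH.1.hasSum.mul_left (2048 * X ^ 11))
  have hle := hasSum_le (fun x => ?_) (sum_X hw ht).hasSum hsum
  · refine hle.trans ?_
    have e1 : ∑ i, g (bx i) = ∑ i, (if nb (bx i) < 11 then w (bv (bx i)) * X ^ nb (bx i) else 0) -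
        2048 * X ^ 11 *
          ∑ i, (if nb (bx i) < 11 then w (bv (bx i)) * (1 / 2 : ℝ) ^ nb (bx i) else 0) := by
      rw [Finset.mul_sum, ← Finset.sum_sub_distrib]
      refine Finset.sum_congr rfl fun i _ => ?_
      simp only [hg]
      split_ifs
      · rfl
      · simp
    rw [e1]
    have e2 := mul_le_mul_of_nonneg_left hH.2 (by positivity : (0 : ℝ) ≤ 2048 * X ^ 11)
    linarith
  · show w (bv x) * X ^ nb x ≤ g x + 2048 * X ^ 11 * (w (bv x) * (1 / 2 : ℝ) ^ nb x)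
    simp only [hg]
    by_cases hx : nb x < 11
    · rw [if_pos hx]
      linarith
    · rw [if_neg hx, zero_add]
      obtain ⟨k, hk⟩ : ∃ k, nb x = 11 + k := ⟨nb x - 11, by omega⟩
      rw [hk, pow_add, pow_add]
      have e3 : X ^ k ≤ (1 / 2 : ℝ) ^ k := pow_le_pow_left₀ hX0.le hX k
      have e4 : w (bv x) * (X ^ 11 * X ^ k) ≤ w (bv x) * (X ^ 11 * (1 / 2 : ℝ) ^ k) :=
        mul_le_mul_of_nonneg_left (mul_le_mul_of_nonneg_left e3 (by positivity)) (h0 _)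
      refine e4.trans (le_of_eq ?_)
      norm_num
      ring

theorem wS_nn (v : Fin 3 → ℤ) : 0 ≤ wS v := by unfold wS; positivity

theorem wK_nn (v : Fin 3 → ℤ) : 0 ≤ wK v := by unfold wK; positivity

theorem wT_nn (v : Fin 3 → ℤ) : 0 ≤ wT v := by unfold wT; positivity

theorem cS' : cs iS 0 = 0 ∧ cs iS 1 = 0 ∧ cs iS 2 = 0 ∧ cs iS 3 = 0 ∧ cs iS 4 = 64 ∧
    cs iS 5 = 0 ∧ cs iS 6 = 0 ∧ cs iS 7 = 0 ∧ cs iS 8 = 128 ∧ cs iS 9 = 0 ∧ cs iS 10 = 0 := by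
  decide +kernel

theorem cK' : cs iK 0 = 0 ∧ cs iK 1 = 0 ∧ cs iK 2 = 0 ∧ cs iK 3 = 16 ∧ cs iK 4 = 16 ∧
    cs iK 5 = 0 ∧ cs iK 6 = 0 ∧ cs iK 7 = 0 ∧ cs iK 8 = 64 ∧ cs iK 9 = 0 ∧ cs iK 10 = 0 ∧
    cs iK 11 = 176 := by
  decide +kernel

theorem cT' : cs iT 0 = 0 ∧ cs iT 1 = 0 ∧ cs iT 2 = 0 ∧ cs iT 3 = 16 := by
  decide +kernel

end BDirAux

open BDirAux

theorem exp_le_half {t : ℝ} (ht : 7 / 10 ≤ t) : Real.exp (-t) ≤ 1 / 2 := by
  have h1 := Real.log_two_lt_d9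
  have h2 : (2 : ℝ) ≤ Real.exp t := by
    calc (2 : ℝ) = Real.exp (Real.log 2) := (Real.exp_log (by norm_num)).symm
      _ ≤ Real.exp t := Real.exp_le_exp.mpr (by linarith)
  rw [Real.exp_neg, one_div]
  exact inv_anti₀ (by norm_num) h2

theorem wS_lower {t : ℝ} (ht : 0 < t) :
    32 * Real.exp (-t) ^ 4 ≤ Tw Qb (fun x => wS (bv x)) t := by
  refine le_trans (le_of_eq ?_) (lower (w := wS) (wi := iS) (by tauto) wS_i wS_nn ht 5)
  obtain ⟨c0, c1, c2, c3, c4, -⟩ := cS'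
  simp only [Finset.sum_range_succ, Finset.sum_range_zero, c0, c1, c2, c3, c4]
  push_cast
  ring

theorem wT_lower {t : ℝ} (ht : 0 < t) :
    8 * Real.exp (-t) ^ 3 ≤ Tw Qb (fun x => wT (bv x)) t := by
  refine le_trans (le_of_eq ?_) (lower (w := wT) (wi := iT) (by tauto) wT_i wT_nn ht 4)
  obtain ⟨c0, c1, c2, c3⟩ := cT'
  simp only [Finset.sum_range_succ, Finset.sum_range_zero, c0, c1, c2, c3]
  push_cast
  ring

theorem wK_lower {t : ℝ} (ht : 0 < t) :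
    8 * Real.exp (-t) ^ 3 + 8 * Real.exp (-t) ^ 4 + 32 * Real.exp (-t) ^ 8 +
      88 * Real.exp (-t) ^ 11 ≤ Tw Qb (fun x => wK (bv x)) t := by
  refine le_trans (le_of_eq ?_) (lower (w := wK) (wi := iK) (by tauto) wK_i wK_nn ht 12)
  obtain ⟨c0, c1, c2, c3, c4, c5, c6, c7, c8, c9, c10, c11⟩ := cK'
  simp only [Finset.sum_range_succ, Finset.sum_range_zero, c0, c1, c2, c3, c4, c5, c6, c7, c8, c9,
    c10, c11]
  push_cast
  ring

theorem wK_upper {t : ℝ} (ht : 7 / 10 ≤ t) :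
    Tw Qb (fun x => wK (bv x)) t ≤ 8 * Real.exp (-t) ^ 3 + 8 * Real.exp (-t) ^ 4 +
      32 * Real.exp (-t) ^ 8 + 107 * Real.exp (-t) ^ 11 := by
  refine le_trans (upper (w := wK) (wi := iK) (by tauto) wK_i wK_nn K_half (by linarith)
    (exp_le_half ht)) ?_
  obtain ⟨c0, c1, c2, c3, c4, c5, c6, c7, c8, c9, c10, c11⟩ := cK'
  simp only [Finset.sum_range_succ, Finset.sum_range_zero, c0, c1, c2, c3, c4, c5, c6, c7, c8, c9,
    c10]
  push_cast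
  have h : 0 ≤ Real.exp (-t) ^ 11 := by positivity
  norm_num
  linarith

theorem wS_upper {t : ℝ} (ht : 7 / 10 ≤ t) :
    Tw Qb (fun x => wS (bv x)) t ≤ 32 * Real.exp (-t) ^ 4 + 64 * Real.exp (-t) ^ 8 +
      535 * Real.exp (-t) ^ 11 := by
  refine le_trans (upper (w := wS) (wi := iS) (by tauto) wS_i wS_nn S_half (by linarith)
    (exp_le_half ht)) ?_
  obtain ⟨c0, c1, c2, c3, c4, c5, c6, c7, c8, c9, c10⟩ := cS'
  simp only [Finset.sum_range_succ, Finset.sum_range_zero, c0, c1, c2, c3, c4, c5, c6, c7, c8, c9,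
    c10]
  push_cast
  have h : 0 ≤ Real.exp (-t) ^ 11 := by positivity
  norm_num
  linarith

end Pool.Agent.Lib.EPL
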