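import Pool.Agent.Lib.EPL.Sec

/-!
# EPL.BSec2: the Poisson formula for the second derivative along a unipotent path

`Θ₁(e) = ∑ exp(-t P(e)[x])`, `P(e) = Q + e H + e² K`, `H = Hd Q w z`, `K = qr Q z • w wᵀ`; by `path_inv`, `path_pd`,
`theta_dual` (as in the proof of `Th_dual_Hd`) `Θ₁(e) = c Θ₂(e)`, `Θ₂(e) = ∑ exp(-τ P(e)⁻¹[y])`, `P(e)⁻¹ = Q⁻¹ + e H' + e² K'`,
`τ = π²/t`, `c = (π/t)^(3/2) det Q^(-1/2)`.
FIRST DERIVATIVE at any `e`: `P(e+δ) = P(e) + δ (H + 2 e K) + δ² K`, so by `hasDerivAt_theta` for the form `P(e)`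
(translated by `e`) `Θ₁'(e) = -t Th (P e) (H + 2 e K) t`; likewise for `Θ₂`. Hence for all `e`
  `t * Th (P e) (H + 2 e K) t = c * (τ * Th (P e)⁻¹ (H' + 2 e K') τ)`.
SECOND DERIVATIVE: `hasDerivAt_Th` (same proof as `hasDerivAt_theta` in Pois.lean: termwise derivative
`(2 K[x] - t (H[x] + 2 e K[x])²) exp(-t P(e)[x])`, majorised by `C (nn x + nn x ^ 2) exp(-t c/2 nn x)`, summable by `pow_exp`).
Uniqueness of the derivative at `0`, then divide by `-2`.
-/

open MeasureTheory Set Filter Topology Matrix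
open scoped Matrix.Norms.Elementwise

namespace Pool.Agent.Lib.EPL

open Pool.Agent.Lib.EpZ Pool.Agent.Lib.EPS

namespace BSec2Aux

lemma summable_pow (m : ℕ) {c : ℝ} (hc : 0 < c) :
    Summable fun x : Fin 3 → ℤ => nn x ^ m * Real.exp (-(c * nn x)) := by
  obtain ⟨C, hC, hCe⟩ := pow_exp m hc
  refine Summable.of_nonneg_of_le
    (fun x => mul_nonneg (pow_nonneg (nn_nonneg x) m) (Real.exp_pos _).le)
    (fun x => hCe (nn x) (nn_nonneg x)) ?_
  refine Summable.mul_left _ ?_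
  refine (P34eea4.summable_gauss_int (Fin 3) (c := c / 2) (by positivity)).congr fun x => ?_
  unfold nn
  congr 1
  ring

end BSec2Aux

/-- the derivative of `Th` along a quadratic path -/
theorem hasDerivAt_Th {Q : Mx 3} (hQ : PD Q) (H K : Mx 3) {t : ℝ} (ht : 0 < t) :
    HasDerivAt (fun e : ℝ => Th (Q + e • H + e ^ 2 • K) (H + (2 * e) • K) t)
      (2 * Tw Q (fun x => EpZ.qf K x) t - t * Tw Q (fun x => EpZ.qf H x * EpZ.qf H x) t) 0 := by
  obtain ⟨c, hc, hl⟩ := hQ.low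
  set M : ℝ := 3 * ‖H‖ + 3 * ‖K‖ with hM
  have hM0 : 0 ≤ M := by positivity
  set r : ℝ := min 1 (c / (2 * (M + 1))) with hr
  have hr0 : 0 < r := lt_min one_pos (by positivity)
  set A : ℝ := 3 * ‖H‖ + 2 * (3 * ‖K‖) with hA
  have hA0 : 0 ≤ A := by positivity
  have hH : ∀ x : Fin 3 → ℤ, |qf H x| ≤ 3 * ‖H‖ * nn x := fun x => by
    simpa using qf_abs_le H x
  have hK : ∀ x : Fin 3 → ℤ, |qf K x| ≤ 3 * ‖K‖ * nn x := fun x => by
    simpa using qf_abs_le K x
  have hval : ∀ (e : ℝ) (x : Fin 3 → ℤ), qf (Q + e • H + e ^ 2 • K) x =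
      qf Q x + e * qf H x + e ^ 2 * qf K x := fun e x => by
    rw [qf_add, qf_add, qf_smul, qf_smul]
  have hval2 : ∀ (e : ℝ) (x : Fin 3 → ℤ), qf (H + (2 * e) • K) x =
      qf H x + 2 * e * qf K x := fun e x => by
    rw [qf_add, qf_smul]
  have hlow : ∀ e ∈ Metric.ball (0 : ℝ) r, ∀ x : Fin 3 → ℤ,
      c / 2 * nn x ≤ qf (Q + e • H + e ^ 2 • K) x := by
    intro e he x
    have he1 : |e| < r := by simpa using he
    have he2 : |e| ≤ 1 := he1.le.trans (min_le_left _ _)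
    have he3 : |e| ≤ c / (2 * (M + 1)) := he1.le.trans (min_le_right _ _)
    have hn := nn_nonneg x
    rw [hval]
    have h1 : |e * qf H x| ≤ |e| * (3 * ‖H‖ * nn x) := by
      rw [abs_mul]; exact mul_le_mul_of_nonneg_left (hH x) (abs_nonneg _)
    have h2 : |e ^ 2 * qf K x| ≤ |e| * (3 * ‖K‖ * nn x) := by
      rw [abs_mul, abs_pow]
      have h3 : |e| ^ 2 ≤ |e| := by nlinarith [abs_nonneg e]
      exact mul_le_mul h3 (hK x) (abs_nonneg _) (abs_nonneg _)
    have h4 : |e| * (M * nn x) ≤ c / 2 * nn x := by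
      have h5 : |e| * M ≤ c / 2 := by
        calc |e| * M ≤ c / (2 * (M + 1)) * (M + 1) :=
              mul_le_mul he3 (by linarith) hM0 (by positivity)
          _ = c / 2 := by field_simp
      nlinarith
    have h6 := hl x
    have h7 := (abs_le.mp h1).1
    have h8 := (abs_le.mp h2).1
    rw [hM] at h4
    nlinarith
  have hu : Summable fun x : Fin 3 → ℤ =>
      2 * (3 * ‖K‖) * (nn x ^ 1 * Real.exp (-(t * (c / 2) * nn x))) +
        t * A ^ 2 * (nn x ^ 2 * Real.exp (-(t * (c / 2) * nn x))) :=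
    ((BSec2Aux.summable_pow 1 (by positivity)).mul_left _).add
      ((BSec2Aux.summable_pow 2 (by positivity)).mul_left _)
  have key := hasDerivAt_tsum_of_isPreconnected (𝕜 := ℝ) (y := (0 : ℝ)) (y₀ := (0 : ℝ))
    (g := fun (x : Fin 3 → ℤ) (e : ℝ) => qf (H + (2 * e) • K) x *
      Real.exp (-(t * qf (Q + e • H + e ^ 2 • K) x)))
    (g' := fun (x : Fin 3 → ℤ) (e : ℝ) => (2 * qf K x - t * (qf H x + 2 * e * qf K x) ^ 2) *
      Real.exp (-(t * qf (Q + e • H + e ^ 2 • K) x))) hu Metric.isOpen_ball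
    (Metric.isPreconnected_ball (x := (0 : ℝ)) (r := r)) ?_ ?_ (Metric.mem_ball_self hr0) ?_
    (Metric.mem_ball_self hr0)
  · convert! key using 1
    unfold Tw
    rw [← tsum_mul_left, ← tsum_mul_left,
      ← ((((Pg.qf K).summable hQ ht).mul_left _).tsum_sub
        ((((Pg.qf H).mul (Pg.qf H)).summable hQ ht).mul_left _))]
    refine tsum_congr fun x => ?_
    simp only [zero_smul, add_zero, ne_eq, OfNat.ofNat_ne_zero, not_false_eq_true, zero_pow,
      mul_zero, zero_mul]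
    ring
  · intro x e _
    have h1 : HasDerivAt (fun e : ℝ => -(t * qf (Q + e • H + e ^ 2 • K) x))
        (-(t * (qf H x + 2 * e * qf K x))) e := by
      have h2 : (fun e : ℝ => -(t * qf (Q + e • H + e ^ 2 • K) x)) =
          fun e : ℝ => -(t * (qf Q x + e * qf H x + e ^ 2 * qf K x)) := by
        funext e; rw [hval]
      rw [h2]
      have h3 : HasDerivAt (fun e : ℝ => qf Q x + e * qf H x + e ^ 2 * qf K x)
          (0 + 1 * qf H x + (2 : ℕ) * e ^ (2 - 1) * qf K x) e :=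
        ((hasDerivAt_const e (qf Q x)).add ((hasDerivAt_id e).mul_const _)).add
          ((hasDerivAt_pow 2 e).mul_const _)
      have h4 := (h3.const_mul t).neg
      convert! h4 using 1
      push_cast
      ring
    have h5 := h1.exp
    have h6 : HasDerivAt (fun e : ℝ => qf (H + (2 * e) • K) x) (2 * qf K x) e := by
      have h7 : (fun e : ℝ => qf (H + (2 * e) • K) x) =
          fun e : ℝ => qf H x + 2 * e * qf K x := by
        funext e; rw [hval2]
      rw [h7]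
      have h8 : HasDerivAt (fun e : ℝ => qf H x + 2 * e * qf K x) (0 + 2 * 1 * qf K x) e :=
        (hasDerivAt_const e (qf H x)).add (((hasDerivAt_id e).const_mul 2).mul_const _)
      convert! h8 using 1
      ring
    have h9 := h6.mul h5
    convert! h9 using 1
    rw [hval2]
    ring
  · intro x e he
    have he1 : |e| < r := by simpa using he
    have he2 : |e| ≤ 1 := he1.le.trans (min_le_left _ _)
    rw [Real.norm_eq_abs, abs_mul, abs_of_pos (Real.exp_pos _)]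
    have hn := nn_nonneg x
    have h1 : |qf H x + 2 * e * qf K x| ≤ A * nn x := by
      have h2 : |2 * e * qf K x| ≤ 2 * (3 * ‖K‖ * nn x) := by
        rw [abs_mul, abs_mul, abs_of_pos (by norm_num : (0 : ℝ) < 2)]
        have := hK x
        have h3 : 0 ≤ 3 * ‖K‖ * nn x := by positivity
        calc 2 * |e| * |qf K x| ≤ 2 * 1 * (3 * ‖K‖ * nn x) :=
              mul_le_mul (by linarith) this (abs_nonneg _) (by norm_num)
          _ = _ := by ring
      calc |qf H x + 2 * e * qf K x| ≤ |qf H x| + |2 * e * qf K x| := abs_add_le _ _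
        _ ≤ 3 * ‖H‖ * nn x + 2 * (3 * ‖K‖ * nn x) := add_le_add (hH x) h2
        _ = _ := by rw [hA]; ring
    have h2 : Real.exp (-(t * qf (Q + e • H + e ^ 2 • K) x)) ≤
        Real.exp (-(t * (c / 2) * nn x)) := by
      refine Real.exp_le_exp.mpr ?_
      have := mul_le_mul_of_nonneg_left (hlow e he x) ht.le
      linarith
    have h3 : (qf H x + 2 * e * qf K x) ^ 2 ≤ (A * nn x) ^ 2 := by
      rw [← sq_abs]
      exact pow_le_pow_left₀ (abs_nonneg _) h1 2
    have h4 : |2 * qf K x - t * (qf H x + 2 * e * qf K x) ^ 2| ≤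
        2 * (3 * ‖K‖) * nn x ^ 1 + t * A ^ 2 * nn x ^ 2 := by
      have h5 := abs_sub (2 * qf K x) (t * (qf H x + 2 * e * qf K x) ^ 2)
      have h6 : |2 * qf K x| ≤ 2 * (3 * ‖K‖) * nn x ^ 1 := by
        rw [abs_mul, abs_of_pos (by norm_num : (0 : ℝ) < 2)]
        have := hK x
        nlinarith
      have h7 : |t * (qf H x + 2 * e * qf K x) ^ 2| ≤ t * A ^ 2 * nn x ^ 2 := by
        rw [abs_of_nonneg (by positivity)]
        nlinarith [mul_le_mul_of_nonneg_left h3 ht.le]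
      exact (abs_sub _ _).trans (add_le_add h6 h7)
    calc |2 * qf K x - t * (qf H x + 2 * e * qf K x) ^ 2| *
          Real.exp (-(t * qf (Q + e • H + e ^ 2 • K) x))
        ≤ (2 * (3 * ‖K‖) * nn x ^ 1 + t * A ^ 2 * nn x ^ 2) * Real.exp (-(t * (c / 2) * nn x)) :=
          mul_le_mul h4 h2 (Real.exp_pos _).le (by positivity)
      _ = _ := by ring
  · simp only [zero_smul, add_zero, ne_eq, OfNat.ofNat_ne_zero, not_false_eq_true, zero_pow,
      mul_zero]
    exact summable_Th hQ H ht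

theorem second_dual {Q : Mx 3} (hQ : PD Q) {w z : Fin 3 → ℝ} (hwz : w ⬝ᵥ z = 0) {t : ℝ}
    (ht : 0 < t) :
    t ^ 2 / 2 * Tw Q (fun x => EpZ.qf (Hd Q w z) x * EpZ.qf (Hd Q w z) x) t -
        t * Tw Q (fun x => EpZ.qf (qr Q z • vecMulVec w w) x) t =
      (Real.pi / t) ^ ((3 : ℝ) / 2) * Q.det ^ (-(1 : ℝ) / 2) *
        ((Real.pi ^ 2 / t) ^ 2 / 2 * Tw Q⁻¹ (fun y => EpZ.qf (Hd Q⁻¹ z w) y *
            EpZ.qf (Hd Q⁻¹ z w) y) (Real.pi ^ 2 / t) -
          Real.pi ^ 2 / t * Tw Q⁻¹ (fun y => EpZ.qf (qr Q⁻¹ w • vecMulVec z z) y)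
            (Real.pi ^ 2 / t)) := by
  have hpi := Real.pi_pos
  set H : Mx 3 := Hd Q w z with hH
  set K : Mx 3 := qr Q z • vecMulVec w w with hK
  set H' : Mx 3 := -Hd Q⁻¹ z w with hH'
  set K' : Mx 3 := qr Q⁻¹ w • vecMulVec z z with hK'
  set τ : ℝ := Real.pi ^ 2 / t with hτ
  have hτ0 : 0 < τ := by positivity
  set C : ℝ := (Real.pi / t) ^ ((3 : ℝ) / 2) * Q.det ^ (-(1 : ℝ) / 2) with hC
  have hth : ∀ e : ℝ, ∑' x : Fin 3 → ℤ, Real.exp (-(t * qf (Q + e • H + e ^ 2 • K) x)) =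
      C * ∑' x : Fin 3 → ℤ, Real.exp (-(τ * qf (Q⁻¹ + e • H' + e ^ 2 • K') x)) := by
    intro e
    obtain ⟨h5, h6⟩ := path_pd hQ hwz e
    rw [theta_dual h5 ht, h6]
    congr 2
    funext y
    congr 4
    rw [(path_inv hQ hwz e).1, (path_inv hQ hwz e).2.2]
  have hshift : ∀ (R G L : Mx 3) (e δ : ℝ), R + (e + δ) • G + (e + δ) ^ 2 • L =
      (R + e • G + e ^ 2 • L) + δ • (G + (2 * e) • L) + δ ^ 2 • L := by
    intro R G L e δ
    ext i j
    simp only [Matrix.add_apply, Matrix.smul_apply, smul_eq_mul]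
    ring
  have hfirst : ∀ e : ℝ, t * Th (Q + e • H + e ^ 2 • K) (H + (2 * e) • K) t =
      C * (τ * Th (Q⁻¹ + e • H' + e ^ 2 • K') (H' + (2 * e) • K') τ) := by
    intro e
    obtain ⟨h5, h6⟩ := path_pd hQ hwz e
    have h7 : PD (Q⁻¹ + e • H' + e ^ 2 • K') := by
      have h8 := inv_pd h5
      rw [(path_inv hQ hwz e).1, (path_inv hQ hwz e).2.2] at h8
      exact h8
    have h1 := hasDerivAt_theta h5 (H + (2 * e) • K) K ht
    have h2 := (hasDerivAt_theta h7 (H' + (2 * e) • K') K' hτ0).const_mul C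
    have h3 : (fun δ : ℝ => ∑' x : Fin 3 → ℤ, Real.exp (-(t * qf ((Q + e • H + e ^ 2 • K) +
        δ • (H + (2 * e) • K) + δ ^ 2 • K) x))) =
        fun δ : ℝ => C * ∑' x : Fin 3 → ℤ, Real.exp (-(τ * qf ((Q⁻¹ + e • H' + e ^ 2 • K') +
        δ • (H' + (2 * e) • K') + δ ^ 2 • K') x)) := by
      funext δ
      rw [← hshift, ← hshift, hth]
    rw [h3] at h1
    have h4 := h1.unique h2
    linarith
  have h1 := (hasDerivAt_Th hQ H K ht).const_mul t
  have h2 := ((hasDerivAt_Th (inv_pd hQ) H' K' hτ0).const_mul τ).const_mul C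
  have h3 : (fun e : ℝ => t * Th (Q + e • H + e ^ 2 • K) (H + (2 * e) • K) t) =
      fun e : ℝ => C * (τ * Th (Q⁻¹ + e • H' + e ^ 2 • K') (H' + (2 * e) • K') τ) := by
    funext e
    exact hfirst e
  rw [h3] at h1
  have h4 := h1.unique h2
  have h5 : Tw Q⁻¹ (fun y => EpZ.qf H' y * EpZ.qf H' y) τ =
      Tw Q⁻¹ (fun y => EpZ.qf (Hd Q⁻¹ z w) y * EpZ.qf (Hd Q⁻¹ z w) y) τ := by
    unfold Tw
    refine tsum_congr fun y => ?_
    have h6 : qf H' y = -qf (Hd Q⁻¹ z w) y := by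
      have := qf_smul (-1) (Hd Q⁻¹ z w) y
      rw [hH', ← neg_one_smul ℝ, this]
      ring
    show qf H' y * qf H' y * _ = qf (Hd Q⁻¹ z w) y * qf (Hd Q⁻¹ z w) y * _
    rw [h6]
    ring
  rw [h5] at h4
  linarith

end Pool.Agent.Lib.EPL
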