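import Pool.Agent.Lib.EPL.BSym
import Pool.Agent.Lib.EPL.BSec2

/-!
# EPL.BDual: the second derivatives of the theta function at small parameters

`second_dual` for `Qb` (`det = 16`, `16^(-1/2) = 1/4`).
E: `w = ![1,0,0]`, `z = ![0,1,-1]`: `Qb z = (0,4,-4)`, `H[x] = 8 x₀ (x₁ - x₂) = 2 (v₁² - v₂²)`, `qr Qb z = 8`, `K[x] = 8 x₀² = 2 (v₁ + v₂)²`;
   `∑ H² e = 8 ∑ wE e` (`Tw_s01`), `∑ K e = 4 ∑ wK e` (`Tw_s01`, and `∑ v₁ v₂ e = 0` by `Tw_n0`); so the left side is `4 gE t`.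
   Dual: `Hd Qb⁻¹ z w`: `2 (y₁ - y₂)(2 y₀ + y₁ + y₂)/4 = (u₁² - u₂²)/2`, `qr Qb⁻¹ w = 1/2`, `K'[y] = (y₁ - y₂)²/2 = (u₁ - u₂)²/2`;
   right side `(π/t)^(3/2)/4 * 4 gE'(π²/t)`.
T: `w = ![1,1,-1]`, `z = ![1,0,1]`: `Qb z = (2,-2,2)`, `H[x] = 4 v₁ v₂`, `qr Qb z = 4`, `K[x] = 4 v₁²`; dual: `Hd Qb⁻¹ z w`: `u₂ u₁`,
   `qr Qb⁻¹ w = 1`, `K'[y] = u₂²`. Left side `4 gT t`, right side `(π/t)^(3/2)/4 * 4 gT'(π²/t)`.
(The sums are absolutely convergent: `Pg.summable`, to split `Tw` of a sum of weights; the weights are products of `qf`s.)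
`Tw_wE_symm`: the average over the exchange.
-/

open MeasureTheory Set Filter Topology Matrix
open scoped Matrix.Norms.Elementwise

namespace Pool.Agent.Lib.EPL

open Pool.Agent.Lib.EpZ Pool.Agent.Lib.EPS

/-- a nonnegative weight equivalent to `wE` -/
noncomputable def wS (v : Fin 3 → ℤ) : ℝ := ((v 0 : ℝ) ^ 2 - (v 1 : ℝ) ^ 2) ^ 2 / 2

namespace BDualAux

/-- the matrix of the dual coordinates -/
def Du : Mx 3 := !![1, 1, 0; 1, 0, 1; 0, 1, 1]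

theorem Pg_du (i j : Fin 3) : Pg (fun x => (du x i : ℝ) * (du x j : ℝ)) 1 := by
  have h := Pg.qf (vecMulVec (Du i) (Du j))
  have e : (fun x : Fin 3 → ℤ => (du x i : ℝ) * (du x j : ℝ)) =
      fun x => EpZ.qf (vecMulVec (Du i) (Du j)) x := by
    funext x
    unfold EpZ.qf
    rw [qr_vecMulVec]
    fin_cases i <;> fin_cases j <;>
      simp [Du, du, rv, dotProduct, Fin.sum_univ_three]
  rw [e]
  exact h

theorem bv_dot (i : Fin 3) (x : Fin 3 → ℤ) : (bv x i : ℝ) = Pb i ⬝ᵥ rv x := by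
  fin_cases i <;> simp [Pb, bv, rv, dotProduct, Fin.sum_univ_three] <;> ring

theorem Pg_bv (i j : Fin 3) : Pg (fun x => (bv x i : ℝ) * (bv x j : ℝ)) 1 := by
  have h := Pg.qf (vecMulVec (Pb i) (Pb j))
  have e : (fun x : Fin 3 → ℤ => (bv x i : ℝ) * (bv x j : ℝ)) =
      fun x => EpZ.qf (vecMulVec (Pb i) (Pb j)) x := by
    funext x
    unfold EpZ.qf
    rw [qr_vecMulVec, bv_dot, bv_dot]
  rw [e]
  exact h

theorem sb {a : (Fin 3 → ℤ) → ℝ} {m : ℕ} (ha : Pg a m) {t : ℝ} (ht : 0 < t) :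
    Summable fun x : Fin 3 → ℤ => a x * Real.exp (-(t * qf Qb x)) := ha.summable Qb_pd ht

theorem sd {a : (Fin 3 → ℤ) → ℝ} {m : ℕ} (ha : Pg a m) {t : ℝ} (ht : 0 < t) :
    Summable fun x : Fin 3 → ℤ => a x * Real.exp (-(t * qf Qb⁻¹ x)) :=
  ha.summable (inv_pd Qb_pd) ht

theorem s4 {Q : Mx 3} {t : ℝ} {v : (Fin 3 → ℤ) → Fin 3 → ℤ}
    (h : ∀ i j : Fin 3, Pg (fun x => (v x i : ℝ) * (v x j : ℝ)) 1) (hQ : PD Q) (ht : 0 < t)
    (i j k l : Fin 3) : Summable fun x : Fin 3 → ℤ => ((v x i : ℝ) * (v x j : ℝ)) *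
      ((v x k : ℝ) * (v x l : ℝ)) * Real.exp (-(t * qf Q x)) :=
  ((h i j).mul (h k l)).summable hQ ht

theorem s2 {Q : Mx 3} {t : ℝ} {v : (Fin 3 → ℤ) → Fin 3 → ℤ}
    (h : ∀ i j : Fin 3, Pg (fun x => (v x i : ℝ) * (v x j : ℝ)) 1) (hQ : PD Q) (ht : 0 < t)
    (i j : Fin 3) : Summable fun x : Fin 3 → ℤ => ((v x i : ℝ) * (v x j : ℝ)) *
      Real.exp (-(t * qf Q x)) :=
  (h i j).summable hQ ht

theorem summable_gen {Q : Mx 3} {t : ℝ} {v : (Fin 3 → ℤ) → Fin 3 → ℤ}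
    (h : ∀ i j : Fin 3, Pg (fun x => (v x i : ℝ) * (v x j : ℝ)) 1) (hQ : PD Q) (ht : 0 < t)
    {f : (Fin 3 → ℤ) → ℝ} (hf : f = wE ∨ f = wK ∨ f = wT ∨ f = wS) :
    Summable fun x : Fin 3 → ℤ => f (v x) * Real.exp (-(t * qf Q x)) := by
  rcases hf with rfl | rfl | rfl | rfl
  · refine ((s4 h hQ ht 0 0 0 0).sub (s4 h hQ ht 0 0 1 1)).congr fun x => ?_
    unfold wE
    ring
  · refine (s2 h hQ ht 0 0).congr fun x => ?_
    unfold wK
    ring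
  · refine (s4 h hQ ht 0 0 1 1).congr fun x => ?_
    unfold wT
    ring
  · refine (((s4 h hQ ht 0 0 0 0).sub ((s4 h hQ ht 0 0 1 1).mul_left 2)).add
      (s4 h hQ ht 1 1 1 1)).mul_left (1 / 2) |>.congr fun x => ?_
    unfold wS
    ring

theorem Tw_smul (Q : Mx 3) (a : (Fin 3 → ℤ) → ℝ) (c t : ℝ) :
    Tw Q (fun x => c * a x) t = c * Tw Q a t := by
  unfold Tw
  rw [← tsum_mul_left]
  exact tsum_congr fun x => by ring

theorem Tw_congr {Q : Mx 3} {a b : (Fin 3 → ℤ) → ℝ} (h : ∀ x, a x = b x) (t : ℝ) :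
    Tw Q a t = Tw Q b t := by
  have : a = b := funext h
  rw [this]

theorem symm_gen {Q : Mx 3} {t : ℝ} {v : (Fin 3 → ℤ) → Fin 3 → ℤ}
    (h : ∀ i j : Fin 3, Pg (fun x => (v x i : ℝ) * (v x j : ℝ)) 1) (hQ : PD Q) (ht : 0 < t)
    (hs : ∀ f : (Fin 3 → ℤ) → ℝ, Tw Q (fun x => f (s01 (v x))) t = Tw Q (fun x => f (v x)) t) :
    Tw Q (fun x => wE (v x)) t = Tw Q (fun x => wS (v x)) t := by
  have e1 : Tw Q (fun x => wS (v x)) t = 1 / 2 * Tw Q (fun x => wE (v x)) t +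
      1 / 2 * Tw Q (fun x => wE (s01 (v x))) t := by
    unfold Tw
    rw [← tsum_mul_left, ← tsum_mul_left, ← Summable.tsum_add]
    · refine tsum_congr fun x => ?_
      unfold wS wE s01
      simp only [Matrix.cons_val_zero, Matrix.cons_val_one]
      ring
    · exact (summable_gen h hQ ht (Or.inl rfl)).mul_left _
    · refine Summable.mul_left _ ?_
      refine ((s4 h hQ ht 1 1 1 1).sub (s4 h hQ ht 0 0 1 1)).congr fun x => ?_
      unfold wE s01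
      simp only [Matrix.cons_val_zero, Matrix.cons_val_one]
      ring
  rw [hs wE] at e1
  linarith

/-- the mixed term vanishes -/
theorem mixed {Q : Mx 3} {t : ℝ} {v : (Fin 3 → ℤ) → Fin 3 → ℤ}
    (hn : ∀ f : (Fin 3 → ℤ) → ℝ, Tw Q (fun x => f (n0 (v x))) t = Tw Q (fun x => f (v x)) t) :
    Tw Q (fun x => (v x 0 : ℝ) * (v x 1 : ℝ)) t = 0 := by
  have h1 := hn (fun v => (v 0 : ℝ) * (v 1 : ℝ))
  have h2 : Tw Q (fun x => (fun v : Fin 3 → ℤ => (v 0 : ℝ) * (v 1 : ℝ)) (n0 (v x))) t =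
      Tw Q (fun x => (-1) * ((v x 0 : ℝ) * (v x 1 : ℝ))) t := by
    refine Tw_congr (fun x => ?_) t
    unfold n0
    simp
  rw [h2, Tw_smul] at h1
  linarith

/-- the square of the sum or difference -/
theorem sqsum {Q : Mx 3} {t : ℝ} {v : (Fin 3 → ℤ) → Fin 3 → ℤ}
    (h : ∀ i j : Fin 3, Pg (fun x => (v x i : ℝ) * (v x j : ℝ)) 1) (hQ : PD Q) (ht : 0 < t)
    (hs : ∀ f : (Fin 3 → ℤ) → ℝ, Tw Q (fun x => f (s01 (v x))) t = Tw Q (fun x => f (v x)) t)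
    (hn : ∀ f : (Fin 3 → ℤ) → ℝ, Tw Q (fun x => f (n0 (v x))) t = Tw Q (fun x => f (v x)) t)
    (ε : ℝ) (hε : ε ^ 2 = 1) :
    Tw Q (fun x => ((v x 0 : ℝ) + ε * (v x 1 : ℝ)) ^ 2) t = 2 * Tw Q (fun x => wK (v x)) t := by
  have e1 : Tw Q (fun x => ((v x 0 : ℝ) + ε * (v x 1 : ℝ)) ^ 2) t =
      Tw Q (fun x => wK (v x)) t + Tw Q (fun x => wK (s01 (v x))) t +
        2 * ε * Tw Q (fun x => (v x 0 : ℝ) * (v x 1 : ℝ)) t := by
    unfold Tw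
    rw [← tsum_mul_left, ← Summable.tsum_add, ← Summable.tsum_add]
    · refine tsum_congr fun x => ?_
      have e2 : wK (s01 (v x)) = (v x 1 : ℝ) ^ 2 := by
        unfold wK s01
        simp
      beta_reduce
      rw [e2]
      unfold wK
      linear_combination (v x 1 : ℝ) ^ 2 * Real.exp (-(t * EpZ.qf Q x)) * hε
    · refine ((s2 h hQ ht 0 0).add (s2 h hQ ht 1 1)).congr fun x => ?_
      unfold wK s01
      simp only [Matrix.cons_val_zero]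
      ring
    · exact (s2 h hQ ht 0 1).mul_left _
    · refine (s2 h hQ ht 0 0).congr fun x => ?_
      unfold wK
      ring
    · refine (s2 h hQ ht 1 1).congr fun x => ?_
      unfold wK s01
      simp only [Matrix.cons_val_zero]
      ring
  rw [e1, mixed hn, hs wK]
  ring

theorem det_pow : Qb.det ^ (-(1 : ℝ) / 2) = 1 / 4 := by
  rw [Qb_det]
  have h : (16 : ℝ) = (4 : ℝ) ^ (2 : ℝ) := by norm_num
  rw [h, ← Real.rpow_mul (by norm_num)]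
  norm_num

end BDualAux

open BDualAux

theorem summable_b {f : (Fin 3 → ℤ) → ℝ} (hf : f = wE ∨ f = wK ∨ f = wT ∨ f = wS) {t : ℝ}
    (ht : 0 < t) : Summable fun x : Fin 3 → ℤ => f (bv x) * Real.exp (-(t * qf Qb x)) :=
  summable_gen Pg_bv Qb_pd ht hf

theorem summable_d {f : (Fin 3 → ℤ) → ℝ} (hf : f = wE ∨ f = wK ∨ f = wT ∨ f = wS) {t : ℝ}
    (ht : 0 < t) : Summable fun y : Fin 3 → ℤ => f (du y) * Real.exp (-(t * qf Qb⁻¹ y)) :=
  summable_gen Pg_du (inv_pd Qb_pd) ht hf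

theorem Tw_wE_symm {t : ℝ} (ht : 0 < t) :
    Tw Qb (fun x => wE (bv x)) t = Tw Qb (fun x => wS (bv x)) t :=
  symm_gen Pg_bv Qb_pd ht (fun f => Tw_s01 f t)

theorem Tw_wE_symm' {t : ℝ} (ht : 0 < t) :
    Tw Qb⁻¹ (fun y => wE (du y)) t = Tw Qb⁻¹ (fun y => wS (du y)) t :=
  symm_gen Pg_du (inv_pd Qb_pd) ht (fun f => Tw_s01' f t)

theorem gE_dual {t : ℝ} (ht : 0 < t) :
    gE t = (Real.pi / t) ^ ((3 : ℝ) / 2) / 4 * gE' (Real.pi ^ 2 / t) := by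
  have hτ : 0 < Real.pi ^ 2 / t := by
    have := Real.pi_pos
    positivity
  have h := second_dual Qb_pd (w := ![1, 0, 0]) (z := ![0, 1, -1])
    (by simp [dotProduct, Fin.sum_univ_three]) ht
  have a1 : Tw Qb (fun x => EpZ.qf (Hd Qb ![1, 0, 0] ![0, 1, -1]) x *
      EpZ.qf (Hd Qb ![1, 0, 0] ![0, 1, -1]) x) t = 8 * Tw Qb (fun x => wE (bv x)) t := by
    rw [Tw_wE_symm ht, ← Tw_smul]
    refine Tw_congr (fun x => ?_) t
    rw [qf_Hd]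
    unfold wS
    simp [Qb, bv, rv, dotProduct, mulVec, Fin.sum_univ_three]
    ring
  have a2 : Tw Qb (fun x => EpZ.qf (qr Qb ![0, 1, -1] • vecMulVec ![1, 0, 0] ![1, 0, 0]) x) t =
      4 * Tw Qb (fun x => wK (bv x)) t := by
    have e : 4 * Tw Qb (fun x => wK (bv x)) t = 2 * (2 * Tw Qb (fun x => wK (bv x)) t) := by ring
    rw [e, ← sqsum Pg_bv Qb_pd ht (fun f => Tw_s01 f t) (fun f => Tw_n0 f t) 1 (by norm_num),
      ← Tw_smul]
    refine Tw_congr (fun x => ?_) t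
    rw [qf_smul]
    unfold EpZ.qf
    rw [qr_vecMulVec]
    simp [Qb, bv, rv, qr, dotProduct, mulVec, Fin.sum_univ_three]
    ring
  have a3 : Tw Qb⁻¹ (fun y => EpZ.qf (Hd Qb⁻¹ ![0, 1, -1] ![1, 0, 0]) y *
      EpZ.qf (Hd Qb⁻¹ ![0, 1, -1] ![1, 0, 0]) y) (Real.pi ^ 2 / t) =
      1 / 2 * Tw Qb⁻¹ (fun y => wE (du y)) (Real.pi ^ 2 / t) := by
    rw [Tw_wE_symm' hτ, ← Tw_smul]
    refine Tw_congr (fun x => ?_) _
    rw [qf_Hd, Qb_inv]
    unfold wS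
    simp [du, rv, dotProduct, mulVec, Fin.sum_univ_three]
    ring
  have a4 : Tw Qb⁻¹ (fun y => EpZ.qf (qr Qb⁻¹ ![1, 0, 0] • vecMulVec ![0, 1, -1] ![0, 1, -1]) y)
      (Real.pi ^ 2 / t) = Tw Qb⁻¹ (fun y => wK (du y)) (Real.pi ^ 2 / t) := by
    have e : Tw Qb⁻¹ (fun y => wK (du y)) (Real.pi ^ 2 / t) =
        1 / 2 * (2 * Tw Qb⁻¹ (fun y => wK (du y)) (Real.pi ^ 2 / t)) := by ring
    rw [e, ← sqsum Pg_du (inv_pd Qb_pd) hτ (fun f => Tw_s01' f _) (fun f => Tw_n0' f _) (-1)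
      (by norm_num), ← Tw_smul]
    refine Tw_congr (fun x => ?_) _
    rw [qf_smul]
    unfold EpZ.qf
    rw [qr_vecMulVec, Qb_inv]
    simp [du, rv, qr, dotProduct, mulVec, Fin.sum_univ_three]
    ring
  rw [a1, a2, a3, a4, det_pow] at h
  unfold gE gE'
  linear_combination h / 4

theorem gT_dual {t : ℝ} (ht : 0 < t) :
    gT t = (Real.pi / t) ^ ((3 : ℝ) / 2) / 4 * gT' (Real.pi ^ 2 / t) := by
  have h := second_dual Qb_pd (w := ![1, 1, -1]) (z := ![1, 0, 1])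
    (by simp [dotProduct, Fin.sum_univ_three]) ht
  have a1 : Tw Qb (fun x => EpZ.qf (Hd Qb ![1, 1, -1] ![1, 0, 1]) x *
      EpZ.qf (Hd Qb ![1, 1, -1] ![1, 0, 1]) x) t = 16 * Tw Qb (fun x => wT (bv x)) t := by
    rw [← Tw_smul]
    refine Tw_congr (fun x => ?_) t
    rw [qf_Hd]
    unfold wT
    simp [Qb, bv, rv, dotProduct, mulVec, Fin.sum_univ_three]
    ring
  have a2 : Tw Qb (fun x => EpZ.qf (qr Qb ![1, 0, 1] • vecMulVec ![1, 1, -1] ![1, 1, -1]) x) t =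
      4 * Tw Qb (fun x => wK (bv x)) t := by
    rw [← Tw_smul]
    refine Tw_congr (fun x => ?_) t
    rw [qf_smul]
    unfold EpZ.qf wK
    rw [qr_vecMulVec]
    simp [Qb, bv, rv, qr, dotProduct, mulVec, Fin.sum_univ_three]
    ring
  have a3 : Tw Qb⁻¹ (fun y => EpZ.qf (Hd Qb⁻¹ ![1, 0, 1] ![1, 1, -1]) y *
      EpZ.qf (Hd Qb⁻¹ ![1, 0, 1] ![1, 1, -1]) y) (Real.pi ^ 2 / t) =
      Tw Qb⁻¹ (fun y => wT (du y)) (Real.pi ^ 2 / t) := by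
    refine Tw_congr (fun x => ?_) _
    rw [qf_Hd, Qb_inv]
    unfold wT
    simp [du, rv, dotProduct, mulVec, Fin.sum_univ_three]
    ring
  have a4 : Tw Qb⁻¹ (fun y => EpZ.qf (qr Qb⁻¹ ![1, 1, -1] • vecMulVec ![1, 0, 1] ![1, 0, 1]) y)
      (Real.pi ^ 2 / t) = Tw Qb⁻¹ (fun y => wK (du y)) (Real.pi ^ 2 / t) := by
    rw [← Tw_s01' wK]
    refine Tw_congr (fun x => ?_) _
    rw [qf_smul]
    unfold EpZ.qf wK s01
    rw [qr_vecMulVec, Qb_inv]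
    simp [du, rv, qr, dotProduct, mulVec, Fin.sum_univ_three]
    ring
  rw [a1, a2, a3, a4, det_pow] at h
  unfold gT gT'
  linear_combination h / 4

end Pool.Agent.Lib.EPL
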