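import Pool.Agent.Lib.EPL.BMel

/-!
# EPL.BHess: the Hessian of the energy at the bcc lattice

`H` symmetric, `tr(Qb⁻¹H) = 0`, `H ≠ 0`; `h = (Pb⁻¹)ᵀ H Pb⁻¹` (symmetric, `h ≠ 0`, `tr h = 0`, `H = Pbᵀ h Pb`, `Qb⁻¹ H = Pb⁻¹ h Pb`, so the trace of its square is
`tr(h²) = D + 2 O`, `D = ∑ h i i ²`, `O = h01² + h02² + h12²`), `H[x] = ∑ h i j v_i v_j`. Expanding `H[x]²` and using the symmetries:
`∑ v_i v_j v_k v_l / Q^(s+2)` is `X4` (all equal), `X22` (two pairs), `0` otherwise (one index occurs an odd number of times), so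
  `∑ Q^(-s) (H[x]/Q[x])² = X4 D + X22 (2 (h00 h11 + h00 h22 + h11 h22) + 4 O) = (X4 - X22) D + 4 X22 O`,
because `2 (h00 h11 + h00 h22 + h11 h22) = -D` by `tr h = 0`. With `F = 3 X4 + 6 X22` (`F_eq`)
  `(s+1) ((X4 - X22) D + 4 X22 O) - (X4 + 2 X22) (D + 2 O) = ME s * D + 2 * MT s * O > 0`.
-/

open MeasureTheory Set Filter Topology Matrix
open scoped Matrix.Norms.Elementwise

namespace Pool.Agent.Lib.EPL

open Pool.Agent.Lib.EpZ Pool.Agent.Lib.EPS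

namespace BHessAux

open BMelAux

/-- sign change of the second coordinate -/
def n1 (v : Fin 3 → ℤ) : Fin 3 → ℤ := ![v 0, -v 1, v 2]

theorem n1_eq (v : Fin 3 → ℤ) : s01 (n0 (s01 v)) = n1 v := by
  ext i; fin_cases i <;> simp [s01, n0, n1]

theorem nz_n1 (f : (Fin 3 → ℤ) → ℝ) (p : ℝ) :
    ∑' x : NZ 3, f (n1 (bv x.1)) / qf Qb x.1 ^ p = ∑' x : NZ 3, f (bv x.1) / qf Qb x.1 ^ p := by
  have h1 := nz_s01 (fun v => f (s01 (n0 v))) p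
  have h2 := nz_n0 (fun v => f (s01 v)) p
  have h3 := nz_s01 f p
  simp only [n1_eq] at h1
  exact h1.trans (h2.trans h3)

/-- the square of a quadratic form in the cubic coordinates -/
def gg (p q r u v w : ℝ) (a : Fin 3 → ℤ) : ℝ :=
  (p * (a 0 : ℝ) ^ 2 + q * (a 1 : ℝ) ^ 2 + r * (a 2 : ℝ) ^ 2 + 2 * u * ((a 0 : ℝ) * (a 1 : ℝ))
    + 2 * v * ((a 0 : ℝ) * (a 2 : ℝ)) + 2 * w * ((a 1 : ℝ) * (a 2 : ℝ))) ^ 2

theorem quad_le (p q r u v w a b c : ℝ) :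
    |p * a ^ 2 + q * b ^ 2 + r * c ^ 2 + 2 * u * (a * b) + 2 * v * (a * c) + 2 * w * (b * c)| ≤
      (|p| + |q| + |r| + |u| + |v| + |w|) * (a ^ 2 + b ^ 2 + c ^ 2) := by
  have ha := sq_nonneg a
  have hb := sq_nonneg b
  have hc := sq_nonneg c
  have t1 : |p * a ^ 2| ≤ |p| * (a ^ 2 + b ^ 2 + c ^ 2) := by
    rw [abs_mul, abs_of_nonneg ha]
    exact mul_le_mul_of_nonneg_left (by linarith) (abs_nonneg p)
  have t2 : |q * b ^ 2| ≤ |q| * (a ^ 2 + b ^ 2 + c ^ 2) := by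
    rw [abs_mul, abs_of_nonneg hb]
    exact mul_le_mul_of_nonneg_left (by linarith) (abs_nonneg q)
  have t3 : |r * c ^ 2| ≤ |r| * (a ^ 2 + b ^ 2 + c ^ 2) := by
    rw [abs_mul, abs_of_nonneg hc]
    exact mul_le_mul_of_nonneg_left (by linarith) (abs_nonneg r)
  have key : ∀ z x y : ℝ, x ^ 2 + y ^ 2 ≤ a ^ 2 + b ^ 2 + c ^ 2 →
      |2 * z * (x * y)| ≤ |z| * (a ^ 2 + b ^ 2 + c ^ 2) := by
    intro z x y hxy
    have e : |2 * z * (x * y)| = |z| * |2 * (x * y)| := by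
      rw [← abs_mul]
      congr 1
      ring
    rw [e]
    refine mul_le_mul_of_nonneg_left ?_ (abs_nonneg z)
    rw [abs_le]
    constructor
    · nlinarith [sq_nonneg (x + y)]
    · nlinarith [sq_nonneg (x - y)]
  have t4 := key u a b (by linarith)
  have t5 := key v a c (by linarith)
  have t6 := key w b c (by linarith)
  have s1 := abs_add_le (p * a ^ 2) (q * b ^ 2)
  have s2 := abs_add_le (p * a ^ 2 + q * b ^ 2) (r * c ^ 2)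
  have s3 := abs_add_le (p * a ^ 2 + q * b ^ 2 + r * c ^ 2) (2 * u * (a * b))
  have s4 := abs_add_le (p * a ^ 2 + q * b ^ 2 + r * c ^ 2 + 2 * u * (a * b)) (2 * v * (a * c))
  have s5 := abs_add_le (p * a ^ 2 + q * b ^ 2 + r * c ^ 2 + 2 * u * (a * b) + 2 * v * (a * c))
    (2 * w * (b * c))
  nlinarith

theorem pow2 {s : ℝ} (x : NZ 3) :
    qf Qb x.1 ^ (s + 2) = qf Qb x.1 ^ s * qf Qb x.1 ^ 2 := by
  rw [Real.rpow_add (Qb_pd.pos x) s]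
  norm_num

theorem summG {s C : ℝ} (hs : 3 / 2 < s) {g : (Fin 3 → ℤ) → ℝ}
    (hg : ∀ a : Fin 3 → ℤ, |g a| ≤ C * ((a 0 : ℝ) ^ 2 + (a 1 : ℝ) ^ 2 + (a 2 : ℝ) ^ 2) ^ 2) :
    Summable fun x : NZ 3 => g (bv x.1) / qf Qb x.1 ^ (s + 2) := by
  have h1 : Summable fun x : NZ 3 => qf Qb x.1 ^ (-s) := Qb_pd.summable (by norm_num; linarith)
  refine Summable.of_norm_bounded (h1.mul_left C) fun x => ?_
  have hp := Qb_pd.pos x
  have h2 := Real.rpow_pos_of_pos hp s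
  have h3 : 0 < qf Qb x.1 ^ 2 := pow_pos hp 2
  rw [pow2, norm_div, Real.norm_eq_abs, Real.norm_eq_abs, abs_of_pos (mul_pos h2 h3),
    Real.rpow_neg hp.le, div_le_iff₀ (mul_pos h2 h3)]
  have h4 := hg (bv x.1)
  rw [← qf_Qb x.1] at h4
  have e : C * (qf Qb x.1 ^ s)⁻¹ * (qf Qb x.1 ^ s * qf Qb x.1 ^ 2) = C * qf Qb x.1 ^ 2 := by
    field_simp
  rw [e]
  exact h4

theorem gg_le (p q r u v w : ℝ) (a : Fin 3 → ℤ) : |gg p q r u v w a| ≤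
    (|p| + |q| + |r| + |u| + |v| + |w|) ^ 2
      * ((a 0 : ℝ) ^ 2 + (a 1 : ℝ) ^ 2 + (a 2 : ℝ) ^ 2) ^ 2 := by
  unfold gg
  rw [abs_pow, ← mul_pow]
  exact pow_le_pow_left₀ (abs_nonneg _) (quad_le p q r u v w _ _ _) 2

theorem gg_sum {s : ℝ} (hs : 3 / 2 < s) (p q r u v w : ℝ) :
    ∑' x : NZ 3, gg p q r u v w (bv x.1) / qf Qb x.1 ^ (s + 2) =
      X4 s * (p ^ 2 + q ^ 2 + r ^ 2)
        + X22 s * ((2 * p * q + 4 * u ^ 2) + (2 * p * r + 4 * v ^ 2) + (2 * q * r + 4 * w ^ 2)) := by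
  have hn0 : ∀ a : Fin 3 → ℤ, (n0 a 0 : ℝ) ^ 2 + (n0 a 1 : ℝ) ^ 2 + (n0 a 2 : ℝ) ^ 2
      = (a 0 : ℝ) ^ 2 + (a 1 : ℝ) ^ 2 + (a 2 : ℝ) ^ 2 := by
    intro a; simp [n0]
  have hn1 : ∀ a : Fin 3 → ℤ, (n1 a 0 : ℝ) ^ 2 + (n1 a 1 : ℝ) ^ 2 + (n1 a 2 : ℝ) ^ 2
      = (a 0 : ℝ) ^ 2 + (a 1 : ℝ) ^ 2 + (a 2 : ℝ) ^ 2 := by
    intro a; simp [n1]
  have b0 : ∀ a, |gg p q r u v w a| ≤ (|p| + |q| + |r| + |u| + |v| + |w|) ^ 2
      * ((a 0 : ℝ) ^ 2 + (a 1 : ℝ) ^ 2 + (a 2 : ℝ) ^ 2) ^ 2 := gg_le p q r u v w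
  have b1 : ∀ a, |gg p q r u v w (n0 a)| ≤ (|p| + |q| + |r| + |u| + |v| + |w|) ^ 2
      * ((a 0 : ℝ) ^ 2 + (a 1 : ℝ) ^ 2 + (a 2 : ℝ) ^ 2) ^ 2 := fun a => by
    have := b0 (n0 a)
    rwa [hn0] at this
  have b2 : ∀ a, |gg p q r u v w (n1 a)| ≤ (|p| + |q| + |r| + |u| + |v| + |w|) ^ 2
      * ((a 0 : ℝ) ^ 2 + (a 1 : ℝ) ^ 2 + (a 2 : ℝ) ^ 2) ^ 2 := fun a => by
    have := b0 (n1 a)
    rwa [hn1] at this
  have b3 : ∀ a, |gg p q r u v w (n0 (n1 a))| ≤ (|p| + |q| + |r| + |u| + |v| + |w|) ^ 2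
      * ((a 0 : ℝ) ^ 2 + (a 1 : ℝ) ^ 2 + (a 2 : ℝ) ^ 2) ^ 2 := fun a => by
    have := b1 (n1 a)
    rwa [hn1] at this
  have s0 := summG hs b0
  have s1 := summG hs b1
  have s2 := summG hs b2
  have s3 := summG hs b3
  have e1 := nz_n0 (gg p q r u v w) (s + 2)
  have e2 := nz_n1 (gg p q r u v w) (s + 2)
  have e3 := (nz_n1 (fun a => gg p q r u v w (n0 a)) (s + 2)).trans e1
  have key : ∀ x : NZ 3, gg p q r u v w (bv x.1) / qf Qb x.1 ^ (s + 2)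
      + gg p q r u v w (n0 (bv x.1)) / qf Qb x.1 ^ (s + 2)
      + (gg p q r u v w (n1 (bv x.1)) / qf Qb x.1 ^ (s + 2)
      + gg p q r u v w (n0 (n1 (bv x.1))) / qf Qb x.1 ^ (s + 2)) =
      4 * (p ^ 2 * ((bv x.1 0 : ℝ) ^ 2 * (bv x.1 0 : ℝ) ^ 2 / qf Qb x.1 ^ (s + 2))
      + q ^ 2 * ((bv x.1 1 : ℝ) ^ 2 * (bv x.1 1 : ℝ) ^ 2 / qf Qb x.1 ^ (s + 2))
      + r ^ 2 * ((bv x.1 2 : ℝ) ^ 2 * (bv x.1 2 : ℝ) ^ 2 / qf Qb x.1 ^ (s + 2))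
      + ((2 * p * q + 4 * u ^ 2) *
          ((bv x.1 0 : ℝ) ^ 2 * (bv x.1 1 : ℝ) ^ 2 / qf Qb x.1 ^ (s + 2))
      + (2 * p * r + 4 * v ^ 2) *
          ((bv x.1 0 : ℝ) ^ 2 * (bv x.1 2 : ℝ) ^ 2 / qf Qb x.1 ^ (s + 2))
      + (2 * q * r + 4 * w ^ 2) *
          ((bv x.1 1 : ℝ) ^ 2 * (bv x.1 2 : ℝ) ^ 2 / qf Qb x.1 ^ (s + 2)))) := by
    intro x
    simp only [gg, n0, n1, Matrix.cons_val_zero, Matrix.cons_val_one, Matrix.cons_val]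
    push_cast
    ring
  have a00 := (summ44 0 0 hs).mul_left (p ^ 2)
  have a11 := (summ44 1 1 hs).mul_left (q ^ 2)
  have a22 := (summ44 2 2 hs).mul_left (r ^ 2)
  have a01 := (summ44 0 1 hs).mul_left (2 * p * q + 4 * u ^ 2)
  have a02 := (summ44 0 2 hs).mul_left (2 * p * r + 4 * v ^ 2)
  have a12 := (summ44 1 2 hs).mul_left (2 * q * r + 4 * w ^ 2)
  have m01 : ∑' x : NZ 3, (bv x.1 0 : ℝ) ^ 2 * (bv x.1 1 : ℝ) ^ 2 / qf Qb x.1 ^ (s + 2) = X22 s :=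
    rfl
  have t1 := (s0.add s1).tsum_add (s2.add s3)
  rw [tsum_congr key, s0.tsum_add s1, s2.tsum_add s3, e1, e2, e3, tsum_mul_left,
    ((a00.add a11).add a22).tsum_add ((a01.add a02).add a12), (a00.add a11).tsum_add a22,
    a00.tsum_add a11, (a01.add a02).tsum_add a12, a01.tsum_add a02, tsum_mul_left, tsum_mul_left,
    tsum_mul_left, tsum_mul_left, tsum_mul_left, tsum_mul_left, m00, m11, m22, m01, m02, m12] at t1
  linarith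

theorem algebra {X Y s p q r u v w : ℝ} (hpqr : p + q + r = 0)
    (hM : 0 < s * X - (s + 3) * Y) (hT : 0 < 2 * s * Y - X)
    (hne : 0 < p ^ 2 + q ^ 2 + r ^ 2 + (u ^ 2 + v ^ 2 + w ^ 2)) :
    (3 * X + 6 * Y) * ((p ^ 2 + q ^ 2 + r ^ 2 + 2 * (u ^ 2 + v ^ 2 + w ^ 2)) / 3) <
      (s + 1) * (X * (p ^ 2 + q ^ 2 + r ^ 2)
        + Y * ((2 * p * q + 4 * u ^ 2) + (2 * p * r + 4 * v ^ 2) + (2 * q * r + 4 * w ^ 2))) := by
  obtain ⟨D, hD⟩ : ∃ D, D = p ^ 2 + q ^ 2 + r ^ 2 := ⟨_, rfl⟩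
  obtain ⟨O, hO⟩ : ∃ O, O = u ^ 2 + v ^ 2 + w ^ 2 := ⟨_, rfl⟩
  have hD0 : 0 ≤ D := by rw [hD]; positivity
  have hO0 : 0 ≤ O := by rw [hO]; positivity
  have hr : r = -(p + q) := by linarith
  have e1 : 2 * p * q + 2 * p * r + 2 * q * r = -D := by
    rw [hD, hr]
    ring
  have e2 : (2 * p * q + 4 * u ^ 2) + (2 * p * r + 4 * v ^ 2) + (2 * q * r + 4 * w ^ 2)
      = -D + 4 * O := by
    rw [← e1, hO]
    ring
  rw [e2, ← hD, ← hO]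
  rw [← hD, ← hO] at hne
  have e3 : (s + 1) * (X * D + Y * (-D + 4 * O)) - (3 * X + 6 * Y) * ((D + 2 * O) / 3)
      = D * (s * X - (s + 3) * Y) + 2 * O * (2 * s * Y - X) := by
    ring
  have h1 := mul_nonneg hD0 hM.le
  have h2 := mul_nonneg hO0 hT.le
  rcases hD0.lt_or_eq with hD1 | hD1
  · have := mul_pos hD1 hM
    linarith
  · have hO1 : 0 < O := by linarith
    have := mul_pos hO1 hT
    linarith

end BHessAux

open BHessAux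

theorem Qb_hess {s : ℝ} (hs : 3 / 2 < s) (h1 : 0 < ME s) (h2 : 0 < MT s) (H : Mx 3)
    (hH : H.IsSymm) (htr : (Qb⁻¹ * H).trace = 0) (hne : H ≠ 0) :
    F s Qb * ((Qb⁻¹ * H * (Qb⁻¹ * H)).trace / 3) <
      (s + 1) * ∑' x : NZ 3, qf Qb x.1 ^ (-s) * (qf H x.1 / qf Qb x.1) ^ 2 := by
  obtain ⟨a, ha⟩ : ∃ a, a = H 0 0 := ⟨_, rfl⟩
  obtain ⟨b, hb⟩ : ∃ b, b = H 1 1 := ⟨_, rfl⟩
  obtain ⟨c, hc⟩ : ∃ c, c = H 2 2 := ⟨_, rfl⟩
  obtain ⟨d, hd⟩ : ∃ d, d = H 0 1 := ⟨_, rfl⟩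
  obtain ⟨e, he⟩ : ∃ e, e = H 0 2 := ⟨_, rfl⟩
  obtain ⟨f, hf⟩ : ∃ f, f = H 1 2 := ⟨_, rfl⟩
  have hd' : H 1 0 = d := by rw [hd]; exact hH.apply 0 1
  have he' : H 2 0 = e := by rw [he]; exact hH.apply 0 2
  have hf' : H 2 1 = f := by rw [hf]; exact hH.apply 1 2
  have tr1 : (Qb⁻¹ * H).trace = (a + b + c + d + e + f) / 2 := by
    rw [Qb_inv]
    simp only [Matrix.trace, Matrix.diag, Matrix.mul_apply, Fin.sum_univ_three, Matrix.of_apply,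
      Matrix.cons_val_zero, Matrix.cons_val_one, Matrix.cons_val, hd', he', hf', ← ha, ← hb, ← hc,
      ← hd, ← he, ← hf]
    ring
  have tr2 : (Qb⁻¹ * H * (Qb⁻¹ * H)).trace =
      ((a + b + 2 * d) / 4) ^ 2 + ((a + c + 2 * e) / 4) ^ 2 + ((b + c + 2 * f) / 4) ^ 2
      + 2 * (((a + d + e + f) / 4) ^ 2 + ((b + d + e + f) / 4) ^ 2 + ((c + d + e + f) / 4) ^ 2) := by
    rw [Qb_inv]
    simp only [Matrix.trace, Matrix.diag, Matrix.mul_apply, Fin.sum_univ_three, Matrix.of_apply,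
      Matrix.cons_val_zero, Matrix.cons_val_one, Matrix.cons_val, hd', he', hf', ← ha, ← hb, ← hc,
      ← hd, ← he, ← hf]
    ring
  have hsum : (a + b + 2 * d) / 4 + (a + c + 2 * e) / 4 + (b + c + 2 * f) / 4 = 0 := by
    rw [tr1] at htr
    linarith
  have hterm : ∀ x : NZ 3, qf Qb x.1 ^ (-s) * (qf H x.1 / qf Qb x.1) ^ 2 =
      gg ((a + b + 2 * d) / 4) ((a + c + 2 * e) / 4) ((b + c + 2 * f) / 4) ((a + d + e + f) / 4)
        ((b + d + e + f) / 4) ((c + d + e + f) / 4) (bv x.1) / qf Qb x.1 ^ (s + 2) := by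
    intro x
    have hp := Qb_pd.pos x
    have h3 := Real.rpow_pos_of_pos hp s
    have e1 : gg ((a + b + 2 * d) / 4) ((a + c + 2 * e) / 4) ((b + c + 2 * f) / 4)
        ((a + d + e + f) / 4) ((b + d + e + f) / 4) ((c + d + e + f) / 4) (bv x.1)
        = qf H x.1 ^ 2 := by
      unfold gg
      congr 1
      simp only [qf, qr, rv, bv, dotProduct, mulVec, Fin.sum_univ_three, hd', he', hf', ← ha, ← hb,
        ← hc, ← hd, ← he, ← hf, Matrix.cons_val_zero, Matrix.cons_val_one, Matrix.cons_val]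
      push_cast
      ring
    rw [e1, pow2, Real.rpow_neg hp.le]
    field_simp
  rw [tsum_congr hterm, gg_sum hs, F_eq hs, tr2]
  refine algebra hsum h1 h2 ?_
  by_contra hcon
  have z : ((a + b + 2 * d) / 4) ^ 2 + ((a + c + 2 * e) / 4) ^ 2 + ((b + c + 2 * f) / 4) ^ 2
      + (((a + d + e + f) / 4) ^ 2 + ((b + d + e + f) / 4) ^ 2 + ((c + d + e + f) / 4) ^ 2) ≤ 0 :=
    not_lt.1 hcon
  have q1 := sq_nonneg ((a + b + 2 * d) / 4)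
  have q2 := sq_nonneg ((a + c + 2 * e) / 4)
  have q3 := sq_nonneg ((b + c + 2 * f) / 4)
  have q4 := sq_nonneg ((a + d + e + f) / 4)
  have q5 := sq_nonneg ((b + d + e + f) / 4)
  have q6 := sq_nonneg ((c + d + e + f) / 4)
  have r1 : (a + b + 2 * d) / 4 = 0 := (pow_eq_zero_iff two_ne_zero).1 (by linarith)
  have r2 : (a + c + 2 * e) / 4 = 0 := (pow_eq_zero_iff two_ne_zero).1 (by linarith)
  have r3 : (b + c + 2 * f) / 4 = 0 := (pow_eq_zero_iff two_ne_zero).1 (by linarith)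
  have r4 : (a + d + e + f) / 4 = 0 := (pow_eq_zero_iff two_ne_zero).1 (by linarith)
  have r5 : (b + d + e + f) / 4 = 0 := (pow_eq_zero_iff two_ne_zero).1 (by linarith)
  have r6 : (c + d + e + f) / 4 = 0 := (pow_eq_zero_iff two_ne_zero).1 (by linarith)
  apply hne
  ext i j
  fin_cases i <;> fin_cases j
  · show H 0 0 = 0
    linarith
  · show H 0 1 = 0
    linarith
  · show H 0 2 = 0
    linarith
  · show H 1 0 = 0
    linarith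
  · show H 1 1 = 0
    linarith
  · show H 1 2 = 0
    linarith
  · show H 2 0 = 0
    linarith
  · show H 2 1 = 0
    linarith
  · show H 2 2 = 0
    linarith

end Pool.Agent.Lib.EPL
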