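import Pool.Agent.Lib.EPL.Second

/-!
# EPL.BSuf: the second order condition is sufficient for a local minimum

PROOF of `locMin_of_second`. Notation: `T(H) = tr(Q⁻¹HQ⁻¹H)`, `S(H) = ∑ Q[x]^(-s) (H[x]/Q[x])²`.
1. COMPACTNESS. `S` and `T` are quadratic forms with continuous coefficients: `S(H)` is the finite sum
   over `i j k l` of `H i j * H k l * ∑' x, Q[x]^(-s-2) x_i x_j x_k x_l` (summable, `Low`), so `S` is continuous
   (alternative: `|S(H) - S(H')| ≤ C (‖H‖+‖H'‖) ‖H-H'‖` termwise from `Low.ratio`). The set of the symmetric `H`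
   with `tr(Q⁻¹H) = 0`, `‖H‖ = 1` is compact, the continuous function `(s+1) S - F T / 3` is positive on it, so it is
   `≥ c₀ > 0` there, hence `≥ c₀ ‖H‖²` for all symmetric `H` with `tr(Q⁻¹H) = 0`.
2. ENERGY OF `Q + H`, `tr(Q⁻¹H) = 0`, `‖H‖` small: by `rpow_expand` (Second.lean, applied to `y = H[x]/Q[x]`, `|y| ≤ 3‖H‖/c`)
   `F(Q+H) ≥ F - s ∑ Q[x]^(-s) (H[x]/Q[x]) + s(s+1)/2 S(H) - C₁ ‖H‖³`, and the linear term is `0` by `hc`.
3. `det(Q+H) = det Q (1 - T/2 + det(Q⁻¹H))` (`det (1+A) = 1 + tr A + (tr A ² - tr A²)/2 + det A` for 3×3 matrices),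
   `|det(Q⁻¹H)| ≤ C₂ ‖H‖³`, `0 ≤ T ≤ C₃ ‖H‖²` (only `|T| ≤ C₃‖H‖²` is needed), and for small `|u|`
   `(1+u)^(s/3) ≥ 1 + (s/3) u - C₄ u²` (again `rpow_expand`, or `one_add_mul_le..`/Bernoulli); so
   `(det(Q+H)/det Q)^(s/3) ≥ 1 - s T/6 - C₅ ‖H‖³`.
4. Product: `En(Q+H)/det Q^(s/3) ≥ F + (s/2) ((s+1) S - F T/3) - C₆ ‖H‖³ ≥ F + (s c₀/2) ‖H‖² - C₆ ‖H‖³ ≥ F` for small `‖H‖`.
5. A general `Q'` near `Q`: `En` is scale invariant (`En_smul` or similar in EpZ), `κ = 3 / tr(Q⁻¹Q') > 0` for `Q'` near `Q`,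
   `H = κ Q' - Q` is symmetric, `tr(Q⁻¹H) = 0` and `‖H‖ → 0` as `Q' → Q`.
-/

open MeasureTheory Set Filter Topology Matrix
open scoped Matrix.Norms.Elementwise

namespace Pool.Agent.Lib.EPL

open Pool.Agent.Lib.EpZ Pool.Agent.Lib.EPS

namespace BSufAux

/-- second order expansion of a power, from below -/
lemma rpow_below {s : ℝ} (hs : 0 < s) : ∃ C > 0, ∃ r > 0, r ≤ 1 / 2 ∧ ∀ y : ℝ, |y| ≤ r →
    1 - s * y + s * (s + 1) / 2 * y ^ 2 - C * |y| ^ 3 ≤ (1 + y) ^ (-s) := by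
  refine ⟨2 * s + 4 * s * (s + 1) ^ 2 + 27 * (s + 1) ^ 3, by positivity, 1 / (4 * (s + 1)),
    by positivity, ?_, ?_⟩
  · rw [div_le_div_iff₀ (by positivity) (by norm_num)]
    nlinarith
  intro y hy
  have hs1 : 0 < s + 1 := by linarith
  have hy0 := abs_nonneg y
  have hyr : |y| * (4 * (s + 1)) ≤ 1 := by
    rwa [le_div_iff₀ (by positivity)] at hy
  have hy4 : |y| ≤ 1 / 4 := by nlinarith
  obtain ⟨hy1, hy2⟩ := abs_le.mp hy4
  have hpos : 0 < 1 + y := by linarith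
  -- the logarithm
  have hlog : Real.log (1 + y) ≤ y - y ^ 2 / 2 + 2 * |y| ^ 3 := by
    have h1 := Real.abs_log_sub_add_sum_range_le (x := -y) (by rw [abs_neg]; linarith) 2
    simp only [Finset.sum_range_succ, Finset.sum_range_zero, abs_neg, sub_neg_eq_add] at h1
    have h2 := (abs_le.mp h1).2
    have h3 : |y| ^ (2 + 1) / (1 - |y|) ≤ 2 * |y| ^ 3 := by
      rw [div_le_iff₀ (by linarith)]
      have : 0 ≤ |y| ^ 3 := by positivity
      norm_num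
      nlinarith
    norm_num at h2
    norm_num at h3
    nlinarith
  set z : ℝ := -s * (y - y ^ 2 / 2 + 2 * |y| ^ 3) with hz
  have hsq : y ^ 2 = |y| ^ 2 := (sq_abs y).symm
  have hz1 : |z + s * y| ≤ s * |y| ^ 2 := by
    have h1 : z + s * y = s * (y ^ 2 / 2 - 2 * |y| ^ 3) := by rw [hz]; ring
    have h2 : 0 ≤ y ^ 2 / 2 - 2 * |y| ^ 3 := by
      rw [hsq]; nlinarith [sq_nonneg |y|]
    rw [h1, abs_of_nonneg (mul_nonneg hs.le h2), hsq]
    refine mul_le_mul_of_nonneg_left ?_ hs.le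
    have : 0 ≤ |y| ^ 3 := by positivity
    nlinarith [sq_nonneg |y|]
  have hz2 : |z| ≤ 2 * (s + 1) * |y| := by
    have h1 : |z| ≤ |z + s * y| + |s * y| := by
      have := abs_add_le (z + s * y) (-(s * y))
      rw [abs_neg] at this
      simpa using this
    rw [abs_mul s y, abs_of_pos hs] at h1
    nlinarith
  have hz3 : |z| ≤ 1 := by nlinarith
  have h7 : Real.exp z ≤ (1 + y) ^ (-s) := by
    rw [Real.rpow_def_of_pos hpos]
    refine Real.exp_le_exp.mpr ?_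
    rw [hz]
    nlinarith
  have h8 : 1 + z + z ^ 2 / 2 - |z| ^ 3 ≤ Real.exp z := by
    have h1 := Real.exp_bound hz3 (n := 3) (by norm_num)
    simp only [Finset.sum_range_succ, Finset.sum_range_zero] at h1
    have h2 := (abs_le.mp h1).1
    have h3 : 0 ≤ |z| ^ 3 := by positivity
    norm_num [Nat.factorial] at h2
    nlinarith
  have h9 : -s * y + s / 2 * y ^ 2 - 2 * s * |y| ^ 3 ≤ z := by rw [hz]; ring_nf; rfl
  have h10 : s ^ 2 * y ^ 2 - 4 * s * (s + 1) ^ 2 * |y| ^ 3 ≤ z ^ 2 := by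
    have h2 : |z + s * y| * |y| ≤ s * |y| ^ 3 := by
      calc |z + s * y| * |y| ≤ s * |y| ^ 2 * |y| := mul_le_mul_of_nonneg_right hz1 hy0
        _ = s * |y| ^ 3 := by ring
    have h3 : z ^ 2 = s ^ 2 * y ^ 2 - 2 * s * (y * (z + s * y)) + (z + s * y) ^ 2 := by
      ring
    have h4 : y * (z + s * y) ≤ |z + s * y| * |y| := by
      rw [← abs_mul, mul_comm (z + s * y)]
      exact le_abs_self _
    have h6 : 0 ≤ |y| ^ 3 := by positivity
    have h7 : 0 ≤ (z + s * y) ^ 2 := sq_nonneg _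
    rw [h3]
    have h10 : 2 * s * (s * |y| ^ 3) ≤ 4 * s * (s + 1) ^ 2 * |y| ^ 3 := by
      have : 2 * s * s ≤ 4 * s * (s + 1) ^ 2 := by nlinarith [mul_pos hs hs]
      nlinarith
    nlinarith
  have h11 : |z| ^ 3 ≤ 8 * (s + 1) ^ 3 * |y| ^ 3 := by
    calc |z| ^ 3 ≤ (2 * (s + 1) * |y|) ^ 3 := pow_le_pow_left₀ (abs_nonneg _) hz2 3
      _ = _ := by ring
  have h12 : 0 ≤ (s + 1) ^ 3 * |y| ^ 3 := by positivity
  have h13 : 0 ≤ s * (s + 1) ^ 2 * |y| ^ 3 := by positivity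
  linarith

/-- the logarithm from below -/
lemma log_below {u : ℝ} (hu : |u| ≤ 1 / 2) : u - 2 * u ^ 2 ≤ Real.log (1 + u) := by
  obtain ⟨h1, h2⟩ := abs_le.mp hu
  have hpos : 0 < 1 + u := by linarith
  have h3 := Real.one_sub_inv_le_log_of_pos hpos
  have h4 : u - 2 * u ^ 2 ≤ 1 - (1 + u)⁻¹ := by
    have h5 : 1 - (1 + u)⁻¹ = u / (1 + u) := by
      field_simp
      ring
    rw [h5, le_div_iff₀ hpos]
    nlinarith [sq_nonneg u, mul_nonneg (sq_nonneg u) (by linarith : (0 : ℝ) ≤ 1 + 2 * u)]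
  linarith

/-- the sum of the squares of the ratios -/
noncomputable def Sq (s : ℝ) (Q H : Mx 3) : ℝ :=
  ∑' x : NZ 3, qf Q x.1 ^ (-s) * (qf H x.1 / qf Q x.1) ^ 2

/-- the trace of the square -/
noncomputable def Tr (Q H : Mx 3) : ℝ := (Q⁻¹ * H * (Q⁻¹ * H)).trace

lemma Sq_smul (s : ℝ) (Q H : Mx 3) (r : ℝ) : Sq s Q (r • H) = r ^ 2 * Sq s Q H := by
  unfold Sq
  rw [← tsum_mul_left]
  refine tsum_congr fun x => ?_
  rw [qf_smul]
  ring

lemma Tr_smul (Q H : Mx 3) (r : ℝ) : Tr Q (r • H) = r ^ 2 * Tr Q H := by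
  unfold Tr
  rw [mul_smul_comm, smul_mul_assoc, mul_smul_comm, smul_smul, trace_smul, smul_eq_mul]
  ring

/-- the coercivity of the second variation -/
lemma coer {Q : Mx 3} (hQ : PD Q) {s : ℝ} (hs : 3 / 2 < s)
    (h2 : ∀ H : Mx 3, H.IsSymm → (Q⁻¹ * H).trace = 0 → H ≠ 0 →
      F s Q * (Tr Q H / 3) < (s + 1) * Sq s Q H) :
    ∃ c > 0, ∀ H : Mx 3, H.IsSymm → (Q⁻¹ * H).trace = 0 →
      c * ‖H‖ ^ 2 ≤ (s + 1) * Sq s Q H - F s Q * (Tr Q H / 3) := by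
  have hprop : ProperSpace (Mx 3) := FiniteDimensional.proper ℝ (Mx 3)
  obtain ⟨c, hc, hl⟩ := hQ.low
  have hd : ((3 : ℕ) : ℝ) / 2 < s := by norm_num; exact hs
  set K : Set (Mx 3) := ({H : Mx 3 | H.IsSymm} ∩ {H : Mx 3 | (Q⁻¹ * H).trace = 0}) ∩
    Metric.sphere 0 1 with hK
  have hcl1 : IsClosed {H : Mx 3 | H.IsSymm} := by
    have : {H : Mx 3 | H.IsSymm} = {H : Mx 3 | Hᵀ = H} := rfl
    rw [this]
    exact isClosed_eq (by fun_prop) continuous_id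
  have hcl2 : IsClosed {H : Mx 3 | (Q⁻¹ * H).trace = 0} :=
    isClosed_eq (by fun_prop) continuous_const
  have hcomp : IsCompact K := (isCompact_sphere (0 : Mx 3) 1).inter_left (hcl1.inter hcl2)
  have hSc : ContinuousOn (fun H : Mx 3 => Sq s Q H) K := by
    unfold Sq
    refine continuousOn_tsum (u := fun x : NZ 3 => qf Q x.1 ^ (-s) * ((3 : ℕ) * 1 / c) ^ 2)
      (fun x => ?_) ((hQ.summable hd).mul_right _) (fun x H hH => ?_)
    · have h5 : Continuous (fun H : Mx 3 => qf H x.1) := by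
        unfold qf qr
        fun_prop
      fun_prop
    · have hn : ‖H‖ = 1 := by simpa using hH.2
      have hr := hl.ratio hc H x
      rw [hn] at hr
      have hq := Real.rpow_nonneg (hQ.pos x).le (-s)
      rw [Real.norm_eq_abs, abs_mul, abs_of_nonneg hq, abs_pow]
      exact mul_le_mul_of_nonneg_left (pow_le_pow_left₀ (abs_nonneg _) hr 2) hq
  have hTc : Continuous (fun H : Mx 3 => Tr Q H) := by
    unfold Tr
    fun_prop
  have hG : ContinuousOn (fun H : Mx 3 => (s + 1) * Sq s Q H - F s Q * (Tr Q H / 3)) K :=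
    (continuousOn_const.mul hSc).sub (continuousOn_const.mul (hTc.continuousOn.div_const 3))
  have hmemne : ∀ H ∈ K, H ≠ 0 := by
    intro H hH h0
    have h1 := hH.2
    rw [h0] at h1
    simp at h1
  obtain ⟨κ, hκ, hmin⟩ : ∃ κ > 0, ∀ H ∈ K, κ ≤ (s + 1) * Sq s Q H - F s Q * (Tr Q H / 3) := by
    rcases K.eq_empty_or_nonempty with he | hne
    · exact ⟨1, one_pos, fun H hH => by rw [he] at hH; exact absurd hH (Set.notMem_empty _)⟩
    · obtain ⟨w, hw, hmin⟩ := hcomp.exists_isMinOn hne hG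
      exact ⟨_, sub_pos.mpr (h2 w hw.1.1 hw.1.2 (hmemne w hw)), fun H hH => hmin hH⟩
  refine ⟨κ, hκ, fun H hH htr => ?_⟩
  rcases eq_or_ne H 0 with rfl | h0
  · simp [Sq, Tr, qf, qr]
  have hn : 0 < ‖H‖ := norm_pos_iff.mpr h0
  have hmem : ‖H‖⁻¹ • H ∈ K := by
    refine ⟨⟨hH.smul _, ?_⟩, ?_⟩
    · show (Q⁻¹ * (‖H‖⁻¹ • H)).trace = 0
      rw [mul_smul_comm, trace_smul, htr, smul_zero]
    · rw [mem_sphere_zero_iff_norm, norm_smul, norm_inv, norm_norm, inv_mul_cancel₀ hn.ne']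
  have h3 := hmin _ hmem
  rw [Sq_smul, Tr_smul] at h3
  have h4 := mul_le_mul_of_nonneg_right h3 (sq_nonneg ‖H‖)
  have h5 : ((s + 1) * (‖H‖⁻¹ ^ 2 * Sq s Q H) - F s Q * (‖H‖⁻¹ ^ 2 * Tr Q H / 3)) * ‖H‖ ^ 2 =
      (s + 1) * Sq s Q H - F s Q * (Tr Q H / 3) := by
    field_simp
  linarith

/-- expansion of the energy from below -/
lemma F_below {Q : Mx 3} (hQ : PD Q) {s : ℝ} (hs : 3 / 2 < s) : ∃ C > 0, ∃ r > 0,
    ∀ H : Mx 3, H.IsSymm → ‖H‖ ≤ r → PD (Q + H) ∧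
      F s Q - s * ∑' x : NZ 3, qf Q x.1 ^ (-s) * (qf H x.1 / qf Q x.1) +
        s * (s + 1) / 2 * Sq s Q H - C * ‖H‖ ^ 3 ≤ F s (Q + H) := by
  obtain ⟨c, hc, hl⟩ := hQ.low
  obtain ⟨D, hD, ρ, hρ, hρ1, hexp⟩ := rpow_below (s := s) (by linarith)
  obtain ⟨q, hq, hpd⟩ := pd_near hQ
  have hd : ((3 : ℕ) : ℝ) / 2 < s := by norm_num; exact hs
  have hS := hQ.summable hd
  have hF0 : 0 ≤ F s Q := tsum_nonneg fun x => Real.rpow_nonneg (hQ.pos x).le _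
  refine ⟨D * (3 / c) ^ 3 * F s Q + 1, by positivity, min q (ρ * c / 3), by positivity,
    fun H hH hn => ?_⟩
  have hn1 : ‖H‖ ≤ q := hn.trans (min_le_left _ _)
  have hn2 : ‖H‖ ≤ ρ * c / 3 := hn.trans (min_le_right _ _)
  have hPD : PD (Q + H) := hpd _ (hQ.1.add hH) (by rw [add_sub_cancel_left]; exact hn1)
  refine ⟨hPD, ?_⟩
  have hS1 := hl.summable_mul hc hd H
  have hS2 := hl.summable_mul_sq hc hd H
  have hterm : ∀ x : NZ 3, qf Q x.1 ^ (-s) - s * (qf Q x.1 ^ (-s) * (qf H x.1 / qf Q x.1)) +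
      s * (s + 1) / 2 * (qf Q x.1 ^ (-s) * (qf H x.1 / qf Q x.1) ^ 2) -
      D * (3 / c) ^ 3 * ‖H‖ ^ 3 * qf Q x.1 ^ (-s) ≤ qf (Q + H) x.1 ^ (-s) := by
    intro x
    have hp := hQ.pos x
    set y : ℝ := qf H x.1 / qf Q x.1 with hy
    have hyb : |y| ≤ 3 / c * ‖H‖ := by
      have := hl.ratio hc H x
      push_cast at this
      calc |y| ≤ 3 * ‖H‖ / c := this
        _ = 3 / c * ‖H‖ := by ring
    have hyρ : |y| ≤ ρ := by
      refine hyb.trans ?_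
      calc 3 / c * ‖H‖ ≤ 3 / c * (ρ * c / 3) := mul_le_mul_of_nonneg_left hn2 (by positivity)
        _ = ρ := by field_simp
    have hval : qf (Q + H) x.1 = qf Q x.1 * (1 + y) := by
      rw [qf_add, hy]
      field_simp
    have h1y : 0 ≤ 1 + y := by
      have := (abs_le.mp (hyρ.trans hρ1)).1
      linarith
    have hx := hexp y hyρ
    have hy3 : |y| ^ 3 ≤ (3 / c) ^ 3 * ‖H‖ ^ 3 := by
      calc |y| ^ 3 ≤ (3 / c * ‖H‖) ^ 3 := pow_le_pow_left₀ (abs_nonneg _) hyb 3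
        _ = _ := by ring
    have hQs : 0 ≤ qf Q x.1 ^ (-s) := Real.rpow_nonneg hp.le _
    rw [hval, Real.mul_rpow hp.le h1y]
    have hfin : 1 - s * y + s * (s + 1) / 2 * y ^ 2 - D * ((3 / c) ^ 3 * ‖H‖ ^ 3) ≤
        (1 + y) ^ (-s) := by
      have := mul_le_mul_of_nonneg_left hy3 hD.le
      linarith
    calc _ = qf Q x.1 ^ (-s) * (1 - s * y + s * (s + 1) / 2 * y ^ 2 -
          D * ((3 / c) ^ 3 * ‖H‖ ^ 3)) := by ring
      _ ≤ _ := mul_le_mul_of_nonneg_left hfin hQs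
  have hsum := (((hS.sub (hS1.mul_left s)).add (hS2.mul_left (s * (s + 1) / 2))).sub
    (hS.mul_left (D * (3 / c) ^ 3 * ‖H‖ ^ 3))).tsum_le_tsum hterm (hPD.summable hd)
  rw [((hS.sub (hS1.mul_left s)).add (hS2.mul_left (s * (s + 1) / 2))).tsum_sub
    (hS.mul_left (D * (3 / c) ^ 3 * ‖H‖ ^ 3)),
    (hS.sub (hS1.mul_left s)).tsum_add (hS2.mul_left (s * (s + 1) / 2)),
    hS.tsum_sub (hS1.mul_left s), tsum_mul_left, tsum_mul_left, tsum_mul_left] at hsum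
  have e1 : ∑' x : NZ 3, qf Q x.1 ^ (-s) = F s Q := rfl
  have e2 : ∑' x : NZ 3, qf (Q + H) x.1 ^ (-s) = F s (Q + H) := rfl
  have e3 : ∑' x : NZ 3, qf Q x.1 ^ (-s) * (qf H x.1 / qf Q x.1) ^ 2 = Sq s Q H := rfl
  rw [e1, e2, e3] at hsum
  have h9 : 0 ≤ ‖H‖ ^ 3 := by positivity
  linarith

lemma det_one_add (A : Mx 3) : (1 + A).det =
    1 + A.trace + (A.trace ^ 2 - (A * A).trace) / 2 + A.det := by
  simp only [Matrix.det_fin_three, Matrix.trace_fin_three, Matrix.mul_apply, Fin.sum_univ_three,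
    Matrix.add_apply, Matrix.one_apply]
  simp only [Fin.isValue, if_true, show (0 : Fin 3) ≠ 1 from by decide,
    show (0 : Fin 3) ≠ 2 from by decide, show (1 : Fin 3) ≠ 0 from by decide,
    show (1 : Fin 3) ≠ 2 from by decide, show (2 : Fin 3) ≠ 0 from by decide,
    show (2 : Fin 3) ≠ 1 from by decide, if_false]
  ring

/-- products of three entries -/
lemma abs3 {a b c m : ℝ} (ha : |a| ≤ m) (hb : |b| ≤ m) (hc : |c| ≤ m) : |a * b * c| ≤ m ^ 3 := by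
  have hm : 0 ≤ m := (abs_nonneg a).trans ha
  rw [abs_mul, abs_mul]
  calc |a| * |b| * |c| ≤ m * m * m :=
        mul_le_mul (mul_le_mul ha hb (abs_nonneg _) hm) hc (abs_nonneg _) (by positivity)
    _ = m ^ 3 := by ring

lemma abs2 {a b m : ℝ} (ha : |a| ≤ m) (hb : |b| ≤ m) : |a * b| ≤ m ^ 2 := by
  have hm : 0 ≤ m := (abs_nonneg a).trans ha
  rw [abs_mul]
  calc |a| * |b| ≤ m * m := mul_le_mul ha hb (abs_nonneg _) hm
    _ = m ^ 2 := by ring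

lemma det_bound {A : Mx 3} {m : ℝ} (h : ∀ i j, |A i j| ≤ m) : |A.det| ≤ 6 * m ^ 3 := by
  rw [Matrix.det_fin_three]
  have h1 := abs_le.mp (abs3 (h 0 0) (h 1 1) (h 2 2))
  have h2 := abs_le.mp (abs3 (h 0 0) (h 1 2) (h 2 1))
  have h3 := abs_le.mp (abs3 (h 0 1) (h 1 0) (h 2 2))
  have h4 := abs_le.mp (abs3 (h 0 1) (h 1 2) (h 2 0))
  have h5 := abs_le.mp (abs3 (h 0 2) (h 1 0) (h 2 1))
  have h6 := abs_le.mp (abs3 (h 0 2) (h 1 1) (h 2 0))
  rw [abs_le]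
  constructor <;> linarith [h1.1, h1.2, h2.1, h2.2, h3.1, h3.2, h4.1, h4.2, h5.1, h5.2, h6.1, h6.2]

lemma tr_bound {A : Mx 3} {m : ℝ} (h : ∀ i j, |A i j| ≤ m) : |(A * A).trace| ≤ 9 * m ^ 2 := by
  simp only [Matrix.trace_fin_three, Matrix.mul_apply, Fin.sum_univ_three]
  have h1 := abs_le.mp (abs2 (h 0 0) (h 0 0))
  have h2 := abs_le.mp (abs2 (h 0 1) (h 1 0))
  have h3 := abs_le.mp (abs2 (h 0 2) (h 2 0))
  have h4 := abs_le.mp (abs2 (h 1 0) (h 0 1))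
  have h5 := abs_le.mp (abs2 (h 1 1) (h 1 1))
  have h6 := abs_le.mp (abs2 (h 1 2) (h 2 1))
  have h7 := abs_le.mp (abs2 (h 2 0) (h 0 2))
  have h8 := abs_le.mp (abs2 (h 2 1) (h 1 2))
  have h9 := abs_le.mp (abs2 (h 2 2) (h 2 2))
  rw [abs_le]
  constructor <;> linarith [h1.1, h1.2, h2.1, h2.2, h3.1, h3.2, h4.1, h4.2, h5.1, h5.2, h6.1,
    h6.2, h7.1, h7.2, h8.1, h8.2, h9.1, h9.2]

/-- the logarithm of the determinant from below -/
lemma det_below {Q : Mx 3} (hQ : PD Q) : ∃ C > 0, ∃ r > 0, ∀ H : Mx 3,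
    (Q⁻¹ * H).trace = 0 → ‖H‖ ≤ r →
      Real.log Q.det - Tr Q H / 2 - C * ‖H‖ ^ 3 ≤ Real.log (Q + H).det := by
  have hdet := hQ.det_pos
  have hu : IsUnit Q.det := isUnit_iff_ne_zero.mpr hdet.ne'
  set a : ℝ := 3 * ‖Q⁻¹‖ + 1 with ha
  have ha0 : 0 < a := by positivity
  set b : ℝ := 9 * a ^ 2 / 2 + 6 * a ^ 3 with hb
  have hb0 : 0 < b := by positivity
  refine ⟨6 * a ^ 3 + 2 * b ^ 2, by positivity, min 1 (1 / (2 * b)), by positivity,
    fun H htr hn => ?_⟩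
  have hn1 : ‖H‖ ≤ 1 := hn.trans (min_le_left _ _)
  have hn2 : ‖H‖ ≤ 1 / (2 * b) := hn.trans (min_le_right _ _)
  have hn0 := norm_nonneg H
  set A : Mx 3 := Q⁻¹ * H with hA
  have hent : ∀ i j, |A i j| ≤ a * ‖H‖ := by
    intro i j
    rw [hA, Matrix.mul_apply]
    refine (Finset.abs_sum_le_sum_abs _ _).trans ?_
    have h1 : ∀ k ∈ Finset.univ, |Q⁻¹ i k * H k j| ≤ ‖Q⁻¹‖ * ‖H‖ := by
      intro k _
      rw [abs_mul]
      exact mul_le_mul (entry_le _ _ _) (entry_le _ _ _) (abs_nonneg _) (norm_nonneg _)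
    refine (Finset.sum_le_sum h1).trans ?_
    rw [Finset.sum_const, Finset.card_univ, Fintype.card_fin, nsmul_eq_mul, ha]
    push_cast
    nlinarith
  have hd1 := det_bound hent
  have ht1 := tr_bound hent
  have hQH : Q + H = Q * (1 + A) := by
    rw [hA, mul_add, mul_one, ← Matrix.mul_assoc, Matrix.mul_nonsing_inv Q hu, Matrix.one_mul]
  have hdq : (Q + H).det = Q.det * (1 + (-(Tr Q H / 2) + A.det)) := by
    rw [hQH, Matrix.det_mul, det_one_add]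
    have : A.trace = 0 := htr
    rw [this]
    have h3 : Tr Q H = (A * A).trace := rfl
    rw [h3]
    ring
  set u : ℝ := -(Tr Q H / 2) + A.det with hu'
  have hT : |Tr Q H| ≤ 9 * (a * ‖H‖) ^ 2 := ht1
  have h32 : ‖H‖ ^ 3 ≤ ‖H‖ ^ 2 := by nlinarith [sq_nonneg ‖H‖]
  have hub : |u| ≤ b * ‖H‖ ^ 2 := by
    have h4 : |u| ≤ |Tr Q H| / 2 + |A.det| := by
      rw [hu']
      refine (abs_add_le _ _).trans ?_
      rw [abs_neg, abs_div, abs_of_pos (by norm_num : (0 : ℝ) < 2)]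
    have h5 : a ^ 3 * ‖H‖ ^ 3 ≤ a ^ 3 * ‖H‖ ^ 2 := mul_le_mul_of_nonneg_left h32 (by positivity)
    rw [hb]
    nlinarith
  have hu2 : |u| ≤ 1 / 2 := by
    refine hub.trans ?_
    have h5 : ‖H‖ ^ 2 ≤ ‖H‖ := by nlinarith
    calc b * ‖H‖ ^ 2 ≤ b * (1 / (2 * b)) := mul_le_mul_of_nonneg_left (h5.trans hn2) hb0.le
      _ = 1 / 2 := by field_simp
  have hl := log_below hu2
  have h1u : 0 < 1 + u := by
    have := (abs_le.mp hu2).1
    linarith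
  rw [hdq, Real.log_mul hdet.ne' h1u.ne']
  have hsq : u ^ 2 ≤ b ^ 2 * ‖H‖ ^ 3 := by
    have h5 : |u| ^ 2 ≤ (b * ‖H‖ ^ 2) ^ 2 := pow_le_pow_left₀ (abs_nonneg _) hub 2
    rw [sq_abs] at h5
    have h6 : (b * ‖H‖ ^ 2) ^ 2 = b ^ 2 * (‖H‖ ^ 3 * ‖H‖) := by ring
    have h7 : ‖H‖ ^ 3 * ‖H‖ ≤ ‖H‖ ^ 3 * 1 := mul_le_mul_of_nonneg_left hn1 (by positivity)
    have h8 := mul_le_mul_of_nonneg_left h7 (sq_nonneg b)
    linarith
  have hdd := (abs_le.mp hd1).1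
  have h9 : (a * ‖H‖) ^ 3 = a ^ 3 * ‖H‖ ^ 3 := by ring
  rw [h9] at hdd
  rw [hu'] at hl
  rw [← hu'] at hl
  have h10 : u = -(Tr Q H / 2) + A.det := hu'
  nlinarith

/-- the energy near a critical form, in the slice of trace zero -/
lemma slice {Q : Mx 3} (hQ : PD Q) {s : ℝ} (hs : 3 / 2 < s) (hc : Crit s Q)
    (h2 : ∀ H : Mx 3, H.IsSymm → (Q⁻¹ * H).trace = 0 → H ≠ 0 →
      F s Q * (Tr Q H / 3) < (s + 1) * Sq s Q H) :
    ∃ r > 0, ∀ H : Mx 3, H.IsSymm → (Q⁻¹ * H).trace = 0 → ‖H‖ ≤ r → En s Q ≤ En s (Q + H) := by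
  obtain ⟨κ, hκ, hco⟩ := coer hQ hs h2
  obtain ⟨C, hC, r₁, hr₁, hFb⟩ := F_below hQ hs
  obtain ⟨D, hD, r₂, hr₂, hdb⟩ := det_below hQ
  obtain ⟨c, hc0, hl⟩ := hQ.low
  have hd : ((3 : ℕ) : ℝ) / 2 < s := by norm_num; exact hs
  have hs0 : 0 < s := by linarith
  have hF : 0 < F s Q := F_pos (by norm_num) hQ hd
  have hS := hQ.summable hd
  -- bound of `Sq`
  have hSq0 : ∀ H : Mx 3, 0 ≤ Sq s Q H := fun H =>
    tsum_nonneg fun x => mul_nonneg (Real.rpow_nonneg (hQ.pos x).le _) (sq_nonneg _)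
  have hSqb : ∀ H : Mx 3, Sq s Q H ≤ F s Q * (3 / c) ^ 2 * ‖H‖ ^ 2 := by
    intro H
    have h3 : Sq s Q H ≤ ∑' x : NZ 3, qf Q x.1 ^ (-s) * ((3 / c) ^ 2 * ‖H‖ ^ 2) := by
      refine (hl.summable_mul_sq hc0 hd H).tsum_le_tsum (fun x => ?_) (hS.mul_right _)
      have hr := hl.ratio hc0 H x
      refine mul_le_mul_of_nonneg_left ?_ (Real.rpow_nonneg (hQ.pos x).le _)
      rw [← sq_abs]
      calc |qf H x.1 / qf Q x.1| ^ 2 ≤ ((3 : ℕ) * ‖H‖ / c) ^ 2 :=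
            pow_le_pow_left₀ (abs_nonneg _) hr 2
        _ = (3 / c) ^ 2 * ‖H‖ ^ 2 := by push_cast; ring
    rw [tsum_mul_right] at h3
    have e1 : ∑' x : NZ 3, qf Q x.1 ^ (-s) = F s Q := rfl
    rw [e1] at h3
    linarith
  set B : ℝ := s * (s + 1) / 2 * (3 / c) ^ 2 + C / F s Q with hB
  have hB0 : 0 < B := by positivity
  set E : ℝ := C / F s Q + 2 * B ^ 2 + s / 3 * D with hE
  have hE0 : 0 < E := by positivity
  refine ⟨min (min r₁ r₂) (min 1 (min (1 / (2 * B)) (s * κ / (2 * F s Q * E)))), by positivity,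
    fun H hH htr hn => ?_⟩
  have hn1 : ‖H‖ ≤ r₁ := hn.trans ((min_le_left _ _).trans (min_le_left _ _))
  have hn2 : ‖H‖ ≤ r₂ := hn.trans ((min_le_left _ _).trans (min_le_right _ _))
  have hn3 : ‖H‖ ≤ 1 := hn.trans ((min_le_right _ _).trans (min_le_left _ _))
  have hn4 : ‖H‖ ≤ 1 / (2 * B) :=
    hn.trans ((min_le_right _ _).trans ((min_le_right _ _).trans (min_le_left _ _)))
  have hn5 : ‖H‖ ≤ s * κ / (2 * F s Q * E) :=
    hn.trans ((min_le_right _ _).trans ((min_le_right _ _).trans (min_le_right _ _)))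
  have hn0 := norm_nonneg H
  obtain ⟨hPD, hFH⟩ := hFb H hH hn1
  have hdH := hdb H htr hn2
  have hcr := hc H hH
  rw [htr, zero_div, mul_zero] at hcr
  rw [hcr, mul_zero, sub_zero] at hFH
  have hcoH := hco H hH htr
  set v : ℝ := (s * (s + 1) / 2 * Sq s Q H - C * ‖H‖ ^ 3) / F s Q with hv
  have hFv : F s Q * (1 + v) ≤ F s (Q + H) := by
    have : F s Q * (1 + v) = F s Q + s * (s + 1) / 2 * Sq s Q H - C * ‖H‖ ^ 3 := by
      rw [hv]; field_simp; ring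
    linarith
  have h32 : ‖H‖ ^ 3 ≤ ‖H‖ ^ 2 := by nlinarith [sq_nonneg ‖H‖]
  have hvb : |v| ≤ B * ‖H‖ ^ 2 := by
    rw [hv, abs_div, abs_of_pos hF, div_le_iff₀ hF]
    have h4 := hSq0 H
    have h5 := hSqb H
    have h6 : |s * (s + 1) / 2 * Sq s Q H - C * ‖H‖ ^ 3| ≤
        s * (s + 1) / 2 * Sq s Q H + C * ‖H‖ ^ 3 := by
      rw [abs_le]
      have h7 : 0 ≤ s * (s + 1) / 2 * Sq s Q H := by positivity
      have h8 : 0 ≤ C * ‖H‖ ^ 3 := by positivity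
      constructor <;> linarith
    have h7 : s * (s + 1) / 2 * Sq s Q H ≤ s * (s + 1) / 2 * (F s Q * (3 / c) ^ 2 * ‖H‖ ^ 2) :=
      mul_le_mul_of_nonneg_left h5 (by positivity)
    have h8 : C * ‖H‖ ^ 3 ≤ C * ‖H‖ ^ 2 := mul_le_mul_of_nonneg_left h32 hC.le
    have h9 : B * ‖H‖ ^ 2 * F s Q = s * (s + 1) / 2 * (F s Q * (3 / c) ^ 2 * ‖H‖ ^ 2) +
        C * ‖H‖ ^ 2 := by
      rw [hB]; field_simp
    linarith
  have h21 : ‖H‖ ^ 2 ≤ ‖H‖ := by nlinarith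
  have hv2 : |v| ≤ 1 / 2 := by
    refine hvb.trans ?_
    calc B * ‖H‖ ^ 2 ≤ B * (1 / (2 * B)) := mul_le_mul_of_nonneg_left (h21.trans hn4) hB0.le
      _ = 1 / 2 := by field_simp
  have h1v : 0 < 1 + v := by
    have := (abs_le.mp hv2).1
    linarith
  have hlv := log_below hv2
  have hF' : 0 < F s (Q + H) := F_pos (by norm_num) hPD hd
  have hlF : Real.log (F s Q) + (v - 2 * v ^ 2) ≤ Real.log (F s (Q + H)) := by
    have h4 := Real.log_le_log (mul_pos hF h1v) hFv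
    rw [Real.log_mul hF.ne' h1v.ne'] at h4
    linarith
  have hvsq : v ^ 2 ≤ B ^ 2 * ‖H‖ ^ 3 := by
    have h5 : |v| ^ 2 ≤ (B * ‖H‖ ^ 2) ^ 2 := pow_le_pow_left₀ (abs_nonneg _) hvb 2
    rw [sq_abs] at h5
    have h6 : (B * ‖H‖ ^ 2) ^ 2 = B ^ 2 * (‖H‖ ^ 3 * ‖H‖) := by ring
    have h7 : ‖H‖ ^ 3 * ‖H‖ ≤ ‖H‖ ^ 3 * 1 := mul_le_mul_of_nonneg_left hn3 (by positivity)
    have h8 := mul_le_mul_of_nonneg_left h7 (sq_nonneg B)
    linarith
  have hEQ : 0 < En s Q := mul_pos hF (Real.rpow_pos_of_pos hQ.det_pos _)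
  have hEH : 0 < En s (Q + H) := mul_pos hF' (Real.rpow_pos_of_pos hPD.det_pos _)
  refine (Real.log_le_log_iff hEQ hEH).1 ?_
  unfold En
  rw [Real.log_mul hF.ne' (Real.rpow_pos_of_pos hQ.det_pos _).ne',
    Real.log_mul hF'.ne' (Real.rpow_pos_of_pos hPD.det_pos _).ne',
    Real.log_rpow hQ.det_pos, Real.log_rpow hPD.det_pos]
  have h8 : s / ((3 : ℕ) : ℝ) * (Real.log Q.det - Tr Q H / 2 - D * ‖H‖ ^ 3) ≤
      s / ((3 : ℕ) : ℝ) * Real.log (Q + H).det := mul_le_mul_of_nonneg_left hdH (by positivity)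
  have h9 : v = s * (s + 1) / (2 * F s Q) * Sq s Q H - C / F s Q * ‖H‖ ^ 3 := by
    rw [hv]; field_simp
  have h10 : s / (2 * F s Q) * (κ * ‖H‖ ^ 2) ≤ s / (2 * F s Q) *
      ((s + 1) * Sq s Q H - F s Q * (Tr Q H / 3)) :=
    mul_le_mul_of_nonneg_left hcoH (by positivity)
  have h11 : s / (2 * F s Q) * ((s + 1) * Sq s Q H - F s Q * (Tr Q H / 3)) =
      s * (s + 1) / (2 * F s Q) * Sq s Q H - s / 6 * Tr Q H := by
    field_simp
    ring
  have h12 : E * ‖H‖ ^ 3 ≤ s / (2 * F s Q) * (κ * ‖H‖ ^ 2) := by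
    have h13 : E * ‖H‖ ≤ s * κ / (2 * F s Q) := by
      calc E * ‖H‖ ≤ E * (s * κ / (2 * F s Q * E)) := mul_le_mul_of_nonneg_left hn5 hE0.le
        _ = s * κ / (2 * F s Q) := by field_simp
    calc E * ‖H‖ ^ 3 = E * ‖H‖ * ‖H‖ ^ 2 := by ring
      _ ≤ s * κ / (2 * F s Q) * ‖H‖ ^ 2 := mul_le_mul_of_nonneg_right h13 (sq_nonneg _)
      _ = _ := by ring
  push_cast at h8 ⊢
  rw [hE] at h12
  nlinarith

end BSufAux

open BSufAux

theorem locMin_of_second {Q : Mx 3} (hQ : PD Q) {s : ℝ} (hs : 3 / 2 < s) (hc : Crit s Q)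
    (h2 : ∀ H : Mx 3, H.IsSymm → (Q⁻¹ * H).trace = 0 → H ≠ 0 →
      F s Q * ((Q⁻¹ * H * (Q⁻¹ * H)).trace / 3) <
        (s + 1) * ∑' x : NZ 3, qf Q x.1 ^ (-s) * (qf H x.1 / qf Q x.1) ^ 2) :
    LocMin s Q := by
  have h2' : ∀ H : Mx 3, H.IsSymm → (Q⁻¹ * H).trace = 0 → H ≠ 0 →
      F s Q * (Tr Q H / 3) < (s + 1) * Sq s Q H := h2
  obtain ⟨r, hr, hsl⟩ := slice hQ hs hc h2'
  have hu : IsUnit Q.det := isUnit_iff_ne_zero.mpr hQ.det_pos.ne'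
  have htQ : (Q⁻¹ * Q).trace = 3 := by
    rw [Matrix.nonsing_inv_mul Q hu]
    simp
  have hc1 : Continuous (fun R : Mx 3 => (Q⁻¹ * R).trace) := by fun_prop
  have hc2 : ContinuousAt (fun R : Mx 3 => (3 / (Q⁻¹ * R).trace) • R - Q) Q := by
    refine ContinuousAt.sub (ContinuousAt.smul (ContinuousAt.div continuousAt_const
      hc1.continuousAt ?_) continuousAt_id) continuousAt_const
    rw [htQ]; norm_num
  have hz : (3 / (Q⁻¹ * Q).trace) • Q - Q = 0 := by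
    rw [htQ]; norm_num
  have e1 : ∀ᶠ R in 𝓝 Q, 0 < (Q⁻¹ * R).trace :=
    hc1.continuousAt.eventually_const_lt (by show 0 < (Q⁻¹ * Q).trace; rw [htQ]; norm_num)
  have e2 : ∀ᶠ R in 𝓝 Q, ‖(3 / (Q⁻¹ * R).trace) • R - Q‖ < r := by
    have h3 := hc2.norm
    refine h3.eventually_lt_const ?_
    show ‖(3 / (Q⁻¹ * Q).trace) • Q - Q‖ < r
    rw [hz, norm_zero]
    exact hr
  obtain ⟨ε, hε, hball⟩ := Metric.eventually_nhds_iff.mp (e1.and e2)
  refine ⟨ε, hε, fun R hR hn => ?_⟩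
  obtain ⟨h3, h4⟩ := hball (y := R) (by rwa [dist_eq_norm])
  set κ : ℝ := 3 / (Q⁻¹ * R).trace with hκ
  have hκ0 : 0 < κ := by positivity
  have h5 := hsl (κ • R - Q) ((hR.1.smul κ).sub hQ.1) (by
    rw [mul_sub, trace_sub, htQ, mul_smul_comm, trace_smul, smul_eq_mul, hκ]
    field_simp
    ring) h4.le
  rw [add_sub_cancel, En_smul (by norm_num) hR hκ0] at h5
  exact h5

end Pool.Agent.Lib.EPL
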