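import Pool.Agent.Lib.EPL.BS0
import Pool.Agent.Lib.EPL.BCrit
import Pool.Agent.Lib.EPL.BHess
import Pool.Agent.Lib.EPL.BSuf

/-!
# EPL.BFin: the bcc lattice is a local minimum exactly below the critical exponent

`s < s0`: `locMin_of_second` with `Qb_crit`, `Qb_hess`, `MT_pos`. `s > s0`: `second_of_locMin` with `path_unipotent` for `w = ![1,0,0]`,
`z = ![0,1,-1]` (see BDual: `H[x] = 2 (v₁² - v₂²)`, `K[x] = 2 (v₁ + v₂)²`): the sum is `4 s ((s+1)(X4 - X22) - (X4 + 2 X22)) = 4 s ME s < 0`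
(symmetries as in BDual, `nz_s01`, `nz_n0`; `sum_wK`).
-/

open MeasureTheory Set Filter Topology Matrix
open scoped Matrix.Norms.Elementwise

namespace Pool.Agent.Lib.EPL

open Pool.Agent.Lib.EpZ Pool.Agent.Lib.EPS

namespace BFinAux

/-- the second order sum in the tetragonal direction -/
theorem second_sum {s : ℝ} (hs : 3 / 2 < s) :
    ∑' x : NZ 3, (s * (s + 1) / 2 * (qf Qb x.1 ^ (-s) *
      (qf (Hd Qb ![1, 0, 0] ![0, 1, -1]) x.1 / qf Qb x.1) ^ 2) -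
      s * (qf Qb x.1 ^ (-s) * (qf (qr Qb ![0, 1, -1] • vecMulVec ![1, 0, 0] ![1, 0, 0]) x.1 /
        qf Qb x.1))) = 4 * s * ME s := by
  have a00 := BMelAux.summ44 0 0 hs
  have a11 := BMelAux.summ44 1 1 hs
  have a01 := BMelAux.summ44 0 1 hs
  have hm := BCritAux.expand hs (2 * s) (2 * s) 0 (4 * s) 0 0
  have hK : BCritAux.m2 s 0 0 = X4 s + 2 * X22 s := by
    rw [← sum_wK hs]
    unfold BCritAux.m2 wK
    exact tsum_congr fun x => by ring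
  have hb : Summable fun x : NZ 3 => (2 * s * ((bv x.1 0 : ℝ) * (bv x.1 0 : ℝ)) +
      2 * s * ((bv x.1 1 : ℝ) * (bv x.1 1 : ℝ)) + 0 * ((bv x.1 2 : ℝ) * (bv x.1 2 : ℝ)) +
      4 * s * ((bv x.1 0 : ℝ) * (bv x.1 1 : ℝ)) + 0 * ((bv x.1 0 : ℝ) * (bv x.1 2 : ℝ)) +
      0 * ((bv x.1 1 : ℝ) * (bv x.1 2 : ℝ))) / qf Qb x.1 ^ (s + 1) := by
    refine ((((BCritAux.sm hs 0 0).mul_left (2 * s)).add
      ((BCritAux.sm hs 1 1).mul_left (2 * s))).add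
      ((BCritAux.sm hs 0 1).mul_left (4 * s))).congr fun x => ?_
    ring
  have ha : Summable fun x : NZ 3 =>
      (2 * s * (s + 1) * ((bv x.1 0 : ℝ) ^ 2 * (bv x.1 0 : ℝ) ^ 2 / qf Qb x.1 ^ (s + 2)) -
      4 * s * (s + 1) * ((bv x.1 0 : ℝ) ^ 2 * (bv x.1 1 : ℝ) ^ 2 / qf Qb x.1 ^ (s + 2))) +
      2 * s * (s + 1) * ((bv x.1 1 : ℝ) ^ 2 * (bv x.1 1 : ℝ) ^ 2 / qf Qb x.1 ^ (s + 2)) :=
    ((a00.mul_left _).sub (a01.mul_left _)).add (a11.mul_left _)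
  have hA : ∑' x : NZ 3,
      ((2 * s * (s + 1) * ((bv x.1 0 : ℝ) ^ 2 * (bv x.1 0 : ℝ) ^ 2 / qf Qb x.1 ^ (s + 2)) -
      4 * s * (s + 1) * ((bv x.1 0 : ℝ) ^ 2 * (bv x.1 1 : ℝ) ^ 2 / qf Qb x.1 ^ (s + 2))) +
      2 * s * (s + 1) * ((bv x.1 1 : ℝ) ^ 2 * (bv x.1 1 : ℝ) ^ 2 / qf Qb x.1 ^ (s + 2))) =
      4 * s * (s + 1) * (X4 s - X22 s) := by
    rw [((a00.mul_left _).sub (a01.mul_left _)).tsum_add (a11.mul_left _),
      (a00.mul_left _).tsum_sub (a01.mul_left _), tsum_mul_left, tsum_mul_left, tsum_mul_left,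
      BMelAux.m00, BMelAux.m11]
    have : ∑' x : NZ 3, (bv x.1 0 : ℝ) ^ 2 * (bv x.1 1 : ℝ) ^ 2 / qf Qb x.1 ^ (s + 2) = X22 s := rfl
    rw [this]
    ring
  have e : ∀ x : NZ 3, (s * (s + 1) / 2 * (qf Qb x.1 ^ (-s) *
      (qf (Hd Qb ![1, 0, 0] ![0, 1, -1]) x.1 / qf Qb x.1) ^ 2) -
      s * (qf Qb x.1 ^ (-s) * (qf (qr Qb ![0, 1, -1] • vecMulVec ![1, 0, 0] ![1, 0, 0]) x.1 /
        qf Qb x.1))) =
      ((2 * s * (s + 1) * ((bv x.1 0 : ℝ) ^ 2 * (bv x.1 0 : ℝ) ^ 2 / qf Qb x.1 ^ (s + 2)) -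
      4 * s * (s + 1) * ((bv x.1 0 : ℝ) ^ 2 * (bv x.1 1 : ℝ) ^ 2 / qf Qb x.1 ^ (s + 2))) +
      2 * s * (s + 1) * ((bv x.1 1 : ℝ) ^ 2 * (bv x.1 1 : ℝ) ^ 2 / qf Qb x.1 ^ (s + 2))) -
      (2 * s * ((bv x.1 0 : ℝ) * (bv x.1 0 : ℝ)) +
      2 * s * ((bv x.1 1 : ℝ) * (bv x.1 1 : ℝ)) + 0 * ((bv x.1 2 : ℝ) * (bv x.1 2 : ℝ)) +
      4 * s * ((bv x.1 0 : ℝ) * (bv x.1 1 : ℝ)) + 0 * ((bv x.1 0 : ℝ) * (bv x.1 2 : ℝ)) +
      0 * ((bv x.1 1 : ℝ) * (bv x.1 2 : ℝ))) / qf Qb x.1 ^ (s + 1) := by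
    intro x
    have hp := Qb_pd.pos x
    have h1 : qf (Hd Qb ![1, 0, 0] ![0, 1, -1]) x.1 =
        2 * ((bv x.1 0 : ℝ) ^ 2 - (bv x.1 1 : ℝ) ^ 2) := by
      rw [qf_Hd]
      simp [Qb, bv, rv, dotProduct, mulVec, Fin.sum_univ_three]
      ring
    have h2 : qf (qr Qb ![0, 1, -1] • vecMulVec ![1, 0, 0] ![1, 0, 0]) x.1 =
        2 * ((bv x.1 0 : ℝ) + (bv x.1 1 : ℝ)) ^ 2 := by
      rw [qf_smul]
      unfold qf
      rw [qr_vecMulVec]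
      simp [Qb, bv, rv, qr, dotProduct, mulVec, Fin.sum_univ_three]
      ring
    have hq := Real.rpow_pos_of_pos hp s
    rw [h1, h2, Real.rpow_add hp, Real.rpow_add hp, Real.rpow_one, Real.rpow_neg hp.le]
    norm_num
    field_simp
    ring
  rw [tsum_congr e, ha.tsum_sub hb, hA, hm, hK]
  unfold ME
  ring

end BFinAux

theorem bcc_sign : ∃ s0 : ℝ, 3 ≤ s0 ∧ s0 ≤ 4 ∧ (∀ s, 3 / 2 < s → s < s0 → LocMin s Qb) ∧
    (∀ s, s0 < s → ¬ LocMin s Qb) := by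
  obtain ⟨s0, h3, h4, hlt, hgt⟩ := exists_s0
  refine ⟨s0, h3, h4, fun s hs hss => ?_, fun s hss hm => ?_⟩
  · exact locMin_of_second Qb_pd hs (Qb_crit hs)
      (fun H hH htr hne => Qb_hess hs (hlt s hs hss) (MT_pos hs) H hH htr hne)
  · have hs : 3 / 2 < s := by linarith
    have hwz : (![1, 0, 0] : Fin 3 → ℝ) ⬝ᵥ ![0, 1, -1] = 0 := by
      simp [dotProduct, Fin.sum_univ_three]
    have h := second_of_locMin Qb_pd (Hd_symm Qb ![1, 0, 0] ![0, 1, -1])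
      (by rw [trace_Hd Qb_pd, hwz, mul_zero]) (path_unipotent Qb_pd hwz) hs hm
    rw [BFinAux.second_sum hs] at h
    have := hgt s hss
    nlinarith

end Pool.Agent.Lib.EPL
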