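import Pool.Agent.Lib.EPL.BDual

/-!
# EPL.BHalf: two lattice sums at `exp(-t) = 1/2`

The vectors `bv x` are the integer vectors with coordinates of equal parity: `x ↦ Sum.inl n` if `v₁` is even (`v = 2 n`),
`Sum.inr n` if odd (`v = 2 n + 1`) is a bijection onto `(Fin 3 → ℤ) ⊕ (Fin 3 → ℤ)` (injectivity is enough for upper bounds
of sums of nonnegative terms). The sum over `n : Fin 3 → ℤ` of a product is a product of three one-dimensional sums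
(equivalence with `ℤ × ℤ × ℤ`, `tsum_mul_tsum_of_summable_norm`). With
`A k = ∑ (2n)^k 2^(-4n²)`, `B k = ∑ (2n+1)^k 2^(-(2n+1)²)` (`n : ℤ`):
  `∑ wK(bv x) 2^(-nb x) = A2 A0² + B2 B0²`,   `∑ wS(bv x) 2^(-nb x) = A4 A0² - A2² A0 + B4 B0² - B2² B0`.
VALUES: `A0 = 1.1250305` (1 + 2/16 + 2/65536 + ...), `A2 = 0.5004883` (8/16 + 32/65536 + ...), `A4 = 2.0078125` (32/16 + 512/65536 + ...),
`B0 = 1.0039063` (2/2 + 2/512 + ...), `B2 = 1.0351578` (1 + 18/512 + 50/2^25 + ...), `B4 = 1.3164435` (1 + 162/512 + 1250/2^25 + ...);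
the remaining terms are bounded by a geometric series, `n^4 2^(-n²) ≤ 2^(-3n)`-like for `n ≥ 5` (the total remainders are below `10^(-7)`).
True values of the two sums: `1.67672` and `2.51048`.
-/

open MeasureTheory Set Filter Topology Matrix
open scoped Matrix.Norms.Elementwise

namespace Pool.Agent.Lib.EPL

open Pool.Agent.Lib.EpZ Pool.Agent.Lib.EPS

namespace BHalfAux

/-! ### one-dimensional sums -/

/-- one-dimensional terms -/
noncomputable def hh (k : ℕ) (m : ℤ) : ℝ := (m : ℝ) ^ k * (1 / 2 : ℝ) ^ (m.natAbs ^ 2)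
/-- even part -/
noncomputable def hE (k : ℕ) (m : ℤ) : ℝ := if m % 2 = 0 then hh k m else 0
/-- odd part -/
noncomputable def hO (k : ℕ) (m : ℤ) : ℝ := if m % 2 = 1 then hh k m else 0

lemma pow4 {n : ℕ} (h : 6 ≤ n) : (n : ℝ) ^ 4 ≤ 4 ^ n := by
  have key : ∀ n : ℕ, 6 ≤ n → n ^ 4 ≤ 4 ^ n := by
    intro n hn
    induction n, hn using Nat.le_induction with
    | base => norm_num
    | succ n hn ih =>
      rw [pow_succ 4 n]
      have : (n + 1) ^ 4 ≤ n ^ 4 * 4 := by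
        have e1 : (n + 1) ^ 4 = n ^ 4 + 4 * n ^ 3 + 6 * n ^ 2 + 4 * n + 1 := by ring
        have e2 : 6 * n ^ 3 ≤ n ^ 4 := by
          calc 6 * n ^ 3 ≤ n * n ^ 3 := Nat.mul_le_mul_right _ hn
            _ = n ^ 4 := by ring
        have e3 : n ^ 2 ≤ n ^ 3 := Nat.pow_le_pow_right (by omega) (by norm_num)
        have e4 : n ≤ n ^ 3 := by
          calc n = n ^ 1 := (pow_one n).symm
            _ ≤ n ^ 3 := Nat.pow_le_pow_right (by omega) (by norm_num)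
        have e5 : 1 ≤ n ^ 3 := Nat.one_le_pow _ _ (by omega)
        omega
      exact this.trans (Nat.mul_le_mul_right _ ih)
  exact_mod_cast key n h

lemma hh_le {k : ℕ} (hk : k ≤ 4) {n : ℕ} (h : 6 ≤ n) : hh k (n : ℤ) ≤ (1 / 16) ^ n := by
  unfold hh
  have h1 : ((n : ℤ) : ℝ) ^ k ≤ 4 ^ n := by
    push_cast
    refine (pow_le_pow_right₀ ?_ hk).trans (pow4 h)
    have : 1 ≤ n := by omega
    exact_mod_cast this
  have h2 : (1 / 2 : ℝ) ^ ((n : ℤ).natAbs ^ 2) ≤ (1 / 2) ^ (6 * n) := by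
    refine pow_le_pow_of_le_one (by norm_num) (by norm_num) ?_
    rw [Int.natAbs_natCast, sq]
    exact Nat.mul_le_mul_right _ h
  refine (mul_le_mul h1 h2 (by positivity) (by positivity)).trans (le_of_eq ?_)
  rw [pow_mul, ← mul_pow]
  norm_num

lemma hh_nonneg {k : ℕ} (hk : Even k) (m : ℤ) : 0 ≤ hh k m := by
  unfold hh
  have := hk.pow_nonneg (m : ℝ)
  positivity

lemma hh_neg {k : ℕ} (hk : Even k) (m : ℤ) : hh k (-m) = hh k m := by
  unfold hh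
  rw [Int.natAbs_neg]
  push_cast
  rw [hk.neg_pow]

lemma hE_nonneg {k : ℕ} (hk : Even k) (m : ℤ) : 0 ≤ hE k m := by
  unfold hE
  split_ifs
  · exact hh_nonneg hk m
  · exact le_rfl

lemma hO_nonneg {k : ℕ} (hk : Even k) (m : ℤ) : 0 ≤ hO k m := by
  unfold hO
  split_ifs
  · exact hh_nonneg hk m
  · exact le_rfl

lemma hE_neg {k : ℕ} (hk : Even k) (m : ℤ) : hE k (-m) = hE k m := by
  unfold hE
  rw [hh_neg hk]
  have : (-m) % 2 = 0 ↔ m % 2 = 0 := by omega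
  simp only [this]

lemma hO_neg {k : ℕ} (hk : Even k) (m : ℤ) : hO k (-m) = hO k m := by
  unfold hO
  rw [hh_neg hk]
  have : (-m) % 2 = 1 ↔ m % 2 = 1 := by omega
  simp only [this]

lemma hE_le {k : ℕ} (hk : k ≤ 4) {n : ℕ} (h : 6 ≤ n) : hE k (n : ℤ) ≤ (1 / 16) ^ n := by
  unfold hE
  split_ifs
  · exact hh_le hk h
  · positivity

lemma hO_le {k : ℕ} (hk : k ≤ 4) {n : ℕ} (h : 6 ≤ n) : hO k (n : ℤ) ≤ (1 / 16) ^ n := by
  unfold hO
  split_ifs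
  · exact hh_le hk h
  · positivity

/-- even functions with small tails -/
lemma int_sum {f : ℤ → ℝ} (h0 : ∀ m, 0 ≤ f m) (hn : ∀ m, f (-m) = f m)
    (hb : ∀ n : ℕ, 6 ≤ n → f (n : ℤ) ≤ (1 / 16) ^ n) :
    Summable f ∧ f 0 + 2 * (f 1 + f 2 + f 3 + f 4 + f 5) ≤ ∑' m, f m ∧
      ∑' m, f m ≤ f 0 + 2 * (f 1 + f 2 + f 3 + f 4 + f 5) + 2 / 10 ^ 7 := by
  have g1 : Summable (fun n : ℕ => (1 / 16 : ℝ) ^ n) :=
    summable_geometric_of_lt_one (by norm_num) (by norm_num)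
  have g2 : ∑' n : ℕ, (1 / 16 : ℝ) ^ n = 16 / 15 := by
    rw [tsum_geometric_of_lt_one (by norm_num) (by norm_num)]
    norm_num
  have g3 : ∀ n : ℕ, f ((n + 6 : ℕ) : ℤ) ≤ (1 / 16) ^ 6 * (1 / 16 : ℝ) ^ n := by
    intro n
    refine (hb (n + 6) (by omega)).trans (le_of_eq ?_)
    rw [pow_add]
    ring
  have s6 : Summable (fun n : ℕ => f ((n + 6 : ℕ) : ℤ)) :=
    Summable.of_nonneg_of_le (fun n => h0 _) g3 (g1.mul_left _)
  have s0 : Summable (fun n : ℕ => f (n : ℤ)) := by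
    exact (summable_nat_add_iff (f := fun n : ℕ => f (n : ℤ)) 6).1 s6
  have t6 : ∑' n : ℕ, f ((n + 6 : ℕ) : ℤ) ≤ 1 / 10 ^ 7 := by
    refine (Summable.tsum_le_tsum g3 s6 (g1.mul_left _)).trans ?_
    rw [tsum_mul_left, g2]
    norm_num
  have t60 : 0 ≤ ∑' n : ℕ, f ((n + 6 : ℕ) : ℤ) := tsum_nonneg (fun n => h0 _)
  have e1 := s0.sum_add_tsum_nat_add 6
  have e2 := s0.sum_add_tsum_nat_add 1
  have s1 : Summable (fun n : ℕ => f (-((n : ℤ) + 1))) := by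
    have : (fun n : ℕ => f (-((n : ℤ) + 1))) = fun n : ℕ => f ((n + 1 : ℕ) : ℤ) := by
      funext n
      rw [hn]
      push_cast
      rfl
    rw [this]
    exact (summable_nat_add_iff (f := fun n : ℕ => f (n : ℤ)) 1).2 s0
  have e3 := tsum_of_nat_of_neg_add_one s0 s1
  have e4 : ∑' n : ℕ, f (-((n : ℤ) + 1)) = ∑' n : ℕ, f ((n + 1 : ℕ) : ℤ) := by
    refine tsum_congr (fun n => ?_)
    rw [hn]
    push_cast
    rfl
  refine ⟨Summable.of_nat_of_neg_add_one s0 s1, ?_⟩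
  simp only [Finset.sum_range_succ, Finset.sum_range_zero, Nat.cast_zero, Nat.cast_one,
    Nat.cast_ofNat, zero_add] at e1 e2
  rw [e3, e4]
  constructor <;> linarith

/-! ### three-dimensional sums -/

lemma tri {f g h : ℤ → ℝ} (hf : ∀ m, 0 ≤ f m) (hg : ∀ m, 0 ≤ g m) (hh' : ∀ m, 0 ≤ h m)
    (sf : Summable f) (sg : Summable g) (sh : Summable h) :
    Summable (fun m : ℤ × ℤ × ℤ => f m.1 * g m.2.1 * h m.2.2) ∧
      ∑' m : ℤ × ℤ × ℤ, f m.1 * g m.2.1 * h m.2.2 = (∑' m, f m) * (∑' m, g m) * ∑' m, h m := by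
  have s2 : Summable (fun p : ℤ × ℤ => g p.1 * h p.2) := sg.mul_of_nonneg sh hg hh'
  have n2 : ∀ p : ℤ × ℤ, 0 ≤ g p.1 * h p.2 := fun p => mul_nonneg (hg _) (hh' _)
  have s3 : Summable (fun p : ℤ × (ℤ × ℤ) => f p.1 * (g p.2.1 * h p.2.2)) :=
    sf.mul_of_nonneg s2 hf n2
  have e : (fun m : ℤ × ℤ × ℤ => f m.1 * g m.2.1 * h m.2.2) =
      fun p : ℤ × (ℤ × ℤ) => f p.1 * (g p.2.1 * h p.2.2) := by
    funext m
    ring
  rw [e]
  refine ⟨s3, ?_⟩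
  have t1 := tsum_mul_tsum_of_summable_norm sf.norm s2.norm
  have t2 := tsum_mul_tsum_of_summable_norm sg.norm sh.norm
  rw [← t1, ← t2]
  ring

lemma inj_bv : Function.Injective fun x : Fin 3 → ℤ => (bv x 0, bv x 1, bv x 2) := by
  intro x y h
  simp only [Prod.mk.injEq, bv, Matrix.cons_val_zero, Matrix.cons_val_one, Matrix.cons_val] at h
  obtain ⟨h1, h2, h3⟩ := h
  ext i
  fin_cases i <;> simp <;> omega

lemma dom {F : (Fin 3 → ℤ) → ℝ} {G : ℤ × ℤ × ℤ → ℝ} (hG : ∀ m, 0 ≤ G m) (sG : Summable G)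
    (h : ∀ x, F x = G (bv x 0, bv x 1, bv x 2)) : Summable F ∧ ∑' x, F x ≤ ∑' m, G m := by
  have e : F = G ∘ fun x : Fin 3 → ℤ => (bv x 0, bv x 1, bv x 2) := funext h
  rw [e]
  exact ⟨sG.comp_injective inj_bv, tsum_comp_le_tsum_of_inj sG hG inj_bv⟩

lemma par (x : Fin 3 → ℤ) : (bv x 0 % 2 = 0 ∧ bv x 1 % 2 = 0 ∧ bv x 2 % 2 = 0) ∨
    (bv x 0 % 2 = 1 ∧ bv x 1 % 2 = 1 ∧ bv x 2 % 2 = 1) := by
  simp only [bv, Matrix.cons_val_zero, Matrix.cons_val_one, Matrix.cons_val]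
  omega

/-! ### values -/

lemma vA0 : Summable (hE 0) ∧ 112503 / 100000 ≤ ∑' m, hE 0 m ∧ ∑' m, hE 0 m ≤ 112504 / 100000 := by
  obtain ⟨h1, h2, h3⟩ := int_sum (hE_nonneg Even.zero) (hE_neg Even.zero)
    (fun n hn => hE_le (by norm_num) hn)
  refine ⟨h1, ?_, ?_⟩ <;> norm_num [hE, hh] at h2 h3 ⊢ <;> linarith

lemma vA2 : Summable (hE 2) ∧ 50048 / 100000 ≤ ∑' m, hE 2 m ∧ ∑' m, hE 2 m ≤ 50049 / 100000 := by
  obtain ⟨h1, h2, h3⟩ := int_sum (hE_nonneg even_two) (hE_neg even_two)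
    (fun n hn => hE_le (by norm_num) hn)
  refine ⟨h1, ?_, ?_⟩ <;> norm_num [hE, hh] at h2 h3 ⊢ <;> linarith

lemma vA4 : Summable (hE 4) ∧ ∑' m, hE 4 m ≤ 200782 / 100000 := by
  have h4 : Even 4 := by decide
  obtain ⟨h1, h2, h3⟩ := int_sum (hE_nonneg h4) (hE_neg h4)
    (fun n hn => hE_le (by norm_num) hn)
  refine ⟨h1, ?_⟩
  norm_num [hE, hh] at h3 ⊢
  linarith

lemma vB0 : Summable (hO 0) ∧ 100390 / 100000 ≤ ∑' m, hO 0 m ∧ ∑' m, hO 0 m ≤ 100391 / 100000 := by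
  obtain ⟨h1, h2, h3⟩ := int_sum (hO_nonneg Even.zero) (hO_neg Even.zero)
    (fun n hn => hO_le (by norm_num) hn)
  refine ⟨h1, ?_, ?_⟩ <;> norm_num [hO, hh] at h2 h3 ⊢ <;> linarith

lemma vB2 : Summable (hO 2) ∧ 103515 / 100000 ≤ ∑' m, hO 2 m ∧ ∑' m, hO 2 m ≤ 103516 / 100000 := by
  obtain ⟨h1, h2, h3⟩ := int_sum (hO_nonneg even_two) (hO_neg even_two)
    (fun n hn => hO_le (by norm_num) hn)
  refine ⟨h1, ?_, ?_⟩ <;> norm_num [hO, hh] at h2 h3 ⊢ <;> linarith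

lemma vB4 : Summable (hO 4) ∧ ∑' m, hO 4 m ≤ 131645 / 100000 := by
  have h4 : Even 4 := by decide
  obtain ⟨h1, h2, h3⟩ := int_sum (hO_nonneg h4) (hO_neg h4)
    (fun n hn => hO_le (by norm_num) hn)
  refine ⟨h1, ?_⟩
  norm_num [hO, hh] at h3 ⊢
  linarith

lemma triE (a b c : ℕ) (ha : Even a) (hb : Even b) (hc : Even c) (ha4 : a ≤ 4) (hb4 : b ≤ 4)
    (hc4 : c ≤ 4) : HasSum (fun m : ℤ × ℤ × ℤ => hE a m.1 * hE b m.2.1 * hE c m.2.2)
      ((∑' m, hE a m) * (∑' m, hE b m) * ∑' m, hE c m) := by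
  have h := tri (hE_nonneg ha) (hE_nonneg hb) (hE_nonneg hc)
    (int_sum (hE_nonneg ha) (hE_neg ha) (fun n hn => hE_le ha4 hn)).1
    (int_sum (hE_nonneg hb) (hE_neg hb) (fun n hn => hE_le hb4 hn)).1
    (int_sum (hE_nonneg hc) (hE_neg hc) (fun n hn => hE_le hc4 hn)).1
  rw [← h.2]
  exact h.1.hasSum

lemma triO (a b c : ℕ) (ha : Even a) (hb : Even b) (hc : Even c) (ha4 : a ≤ 4) (hb4 : b ≤ 4)
    (hc4 : c ≤ 4) : HasSum (fun m : ℤ × ℤ × ℤ => hO a m.1 * hO b m.2.1 * hO c m.2.2)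
      ((∑' m, hO a m) * (∑' m, hO b m) * ∑' m, hO c m) := by
  have h := tri (hO_nonneg ha) (hO_nonneg hb) (hO_nonneg hc)
    (int_sum (hO_nonneg ha) (hO_neg ha) (fun n hn => hO_le ha4 hn)).1
    (int_sum (hO_nonneg hb) (hO_neg hb) (fun n hn => hO_le hb4 hn)).1
    (int_sum (hO_nonneg hc) (hO_neg hc) (fun n hn => hO_le hc4 hn)).1
  rw [← h.2]
  exact h.1.hasSum

end BHalfAux

open BHalfAux in
theorem K_half : Summable (fun x : Fin 3 → ℤ => wK (bv x) * (1 / 2 : ℝ) ^ nb x) ∧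
    ∑' x : Fin 3 → ℤ, wK (bv x) * (1 / 2 : ℝ) ^ nb x ≤ 1677 / 1000 := by
  have e2 : Even 2 := even_two
  have e0 : Even 0 := Even.zero
  have hs := (triE 2 0 0 e2 e0 e0 (by norm_num) (by norm_num) (by norm_num)).add
    (triO 2 0 0 e2 e0 e0 (by norm_num) (by norm_num) (by norm_num))
  have hd := dom (F := fun x => wK (bv x) * (1 / 2 : ℝ) ^ nb x)
    (G := fun m : ℤ × ℤ × ℤ => hE 2 m.1 * hE 0 m.2.1 * hE 0 m.2.2
      + hO 2 m.1 * hO 0 m.2.1 * hO 0 m.2.2) (fun m => add_nonneg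
      (mul_nonneg (mul_nonneg (hE_nonneg e2 _) (hE_nonneg e0 _)) (hE_nonneg e0 _))
      (mul_nonneg (mul_nonneg (hO_nonneg e2 _) (hO_nonneg e0 _)) (hO_nonneg e0 _)))
      hs.summable (by
        intro x
        rcases par x with ⟨h1, h2, h3⟩ | ⟨h1, h2, h3⟩
        · simp only [hE, hO, h1, h2, h3, hh, wK, nb, pow_add]
          norm_num
          ring
        · simp only [hE, hO, h1, h2, h3, hh, wK, nb, pow_add]
          norm_num
          ring)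
  refine ⟨hd.1, hd.2.trans ?_⟩
  rw [hs.tsum_eq]
  obtain ⟨_, a1, a2⟩ := vA0
  obtain ⟨_, b1, b2⟩ := vA2
  obtain ⟨_, c1, c2⟩ := vB0
  obtain ⟨_, d1, d2⟩ := vB2
  have p1 : (∑' m, hE 2 m) * (∑' m, hE 0 m) * (∑' m, hE 0 m) ≤
      50049 / 100000 * (112504 / 100000) * (112504 / 100000) :=
    mul_le_mul (mul_le_mul b2 a2 (by linarith) (by norm_num)) a2 (by linarith) (by norm_num)
  have p2 : (∑' m, hO 2 m) * (∑' m, hO 0 m) * (∑' m, hO 0 m) ≤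
      103516 / 100000 * (100391 / 100000) * (100391 / 100000) :=
    mul_le_mul (mul_le_mul d2 c2 (by linarith) (by norm_num)) c2 (by linarith) (by norm_num)
  refine (add_le_add p1 p2).trans (by norm_num)

open BHalfAux in
theorem S_half : Summable (fun x : Fin 3 → ℤ => wS (bv x) * (1 / 2 : ℝ) ^ nb x) ∧
    ∑' x : Fin 3 → ℤ, wS (bv x) * (1 / 2 : ℝ) ^ nb x ≤ 2511 / 1000 := by
  have e4 : Even 4 := by decide
  have e2 : Even 2 := even_two
  have e0 : Even 0 := Even.zero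
  have hsE := (((triE 4 0 0 e4 e0 e0 (by norm_num) (by norm_num) (by norm_num)).add
    (triE 0 4 0 e0 e4 e0 (by norm_num) (by norm_num) (by norm_num))).sub
    ((triE 2 2 0 e2 e2 e0 (by norm_num) (by norm_num) (by norm_num)).mul_left 2)).div_const 2
  have hsO := (((triO 4 0 0 e4 e0 e0 (by norm_num) (by norm_num) (by norm_num)).add
    (triO 0 4 0 e0 e4 e0 (by norm_num) (by norm_num) (by norm_num))).sub
    ((triO 2 2 0 e2 e2 e0 (by norm_num) (by norm_num) (by norm_num)).mul_left 2)).div_const 2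
  have hs := hsE.add hsO
  have nE : ∀ m : ℤ × ℤ × ℤ, 0 ≤ (hE 4 m.1 * hE 0 m.2.1 * hE 0 m.2.2
      + hE 0 m.1 * hE 4 m.2.1 * hE 0 m.2.2 - 2 * (hE 2 m.1 * hE 2 m.2.1 * hE 0 m.2.2)) / 2 := by
    intro m
    by_cases h1 : m.1 % 2 = 0
    · by_cases h2 : m.2.1 % 2 = 0
      · by_cases h3 : m.2.2 % 2 = 0
        · simp only [hE, h1, h2, h3, hh, if_true]
          have : 0 ≤ ((m.1 : ℝ) ^ 2 - (m.2.1 : ℝ) ^ 2) ^ 2 / 2 * ((1 / 2 : ℝ) ^ m.1.natAbs ^ 2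
            * (1 / 2 : ℝ) ^ m.2.1.natAbs ^ 2 * (1 / 2 : ℝ) ^ m.2.2.natAbs ^ 2) := by positivity
          refine this.trans (le_of_eq ?_)
          ring
        · simp [hE, h3]
      · simp [hE, h2]
    · simp [hE, h1]
  have nO : ∀ m : ℤ × ℤ × ℤ, 0 ≤ (hO 4 m.1 * hO 0 m.2.1 * hO 0 m.2.2
      + hO 0 m.1 * hO 4 m.2.1 * hO 0 m.2.2 - 2 * (hO 2 m.1 * hO 2 m.2.1 * hO 0 m.2.2)) / 2 := by
    intro m
    by_cases h1 : m.1 % 2 = 1
    · by_cases h2 : m.2.1 % 2 = 1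
      · by_cases h3 : m.2.2 % 2 = 1
        · simp only [hO, h1, h2, h3, hh, if_true]
          have : 0 ≤ ((m.1 : ℝ) ^ 2 - (m.2.1 : ℝ) ^ 2) ^ 2 / 2 * ((1 / 2 : ℝ) ^ m.1.natAbs ^ 2
            * (1 / 2 : ℝ) ^ m.2.1.natAbs ^ 2 * (1 / 2 : ℝ) ^ m.2.2.natAbs ^ 2) := by positivity
          refine this.trans (le_of_eq ?_)
          ring
        · simp [hO, h3]
      · simp [hO, h2]
    · simp [hO, h1]
  have hd := dom (F := fun x => wS (bv x) * (1 / 2 : ℝ) ^ nb x)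
    (G := fun m : ℤ × ℤ × ℤ => (hE 4 m.1 * hE 0 m.2.1 * hE 0 m.2.2
      + hE 0 m.1 * hE 4 m.2.1 * hE 0 m.2.2 - 2 * (hE 2 m.1 * hE 2 m.2.1 * hE 0 m.2.2)) / 2
      + (hO 4 m.1 * hO 0 m.2.1 * hO 0 m.2.2
      + hO 0 m.1 * hO 4 m.2.1 * hO 0 m.2.2 - 2 * (hO 2 m.1 * hO 2 m.2.1 * hO 0 m.2.2)) / 2)
      (fun m => add_nonneg (nE m) (nO m)) hs.summable (by
        intro x
        rcases par x with ⟨h1, h2, h3⟩ | ⟨h1, h2, h3⟩
        · simp only [hE, hO, h1, h2, h3, hh, wS, nb, pow_add]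
          norm_num
          ring
        · simp only [hE, hO, h1, h2, h3, hh, wS, nb, pow_add]
          norm_num
          ring)
  refine ⟨hd.1, hd.2.trans ?_⟩
  rw [hs.tsum_eq]
  obtain ⟨_, a1, a2⟩ := vA0
  obtain ⟨_, b1, b2⟩ := vA2
  obtain ⟨_, c1, c2⟩ := vB0
  obtain ⟨_, d1, d2⟩ := vB2
  obtain ⟨_, f2⟩ := vA4
  obtain ⟨_, g2⟩ := vB4
  generalize (∑' m, hE 0 m) = A0 at *
  generalize (∑' m, hE 2 m) = A2 at *
  generalize (∑' m, hE 4 m) = A4 at *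
  generalize (∑' m, hO 0 m) = B0 at *
  generalize (∑' m, hO 2 m) = B2 at *
  generalize (∑' m, hO 4 m) = B4 at *
  have p0 : A0 * A0 ≤ 112504 / 100000 * (112504 / 100000) :=
    mul_le_mul a2 a2 (by linarith) (by norm_num)
  have p00 : 0 ≤ A0 * A0 := by nlinarith
  have p1 : A4 * (A0 * A0) ≤ 200782 / 100000 * (112504 / 100000 * (112504 / 100000)) :=
    mul_le_mul f2 p0 p00 (by norm_num)
  have q0 : B0 * B0 ≤ 100391 / 100000 * (100391 / 100000) :=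
    mul_le_mul c2 c2 (by linarith) (by norm_num)
  have q00 : 0 ≤ B0 * B0 := by nlinarith
  have q1 : B4 * (B0 * B0) ≤ 131645 / 100000 * (100391 / 100000 * (100391 / 100000)) :=
    mul_le_mul g2 q0 q00 (by norm_num)
  have r1 : 50048 / 100000 * (50048 / 100000) * (112503 / 100000) ≤ A2 * A2 * A0 :=
    mul_le_mul (mul_le_mul b1 b1 (by norm_num) (by linarith)) a1 (by norm_num) (by nlinarith)
  have r2 : 103515 / 100000 * (103515 / 100000) * (100390 / 100000) ≤ B2 * B2 * B0 :=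
    mul_le_mul (mul_le_mul d1 d1 (by norm_num) (by linarith)) c1 (by norm_num) (by nlinarith)
  norm_num at p1 q1 r1 r2
  nlinarith

end Pool.Agent.Lib.EPL
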