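import Pool.Agent.Lib.EPL.BSym

/-!
# EPL.BMel: Mellin transforms of the second derivatives

`Pg.mel` (Sec.lean) with the weights `wE (bv x)`, `wT (bv x)` (`Pg _ 2`, `p = s + 2`) and `wK (bv x)` (`Pg _ 1`, `p = s + 1`); the
weights are products of linear forms in `x`, so `|w (bv x)| ≤ C nn x ^ m` (`|v_i|² ≤ 3 nn x`; or write `v₁²`, `v₂²` as `qf` of a matrix
and use `Pg.qf`, `Pg.mul`). As in the proof of `notMin_second`: `t^(s-1) t² = t^(s+2-1)`, `t^(s-1) t = t^(s+1-1)`,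
`Γ(s+2) = (s+1) Γ(s+1)`. And `∑ v₁² / Q^(s+1) = ∑ v₁² (v₁²+v₂²+v₃²) / Q^(s+2) = X4 + 2 X22` (`nz_s12`), `∑ wE / Q^(s+2) = X4 - X22`
(all sums converge absolutely: `Pg.summable_rpow`).
`F_eq`: `∑ Q^(-s) = ∑ (v₁²+v₂²+v₃²)² / Q^(s+2) = 3 X4 + 6 X22`.
-/

open MeasureTheory Set Filter Topology Matrix
open scoped Matrix.Norms.Elementwise

namespace Pool.Agent.Lib.EPL

open Pool.Agent.Lib.EpZ Pool.Agent.Lib.EPS

namespace BMelAux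

theorem Pg_sq (i : Fin 3) : Pg (fun x => (bv x i : ℝ) ^ 2) 1 := by
  have h := Pg.qf (vecMulVec (Pb i) (Pb i))
  have e : (fun x : Fin 3 → ℤ => (bv x i : ℝ) ^ 2) =
      fun x => EpZ.qf (vecMulVec (Pb i) (Pb i)) x := by
    funext x
    unfold EpZ.qf
    rw [qr_vecMulVec]
    fin_cases i <;>
      simp [Pb, bv, rv, dotProduct, Fin.sum_univ_three] <;> ring
  rw [e]
  exact h

theorem Pg_sub {a b : (Fin 3 → ℤ) → ℝ} {m : ℕ} (ha : Pg a m) (hb : Pg b m) :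
    Pg (fun x => a x - b x) m := by
  obtain ⟨h1, M, hM⟩ := ha
  obtain ⟨h2, N, hN⟩ := hb
  refine ⟨by simp [h1, h2], M + N, fun x => ?_⟩
  have e1 := hM x
  have e2 := hN x
  have := abs_sub (a x) (b x)
  linarith

theorem Pg_wK : Pg (fun x => wK (bv x)) 1 := Pg_sq 0

theorem Pg_44 (i j : Fin 3) : Pg (fun x => (bv x i : ℝ) ^ 2 * (bv x j : ℝ) ^ 2) 2 :=
  (Pg_sq i).mul (Pg_sq j)

theorem Pg_wT : Pg (fun x => wT (bv x)) 2 := Pg_44 0 1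

theorem Pg_wE : Pg (fun x => wE (bv x)) 2 := by
  have h := Pg_sub (Pg_44 0 0) (Pg_44 0 1)
  refine (congrArg (fun a => Pg a 2) ?_).mp h
  funext x
  unfold wE
  ring

theorem summ {a : (Fin 3 → ℤ) → ℝ} {m : ℕ} (ha : Pg a m) {p : ℝ} (hp : m + 3 / 2 < p) :
    Summable fun x : NZ 3 => a x.1 / qf Qb x.1 ^ p := by
  refine Summable.of_norm ?_
  refine (ha.summable_rpow Qb_pd hp).congr fun x => ?_
  have := Real.rpow_pos_of_pos (Qb_pd.pos x) p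
  rw [norm_div, Real.norm_eq_abs, Real.norm_eq_abs, abs_of_pos this]

theorem summ44 (i j : Fin 3) {s : ℝ} (hs : 3 / 2 < s) :
    Summable fun x : NZ 3 => (bv x.1 i : ℝ) ^ 2 * (bv x.1 j : ℝ) ^ 2 / qf Qb x.1 ^ (s + 2) :=
  summ (Pg_44 i j) (by norm_num; linarith)

theorem m02 (s : ℝ) : ∑' x : NZ 3, (bv x.1 0 : ℝ) ^ 2 * (bv x.1 2 : ℝ) ^ 2 / qf Qb x.1 ^ (s + 2) =
    X22 s :=
  nz_s12 (fun v => (v 0 : ℝ) ^ 2 * (v 1 : ℝ) ^ 2) (s + 2)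

theorem m12 (s : ℝ) : ∑' x : NZ 3, (bv x.1 1 : ℝ) ^ 2 * (bv x.1 2 : ℝ) ^ 2 / qf Qb x.1 ^ (s + 2) =
    X22 s :=
  (nz_s01 (fun v => (v 0 : ℝ) ^ 2 * (v 2 : ℝ) ^ 2) (s + 2)).trans (m02 s)

theorem m00 (s : ℝ) : ∑' x : NZ 3, (bv x.1 0 : ℝ) ^ 2 * (bv x.1 0 : ℝ) ^ 2 / qf Qb x.1 ^ (s + 2) =
    X4 s := by
  unfold X4
  exact tsum_congr fun x => by ring

theorem m11 (s : ℝ) : ∑' x : NZ 3, (bv x.1 1 : ℝ) ^ 2 * (bv x.1 1 : ℝ) ^ 2 / qf Qb x.1 ^ (s + 2) =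
    X4 s :=
  (nz_s01 (fun v => (v 0 : ℝ) ^ 2 * (v 0 : ℝ) ^ 2) (s + 2)).trans (m00 s)

theorem m22 (s : ℝ) : ∑' x : NZ 3, (bv x.1 2 : ℝ) ^ 2 * (bv x.1 2 : ℝ) ^ 2 / qf Qb x.1 ^ (s + 2) =
    X4 s :=
  (nz_s12 (fun v => (v 1 : ℝ) ^ 2 * (v 1 : ℝ) ^ 2) (s + 2)).trans (m11 s)

theorem sum_wE {s : ℝ} (hs : 3 / 2 < s) :
    ∑' x : NZ 3, wE (bv x.1) / qf Qb x.1 ^ (s + 2) = X4 s - X22 s := by
  have e : ∀ x : NZ 3, wE (bv x.1) / qf Qb x.1 ^ (s + 2) =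
      (bv x.1 0 : ℝ) ^ 2 * (bv x.1 0 : ℝ) ^ 2 / qf Qb x.1 ^ (s + 2) -
        (bv x.1 0 : ℝ) ^ 2 * (bv x.1 1 : ℝ) ^ 2 / qf Qb x.1 ^ (s + 2) := by
    intro x
    unfold wE
    ring
  rw [tsum_congr e, (summ44 0 0 hs).tsum_sub (summ44 0 1 hs), m00]
  rfl

theorem rp1 {t s : ℝ} (ht : 0 < t) : t ^ (s + 2 - 1) = t ^ (s - 1) * t ^ 2 := by
  rw [← Real.rpow_natCast t 2, ← Real.rpow_add ht]; congr 1; norm_num; ring

theorem rp2 {t s : ℝ} (ht : 0 < t) : t ^ (s + 1 - 1) = t ^ (s - 1) * t := by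
  nth_rewrite 3 [← Real.rpow_one t]
  rw [← Real.rpow_add ht]; congr 1; ring

end BMelAux

open BMelAux

theorem sum_wK {s : ℝ} (hs : 3 / 2 < s) :
    ∑' x : NZ 3, wK (bv x.1) / qf Qb x.1 ^ (s + 1) = X4 s + 2 * X22 s := by
  have e : ∀ x : NZ 3, wK (bv x.1) / qf Qb x.1 ^ (s + 1) =
      (bv x.1 0 : ℝ) ^ 2 * (bv x.1 0 : ℝ) ^ 2 / qf Qb x.1 ^ (s + 2) +
        (bv x.1 0 : ℝ) ^ 2 * (bv x.1 1 : ℝ) ^ 2 / qf Qb x.1 ^ (s + 2) +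
        (bv x.1 0 : ℝ) ^ 2 * (bv x.1 2 : ℝ) ^ 2 / qf Qb x.1 ^ (s + 2) := by
    intro x
    have hp := Qb_pd.pos x
    have h1 : qf Qb x.1 ^ (s + 2) = qf Qb x.1 ^ (s + 1) * qf Qb x.1 := by
      rw [show s + 2 = (s + 1) + 1 by ring, Real.rpow_add hp (s + 1), Real.rpow_one]
    have h2 := Real.rpow_pos_of_pos hp (s + 1)
    unfold wK
    rw [h1, ← add_div, ← add_div, div_eq_div_iff h2.ne' (mul_pos h2 hp).ne', qf_Qb x.1]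
    ring
  rw [tsum_congr e, ((summ44 0 0 hs).add (summ44 0 1 hs)).tsum_add (summ44 0 2 hs),
    (summ44 0 0 hs).tsum_add (summ44 0 1 hs), m00, m02]
  have : ∑' x : NZ 3, (bv x.1 0 : ℝ) ^ 2 * (bv x.1 1 : ℝ) ^ 2 / qf Qb x.1 ^ (s + 2) = X22 s := rfl
  rw [this]
  ring

theorem F_eq {s : ℝ} (hs : 3 / 2 < s) : F s Qb = 3 * X4 s + 6 * X22 s := by
  have e : ∀ x : NZ 3, qf Qb x.1 ^ (-s) =
      ((bv x.1 0 : ℝ) ^ 2 * (bv x.1 0 : ℝ) ^ 2 / qf Qb x.1 ^ (s + 2) +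
      (bv x.1 1 : ℝ) ^ 2 * (bv x.1 1 : ℝ) ^ 2 / qf Qb x.1 ^ (s + 2)) +
      ((bv x.1 2 : ℝ) ^ 2 * (bv x.1 2 : ℝ) ^ 2 / qf Qb x.1 ^ (s + 2) +
      2 * ((bv x.1 0 : ℝ) ^ 2 * (bv x.1 1 : ℝ) ^ 2 / qf Qb x.1 ^ (s + 2))) +
      (2 * ((bv x.1 0 : ℝ) ^ 2 * (bv x.1 2 : ℝ) ^ 2 / qf Qb x.1 ^ (s + 2)) +
      2 * ((bv x.1 1 : ℝ) ^ 2 * (bv x.1 2 : ℝ) ^ 2 / qf Qb x.1 ^ (s + 2))) := by
    intro x
    have hp := Qb_pd.pos x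
    have h1 : qf Qb x.1 ^ (s + 2) = qf Qb x.1 ^ s * qf Qb x.1 ^ 2 := by
      rw [Real.rpow_add hp s]
      norm_num
    have h2 := Real.rpow_pos_of_pos hp s
    have h3 : qf Qb x.1 ^ (-s) = qf Qb x.1 ^ 2 / (qf Qb x.1 ^ s * qf Qb x.1 ^ 2) := by
      rw [Real.rpow_neg hp.le]
      field_simp
    rw [h3, h1]
    have h4 : qf Qb x.1 ^ 2 = ((bv x.1 0 : ℝ) ^ 2 + (bv x.1 1 : ℝ) ^ 2 + (bv x.1 2 : ℝ) ^ 2) ^ 2 := by
      rw [qf_Qb x.1]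
    have h5 : ∀ D : ℝ, qf Qb x.1 ^ 2 / D = ((bv x.1 0 : ℝ) ^ 2 + (bv x.1 1 : ℝ) ^ 2 +
        (bv x.1 2 : ℝ) ^ 2) ^ 2 / D := fun D => by rw [h4]
    rw [h5]
    ring
  unfold F
  have a01 := summ44 0 1 hs
  have a02 := summ44 0 2 hs
  have a12 := summ44 1 2 hs
  have a00 := summ44 0 0 hs
  have a11 := summ44 1 1 hs
  have a22 := summ44 2 2 hs
  rw [tsum_congr e, ((a00.add a11).add (a22.add (a01.mul_left 2))).tsum_add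
    ((a02.mul_left 2).add (a12.mul_left 2)), (a00.add a11).tsum_add (a22.add (a01.mul_left 2)),
    a00.tsum_add a11, a22.tsum_add (a01.mul_left 2), (a02.mul_left 2).tsum_add (a12.mul_left 2),
    tsum_mul_left, tsum_mul_left, tsum_mul_left, m00, m11, m22, m02, m12]
  have : ∑' x : NZ 3, (bv x.1 0 : ℝ) ^ 2 * (bv x.1 1 : ℝ) ^ 2 / qf Qb x.1 ^ (s + 2) = X22 s := rfl
  rw [this]
  ring

theorem mel_gE {s : ℝ} (hs : 3 / 2 < s) :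
    IntegrableOn (fun t : ℝ => t ^ (s - 1) * gE t) (Ioi 0) ∧
      ∫ t in Ioi (0 : ℝ), t ^ (s - 1) * gE t = Real.Gamma (s + 1) * ME s := by
  obtain ⟨i1, v1⟩ := Pg_wE.mel Qb_pd (p := s + 2) (by norm_num; linarith)
  obtain ⟨i2, v2⟩ := Pg_wK.mel Qb_pd (p := s + 1) (by norm_num; linarith)
  have e : ∀ t ∈ Ioi (0 : ℝ), t ^ (s + 2 - 1) * ∑' x : Fin 3 → ℤ, wE (bv x) *
      Real.exp (-(t * EpZ.qf Qb x)) - t ^ (s + 1 - 1) * ∑' x : Fin 3 → ℤ, wK (bv x) *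
      Real.exp (-(t * EpZ.qf Qb x)) = t ^ (s - 1) * gE t := by
    intro t ht
    rw [rp1 ht, rp2 ht]
    unfold gE Tw
    ring
  have hI := i1.sub i2
  refine ⟨IntegrableOn.congr_fun hI e measurableSet_Ioi, ?_⟩
  rw [← setIntegral_congr_fun measurableSet_Ioi e, integral_sub i1 i2, v1, v2, sum_wE hs,
    sum_wK hs]
  have g2 : Real.Gamma (s + 2) = (s + 1) * Real.Gamma (s + 1) := by
    rw [show s + 2 = (s + 1) + 1 by ring, Real.Gamma_add_one (by linarith)]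
  rw [g2]
  unfold ME
  ring

theorem mel_gT {s : ℝ} (hs : 3 / 2 < s) :
    IntegrableOn (fun t : ℝ => t ^ (s - 1) * gT t) (Ioi 0) ∧
      ∫ t in Ioi (0 : ℝ), t ^ (s - 1) * gT t = Real.Gamma (s + 1) * MT s := by
  obtain ⟨i1, v1⟩ := Pg_wT.mel Qb_pd (p := s + 2) (by norm_num; linarith)
  obtain ⟨i2, v2⟩ := Pg_wK.mel Qb_pd (p := s + 1) (by norm_num; linarith)
  have e : ∀ t ∈ Ioi (0 : ℝ), 2 * (t ^ (s + 2 - 1) * ∑' x : Fin 3 → ℤ, wT (bv x) *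
      Real.exp (-(t * EpZ.qf Qb x))) - t ^ (s + 1 - 1) * ∑' x : Fin 3 → ℤ, wK (bv x) *
      Real.exp (-(t * EpZ.qf Qb x)) = t ^ (s - 1) * gT t := by
    intro t ht
    rw [rp1 ht, rp2 ht]
    unfold gT Tw
    ring
  have hI := (Integrable.const_mul i1 2).sub i2
  refine ⟨IntegrableOn.congr_fun hI e measurableSet_Ioi, ?_⟩
  rw [← setIntegral_congr_fun measurableSet_Ioi e, integral_sub (Integrable.const_mul i1 2) i2,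
    integral_const_mul, v1, v2, sum_wK hs]
  have g2 : Real.Gamma (s + 2) = (s + 1) * Real.Gamma (s + 1) := by
    rw [show s + 2 = (s + 1) + 1 by ring, Real.Gamma_add_one (by linarith)]
  have g3 : ∑' x : NZ 3, wT (bv x.1) / EpZ.qf Qb x.1 ^ (s + 2) = X22 s := rfl
  rw [g2, g3]
  unfold MT
  ring

end Pool.Agent.Lib.EPL
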