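import Pool.Agent.Lib.EPL.BDir

/-!
# EPL.BMono: `exp(3t) gE(t)/t` is strictly decreasing on `[3/2, ∞)`

`exp(3t) gE(t)/t = ∑_x (t wS(bv x) - wK(bv x)) X^(nb x - 3)`, `X = exp(-t)` (the terms with `nb x = 0` vanish; `nb x ≥ 3` otherwise).
Let `3/2 ≤ a < b`, `X = exp(-a) > Y = exp(-b)`, `X ≤ exp(-3/2) ≤ 1/4`. Termwise difference `D(x)` (value at `a` minus value at `b`):
* `nb x = 3`: `wS = 0`, `D = 0`.
* `nb x = 4`: 6 vectors; total `D = (32 a - 8) X - (32 b - 8) Y ≥ 8 (X - Y)`: because `φ(t) = (32 t - 16) exp(-t)` is decreasing for `t ≥ 3/2`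
  (`φ' = (48 - 32 t) exp(-t) ≤ 0`), and `(32 a - 8) X - (32 b - 8) Y - 8 (X - Y) = φ(a) - φ(b) ≥ 0`.
* `nb x = n ≥ 8`: `t exp(-t (n-3))` is decreasing for `t ≥ 1` so `D ≥ -wK (X^(n-3) - Y^(n-3)) ≥ -wK (n-3) X^(n-4) (X - Y)` and
  `(n-3) X^(n-4) ≤ (n-3) (1/4)^(n-4) ≤ 5 (1/2)^n` (induction on `n ≥ 8`).
Sum: with `S` = the 14 vectors of norm 3, 4: `∑ D ≥ 8 (X-Y) - 5 (X-Y) (∑_x wK (1/2)^(nb x) - 8/8 - 8/16) ≥ (X - Y)(8 - 5 * 0.177) > 0` by `K_half`.
In order to work with one summable family use the minorant `D(x) ≥ -5 (X-Y) wK(bv x) (1/2)^(nb x) + (if x ∈ S then ... else 0)`.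
-/

open MeasureTheory Set Filter Topology Matrix
open scoped Matrix.Norms.Elementwise

namespace Pool.Agent.Lib.EPL

open Pool.Agent.Lib.EpZ Pool.Agent.Lib.EPS

namespace BMonoAux

/-- the terms -/
noncomputable def FF (t : ℝ) (x : Fin 3 → ℤ) : ℝ :=
  (t * wS (bv x) - wK (bv x)) * (Real.exp (3 * t) * Real.exp (-t) ^ nb x)

theorem rep {t : ℝ} (ht : 0 < t) : HasSum (FF t) (Real.exp (3 * t) * gE t / t) := by
  have s1 := summable_b (Or.inr (Or.inr (Or.inr rfl)) : wS = wE ∨ wS = wK ∨ wS = wT ∨ wS = wS) ht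
  have s2 := summable_b (Or.inr (Or.inl rfl) : wK = wE ∨ wK = wK ∨ wK = wT ∨ wK = wS) ht
  have h := (s1.hasSum.mul_left (t * Real.exp (3 * t))).sub (s2.hasSum.mul_left (Real.exp (3 * t)))
  have e1 : Real.exp (3 * t) * gE t / t =
      t * Real.exp (3 * t) * (∑' x : Fin 3 → ℤ, wS (bv x) * Real.exp (-(t * qf Qb x))) -
        Real.exp (3 * t) * ∑' x : Fin 3 → ℤ, wK (bv x) * Real.exp (-(t * qf Qb x)) := by
    unfold gE
    rw [Tw_wE_symm ht]
    unfold Tw
    field_simp
  rw [e1]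
  have e2 : FF t = fun x => t * Real.exp (3 * t) * (wS (bv x) * Real.exp (-(t * qf Qb x))) -
      Real.exp (3 * t) * (wK (bv x) * Real.exp (-(t * qf Qb x))) := by
    funext x
    unfold FF
    rw [exp_nb]
    ring
  rw [e2]
  exact h

/-- the vectors of norm 3 and 4 -/
def SS : Finset (Fin 3 → ℤ) :=
  {![1, 1, 1], ![-1, -1, -1], ![1, 0, 0], ![-1, 0, 0], ![0, 1, 0], ![0, -1, 0], ![0, 0, 1],
    ![0, 0, -1], ![1, 1, 0], ![-1, -1, 0], ![1, 0, 1], ![-1, 0, -1], ![0, 1, 1], ![0, -1, -1]}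

theorem small (x : Fin 3 → ℤ) (h : nb x ≤ 7) : x = 0 ∨ x ∈ SS := by
  have key : ∀ i ∈ Finset.Icc (-2 : ℤ) 2, ∀ j ∈ Finset.Icc (-2 : ℤ) 2, ∀ k ∈ Finset.Icc (-2 : ℤ) 2,
      (i + j - k).natAbs ^ 2 + (i - j + k).natAbs ^ 2 + (-i + j + k).natAbs ^ 2 ≤ 7 →
      (i = 0 ∧ j = 0 ∧ k = 0) ∨ ![i, j, k] ∈ SS := by
    decide
  have e : x = ![x 0, x 1, x 2] := by
    ext i; fin_cases i <;> rfl
  unfold nb bv at h
  simp only [Matrix.cons_val_zero, Matrix.cons_val_one, Matrix.cons_val] at h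
  have b : ∀ m : ℤ, m.natAbs ^ 2 ≤ 7 → -2 ≤ m ∧ m ≤ 2 := by
    intro m hm
    have : m.natAbs ≤ 2 := by
      by_contra hc
      push Not at hc
      have : 3 ^ 2 ≤ m.natAbs ^ 2 := Nat.pow_le_pow_left hc 2
      omega
    omega
  have b0 := b (x 0 + x 1 - x 2) (by omega)
  have b1 := b (x 0 - x 1 + x 2) (by omega)
  have b2 := b (-x 0 + x 1 + x 2) (by omega)
  rcases key (x 0) (by rw [Finset.mem_Icc]; omega) (x 1) (by rw [Finset.mem_Icc]; omega) (x 2)
    (by rw [Finset.mem_Icc]; omega) h with ⟨h0, h1, h2⟩ | h3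
  · left
    ext i; fin_cases i
    · exact h0
    · exact h1
    · exact h2
  · right
    rw [e]
    exact h3

theorem pow_diff {X Y : ℝ} (hY : 0 ≤ Y) (hXY : Y ≤ X) (k : ℕ) :
    X ^ (k + 1) - Y ^ (k + 1) ≤ (k + 1) * X ^ k * (X - Y) := by
  induction k with
  | zero => simp
  | succ k ih =>
    have hX : 0 ≤ X := hY.trans hXY
    have h1 : X ^ (k + 2) - Y ^ (k + 2) = X ^ (k + 1) * (X - Y) + (X ^ (k + 1) - Y ^ (k + 1)) * Y := by
      ring
    have h2 : (X ^ (k + 1) - Y ^ (k + 1)) * Y ≤ ((k + 1) * X ^ k * (X - Y)) * X := by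
      refine mul_le_mul ih hXY hY ?_
      have : 0 ≤ X - Y := sub_nonneg.2 hXY
      positivity
    rw [show k + 1 + 1 = k + 2 from rfl, h1]
    calc X ^ (k + 1) * (X - Y) + (X ^ (k + 1) - Y ^ (k + 1)) * Y ≤
          X ^ (k + 1) * (X - Y) + ((k + 1) * X ^ k * (X - Y)) * X := by linarith
      _ = _ := by
        push_cast
        ring

theorem num (k : ℕ) (hk : 4 ≤ k) : ((k : ℝ) + 1) * (1 / 4) ^ k ≤ 5 * (1 / 2) ^ (k + 4) := by
  induction k, hk using Nat.le_induction with
  | base => norm_num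
  | succ k hk ih =>
    have hk' : (4 : ℝ) ≤ k := by exact_mod_cast hk
    have e1 : (1 / 4 : ℝ) ^ (k + 1) = (1 / 4) ^ k * (1 / 4) := pow_succ _ _
    have e2 : (1 / 2 : ℝ) ^ (k + 1 + 4) = (1 / 2) ^ (k + 4) * (1 / 2) := by
      rw [show k + 1 + 4 = (k + 4) + 1 from rfl, pow_succ]
    push_cast
    rw [e1, e2]
    have p : (0 : ℝ) < (1 / 4) ^ k := by positivity
    nlinarith

end BMonoAux

open BMonoAux

theorem gE_mono {a b : ℝ} (ha : 3 / 2 ≤ a) (hab : a < b) :
    Real.exp (3 * b) * gE b / b < Real.exp (3 * a) * gE a / a := by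
  have ha0 : 0 < a := by linarith
  have hb0 : 0 < b := by linarith
  obtain ⟨X, hX⟩ : ∃ X, X = Real.exp (-a) := ⟨_, rfl⟩
  obtain ⟨Y, hY⟩ : ∃ Y, Y = Real.exp (-b) := ⟨_, rfl⟩
  have hYp : 0 < Y := by rw [hY]; exact Real.exp_pos _
  have hXp : 0 < X := by rw [hX]; exact Real.exp_pos _
  have hXY : Y < X := by
    rw [hX, hY]
    exact Real.exp_lt_exp.2 (by linarith)
  have hXe : X = Real.exp (b - a) * Y := by
    rw [hX, hY, ← Real.exp_add]
    congr 1
    ring
  have hE : 1 + (b - a) ≤ Real.exp (b - a) := by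
    have := Real.add_one_le_exp (b - a)
    linarith
  have hX4 : X ≤ 1 / 4 := by
    have h1 : Real.exp (-a) ≤ Real.exp (-(3 / 2)) := Real.exp_le_exp.2 (by linarith)
    have h2 : (4 : ℝ) ≤ Real.exp (3 / 2) := by
      have h3 : Real.exp (3 / 2) ^ 2 = Real.exp 1 ^ 3 := by
        rw [← Real.exp_nat_mul, ← Real.exp_nat_mul]
        congr 1
        norm_num
      have h4 : (2.7 : ℝ) ≤ Real.exp 1 := by
        have := Real.exp_one_gt_d9
        linarith
      have h5 : (2.7 : ℝ) ^ 3 ≤ Real.exp 1 ^ 3 := pow_le_pow_left₀ (by norm_num) h4 3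
      have h6 : 0 < Real.exp (3 / 2) := Real.exp_pos _
      nlinarith
    rw [hX]
    refine h1.trans ?_
    rw [Real.exp_neg]
    rw [inv_le_comm₀ (Real.exp_pos _) (by norm_num)]
    simpa using h2
  have haX : b * Y ≤ a * X := by
    rw [hXe]
    have : b ≤ a * Real.exp (b - a) := by
      have h1 : a * (1 + (b - a)) ≤ a * Real.exp (b - a) := mul_le_mul_of_nonneg_left hE ha0.le
      nlinarith
    calc b * Y ≤ (a * Real.exp (b - a)) * Y := mul_le_mul_of_nonneg_right this hYp.le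
      _ = _ := by ring
  have hphi : (32 * b - 16) * Y ≤ (32 * a - 16) * X := by
    rw [hXe]
    have : 32 * b - 16 ≤ (32 * a - 16) * Real.exp (b - a) := by
      have h1 : (32 * a - 16) * (1 + (b - a)) ≤ (32 * a - 16) * Real.exp (b - a) :=
        mul_le_mul_of_nonneg_left hE (by linarith)
      nlinarith
    calc (32 * b - 16) * Y ≤ ((32 * a - 16) * Real.exp (b - a)) * Y :=
          mul_le_mul_of_nonneg_right this hYp.le
      _ = _ := by ring
  -- powers
  have pa : ∀ n : ℕ, Real.exp (3 * a) * Real.exp (-a) ^ (n + 3) = X ^ n := by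
    intro n
    rw [hX, pow_add, mul_comm (Real.exp (-a) ^ n), ← mul_assoc]
    have : Real.exp (3 * a) * Real.exp (-a) ^ 3 = 1 := by
      rw [← Real.exp_nat_mul, ← Real.exp_add]
      simp
    rw [this, one_mul]
  have pb : ∀ n : ℕ, Real.exp (3 * b) * Real.exp (-b) ^ (n + 3) = Y ^ n := by
    intro n
    rw [hY, pow_add, mul_comm (Real.exp (-b) ^ n), ← mul_assoc]
    have : Real.exp (3 * b) * Real.exp (-b) ^ 3 = 1 := by
      rw [← Real.exp_nat_mul, ← Real.exp_add]
      simp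
    rw [this, one_mul]
  have hsD := (rep ha0).sub (rep hb0)
  obtain ⟨hK1, hK2⟩ := K_half
  -- the minorant
  have hm : HasSum (fun x => -(5 * (X - Y)) * (wK (bv x) * (1 / 2 : ℝ) ^ nb x) +
      (if x ∈ SS then FF a x - FF b x + 5 * (X - Y) * (wK (bv x) * (1 / 2 : ℝ) ^ nb x) else 0))
      (-(5 * (X - Y)) * (∑' x : Fin 3 → ℤ, wK (bv x) * (1 / 2 : ℝ) ^ nb x) +
        ∑ x ∈ SS, (FF a x - FF b x + 5 * (X - Y) * (wK (bv x) * (1 / 2 : ℝ) ^ nb x))) := by
    refine (hK1.hasSum.mul_left _).add ?_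
    rw [← Finset.sum_congr rfl (fun x hx => if_pos hx)]
    exact hasSum_sum_of_ne_finset_zero (fun x hx => if_neg hx)
  have hle := hasSum_le (f := fun x => -(5 * (X - Y)) * (wK (bv x) * (1 / 2 : ℝ) ^ nb x) +
      (if x ∈ SS then FF a x - FF b x + 5 * (X - Y) * (wK (bv x) * (1 / 2 : ℝ) ^ nb x) else 0))
      (g := fun x => FF a x - FF b x) ?_ hm hsD
  · have hfin : ∑ x ∈ SS, (FF a x - FF b x + 5 * (X - Y) * (wK (bv x) * (1 / 2 : ℝ) ^ nb x)) =
        (32 * a - 8) * X - (32 * b - 8) * Y + 5 * (X - Y) * (3 / 2) := by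
      have h3a : Real.exp (3 * a) * Real.exp (-a) ^ 3 = 1 := by simpa using pa 0
      have h3b : Real.exp (3 * b) * Real.exp (-b) ^ 3 = 1 := by simpa using pb 0
      have h4a : Real.exp (3 * a) * Real.exp (-a) ^ 4 = X := by simpa using pa 1
      have h4b : Real.exp (3 * b) * Real.exp (-b) ^ 4 = Y := by simpa using pb 1
      have n3 : ∀ (x : Fin 3 → ℤ) (p q : ℤ), nb x = 3 → bv x 0 = p → bv x 1 = q → p ^ 2 = 1 →
          q ^ 2 = 1 →
          FF a x - FF b x + 5 * (X - Y) * (wK (bv x) * (1 / 2 : ℝ) ^ nb x) = 5 * (X - Y) / 8 := by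
        intro x p q h1 h2 h3 h4 h5
        have h4' : (p : ℝ) ^ 2 = 1 := by exact_mod_cast h4
        have h5' : (q : ℝ) ^ 2 = 1 := by exact_mod_cast h5
        have e1 : wK (bv x) = 1 := by
          unfold wK
          rw [h2, h4']
        have e2 : wS (bv x) = 0 := by
          unfold wS
          rw [h2, h3, h4', h5']
          norm_num
        unfold FF
        rw [h1, e1, e2, h3a, h3b]
        ring
      have n4 : ∀ (x : Fin 3 → ℤ) (p q : ℤ), nb x = 4 → bv x 0 = p → bv x 1 = q →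
          FF a x - FF b x + 5 * (X - Y) * (wK (bv x) * (1 / 2 : ℝ) ^ nb x) =
            (a * (((p : ℝ) ^ 2 - (q : ℝ) ^ 2) ^ 2 / 2) - (p : ℝ) ^ 2) * X -
              (b * (((p : ℝ) ^ 2 - (q : ℝ) ^ 2) ^ 2 / 2) - (p : ℝ) ^ 2) * Y +
              5 * (X - Y) * ((p : ℝ) ^ 2 / 16) := by
        intro x p q h1 h2 h3
        unfold FF
        rw [h1, h4a, h4b]
        unfold wS wK
        rw [h2, h3]
        ring
      unfold SS
      rw [Finset.sum_insert (by decide), Finset.sum_insert (by decide),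
        Finset.sum_insert (by decide), Finset.sum_insert (by decide),
        Finset.sum_insert (by decide), Finset.sum_insert (by decide),
        Finset.sum_insert (by decide), Finset.sum_insert (by decide),
        Finset.sum_insert (by decide), Finset.sum_insert (by decide),
        Finset.sum_insert (by decide), Finset.sum_insert (by decide),
        Finset.sum_insert (by decide), Finset.sum_singleton]
      rw [n3 ![1, 1, 1] 1 1 (by decide) (by decide) (by decide) (by decide) (by decide),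
        n3 ![-1, -1, -1] (-1) (-1) (by decide) (by decide) (by decide) (by decide) (by decide),
        n3 ![1, 0, 0] 1 1 (by decide) (by decide) (by decide) (by decide) (by decide),
        n3 ![-1, 0, 0] (-1) (-1) (by decide) (by decide) (by decide) (by decide) (by decide),
        n3 ![0, 1, 0] 1 (-1) (by decide) (by decide) (by decide) (by decide) (by decide),
        n3 ![0, -1, 0] (-1) 1 (by decide) (by decide) (by decide) (by decide) (by decide),
        n3 ![0, 0, 1] (-1) 1 (by decide) (by decide) (by decide) (by decide) (by decide),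
        n3 ![0, 0, -1] 1 (-1) (by decide) (by decide) (by decide) (by decide) (by decide),
        n4 ![1, 1, 0] 2 0 (by decide) (by decide) (by decide),
        n4 ![-1, -1, 0] (-2) 0 (by decide) (by decide) (by decide),
        n4 ![1, 0, 1] 0 2 (by decide) (by decide) (by decide),
        n4 ![-1, 0, -1] 0 (-2) (by decide) (by decide) (by decide),
        n4 ![0, 1, 1] 0 0 (by decide) (by decide) (by decide),
        n4 ![0, -1, -1] 0 0 (by decide) (by decide) (by decide)]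
      push_cast
      ring
    rw [hfin] at hle
    have h1 : 5 * (X - Y) * (∑' x : Fin 3 → ℤ, wK (bv x) * (1 / 2 : ℝ) ^ nb x) ≤
        5 * (X - Y) * (1677 / 1000) :=
      mul_le_mul_of_nonneg_left hK2 (by nlinarith)
    nlinarith
  · intro x
    split_ifs with hxS
    · linarith
    · rw [add_zero]
      by_cases hx0 : x = 0
      · subst hx0
        have e1 : wK (bv 0) = 0 := by rw [bv_zero]; simp [wK]
        have e2 : wS (bv 0) = 0 := by rw [bv_zero]; simp [wS]
        unfold FF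
        rw [e1, e2]
        simp
      · have hn : 8 ≤ nb x := by
          by_contra hc
          rcases small x (by omega) with h | h
          · exact hx0 h
          · exact hxS h
        obtain ⟨k, hk⟩ : ∃ k, nb x = (k + 1) + 3 := ⟨nb x - 4, by omega⟩
        have hk4 : 4 ≤ k := by omega
        unfold FF
        rw [hk, pa (k + 1), pb (k + 1)]
        have wS0 : 0 ≤ wS (bv x) := by unfold wS; positivity
        have wK0 : 0 ≤ wK (bv x) := by unfold wK; positivity
        have q1 : b * Y ^ (k + 1) ≤ a * X ^ (k + 1) := by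
          have : Y ^ k ≤ X ^ k := pow_le_pow_left₀ hYp.le hXY.le k
          calc b * Y ^ (k + 1) = (b * Y) * Y ^ k := by ring
            _ ≤ (a * X) * X ^ k := mul_le_mul haX this (by positivity) (by positivity)
            _ = _ := by ring
        have q2 : X ^ (k + 1) - Y ^ (k + 1) ≤ 5 * (X - Y) * (1 / 2) ^ ((k + 1) + 3) := by
          have r1 := pow_diff hYp.le hXY.le k
          have r2 : X ^ k ≤ (1 / 4) ^ k := pow_le_pow_left₀ hXp.le hX4 k
          have r3 := num k hk4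
          have r4 : (k + 1) * X ^ k ≤ 5 * (1 / 2) ^ (k + 4) :=
            (mul_le_mul_of_nonneg_left r2 (by positivity)).trans r3
          have r5 : 0 ≤ X - Y := by linarith
          calc X ^ (k + 1) - Y ^ (k + 1) ≤ (k + 1) * X ^ k * (X - Y) := r1
            _ ≤ 5 * (1 / 2) ^ (k + 4) * (X - Y) := mul_le_mul_of_nonneg_right r4 r5
            _ = _ := by ring
        have q3 : wS (bv x) * (b * Y ^ (k + 1)) ≤ wS (bv x) * (a * X ^ (k + 1)) :=
          mul_le_mul_of_nonneg_left q1 wS0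
        have q4 : wK (bv x) * (X ^ (k + 1) - Y ^ (k + 1)) ≤
            wK (bv x) * (5 * (X - Y) * (1 / 2) ^ ((k + 1) + 3)) :=
          mul_le_mul_of_nonneg_left q2 wK0
        nlinarith

end Pool.Agent.Lib.EPL
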