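import Pool.Agent.Lib.EPL.BDir

/-!
# EPL.BPos: the second derivatives at `t ≥ 1`

`X = exp(-t)`. `gT`: `gT/t ≥ 2 t * 8 X³ - (8 X³ + 8 X⁴ + 32 X⁸ + 107 X¹¹) ≥ X³ (16 - 8 - 8 X - 32 X⁵ - 107 X⁸) > 0`, `X ≤ 0.368`.
`gE` on `[1, 3/2]`: `gE/t ≥ 32 t X⁴ - (8 X³ + 8 X⁴ + 32 X⁸ + 107 X¹¹) = X³ ((32 t - 8) X - 8 - 32 X⁵ - 107 X⁸)`; `exp(-t) ≥ exp(-5/4) (9/4 - t)`
(convexity) and `(32 t - 8)(9/4 - t) - 30 = -16 (2t-3)(t-1) ≥ 0`, `30 exp(-5/4) ≥ 8.59`, `32 X⁵ + 107 X⁸ ≤ 0.2515`.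
`gE 2`: `X = exp(-2)`: `gE 2 / 2 ≤ 2 (32 X⁴ + 64 X⁸ + 535 X¹¹) - 8 X³ - 8 X⁴ = X³ (56 X - 8 + 128 X⁵ + 1070 X⁸)`, `56 exp(-2) = 7.5788`,
`128 X⁵ ≤ 0.006`, `1070 X⁸ ≤ 0.0002`. (`Tw_wE_symm` to replace `wE` by `wS`.)
-/

open MeasureTheory Set Filter Topology Matrix
open scoped Matrix.Norms.Elementwise

namespace Pool.Agent.Lib.EPL

open Pool.Agent.Lib.EpZ Pool.Agent.Lib.EPS

namespace BPosAux

theorem X_le {t : ℝ} (h1 : 1 ≤ t) : Real.exp (-t) ≤ 46 / 125 := by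
  have h := Real.exp_neg_one_lt_d9
  have h2 : Real.exp (-t) ≤ Real.exp (-1) := Real.exp_le_exp.mpr (by linarith)
  linarith

/-- the two small terms -/
theorem small {X : ℝ} (h0 : 0 ≤ X) (hX : X ≤ 46 / 125) :
    32 * X ^ 5 + 107 * X ^ 8 ≤ 253 / 1000 := by
  have h5 : X ^ 5 ≤ (46 / 125 : ℝ) ^ 5 := pow_le_pow_left₀ h0 hX 5
  have h8 : X ^ 8 ≤ (46 / 125 : ℝ) ^ 8 := pow_le_pow_left₀ h0 hX 8
  norm_num at h5 h8
  linarith

theorem exp_low : (2755 / 10000 : ℝ) ≤ Real.exp (-(5 / 4)) := by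
  have h := Real.exp_neg_one_gt_d9
  have h2 : (-(1 / 4 : ℝ)) + 1 ≤ Real.exp (-(1 / 4)) := Real.add_one_le_exp _
  have e : (-(5 / 4 : ℝ)) = -1 + -(1 / 4) := by norm_num
  rw [e, Real.exp_add]
  nlinarith [Real.exp_pos (-1 : ℝ), Real.exp_pos (-(1 / 4) : ℝ)]

theorem conv (t : ℝ) : Real.exp (-(5 / 4)) * (9 / 4 - t) ≤ Real.exp (-t) := by
  have h2 : (5 / 4 - t) + 1 ≤ Real.exp (5 / 4 - t) := Real.add_one_le_exp _
  have e : -t = -(5 / 4 : ℝ) + (5 / 4 - t) := by ring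
  rw [e, Real.exp_add]
  refine mul_le_mul_of_nonneg_left ?_ (Real.exp_pos _).le
  linarith

theorem exp_two : Real.exp (-2) ≤ 1354 / 10000 := by
  have h := Real.exp_neg_one_lt_d9
  have h0 := Real.exp_pos (-1 : ℝ)
  have e : (-2 : ℝ) = -1 + -1 := by norm_num
  rw [e, Real.exp_add]
  nlinarith

end BPosAux

open BPosAux

theorem gT_pos_large {t : ℝ} (h1 : 1 ≤ t) : 0 < gT t := by
  have ht : 0 < t := by linarith
  have hT := wT_lower ht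
  have hK := wK_upper (t := t) (by linarith)
  have hX := X_le h1
  have hX0 := Real.exp_pos (-t)
  have hs := small hX0.le hX
  unfold gT
  generalize Tw Qb (fun x => wT (bv x)) t = A at *
  generalize Tw Qb (fun x => wK (bv x)) t = B at *
  generalize Real.exp (-t) = X at *
  have hX3 : 0 < X ^ 3 := by positivity
  have h2 : B < 2 * A := by
    have h3 : 0 < X ^ 3 * (8 - 8 * X - (32 * X ^ 5 + 107 * X ^ 8)) :=
      mul_pos hX3 (by linarith)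
    have h4 : X ^ 3 * (8 - 8 * X - (32 * X ^ 5 + 107 * X ^ 8)) =
      2 * (8 * X ^ 3) - (8 * X ^ 3 + 8 * X ^ 4 + 32 * X ^ 8 + 107 * X ^ 11) := by ring
    linarith
  have hA : 0 < A := lt_of_lt_of_le (by positivity) hT
  have h5 : 2 * t ^ 2 * A - t * B = t * ((2 * A - B) + 2 * A * (t - 1)) := by ring
  rw [h5]
  exact mul_pos ht (add_pos_of_pos_of_nonneg (by linarith)
    (mul_nonneg (by linarith) (by linarith)))

theorem gE_pos_mid {t : ℝ} (h1 : 1 ≤ t) (h2 : t ≤ 3 / 2) : 0 < gE t := by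
  have ht : 0 < t := by linarith
  have hS := wS_lower ht
  have hK := wK_upper (t := t) (by linarith)
  have hX := X_le h1
  have hX0 := Real.exp_pos (-t)
  have hs := small hX0.le hX
  have hc := conv t
  have hl := exp_low
  unfold gE
  rw [Tw_wE_symm ht]
  generalize Tw Qb (fun x => wS (bv x)) t = A at *
  generalize Tw Qb (fun x => wK (bv x)) t = B at *
  generalize Real.exp (-t) = X at *
  generalize Real.exp (-(5 / 4)) = Y at *
  have hX3 : 0 < X ^ 3 := by positivity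
  have hq : 30 ≤ (32 * t - 8) * (9 / 4 - t) := by nlinarith
  have hm : (32 * t - 8) * (Y * (9 / 4 - t)) ≤ (32 * t - 8) * X :=
    mul_le_mul_of_nonneg_left hc (by linarith)
  have hy : 30 * Y ≤ (32 * t - 8) * (Y * (9 / 4 - t)) := by
    have e : (32 * t - 8) * (Y * (9 / 4 - t)) = ((32 * t - 8) * (9 / 4 - t)) * Y := by ring
    rw [e]
    exact mul_le_mul_of_nonneg_right hq (by linarith)
  have h3 : 0 < X ^ 3 * ((32 * t - 8) * X - 8 - (32 * X ^ 5 + 107 * X ^ 8)) :=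
    mul_pos hX3 (by linarith)
  have h4 : X ^ 3 * ((32 * t - 8) * X - 8 - (32 * X ^ 5 + 107 * X ^ 8)) =
    t * (32 * X ^ 4) - (8 * X ^ 3 + 8 * X ^ 4 + 32 * X ^ 8 + 107 * X ^ 11) := by ring
  have h6 : t * (32 * X ^ 4) ≤ t * A := mul_le_mul_of_nonneg_left hS ht.le
  have h5 : t ^ 2 * A - t * B = t * (t * A - B) := by ring
  rw [h5]
  exact mul_pos ht (by linarith)

theorem gE_two : gE 2 < 0 := by
  have hS := wS_upper (t := 2) (by norm_num)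
  have hK := wK_lower (t := 2) (by norm_num)
  have hX := exp_two
  have hX0 := Real.exp_pos (-2 : ℝ)
  unfold gE
  rw [Tw_wE_symm (by norm_num : (0 : ℝ) < 2)]
  generalize Tw Qb (fun x => wS (bv x)) 2 = A at *
  generalize Tw Qb (fun x => wK (bv x)) 2 = B at *
  generalize Real.exp (-2) = X at *
  have hX3 : 0 < X ^ 3 := by positivity
  have h5 : X ^ 5 ≤ (1354 / 10000 : ℝ) ^ 5 := pow_le_pow_left₀ hX0.le hX 5
  have h8 : X ^ 8 ≤ (1354 / 10000 : ℝ) ^ 8 := pow_le_pow_left₀ hX0.le hX 8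
  norm_num at h5 h8
  have h11 : 0 ≤ X ^ 11 := by positivity
  have hX8 : 0 ≤ X ^ 8 := by positivity
  have h3 : 0 < X ^ 3 * (8 - 56 * X - 128 * X ^ 5 - 1070 * X ^ 8) :=
    mul_pos hX3 (by linarith)
  have h4 : X ^ 3 * (8 - 56 * X - 128 * X ^ 5 - 1070 * X ^ 8) =
    (8 * X ^ 3 + 8 * X ^ 4) - 2 * (32 * X ^ 4 + 64 * X ^ 8 + 535 * X ^ 11) := by ring
  have h6 : 2 * A < B := by linarith
  linarith

end Pool.Agent.Lib.EPL
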