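import Pool.Agent.Lib.EPL.BDual

/-!
# EPL.BPosD: the second derivatives at `t ≤ 1`

`gE_dual`, `gT_dual`; `τ = π²/t ≥ π² > 9.8`. Put `N(y) = |du y|²` (even, `qf Qb⁻¹ y = N/4`), `z = exp(-τ/4)`, so that `exp(-τ qf) = z^N`.
UPPER BOUND for the K sum: `N(y) = 2` for 12 vectors, with `∑ wK(du y)/4 = 2`; for the others (`N ≥ 4`) `z^N ≤ 16 z⁴ (1/2)^N` (`z ≤ 1/2`), so
  `∑ wK(du y)/4 z^N ≤ 2 z² + 16 z⁴ ∑_{u ∈ ℤ³} (u₁²/4) (1/2)^(|u|²)` (`du` is injective), and the last sum is `C2 C0²` with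
  `C0 = ∑ 2^(-m²) ≤ 2.13`, `C2 = ∑ (m²/4) 2^(-m²) ≤ 0.385`, product `≤ 1.7468`; so the K sum is `≤ 2 z² + 28 z⁴`.
LOWER BOUNDS for `∑ wS(du y)/16 z^N`, `∑ wT(du y)/16 z^N`: the vectors with `N = 2` give `z²/4` for both.
  [`wS = (u₁²-u₂²)²/2`: `u = (±1,0,±1), (0,±1,±1)`: 8 vectors with `wS = 1/2`: `4/16`; `wT`: `(±1,±1,0)`: `4/16`.]
Hence `gE'(τ) ≥ τ z² (τ/4 - 2 - 28 z²)`, `gT'(τ) ≥ τ z² (τ/2 - 2 - 28 z²)`, and `z² = exp(-τ/2) ≤ exp(-4.9) ≤ 0.0075`, `28 z² ≤ 0.21`, `τ/4 ≥ 2.45`. OK.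
`gE_upper`: for `t ≤ 7/10`, `τ ≥ 14`: `gE'(τ) ≤ τ² ∑ wS(du y)/16 z^N ≤ τ² (z²/4 + 16 z⁴ ∑_{u ∈ ℤ³} (u₁⁴ + u₂⁴)/32 (1/2)^(|u|²))`, the last sum `= C4 C0² ≤ 0.3 * 4.54` with
  `C4 = ∑ (m⁴/16) 2^(-m²) ≤ 0.25` (2/32 + 2*16/256 + 2*81/8192 + ...), so `gE' ≤ τ² z² (1/4 + 20 z²) ≤ 0.27 τ² exp(-τ/2)`, and
  `gE ≤ (τ/π)^(3/2)/4 * 0.27 τ² exp(-τ/2)`. `τ^(7/2) exp(-τ/2)` is decreasing for `τ ≥ 7`; or: `(τ/π)^(3/2) ≤ (τ/π)²/(14/π)^(1/2)`,
  `(14/π)^(1/2) ≥ 2.1`, and `τ⁴ exp(-τ/2) ≤ 14⁴ exp(-7)` (decreasing for `τ ≥ 8`; `exp(-7) ≤ 0.000912`: value `≤ 35.04`), so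
  `gE ≤ 35.04 * 0.27 / (4 * 2.1 * π²) ≤ 0.115`.
-/

open MeasureTheory Set Filter Topology Matrix
open scoped Matrix.Norms.Elementwise

namespace Pool.Agent.Lib.EPL

open Pool.Agent.Lib.EpZ Pool.Agent.Lib.EPS

namespace BPosDAux

private theorem tri_le {f g h : ℤ → ℝ} {F G H : ℝ} (hf : ∀ m, 0 ≤ f m) (hg : ∀ m, 0 ≤ g m)
    (hh : ∀ m, 0 ≤ h m) (sf : Summable f) (sg : Summable g) (sh : Summable h)
    (bf : ∑' m, f m ≤ F) (bg : ∑' m, g m ≤ G) (bh : ∑' m, h m ≤ H) :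
    Summable (fun m : ℤ × ℤ × ℤ => f m.1 * g m.2.1 * h m.2.2) ∧
      ∑' m : ℤ × ℤ × ℤ, f m.1 * g m.2.1 * h m.2.2 ≤ F * G * H := by
  have sgh : Summable (fun p : ℤ × ℤ => g p.1 * h p.2) := sg.mul_of_nonneg sh hg hh
  have ngh : ∀ p : ℤ × ℤ, 0 ≤ g p.1 * h p.2 := fun p => mul_nonneg (hg _) (hh _)
  have sfgh : Summable (fun m : ℤ × ℤ × ℤ => f m.1 * (g m.2.1 * h m.2.2)) :=
    sf.mul_of_nonneg sgh hf ngh
  have e : (fun m : ℤ × ℤ × ℤ => f m.1 * g m.2.1 * h m.2.2)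
      = fun m : ℤ × ℤ × ℤ => f m.1 * (g m.2.1 * h m.2.2) := by
    funext m
    ring
  refine ⟨by rw [e]; exact sfgh, ?_⟩
  rw [e, ← sf.tsum_mul_tsum sgh sfgh, ← sg.tsum_mul_tsum sh sgh, ← mul_assoc]
  have nf : 0 ≤ ∑' m, f m := tsum_nonneg hf
  have ng : 0 ≤ ∑' m, g m := tsum_nonneg hg
  have nh : 0 ≤ ∑' m, h m := tsum_nonneg hh
  have h1 : (∑' m, f m) * (∑' m, g m) ≤ F * G := mul_le_mul bf bg ng (nf.trans bf)
  exact mul_le_mul h1 bh nh (mul_nonneg (nf.trans bf) (ng.trans bg))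

private theorem inj_du : Function.Injective fun x : Fin 3 → ℤ => (du x 0, du x 1, du x 2) := by
  intro x y hxy
  simp only [Prod.mk.injEq] at hxy
  obtain ⟨h1, h2, h3⟩ := hxy
  have h1' : x 0 + x 1 = y 0 + y 1 := h1
  have h2' : x 0 + x 2 = y 0 + y 2 := h2
  have h3' : x 1 + x 2 = y 1 + y 2 := h3
  funext i
  fin_cases i
  · show x 0 = y 0
    omega
  · show x 1 = y 1
    omega
  · show x 2 = y 2
    omega

private theorem le_of_inj {F : (Fin 3 → ℤ) → ℝ} {G : ℤ × ℤ × ℤ → ℝ} {v : (Fin 3 → ℤ) → ℤ × ℤ × ℤ}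
    (hv : Function.Injective v) (hF : ∀ x, 0 ≤ F x) (hG : ∀ m, 0 ≤ G m) (sG : Summable G)
    (h : ∀ x, F x ≤ G (v x)) : Summable F ∧ ∑' x, F x ≤ ∑' m, G m := by
  have s1 : Summable (fun x => G (v x)) := sG.comp_injective hv
  have s2 : Summable F := Summable.of_nonneg_of_le hF h s1
  refine ⟨s2, ?_⟩
  calc ∑' x, F x ≤ ∑' x, G (v x) := s2.tsum_le_tsum h s1
    _ ≤ ∑' m, G m := tsum_comp_le_tsum_of_inj sG hG hv

/-! one-dimensional sums -/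

private theorem geo : HasSum (fun m : ℤ => (1 / 8 : ℝ) ^ m.natAbs) (9 / 7) := by
  have e1 : ((1 : ℝ) - 1 / 8)⁻¹ = 8 / 7 := by norm_num
  have h0 := hasSum_geometric_of_lt_one (r := (1 / 8 : ℝ)) (by norm_num) (by norm_num)
  rw [e1] at h0
  have h1 : HasSum (fun n : ℕ => (1 / 8 : ℝ) ^ ((n : ℤ)).natAbs) (8 / 7) := by
    have e : (fun n : ℕ => (1 / 8 : ℝ) ^ ((n : ℤ)).natAbs) = fun n : ℕ => (1 / 8 : ℝ) ^ n := by
      funext n
      rw [Int.natAbs_natCast]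
    rw [e]
    exact h0
  have h2 : HasSum (fun n : ℕ => (1 / 8 : ℝ) ^ (-((n : ℤ) + 1)).natAbs) (1 / 7) := by
    have e : (fun n : ℕ => (1 / 8 : ℝ) ^ (-((n : ℤ) + 1)).natAbs) =
        fun n : ℕ => 1 / 8 * (1 / 8 : ℝ) ^ n := by
      funext n
      have : (-((n : ℤ) + 1)).natAbs = n + 1 := by omega
      rw [this, pow_succ]
      ring
    rw [e]
    have h3 := h0.mul_left (1 / 8)
    have e2 : (1 / 8 : ℝ) * (8 / 7) = 1 / 7 := by norm_num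
    rw [e2] at h3
    exact h3
  have h4 := HasSum.of_nat_of_neg_add_one (f := fun m : ℤ => (1 / 8 : ℝ) ^ m.natAbs) h1 h2
  have e3 : (8 / 7 : ℝ) + 1 / 7 = 9 / 7 := by norm_num
  rw [e3] at h4
  exact h4

/-- the one-dimensional function -/
private noncomputable def ff (j : ℕ) (m : ℤ) : ℝ := |(m : ℝ)| ^ j * (1 / 2) ^ (m.natAbs ^ 2)

private theorem ff_nn (j : ℕ) (m : ℤ) : 0 ≤ ff j m := by unfold ff; positivity

private theorem ff_big {j : ℕ} (hj : j ≤ 4) {m : ℤ} (hm : 3 ≤ m.natAbs) :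
    ff j m ≤ 3 ^ j * (1 / 8) ^ m.natAbs := by
  obtain ⟨k, hk⟩ : ∃ k, m.natAbs = 3 + k := ⟨m.natAbs - 3, by omega⟩
  have h1 : |(m : ℝ)| = (3 + k : ℕ) := by
    rw [← hk, Nat.cast_natAbs]
    push_cast
    rfl
  unfold ff
  rw [h1, hk]
  have h2 : ((3 + k : ℕ) : ℝ) ≤ 3 * 2 ^ k := by
    have : 3 + k ≤ 3 * 2 ^ k := by
      have := Nat.lt_two_pow_self (n := k)
      omega
    exact_mod_cast this
  have h3 : ((3 + k : ℕ) : ℝ) ^ j ≤ (3 * 2 ^ k) ^ j := pow_le_pow_left₀ (by positivity) h2 j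
  have h4 : (2 : ℝ) ^ (k * j) ≤ 2 ^ (k * (k + 3)) := by
    apply pow_le_pow_right₀ (by norm_num)
    rcases Nat.eq_zero_or_pos k with h | h
    · rw [h]; simp
    · exact Nat.mul_le_mul_left k (by omega)
  have h5 : (1 / 2 : ℝ) ^ ((3 + k) ^ 2) = (1 / 8) ^ (3 + k) * (1 / 2) ^ (k * (k + 3)) := by
    have : (1 / 8 : ℝ) = (1 / 2) ^ 3 := by norm_num
    rw [this, ← pow_mul, ← pow_add]
    congr 1
    ring
  have h6 : (2 : ℝ) ^ (k * (k + 3)) * (1 / 2) ^ (k * (k + 3)) = 1 := by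
    rw [← mul_pow]; norm_num
  rw [h5]
  calc ((3 + k : ℕ) : ℝ) ^ j * ((1 / 8) ^ (3 + k) * (1 / 2) ^ (k * (k + 3)))
      ≤ (3 * 2 ^ k) ^ j * ((1 / 8) ^ (3 + k) * (1 / 2) ^ (k * (k + 3))) :=
        mul_le_mul_of_nonneg_right h3 (by positivity)
    _ = 3 ^ j * (1 / 8) ^ (3 + k) * (2 ^ (k * j) * (1 / 2) ^ (k * (k + 3))) := by
        rw [mul_pow, ← pow_mul]; ring
    _ ≤ 3 ^ j * (1 / 8) ^ (3 + k) * (2 ^ (k * (k + 3)) * (1 / 2) ^ (k * (k + 3))) :=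
        mul_le_mul_of_nonneg_left (mul_le_mul_of_nonneg_right h4 (by positivity)) (by positivity)
    _ = 3 ^ j * (1 / 8) ^ (3 + k) := by rw [h6, mul_one]

/-- the small integers -/
private def SS : Finset ℤ := {-2, -1, 0, 1, 2}

private theorem mem_SS {m : ℤ} (h : m ∉ SS) : 3 ≤ m.natAbs := by
  simp only [SS, Finset.mem_insert, Finset.mem_singleton, not_or] at h
  omega

private theorem ff_sum {j : ℕ} (hj : j ≤ 4) {X : ℝ}
    (hX : 3 ^ j * (9 / 7) + ∑ m ∈ SS, (ff j m - 3 ^ j * (1 / 8) ^ m.natAbs) ≤ X) :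
    Summable (ff j) ∧ ∑' m, ff j m ≤ X := by
  have g1 := geo.mul_left ((3 : ℝ) ^ j)
  have g2 : HasSum (fun m : ℤ => if m ∈ SS then ff j m - 3 ^ j * (1 / 8) ^ m.natAbs else 0)
      (∑ m ∈ SS, (ff j m - 3 ^ j * (1 / 8) ^ m.natAbs)) := by
    have this : HasSum (fun m : ℤ => if m ∈ SS then ff j m - 3 ^ j * (1 / 8) ^ m.natAbs else 0)
        (∑ m ∈ SS, if m ∈ SS then ff j m - 3 ^ j * (1 / 8) ^ m.natAbs else 0) :=
      hasSum_sum_of_ne_finset_zero (fun m hm => if_neg hm)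
    have e : ∑ m ∈ SS, (if m ∈ SS then ff j m - 3 ^ j * (1 / 8) ^ m.natAbs else 0) =
        ∑ m ∈ SS, (ff j m - 3 ^ j * (1 / 8) ^ m.natAbs) :=
      Finset.sum_congr rfl fun m hm => if_pos hm
    rw [e] at this
    exact this
  have g := g1.add g2
  have hle : ∀ m : ℤ, ff j m ≤ 3 ^ j * (1 / 8) ^ m.natAbs +
      (if m ∈ SS then ff j m - 3 ^ j * (1 / 8) ^ m.natAbs else 0) := by
    intro m
    split_ifs with hm
    · linarith
    · rw [add_zero]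
      exact ff_big hj (mem_SS hm)
  have s : Summable (ff j) := Summable.of_nonneg_of_le (ff_nn j) hle g.summable
  refine ⟨s, ?_⟩
  have := s.tsum_le_tsum hle g.summable
  rw [g.tsum_eq] at this
  exact this.trans hX

private theorem ff0 : Summable (ff 0) ∧ ∑' m, ff 0 m ≤ 213 / 100 := by
  apply ff_sum (by norm_num)
  simp [SS, ff]
  norm_num

private theorem ff2 : Summable (ff 2) ∧ ∑' m, ff 2 m ≤ 1541 / 1000 := by
  apply ff_sum (by norm_num)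
  simp [SS, ff]
  norm_num

private theorem ff4 : Summable (ff 4) ∧ ∑' m, ff 4 m ≤ 337 / 100 := by
  apply ff_sum (by norm_num)
  simp [SS, ff]
  norm_num

/-! the norm on the dual lattice -/

/-- the norm -/
private def N (y : Fin 3 → ℤ) : ℕ :=
  (du y 0).natAbs ^ 2 + (du y 1).natAbs ^ 2 + (du y 2).natAbs ^ 2

private theorem N_cast (y : Fin 3 → ℤ) : (N y : ℝ) = 4 * qf Qb⁻¹ y := by
  rw [qf_Qb_inv]
  unfold N
  push_cast
  have h : ∀ a : ℤ, ((a.natAbs : ℝ)) ^ 2 = (a : ℝ) ^ 2 := fun a => by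
    rw [Nat.cast_natAbs, ← sq_abs (a : ℝ)]
    push_cast
    rfl
  rw [h, h, h]
  ring

private theorem exp_N (t : ℝ) (y : Fin 3 → ℤ) :
    Real.exp (-(t * qf Qb⁻¹ y)) = Real.exp (-(t / 4)) ^ N y := by
  have h := N_cast y
  rw [← Real.exp_nat_mul, h]
  congr 1
  ring

/-- the vectors of norm `2` -/
private def L12 : Finset (Fin 3 → ℤ) :=
  {![1, 0, 0], ![-1, 0, 0], ![0, 1, -1], ![0, -1, 1], ![0, 1, 0], ![0, -1, 0], ![1, 0, -1],
    ![-1, 0, 1], ![0, 0, 1], ![0, 0, -1], ![1, -1, 0], ![-1, 1, 0]}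

private theorem N_L12 {y : Fin 3 → ℤ} (h : y ∈ L12) : N y = 2 := by
  simp only [L12, Finset.mem_insert, Finset.mem_singleton] at h
  rcases h with h | h | h | h | h | h | h | h | h | h | h | h <;> subst h <;>
    simp [N, du]

private theorem mem_L12 {y : Fin 3 → ℤ} (h0 : y ≠ 0) (h : N y < 4) : y ∈ L12 := by
  have hx : y = ![y 0, y 1, y 2] := by
    funext i
    fin_cases i <;> rfl
  have e0 : du y 0 = y 0 + y 1 := rfl
  have e1 : du y 1 = y 0 + y 2 := rfl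
  have e2 : du y 2 = y 1 + y 2 := rfl
  have b : ∀ n : ℕ, n ^ 2 < 4 → n ≤ 1 := by
    intro n hn
    by_contra hc
    have : 2 ^ 2 ≤ n ^ 2 := Nat.pow_le_pow_left (by omega) 2
    omega
  unfold N at h
  have b0 := b (du y 0).natAbs (by omega)
  have b1 := b (du y 1).natAbs (by omega)
  have b2 := b (du y 2).natAbs (by omega)
  obtain ⟨p, hp⟩ : ∃ p, p = du y 0 := ⟨_, rfl⟩
  obtain ⟨q, hq⟩ : ∃ q, q = du y 1 := ⟨_, rfl⟩
  obtain ⟨r, hr⟩ : ∃ r, r = du y 2 := ⟨_, rfl⟩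
  rw [← hp] at b0 e0
  rw [← hq] at b1 e1
  rw [← hr] at b2 e2
  have mk : ∀ a b c : ℤ, y 0 = a → y 1 = b → y 2 = c → ![a, b, c] ∈ L12 → y ∈ L12 := by
    intro a b c ha hb hc hm
    rw [hx, ha, hb, hc]
    exact hm
  have p3 : p = -1 ∨ p = 0 ∨ p = 1 := by omega
  have q3 : q = -1 ∨ q = 0 ∨ q = 1 := by omega
  have r3 : r = -1 ∨ r = 0 ∨ r = 1 := by omega
  clear b0 b1 b2 hp hq hr h b
  rcases p3 with p3 | p3 | p3 <;> rcases q3 with q3 | q3 | q3 <;> rcases r3 with r3 | r3 | r3 <;>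
    first
    | (exfalso; omega)
    | (exfalso; apply h0; rw [hx]
       have z0 : y 0 = 0 := by omega
       have z1 : y 1 = 0 := by omega
       have z2 : y 2 = 0 := by omega
       rw [z0, z1, z2]; funext i; fin_cases i <;> rfl)
    | exact mk 1 0 0 (by omega) (by omega) (by omega) (by simp [L12])
    | exact mk (-1) 0 0 (by omega) (by omega) (by omega) (by simp [L12])
    | exact mk 0 1 (-1) (by omega) (by omega) (by omega) (by simp [L12])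
    | exact mk 0 (-1) 1 (by omega) (by omega) (by omega) (by simp [L12])
    | exact mk 0 1 0 (by omega) (by omega) (by omega) (by simp [L12])
    | exact mk 0 (-1) 0 (by omega) (by omega) (by omega) (by simp [L12])
    | exact mk 1 0 (-1) (by omega) (by omega) (by omega) (by simp [L12])
    | exact mk (-1) 0 1 (by omega) (by omega) (by omega) (by simp [L12])
    | exact mk 0 0 1 (by omega) (by omega) (by omega) (by simp [L12])
    | exact mk 0 0 (-1) (by omega) (by omega) (by omega) (by simp [L12])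
    | exact mk 1 (-1) 0 (by omega) (by omega) (by omega) (by simp [L12])
    | exact mk (-1) 1 0 (by omega) (by omega) (by omega) (by simp [L12])

private theorem du_zero : du 0 = 0 := by
  ext i; fin_cases i <;> simp [du]

private theorem wK_zero : wK (du 0) = 0 := by simp [du_zero, wK]
private theorem wS_zero : wS (du 0) = 0 := by simp [du_zero, wS]

private theorem pow_big {z : ℝ} (hz0 : 0 ≤ z) (hz : z ≤ 1 / 2) {n : ℕ} (hn : 4 ≤ n) :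
    z ^ n ≤ 16 * z ^ 4 * (1 / 2) ^ n := by
  obtain ⟨k, hk⟩ : ∃ k, n = 4 + k := ⟨n - 4, by omega⟩
  rw [hk, pow_add, pow_add]
  have h1 : z ^ k ≤ (1 / 2) ^ k := pow_le_pow_left₀ hz0 hz k
  have h2 : z ^ 4 * z ^ k ≤ z ^ 4 * (1 / 2) ^ k := mul_le_mul_of_nonneg_left h1 (by positivity)
  refine h2.trans (le_of_eq ?_)
  norm_num
  ring

/-- bound of a weighted sum by the part of norm `2` and the rest -/
private theorem up {f : (Fin 3 → ℤ) → ℝ} (h0 : f 0 = 0) (hf : ∀ y, 0 ≤ f y)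
    {G : ℤ × ℤ × ℤ → ℝ} (sG : Summable G) (nG : ∀ m, 0 ≤ G m)
    (hG : ∀ y, f y * (1 / 2) ^ N y ≤ G (du y 0, du y 1, du y 2)) {X Y : ℝ}
    (hX : ∑' m, G m ≤ X) (hY : ∑ y ∈ L12, f y = Y)
    {τ : ℝ} (hz : Real.exp (-(τ / 4)) ≤ 1 / 2) :
    Tw Qb⁻¹ f τ ≤ Y * Real.exp (-(τ / 4)) ^ 2 + 16 * Real.exp (-(τ / 4)) ^ 4 * X := by
  obtain ⟨z, hzd⟩ : ∃ z, z = Real.exp (-(τ / 4)) := ⟨_, rfl⟩
  have hz0 : 0 < z := by rw [hzd]; exact Real.exp_pos _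
  rw [← hzd] at hz
  rw [← hzd]
  have r := le_of_inj (F := fun y => f y * (1 / 2) ^ N y) inj_du
    (fun y => mul_nonneg (hf y) (by positivity)) nG sG hG
  have g1 := (r.1.mul_left (16 * z ^ 4))
  have g2 : HasSum (fun y : Fin 3 → ℤ => if y ∈ L12 then f y * z ^ 2 else 0) (Y * z ^ 2) := by
    have this : HasSum (fun y : Fin 3 → ℤ => if y ∈ L12 then f y * z ^ 2 else 0)
        (∑ y ∈ L12, if y ∈ L12 then f y * z ^ 2 else 0) :=
      hasSum_sum_of_ne_finset_zero (fun m hm => if_neg hm)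
    have e : ∑ y ∈ L12, (if y ∈ L12 then f y * z ^ 2 else 0) = Y * z ^ 2 := by
      rw [← hY, Finset.sum_mul]
      exact Finset.sum_congr rfl fun m hm => if_pos hm
    rw [e] at this
    exact this
  have g := g2.summable.add g1
  have hle : ∀ y : Fin 3 → ℤ, f y * Real.exp (-(τ * qf Qb⁻¹ y)) ≤
      (if y ∈ L12 then f y * z ^ 2 else 0) + 16 * z ^ 4 * (f y * (1 / 2) ^ N y) := by
    intro y
    rw [exp_N, ← hzd]
    split_ifs with hy
    · rw [N_L12 hy]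
      have : 0 ≤ 16 * z ^ 4 * (f y * (1 / 2) ^ 2) := by
        have := hf y
        positivity
      linarith
    · by_cases hy0 : y = 0
      · rw [hy0, h0]; simp
      · have h4 : 4 ≤ N y := by
          by_contra hc
          exact hy (mem_L12 hy0 (by omega))
        have h5 := mul_le_mul_of_nonneg_left (pow_big hz0.le hz h4) (hf y)
        linarith
  have s : Summable fun y : Fin 3 → ℤ => f y * Real.exp (-(τ * qf Qb⁻¹ y)) :=
    Summable.of_nonneg_of_le (fun y => mul_nonneg (hf y) (Real.exp_pos _).le) hle g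
  have h1 := s.tsum_le_tsum hle g
  rw [g2.summable.tsum_add g1, g2.tsum_eq, tsum_mul_left] at h1
  have h2 : 16 * z ^ 4 * ∑' y, f y * (1 / 2) ^ N y ≤ 16 * z ^ 4 * X :=
    mul_le_mul_of_nonneg_left (r.2.trans hX) (by positivity)
  unfold Tw
  linarith

/-- lower bound of a weighted sum -/
private theorem lo {f : (Fin 3 → ℤ) → ℝ} (hf : ∀ y, 0 ≤ f y) {τ : ℝ}
    (hs : Summable fun y : Fin 3 → ℤ => f y * Real.exp (-(τ * qf Qb⁻¹ y))) {Y : ℝ}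
    (hY : ∑ y ∈ L12, f y = Y) : Y * Real.exp (-(τ / 4)) ^ 2 ≤ Tw Qb⁻¹ f τ := by
  have h1 := hs.sum_le_tsum L12 (fun y _ => mul_nonneg (hf y) (Real.exp_pos _).le)
  have h2 : ∑ y ∈ L12, f y * Real.exp (-(τ * qf Qb⁻¹ y)) = Y * Real.exp (-(τ / 4)) ^ 2 := by
    rw [← hY, Finset.sum_mul]
    refine Finset.sum_congr rfl fun y hy => ?_
    rw [exp_N, N_L12 hy]
  rw [h2] at h1
  exact h1

private theorem half_N (y : Fin 3 → ℤ) : (1 / 2 : ℝ) ^ N y =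
    (1 / 2) ^ ((du y 0).natAbs ^ 2) * (1 / 2) ^ ((du y 1).natAbs ^ 2)
      * (1 / 2) ^ ((du y 2).natAbs ^ 2) := by
  unfold N; rw [pow_add, pow_add]

private theorem K_up {τ : ℝ} (hz : Real.exp (-(τ / 4)) ≤ 1 / 2) :
    Tw Qb⁻¹ (fun y => wK (du y)) τ ≤
      8 * Real.exp (-(τ / 4)) ^ 2 + 112 * Real.exp (-(τ / 4)) ^ 4 := by
  have t := tri_le (ff_nn 2) (ff_nn 0) (ff_nn 0) ff2.1 ff0.1 ff0.1 ff2.2 ff0.2 ff0.2
  have h := up (f := fun y => wK (du y)) (G := fun m => ff 2 m.1 * ff 0 m.2.1 * ff 0 m.2.2)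
    wK_zero (fun y => sq_nonneg _) t.1
    (fun m => mul_nonneg (mul_nonneg (ff_nn _ _) (ff_nn _ _)) (ff_nn _ _))
    (fun y => by
      rw [half_N]
      simp only [ff, wK, pow_zero, one_mul, sq_abs]
      exact le_of_eq (by ring))
    t.2 (Y := 8) (by simp [L12, wK, du]; norm_num) hz
  have hp : 0 ≤ Real.exp (-(τ / 4)) ^ 4 := by positivity
  linarith

private theorem S_up {τ : ℝ} (hz : Real.exp (-(τ / 4)) ≤ 1 / 2) :
    Tw Qb⁻¹ (fun y => wS (du y)) τ ≤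
      4 * Real.exp (-(τ / 4)) ^ 2 + 320 * Real.exp (-(τ / 4)) ^ 4 := by
  have t1 := tri_le (ff_nn 4) (ff_nn 0) (ff_nn 0) ff4.1 ff0.1 ff0.1 ff4.2 ff0.2 ff0.2
  have t2 := tri_le (ff_nn 0) (ff_nn 4) (ff_nn 0) ff0.1 ff4.1 ff0.1 ff0.2 ff4.2 ff0.2
  have sG := (t1.1.add t2.1).mul_left (1 / 2)
  have bG : ∑' m : ℤ × ℤ × ℤ, 1 / 2 * (ff 4 m.1 * ff 0 m.2.1 * ff 0 m.2.2
      + ff 0 m.1 * ff 4 m.2.1 * ff 0 m.2.2) ≤
      1 / 2 * (337 / 100 * (213 / 100) * (213 / 100) + 213 / 100 * (337 / 100) * (213 / 100)) := by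
    rw [tsum_mul_left, t1.1.tsum_add t2.1]
    exact mul_le_mul_of_nonneg_left (add_le_add t1.2 t2.2) (by norm_num)
  have h := up (f := fun y => wS (du y)) (G := fun m => 1 / 2 * (ff 4 m.1 * ff 0 m.2.1 * ff 0 m.2.2
      + ff 0 m.1 * ff 4 m.2.1 * ff 0 m.2.2))
    wS_zero (fun y => by unfold wS; positivity) sG
    (fun m => mul_nonneg (by norm_num) (add_nonneg
      (mul_nonneg (mul_nonneg (ff_nn _ _) (ff_nn _ _)) (ff_nn _ _))
      (mul_nonneg (mul_nonneg (ff_nn _ _) (ff_nn _ _)) (ff_nn _ _))))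
    (fun y => by
      rw [half_N]
      simp only [ff, wS, pow_zero, one_mul]
      have e : ∀ a : ℝ, |a| ^ 4 = a ^ 4 := fun a => by
        rw [show 4 = 2 * 2 by norm_num, pow_mul, pow_mul, sq_abs]
      rw [e, e]
      have h1 : ((du y 0 : ℝ) ^ 2 - (du y 1 : ℝ) ^ 2) ^ 2 / 2 ≤
          1 / 2 * ((du y 0 : ℝ) ^ 4 + (du y 1 : ℝ) ^ 4) := by
        nlinarith [mul_nonneg (sq_nonneg (du y 0 : ℝ)) (sq_nonneg (du y 1 : ℝ))]
      have h2 : (0 : ℝ) ≤ (1 / 2) ^ ((du y 0).natAbs ^ 2) * (1 / 2) ^ ((du y 1).natAbs ^ 2)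
          * (1 / 2) ^ ((du y 2).natAbs ^ 2) := by positivity
      refine (mul_le_mul_of_nonneg_right h1 h2).trans (le_of_eq (by ring)))
    bG (Y := 4) (by simp [L12, wS, du]; norm_num) hz
  have hp : 0 ≤ Real.exp (-(τ / 4)) ^ 4 := by positivity
  nlinarith

private theorem S_lo {τ : ℝ} (hτ : 0 < τ) :
    4 * Real.exp (-(τ / 4)) ^ 2 ≤ Tw Qb⁻¹ (fun y => wS (du y)) τ :=
  lo (f := fun y => wS (du y)) (fun y => by unfold wS; positivity)
    (summable_d (by simp) hτ) (by simp [L12, wS, du]; norm_num)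

private theorem T_lo {τ : ℝ} (hτ : 0 < τ) :
    4 * Real.exp (-(τ / 4)) ^ 2 ≤ Tw Qb⁻¹ (fun y => wT (du y)) τ :=
  lo (f := fun y => wT (du y)) (fun y => by unfold wT; positivity)
    (summable_d (by simp) hτ) (by simp [L12, wT, du]; norm_num)

private theorem pi2_lo : 49 / 5 ≤ Real.pi ^ 2 := by
  have := Real.pi_gt_d4
  nlinarith

private theorem tau_ge {t : ℝ} (h0 : 0 < t) (h1 : t ≤ 1) : 49 / 5 ≤ Real.pi ^ 2 / t := by
  rw [le_div_iff₀ h0]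
  have := pi2_lo
  nlinarith

private theorem e1 : Real.exp (-1) ≤ 3679 / 10000 := by
  have := Real.exp_neg_one_lt_d9
  norm_num at this ⊢
  linarith

private theorem z_half {τ : ℝ} (h : 49 / 5 ≤ τ) : Real.exp (-(τ / 4)) ≤ 1 / 2 := by
  have h1 : Real.exp (-(τ / 4)) ≤ Real.exp (-1) := Real.exp_le_exp.2 (by linarith)
  linarith [e1]

private theorem z_sq {τ : ℝ} (h : 49 / 5 ≤ τ) : Real.exp (-(τ / 4)) ^ 2 ≤ 1 / 100 := by
  have h1 : Real.exp (-(τ / 4)) ^ 2 = Real.exp (-(τ / 2)) := by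
    rw [← Real.exp_nat_mul]; congr 1; push_cast; ring
  rw [h1]
  have h2 : Real.exp (-(τ / 2)) ≤ Real.exp (-4) * Real.exp (-(9 / 10)) := by
    rw [← Real.exp_add]
    exact Real.exp_le_exp.2 (by linarith)
  have h3 : Real.exp (-4) ≤ (3679 / 10000) ^ 4 := by
    have : Real.exp (-4) = Real.exp (-1) ^ 4 := by
      rw [← Real.exp_nat_mul]; congr 1; norm_num
    rw [this]
    exact pow_le_pow_left₀ (Real.exp_pos _).le e1 4
  have h4 : Real.exp (-(9 / 10)) ≤ 10 / 19 := by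
    rw [Real.exp_neg]
    have : (19 / 10 : ℝ) ≤ Real.exp (9 / 10) := by
      have := Real.add_one_le_exp (9 / 10 : ℝ)
      linarith
    rw [inv_le_comm₀ (Real.exp_pos _) (by norm_num)]
    linarith
  have h5 := mul_le_mul h3 h4 (Real.exp_pos _).le (by positivity)
  have h6 : ((3679 / 10000 : ℝ)) ^ 4 * (10 / 19) ≤ 1 / 100 := by norm_num
  linarith

private theorem fac_pos {t : ℝ} (h0 : 0 < t) : 0 < (Real.pi / t) ^ ((3 : ℝ) / 2) / 4 :=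
  div_pos (Real.rpow_pos_of_pos (div_pos Real.pi_pos h0) _) (by norm_num)

end BPosDAux

open BPosDAux

theorem gE_pos_small {t : ℝ} (h0 : 0 < t) (h1 : t ≤ 1) : 0 < gE t := by
  rw [gE_dual h0]
  refine mul_pos (fac_pos h0) ?_
  have hτ := tau_ge h0 h1
  obtain ⟨τ, eτ⟩ : ∃ τ, τ = Real.pi ^ 2 / t := ⟨_, rfl⟩
  rw [← eτ] at hτ ⊢
  have k := K_up (z_half hτ)
  have s := S_lo (τ := τ) (by linarith)
  have z2 := z_sq hτ
  unfold gE'
  rw [Tw_wE_symm' (by linarith)]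
  obtain ⟨z, hz⟩ : ∃ z, z = Real.exp (-(τ / 4)) ^ 2 := ⟨_, rfl⟩
  have hz4 : Real.exp (-(τ / 4)) ^ 4 = z ^ 2 := by rw [hz]; ring
  have zp : 0 < z := by rw [hz]; positivity
  rw [hz4, ← hz] at k
  rw [← hz] at s z2
  have t1 : τ ^ 2 * (4 * z / 16) ≤ τ ^ 2 * (Tw Qb⁻¹ (fun y => wS (du y)) τ / 16) :=
    mul_le_mul_of_nonneg_left (by linarith) (sq_nonneg _)
  have t2 : τ * (Tw Qb⁻¹ (fun y => wK (du y)) τ / 4) ≤ τ * ((8 * z + 112 * z ^ 2) / 4) :=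
    mul_le_mul_of_nonneg_left (by linarith) (by linarith)
  have t3 : 0 < τ * z * (τ / 4 - 2 - 28 * z) := by
    have : 0 < τ / 4 - 2 - 28 * z := by linarith
    have : 0 < τ := by linarith
    positivity
  nlinarith

theorem gT_pos_small {t : ℝ} (h0 : 0 < t) (h1 : t ≤ 1) : 0 < gT t := by
  rw [gT_dual h0]
  refine mul_pos (fac_pos h0) ?_
  have hτ := tau_ge h0 h1
  obtain ⟨τ, eτ⟩ : ∃ τ, τ = Real.pi ^ 2 / t := ⟨_, rfl⟩
  rw [← eτ] at hτ ⊢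
  have k := K_up (z_half hτ)
  have s := T_lo (τ := τ) (by linarith)
  have z2 := z_sq hτ
  unfold gT'
  obtain ⟨z, hz⟩ : ∃ z, z = Real.exp (-(τ / 4)) ^ 2 := ⟨_, rfl⟩
  have hz4 : Real.exp (-(τ / 4)) ^ 4 = z ^ 2 := by rw [hz]; ring
  have zp : 0 < z := by rw [hz]; positivity
  rw [hz4, ← hz] at k
  rw [← hz] at s z2
  have t1 : 2 * τ ^ 2 * (4 * z / 16) ≤ 2 * τ ^ 2 * (Tw Qb⁻¹ (fun y => wT (du y)) τ / 16) :=
    mul_le_mul_of_nonneg_left (by linarith) (by positivity)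
  have t2 : τ * (Tw Qb⁻¹ (fun y => wK (du y)) τ / 4) ≤ τ * ((8 * z + 112 * z ^ 2) / 4) :=
    mul_le_mul_of_nonneg_left (by linarith) (by linarith)
  have t3 : 0 < τ * z * (τ / 2 - 2 - 28 * z) := by
    have : 0 < τ / 2 - 2 - 28 * z := by linarith
    have : 0 < τ := by linarith
    positivity
  nlinarith

theorem gE_upper {t : ℝ} (h0 : 0 < t) (h1 : t ≤ 7 / 10) : gE t ≤ 12 / 100 := by
  rw [gE_dual h0]
  have hpi := Real.pi_gt_d4
  have hpi2 := Real.pi_lt_d4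
  have hτ : 14 ≤ Real.pi ^ 2 / t := by
    rw [le_div_iff₀ h0]
    have := pi2_lo
    nlinarith
  obtain ⟨τ, eτ⟩ : ∃ τ, τ = Real.pi ^ 2 / t := ⟨_, rfl⟩
  have er : Real.pi / t = τ / Real.pi := by
    rw [eτ]; field_simp
  rw [er, ← eτ]
  rw [← eτ] at hτ
  have τp : 0 < τ := by linarith
  have s := S_up (z_half (by linarith : 49 / 5 ≤ τ))
  have k0 : 0 ≤ Tw Qb⁻¹ (fun y => wK (du y)) τ :=
    tsum_nonneg fun y => mul_nonneg (sq_nonneg _) (Real.exp_pos _).le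
  obtain ⟨z, hz⟩ : ∃ z, z = Real.exp (-(τ / 4)) ^ 2 := ⟨_, rfl⟩
  have hz4 : Real.exp (-(τ / 4)) ^ 4 = z ^ 2 := by rw [hz]; ring
  have hze : z = Real.exp (-(τ / 2)) := by
    rw [hz, ← Real.exp_nat_mul]; congr 1; push_cast; ring
  have zp : 0 < z := by rw [hz]; positivity
  rw [hz4, ← hz] at s
  have e7 : Real.exp (-7) ≤ 912 / 1000000 := by
    have h : Real.exp (-7) = Real.exp (-1) ^ 7 := by
      rw [← Real.exp_nat_mul]; congr 1; norm_num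
    rw [h]
    have h2 : Real.exp (-1) ≤ 36788 / 100000 := by
      have := Real.exp_neg_one_lt_d9
      norm_num at this ⊢
      linarith
    refine (pow_le_pow_left₀ (Real.exp_pos _).le h2 7).trans ?_
    norm_num
  have z7 : z ≤ 912 / 1000000 := by
    rw [hze]
    exact (Real.exp_le_exp.2 (by linarith)).trans e7
  have g1 : gE' τ ≤ 27 / 100 * (τ ^ 2 * z) := by
    unfold gE'
    rw [Tw_wE_symm' τp]
    have t1 : τ ^ 2 * (Tw Qb⁻¹ (fun y => wS (du y)) τ / 16) ≤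
        τ ^ 2 * ((4 * z + 320 * z ^ 2) / 16) :=
      mul_le_mul_of_nonneg_left (by linarith) (sq_nonneg _)
    have t2 : 0 ≤ τ * (Tw Qb⁻¹ (fun y => wK (du y)) τ / 4) := by positivity
    have t3 : (4 * z + 320 * z ^ 2) / 16 ≤ 27 / 100 * z := by nlinarith
    have t4 := mul_le_mul_of_nonneg_left t3 (sq_nonneg τ)
    linarith
  obtain ⟨r, hr⟩ : ∃ r, r = τ / Real.pi := ⟨_, rfl⟩
  rw [← hr]
  have hr1 : 441 / 100 ≤ r := by
    rw [hr, le_div_iff₀ Real.pi_pos]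
    nlinarith
  have rp : 0 < r := by linarith
  have r32 : r ^ ((3 : ℝ) / 2) * (21 / 10) ≤ r ^ 2 := by
    have h12 : 21 / 10 ≤ r ^ ((1 : ℝ) / 2) := by
      rw [← Real.sqrt_eq_rpow]
      apply Real.le_sqrt_of_sq_le
      norm_num
      linarith
    have e : r ^ ((3 : ℝ) / 2) * r ^ ((1 : ℝ) / 2) = r ^ 2 := by
      rw [← Real.rpow_add rp, ← Real.rpow_natCast]
      norm_num
    rw [← e]
    exact mul_le_mul_of_nonneg_left h12 (Real.rpow_pos_of_pos rp _).le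
  have r0 : 0 < r ^ ((3 : ℝ) / 2) := Real.rpow_pos_of_pos rp _
  have τ4 : τ ^ 4 * z ≤ 14 ^ 4 * (912 / 1000000) := by
    have h14 : τ / 14 ≤ Real.exp (τ / 14 - 1) := by
      have := Real.add_one_le_exp (τ / 14 - 1)
      linarith
    have h4 : (τ / 14) ^ 4 ≤ Real.exp (τ / 14 - 1) ^ 4 :=
      pow_le_pow_left₀ (by positivity) h14 4
    have e4 : Real.exp (τ / 14 - 1) ^ 4 = Real.exp (4 * (τ / 14 - 1)) := by
      rw [← Real.exp_nat_mul]; norm_num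
    rw [e4] at h4
    have h5 : Real.exp (4 * (τ / 14 - 1)) * z ≤ Real.exp (-7) := by
      rw [hze, ← Real.exp_add]
      exact Real.exp_le_exp.2 (by linarith)
    have h6 := mul_le_mul_of_nonneg_right h4 zp.le
    have h7 : (τ / 14) ^ 4 * z ≤ 912 / 1000000 := h6.trans (h5.trans e7)
    have h8 : (τ / 14) ^ 4 * z = τ ^ 4 * z / 14 ^ 4 := by ring
    rw [h8, div_le_iff₀ (by norm_num)] at h7
    linarith
  have hr2 : r ^ 2 = τ ^ 2 / Real.pi ^ 2 := by rw [hr, div_pow]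
  have p2 : 986 / 100 ≤ Real.pi ^ 2 := by nlinarith
  have f1 : r ^ ((3 : ℝ) / 2) / 4 * gE' τ ≤ r ^ ((3 : ℝ) / 2) / 4 * (27 / 100 * (τ ^ 2 * z)) :=
    mul_le_mul_of_nonneg_left g1 (by positivity)
  have f2 : r ^ ((3 : ℝ) / 2) / 4 ≤ r ^ 2 / (84 / 10) := by linarith
  have f3 : r ^ ((3 : ℝ) / 2) / 4 * (27 / 100 * (τ ^ 2 * z)) ≤
      r ^ 2 / (84 / 10) * (27 / 100 * (τ ^ 2 * z)) :=
    mul_le_mul_of_nonneg_right f2 (by positivity)
  have f4 : r ^ 2 / (84 / 10) * (27 / 100 * (τ ^ 2 * z)) =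
      27 / 840 * (τ ^ 4 * z) / Real.pi ^ 2 := by
    rw [hr2]; ring
  have f5 : 27 / 840 * (τ ^ 4 * z) / Real.pi ^ 2 ≤ 12 / 100 := by
    rw [div_le_iff₀ (by positivity)]
    nlinarith
  linarith

end Pool.Agent.Lib.EPL
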