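import Pool.Agent.Lib.EPL.BMel
import Pool.Agent.Lib.EPL.BPosD
import Pool.Agent.Lib.EPL.BPos

/-!
# EPL.BNum: the signs of the second derivative at `s = 3` and `s = 4`

`mel_gE`. All integrals `∫_a^∞ t^k exp(-c t)` have the antiderivative `-exp(-ct) (t^k/c + k t^(k-1)/c² + ...)`.
`s = 3`: `gE ≥ 0` on `(0,1]` (`gE_pos_small`), so `Γ(4) ME 3 ≥ ∫_1^∞ t² gE`, and on `(1,∞)` (`X = exp(-t)`)
  `t² gE ≥ 32 t⁴ X⁴ - t³ (8 X³ + 8 X⁴ + 32 X⁸ + 107 X¹¹)` (`wS_lower`, `wK_upper`, `Tw_wE_symm`); the integral of the right side is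
  `exp(-4) (25.75 - 4.4375) - 7.703704 exp(-3) - 32 * 0.185059 exp(-8) - 107 * 0.12062 exp(-11) = 0.3903 - 0.3835 - 0.00199 - 0.00022 > 0.004`
  (21.3125 exp(-1) = 7.8404 against 7.7037 + 5.922 exp(-5) + 12.91 exp(-8) = 7.7480).
`s = 4`: `∫_0^(7/10) t³ gE ≤ 0.12 * 0.7⁴/4 = 0.0072030` (`gE_upper`), and on `(7/10, ∞)`
  `t³ gE ≤ t⁵ (32 X⁴ + 64 X⁸ + 535 X¹¹) - t⁴ (8 X³ + 8 X⁴ + 32 X⁸ + 88 X¹¹)` (`wS_upper`, `wK_lower`); the integral of the right side over `(7/10, ∞)` is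
  `-0.0101058`, a polynomial in `y = exp(-7/10) = 0.49658530379` with terms `y³, y⁴, y⁸, y¹¹`
  (parts: `0.876459 + 0.014996 + 0.007983 - 0.741036 - 0.158939 - 0.008019 - 0.001549`), so `Γ(5) ME 4 ≤ -0.0029`. Enclose `y` with error `10^(-7)`
  (e.g. `Real.exp_bound'` for `exp(-7/80)` and 8th power).
-/

open MeasureTheory Set Filter Topology Matrix
open scoped Matrix.Norms.Elementwise

namespace Pool.Agent.Lib.EPL

open Pool.Agent.Lib.EpZ Pool.Agent.Lib.EPS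

namespace BNumAux

/-- the polynomial of the antiderivative -/
noncomputable def P (c : ℝ) : ℕ → ℝ → ℝ
  | 0, _ => 1 / c
  | (k + 1), t => t ^ (k + 1) / c + (k + 1) / c * P c k t

/-- its derivative -/
noncomputable def P' (c : ℝ) : ℕ → ℝ → ℝ
  | 0, _ => 0
  | (k + 1), t => (k + 1) * t ^ k / c + (k + 1) / c * P' c k t

theorem P_deriv (c : ℝ) (k : ℕ) (t : ℝ) : HasDerivAt (P c k) (P' c k t) t := by
  induction k with
  | zero => exact hasDerivAt_const t _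
  | succ k ih =>
    have h1 : HasDerivAt (fun x : ℝ => x ^ (k + 1)) (((k + 1 : ℕ) : ℝ) * t ^ k) t := by
      simpa using hasDerivAt_pow (k + 1) t
    have h2 := (h1.div_const c).add (ih.const_mul ((k + 1 : ℝ) / c))
    have e : P' c (k + 1) t = ((k + 1 : ℕ) : ℝ) * t ^ k / c + (k + 1 : ℝ) / c * P' c k t := by
      simp [P']
    rw [e]
    exact h2

theorem P_rel {c : ℝ} (hc : c ≠ 0) (k : ℕ) (t : ℝ) : c * P c k t - P' c k t = t ^ k := by
  induction k with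
  | zero => simp [P, P', hc]
  | succ k ih =>
    simp only [P, P']
    have : P' c k t = c * P c k t - t ^ k := by linarith
    rw [this]
    field_simp
    ring

theorem P_exp_tendsto {c : ℝ} (hc : 0 < c) (k : ℕ) :
    Tendsto (fun t => -(Real.exp (-(c * t)) * P c k t)) atTop (𝓝 0) := by
  have hb : ∀ j : ℕ, Tendsto (fun t : ℝ => t ^ j * Real.exp (-(c * t))) atTop (𝓝 0) := by
    intro j
    have := tendsto_rpow_mul_exp_neg_mul_atTop_nhds_zero (j : ℝ) c hc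
    refine this.congr fun t => ?_
    rw [Real.rpow_natCast]
    congr 2
    ring
  have h : Tendsto (fun t => Real.exp (-(c * t)) * P c k t) atTop (𝓝 0) := by
    induction k with
    | zero =>
      have := (hb 0).mul_const (1 / c)
      simp only [zero_mul] at this
      refine this.congr fun t => ?_
      simp [P]
    | succ k ih =>
      have h1 := ((hb (k + 1)).mul_const (1 / c)).add (ih.const_mul ((k + 1 : ℝ) / c))
      simp only [zero_mul, mul_zero, add_zero] at h1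
      refine h1.congr fun t => ?_
      simp only [P]
      ring
  simpa using h.neg

theorem J {c : ℝ} (hc : 0 < c) (k : ℕ) {a : ℝ} (ha : 0 ≤ a) :
    IntegrableOn (fun t : ℝ => t ^ k * Real.exp (-(c * t))) (Ioi a) ∧
      ∫ t in Ioi a, t ^ k * Real.exp (-(c * t)) = Real.exp (-(c * a)) * P c k a := by
  have hd : ∀ t ∈ Ici a, HasDerivAt (fun t => -(Real.exp (-(c * t)) * P c k t))
      (t ^ k * Real.exp (-(c * t))) t := by
    intro t _
    have h1 : HasDerivAt (fun x : ℝ => Real.exp (-(c * x))) (Real.exp (-(c * t)) * (-(c * 1))) t :=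
      (((hasDerivAt_id t).const_mul c).neg).exp
    have h2 := (h1.mul (P_deriv c k t)).neg
    refine h2.congr_deriv ?_
    rw [← P_rel hc.ne' k t]
    ring
  have hp : ∀ t ∈ Ioi a, 0 ≤ t ^ k * Real.exp (-(c * t)) := fun t ht => by
    have : 0 ≤ t := ha.trans (le_of_lt ht)
    positivity
  refine ⟨integrableOn_Ioi_deriv_of_nonneg' hd hp (P_exp_tendsto hc k), ?_⟩
  rw [integral_Ioi_of_hasDerivAt_of_nonneg' hd hp (P_exp_tendsto hc k)]
  ring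

theorem expp (t : ℝ) (n : ℕ) : Real.exp (-t) ^ n = Real.exp (-((n : ℝ) * t)) := by
  rw [← Real.exp_nat_mul]
  congr 1
  ring

theorem J' (n : ℕ) (hn : 0 < n) (k : ℕ) {a : ℝ} (ha : 0 ≤ a) :
    IntegrableOn (fun t : ℝ => t ^ k * Real.exp (-t) ^ n) (Ioi a) ∧
      ∫ t in Ioi a, t ^ k * Real.exp (-t) ^ n = Real.exp (-a) ^ n * P n k a := by
  have hn' : (0 : ℝ) < n := by exact_mod_cast hn
  obtain ⟨h1, h2⟩ := J hn' k ha
  have e : (fun t : ℝ => t ^ k * Real.exp (-t) ^ n) =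
      fun t : ℝ => t ^ k * Real.exp (-((n : ℝ) * t)) := by
    funext t
    rw [expp]
  rw [e, expp]
  exact ⟨h1, h2⟩

theorem y_bounds : 0.4965853037 < Real.exp (-(7 / 10 : ℝ)) ∧
    Real.exp (-(7 / 10 : ℝ)) < 0.4965853039 := by
  have h1 := Real.exp_neg_one_gt_d9
  have h2 := Real.exp_neg_one_lt_d9
  have e : Real.exp (-(7 / 10 : ℝ)) ^ 10 = Real.exp (-1) ^ 7 := by
    rw [← Real.exp_nat_mul, ← Real.exp_nat_mul]
    congr 1
    norm_num
  have hp := Real.exp_pos (-(7 / 10 : ℝ))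
  have hp1 := Real.exp_pos (-1 : ℝ)
  constructor
  · by_contra hcon
    push Not at hcon
    have h3 : Real.exp (-(7 / 10 : ℝ)) ^ 10 ≤ 0.4965853037 ^ 10 := pow_le_pow_left₀ hp.le hcon 10
    have h4 : (0.36787944116 : ℝ) ^ 7 ≤ Real.exp (-1) ^ 7 :=
      pow_le_pow_left₀ (by norm_num) h1.le 7
    rw [e] at h3
    have h5 : (0.4965853037 : ℝ) ^ 10 < 0.36787944116 ^ 7 := by norm_num
    linarith
  · by_contra hcon
    push Not at hcon
    have h3 : (0.4965853039 : ℝ) ^ 10 ≤ Real.exp (-(7 / 10 : ℝ)) ^ 10 :=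
      pow_le_pow_left₀ (by norm_num) hcon 10
    have h4 : Real.exp (-1) ^ 7 ≤ (0.3678794412 : ℝ) ^ 7 :=
      pow_le_pow_left₀ hp1.le h2.le 7
    rw [e] at h3
    have h5 : (0.3678794412 : ℝ) ^ 7 < 0.4965853039 ^ 10 := by norm_num
    linarith

/-- integrable with a given integral -/
def HI (a : ℝ) (f : ℝ → ℝ) (v : ℝ) : Prop := IntegrableOn f (Ioi a) ∧ ∫ t in Ioi a, f t = v

theorem HI.add {a : ℝ} {f g : ℝ → ℝ} {u v : ℝ} (h1 : HI a f u) (h2 : HI a g v) :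
    HI a (fun t => f t + g t) (u + v) :=
  ⟨h1.1.add h2.1, by rw [← h1.2, ← h2.2]; exact integral_add h1.1 h2.1⟩

theorem HI.sub {a : ℝ} {f g : ℝ → ℝ} {u v : ℝ} (h1 : HI a f u) (h2 : HI a g v) :
    HI a (fun t => f t - g t) (u - v) :=
  ⟨h1.1.sub h2.1, by rw [← h1.2, ← h2.2]; exact integral_sub h1.1 h2.1⟩

theorem HI.cmul {a : ℝ} {f : ℝ → ℝ} {u : ℝ} (c : ℝ) (h1 : HI a f u) :
    HI a (fun t => c * f t) (c * u) :=
  ⟨h1.1.const_mul c, by rw [← h1.2]; exact integral_const_mul c f⟩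

theorem JH (n : ℕ) (hn : 0 < n) (k : ℕ) {a : ℝ} (ha : 0 ≤ a) :
    HI a (fun t : ℝ => t ^ k * Real.exp (-t) ^ n) (Real.exp (-a) ^ n * P n k a) :=
  J' n hn k ha

end BNumAux

open BNumAux

theorem ME_three : 0 < ME 3 := by
  obtain ⟨hi, hv⟩ := mel_gE (s := 3) (by norm_num)
  have hG : 0 < Real.Gamma ((3 : ℝ) + 1) := Real.Gamma_pos_of_pos (by norm_num)
  refine pos_of_mul_pos_right ?_ hG.le
  rw [← hv]
  have e : (fun t : ℝ => t ^ ((3 : ℝ) - 1) * gE t) = fun t : ℝ => t ^ 2 * gE t := by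
    funext t
    rw [show (3 : ℝ) - 1 = ((2 : ℕ) : ℝ) by norm_num, Real.rpow_natCast]
  rw [e] at hi ⊢
  have hu : Ioi (0 : ℝ) = Ioc 0 1 ∪ Ioi 1 := (Ioc_union_Ioi_eq_Ioi (by norm_num)).symm
  rw [hu, setIntegral_union (by
      rw [Set.disjoint_left]
      intro x hx hx'
      exact absurd hx.2 (not_le.2 hx')) measurableSet_Ioi
    (hi.mono_set Ioc_subset_Ioi_self)
    (hi.mono_set (Ioi_subset_Ioi (by norm_num)))]
  have h1 : 0 ≤ ∫ t in Ioc (0 : ℝ) 1, t ^ 2 * gE t := by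
    refine setIntegral_nonneg measurableSet_Ioc fun t ht => ?_
    have := gE_pos_small ht.1 ht.2
    positivity
  have a0 : (0 : ℝ) ≤ 1 := by norm_num
  obtain ⟨hr, h3⟩ := ((JH 4 (by norm_num) 4 a0).cmul 32).sub
    (((((JH 3 (by norm_num) 3 a0).cmul 8).add ((JH 4 (by norm_num) 3 a0).cmul 8)).add
      ((JH 8 (by norm_num) 3 a0).cmul 32)).add ((JH 11 (by norm_num) 3 a0).cmul 107))
  have h2 : ∫ t in Ioi (1 : ℝ), (32 * (t ^ 4 * Real.exp (-t) ^ 4) -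
      (8 * (t ^ 3 * Real.exp (-t) ^ 3) + 8 * (t ^ 3 * Real.exp (-t) ^ 4) +
        32 * (t ^ 3 * Real.exp (-t) ^ 8) + 107 * (t ^ 3 * Real.exp (-t) ^ 11))) ≤
      ∫ t in Ioi (1 : ℝ), t ^ 2 * gE t := by
    refine setIntegral_mono_on hr (hi.mono_set (Ioi_subset_Ioi (by norm_num)))
      measurableSet_Ioi fun t ht => ?_
    have ht' : (1 : ℝ) < t := ht
    have a1 := wS_lower (t := t) (by linarith)
    have a2 := wK_upper (t := t) (by linarith)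
    unfold gE
    rw [Tw_wE_symm (by linarith)]
    have b1 := mul_le_mul_of_nonneg_left a1 (show (0 : ℝ) ≤ t ^ 4 by positivity)
    have b2 := mul_le_mul_of_nonneg_left a2 (show (0 : ℝ) ≤ t ^ 3 by positivity)
    nlinarith
  have h4 : 0 < 32 * (Real.exp (-1) ^ 4 * P 4 4 1) - (8 * (Real.exp (-1) ^ 3 * P 3 3 1) +
        8 * (Real.exp (-1) ^ 4 * P 4 3 1) + 32 * (Real.exp (-1) ^ 8 * P 8 3 1) +
        107 * (Real.exp (-1) ^ 11 * P 11 3 1)) := by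
    have y1 := Real.exp_neg_one_gt_d9
    have y2 := Real.exp_neg_one_lt_d9
    have yp := Real.exp_pos (-1 : ℝ)
    obtain ⟨y, hy⟩ : ∃ y, y = Real.exp (-1 : ℝ) := ⟨_, rfl⟩
    rw [← hy] at y1 y2 yp ⊢
    have e1 : 32 * (y ^ 4 * P 4 4 1) - (8 * (y ^ 3 * P 3 3 1) +
        8 * (y ^ 4 * P 4 3 1) + 32 * (y ^ 8 * P 8 3 1) + 107 * (y ^ 11 * P 11 3 1)) =
        y ^ 3 * ((32 * P 4 4 1 - 8 * P 4 3 1) * y - 8 * P 3 3 1 - 32 * P 8 3 1 * y ^ 5 -
          107 * P 11 3 1 * y ^ 8) := by ring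
    rw [e1]
    refine mul_pos (by positivity) ?_
    have y5 : y ^ 5 ≤ 0.3678794412 ^ 5 := pow_le_pow_left₀ yp.le y2.le 5
    have y8 : y ^ 8 ≤ 0.3678794412 ^ 8 := pow_le_pow_left₀ yp.le y2.le 8
    norm_num [P] at y5 y8 ⊢
    nlinarith
  push_cast at h3
  linarith

theorem ME_four : ME 4 < 0 := by
  obtain ⟨hi, hv⟩ := mel_gE (s := 4) (by norm_num)
  have hG : 0 < Real.Gamma ((4 : ℝ) + 1) := Real.Gamma_pos_of_pos (by norm_num)
  refine neg_of_mul_neg_right ?_ hG.le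
  rw [← hv]
  have e : (fun t : ℝ => t ^ ((4 : ℝ) - 1) * gE t) = fun t : ℝ => t ^ 3 * gE t := by
    funext t
    rw [show (4 : ℝ) - 1 = ((3 : ℕ) : ℝ) by norm_num, Real.rpow_natCast]
  rw [e] at hi ⊢
  have hu : Ioi (0 : ℝ) = Ioc 0 (7 / 10) ∪ Ioi (7 / 10) :=
    (Ioc_union_Ioi_eq_Ioi (by norm_num)).symm
  rw [hu, setIntegral_union (by
      rw [Set.disjoint_left]
      intro x hx hx'
      exact absurd hx.2 (not_le.2 hx')) measurableSet_Ioi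
    (hi.mono_set Ioc_subset_Ioi_self)
    (hi.mono_set (Ioi_subset_Ioi (by norm_num)))]
  have h1 : ∫ t in Ioc (0 : ℝ) (7 / 10), t ^ 3 * gE t ≤ 12 / 100 * ((7 / 10) ^ 4 / 4) := by
    have k1 : ∫ t in Ioc (0 : ℝ) (7 / 10), t ^ 3 * gE t ≤
        ∫ t in Ioc (0 : ℝ) (7 / 10), t ^ 3 * (12 / 100) := by
      refine setIntegral_mono_on (hi.mono_set Ioc_subset_Ioi_self)
        ((Continuous.integrableOn_Ioc (by fun_prop))) measurableSet_Ioc fun t ht => ?_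
      have := gE_upper ht.1 ht.2
      have ht0 := ht.1
      exact mul_le_mul_of_nonneg_left this (by positivity)
    refine k1.trans (le_of_eq ?_)
    rw [← intervalIntegral.integral_of_le (by norm_num)]
    rw [intervalIntegral.integral_mul_const, integral_pow]
    norm_num
  have a0 : (0 : ℝ) ≤ 7 / 10 := by norm_num
  obtain ⟨hr, h3⟩ := ((((JH 4 (by norm_num) 5 a0).cmul 32).add
    ((JH 8 (by norm_num) 5 a0).cmul 64)).add ((JH 11 (by norm_num) 5 a0).cmul 535)).sub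
    (((((JH 3 (by norm_num) 4 a0).cmul 8).add ((JH 4 (by norm_num) 4 a0).cmul 8)).add
      ((JH 8 (by norm_num) 4 a0).cmul 32)).add ((JH 11 (by norm_num) 4 a0).cmul 88))
  have h2 : ∫ t in Ioi (7 / 10 : ℝ), t ^ 3 * gE t ≤
      ∫ t in Ioi (7 / 10 : ℝ), ((32 * (t ^ 5 * Real.exp (-t) ^ 4) +
      64 * (t ^ 5 * Real.exp (-t) ^ 8) + 535 * (t ^ 5 * Real.exp (-t) ^ 11)) -
      (8 * (t ^ 4 * Real.exp (-t) ^ 3) + 8 * (t ^ 4 * Real.exp (-t) ^ 4) +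
        32 * (t ^ 4 * Real.exp (-t) ^ 8) + 88 * (t ^ 4 * Real.exp (-t) ^ 11))) := by
    refine setIntegral_mono_on (hi.mono_set (Ioi_subset_Ioi (by norm_num))) hr
      measurableSet_Ioi fun t ht => ?_
    have ht' : (7 / 10 : ℝ) < t := ht
    have a1 := wS_upper (t := t) (by linarith)
    have a2 := wK_lower (t := t) (by linarith)
    unfold gE
    rw [Tw_wE_symm (by linarith)]
    have b1 := mul_le_mul_of_nonneg_left a1 (show (0 : ℝ) ≤ t ^ 5 by positivity)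
    have b2 := mul_le_mul_of_nonneg_left a2 (show (0 : ℝ) ≤ t ^ 4 by positivity)
    nlinarith
  have h4 : 12 / 100 * ((7 / 10) ^ 4 / 4) + ((32 * (Real.exp (-(7 / 10)) ^ 4 * P 4 5 (7 / 10)) +
      64 * (Real.exp (-(7 / 10)) ^ 8 * P 8 5 (7 / 10)) +
      535 * (Real.exp (-(7 / 10)) ^ 11 * P 11 5 (7 / 10))) -
      (8 * (Real.exp (-(7 / 10)) ^ 3 * P 3 4 (7 / 10)) +
        8 * (Real.exp (-(7 / 10)) ^ 4 * P 4 4 (7 / 10)) +
        32 * (Real.exp (-(7 / 10)) ^ 8 * P 8 4 (7 / 10)) +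
        88 * (Real.exp (-(7 / 10)) ^ 11 * P 11 4 (7 / 10)))) < 0 := by
    obtain ⟨y1, y2⟩ := y_bounds
    have yp := Real.exp_pos (-(7 / 10) : ℝ)
    obtain ⟨y, hy⟩ : ∃ y, y = Real.exp (-(7 / 10) : ℝ) := ⟨_, rfl⟩
    rw [← hy] at y1 y2 yp ⊢
    have y3 : (0.4965853037 : ℝ) ^ 3 ≤ y ^ 3 := pow_le_pow_left₀ (by norm_num) y1.le 3
    have y4 : (0.4965853037 : ℝ) ^ 4 ≤ y ^ 4 := pow_le_pow_left₀ (by norm_num) y1.le 4
    have y8 : (0.4965853037 : ℝ) ^ 8 ≤ y ^ 8 := pow_le_pow_left₀ (by norm_num) y1.le 8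
    have yb : (0.4965853037 : ℝ) ^ 11 ≤ y ^ 11 := pow_le_pow_left₀ (by norm_num) y1.le 11
    have z3 : y ^ 3 ≤ (0.4965853039 : ℝ) ^ 3 := pow_le_pow_left₀ yp.le y2.le 3
    have z4 : y ^ 4 ≤ (0.4965853039 : ℝ) ^ 4 := pow_le_pow_left₀ yp.le y2.le 4
    have z8 : y ^ 8 ≤ (0.4965853039 : ℝ) ^ 8 := pow_le_pow_left₀ yp.le y2.le 8
    have zb : y ^ 11 ≤ (0.4965853039 : ℝ) ^ 11 := pow_le_pow_left₀ yp.le y2.le 11
    obtain ⟨a, ha⟩ : ∃ a, a = y ^ 3 := ⟨_, rfl⟩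
    obtain ⟨b, hb⟩ : ∃ b, b = y ^ 4 := ⟨_, rfl⟩
    obtain ⟨c, hc⟩ : ∃ c, c = y ^ 8 := ⟨_, rfl⟩
    obtain ⟨d, hd⟩ : ∃ d, d = y ^ 11 := ⟨_, rfl⟩
    rw [← ha] at y3 z3 ⊢
    rw [← hb] at y4 z4 ⊢
    rw [← hc] at y8 z8 ⊢
    rw [← hd] at yb zb ⊢
    norm_num [P] at y3 y4 y8 yb z3 z4 z8 zb ⊢
    linarith
  push_cast at h3
  linarith

end Pool.Agent.Lib.EPL
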