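import Pool.Agent.Lib.EPL.Second

/-!
# EPL.BPath: the second order condition along a single (one-sided) path
-/

open Filter Topology Matrix
open scoped Matrix.Norms.Elementwise

namespace Pool.Agent.Lib.EPL

open Pool.Agent.Lib.EpZ Pool.Agent.Lib.EPS

/-- the second order condition along one path -/
theorem second_of_path {Q : Mx 3} (hQ : PD Q) {H K : Mx 3} (hH : H.IsSymm)
    (htr : (Q⁻¹ * H).trace = 0) {s : ℝ} (hs : 3 / 2 < s) (hCr : Crit s Q) {P : ℝ → Mx 3}
    {C r : ℝ} (hr : 0 < r) (hPe : ∀ e : ℝ, |e| ≤ r →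
      (P e).IsSymm ∧ (P e).det = Q.det ∧ ‖P e - (Q + e • H + e ^ 2 • K)‖ ≤ C * |e| ^ 3)
    (hm : ∀ e : ℝ, 0 < e → e ≤ r → En s Q ≤ En s (P e)) :
    0 ≤ ∑' x : NZ 3, (s * (s + 1) / 2 * (qf Q x.1 ^ (-s) * (qf H x.1 / qf Q x.1) ^ 2) -
      s * (qf Q x.1 ^ (-s) * (qf K x.1 / qf Q x.1))) := by
  obtain ⟨c, hc, hl⟩ := hQ.low
  obtain ⟨D, hD, ρ, hρ, hρ1, hexp⟩ := rpow_expand (s := s) (by linarith)
  obtain ⟨ε, hε⟩ : ∃ ε : ℝ, 0 < ε := ⟨1, one_pos⟩
  obtain ⟨q, hq, hpd⟩ := pd_near hQ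
  have hC : 0 ≤ |C| := abs_nonneg _
  -- constants
  set A : ℝ := 3 * ‖H‖ / c + 3 * ‖K‖ / c + 3 * |C| / c + 1 with hA
  have hA0 : 0 < A := by positivity
  set S0 : ℝ := ∑' x : NZ 3, qf Q x.1 ^ (-s) with hS0
  have hsm : (3 : ℝ) / 2 < s := hs
  have hd : ((3 : ℕ) : ℝ) / 2 < s := by norm_num; exact hs
  have hS := hQ.summable hd
  have hS2 := hl.summable_mul_sq hc hd H
  have hS1 := hl.summable_mul hc hd H
  have hS3 := hl.summable_mul hc hd K
  have hS00 : 0 ≤ S0 := tsum_nonneg fun x => Real.rpow_nonneg (hQ.pos x).le _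
  have hT : Summable fun x : NZ 3 => (s * (s + 1) / 2 * (qf Q x.1 ^ (-s) *
      (qf H x.1 / qf Q x.1) ^ 2) - s * (qf Q x.1 ^ (-s) * (qf K x.1 / qf Q x.1))) :=
    (hS2.mul_left _).sub (hS3.mul_left _)
  set T : ℝ := ∑' x : NZ 3, (s * (s + 1) / 2 * (qf Q x.1 ^ (-s) * (qf H x.1 / qf Q x.1) ^ 2) -
      s * (qf Q x.1 ^ (-s) * (qf K x.1 / qf Q x.1))) with hTd
  have hcrit : ∑' x : NZ 3, qf Q x.1 ^ (-s) * (qf H x.1 / qf Q x.1) = 0 := by
    have h1 := hCr H hH
    rw [h1, htr]
    simp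
  -- the ratios
  have hrH : ∀ x : NZ 3, |qf H x.1 / qf Q x.1| ≤ A := fun x => by
    have := hl.ratio hc H x
    have h1 : (((3 : ℕ) : ℝ)) * ‖H‖ / c ≤ A := by
      rw [hA]; push_cast
      have : 0 ≤ 3 * ‖K‖ / c := by positivity
      have : 0 ≤ 3 * |C| / c := by positivity
      linarith
    linarith
  have hrK : ∀ x : NZ 3, |qf K x.1 / qf Q x.1| ≤ A := fun x => by
    have := hl.ratio hc K x
    have h1 : (((3 : ℕ) : ℝ)) * ‖K‖ / c ≤ A := by
      rw [hA]; push_cast
      have : 0 ≤ 3 * ‖H‖ / c := by positivity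
      have : 0 ≤ 3 * |C| / c := by positivity
      linarith
    linarith
  -- the key estimate
  have key : ∃ E > 0, ∃ δ > 0, ∀ e : ℝ, 0 < e → e ≤ δ → 0 ≤ e ^ 2 * T + E * e ^ 3 := by
    refine ⟨(s * A + s * (s + 1) / 2 * (8 * A ^ 2) +
      D * (3 * A) ^ 3 + 1) * (S0 + 1), by positivity, min 1 (min r (min (ρ / (3 * A))
        (min (ε / (2 * ((‖H‖ + ‖K‖ + |C|) + 1))) (q / (2 * ((‖H‖ + ‖K‖ + |C|) + 1)))))),
      by positivity, ?_⟩
    intro e he hle
    have he1 : e ≤ 1 := hle.trans (min_le_left _ _)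
    have he2 : e ≤ r := (hle.trans (min_le_right _ _)).trans (min_le_left _ _)
    have he3 : e ≤ ρ / (3 * A) :=
      ((hle.trans (min_le_right _ _)).trans (min_le_right _ _)).trans (min_le_left _ _)
    have he4 : e ≤ ε / (2 * ((‖H‖ + ‖K‖ + |C|) + 1)) :=
      (((hle.trans (min_le_right _ _)).trans (min_le_right _ _)).trans (min_le_right _ _)).trans
        (min_le_left _ _)
    have he5 : e ≤ q / (2 * ((‖H‖ + ‖K‖ + |C|) + 1)) :=
      (((hle.trans (min_le_right _ _)).trans (min_le_right _ _)).trans (min_le_right _ _)).trans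
        (min_le_right _ _)
    obtain ⟨hsym, hdet, hnorm⟩ := hPe e (by rw [abs_of_pos he]; exact he2)
    rw [abs_of_pos he] at hnorm
    have hCle : C ≤ |C| := le_abs_self C
    have hnorm' : ‖P e - (Q + e • H + e ^ 2 • K)‖ ≤ |C| * e ^ 3 :=
      hnorm.trans (mul_le_mul_of_nonneg_right hCle (by positivity))
    have he23 : e ^ 2 ≤ e := by nlinarith
    have he33 : e ^ 3 ≤ e := by nlinarith [mul_nonneg he.le (sub_nonneg.mpr he23)]
    have hdist : ‖P e - Q‖ ≤ e * (‖H‖ + ‖K‖ + |C|) := by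
      have h1 : P e - Q = (P e - (Q + e • H + e ^ 2 • K)) + (e • H + e ^ 2 • K) := by abel
      rw [h1]
      refine (norm_add_le _ _).trans ?_
      have h2 : ‖e • H + e ^ 2 • K‖ ≤ e * ‖H‖ + e * ‖K‖ := by
        refine (norm_add_le _ _).trans (add_le_add ?_ ?_)
        · rw [norm_smul, Real.norm_of_nonneg he.le]
        · rw [norm_smul, Real.norm_of_nonneg (by positivity)]
          exact mul_le_mul_of_nonneg_right he23 (norm_nonneg _)
      have h3 : |C| * e ^ 3 ≤ |C| * e := mul_le_mul_of_nonneg_left he33 hC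
      nlinarith
    have hN : 0 ≤ ‖H‖ + ‖K‖ + |C| := by positivity
    have hPD : PD (P e) := by
      refine hpd _ hsym (hdist.trans ?_)
      calc e * (‖H‖ + ‖K‖ + |C|) ≤ q / (2 * ((‖H‖ + ‖K‖ + |C|) + 1)) * ((‖H‖ + ‖K‖ + |C|) + 1) :=
            mul_le_mul he5 (by linarith) hN (by positivity)
        _ = q / 2 := by field_simp
        _ ≤ q := by linarith
    have hlt : ‖P e - Q‖ < ε := by
      refine lt_of_le_of_lt hdist ?_
      calc e * (‖H‖ + ‖K‖ + |C|) ≤ ε / (2 * ((‖H‖ + ‖K‖ + |C|) + 1)) * ((‖H‖ + ‖K‖ + |C|) + 1) :=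
            mul_le_mul he4 (by linarith) hN (by positivity)
        _ = ε / 2 := by field_simp
        _ < ε := by linarith
    have hEn := hm e he he2
    have hF : F s Q ≤ F s (P e) := by
      unfold En at hEn
      rw [hdet] at hEn
      exact le_of_mul_le_mul_right hEn (Real.rpow_pos_of_pos hQ.det_pos _)
    -- termwise
    set B : ℝ := s * A + s * (s + 1) / 2 * (8 * A ^ 2) + D * (3 * A) ^ 3 + 1 with hB
    have hterm : ∀ x : NZ 3, qf (P e) x.1 ^ (-s) ≤ qf Q x.1 ^ (-s) -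
        s * e * (qf Q x.1 ^ (-s) * (qf H x.1 / qf Q x.1)) +
        e ^ 2 * (s * (s + 1) / 2 * (qf Q x.1 ^ (-s) * (qf H x.1 / qf Q x.1) ^ 2) -
          s * (qf Q x.1 ^ (-s) * (qf K x.1 / qf Q x.1))) + B * e ^ 3 * qf Q x.1 ^ (-s) := by
      intro x
      have hp := hQ.pos x
      set h : ℝ := qf H x.1 / qf Q x.1 with hh
      set k : ℝ := qf K x.1 / qf Q x.1 with hk
      set R : ℝ := (qf (P e) x.1 - (qf Q x.1 + e * qf H x.1 + e ^ 2 * qf K x.1)) / qf Q x.1 with hR
      have hRb : |R| ≤ A * e ^ 3 := by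
        have h1 : qf (P e) x.1 - (qf Q x.1 + e * qf H x.1 + e ^ 2 * qf K x.1) =
            qf (P e - (Q + e • H + e ^ 2 • K)) x.1 := by
          rw [qf_sub, qf_add, qf_add, qf_smul, qf_smul]
        rw [hR, h1]
        refine (hl.ratio hc _ x).trans ?_
        rw [div_le_iff₀ hc]
        push_cast
        have h2 : 3 * ‖P e - (Q + e • H + e ^ 2 • K)‖ ≤ 3 * (|C| * e ^ 3) :=
          mul_le_mul_of_nonneg_left hnorm' (by norm_num)
        refine h2.trans ?_
        have h3 : 3 * |C| ≤ A * c := by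
          rw [hA]
          have h4 : 3 * |C| / c * c = 3 * |C| := by field_simp
          have h5 : 0 ≤ 3 * ‖H‖ / c * c := by positivity
          have h6 : 0 ≤ 3 * ‖K‖ / c * c := by positivity
          nlinarith
        have h4 : 0 ≤ e ^ 3 := by positivity
        nlinarith
      set y : ℝ := e * h + e ^ 2 * k + R with hy
      have hval : qf (P e) x.1 = qf Q x.1 * (1 + y) := by
        rw [hy, hh, hk, hR]
        field_simp
        ring
      have hh1 : |h| ≤ A := hrH x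
      have hk1 : |k| ≤ A := hrK x
      have hyb : |y| ≤ 3 * A * e := by
        have h1 : |y| ≤ |e * h| + |e ^ 2 * k| + |R| := by
          rw [hy]
          exact (abs_add_le _ _).trans (by linarith [abs_add_le (e * h) (e ^ 2 * k)])
        rw [abs_mul, abs_mul, abs_of_pos he, abs_of_nonneg (by positivity : 0 ≤ e ^ 2)] at h1
        have h2 : e * |h| ≤ e * A := mul_le_mul_of_nonneg_left hh1 he.le
        have h3 : e ^ 2 * |k| ≤ e * A := mul_le_mul he23 hk1 (abs_nonneg _) he.le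
        have h4 : A * e ^ 3 ≤ A * e := mul_le_mul_of_nonneg_left he33 hA0.le
        linarith
      have hyρ : |y| ≤ ρ := by
        refine hyb.trans ?_
        calc 3 * A * e ≤ 3 * A * (ρ / (3 * A)) := mul_le_mul_of_nonneg_left he3 (by positivity)
          _ = ρ := by field_simp
      have hx := hexp y hyρ
      have h1y : 0 ≤ 1 + y := by
        have := (abs_le.mp (hyρ.trans hρ1)).1
        linarith
      have hy3 : |y| ^ 3 ≤ (3 * A) ^ 3 * e ^ 3 := by
        calc |y| ^ 3 ≤ (3 * A * e) ^ 3 := pow_le_pow_left₀ (abs_nonneg _) hyb 3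
          _ = _ := by ring
      have hy1 : -y ≤ -(e * h) - e ^ 2 * k + A * e ^ 3 := by
        have := (abs_le.mp hRb).1
        rw [hy]; linarith
      have hy2 : y ^ 2 ≤ e ^ 2 * h ^ 2 + 8 * A ^ 2 * e ^ 3 := by
        have h1 : |y - e * h| ≤ 2 * A * e ^ 2 := by
          have h2 : y - e * h = e ^ 2 * k + R := by rw [hy]; ring
          rw [h2]
          refine (abs_add_le _ _).trans ?_
          rw [abs_mul, abs_of_nonneg (by positivity : 0 ≤ e ^ 2)]
          have h3 : e ^ 2 * |k| ≤ e ^ 2 * A := mul_le_mul_of_nonneg_left hk1 (by positivity)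
          have h4 : A * e ^ 3 ≤ A * e ^ 2 := by
            refine mul_le_mul_of_nonneg_left ?_ hA0.le
            nlinarith [sq_nonneg e]
          linarith
        have h2 : y ^ 2 = e ^ 2 * h ^ 2 + (y - e * h) * (y + e * h) := by ring
        have h3 : |y + e * h| ≤ 4 * A * e := by
          refine (abs_add_le _ _).trans ?_
          rw [abs_mul e h, abs_of_pos he]
          have := mul_le_mul_of_nonneg_left hh1 he.le
          linarith
        have h4 : (y - e * h) * (y + e * h) ≤ 2 * A * e ^ 2 * (4 * A * e) := by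
          refine (le_abs_self _).trans ?_
          rw [abs_mul]
          exact mul_le_mul h1 h3 (abs_nonneg _) (by positivity)
        rw [h2]
        have h5 : 2 * A * e ^ 2 * (4 * A * e) = 8 * A ^ 2 * e ^ 3 := by ring
        linarith
      rw [hval, Real.mul_rpow hp.le h1y]
      have hQs : 0 ≤ qf Q x.1 ^ (-s) := Real.rpow_nonneg hp.le _
      have hfin : (1 + y) ^ (-s) ≤ 1 - s * e * h + e ^ 2 * (s * (s + 1) / 2 * h ^ 2 - s * k) +
          B * e ^ 3 := by
        have g1 : s * -y ≤ s * (-(e * h) - e ^ 2 * k + A * e ^ 3) :=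
          mul_le_mul_of_nonneg_left hy1 (by linarith)
        have g2 : s * (s + 1) / 2 * y ^ 2 ≤ s * (s + 1) / 2 * (e ^ 2 * h ^ 2 +
            8 * A ^ 2 * e ^ 3) := mul_le_mul_of_nonneg_left hy2 (by positivity)
        have g3 : D * |y| ^ 3 ≤ D * ((3 * A) ^ 3 * e ^ 3) := mul_le_mul_of_nonneg_left hy3 hD.le
        have g4 : 0 ≤ e ^ 3 := by positivity
        rw [hB]
        linarith
      calc qf Q x.1 ^ (-s) * (1 + y) ^ (-s) ≤ qf Q x.1 ^ (-s) * (1 - s * e * h +
            e ^ 2 * (s * (s + 1) / 2 * h ^ 2 - s * k) + B * e ^ 3) :=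
            mul_le_mul_of_nonneg_left hfin hQs
        _ = _ := by ring
    have hsum := (hPD.summable hd).tsum_le_tsum hterm
      ((((hS.sub (hS1.mul_left (s * e))).add (hT.mul_left (e ^ 2)))).add (hS.mul_left (B * e ^ 3)))
    rw [((hS.sub (hS1.mul_left (s * e))).add (hT.mul_left (e ^ 2))).tsum_add
      (hS.mul_left (B * e ^ 3)), (hS.sub (hS1.mul_left (s * e))).tsum_add (hT.mul_left (e ^ 2)),
      hS.tsum_sub (hS1.mul_left (s * e)), tsum_mul_left, tsum_mul_left, tsum_mul_left,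
      ← hTd, ← hS0, hcrit] at hsum
    have hF' : S0 ≤ ∑' x : NZ 3, qf (P e) x.1 ^ (-s) := hF
    have hBpos : 0 ≤ B := by positivity
    have g4 : 0 ≤ e ^ 3 := by positivity
    nlinarith [mul_nonneg hBpos g4]
  obtain ⟨E, hE, δ, hδ, hk⟩ := key
  by_contra hneg
  push Not at hneg
  have hT0 : T < 0 := hneg
  set e : ℝ := min δ (-T / (2 * E)) with he
  have he0 : 0 < e := lt_min hδ (by have : 0 < -T := by linarith
                                    positivity)
  have h1 := hk e he0 (min_le_left _ _)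
  have h2 : e * (2 * E) ≤ -T := by
    have := min_le_right δ (-T / (2 * E))
    rw [← he] at this
    rwa [le_div_iff₀ (by positivity)] at this
  have h3 : 0 < e ^ 2 := by positivity
  nlinarith

end Pool.Agent.Lib.EPL
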