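import Pool.Agent.Lib.EPL.BSeg
import Pool.Agent.Lib.EPC.Defs
import Pool.Agent.Lib.EpZ.Gram2

/-!
# EPL.BQt: the field `bcc` of the classification from the segment theorem

`EPC.Qt 1 x` is `Qc x` with the first and the third basis vector exchanged.
-/

open Matrix
open scoped Matrix.Norms.Elementwise

namespace Pool.Agent.Lib.EPL

open Pool.Agent.Lib.EpZ Pool.Agent.Lib.EPS

namespace BQtAux

/-- exchange of the first and the third basis vector -/
def U : Matrix (Fin 3) (Fin 3) ℤ := !![0, 0, 1; 0, 1, 0; 1, 0, 0]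

theorem det_U : U.det = -1 := by decide

theorem act_U (x : ℝ) : act U (Qc x) = EPC.Qt 1 x := by
  unfold act U Qc EPC.Qt
  ext i j
  fin_cases i <;> fin_cases j <;>
    simp [Matrix.mul_apply, Fin.sum_univ_three]

theorem eqv (x : ℝ) : Eqv (Qc x) (EPC.Qt 1 x) :=
  ⟨U, by rw [det_U]; exact isUnit_one.neg, (act_U x).symm⟩

end BQtAux

/-- `EPC.Qt 1 x` and `Qc x` have the same energy -/
theorem En_Qt (s x : ℝ) : En s (EPC.Qt 1 x) = En s (Qc x) := En_eqv (BQtAux.eqv x) s

/-- the bcc lattice is a local minimum exactly below the critical exponent -/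
theorem bcc_of_seg
    (hseg : ∀ x s : ℝ, 1 < x → x < 2 → 3 / 2 < s →
      ¬ IsLocalMin (fun x => En s (EPC.Qt 1 x)) x) :
    ∃ s0 : ℝ, 3 ≤ s0 ∧ s0 ≤ 4 ∧ ∀ s, 3 / 2 < s → (LocMin s Qb ↔ s < s0) := by
  refine bcc_iff fun x s h1 h2 hs h => hseg x s h1 h2 hs ?_
  have e : (fun x => En s (EPC.Qt 1 x)) = fun x => En s (Qc x) := funext fun x => En_Qt s x
  rw [e]
  exact h

end Pool.Agent.Lib.EPL
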