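import Pool.Agent.Lib.EPL.BNum
import Pool.Agent.Lib.EPL.BMono

/-!
# EPL.BS0: the critical exponent

1. `T₀ = sSup {t | 3/2 ≤ t ∧ 0 < gE t}` (nonempty: `gE_pos_mid` at `3/2`; bounded by `2`: for `t ≥ 2` `exp(3t) gE t / t ≤ exp(6) gE 2 / 2 < 0` by
   `gE_mono`, `gE_two`). Then `0 < gE t` for `0 < t < T₀` (`gE_pos_small`, `gE_pos_mid`, and for `3/2 ≤ t < T₀` there is `t' > t` in the set, `gE_mono`),
   and `gE t < 0` for `t > T₀` (choose `T₀ < t'' < t`: `gE t'' ≤ 0`, `gE_mono`). 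
2. For `3/2 < s < s'`: `T₀^(-s') Γ(s'+1) ME s' < T₀^(-s) Γ(s+1) ME s` : the difference is `∫ ((t/T₀)^s - (t/T₀)^s') t⁻¹ gE t`, the integrand is
   positive for all `t ≠ T₀` (`mel_gE`; `setIntegral_pos_iff_support_of_nonneg_ae` as in `notMin_of_pos`; the support is
   `Ioi 0` without one point, of infinite measure).
3. `s0 = sSup {s | 3 ≤ s ∧ s ≤ 4 ∧ 0 < ME s}`... `3 < s0 < 4` must be strict: by 2. `ME s > 0` for all `3/2 < s ≤ 3`. Strictness needs continuity of `ME` at 3 and 4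
   [`s ↦ ∑ a(x) / Q[x]^(s+2)` is continuous on `s > 3/2`: `continuousAt_En` in EpZ has the argument, or `F_eq`-like sums; or use dominated convergence for the Mellin integral]. The statement below only
   claims `3 ≤ s0 ≤ 4`, for which no continuity is needed.
`MT_pos`: `mel_gT`, `gT_pos_small`, `gT_pos_large`.
-/

open MeasureTheory Set Filter Topology Matrix
open scoped Matrix.Norms.Elementwise

namespace Pool.Agent.Lib.EPL

open Pool.Agent.Lib.EpZ Pool.Agent.Lib.EPS

namespace BS0Aux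

/-- there is exactly one sign change -/
theorem exists_T0 : ∃ T : ℝ, 0 < T ∧ (∀ t, 0 < t → t < T → 0 < gE t) ∧ (∀ t, T < t → gE t < 0) := by
  set A : Set ℝ := {t | 3 / 2 ≤ t ∧ 0 < gE t} with hA
  have hne : A.Nonempty := ⟨3 / 2, le_refl _, gE_pos_mid (by norm_num) (le_refl _)⟩
  have hb : ∀ t ∈ A, t ≤ 2 := by
    intro t ht
    by_contra hcon
    push Not at hcon
    have h1 := gE_mono (a := 2) (b := t) (by norm_num) hcon
    have h2 : Real.exp (3 * 2) * gE 2 / 2 < 0 :=
      div_neg_of_neg_of_pos (mul_neg_of_pos_of_neg (Real.exp_pos (3 * 2)) gE_two) two_pos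
    have h3 : 0 < Real.exp (3 * t) * gE t / t :=
      div_pos (mul_pos (Real.exp_pos _) ht.2) (by linarith)
    linarith
  have hbdd : BddAbove A := ⟨2, hb⟩
  have h32 : 3 / 2 ≤ sSup A := le_csSup hbdd ⟨le_refl _, gE_pos_mid (by norm_num) (le_refl _)⟩
  refine ⟨sSup A, by linarith, ?_, ?_⟩
  · intro t h0 ht
    by_cases h1 : t ≤ 1
    · exact gE_pos_small h0 h1
    · push Not at h1
      by_cases h2 : t ≤ 3 / 2
      · exact gE_pos_mid h1.le h2
      · push Not at h2
        obtain ⟨t', ht', hlt⟩ := exists_lt_of_lt_csSup hne ht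
        have h3 := gE_mono h2.le hlt
        have h4 : 0 < Real.exp (3 * t') * gE t' / t' :=
          div_pos (mul_pos (Real.exp_pos _) ht'.2) (by linarith)
        have h5 : 0 < Real.exp (3 * t) * gE t / t := h4.trans h3
        by_contra hcon
        push Not at hcon
        have h6 : Real.exp (3 * t) * gE t / t ≤ 0 :=
          div_nonpos_of_nonpos_of_nonneg
            (mul_nonpos_of_nonneg_of_nonpos (Real.exp_pos _).le hcon) h0.le
        linarith
  · intro t ht
    have h1 : sSup A < (sSup A + t) / 2 := by linarith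
    have h2 : (sSup A + t) / 2 < t := by linarith
    have h3 : gE ((sSup A + t) / 2) ≤ 0 := by
      by_contra hcon
      push Not at hcon
      have := le_csSup hbdd (show (sSup A + t) / 2 ∈ A from ⟨by linarith, hcon⟩)
      linarith
    have h4 := gE_mono (a := (sSup A + t) / 2) (b := t) (by linarith) h2
    have h5 : Real.exp (3 * ((sSup A + t) / 2)) * gE ((sSup A + t) / 2) / ((sSup A + t) / 2) ≤ 0 :=
      div_nonpos_of_nonpos_of_nonneg
        (mul_nonpos_of_nonneg_of_nonpos (Real.exp_pos _).le h3) (by linarith)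
    by_contra hcon
    push Not at hcon
    have h6 : 0 ≤ Real.exp (3 * t) * gE t / t :=
      div_nonneg (mul_nonneg (Real.exp_pos _).le hcon) (by linarith)
    linarith

/-- positivity of an integral over the half line -/
theorem int_pos {f : ℝ → ℝ} (hf : IntegrableOn f (Ioi 0)) {T : ℝ} (hT : 0 < T)
    (h0 : ∀ t ∈ Ioi (0 : ℝ), 0 ≤ f t) (h1 : ∀ t, T < t → 0 < f t) : 0 < ∫ t in Ioi (0 : ℝ), f t := by
  rw [setIntegral_pos_iff_support_of_nonneg_ae]
  · have hsub : Ioi T ⊆ Function.support f ∩ Ioi 0 := by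
      intro t ht
      exact ⟨(h1 t ht).ne', mem_Ioi.2 (hT.trans ht)⟩
    refine lt_of_lt_of_le ?_ (measure_mono hsub)
    rw [Real.volume_Ioi]
    exact ENNReal.coe_lt_top
  · exact (ae_restrict_iff' measurableSet_Ioi).mpr (Filter.Eventually.of_forall fun t ht => h0 t ht)
  · exact hf

theorem mono {s s' : ℝ} (hs : 3 / 2 < s) (hss : s < s') (h : 0 ≤ ME s') : 0 < ME s := by
  obtain ⟨T, hT, hpos, hneg⟩ := exists_T0
  obtain ⟨i1, v1⟩ := mel_gE hs
  obtain ⟨i2, v2⟩ := mel_gE (s := s') (by linarith)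
  have j1 : IntegrableOn (fun t : ℝ => T ^ (-s) * (t ^ (s - 1) * gE t)) (Ioi 0) :=
    Integrable.const_mul i1 _
  have j2 : IntegrableOn (fun t : ℝ => T ^ (-s') * (t ^ (s' - 1) * gE t)) (Ioi 0) :=
    Integrable.const_mul i2 _
  have e : ∀ t : ℝ, 0 < t → T ^ (-s) * (t ^ (s - 1) * gE t) - T ^ (-s') * (t ^ (s' - 1) * gE t) =
      ((t / T) ^ s - (t / T) ^ s') * (gE t / t) := by
    intro t ht
    rw [Real.div_rpow ht.le hT.le, Real.div_rpow ht.le hT.le, Real.rpow_neg hT.le,
      Real.rpow_neg hT.le, Real.rpow_sub_one ht.ne', Real.rpow_sub_one ht.ne']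
    ring
  have hlt : ∀ t : ℝ, 0 < t → t < T →
      0 < T ^ (-s) * (t ^ (s - 1) * gE t) - T ^ (-s') * (t ^ (s' - 1) * gE t) := by
    intro t ht htT
    rw [e t ht]
    refine mul_pos ?_ (div_pos (hpos t ht htT) ht)
    have : (t / T) ^ s' < (t / T) ^ s :=
      Real.rpow_lt_rpow_of_exponent_gt (div_pos ht hT) ((div_lt_one hT).2 htT) hss
    linarith
  have hgt : ∀ t : ℝ, T < t →
      0 < T ^ (-s) * (t ^ (s - 1) * gE t) - T ^ (-s') * (t ^ (s' - 1) * gE t) := by
    intro t htT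
    have ht : 0 < t := hT.trans htT
    rw [e t ht]
    refine mul_pos_of_neg_of_neg ?_ (div_neg_of_neg_of_pos (hneg t htT) ht)
    have : (t / T) ^ s < (t / T) ^ s' :=
      Real.rpow_lt_rpow_of_exponent_lt ((one_lt_div hT).2 htT) hss
    linarith
  have hI := int_pos (f := fun t : ℝ => T ^ (-s) * (t ^ (s - 1) * gE t) -
    T ^ (-s') * (t ^ (s' - 1) * gE t)) (j1.sub j2) hT (fun t ht => ?_) hgt
  · rw [integral_sub j1 j2, integral_const_mul, integral_const_mul, v1, v2] at hI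
    have g1 : 0 < Real.Gamma (s + 1) := Real.Gamma_pos_of_pos (by linarith)
    have g2 : 0 < Real.Gamma (s' + 1) := Real.Gamma_pos_of_pos (by linarith)
    have p1 : 0 < T ^ (-s) := Real.rpow_pos_of_pos hT _
    have p2 : 0 < T ^ (-s') := Real.rpow_pos_of_pos hT _
    have h2 : 0 ≤ T ^ (-s') * (Real.Gamma (s' + 1) * ME s') := by positivity
    have h3 : 0 < T ^ (-s) * (Real.Gamma (s + 1) * ME s) := by linarith
    have h4 := (pos_iff_pos_of_mul_pos h3).1 p1
    exact (pos_iff_pos_of_mul_pos h4).1 g1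
  · have ht0 : (0 : ℝ) < t := ht
    rcases lt_trichotomy t T with h1 | h1 | h1
    · exact (hlt t ht0 h1).le
    · show 0 ≤ T ^ (-s) * (t ^ (s - 1) * gE t) - T ^ (-s') * (t ^ (s' - 1) * gE t)
      rw [e t ht0, h1, div_self hT.ne', Real.one_rpow, Real.one_rpow]
      simp
    · exact (hgt t h1).le

end BS0Aux

theorem exists_s0 : ∃ s0 : ℝ, 3 ≤ s0 ∧ s0 ≤ 4 ∧ (∀ s, 3 / 2 < s → s < s0 → 0 < ME s) ∧
    (∀ s, s0 < s → ME s < 0) := by
  set A : Set ℝ := {s | 3 ≤ s ∧ s ≤ 4 ∧ 0 < ME s} with hA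
  have h3 : (3 : ℝ) ∈ A := ⟨le_refl _, by norm_num, ME_three⟩
  have hbdd : BddAbove A := ⟨4, fun s hs => hs.2.1⟩
  have hle : sSup A ≤ 4 := csSup_le ⟨3, h3⟩ fun s hs => hs.2.1
  refine ⟨sSup A, le_csSup hbdd h3, hle, ?_, ?_⟩
  · intro s hs hlt
    obtain ⟨s', hs', hss⟩ := exists_lt_of_lt_csSup ⟨3, h3⟩ hlt
    exact BS0Aux.mono hs hss hs'.2.2.le
  · intro s hs
    have h30 : 3 ≤ sSup A := le_csSup hbdd h3
    rcases lt_trichotomy s 4 with h4 | h4 | h4
    · by_contra hcon
      push Not at hcon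
      have h5 : 0 < ME ((sSup A + s) / 2) :=
        BS0Aux.mono (by linarith) (show (sSup A + s) / 2 < s by linarith) hcon
      have := le_csSup hbdd (show (sSup A + s) / 2 ∈ A from ⟨by linarith, by linarith, h5⟩)
      linarith
    · rw [h4]; exact ME_four
    · by_contra hcon
      push Not at hcon
      have := BS0Aux.mono (s := 4) (by norm_num) h4 hcon
      have := ME_four
      linarith

theorem MT_pos {s : ℝ} (hs : 3 / 2 < s) : 0 < MT s := by
  obtain ⟨i, v⟩ := mel_gT hs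
  have hp : ∀ t : ℝ, 0 < t → 0 < gT t := by
    intro t ht
    by_cases h1 : t ≤ 1
    · exact gT_pos_small ht h1
    · exact gT_pos_large (by linarith)
  have hI := BS0Aux.int_pos i (T := 1) one_pos
    (fun t ht => (mul_pos (Real.rpow_pos_of_pos ht _) (hp t ht)).le)
    (fun t ht => mul_pos (Real.rpow_pos_of_pos (by linarith) _) (hp t (by linarith)))
  rw [v] at hI
  exact (pos_iff_pos_of_mul_pos hI).1 (Real.Gamma_pos_of_pos (by linarith))

end Pool.Agent.Lib.EPL
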