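import Pool.Agent.Lib.EPL.BPath
import Pool.Agent.Lib.EPL.BFin
import Pool.Agent.Lib.EpZ.Exist

/-!
# EPL.BSeg: the bcc lattice at the critical exponent

`Qc x` is the form `v₁² + v₂² + x v₃²` in the cubic coordinates of the bcc lattice (`Qc 1 = Qb`, `Qc 2` is an fcc
form). If no form strictly between them is a local minimum along the segment, then the bcc lattice
is not a local minimum at the critical exponent: otherwise `En s₀ (Qc x') > En s₀ Qb` for some `x'` near `1` and, by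
continuity in `s`, the same for some `s > s₀`; then the minimum of `En s` over `[1, x']` is attained at
`1`, which contradicts the second order condition along `(1+e)⁻¹ (v₁² + v₂²) + (1+e)² v₃²`.
-/

open MeasureTheory Set Filter Topology Matrix
open scoped Matrix.Norms.Elementwise

namespace Pool.Agent.Lib.EPL

open Pool.Agent.Lib.EpZ Pool.Agent.Lib.EPS

/-- the form `v₁² + v₂² + x v₃²` -/
def Qc (x : ℝ) : Mx 3 := !![2 + x, -x, -x; -x, 2 + x, x - 2; -x, x - 2, 2 + x]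

namespace BSegAux

/-- the form `v₁² + v₂²` -/
def N12 : Mx 3 := !![2, 0, 0; 0, 2, -2; 0, -2, 2]
/-- the form `v₃²` -/
def N3 : Mx 3 := !![1, -1, -1; -1, 1, 1; -1, 1, 1]

theorem Qc_eq (x : ℝ) : Qc x = N12 + x • N3 := by
  ext i j
  fin_cases i <;> fin_cases j <;> simp [Qc, N12, N3] <;> ring

theorem Qc_one : Qc 1 = Qb := by
  ext i j
  fin_cases i <;> fin_cases j <;> simp [Qc, Qb] <;> norm_num

theorem Qb_eq' : Qb = N12 + N3 := by
  rw [← Qc_one, Qc_eq, one_smul]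

theorem N12_symm : N12.IsSymm := by
  ext i j
  fin_cases i <;> fin_cases j <;> simp [N12]

theorem N3_symm : N3.IsSymm := by
  ext i j
  fin_cases i <;> fin_cases j <;> simp [N3]

theorem qr_N3 (v : Fin 3 → ℝ) : qr N3 v = (-v 0 + v 1 + v 2) ^ 2 := by
  simp [qr, N3, dotProduct, mulVec, Fin.sum_univ_three]
  ring

theorem qf_N3 (x : Fin 3 → ℤ) : qf N3 x = (bv x 2 : ℝ) ^ 2 := by
  unfold qf
  rw [qr_N3]
  simp [rv, bv]

theorem qf_N12 (x : Fin 3 → ℤ) : qf N12 x = (bv x 0 : ℝ) ^ 2 + (bv x 1 : ℝ) ^ 2 := by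
  simp [qf, qr, rv, N12, bv, dotProduct, mulVec, Fin.sum_univ_three]
  ring

theorem Qc_pd {x : ℝ} (hx : 1 ≤ x) : PD (Qc x) := by
  have e : Qc x = Qb + (x - 1) • N3 := by
    rw [Qc_eq, Qb_eq', sub_smul, one_smul]
    abel
  rw [e]
  refine ⟨Qb_pd.1.add (N3_symm.smul _), fun v hv => ?_⟩
  rw [qr_add, qr_smul, qr_N3]
  have h1 := Qb_pd.2 v hv
  have h2 : 0 ≤ (x - 1) * (-v 0 + v 1 + v 2) ^ 2 := mul_nonneg (by linarith) (sq_nonneg _)
  linarith

/-- the path of determinant 16 -/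
noncomputable def Pt (e : ℝ) : Mx 3 := (1 + e)⁻¹ • N12 + (1 + e) ^ 2 • N3

theorem Pt_smul {e : ℝ} (he : 0 < 1 + e) : Pt e = (1 + e)⁻¹ • Qc ((1 + e) ^ 3) := by
  rw [Qc_eq, smul_add, smul_smul]
  unfold Pt
  congr 2
  field_simp

theorem Pt_det {e : ℝ} (he : 0 < 1 + e) : (Pt e).det = Qb.det := by
  rw [Qb_det]
  unfold Pt N12 N3
  rw [det_fin_three]
  simp
  field_simp
  ring

theorem Pt_symm (e : ℝ) : (Pt e).IsSymm := (N12_symm.smul _).add (N3_symm.smul _)

/-- first derivative -/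
def Hp : Mx 3 := (2 : ℝ) • N3 - N12

theorem Hp_symm : Hp.IsSymm := (N3_symm.smul _).sub N12_symm

theorem Pt_norm {e : ℝ} (he : |e| ≤ 1 / 2) :
    ‖Pt e - (Qb + e • Hp + e ^ 2 • Qb)‖ ≤ (2 * ‖N12‖) * |e| ^ 3 := by
  have h1 : 1 / 2 ≤ 1 + e := by
    have := (abs_le.1 he).1
    linarith
  have h0 : 0 < 1 + e := by linarith
  have h2 : Pt e - (Qb + e • Hp + e ^ 2 • Qb) = (-(e ^ 3 / (1 + e))) • N12 := by
    unfold Pt Hp
    rw [Qb_eq']
    ext i j
    simp only [Matrix.sub_apply, Matrix.add_apply, Matrix.smul_apply, smul_eq_mul]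
    field_simp
    ring
  rw [h2, norm_smul, Real.norm_eq_abs, abs_neg, abs_div, abs_pow, abs_of_pos h0]
  have h3 : |e| ^ 3 / (1 + e) ≤ 2 * |e| ^ 3 := by
    rw [div_le_iff₀ h0]
    have : 0 ≤ |e| ^ 3 := by positivity
    nlinarith
  calc |e| ^ 3 / (1 + e) * ‖N12‖ ≤ 2 * |e| ^ 3 * ‖N12‖ :=
        mul_le_mul_of_nonneg_right h3 (norm_nonneg _)
    _ = _ := by ring

theorem Hp_trace : (Qb⁻¹ * Hp).trace = 0 := by
  rw [Qb_inv, trace_fin_three]
  simp [Hp, N12, N3, Matrix.mul_apply, Fin.sum_univ_three]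
  norm_num

/-- the second order sum along the path -/
theorem path_sum {s : ℝ} (hs : 3 / 2 < s) :
    ∑' x : NZ 3, (s * (s + 1) / 2 * (qf Qb x.1 ^ (-s) * (qf Hp x.1 / qf Qb x.1) ^ 2) -
      s * (qf Qb x.1 ^ (-s) * (qf Qb x.1 / qf Qb x.1))) = 3 * s * ME s := by
  have a00 := BMelAux.summ44 0 0 hs
  have a11 := BMelAux.summ44 1 1 hs
  have a22 := BMelAux.summ44 2 2 hs
  have a01 := BMelAux.summ44 0 1 hs
  have a02 := BMelAux.summ44 0 2 hs
  have a12 := BMelAux.summ44 1 2 hs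
  have hd : ((3 : ℕ) : ℝ) / 2 < s := by norm_num; exact hs
  have hF := Qb_pd.summable hd
  set c : ℝ := s * (s + 1) / 2 with hc
  have e : ∀ x : NZ 3, (c * (qf Qb x.1 ^ (-s) * (qf Hp x.1 / qf Qb x.1) ^ 2) -
      s * (qf Qb x.1 ^ (-s) * (qf Qb x.1 / qf Qb x.1))) =
      (((c * ((bv x.1 0 : ℝ) ^ 2 * (bv x.1 0 : ℝ) ^ 2 / qf Qb x.1 ^ (s + 2)) +
      c * ((bv x.1 1 : ℝ) ^ 2 * (bv x.1 1 : ℝ) ^ 2 / qf Qb x.1 ^ (s + 2))) +
      (4 * c * ((bv x.1 2 : ℝ) ^ 2 * (bv x.1 2 : ℝ) ^ 2 / qf Qb x.1 ^ (s + 2)) +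
      2 * c * ((bv x.1 0 : ℝ) ^ 2 * (bv x.1 1 : ℝ) ^ 2 / qf Qb x.1 ^ (s + 2)))) +
      ((-4 * c) * ((bv x.1 0 : ℝ) ^ 2 * (bv x.1 2 : ℝ) ^ 2 / qf Qb x.1 ^ (s + 2)) +
      (-4 * c) * ((bv x.1 1 : ℝ) ^ 2 * (bv x.1 2 : ℝ) ^ 2 / qf Qb x.1 ^ (s + 2)))) -
      s * qf Qb x.1 ^ (-s) := by
    intro x
    have hp := Qb_pd.pos x
    have h1 : qf Hp x.1 = 2 * (bv x.1 2 : ℝ) ^ 2 - ((bv x.1 0 : ℝ) ^ 2 + (bv x.1 1 : ℝ) ^ 2) := by
      unfold Hp
      rw [qf_sub, qf_smul, qf_N3, qf_N12]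
    have hq := Real.rpow_pos_of_pos hp s
    rw [h1, div_self hp.ne', Real.rpow_add hp, Real.rpow_neg hp.le]
    norm_num
    field_simp
    ring
  rw [tsum_congr e, ((((a00.mul_left c).add (a11.mul_left c)).add ((a22.mul_left (4 * c)).add
    (a01.mul_left (2 * c)))).add ((a02.mul_left (-4 * c)).add (a12.mul_left (-4 * c)))).tsum_sub
    (hF.mul_left s), (((a00.mul_left c).add (a11.mul_left c)).add ((a22.mul_left (4 * c)).add
    (a01.mul_left (2 * c)))).tsum_add ((a02.mul_left (-4 * c)).add (a12.mul_left (-4 * c))),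
    ((a00.mul_left c).add (a11.mul_left c)).tsum_add ((a22.mul_left (4 * c)).add
    (a01.mul_left (2 * c))), (a00.mul_left c).tsum_add (a11.mul_left c),
    (a22.mul_left (4 * c)).tsum_add (a01.mul_left (2 * c)),
    (a02.mul_left (-4 * c)).tsum_add (a12.mul_left (-4 * c)), tsum_mul_left, tsum_mul_left,
    tsum_mul_left, tsum_mul_left, tsum_mul_left, tsum_mul_left, tsum_mul_left, BMelAux.m00,
    BMelAux.m11, BMelAux.m22, BMelAux.m02, BMelAux.m12]
  have h01 : ∑' x : NZ 3, (bv x.1 0 : ℝ) ^ 2 * (bv x.1 1 : ℝ) ^ 2 / qf Qb x.1 ^ (s + 2) = X22 s :=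
    rfl
  have hFs : ∑' x : NZ 3, qf Qb x.1 ^ (-s) = 3 * X4 s + 6 * X22 s := F_eq hs
  rw [h01, hFs, hc]
  unfold ME
  ring

/-- the energy of a fixed form is continuous in the exponent -/
theorem continuousAt_exponent {Q : Mx 3} (hQ : PD Q) {s₀ : ℝ} (hs : 3 / 2 < s₀) :
    ContinuousAt (fun s : ℝ => En s Q) s₀ := by
  have h1 : ContinuousAt (fun s : ℝ => F s Q) s₀ := by
    set a : ℝ := (3 / 2 + s₀) / 2 with ha
    have ha1 : 3 / 2 < a := by rw [ha]; linarith
    have ha2 : a < s₀ := by rw [ha]; linarith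
    have hda : ((3 : ℕ) : ℝ) / 2 < a := by norm_num; exact ha1
    have hdb : ((3 : ℕ) : ℝ) / 2 < s₀ + 1 := by norm_num; linarith
    have hu := (hQ.summable hda).add (hQ.summable hdb)
    have hc : ContinuousOn (fun s : ℝ => ∑' x : NZ 3, qf Q x.1 ^ (-s)) (Icc a (s₀ + 1)) := by
      refine continuousOn_tsum (fun x => ?_) hu (fun x s hsI => ?_)
      · have hp := hQ.pos x
        exact (continuous_const.rpow continuous_neg (fun _ => Or.inl hp.ne')).continuousOn
      · have hp := hQ.pos x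
        rw [Real.norm_eq_abs, abs_of_pos (Real.rpow_pos_of_pos hp _)]
        have p1 := Real.rpow_pos_of_pos hp (-a)
        have p2 := Real.rpow_pos_of_pos hp (-(s₀ + 1))
        rcases le_total 1 (qf Q x.1) with h | h
        · have : qf Q x.1 ^ (-s) ≤ qf Q x.1 ^ (-a) :=
            Real.rpow_le_rpow_of_exponent_le h (by linarith [hsI.1])
          linarith
        · have : qf Q x.1 ^ (-s) ≤ qf Q x.1 ^ (-(s₀ + 1)) :=
            Real.rpow_le_rpow_of_exponent_ge hp h (by linarith [hsI.2])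
          linarith
    exact hc.continuousAt (Icc_mem_nhds ha2 (by linarith))
  unfold En
  refine h1.mul ?_
  have hd := hQ.det_pos
  exact (continuous_const.rpow (continuous_id.div_const _) (fun _ => Or.inl hd.ne')).continuousAt

theorem Qc_continuous : Continuous Qc := by
  have : Qc = fun x => N12 + x • N3 := funext Qc_eq
  rw [this]
  exact continuous_const.add (continuous_id.smul continuous_const)

end BSegAux

open BSegAux

theorem not_locMin_s0
    (hseg : ∀ x s : ℝ, 1 < x → x < 2 → 3 / 2 < s → ¬ IsLocalMin (fun x => En s (Qc x)) x)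
    {s₀ : ℝ} (hs : 3 / 2 < s₀) (hneg : ∀ s, s₀ < s → ME s < 0) : ¬ LocMin s₀ Qb := by
  rintro ⟨ε, hε, hmin⟩
  -- the segment near 1
  set δ : ℝ := min (1 / 2) (ε / (2 * (‖N3‖ + 1))) with hδ
  have hδ0 : 0 < δ := by positivity
  have hδ1 : δ ≤ 1 / 2 := min_le_left _ _
  have hge : ∀ x, 1 ≤ x → x ≤ 1 + δ → En s₀ Qb ≤ En s₀ (Qc x) := by
    intro x h1 h2
    refine hmin _ (Qc_pd h1) ?_
    have e : Qc x - Qb = (x - 1) • N3 := by
      rw [Qc_eq, Qb_eq', sub_smul, one_smul]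
      abel
    rw [e, norm_smul, Real.norm_of_nonneg (by linarith)]
    have h3 : x - 1 ≤ ε / (2 * (‖N3‖ + 1)) := by
      have := min_le_right (1 / 2) (ε / (2 * (‖N3‖ + 1)))
      rw [← hδ] at this
      linarith
    have hN := norm_nonneg N3
    calc (x - 1) * ‖N3‖ ≤ ε / (2 * (‖N3‖ + 1)) * (‖N3‖ + 1) :=
          mul_le_mul h3 (by linarith) hN (by positivity)
      _ = ε / 2 := by field_simp
      _ < ε := by linarith
  have hcont : ∀ s : ℝ, 3 / 2 < s → ContinuousOn (fun x => En s (Qc x)) (Ici 1) := by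
    intro s h x hx
    have hd : ((3 : ℕ) : ℝ) / 2 < s := by norm_num; exact h
    have h1 : ContinuousAt (En s) (Qc x) := continuousAt_En hd (Qc_pd hx)
    exact (ContinuousAt.comp (f := Qc) (g := En s) h1
      Qc_continuous.continuousAt).continuousWithinAt
  -- a point with larger energy
  obtain ⟨x', hx1, hx2, hx3⟩ : ∃ x', 1 < x' ∧ x' ≤ 1 + δ ∧ En s₀ Qb < En s₀ (Qc x') := by
    by_contra hcon
    push Not at hcon
    refine hseg (1 + δ / 2) s₀ (by linarith) (by linarith) hs ?_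
    have hmem : Ioo 1 (1 + δ) ∈ 𝓝 (1 + δ / 2) := Ioo_mem_nhds (by linarith) (by linarith)
    filter_upwards [hmem] with y hy
    have h1 := hcon (1 + δ / 2) (by linarith) (by linarith)
    have h2 := hge y hy.1.le hy.2.le
    exact h1.trans h2
  have hx2' : x' < 2 := by linarith
  -- a larger exponent
  obtain ⟨s, hs1, hs2⟩ : ∃ s, s₀ < s ∧ En s Qb < En s (Qc x') := by
    have c1 := continuousAt_exponent Qb_pd hs
    have c2 := continuousAt_exponent (Qc_pd hx1.le) hs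
    have hev : ∀ᶠ s in 𝓝 s₀, En s Qb < En s (Qc x') := c1.eventually_lt c2 hx3
    obtain ⟨η, hη, hball⟩ := Metric.eventually_nhds_iff.1 hev
    refine ⟨s₀ + η / 2, by linarith, hball ?_⟩
    rw [Real.dist_eq, show s₀ + η / 2 - s₀ = η / 2 by ring, abs_of_pos (by linarith)]
    linarith
  have hs3 : 3 / 2 < s := by linarith
  -- the minimum over the segment
  obtain ⟨y, hy, hymin⟩ := isCompact_Icc.exists_isMinOn (nonempty_Icc.2 hx1.le)
    ((hcont s hs3).mono (fun z hz => hz.1 : Icc 1 x' ⊆ Ici 1))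
  have hy2 : y ≠ x' := by
    intro h
    have h1 := hymin (show (1 : ℝ) ∈ Icc 1 x' from ⟨le_refl _, hx1.le⟩)
    simp only [h, mem_ofPred_eq, Qc_one] at h1
    linarith
  have hy1 : y = 1 := by
    by_contra hne
    have h1 : 1 < y := lt_of_le_of_ne hy.1 (Ne.symm hne)
    have h2 : y < x' := lt_of_le_of_ne hy.2 hy2
    refine hseg y s h1 (by linarith) hs3 ?_
    exact hymin.isLocalMin (Icc_mem_nhds h1 h2)
  rw [hy1] at hymin
  have hall : ∀ x, 1 ≤ x → x ≤ x' → En s Qb ≤ En s (Qc x) := by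
    intro x h1 h2
    have := hymin (show x ∈ Icc 1 x' from ⟨h1, h2⟩)
    simpa only [mem_ofPred_eq, Qc_one] using this
  -- contradiction with the second order condition
  have hr0 : 0 < min (1 / 2) ((x' - 1) / 7) := by
    refine lt_min (by norm_num) ?_
    have : 0 < x' - 1 := by linarith
    positivity
  have hsec := second_of_path Qb_pd Hp_symm Hp_trace hs3 (Qb_crit hs3) (P := Pt)
    (K := Qb) (C := 2 * ‖N12‖) hr0
    (fun e he => by
      have h1 : |e| ≤ 1 / 2 := he.trans (min_le_left _ _)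
      have h2 : 0 < 1 + e := by
        have := (abs_le.1 h1).1
        linarith
      exact ⟨Pt_symm e, Pt_det h2, Pt_norm h1⟩)
    (fun e he her => by
      have h1 : e ≤ 1 / 2 := her.trans (min_le_left _ _)
      have h2 : e ≤ (x' - 1) / 7 := her.trans (min_le_right _ _)
      have h3 : 0 < 1 + e := by linarith
      have h4 : 1 ≤ (1 + e) ^ 3 := one_le_pow₀ (by linarith)
      have h5 : (1 + e) ^ 3 ≤ x' := by
        have : (1 + e) ^ 3 ≤ 1 + 7 * e := by nlinarith [mul_nonneg he.le he.le]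
        linarith
      rw [Pt_smul h3, En_smul (by norm_num) (Qc_pd h4) (by positivity)]
      exact hall _ h4 h5)
  rw [path_sum hs3] at hsec
  have := hneg s hs1
  nlinarith

/-- the bcc lattice is a local minimum exactly below the critical exponent -/
theorem bcc_iff
    (hseg : ∀ x s : ℝ, 1 < x → x < 2 → 3 / 2 < s → ¬ IsLocalMin (fun x => En s (Qc x)) x) :
    ∃ s0 : ℝ, 3 ≤ s0 ∧ s0 ≤ 4 ∧ ∀ s, 3 / 2 < s → (LocMin s Qb ↔ s < s0) := by
  obtain ⟨s0, h3, h4, hlt, hgt⟩ := exists_s0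
  refine ⟨s0, h3, h4, fun s hs => ⟨fun hm => ?_, fun hss => ?_⟩⟩
  · by_contra hcon
    push Not at hcon
    rcases hcon.eq_or_lt with h | h
    · rw [← h] at hm
      exact not_locMin_s0 hseg (by linarith) hgt hm
    · have hwz : (![1, 0, 0] : Fin 3 → ℝ) ⬝ᵥ ![0, 1, -1] = 0 := by
        simp [dotProduct, Fin.sum_univ_three]
      have h2 := second_of_locMin Qb_pd (Hd_symm Qb ![1, 0, 0] ![0, 1, -1])
        (by rw [trace_Hd Qb_pd, hwz, mul_zero]) (path_unipotent Qb_pd hwz) hs hm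
      rw [BFinAux.second_sum hs] at h2
      have := hgt s h
      nlinarith
  · exact locMin_of_second Qb_pd hs (Qb_crit hs)
      (fun H hH htr hne => Qb_hess hs (hlt s hs hss) (MT_pos hs) H hH htr hne)

end Pool.Agent.Lib.EPL
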