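import Pool.Agent.Lib.EPL.BDef

/-!
# EPL.BSym: the cubic symmetries

Each of the maps on the cubic coordinates is induced by a linear bijection of `Fin 3 → ℤ` which preserves the form:
for `bv`: `v₁ ↔ v₂`: `x₁ ↔ x₂`; `v₂ ↔ v₃`: `x₀ ↔ x₁`; `v₁ → -v₁`: `x ↦ (x₂ - x₁, x₂ - x₀, x₂)`;
for `du`: `u₁ ↔ u₂`: `y₁ ↔ y₂`; `u₂ ↔ u₃`: `y₀ ↔ y₁`; `u₁ → -u₁`: `y ↦ (-y₁, -y₀, y₀ + y₁ + y₂)`.
All three are involutions; `Equiv.tsum_eq` (`Function.Involutive.toPerm`), for `NZ 3` with the induced bijection.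
`qf_Qb`, `qf_Qb_inv` show that the form is preserved.
-/

open MeasureTheory Set Filter Topology Matrix
open scoped Matrix.Norms.Elementwise

namespace Pool.Agent.Lib.EPL

open Pool.Agent.Lib.EpZ Pool.Agent.Lib.EPS

/-- exchange of the first two coordinates -/
def s01 (v : Fin 3 → ℤ) : Fin 3 → ℤ := ![v 1, v 0, v 2]
/-- exchange of the last two coordinates -/
def s12 (v : Fin 3 → ℤ) : Fin 3 → ℤ := ![v 0, v 2, v 1]
/-- sign change of the first coordinate -/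
def n0 (v : Fin 3 → ℤ) : Fin 3 → ℤ := ![-v 0, v 1, v 2]

namespace BSymAux

/-- reindexing a weighted theta sum -/
theorem tw {Q : Mx 3} {e : (Fin 3 → ℤ) → Fin 3 → ℤ} (he : Function.Involutive e)
    (hq : ∀ x, qf Q (e x) = qf Q x) {g g' : (Fin 3 → ℤ) → ℝ} (hg : ∀ x, g (e x) = g' x) (t : ℝ) :
    Tw Q g' t = Tw Q g t := by
  unfold Tw
  rw [← Equiv.tsum_eq he.toPerm (fun x => g x * Real.exp (-(t * qf Q x)))]
  refine tsum_congr fun x => ?_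
  rw [Function.Involutive.coe_toPerm, hq, hg]

/-- reindexing a lattice sum over the nonzero vectors -/
theorem nz {Q : Mx 3} {e : (Fin 3 → ℤ) → Fin 3 → ℤ} (he : Function.Involutive e) (h0 : e 0 = 0)
    (hq : ∀ x, qf Q (e x) = qf Q x) {g g' : (Fin 3 → ℤ) → ℝ} (hg : ∀ x, g (e x) = g' x) (p : ℝ) :
    ∑' x : NZ 3, g' x.1 / qf Q x.1 ^ p = ∑' x : NZ 3, g x.1 / qf Q x.1 ^ p := by
  have hne : ∀ x : NZ 3, e x.1 ≠ 0 := by
    intro x h
    have h1 := he x.1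
    rw [h, h0] at h1
    exact x.2 h1.symm
  let E : NZ 3 → NZ 3 := fun x => ⟨e x.1, hne x⟩
  have hE : Function.Involutive E := fun x => Subtype.ext (he x.1)
  rw [← Equiv.tsum_eq hE.toPerm (fun x : NZ 3 => g x.1 / qf Q x.1 ^ p)]
  refine tsum_congr fun x => ?_
  rw [Function.Involutive.coe_toPerm]
  show g' x.1 / qf Q x.1 ^ p = g (e x.1) / qf Q (e x.1) ^ p
  rw [hq, hg]

/-- the automorphism inducing `v₁ ↔ v₂` -/
def e01 (x : Fin 3 → ℤ) : Fin 3 → ℤ := ![x 0, x 2, x 1]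
/-- the automorphism inducing `v₂ ↔ v₃` -/
def e12 (x : Fin 3 → ℤ) : Fin 3 → ℤ := ![x 1, x 0, x 2]
/-- the automorphism inducing `v₁ → -v₁` -/
def en0 (x : Fin 3 → ℤ) : Fin 3 → ℤ := ![x 2 - x 1, x 2 - x 0, x 2]
/-- the automorphism of the dual lattice inducing `u₁ → -u₁` -/
def en0' (y : Fin 3 → ℤ) : Fin 3 → ℤ := ![-y 1, -y 0, y 0 + y 1 + y 2]

theorem e01_inv : Function.Involutive e01 := by
  intro x; ext i; fin_cases i <;> simp [e01]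
theorem e12_inv : Function.Involutive e12 := by
  intro x; ext i; fin_cases i <;> simp [e12]
theorem en0_inv : Function.Involutive en0 := by
  intro x; ext i; fin_cases i <;> simp [en0]
theorem en0'_inv : Function.Involutive en0' := by
  intro x; ext i; fin_cases i <;> simp [en0'] <;> ring

theorem bv_e01 (x : Fin 3 → ℤ) : bv (e01 x) = s01 (bv x) := by
  ext i; fin_cases i <;> simp [e01, s01, bv] <;> ring
theorem bv_e12 (x : Fin 3 → ℤ) : bv (e12 x) = s12 (bv x) := by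
  ext i; fin_cases i <;> simp [e12, s12, bv] <;> ring
theorem bv_en0 (x : Fin 3 → ℤ) : bv (en0 x) = n0 (bv x) := by
  ext i; fin_cases i <;> simp [en0, n0, bv] <;> ring
theorem du_e01 (x : Fin 3 → ℤ) : du (e01 x) = s01 (du x) := by
  ext i; fin_cases i <;> simp [e01, s01, du] <;> ring
theorem du_e12 (x : Fin 3 → ℤ) : du (e12 x) = s12 (du x) := by
  ext i; fin_cases i <;> simp [e12, s12, du] <;> ring
theorem du_en0' (x : Fin 3 → ℤ) : du (en0' x) = n0 (du x) := by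
  ext i; fin_cases i <;> simp [en0', n0, du] <;> ring

theorem q_e01 (x : Fin 3 → ℤ) : qf Qb (e01 x) = qf Qb x := by
  rw [qf_Qb, qf_Qb, bv_e01]; simp [s01]; ring
theorem q_e12 (x : Fin 3 → ℤ) : qf Qb (e12 x) = qf Qb x := by
  rw [qf_Qb, qf_Qb, bv_e12]; simp [s12]; ring
theorem q_en0 (x : Fin 3 → ℤ) : qf Qb (en0 x) = qf Qb x := by
  rw [qf_Qb, qf_Qb, bv_en0]; simp [n0]
theorem q'_e01 (x : Fin 3 → ℤ) : qf Qb⁻¹ (e01 x) = qf Qb⁻¹ x := by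
  rw [qf_Qb_inv, qf_Qb_inv, du_e01]; simp [s01]; ring
theorem q'_e12 (x : Fin 3 → ℤ) : qf Qb⁻¹ (e12 x) = qf Qb⁻¹ x := by
  rw [qf_Qb_inv, qf_Qb_inv, du_e12]; simp [s12]; ring
theorem q'_en0' (x : Fin 3 → ℤ) : qf Qb⁻¹ (en0' x) = qf Qb⁻¹ x := by
  rw [qf_Qb_inv, qf_Qb_inv, du_en0']; simp [n0]

theorem e01_zero : e01 0 = 0 := by ext i; fin_cases i <;> simp [e01]
theorem e12_zero : e12 0 = 0 := by ext i; fin_cases i <;> simp [e12]
theorem en0_zero : en0 0 = 0 := by ext i; fin_cases i <;> simp [en0]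

end BSymAux

open BSymAux

theorem Tw_s01 (f : (Fin 3 → ℤ) → ℝ) (t : ℝ) :
    Tw Qb (fun x => f (s01 (bv x))) t = Tw Qb (fun x => f (bv x)) t :=
  tw e01_inv q_e01 (fun x => by rw [bv_e01]) t
theorem Tw_s12 (f : (Fin 3 → ℤ) → ℝ) (t : ℝ) :
    Tw Qb (fun x => f (s12 (bv x))) t = Tw Qb (fun x => f (bv x)) t :=
  tw e12_inv q_e12 (fun x => by rw [bv_e12]) t
theorem Tw_n0 (f : (Fin 3 → ℤ) → ℝ) (t : ℝ) :
    Tw Qb (fun x => f (n0 (bv x))) t = Tw Qb (fun x => f (bv x)) t :=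
  tw en0_inv q_en0 (fun x => by rw [bv_en0]) t
theorem Tw_s01' (f : (Fin 3 → ℤ) → ℝ) (t : ℝ) :
    Tw Qb⁻¹ (fun x => f (s01 (du x))) t = Tw Qb⁻¹ (fun x => f (du x)) t :=
  tw e01_inv q'_e01 (fun x => by rw [du_e01]) t
theorem Tw_s12' (f : (Fin 3 → ℤ) → ℝ) (t : ℝ) :
    Tw Qb⁻¹ (fun x => f (s12 (du x))) t = Tw Qb⁻¹ (fun x => f (du x)) t :=
  tw e12_inv q'_e12 (fun x => by rw [du_e12]) t
theorem Tw_n0' (f : (Fin 3 → ℤ) → ℝ) (t : ℝ) :
    Tw Qb⁻¹ (fun x => f (n0 (du x))) t = Tw Qb⁻¹ (fun x => f (du x)) t :=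
  tw en0'_inv q'_en0' (fun x => by rw [du_en0']) t
theorem nz_s01 (f : (Fin 3 → ℤ) → ℝ) (p : ℝ) :
    ∑' x : NZ 3, f (s01 (bv x.1)) / qf Qb x.1 ^ p = ∑' x : NZ 3, f (bv x.1) / qf Qb x.1 ^ p :=
  nz (g := fun x => f (bv x)) (g' := fun x => f (s01 (bv x))) e01_inv e01_zero q_e01
    (fun x => by rw [bv_e01]) p
theorem nz_s12 (f : (Fin 3 → ℤ) → ℝ) (p : ℝ) :
    ∑' x : NZ 3, f (s12 (bv x.1)) / qf Qb x.1 ^ p = ∑' x : NZ 3, f (bv x.1) / qf Qb x.1 ^ p :=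
  nz (g := fun x => f (bv x)) (g' := fun x => f (s12 (bv x))) e12_inv e12_zero q_e12
    (fun x => by rw [bv_e12]) p
theorem nz_n0 (f : (Fin 3 → ℤ) → ℝ) (p : ℝ) :
    ∑' x : NZ 3, f (n0 (bv x.1)) / qf Qb x.1 ^ p = ∑' x : NZ 3, f (bv x.1) / qf Qb x.1 ^ p :=
  nz (g := fun x => f (bv x)) (g' := fun x => f (n0 (bv x))) en0_inv en0_zero q_en0
    (fun x => by rw [bv_en0]) p

end Pool.Agent.Lib.EPL
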