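import Pool.Agent.Lib.EPL.BQt
import Pool.Agent.Lib.EPC.Main

/-!
# EPL.BcF: the body-centred cubic lattice is a local minimum exactly below a critical exponent
-/

namespace Pool.Agent.Lib.EPL

open Pool.Agent.Lib.EpZ

/-- the field `bcc` of the classification -/
theorem bcc_field : ∃ s0 : ℝ, 3 ≤ s0 ∧ s0 ≤ 4 ∧ ∀ s, 3 / 2 < s → (LocMin s Qb ↔ s < s0) :=
  bcc_of_seg fun _ _ h1 h2 hs => EPC.seg_not_isLocalMin h1 h2 hs

end Pool.Agent.Lib.EPL
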