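import Pool.Agent.Lib.EPL.Pois

/-!
# EPL.Csb: Cauchy-Schwarz bounds for bilinear forms between two quadratic forms

`tpu`: put `M = P - (1/2) (U + T)` and `E = U - T`. From `T ≤ P ≤ U` (as forms):
`-(1/2) E[y] ≤ M[y] ≤ (1/2) E[y]` for all real `y`. Polarisation: for symmetric `M`,
`4 M(a, b) = M[a + b] - M[a - b] ≤ (1/2) (E[a + b] + E[a - b]) = E[a] + E[b]`. Apply this with
`a = y / r`, `b = r v`, `r ^ 2 = σ`: `M(y, v) = M(a, b) ≤ (1/4) (E[y] / σ + σ E[v])`. (Without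
square roots: `σ * 4 M(y, v) = M[y + σ v] - M[y - σ v] ≤ E[y] + σ ^ 2 E[v]`.) Then
`2 P(y, v) = (U + T)(y, v) + 2 M(y, v)`.

`beta_dir`: `X = vecMulVec z w`, `X x = (w · x) z`, `qf (Hx Q X) x = 2 (w · x) Q(x, z)`. For a
positive definite `Q`: `Q(x, z) ^ 2 ≤ Q[x] Q[z]` and `(w · x) ^ 2 ≤ Q⁻¹[w] Q[x]` (write
`w · x = Q(Q⁻¹ w, x)`). So `|qf (Hx Q X) x| ^ 2 ≤ 4 Q[x] ^ 2 Q[z] Q⁻¹[w] ≤ 4 Q[x] ^ 2 b1 b2 / π ^ 2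
≤ (2 β Q[x]) ^ 2`.
`beta_dual`: the same with `Q⁻¹` in place of `Q`, `Xᵀ = vecMulVec w z`, `(Q⁻¹)⁻¹ = Q`.
-/

open MeasureTheory Set Filter Topology Matrix
open scoped Matrix.Norms.Elementwise

namespace Pool.Agent.Lib.EPL

open Pool.Agent.Lib.EpZ Pool.Agent.Lib.EPS

namespace CsbAux

lemma symm_swap {M : Mx 3} (hM : M.IsSymm) (y v : Fin 3 → ℝ) :
    v ⬝ᵥ (M *ᵥ y) = y ⬝ᵥ (M *ᵥ v) := by
  rw [dotProduct_mulVec, ← mulVec_transpose, hM.eq, dotProduct_comm]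

lemma expand {M : Mx 3} (hM : M.IsSymm) (y v : Fin 3 → ℝ) (s : ℝ) :
    qr M (y + s • v) = qr M y + 2 * s * (y ⬝ᵥ (M *ᵥ v)) + s ^ 2 * qr M v := by
  unfold qr
  rw [mulVec_add, mulVec_smul, add_dotProduct, dotProduct_add, dotProduct_add, smul_dotProduct,
    smul_dotProduct, dotProduct_smul, dotProduct_smul, symm_swap hM y v]
  simp only [smul_eq_mul]
  ring

lemma expand' {M : Mx 3} (hM : M.IsSymm) (y v : Fin 3 → ℝ) (s : ℝ) :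
    qr M (y - s • v) = qr M y - 2 * s * (y ⬝ᵥ (M *ᵥ v)) + s ^ 2 * qr M v := by
  have h := expand hM y v (-s)
  rw [neg_smul, ← sub_eq_add_neg] at h
  rw [h]
  ring

lemma pd_nonneg {Q : Mx 3} (hQ : PD Q) (v : Fin 3 → ℝ) : 0 ≤ qr Q v := by
  by_cases hv : v = 0
  · subst hv
    simp [qr]
  · exact (hQ.2 v hv).le

lemma cs {Q : Mx 3} (hQ : PD Q) (x z : Fin 3 → ℝ) :
    (x ⬝ᵥ (Q *ᵥ z)) ^ 2 ≤ qr Q x * qr Q z := by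
  by_cases hz : z = 0
  · subst hz
    simp [qr]
  · have hz0 := hQ.2 z hz
    have h1 := pd_nonneg hQ (x - ((x ⬝ᵥ (Q *ᵥ z)) / qr Q z) • z)
    rw [expand' hQ.1] at h1
    have h2 : qr Q x - 2 * ((x ⬝ᵥ (Q *ᵥ z)) / qr Q z) * (x ⬝ᵥ (Q *ᵥ z)) +
        ((x ⬝ᵥ (Q *ᵥ z)) / qr Q z) ^ 2 * qr Q z = qr Q x - (x ⬝ᵥ (Q *ᵥ z)) ^ 2 / qr Q z := by
      field_simp
      ring
    rw [h2, sub_nonneg, div_le_iff₀ hz0] at h1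
    exact h1

lemma core {Q : Mx 3} (hQ : PD Q) (z w : Fin 3 → ℝ) {c : ℝ} (hc : 0 ≤ c)
    (h : qr Q z * qr Q⁻¹ w ≤ c ^ 2) (x : Fin 3 → ℤ) :
    |qf (Hx Q (vecMulVec z w)) x| ≤ 2 * c * qf Q x := by
  have hu := hQ.det_pos.ne'.isUnit
  have hx : 0 ≤ qr Q (rv x) := pd_nonneg hQ _
  have h1 : (w ⬝ᵥ rv x) ^ 2 ≤ qr Q (rv x) * qr Q⁻¹ w := by
    have h2 := cs hQ (rv x) (Q⁻¹ *ᵥ w)
    have h3 : Q *ᵥ (Q⁻¹ *ᵥ w) = w := by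
      rw [mulVec_mulVec, Matrix.mul_nonsing_inv _ hu, one_mulVec]
    have h4 : qr Q (Q⁻¹ *ᵥ w) = qr Q⁻¹ w := by
      unfold qr
      rw [h3, dotProduct_comm]
    rw [h3, h4, dotProduct_comm] at h2
    exact h2
  have h2 : ((Q *ᵥ z) ⬝ᵥ rv x) ^ 2 ≤ qr Q (rv x) * qr Q z := by
    have h3 := cs hQ (rv x) z
    rw [dotProduct_comm] at h3
    exact h3
  have h3 : |(w ⬝ᵥ rv x) * ((Q *ᵥ z) ⬝ᵥ rv x)| ≤ c * qr Q (rv x) := by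
    refine abs_le_of_sq_le_sq ?_ (mul_nonneg hc hx)
    rw [mul_pow, mul_pow]
    calc (w ⬝ᵥ rv x) ^ 2 * ((Q *ᵥ z) ⬝ᵥ rv x) ^ 2 ≤
        (qr Q (rv x) * qr Q⁻¹ w) * (qr Q (rv x) * qr Q z) :=
          mul_le_mul h1 h2 (sq_nonneg _) (mul_nonneg hx (pd_nonneg (inv_pd hQ) w))
      _ = (qr Q z * qr Q⁻¹ w) * qr Q (rv x) ^ 2 := by ring
      _ ≤ c ^ 2 * qr Q (rv x) ^ 2 := mul_le_mul_of_nonneg_right h (sq_nonneg _)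
  rw [Hx_vec Q hQ.1, qf_Hd, mul_assoc, abs_mul, abs_two, mul_assoc]
  exact mul_le_mul_of_nonneg_left h3 (by norm_num)

lemma bound {a b b1 b2 β : ℝ} (ha : 0 ≤ a) (hb : 0 ≤ b) (h1 : a ≤ b1)
    (h2 : Real.pi ^ 2 * b ≤ b2) (h12 : b1 * b2 ≤ (β * Real.pi) ^ 2) : a * b ≤ β ^ 2 := by
  have hp : 0 < Real.pi ^ 2 := by have := Real.pi_pos; positivity
  have h3 : 0 ≤ Real.pi ^ 2 * b := mul_nonneg hp.le hb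
  have h4 : a * (Real.pi ^ 2 * b) ≤ b1 * b2 := mul_le_mul h1 h2 h3 (ha.trans h1)
  have h5 : (a * b) * Real.pi ^ 2 ≤ β ^ 2 * Real.pi ^ 2 := by nlinarith
  exact le_of_mul_le_mul_right h5 hp

end CsbAux

/-- the mixed values of a form between two forms -/
theorem tpu {P T U : Mx 3} (hP : P.IsSymm) (hT : T.IsSymm) (hU : U.IsSymm)
    (h1 : ∀ y : Fin 3 → ℝ, qr T y ≤ qr P y) (h2 : ∀ y : Fin 3 → ℝ, qr P y ≤ qr U y)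
    {σ : ℝ} (hσ : 0 < σ) (y v : Fin 3 → ℝ) :
    2 * (y ⬝ᵥ (P *ᵥ v)) ≤ y ⬝ᵥ ((U + T) *ᵥ v) +
      (qr (U - T) y / σ + σ * qr (U - T) v) / 2 := by
  have a1 := h2 (y + σ • v)
  have a2 := h1 (y - σ • v)
  rw [CsbAux.expand hP, CsbAux.expand hU] at a1
  rw [CsbAux.expand' hT, CsbAux.expand' hP] at a2
  rw [add_mulVec, dotProduct_add, qr_sub, qr_sub]
  have h3 : (y ⬝ᵥ (U *ᵥ v)) + (y ⬝ᵥ (T *ᵥ v)) + ((qr U y - qr T y) / σ +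
      σ * (qr U v - qr T v)) / 2 - 2 * (y ⬝ᵥ (P *ᵥ v)) =
      (2 * σ * (y ⬝ᵥ (U *ᵥ v)) + 2 * σ * (y ⬝ᵥ (T *ᵥ v)) + (qr U y - qr T y) +
        σ ^ 2 * (qr U v - qr T v) - 4 * σ * (y ⬝ᵥ (P *ᵥ v))) / (2 * σ) := by
    field_simp
    ring
  have h4 : 0 ≤ (2 * σ * (y ⬝ᵥ (U *ᵥ v)) + 2 * σ * (y ⬝ᵥ (T *ᵥ v)) + (qr U y - qr T y) +
        σ ^ 2 * (qr U v - qr T v) - 4 * σ * (y ⬝ᵥ (P *ᵥ v))) / (2 * σ) := by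
    refine div_nonneg ?_ (by positivity)
    nlinarith
  linarith

theorem beta_dir {Q : Mx 3} (hQ : PD Q) (z w : Fin 3 → ℝ) {b1 b2 β : ℝ} (hβ : 0 ≤ β)
    (h1 : qr Q z ≤ b1)
    (h2 : Real.pi ^ 2 * qr Q⁻¹ w ≤ b2) (h12 : b1 * b2 ≤ (β * Real.pi) ^ 2) (x : Fin 3 → ℤ) :
    |qf (Hx Q (vecMulVec z w)) x| ≤ 2 * β * qf Q x :=
  CsbAux.core hQ z w hβ (CsbAux.bound (CsbAux.pd_nonneg hQ z) (CsbAux.pd_nonneg (inv_pd hQ) w)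
    h1 h2 h12) x

theorem beta_dual {Q : Mx 3} (hQ : PD Q) (z w : Fin 3 → ℝ) {b1 b2 β : ℝ} (hβ : 0 ≤ β)
    (h1 : qr Q z ≤ b1)
    (h2 : Real.pi ^ 2 * qr Q⁻¹ w ≤ b2) (h12 : b1 * b2 ≤ (β * Real.pi) ^ 2) (y : Fin 3 → ℤ) :
    |qf (Hx Q⁻¹ (vecMulVec z w)ᵀ) y| ≤ 2 * β * qf Q⁻¹ y := by
  rw [transpose_vecMulVec]
  refine CsbAux.core (inv_pd hQ) w z hβ ?_ y
  rw [Matrix.nonsing_inv_nonsing_inv _ hQ.det_pos.ne'.isUnit, mul_comm]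
  exact CsbAux.bound (CsbAux.pd_nonneg hQ z) (CsbAux.pd_nonneg (inv_pd hQ) w) h1 h2 h12

end Pool.Agent.Lib.EPL
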