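import Pool.Agent.Lib.EPL.Pois

/-!
# EPL.Icv: the inverse of a convex combination of forms

`inv_tangent`: for positive definite `Q` and any real vectors `y, u`:
`2 y · u - Q[u] ≤ Q⁻¹[y]` (it is `0 ≤ Q[u - Q⁻¹ y]`). With `u = S y`, `S` symmetric:
`2 S[y] - (S Q S)[y] ≤ Q⁻¹[y]`.
`inv_convex`: with `Q = ∑ l i Q i`, `u = Q⁻¹ y`: `Q⁻¹[y] = 2 y · u - Q[u] = ∑ l i (2 y · u - Q_i[u])
≤ ∑ l i Q_i⁻¹[y]`.
`inv_low`: `inv_tangent` for `(1/π²) S`, times `π²`.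
-/

open MeasureTheory Set Filter Topology Matrix
open scoped Matrix.Norms.Elementwise

namespace Pool.Agent.Lib.EPL

open Pool.Agent.Lib.EpZ Pool.Agent.Lib.EPS

namespace IcvAux

lemma qr_nonneg {Q : Mx 3} (hQ : PD Q) (v : Fin 3 → ℝ) : 0 ≤ qr Q v := by
  by_cases hv : v = 0
  · rw [hv]
    unfold qr
    rw [zero_dotProduct]
  · exact (hQ.2 v hv).le

lemma isUnit {Q : Mx 3} (hQ : PD Q) : IsUnit Q.det := hQ.det_pos.ne'.isUnit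

lemma mul_inv_vec {Q : Mx 3} (hQ : PD Q) (y : Fin 3 → ℝ) : Q *ᵥ (Q⁻¹ *ᵥ y) = y := by
  rw [mulVec_mulVec, Matrix.mul_nonsing_inv _ (isUnit hQ), one_mulVec]

lemma dot_symm {Q : Mx 3} (hQ : Q.IsSymm) (u v : Fin 3 → ℝ) :
    u ⬝ᵥ (Q *ᵥ v) = v ⬝ᵥ (Q *ᵥ u) := by
  rw [dotProduct_mulVec, ← mulVec_transpose, hQ.eq, dotProduct_comm]

lemma tan_vec {Q : Mx 3} (hQ : PD Q) (y u : Fin 3 → ℝ) :
    2 * (u ⬝ᵥ y) - qr Q u ≤ qr Q⁻¹ y := by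
  have h := qr_nonneg hQ (u - Q⁻¹ *ᵥ y)
  have e1 : qr Q (u - Q⁻¹ *ᵥ y) = qr Q u - 2 * (u ⬝ᵥ y) + qr Q⁻¹ y := by
    unfold qr
    rw [mulVec_sub, mul_inv_vec hQ, sub_dotProduct, dotProduct_sub, dotProduct_sub]
    have e2 : (Q⁻¹ *ᵥ y) ⬝ᵥ (Q *ᵥ u) = u ⬝ᵥ y := by
      rw [dot_symm hQ.1, mul_inv_vec hQ]
    rw [e2, dotProduct_comm (Q⁻¹ *ᵥ y) y]
    ring
  rw [e1] at h
  linarith

lemma qr_conj' {S : Mx 3} (hS : S.IsSymm) (Q : Mx 3) (y : Fin 3 → ℝ) :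
    qr (S * Q * S) y = qr Q (S *ᵥ y) := by
  unfold qr
  rw [← mulVec_mulVec, ← mulVec_mulVec, dot_symm hS, dotProduct_comm]

lemma qr_smul_vec (Q : Mx 3) (c : ℝ) (u : Fin 3 → ℝ) : qr Q (c • u) = c ^ 2 * qr Q u := by
  unfold qr
  rw [mulVec_smul, smul_dotProduct, dotProduct_smul]
  simp only [smul_eq_mul]
  ring

lemma qr_comb (Q : Fin 6 → Mx 3) (l : Fin 6 → ℝ) (v : Fin 3 → ℝ) :
    qr (∑ i, l i • Q i) v = ∑ i, l i * qr (Q i) v := by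
  simp only [Fin.sum_univ_succ, Fin.sum_univ_zero, add_zero, qr_add, qr_smul]

end IcvAux

open IcvAux

theorem inv_tangent {Q : Mx 3} (hQ : PD Q) {S : Mx 3} (hS : S.IsSymm) (y : Fin 3 → ℝ) :
    2 * qr S y - qr (S * Q * S) y ≤ qr Q⁻¹ y := by
  have h := tan_vec hQ y (S *ᵥ y)
  rw [qr_conj' hS]
  have e : (S *ᵥ y) ⬝ᵥ y = qr S y := by
    unfold qr
    rw [dotProduct_comm]
  rw [e] at h
  exact h

/-- a convex combination of positive definite forms is positive definite -/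
theorem pd_comb {Q : Fin 6 → Mx 3} (hQ : ∀ i, PD (Q i)) {l : Fin 6 → ℝ} (hl : ∀ i, 0 ≤ l i)
    (h1 : ∑ i, l i = 1) : PD (∑ i, l i • Q i) := by
  refine ⟨?_, fun v hv => ?_⟩
  · unfold Matrix.IsSymm
    rw [Matrix.transpose_sum]
    exact Finset.sum_congr rfl fun i _ => by rw [Matrix.transpose_smul, (hQ i).1.eq]
  · rw [qr_comb]
    obtain ⟨i, hi⟩ : ∃ i, 0 < l i := by
      by_contra hcon
      push Not at hcon
      have : ∑ i, l i ≤ 0 := Finset.sum_nonpos fun i _ => hcon i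
      linarith
    refine Finset.sum_pos' (fun j _ => mul_nonneg (hl j) ((hQ j).2 v hv).le)
      ⟨i, Finset.mem_univ _, mul_pos hi ((hQ i).2 v hv)⟩

theorem inv_convex {Q : Fin 6 → Mx 3} (hQ : ∀ i, PD (Q i)) {l : Fin 6 → ℝ} (hl : ∀ i, 0 ≤ l i)
    (h1 : ∑ i, l i = 1) (y : Fin 3 → ℝ) :
    qr (∑ i, l i • Q i)⁻¹ y ≤ ∑ i, l i * qr (Q i)⁻¹ y := by
  have hP := pd_comb hQ hl h1
  set P : Mx 3 := ∑ i, l i • Q i with hPdef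
  have e1 : qr P⁻¹ y = 2 * ((P⁻¹ *ᵥ y) ⬝ᵥ y) - qr P (P⁻¹ *ᵥ y) := by
    have e2 : qr P (P⁻¹ *ᵥ y) = (P⁻¹ *ᵥ y) ⬝ᵥ y := by
      unfold qr
      rw [mul_inv_vec hP]
    rw [e2]
    unfold qr
    rw [dotProduct_comm]
    ring
  rw [e1, hPdef, qr_comb, ← hPdef]
  have e3 : 2 * ((P⁻¹ *ᵥ y) ⬝ᵥ y) - ∑ i, l i * qr (Q i) (P⁻¹ *ᵥ y) =
      ∑ i, l i * (2 * ((P⁻¹ *ᵥ y) ⬝ᵥ y) - qr (Q i) (P⁻¹ *ᵥ y)) := by
    simp only [mul_sub]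
    rw [Finset.sum_sub_distrib, ← Finset.sum_mul, h1, one_mul]
  rw [e3]
  exact Finset.sum_le_sum fun i _ => mul_le_mul_of_nonneg_left (tan_vec (hQ i) y _) (hl i)

/-- the lower bound of `π² Q⁻¹` used by the certificate -/
theorem inv_low {Q : Mx 3} (hQ : PD Q) {S : Mx 3} (hS : S.IsSymm) {c : ℝ}
    (hc : 1 / Real.pi ^ 2 ≤ c) (y : Fin 3 → ℝ) :
    2 * qr S y - c * qr (S * Q * S) y ≤ Real.pi ^ 2 * qr Q⁻¹ y := by
  have hpi : 0 < Real.pi ^ 2 := by positivity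
  have h := tan_vec hQ y ((1 / Real.pi ^ 2) • (S *ᵥ y))
  rw [qr_smul_vec, smul_dotProduct, smul_eq_mul] at h
  have e : (S *ᵥ y) ⬝ᵥ y = qr S y := by
    unfold qr
    rw [dotProduct_comm]
  rw [e, ← qr_conj' hS] at h
  have hn : 0 ≤ qr (S * Q * S) y := by
    rw [qr_conj' hS]
    exact qr_nonneg hQ _
  have h2 := mul_le_mul_of_nonneg_left h hpi.le
  have e2 : Real.pi ^ 2 * (2 * (1 / Real.pi ^ 2 * qr S y) -
      (1 / Real.pi ^ 2) ^ 2 * qr (S * Q * S) y) =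
      2 * qr S y - 1 / Real.pi ^ 2 * qr (S * Q * S) y := by
    field_simp
  rw [e2] at h2
  have h3 := mul_le_mul_of_nonneg_right hc hn
  linarith

end Pool.Agent.Lib.EPL
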