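import Pool.Agent.Lib.EPL.Thsp

/-!
# EPL.TailB: the tail outside a list of vectors

`dual_low`: Cauchy-Schwarz, `(v · x) ^ 2 = A(A⁻¹ v, x) ^ 2 ≤ A⁻¹[v] A[x]`.

`tail_fun`: `Φ` is a list of integral functionals containing the three coordinates, all nonzero vectors
with `|v · x| ≤ 5` for all `v ∈ Φ` are in `HB` up to sign. Use `tailOK_of` (ℓ = 10) with `T' x = T x` for
`x ∈ HB`, `T' x = T (-x)` for `-x ∈ HB`, and for the other `x` (`Out HB x`): `T' x = 3/5 m ^ 2` with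
`m = max_{v ∈ Φ} |v · x| ≥ 6`, so `T' x ≥ 108/5 = 21.6` and `T' x ≤ qf A x` (the maximum is attained).
`qf A (-x) = qf A x` (`qf_even`, EPS/Vsum).
The sum over the vectors of `± HB` outside `± L` is at most `2 S`. For the others: `|x i| ≤ m` for all three
coordinates, so at most `(2 m + 1) ^ 3` vectors have the value `m`, and
`∑_{m ≥ 6} (2 m + 1)^3 (3 m²/5) exp (-(3 m²/5)) ≤ 1.98 * 10^(-5) ≤ 2 * (12 / 10^6)`: the term `m = 6` is
`2197 * 21.6 * exp (-21.6) < 1.976 * 10^(-5)`, the others are below `2 * 10^(-8)` together. A formal way without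
counting shells: for `m ≥ 6` and `|x i| ≤ m`: `x ↦ (3 m²/5) exp (-(3m²/5))`; split the set of all such `x` into
`m = 6` (subset of the finite box `[-6, 6]^3`, 2197 elements) and `m ≥ 7`
(`(3 m²/5) exp (-(3 m²/5)) ≤ 29.4 exp (-29.4) exp (-(1/2) (m² - 49))` and `m² ≥ (x0² + x1² + x2²)/3`:
`∑_x exp (-(x0² + x1² + x2²)/6) = θ^3`, `θ ≤ 1 + 2 ∑_{k ≥ 1} exp (-k/6) ≤ 13`, `29.4 exp (-29.4 + 24.5) 13^3` is too
large, so use the rate closer to 3/5: `q exp (-q) ≤ q0 exp (-q0) exp (-(9/10) (q - q0))` for `q ≥ q0 = 29.4`, i.e.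
`exp (-(27/50) (m² - 49))`, giving `29.4 exp (-29.4) exp (26.46) * ...`; or sum over the shells `m = 7, 8, ...` by
`tsum` over `m` of (number ≤ (2m+1)^3) (the map `x ↦ m` and `Summable`/`tsum` over sigma types, or
`Finset`-exhaustion: every finite set of vectors is in some box `[-M, M]^3`, and the finite sum is bounded
by `∑_{m=6}^{M} (2m+1)^3 ...`; `sum_le_hasSum`/`tsum_le_of_sum_le` reduces the `tsum` to finite sets). The last
way is the simplest: `Real.tsum_le_of_sum_le`-type lemma and `Finset.sum_fiberwise_of_maps_to`.)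
-/

open MeasureTheory Set Filter Topology Matrix
open scoped Matrix.Norms.Elementwise

namespace Pool.Agent.Lib.EPL

open Pool.Agent.Lib.EpZ Pool.Agent.Lib.EPS

namespace TailBAux

theorem sq_low {A : Mx 3} (hA : PD A) {w : Fin 3 → ℝ} (hw : w ≠ 0) (v : Fin 3 → ℝ) :
    0 < qr A⁻¹ w ∧ (w ⬝ᵥ v) ^ 2 ≤ qr A⁻¹ w * qr A v := by
  have hu : IsUnit A.det := hA.det_pos.ne'.isUnit
  set u : Fin 3 → ℝ := A⁻¹ *ᵥ w with hu'
  have h1 : A *ᵥ u = w := by
    rw [hu', mulVec_mulVec, Matrix.mul_nonsing_inv _ hu, one_mulVec]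
  have h3 : qr A u = qr A⁻¹ w := by
    unfold qr
    rw [h1, dotProduct_comm]
  have hune : u ≠ 0 := by
    intro h
    exact hw (by rw [← h1, h, mulVec_zero])
  have hpos : 0 < qr A⁻¹ w := by
    rw [← h3]
    exact hA.2 u hune
  have h6 : u ⬝ᵥ (A *ᵥ v) = w ⬝ᵥ v := by
    rw [dotProduct_mulVec, ← mulVec_transpose, hA.1.eq, h1]
  have h7 : v ⬝ᵥ (A *ᵥ u) = w ⬝ᵥ v := by
    rw [h1, dotProduct_comm]
  have h8 : ∀ l : ℝ, qr A (v - l • u) = qr A v - 2 * l * (w ⬝ᵥ v) + l ^ 2 * qr A⁻¹ w := by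
    intro l
    have h9 : qr A (v - l • u) = v ⬝ᵥ (A *ᵥ v) - l * (v ⬝ᵥ (A *ᵥ u)) - l * (u ⬝ᵥ (A *ᵥ v)) +
        l ^ 2 * (u ⬝ᵥ (A *ᵥ u)) := by
      unfold qr
      rw [mulVec_sub, mulVec_smul, sub_dotProduct, dotProduct_sub, dotProduct_sub,
        dotProduct_smul, smul_dotProduct, smul_dotProduct, dotProduct_smul]
      simp only [smul_eq_mul]
      ring
    rw [h9, h6, h7]
    have h10 : u ⬝ᵥ (A *ᵥ u) = qr A⁻¹ w := h3
    have h11 : v ⬝ᵥ (A *ᵥ v) = qr A v := rfl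
    rw [h10, h11]
    ring
  have h11 : 0 ≤ qr A (v - ((w ⬝ᵥ v) / qr A⁻¹ w) • u) := by
    rcases eq_or_ne (v - ((w ⬝ᵥ v) / qr A⁻¹ w) • u) 0 with h | h
    · rw [h]
      simp [qr]
    · exact (hA.2 _ h).le
  rw [h8] at h11
  refine ⟨hpos, ?_⟩
  generalize qr A⁻¹ w = α at *
  generalize w ⬝ᵥ v = β at *
  have h12 : qr A v - 2 * (β / α) * β + (β / α) ^ 2 * α = qr A v - β ^ 2 / α := by
    field_simp
    ring
  rw [h12, sub_nonneg, div_le_iff₀ hpos] at h11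
  linarith

/-- the maximum of the functionals -/
def mx (Φ : List (Fin 3 → ℤ)) (x : Fin 3 → ℤ) : ℕ := Φ.toFinset.sup fun v => (v ⬝ᵥ x).natAbs

theorem mx_le (Φ : List (Fin 3 → ℤ)) (x : Fin 3 → ℤ) (n : ℕ) :
    mx Φ x ≤ n ↔ ∀ v ∈ Φ, |v ⬝ᵥ x| ≤ (n : ℤ) := by
  unfold mx
  rw [Finset.sup_le_iff]
  constructor
  · intro h v hv
    have h1 := h v (List.mem_toFinset.mpr hv)
    rw [Int.abs_eq_natAbs]
    exact_mod_cast h1
  · intro h v hv
    have h1 := h v (List.mem_toFinset.mp hv)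
    rw [Int.abs_eq_natAbs] at h1
    exact_mod_cast h1

theorem mx_eq {Φ : List (Fin 3 → ℤ)} (hne : Φ ≠ []) (x : Fin 3 → ℤ) :
    ∃ v ∈ Φ, (mx Φ x : ℝ) ^ 2 = ((v ⬝ᵥ x : ℤ) : ℝ) ^ 2 := by
  obtain ⟨v, hv, hi⟩ := Finset.exists_mem_eq_sup Φ.toFinset
    (List.toFinset_nonempty_iff Φ |>.mpr hne) (fun v => (v ⬝ᵥ x).natAbs)
  refine ⟨v, List.mem_toFinset.mp hv, ?_⟩
  have h1 : mx Φ x = (v ⬝ᵥ x).natAbs := hi
  rw [h1, Nat.cast_natAbs, Int.cast_abs, sq_abs]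

/-- the box -/
noncomputable def bx (n : ℕ) : Finset (Fin 3 → ℤ) :=
  Fintype.piFinset fun _ => Finset.Icc (-(n : ℤ)) n

theorem mem_bx (x : Fin 3 → ℤ) (n : ℕ) : x ∈ bx n ↔ ∀ i, |x i| ≤ (n : ℤ) := by
  unfold bx
  rw [Fintype.mem_piFinset]
  exact forall_congr' fun i => by rw [Finset.mem_Icc, abs_le]

theorem card_bx (n : ℕ) : (bx n).card = (2 * n + 1) ^ 3 := by
  unfold bx
  rw [Fintype.card_piFinset]
  simp only [Int.card_Icc, Finset.prod_const, Finset.card_univ, Fintype.card_fin]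
  congr 1
  omega

theorem card_shell {Φ : List (Fin 3 → ℤ)} (hΦ : ∀ i : Fin 3, Pi.single i 1 ∈ Φ)
    (u : Finset (Fin 3 → ℤ)) (m : ℕ) (h : ∀ x ∈ u, mx Φ x = m) : u.card ≤ (2 * m + 1) ^ 3 := by
  rw [← card_bx]
  refine Finset.card_le_card fun x hx => ?_
  rw [mem_bx]
  intro i
  have h1 := (mx_le Φ x m).mp (h x hx).le _ (hΦ i)
  rwa [single_one_dotProduct] at h1

/-- the majorant of a shell -/
noncomputable def sh (n : ℕ) : ℝ :=
  (2 * (n : ℝ) + 1) ^ 3 * (3 / 5 * (n : ℝ) ^ 2 * Real.exp (-(3 / 5 * (n : ℝ) ^ 2)))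

theorem sh_nonneg (n : ℕ) : 0 ≤ sh n := by
  unfold sh
  positivity

theorem exp7 : Real.exp (-7) ≤ 1 / 400 := by
  have h1 := Real.exp_one_gt_d9
  have h2 : Real.exp 7 = Real.exp 1 ^ 7 := by
    rw [← Real.exp_nat_mul]; norm_num
  have h3 : (400 : ℝ) ≤ Real.exp 7 := by
    rw [h2]
    calc (400 : ℝ) ≤ 2.7 ^ 7 := by norm_num
      _ ≤ Real.exp 1 ^ 7 := pow_le_pow_left₀ (by norm_num) (by linarith) 7
  rw [Real.exp_neg, one_div]
  exact inv_anti₀ (by norm_num) h3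

theorem exp21 : Real.exp (-(108 / 5)) ≤ 1 / (22 * 10 ^ 8) := by
  have h1 := Real.exp_one_gt_d9
  have h2 : Real.exp (108 / 5) ^ 5 = Real.exp 1 ^ 108 := by
    rw [← Real.exp_nat_mul, ← Real.exp_nat_mul]; norm_num
  have h3 : (22 * 10 ^ 8 : ℝ) ≤ Real.exp (108 / 5) := by
    refine le_of_pow_le_pow_left₀ (n := 5) (by norm_num) (Real.exp_pos _).le ?_
    rw [h2]
    calc (22 * 10 ^ 8 : ℝ) ^ 5 ≤ 2.71 ^ 108 := by norm_num
      _ ≤ Real.exp 1 ^ 108 := pow_le_pow_left₀ (by norm_num) (by linarith) 108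
  rw [Real.exp_neg, one_div]
  exact inv_anti₀ (by norm_num) h3

theorem sh_succ {n : ℕ} (hn : 6 ≤ n) : sh (n + 1) ≤ 1 / 100 * sh n := by
  have hn' : (6 : ℝ) ≤ n := by exact_mod_cast hn
  unfold sh
  push_cast
  have h1 : Real.exp (-(3 / 5 * ((n : ℝ) + 1) ^ 2)) =
      Real.exp (-(3 / 5 * (n : ℝ) ^ 2)) * Real.exp (-(3 / 5 * (2 * n + 1))) := by
    rw [← Real.exp_add]; congr 1; ring
  have h2 : Real.exp (-(3 / 5 * (2 * (n : ℝ) + 1))) ≤ 1 / 400 := by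
    refine le_trans (Real.exp_le_exp.mpr ?_) exp7
    linarith
  have h3 := Real.exp_pos (-(3 / 5 * (n : ℝ) ^ 2))
  have h4 : (2 * ((n : ℝ) + 1) + 1) ^ 3 ≤ 2 * (2 * (n : ℝ) + 1) ^ 3 := by
    obtain ⟨t, ht⟩ : ∃ t : ℝ, t = (n : ℝ) - 6 := ⟨_, rfl⟩
    have ht0 : 0 ≤ t := by rw [ht]; linarith
    have hnt : (n : ℝ) = t + 6 := by rw [ht]; ring
    rw [hnt]
    have : 0 ≤ t ^ 3 := by positivity
    have : 0 ≤ t ^ 2 := by positivity
    nlinarith
  have h5 : 3 / 5 * ((n : ℝ) + 1) ^ 2 ≤ 2 * (3 / 5 * (n : ℝ) ^ 2) := by nlinarith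
  have h6 : (2 * ((n : ℝ) + 1) + 1) ^ 3 * (3 / 5 * ((n : ℝ) + 1) ^ 2) ≤
      (2 * (2 * (n : ℝ) + 1) ^ 3) * (2 * (3 / 5 * (n : ℝ) ^ 2)) :=
    mul_le_mul h4 h5 (by positivity) (by positivity)
  rw [h1]
  calc (2 * ((n : ℝ) + 1) + 1) ^ 3 * (3 / 5 * ((n : ℝ) + 1) ^ 2 *
        (Real.exp (-(3 / 5 * (n : ℝ) ^ 2)) * Real.exp (-(3 / 5 * (2 * n + 1))))) =
        ((2 * ((n : ℝ) + 1) + 1) ^ 3 * (3 / 5 * ((n : ℝ) + 1) ^ 2)) *
          (Real.exp (-(3 / 5 * (n : ℝ) ^ 2)) * Real.exp (-(3 / 5 * (2 * n + 1)))) := by ring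
    _ ≤ ((2 * (2 * (n : ℝ) + 1) ^ 3) * (2 * (3 / 5 * (n : ℝ) ^ 2))) *
          (Real.exp (-(3 / 5 * (n : ℝ) ^ 2)) * (1 / 400)) :=
        mul_le_mul h6 (mul_le_mul_of_nonneg_left h2 h3.le) (by positivity) (by positivity)
    _ = _ := by ring

theorem sh_sum (k : ℕ) : ∑ n ∈ Finset.range k, sh (n + 6) + 100 / 99 * sh (k + 6) ≤
    100 / 99 * sh 6 := by
  induction k with
  | zero => simp
  | succ k ih =>
    rw [Finset.sum_range_succ]
    have h1 := sh_succ (n := k + 6) (by omega)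
    have h2 : k + 1 + 6 = k + 6 + 1 := by ring
    rw [h2]
    linarith

theorem sh6 : 100 / 99 * sh 6 ≤ 24 / 10 ^ 6 := by
  have h1 := exp21
  have h2 : sh 6 = 237276 / 5 * Real.exp (-(108 / 5)) := by
    unfold sh
    norm_num
    ring
  rw [h2]
  have h3 : (100 : ℝ) / 99 * (237276 / 5 * (1 / (22 * 10 ^ 8))) ≤ 24 / 10 ^ 6 := by norm_num
  linarith

/-- the sum over finitely many vectors outside the box -/
theorem far_sum {Φ : List (Fin 3 → ℤ)} (hΦ : ∀ i : Fin 3, Pi.single i 1 ∈ Φ)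
    (u : Finset (Fin 3 → ℤ)) (h : ∀ x ∈ u, 6 ≤ mx Φ x) :
    ∑ x ∈ u, 3 / 5 * (mx Φ x : ℝ) ^ 2 * Real.exp (-(3 / 5 * (mx Φ x : ℝ) ^ 2)) ≤
      24 / 10 ^ 6 := by
  classical
  set N : ℕ := u.sup (mx Φ) with hN
  have hmap : ∀ x ∈ u, mx Φ x - 6 ∈ Finset.range (N + 1) := by
    intro x hx
    have h1 : mx Φ x ≤ N := Finset.le_sup (f := mx Φ) hx
    rw [Finset.mem_range]
    omega
  rw [← Finset.sum_fiberwise_of_maps_to hmap]
  have h2 : ∀ n ∈ Finset.range (N + 1), ∑ x ∈ u with mx Φ x - 6 = n,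
      3 / 5 * (mx Φ x : ℝ) ^ 2 * Real.exp (-(3 / 5 * (mx Φ x : ℝ) ^ 2)) ≤ sh (n + 6) := by
    intro n _
    have h3 : ∀ x ∈ u.filter (fun x => mx Φ x - 6 = n), mx Φ x = n + 6 := by
      intro x hx
      rw [Finset.mem_filter] at hx
      have := h x hx.1
      omega
    have h4 := card_shell hΦ _ _ h3
    have h5 : ∑ x ∈ u with mx Φ x - 6 = n,
        3 / 5 * (mx Φ x : ℝ) ^ 2 * Real.exp (-(3 / 5 * (mx Φ x : ℝ) ^ 2)) =
        ∑ x ∈ u with mx Φ x - 6 = n,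
          3 / 5 * ((n + 6 : ℕ) : ℝ) ^ 2 * Real.exp (-(3 / 5 * ((n + 6 : ℕ) : ℝ) ^ 2)) := by
      refine Finset.sum_congr rfl fun x hx => ?_
      rw [h3 x hx]
    rw [h5, Finset.sum_const, nsmul_eq_mul]
    unfold sh
    refine mul_le_mul_of_nonneg_right ?_ (by positivity)
    have h6 : ((u.filter (fun x => mx Φ x - 6 = n)).card : ℝ) ≤
        (((2 * (n + 6) + 1) ^ 3 : ℕ) : ℝ) := by exact_mod_cast h4
    refine h6.trans (le_of_eq ?_)
    push_cast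
    ring
  refine (Finset.sum_le_sum h2).trans ?_
  have h7 := sh_sum (N + 1)
  have h8 := sh_nonneg (N + 1 + 6)
  have h9 := sh6
  linarith

end TailBAux

open TailBAux

theorem dual_low {A : Mx 3} (hA : PD A) {κ : ℝ} {v : Fin 3 → ℝ} (h : qr A⁻¹ v ≤ κ)
    (x : Fin 3 → ℤ) : (v ⬝ᵥ rv x) ^ 2 ≤ κ * qf A x := by
  have h3 : 0 ≤ qr A (rv x) := by
    rcases eq_or_ne (rv x) 0 with h0 | h0
    · rw [h0]
      simp [qr]
    · exact (hA.2 _ h0).le
  have h4 : qr A⁻¹ v * qr A (rv x) ≤ κ * qr A (rv x) := mul_le_mul_of_nonneg_right h h3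
  rcases eq_or_ne v 0 with hv | hv
  · have h5 : qr A⁻¹ v = 0 := by
      rw [hv]
      simp [qr]
    rw [h5, zero_mul] at h4
    rw [hv, zero_dotProduct]
    simpa [qf] using h4
  · exact le_trans (sq_low hA hv (rv x)).2 h4

theorem tail_fun {A : Mx 3} (hA : PD A) {HB L : List (Fin 3 → ℤ)} (hHB : Half HB)
    (Φ : List (Fin 3 → ℤ)) (hΦ : ∀ i : Fin 3, Pi.single i 1 ∈ Φ)
    (hcov : ∀ x : Fin 3 → ℤ, x ≠ 0 → (∀ v ∈ Φ, |v ⬝ᵥ x| ≤ 5) → x ∈ HB ∨ -x ∈ HB)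
    (hd : ∀ v ∈ Φ, ∀ x : Fin 3 → ℤ, 3 / 5 * ((v ⬝ᵥ x : ℤ) : ℝ) ^ 2 ≤ qf A x)
    (T : (Fin 3 → ℤ) → ℝ) (h10 : ∀ x ∈ HB, x ∉ L → 10 ≤ T x)
    (hT : ∀ x ∈ HB, x ∉ L → T x ≤ qf A x) {S : ℝ}
    (hS : (HB.map fun x => if x ∈ L then 0 else T x * Real.exp (-(T x))).sum ≤ S) :
    TailOK A L (S + 12 / 10 ^ 6) 10 := by
  classical
  obtain ⟨hnd, hnz, hop⟩ := hHB
  have hne : Φ ≠ [] := List.ne_nil_of_mem (hΦ 0)
  set h : (Fin 3 → ℤ) → ℝ := fun x => if x ∈ L then 0 else T x * Real.exp (-(T x)) with hh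
  set T' : (Fin 3 → ℤ) → ℝ := fun x =>
    if x ∈ HB then T x else if -x ∈ HB then T (-x) else 3 / 5 * (mx Φ x : ℝ) ^ 2 with hT'
  have hfar : ∀ x : Fin 3 → ℤ, x ≠ 0 → x ∉ HB → -x ∉ HB → 6 ≤ mx Φ x := by
    intro x hx h1 h2
    by_contra hlt
    have h3 : mx Φ x ≤ 5 := by omega
    rw [mx_le] at h3
    rcases hcov x hx (fun v hv => by simpa using h3 v hv) with h4 | h4
    · exact h1 h4
    · exact h2 h4
  have hh0 : ∀ x ∈ HB, 0 ≤ h x := by
    intro x hx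
    simp only [hh]
    split_ifs with hxL
    · exact le_rfl
    · have := h10 x hx hxL
      exact mul_nonneg (by linarith) (Real.exp_pos _).le
  have hlist : ∑ x ∈ HB.toFinset, h x ≤ S := by
    rw [List.sum_toFinset h hnd]
    exact hS
  have hlow : ∀ x, Out L x → 10 ≤ T' x := by
    intro x hx
    obtain ⟨x0, xL, nL⟩ := hx
    simp only [hT']
    split_ifs with h1 h2
    · exact h10 x h1 xL
    · exact h10 (-x) h2 nL
    · have h3 : (6 : ℝ) ≤ mx Φ x := by exact_mod_cast hfar x x0 h1 h2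
      nlinarith
  have hup : ∀ x, Out L x → T' x ≤ qf A x := by
    intro x hx
    obtain ⟨x0, xL, nL⟩ := hx
    simp only [hT']
    split_ifs with h1 h2
    · exact hT x h1 xL
    · rw [← VsumAux.qf_even]
      exact hT (-x) h2 nL
    · obtain ⟨v, hv, hi⟩ := mx_eq hne x
      rw [hi]
      exact hd v hv x
  have hsum : ∀ u : Finset {x : Fin 3 → ℤ // Out L x},
      ∑ x ∈ u, T' x.1 * Real.exp (-(T' x.1)) ≤ 2 * (S + 12 / 10 ^ 6) := by
    intro u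
    set v : Finset (Fin 3 → ℤ) := u.map (Function.Embedding.subtype _) with hv
    have hvO : ∀ x ∈ v, Out L x := by
      intro x hx
      rw [hv, Finset.mem_map] at hx
      obtain ⟨y, -, rfl⟩ := hx
      exact y.2
    have e0 : ∑ x ∈ u, T' x.1 * Real.exp (-(T' x.1)) = ∑ x ∈ v, T' x * Real.exp (-(T' x)) := by
      rw [hv, Finset.sum_map]
      rfl
    rw [e0, ← Finset.sum_filter_add_sum_filter_not v (fun x => x ∈ HB)]
    have e1 : ∑ x ∈ v with x ∈ HB, T' x * Real.exp (-(T' x)) ≤ S := by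
      have e2 : ∑ x ∈ v with x ∈ HB, T' x * Real.exp (-(T' x)) = ∑ x ∈ v with x ∈ HB, h x := by
        refine Finset.sum_congr rfl fun x hx => ?_
        rw [Finset.mem_filter] at hx
        have h3 := (hvO x hx.1).2.1
        simp only [hT', hh, if_pos hx.2, if_neg h3]
      rw [e2]
      refine le_trans (Finset.sum_le_sum_of_subset_of_nonneg ?_ ?_) hlist
      · intro x hx
        rw [Finset.mem_filter] at hx
        exact List.mem_toFinset.mpr hx.2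
      · intro x hx _
        exact hh0 x (List.mem_toFinset.mp hx)
    rw [← Finset.sum_filter_add_sum_filter_not (v.filter fun x => ¬ x ∈ HB) (fun x => -x ∈ HB)]
    have e3 : ∑ x ∈ v.filter (fun x => ¬ x ∈ HB) with -x ∈ HB, T' x * Real.exp (-(T' x)) ≤ S := by
      have e4 : ∑ x ∈ v.filter (fun x => ¬ x ∈ HB) with -x ∈ HB, T' x * Real.exp (-(T' x)) =
          ∑ x ∈ v.filter (fun x => ¬ x ∈ HB) with -x ∈ HB, h (-x) := by
        refine Finset.sum_congr rfl fun x hx => ?_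
        rw [Finset.mem_filter, Finset.mem_filter] at hx
        have h3 := (hvO x hx.1.1).2.2
        simp only [hT', hh, if_neg hx.1.2, if_pos hx.2, if_neg h3]
      rw [e4, ← Finset.sum_image (f := h) (g := fun x : Fin 3 → ℤ => -x)
        (fun a _ b _ hab => neg_injective hab)]
      refine le_trans (Finset.sum_le_sum_of_subset_of_nonneg ?_ ?_) hlist
      · intro x hx
        rw [Finset.mem_image] at hx
        obtain ⟨y, hy, rfl⟩ := hx
        rw [Finset.mem_filter] at hy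
        exact List.mem_toFinset.mpr hy.2
      · intro x hx _
        exact hh0 x (List.mem_toFinset.mp hx)
    have e5 : ∑ x ∈ v.filter (fun x => ¬ x ∈ HB) with ¬ -x ∈ HB, T' x * Real.exp (-(T' x)) ≤
        24 / 10 ^ 6 := by
      have e6 : ∑ x ∈ v.filter (fun x => ¬ x ∈ HB) with ¬ -x ∈ HB, T' x * Real.exp (-(T' x)) =
          ∑ x ∈ v.filter (fun x => ¬ x ∈ HB) with ¬ -x ∈ HB,
            3 / 5 * (mx Φ x : ℝ) ^ 2 * Real.exp (-(3 / 5 * (mx Φ x : ℝ) ^ 2)) := by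
        refine Finset.sum_congr rfl fun x hx => ?_
        rw [Finset.mem_filter, Finset.mem_filter] at hx
        simp only [hT', if_neg hx.1.2, if_neg hx.2]
      rw [e6]
      refine far_sum hΦ _ fun x hx => ?_
      rw [Finset.mem_filter, Finset.mem_filter] at hx
      exact hfar x (hvO x hx.1.1).1 hx.1.2 hx.2
    linarith
  have hpos : ∀ x : {x : Fin 3 → ℤ // Out L x}, 0 ≤ T' x.1 * Real.exp (-(T' x.1)) := by
    intro x
    have := hlow x.1 x.2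
    exact mul_nonneg (by linarith) (Real.exp_pos _).le
  refine tailOK_of hA T' (by norm_num) hlow hup (summable_of_sum_le hpos hsum) ?_
  exact Real.tsum_le_of_sum_le hpos hsum

end Pool.Agent.Lib.EPL
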