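import Pool.Agent.Lib.EPL.LeafR
import Pool.Agent.Lib.EPL.Icv
import Pool.Agent.Lib.EPL.Csb
import Pool.Agent.Lib.EPL.TailB
import Pool.Agent.Lib.FCC.DetC
import Pool.Agent.Lib.EPS.VerS
import Pool.Agent.Lib.EpZ.Gram

/-!
# EPL.Cell: convex combinations of six forms
-/

open MeasureTheory Set Filter Topology Matrix
open scoped Matrix.Norms.Elementwise

namespace Pool.Agent.Lib.EPL

open Pool.Agent.Lib.EpZ Pool.Agent.Lib.EPS Pool.Agent.Lib.FCC

/-- the combination of six forms -/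
noncomputable def cmb (l : Fin 6 → ℝ) (Q : Fin 6 → Mx 3) : Mx 3 := ∑ i, l i • Q i

lemma qr_cmb (l : Fin 6 → ℝ) (Q : Fin 6 → Mx 3) (y : Fin 3 → ℝ) :
    qr (cmb l Q) y = ∑ i, l i * qr (Q i) y := by
  unfold cmb
  simp only [Fin.sum_univ_six, qr_add, qr_smul]

lemma qf_cmb (l : Fin 6 → ℝ) (Q : Fin 6 → Mx 3) (x : Fin 3 → ℤ) :
    qf (cmb l Q) x = ∑ i, l i * qf (Q i) x := qr_cmb l Q _

lemma Hx_zero' (A : Mx 3) : Hx A 0 = 0 := by
  unfold Hx
  simp

lemma Hx_cmb (l : Fin 6 → ℝ) (Q : Fin 6 → Mx 3) (X : Mx 3) :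
    Hx (cmb l Q) X = cmb l (fun i => Hx (Q i) X) := by
  unfold cmb Hx
  simp only [Fin.sum_univ_six, add_mul, mul_add, smul_mul_assoc, mul_smul_comm, smul_add]
  abel

lemma symm_cmb {l : Fin 6 → ℝ} {Q : Fin 6 → Mx 3} (h : ∀ i, (Q i).IsSymm) : (cmb l Q).IsSymm := by
  unfold cmb Matrix.IsSymm
  rw [transpose_sum]
  refine Finset.sum_congr rfl fun i _ => ?_
  rw [transpose_smul, (h i).eq]

/-- upper bound of the dual form -/
theorem P_upper {l : Fin 6 → ℝ} {Q U : Fin 6 → Mx 3} (hQ : ∀ i, PD (Q i)) (hl : ∀ i, 0 ≤ l i)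
    (h1 : ∑ i, l i = 1) (hU : ∀ i (y : Fin 3 → ℝ), Real.pi ^ 2 * qr (Q i)⁻¹ y ≤ qr (U i) y)
    (y : Fin 3 → ℝ) : qr (Pd (cmb l Q)) y ≤ qr (cmb l U) y := by
  have h2 := inv_convex hQ hl h1 y
  unfold Pd
  rw [qr_smul, qr_cmb]
  have h3 : Real.pi ^ 2 * qr (cmb l Q)⁻¹ y ≤ Real.pi ^ 2 * ∑ i, l i * qr (Q i)⁻¹ y :=
    mul_le_mul_of_nonneg_left h2 (by positivity)
  refine h3.trans ?_
  rw [Finset.mul_sum]
  refine Finset.sum_le_sum fun i _ => ?_
  have := mul_le_mul_of_nonneg_left (hU i y) (hl i)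
  linarith

/-- the tangent forms -/
noncomputable def Tf (S : Mx 3) (c : ℝ) (Q : Mx 3) : Mx 3 := (2 : ℝ) • S - c • (S * Q * S)

lemma Tf_symm {S Q : Mx 3} (hS : S.IsSymm) (hQ : Q.IsSymm) (c : ℝ) : (Tf S c Q).IsSymm := by
  unfold Tf Matrix.IsSymm
  rw [transpose_sub, transpose_smul, transpose_smul, transpose_mul, transpose_mul, hS.eq, hQ.eq,
    Matrix.mul_assoc]

lemma Tf_cmb {l : Fin 6 → ℝ} (h1 : ∑ i, l i = 1) (S : Mx 3) (c : ℝ) (Q : Fin 6 → Mx 3) :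
    cmb l (fun i => Tf S c (Q i)) = Tf S c (cmb l Q) := by
  unfold cmb Tf
  have h2 : ∑ i, l i • ((2 : ℝ) • S) = (2 : ℝ) • S := by
    rw [← Finset.sum_smul, h1, one_smul]
  have h3 : ∑ i, l i • (c • (S * Q i * S)) = c • (S * (∑ i, l i • Q i) * S) := by
    rw [Finset.mul_sum, Finset.sum_mul, Finset.smul_sum]
    refine Finset.sum_congr rfl fun i _ => ?_
    rw [mul_smul_comm, smul_mul_assoc, smul_comm c (l i)]
  rw [← h3, ← h2, ← Finset.sum_sub_distrib]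
  refine Finset.sum_congr rfl fun i _ => ?_
  rw [smul_sub, h2]

/-- lower bound of the dual form -/
theorem P_lower {l : Fin 6 → ℝ} {Q : Fin 6 → Mx 3} (hQ : ∀ i, PD (Q i)) (hl : ∀ i, 0 ≤ l i)
    (h1 : ∑ i, l i = 1) {S : Mx 3} (hS : S.IsSymm) {c : ℝ} (hc : 1 / Real.pi ^ 2 ≤ c)
    (y : Fin 3 → ℝ) : qr (cmb l fun i => Tf S c (Q i)) y ≤ qr (Pd (cmb l Q)) y := by
  rw [Tf_cmb h1]
  have hP := pd_comb hQ hl h1
  have h2 := inv_low hP hS hc y
  unfold Pd Tf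
  rw [qr_smul, qr_sub, qr_smul, qr_smul]
  exact h2

/-- the form bounding the dual coefficients: for the vertex with forms `U`, `T` -/
noncomputable def Dv (U T X : Mx 3) (σ : ℝ) (y : Fin 3 → ℝ) : ℝ :=
  -(y ⬝ᵥ ((U + T) *ᵥ (Xᵀ *ᵥ y))) -
    (qr (U - T) y / σ + σ * qr (U - T) (Xᵀ *ᵥ y)) / 2

lemma Dv_cmb (l : Fin 6 → ℝ) (U T : Fin 6 → Mx 3) (X : Mx 3) (σ : ℝ) (y : Fin 3 → ℝ) :
    Dv (cmb l U) (cmb l T) X σ y = ∑ i, l i * Dv (U i) (T i) X σ y := by
  have e1 : cmb l U - cmb l T = cmb l (fun i => U i - T i) := by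
    unfold cmb
    rw [← Finset.sum_sub_distrib]
    exact Finset.sum_congr rfl fun i _ => by rw [smul_sub]
  have e2 : cmb l U + cmb l T = cmb l (fun i => U i + T i) := by
    unfold cmb
    rw [← Finset.sum_add_distrib]
    exact Finset.sum_congr rfl fun i _ => by rw [smul_add]
  have e3 : ∀ v : Fin 3 → ℝ, y ⬝ᵥ (cmb l (fun i => U i + T i) *ᵥ v) =
      ∑ i, l i * (y ⬝ᵥ ((U i + T i) *ᵥ v)) := by
    intro v
    unfold cmb
    simp only [Fin.sum_univ_six, add_mulVec, smul_mulVec, dotProduct_add, dotProduct_smul,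
      smul_eq_mul]
  unfold Dv
  rw [e1, e2, e3, qr_cmb, qr_cmb]
  rw [← Finset.sum_neg_distrib, Finset.sum_div, Finset.mul_sum, ← Finset.sum_add_distrib,
    Finset.sum_div, ← Finset.sum_sub_distrib]
  refine Finset.sum_congr rfl fun i _ => ?_
  ring

/-- lower bound of the coefficients of the dual sum -/
theorem D_lower {P T U X : Mx 3} (hP : P.IsSymm) (hT : T.IsSymm) (hU : U.IsSymm)
    (h1 : ∀ y : Fin 3 → ℝ, qr T y ≤ qr P y) (h2 : ∀ y : Fin 3 → ℝ, qr P y ≤ qr U y)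
    {σ : ℝ} (hσ : 0 < σ) (y : Fin 3 → ℤ) :
    Dv U T X σ (rv y) ≤ qf (Hx P (-Xᵀ)) y := by
  have h3 := tpu hP hT hU h1 h2 hσ (rv y) (Xᵀ *ᵥ rv y)
  rw [qf_Hx P hP, neg_mulVec, mulVec_neg, dotProduct_neg]
  unfold Dv
  linarith

/-- the determinant of a combination of forms with nonnegative Selling parameters -/
theorem det_lower {l : Fin 6 → ℝ} (hl : ∀ i, 0 ≤ l i) (h1 : ∑ i, l i = 1)
    {v : Fin 6 → Fin 6 → ℝ} (hv : ∀ i j, 0 ≤ v i j) {D : ℝ} (hD : 0 ≤ D)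
    (hd : ∀ i, D ≤ dt (v i)) : D ≤ (cmb l fun i => formOf (v i)).det := by
  have e : (cmb l fun i => formOf (v i)) = formOf (l 0 • v 0 + l 1 • v 1 + l 2 • v 2 + l 3 • v 3 +
      l 4 • v 4 + l 5 • v 5) := by
    unfold cmb
    rw [Fin.sum_univ_six]
    unfold formOf
    ext a b
    fin_cases a <;> fin_cases b <;> simp <;> ring
  rw [e, formOf_det]
  have hn : ∀ j, 0 ≤ (l 0 • v 0 + l 1 • v 1 + l 2 • v 2 + l 3 • v 3 + l 4 • v 4 + l 5 • v 5) j := by
    intro j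
    simp only [Pi.add_apply, Pi.smul_apply, smul_eq_mul]
    have := fun i => mul_nonneg (hl i) (hv i j)
    have h0 := this 0
    have h1 := this 1
    have h2 := this 2
    have h3 := this 3
    have h4 := this 4
    have h5 := this 5
    linarith
  have hg := VerSAux.gg_comb (v 0) (v 1) (v 2) (v 3) (v 4) (v 5) l hl (hv 0) (hv 1) (hv 2) (hv 3)
    (hv 4) (hv 5)
  have hgi : ∀ i, D ^ ((1 : ℝ) / 3) ≤ gg (v i) := fun i =>
    Real.rpow_le_rpow hD (hd i) (by norm_num)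
  have h2 : D ^ ((1 : ℝ) / 3) ≤ gg (l 0 • v 0 + l 1 • v 1 + l 2 • v 2 + l 3 • v 3 +
      l 4 • v 4 + l 5 • v 5) := by
    refine le_trans ?_ hg
    have h3 : ∑ i, l i * D ^ ((1 : ℝ) / 3) ≤ ∑ i, l i * gg (v i) :=
      Finset.sum_le_sum fun i _ => mul_le_mul_of_nonneg_left (hgi i) (hl i)
    rw [← Finset.sum_mul, h1, one_mul, Fin.sum_univ_six] at h3
    exact h3
  have h3 := pow_le_pow_left₀ (Real.rpow_nonneg hD _) h2 3
  rw [gg_cube hn, ← Real.rpow_natCast, ← Real.rpow_mul hD] at h3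
  norm_num at h3
  exact h3

lemma formOf_smul (c : ℝ) (l : Fin 6 → ℝ) : formOf (c • l) = c • formOf l := by
  unfold formOf
  ext a b
  fin_cases a <;> fin_cases b <;> simp <;> ring

/-- passage from a cone to the convex combinations of its rescaled vertices -/
theorem notMin_cone {v : Fin 6 → Fin 6 → ℝ} {r : Fin 6 → ℝ} (hr : ∀ i, 0 < r i) {s : ℝ}
    (hv : ∀ i, PD (formOf (v i)))
    (h : ∀ w : Fin 6 → ℝ, (∀ i, 0 ≤ w i) → ∑ i, w i = 1 →
      ¬ LocMin s (cmb w fun i => formOf (r i • v i)))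
    {l c : Fin 6 → ℝ} (hc : ∀ k, 0 ≤ c k) (hl : ∀ i, l i = ∑ k, c k * v k i) (hd : 0 < dt l) :
    ¬ LocMin s (formOf l) := by
  set κ : ℝ := ∑ k, c k / r k with hκ
  have hk0 : ∀ k, 0 ≤ c k / r k := fun k => div_nonneg (hc k) (hr k).le
  have hκ0 : 0 < κ := by
    have h0 : 0 ≤ κ := Finset.sum_nonneg fun k _ => hk0 k
    rcases h0.lt_or_eq with h1 | h1
    · exact h1
    · exfalso
      have h2 : ∀ k, c k = 0 := by
        intro k
        have h3 := (Finset.sum_eq_zero_iff_of_nonneg (fun k _ => hk0 k)).mp h1.symm k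
          (Finset.mem_univ k)
        rcases div_eq_zero_iff.mp h3 with h4 | h4
        · exact h4
        · exact absurd h4 (hr k).ne'
      have h3 : ∀ i, l i = 0 := fun i => by
        rw [hl i]
        exact Finset.sum_eq_zero fun k _ => by rw [h2 k, zero_mul]
      unfold dt at hd
      simp only [h3] at hd
      norm_num at hd
  set w : Fin 6 → ℝ := fun k => c k / r k / κ with hw
  have hw0 : ∀ k, 0 ≤ w k := fun k => div_nonneg (hk0 k) hκ0.le
  have hw1 : ∑ k, w k = 1 := by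
    rw [hw, ← Finset.sum_div, ← hκ, div_self hκ0.ne']
  have hPD : PD (cmb w fun i => formOf (r i • v i)) := by
    refine pd_comb (fun i => ?_) hw0 hw1
    rw [formOf_smul]
    exact (hv i).smul (hr i)
  have e : formOf l = κ • cmb w (fun i => formOf (r i • v i)) := by
    have e1 : ∀ k, κ * w k = c k / r k := fun k => by
      rw [hw]
      field_simp
    have e2 : l = ∑ k, c k • v k := by
      funext i
      rw [hl i, Finset.sum_apply]
      rfl
    unfold cmb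
    rw [Finset.smul_sum]
    have e3 : ∀ k, κ • (w k • formOf (r k • v k)) = c k • formOf (v k) := fun k => by
      rw [formOf_smul, smul_smul, smul_smul, e1 k, div_mul_cancel₀ _ (hr k).ne']
    simp only [e3]
    rw [e2]
    unfold formOf
    ext a b
    fin_cases a <;> fin_cases b <;> simp [Fin.sum_univ_six] <;> ring
  intro hm
  rw [e] at hm
  have h2 := LocMin.smul (d := 3) (by norm_num) (hPD.smul hκ0) hm (l := κ⁻¹) (by positivity)
  rw [smul_smul, inv_mul_cancel₀ hκ0.ne', one_smul] at h2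
  exact h w hw0 hw1 h2

end Pool.Agent.Lib.EPL
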