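import Pool.Agent.Lib.EPL.TopL
import Pool.Agent.Lib.EPS.Fin

/-!
# The classification of the minima in dimension three from its building blocks, final form
-/

open Matrix
open scoped Matrix.Norms.Elementwise

namespace Pool.Agent.Lib.EPL

open Pool.Agent.Lib.EpZ Pool.Agent.Lib.FCC Pool.Agent.Lib.EPS

/-- a set isometric to a unit lattice is a unit lattice -/
theorem Isometric.unit {B0 : Mx 3} (hB0 : |B0.det| = 1) {Λ : Set (EuclideanSpace ℝ (Fin 3))}
    (h : Isometric Λ (lat B0)) : IsUnitLattice Λ := by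
  obtain ⟨φ, hφ⟩ := h.symm
  obtain ⟨O, hO, -, hlat⟩ := exists_orth φ
  refine ⟨O * B0, ?_, ?_⟩
  · rw [Matrix.det_mul, abs_mul, hO, hB0, one_mul]
  · rw [hlat, hφ]

/-- the classification of the global and of the local minima for lattices -/
theorem classify_all {SR : (Fin 6 → ℝ) → Prop} {s0 : ℝ} (hb : Blocks SR s0) {s : ℝ}
    (hs : 3 / 2 < s) (Λ : Set (EuclideanSpace ℝ (Fin 3))) :
    (IsGlobalMinimum Λ s ↔ Isometric Λ fcc) ∧
      (IsLocalMinimum Λ s ↔ Isometric Λ fcc ∨ (s < s0 ∧ Isometric Λ bcc)) := by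
  have hg := EPS.main s hs
  have hf : Isometric fcc fcc := by
    refine ⟨LinearIsometryEquiv.refl ℝ _, ?_⟩
    simp
  refine ⟨hg Λ, ?_⟩
  rw [classify hb hs ((hg fcc).mpr hf) Λ]
  constructor
  · rintro ⟨-, h⟩
    exact h
  · intro h
    refine ⟨?_, h⟩
    rcases h with h | ⟨-, h⟩
    · rw [MainAux.fcc_eq] at h
      exact Isometric.unit MainAux.det_B0 h
    · rw [TopLAux.bcc_eq] at h
      exact Isometric.unit TopLAux.det_B1 h

end Pool.Agent.Lib.EPL
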