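import Pool.Agent.Lib.EPL.BcF
import Pool.Agent.Lib.EPL.TopU

/-!
# EPL.CritB: the critical exponent of the body-centred cubic lattice as the zero of a lattice sum
-/

open Matrix
open scoped Matrix.Norms.Elementwise

namespace Pool.Agent.Lib.EPL

open Pool.Agent.Lib.EpZ Pool.Agent.Lib.EPS

/-- The second derivative of the energy at the body-centred cubic lattice in the tetragonal direction,
up to a positive factor: the sum over all integral `v ≠ 0` whose coordinates have the same parity. -/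
noncomputable def crit (s : ℝ) : ℝ :=
  ∑' v : {v : Fin 3 → ℤ // v ≠ 0 ∧ Even (v 0 - v 1) ∧ Even (v 1 - v 2)},
    (s * (v.1 0 : ℝ) ^ 4 - (s + 3) * ((v.1 0 : ℝ) ^ 2 * (v.1 1 : ℝ) ^ 2)) /
      ((v.1 0 : ℝ) ^ 2 + (v.1 1 : ℝ) ^ 2 + (v.1 2 : ℝ) ^ 2) ^ (s + 2)

namespace CritBAux

/-- the coordinates in the lattice basis -/
def cb (v : Fin 3 → ℤ) : Fin 3 → ℤ := ![(v 0 + v 1) / 2, (v 0 + v 2) / 2, (v 1 + v 2) / 2]

theorem cb_bv (x : Fin 3 → ℤ) : cb (bv x) = x := by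
  funext i
  fin_cases i
  · show (x 0 + x 1 - x 2 + (x 0 - x 1 + x 2)) / 2 = x 0
    omega
  · show (x 0 + x 1 - x 2 + (-x 0 + x 1 + x 2)) / 2 = x 1
    omega
  · show (x 0 - x 1 + x 2 + (-x 0 + x 1 + x 2)) / 2 = x 2
    omega

theorem bv_cb {v : Fin 3 → ℤ} (h : Even (v 0 - v 1)) (h' : Even (v 1 - v 2)) : bv (cb v) = v := by
  obtain ⟨a, ha⟩ := h
  obtain ⟨b, hb⟩ := h'
  funext i
  fin_cases i
  · show (v 0 + v 1) / 2 + (v 0 + v 2) / 2 - (v 1 + v 2) / 2 = v 0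
    omega
  · show (v 0 + v 1) / 2 - (v 0 + v 2) / 2 + (v 1 + v 2) / 2 = v 1
    omega
  · show -((v 0 + v 1) / 2) + (v 0 + v 2) / 2 + (v 1 + v 2) / 2 = v 2
    omega

theorem bv_even (x : Fin 3 → ℤ) : Even (bv x 0 - bv x 1) ∧ Even (bv x 1 - bv x 2) := by
  refine ⟨⟨x 1 - x 2, ?_⟩, ⟨x 0 - x 1, ?_⟩⟩
  · show x 0 + x 1 - x 2 - (x 0 - x 1 + x 2) = x 1 - x 2 + (x 1 - x 2)
    ring
  · show x 0 - x 1 + x 2 - (-x 0 + x 1 + x 2) = x 0 - x 1 + (x 0 - x 1)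
    ring

/-- the bijection of the index sets -/
def eb : NZ 3 ≃ {v : Fin 3 → ℤ // v ≠ 0 ∧ Even (v 0 - v 1) ∧ Even (v 1 - v 2)} where
  toFun x := ⟨bv x.1, fun h => x.2 (by rw [← cb_bv x.1, h]; decide), bv_even x.1⟩
  invFun v := ⟨cb v.1, fun h => v.2.1 (by rw [← bv_cb v.2.2.1 v.2.2.2, h, bv_zero])⟩
  left_inv x := Subtype.ext (cb_bv x.1)
  right_inv v := Subtype.ext (bv_cb v.2.2.1 v.2.2.2)

theorem crit_eq {s : ℝ} (hs : 3 / 2 < s) : crit s = ME s := by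
  have e : ∀ x : NZ 3, (s * (bv x.1 0 : ℝ) ^ 4 - (s + 3) * ((bv x.1 0 : ℝ) ^ 2 * (bv x.1 1 : ℝ) ^ 2)) /
      ((bv x.1 0 : ℝ) ^ 2 + (bv x.1 1 : ℝ) ^ 2 + (bv x.1 2 : ℝ) ^ 2) ^ (s + 2) =
      s * ((bv x.1 0 : ℝ) ^ 2 * (bv x.1 0 : ℝ) ^ 2 / qf Qb x.1 ^ (s + 2)) -
        (s + 3) * ((bv x.1 0 : ℝ) ^ 2 * (bv x.1 1 : ℝ) ^ 2 / qf Qb x.1 ^ (s + 2)) := by
    intro x
    rw [qf_Qb]
    ring
  unfold crit
  rw [← eb.tsum_eq]
  refine (tsum_congr e).trans ?_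
  rw [(BMelAux.summ44 0 0 hs).mul_left s |>.tsum_sub ((BMelAux.summ44 0 1 hs).mul_left (s + 3)),
    tsum_mul_left, tsum_mul_left, BMelAux.m00]
  rfl

/-- the bcc lattice is a local minimum exactly if the second derivative is positive -/
theorem bcc_iff_ME
    (hseg : ∀ x s : ℝ, 1 < x → x < 2 → 3 / 2 < s → ¬ IsLocalMin (fun x => En s (Qc x)) x)
    {s : ℝ} (hs : 3 / 2 < s) : LocMin s Qb ↔ 0 < ME s := by
  constructor
  · intro hm
    obtain ⟨s0, h3, h4, hlt, hgt⟩ := exists_s0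
    rcases lt_trichotomy s s0 with h | h | h
    · exact hlt s hs h
    · rw [h] at hm
      exact absurd hm (not_locMin_s0 hseg (by linarith) hgt)
    · exfalso
      have hwz : (![1, 0, 0] : Fin 3 → ℝ) ⬝ᵥ ![0, 1, -1] = 0 := by
        simp [dotProduct, Fin.sum_univ_three]
      have h2 := second_of_locMin Qb_pd (Hd_symm Qb ![1, 0, 0] ![0, 1, -1])
        (by rw [trace_Hd Qb_pd, hwz, mul_zero]) (path_unipotent Qb_pd hwz) hs hm
      rw [BFinAux.second_sum hs] at h2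
      have := hgt s h
      nlinarith
  · intro h
    exact locMin_of_second Qb_pd hs (Qb_crit hs)
      (fun H hH htr hne => Qb_hess hs h (MT_pos hs) H hH htr hne)

end CritBAux

/-- the bcc lattice is a local minimum exactly if the critical sum is positive -/
theorem bcc_iff_crit {s : ℝ} (hs : 3 / 2 < s) : LocMin s Qb ↔ 0 < crit s := by
  rw [CritBAux.crit_eq hs]
  refine CritBAux.bcc_iff_ME (fun x s h1 h2 hs h => EPC.seg_not_isLocalMin h1 h2 hs ?_) hs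
  have e : (fun x => En s (EPC.Qt 1 x)) = fun x => En s (Qc x) := funext fun x => En_Qt s x
  rw [e]
  exact h

/-- the classification, with the critical sum -/
theorem classify_crit {SR : (Fin 6 → ℝ) → Prop} {s0 : ℝ} (hb : Blocks SR s0) (s : ℝ)
    (hs : 3 / 2 < s) : 0 < crit s ↔ s < s0 :=
  (bcc_iff_crit hs).symm.trans (hb.bcc s hs)

end Pool.Agent.Lib.EPL
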