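import Pool.Agent.Lib.EPL.CuS

/-!
# EPL.CuD: the second triangular sum of the cusp lemma

With `Z₁ = i`, `Z₂ = j + α i`, `Z₃ = k + β i + γ j` (in `tq a b c`: `a` belongs to `Z₃`, `b` to
`Z₂`, `c` to `Z₁`):  `D = ∑ (b Z₂² - c Z₁²) exp (-(a Z₃² + b Z₂² + c Z₁²)) > 0` if
`c ≥ π²/2.1` (we assume `c ≥ 4.699`), `0 < b`, `1.587 b ≤ c`, `0 < a ≤ 4/3 b`.

PROOF (summability from `summable_tq`).  Drop `b Z₂²` for `i ≠ 0`; for `i = 0`:
`∑_{j,k} b j² e^{-b j²} e^{-a (k + γ j)²} ≥ th2 0 b * (0.9 e^{-a/4} th 0 a)` (`le_th`);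
`∑_{i ≠ 0} c i² e^{-c i²} ∑_{j,k} e^{- b Z₂² - a Z₃²} ≤ th2 0 c * th 0 b * th 0 a` (`th_le` twice).
So it is enough that `0.9 e^{-a/4} th2 0 b > th2 0 c * th 0 b`, where
`th2 0 c ≤ 2.001 c e^{-c}` (`th2_upper`).
Case `b ≥ 2`: `th2 0 b ≥ 2 b e^{-b} / (1 + 2 e^{-b}) th 0 b` (`th2_lower`), `e^{-a/4} ≥ e^{-b/3}`;
`b e^{-4b/3}` is decreasing for `b ≥ 3/4`; split at `b = 5/2`.
Case `b < 2`: `th2 0 b ≥ 0.42 th 0 b` (`th2_lower'`), `e^{-a/4} ≥ e^{-2/3}`.
-/

namespace Pool.Agent.Lib.EPL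

namespace CuDAux

open Real

theorem tq_nonneg {a b c : ℝ} (ha : 0 < a) (hb : 0 < b) (hc : 0 < c) (α β γ : ℝ) (p : ℤ × ℤ × ℤ) :
    0 ≤ tq a b c α β γ p := by
  unfold tq
  positivity

theorem summable_w {a b c : ℝ} (ha : 0 < a) (hb : 0 < b) (hc : 0 < c) (α β γ : ℝ)
    {f : ℤ × ℤ × ℤ → ℝ} (h0 : ∀ p, 0 ≤ f p) (h1 : ∀ p, f p ≤ 1 + tq a b c α β γ p) :
    Summable fun p : ℤ × ℤ × ℤ => f p * exp (-tq a b c α β γ p) :=
  Summable.of_nonneg_of_le (fun p => mul_nonneg (h0 p) (exp_pos _).le)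
    (fun p => mul_le_mul_of_nonneg_right (h1 p) (exp_pos _).le) (summable_tq ha hb hc α β γ)

theorem summable_inner {a b : ℝ} (ha : 0 < a) (hb : 0 < b) (α β γ : ℝ) (i : ℤ) :
    Summable fun q : ℤ × ℤ => exp (-(b * ((q.1 : ℝ) + α * i) ^ 2)) *
      exp (-(a * ((q.2 : ℝ) + (β * i + γ * q.1)) ^ 2)) := by
  have h := (summable_w ha hb one_pos α β γ (f := fun _ => 1) (fun _ => zero_le_one)
    (fun p => by have := tq_nonneg ha hb one_pos α β γ p; linarith)).prod_factor i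
  refine (h.mul_left (exp ((i : ℝ) ^ 2))).congr fun q => ?_
  rw [one_mul, ← exp_add, ← exp_add]
  congr 1
  unfold tq
  simp only
  ring

theorem tsum_inner {a b : ℝ} (ha : 0 < a) (hb : 0 < b) (α β γ : ℝ) (i : ℤ) :
    ∑' q : ℤ × ℤ, exp (-(b * ((q.1 : ℝ) + α * i) ^ 2)) *
      exp (-(a * ((q.2 : ℝ) + (β * i + γ * q.1)) ^ 2)) ≤ th 0 b * th 0 a := by
  have hs := summable_inner ha hb α β γ i
  rw [hs.tsum_prod]
  have e : ∀ j : ℤ, ∑' k : ℤ, exp (-(b * (((j, k) : ℤ × ℤ).1 + α * i : ℝ) ^ 2)) *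
      exp (-(a * ((((j, k) : ℤ × ℤ).2 : ℝ) + (β * i + γ * (((j, k) : ℤ × ℤ).1 : ℝ))) ^ 2)) =
      exp (-(b * ((j : ℝ) + α * i) ^ 2)) * th (β * i + γ * j) a := by
    intro j
    simp only
    rw [tsum_mul_left]
    rfl
  have h2 : ∑' j : ℤ, exp (-(b * ((j : ℝ) + α * i) ^ 2)) * th (β * i + γ * j) a ≤
      ∑' j : ℤ, exp (-(b * ((j : ℝ) + α * i) ^ 2)) * th 0 a := by
    have hR := (summable_th (α * i) hb).mul_right (th 0 a)
    refine Summable.tsum_le_tsum (fun j => ?_) ?_ hR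
    · exact mul_le_mul_of_nonneg_left (th_le _ ha) (exp_pos _).le
    · exact Summable.of_nonneg_of_le
        (fun j => mul_nonneg (exp_pos _).le (th_pos _ ha).le)
        (fun j => mul_le_mul_of_nonneg_left (th_le _ ha) (exp_pos _).le) hR
  rw [tsum_congr e]
  refine h2.trans ?_
  rw [tsum_mul_right]
  exact mul_le_mul_of_nonneg_right (th_le (α * i) hb) (th_pos _ ha).le

/-- decreasing function -/
theorem dec {x y r : ℝ} (hx : 0 < x) (hr : 1 ≤ r * x) (hxy : x ≤ y) :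
    y * exp (-(r * y)) ≤ x * exp (-(r * x)) := by
  have h1 := add_one_le_exp (r * (y - x))
  have h2 : y ≤ x * exp (r * (y - x)) := by
    have h3 : y - x ≤ r * x * (y - x) := by nlinarith
    have := mul_le_mul_of_nonneg_left h1 hx.le
    nlinarith
  have e : exp (-(r * x)) = exp (r * (y - x)) * exp (-(r * y)) := by
    rw [← exp_add]; congr 1; ring
  calc y * exp (-(r * y)) ≤ x * exp (r * (y - x)) * exp (-(r * y)) :=
        mul_le_mul_of_nonneg_right h2 (exp_pos _).le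
    _ = x * exp (-(r * x)) := by rw [e]; ring

theorem e4 : (54 : ℝ) < exp 4 := by
  have h := exp_one_gt_d9
  have e : exp 4 = exp 1 ^ 4 := by rw [← exp_nat_mul]; norm_num
  rw [e]
  have h1 : (2.718 : ℝ) < exp 1 := by linarith
  have h2 : (2.718 : ℝ) ^ 4 < exp 1 ^ 4 := pow_lt_pow_left₀ h1 (by norm_num) (by norm_num)
  have h3 : (54 : ℝ) < (2.718 : ℝ) ^ 4 := by norm_num
  linarith

/-- the numerical inequality -/
theorem num {a b c : ℝ} (hc : 4699 / 1000 ≤ c) (hb0 : 0 < b) (hb : 1587 / 1000 * b ≤ c)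
    (ha : a ≤ 4 / 3 * b) :
    th2 0 c * th 0 b < 9 / 10 * exp (-(a / 4)) * th2 0 b := by
  have hX := th_pos 0 hb0
  have hc0 : 0 < c := by linarith
  have hup := th2_upper (x := c) (by linarith)
  have hda : exp (-(b / 3)) ≤ exp (-(a / 4)) := exp_le_exp.2 (by linarith)
  have hdc : c * exp (-c) ≤ 4699 / 1000 * exp (-(4699 / 1000)) := by
    have := dec (x := 4699 / 1000) (y := c) (r := 1) (by norm_num) (by norm_num) hc
    simpa using this
  rcases le_total b 2 with h2 | h2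
  · have hl := th2_lower' hb0 h2
    have h23 : exp (-(2 / 3)) ≤ exp (-(a / 4)) := exp_le_exp.2 (by linarith)
    have hE : exp (-(4699 / 1000)) ≤ exp (-(2 / 3)) * (1 / 54) := by
      have h1 : exp (-(4699 / 1000 : ℝ)) = exp (-(2 / 3)) * exp (-(4699 / 1000 - 2 / 3)) := by
        rw [← exp_add]; congr 1; ring
      rw [h1]
      refine mul_le_mul_of_nonneg_left ?_ (exp_pos _).le
      have h3 : exp (-(4699 / 1000 - 2 / 3 : ℝ)) ≤ exp (-4) := exp_le_exp.2 (by norm_num)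
      have h4 : exp (-4 : ℝ) ≤ 1 / 54 := by
        rw [exp_neg, ← one_div]
        exact one_div_le_one_div_of_le (by norm_num) e4.le
      exact h3.trans h4
    have hp : 0 < exp (-(2 / 3 : ℝ)) := exp_pos _
    calc th2 0 c * th 0 b ≤ (2001 / 1000 * c * exp (-c)) * th 0 b :=
          mul_le_mul_of_nonneg_right hup hX.le
      _ ≤ (2001 / 1000 * (4699 / 1000 * (exp (-(2 / 3)) * (1 / 54)))) * th 0 b := by
          refine mul_le_mul_of_nonneg_right ?_ hX.le
          nlinarith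
      _ < (9 / 10 * exp (-(2 / 3)) * (42 / 100)) * th 0 b := by
          refine mul_lt_mul_of_pos_right ?_ hX
          nlinarith
      _ = 9 / 10 * exp (-(2 / 3)) * (42 / 100 * th 0 b) := by ring
      _ ≤ 9 / 10 * exp (-(a / 4)) * th2 0 b := by
          refine mul_le_mul ?_ hl (by positivity) (by positivity)
          linarith
  · have hl := th2_lower hb0
    have hD : 0 < 1 + 2 * exp (-b) := by positivity
    -- it suffices to compare the main terms
    suffices hmain : 2001 / 1000 * c * exp (-c) * (1 + 2 * exp (-b)) <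
        18 / 10 * (b * exp (-(4 / 3 * b))) by
      have h3 : 2001 / 1000 * c * exp (-c) <
          9 / 10 * exp (-(b / 3)) * (2 * b * exp (-b) / (1 + 2 * exp (-b))) := by
        rw [show 9 / 10 * exp (-(b / 3)) * (2 * b * exp (-b) / (1 + 2 * exp (-b))) =
          (18 / 10 * (b * (exp (-(b / 3)) * exp (-b)))) / (1 + 2 * exp (-b)) by ring,
          lt_div_iff₀ hD, ← exp_add, show -(b / 3) + -b = -(4 / 3 * b) by ring]
        exact hmain
      calc th2 0 c * th 0 b ≤ (2001 / 1000 * c * exp (-c)) * th 0 b :=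
            mul_le_mul_of_nonneg_right hup hX.le
        _ < (9 / 10 * exp (-(b / 3)) * (2 * b * exp (-b) / (1 + 2 * exp (-b)))) * th 0 b :=
            mul_lt_mul_of_pos_right h3 hX
        _ = 9 / 10 * exp (-(b / 3)) * (2 * b * exp (-b) / (1 + 2 * exp (-b)) * th 0 b) := by ring
        _ ≤ 9 / 10 * exp (-(a / 4)) * th2 0 b := by
            refine mul_le_mul ?_ hl (by positivity) (by positivity)
            linarith
    rcases le_total b (5 / 2) with h5 | h5
    · -- 2 ≤ b ≤ 5/2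
      have hd := dec (x := b) (y := 5 / 2) (r := 4 / 3) hb0 (by linarith) h5
      rw [show (4 / 3 * (5 / 2) : ℝ) = 10 / 3 by norm_num] at hd
      have hb2 : exp (-b) ≤ 14 / 100 := by
        have h1 : exp (-b) ≤ exp (-2) := exp_le_exp.2 (by linarith)
        have h2' : exp (-2 : ℝ) ≤ 14 / 100 := by
          have e2 : exp (2 : ℝ) = exp 1 ^ 2 := by rw [← exp_nat_mul]; norm_num
          have h := exp_one_gt_d9
          have h7 : (7.3 : ℝ) < exp 2 := by
            rw [e2]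
            have h1 : (2.718 : ℝ) < exp 1 := by linarith
            nlinarith
          rw [exp_neg, ← one_div]
          calc 1 / exp 2 ≤ 1 / (7.3 : ℝ) := one_div_le_one_div_of_le (by norm_num) h7.le
            _ ≤ 14 / 100 := by norm_num
        exact h1.trans h2'
      have hE : exp (-(4699 / 1000)) ≤ exp (-(10 / 3)) * (1 / 3) := by
        have h1 : exp (-(4699 / 1000 : ℝ)) = exp (-(10 / 3)) * exp (-(4699 / 1000 - 10 / 3)) := by
          rw [← exp_add]; congr 1; ring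
        rw [h1]
        refine mul_le_mul_of_nonneg_left ?_ (exp_pos _).le
        have h3 : (3 : ℝ) ≤ exp (4699 / 1000 - 10 / 3) := by
          have h6 := Real.quadratic_le_exp_of_nonneg (x := (4699 / 1000 - 10 / 3 : ℝ)) (by norm_num)
          nlinarith
        rw [exp_neg, ← one_div]
        exact one_div_le_one_div_of_le (by norm_num) h3
      have hp : 0 < exp (-(10 / 3 : ℝ)) := exp_pos _
      have hq : 0 < exp (-b) := exp_pos _
      have hcc : 0 < c * exp (-c) := by positivity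
      calc 2001 / 1000 * c * exp (-c) * (1 + 2 * exp (-b))
          = 2001 / 1000 * (c * exp (-c)) * (1 + 2 * exp (-b)) := by ring
        _ ≤ 2001 / 1000 * (4699 / 1000 * (exp (-(10 / 3)) * (1 / 3))) * (128 / 100) := by
            refine mul_le_mul ?_ (by linarith) hD.le (by positivity)
            nlinarith
        _ < 18 / 10 * (5 / 2 * exp (-(10 / 3))) := by nlinarith
        _ ≤ _ := by linarith
    · -- 5/2 ≤ b ≤ c / 1.587
      have hy : b ≤ c / (1587 / 1000) := by rw [le_div_iff₀ (by norm_num)]; linarith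
      have hd := dec (x := b) (y := c / (1587 / 1000)) (r := 4 / 3) hb0 (by linarith) hy
      have hb2 : exp (-b) ≤ 825 / 10000 := by
        have h1 : exp (-b) ≤ exp (-(5 / 2)) := exp_le_exp.2 (by linarith)
        have h2' : exp (-(5 / 2) : ℝ) ≤ 825 / 10000 := by
          have e2 : exp (5 / 2 : ℝ) ^ 2 = exp 1 ^ 5 := by
            rw [← exp_nat_mul, ← exp_nat_mul]; norm_num
          have h := exp_one_gt_d9
          have h1 : (2.718 : ℝ) < exp 1 := by linarith
          have h2 : (2.718 : ℝ) ^ 5 < exp 1 ^ 5 := pow_lt_pow_left₀ h1 (by norm_num) (by norm_num)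
          have h7 : (12.17 : ℝ) ≤ exp (5 / 2) := by
            by_contra hcon
            push Not at hcon
            have h9 : exp (5 / 2 : ℝ) ^ 2 < 12.17 ^ 2 :=
              pow_lt_pow_left₀ hcon (exp_pos _).le (by norm_num)
            rw [e2] at h9
            have h10 : (12.17 : ℝ) ^ 2 < (2.718 : ℝ) ^ 5 := by norm_num
            linarith
          rw [exp_neg, ← one_div]
          calc 1 / exp (5 / 2) ≤ 1 / (12.17 : ℝ) := one_div_le_one_div_of_le (by norm_num) h7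
            _ ≤ 825 / 10000 := by norm_num
        exact h1.trans h2'
      -- the exponential gain
      set r : ℝ := 4 / 3 * (c / (1587 / 1000)) with hr
      have hrc : 7507 / 10000 ≤ c - r := by
        have : c - r = c * (1 - 4000 / 4761) := by rw [hr]; ring
        rw [this]
        have h761 : (0 : ℝ) < 1 - 4000 / 4761 := by norm_num
        have := mul_le_mul_of_nonneg_right hc h761.le
        have h11 : (7507 / 10000 : ℝ) ≤ 4699 / 1000 * (1 - 4000 / 4761) := by norm_num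
        linarith
      have hg : (208 / 100 : ℝ) ≤ exp (c - r) := by
        have h1 : exp (7507 / 10000 : ℝ) ≤ exp (c - r) := exp_le_exp.2 hrc
        have h12 : (208 / 100 : ℝ) ≤ exp (7507 / 10000) := by
          have e1 : exp (7507 / 10000 : ℝ) = exp (7507 / 20000) ^ 2 := by
            rw [← exp_nat_mul]; congr 1; norm_num
          have h6 := Real.quadratic_le_exp_of_nonneg (x := (7507 / 20000 : ℝ)) (by norm_num)
          rw [e1]
          have h13 : (1 : ℝ) + 7507 / 20000 + (7507 / 20000) ^ 2 / 2 ≤ exp (7507 / 20000) := h6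
          have h14 : ((1 : ℝ) + 7507 / 20000 + (7507 / 20000) ^ 2 / 2) ^ 2 ≤
              exp (7507 / 20000) ^ 2 := pow_le_pow_left₀ (by norm_num) h13 2
          have h15 : (208 / 100 : ℝ) ≤ ((1 : ℝ) + 7507 / 20000 + (7507 / 20000) ^ 2 / 2) ^ 2 := by
            norm_num
          linarith
        linarith
      have hE : exp (-c) * (208 / 100) ≤ exp (-r) := by
        have h1 : exp (-r) = exp (-c) * exp (c - r) := by
          rw [← exp_add]; congr 1; ring
        rw [h1]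
        exact mul_le_mul_of_nonneg_left hg (exp_pos _).le
      have hp : 0 < exp (-c) := exp_pos _
      have hcc : 0 < c * exp (-c) := by positivity
      have hcr : c * exp (-c) * (208 / 100) ≤ c * exp (-r) := by
        have := mul_le_mul_of_nonneg_left hE hc0.le
        linarith
      calc 2001 / 1000 * c * exp (-c) * (1 + 2 * exp (-b))
          = 2001 / 1000 * (c * exp (-c)) * (1 + 2 * exp (-b)) := by ring
        _ ≤ 2001 / 1000 * (c * exp (-c)) * (1165 / 1000) := by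
            refine mul_le_mul_of_nonneg_left (by linarith) (by positivity)
        _ < 18 / 10 * (1000 / 1587) * (c * exp (-r)) := by nlinarith
        _ = 18 / 10 * (c / (1587 / 1000) * exp (-r)) := by ring
        _ ≤ _ := by linarith

end CuDAux

open CuDAux Real in
/-- the second triangular sum is positive -/
theorem cuD_pos {a b c : ℝ} (hc : 4699 / 1000 ≤ c) (hb0 : 0 < b) (hb : 1587 / 1000 * b ≤ c)
    (ha0 : 0 < a) (ha : a ≤ 4 / 3 * b) (α β γ : ℝ) :
    0 < ∑' p : ℤ × ℤ × ℤ, (b * ((p.2.1 : ℝ) + α * p.1) ^ 2 - c * (p.1 : ℝ) ^ 2) *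
      Real.exp (-tq a b c α β γ p) := by
  have hc0 : 0 < c := by linarith
  have hP : Summable fun p : ℤ × ℤ × ℤ => b * ((p.2.1 : ℝ) + α * p.1) ^ 2 *
      exp (-tq a b c α β γ p) := by
    refine summable_w ha0 hb0 hc0 α β γ (fun p => by positivity) fun p => ?_
    unfold tq
    have h1 : 0 ≤ a * ((p.2.2 : ℝ) + β * p.1 + γ * p.2.1) ^ 2 := by positivity
    have h2 : 0 ≤ c * (p.1 : ℝ) ^ 2 := by positivity
    linarith
  have hB : Summable fun p : ℤ × ℤ × ℤ => c * (p.1 : ℝ) ^ 2 * exp (-tq a b c α β γ p) := by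
    refine summable_w ha0 hb0 hc0 α β γ (fun p => by positivity) fun p => ?_
    unfold tq
    have h1 : 0 ≤ a * ((p.2.2 : ℝ) + β * p.1 + γ * p.2.1) ^ 2 := by positivity
    have h2 : 0 ≤ b * ((p.2.1 : ℝ) + α * p.1) ^ 2 := by positivity
    linarith
  have e0 : ∑' p : ℤ × ℤ × ℤ, (b * ((p.2.1 : ℝ) + α * p.1) ^ 2 - c * (p.1 : ℝ) ^ 2) *
      exp (-tq a b c α β γ p) =
      ∑' p : ℤ × ℤ × ℤ, b * ((p.2.1 : ℝ) + α * p.1) ^ 2 * exp (-tq a b c α β γ p) -
      ∑' p : ℤ × ℤ × ℤ, c * (p.1 : ℝ) ^ 2 * exp (-tq a b c α β γ p) := by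
    rw [← hP.tsum_sub hB]
    exact tsum_congr fun p => by ring
  rw [e0, sub_pos]
  -- upper bound
  have hBle : ∑' p : ℤ × ℤ × ℤ, c * (p.1 : ℝ) ^ 2 * exp (-tq a b c α β γ p) ≤
      th2 0 c * (th 0 b * th 0 a) := by
    rw [hB.tsum_prod]
    have e1 : ∀ i : ℤ, ∑' q : ℤ × ℤ, c * (((i, q) : ℤ × ℤ × ℤ).1 : ℝ) ^ 2 *
        exp (-tq a b c α β γ (i, q)) = c * ((i : ℝ) + 0) ^ 2 * exp (-(c * ((i : ℝ) + 0) ^ 2)) *
        ∑' q : ℤ × ℤ, exp (-(b * ((q.1 : ℝ) + α * i) ^ 2)) *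
          exp (-(a * ((q.2 : ℝ) + (β * i + γ * q.1)) ^ 2)) := by
      intro i
      rw [← tsum_mul_left]
      refine tsum_congr fun q => ?_
      rw [mul_assoc (c * ((i : ℝ) + 0) ^ 2), ← exp_add, ← exp_add]
      unfold tq
      simp only [add_zero]
      congr 2
      ring
    rw [tsum_congr e1]
    have hR := (summable_th2 0 hc0).mul_right (th 0 b * th 0 a)
    have hle : ∀ i : ℤ, c * ((i : ℝ) + 0) ^ 2 * exp (-(c * ((i : ℝ) + 0) ^ 2)) *
        ∑' q : ℤ × ℤ, exp (-(b * ((q.1 : ℝ) + α * i) ^ 2)) *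
          exp (-(a * ((q.2 : ℝ) + (β * i + γ * q.1)) ^ 2)) ≤
        c * ((i : ℝ) + 0) ^ 2 * exp (-(c * ((i : ℝ) + 0) ^ 2)) * (th 0 b * th 0 a) := fun i =>
      mul_le_mul_of_nonneg_left (tsum_inner ha0 hb0 α β γ i) (by positivity)
    have h1 := Summable.tsum_le_tsum hle (Summable.of_nonneg_of_le (fun i =>
      mul_nonneg (by positivity) (tsum_nonneg fun q => by positivity)) hle hR) hR
    rw [tsum_mul_right] at h1
    exact h1
  -- lower bound
  have hAge : 9 / 10 * exp (-(a / 4)) * th 0 a * th2 0 b ≤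
      ∑' p : ℤ × ℤ × ℤ, b * ((p.2.1 : ℝ) + α * p.1) ^ 2 * exp (-tq a b c α β γ p) := by
    have h0 : ∑' q : ℤ × ℤ, b * (((((0 : ℤ), q) : ℤ × ℤ × ℤ).2.1 : ℝ) +
        α * ((((0 : ℤ), q) : ℤ × ℤ × ℤ).1 : ℝ)) ^ 2 * exp (-tq a b c α β γ ((0 : ℤ), q)) ≤
        ∑' p : ℤ × ℤ × ℤ, b * ((p.2.1 : ℝ) + α * p.1) ^ 2 * exp (-tq a b c α β γ p) := by
      rw [hP.tsum_prod]
      exact hP.prod.le_tsum (0 : ℤ) fun i _ => tsum_nonneg fun q => by positivity
    refine le_trans ?_ h0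
    have hP0 := hP.prod_factor (0 : ℤ)
    rw [hP0.tsum_prod]
    have e1 : ∀ j : ℤ, ∑' k : ℤ, b * ((((((0 : ℤ), (j, k)) : ℤ × ℤ × ℤ)).2.1 : ℝ) +
        α * ((((0 : ℤ), (j, k)) : ℤ × ℤ × ℤ).1 : ℝ)) ^ 2 *
        exp (-tq a b c α β γ ((0 : ℤ), (j, k))) =
        b * ((j : ℝ) + 0) ^ 2 * exp (-(b * ((j : ℝ) + 0) ^ 2)) * th (γ * j) a := by
      intro j
      unfold th
      rw [← tsum_mul_left]
      refine tsum_congr fun k => ?_
      rw [mul_assoc (b * ((j : ℝ) + 0) ^ 2), ← exp_add]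
      unfold tq
      simp only [Int.cast_zero, mul_zero, add_zero]
      congr 2
      ring
    rw [tsum_congr e1]
    have hL := (summable_th2 0 hb0).mul_right (9 / 10 * exp (-(a / 4)) * th 0 a)
    have hS : Summable fun j : ℤ => b * ((j : ℝ) + 0) ^ 2 * exp (-(b * ((j : ℝ) + 0) ^ 2)) *
        th (γ * j) a := by
      refine Summable.of_nonneg_of_le (fun j => mul_nonneg (by positivity) (th_pos _ ha0).le)
        (fun j => mul_le_mul_of_nonneg_left (th_le _ ha0) (by positivity))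
        ((summable_th2 0 hb0).mul_right (th 0 a))
    have h1 := Summable.tsum_le_tsum (fun j : ℤ => mul_le_mul_of_nonneg_left
      (le_th (γ * j) ha0) (show 0 ≤ b * ((j : ℝ) + 0) ^ 2 * exp (-(b * ((j : ℝ) + 0) ^ 2)) by
        positivity)) hL hS
    rw [tsum_mul_right] at h1
    have e2 : (∑' j : ℤ, b * ((j : ℝ) + 0) ^ 2 * exp (-(b * ((j : ℝ) + 0) ^ 2))) = th2 0 b := rfl
    rw [e2] at h1
    linarith
  have hnum := num hc hb0 hb ha
  have hY := th_pos 0 ha0
  calc ∑' p : ℤ × ℤ × ℤ, c * (p.1 : ℝ) ^ 2 * exp (-tq a b c α β γ p)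
      ≤ th2 0 c * (th 0 b * th 0 a) := hBle
    _ = th2 0 c * th 0 b * th 0 a := by ring
    _ < 9 / 10 * exp (-(a / 4)) * th2 0 b * th 0 a := mul_lt_mul_of_pos_right hnum hY
    _ = 9 / 10 * exp (-(a / 4)) * th 0 a * th2 0 b := by ring
    _ ≤ _ := hAge

end Pool.Agent.Lib.EPL
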