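import Pool.Agent.Lib.EPL.First
import Pool.Agent.Lib.EpZ.LatB

/-!
# The Poisson formula for the derivative of the theta function
-/

open MeasureTheory Set Filter Topology Matrix
open scoped Matrix.Norms.Elementwise

namespace Pool.Agent.Lib.EPL

open Pool.Agent.Lib.EpZ Pool.Agent.Lib.EPS

lemma Th_add {Q : Mx 3} (hQ : PD Q) (H K : Mx 3) {t : ℝ} (ht : 0 < t) :
    Th Q (H + K) t = Th Q H t + Th Q K t := by
  unfold Th
  rw [← (summable_Th hQ H ht).tsum_add (summable_Th hQ K ht)]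
  exact tsum_congr fun x => by rw [qf_add]; ring

lemma Th_smul (Q H : Mx 3) (c t : ℝ) : Th Q (c • H) t = c * Th Q H t := by
  unfold Th
  rw [← tsum_mul_left]
  exact tsum_congr fun x => by rw [qf_smul]; ring

lemma Th_neg (Q H : Mx 3) (t : ℝ) : Th Q (-H) t = -Th Q H t := by
  have := Th_smul Q H (-1) t
  simpa using this

/-- the derivative of a theta function along a quadratic path -/
theorem hasDerivAt_theta {Q : Mx 3} (hQ : PD Q) (H K : Mx 3) {t : ℝ} (ht : 0 < t) :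
    HasDerivAt (fun e : ℝ => ∑' x : Fin 3 → ℤ, Real.exp (-(t * qf (Q + e • H + e ^ 2 • K) x)))
      (-(t * Th Q H t)) 0 := by
  obtain ⟨c, hc, hl⟩ := hQ.low
  set M : ℝ := 3 * ‖H‖ + 3 * ‖K‖ with hM
  have hM0 : 0 ≤ M := by positivity
  set r : ℝ := min 1 (c / (2 * (M + 1))) with hr
  have hr0 : 0 < r := lt_min one_pos (by positivity)
  have hH : ∀ x : Fin 3 → ℤ, |qf H x| ≤ 3 * ‖H‖ * nn x := fun x => by
    simpa using qf_abs_le H x
  have hK : ∀ x : Fin 3 → ℤ, |qf K x| ≤ 3 * ‖K‖ * nn x := fun x => by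
    simpa using qf_abs_le K x
  have hval : ∀ (e : ℝ) (x : Fin 3 → ℤ), qf (Q + e • H + e ^ 2 • K) x =
      qf Q x + e * qf H x + e ^ 2 * qf K x := fun e x => by
    rw [qf_add, qf_add, qf_smul, qf_smul]
  have hlow : ∀ e ∈ Metric.ball (0 : ℝ) r, ∀ x : Fin 3 → ℤ,
      c / 2 * nn x ≤ qf (Q + e • H + e ^ 2 • K) x := by
    intro e he x
    have he1 : |e| < r := by simpa using he
    have he2 : |e| ≤ 1 := he1.le.trans (min_le_left _ _)
    have he3 : |e| ≤ c / (2 * (M + 1)) := he1.le.trans (min_le_right _ _)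
    have hn := nn_nonneg x
    rw [hval]
    have h1 : |e * qf H x| ≤ |e| * (3 * ‖H‖ * nn x) := by
      rw [abs_mul]; exact mul_le_mul_of_nonneg_left (hH x) (abs_nonneg _)
    have h2 : |e ^ 2 * qf K x| ≤ |e| * (3 * ‖K‖ * nn x) := by
      rw [abs_mul, abs_pow]
      have h3 : |e| ^ 2 ≤ |e| := by nlinarith [abs_nonneg e]
      exact mul_le_mul h3 (hK x) (abs_nonneg _) (abs_nonneg _)
    have h4 : |e| * (M * nn x) ≤ c / 2 * nn x := by
      have h5 : |e| * M ≤ c / 2 := by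
        calc |e| * M ≤ c / (2 * (M + 1)) * (M + 1) :=
              mul_le_mul he3 (by linarith) hM0 (by positivity)
          _ = c / 2 := by field_simp
      nlinarith
    have h6 := hl x
    have h7 := (abs_le.mp h1).1
    have h8 := (abs_le.mp h2).1
    rw [hM] at h4
    nlinarith
  have hu : Summable fun x : Fin 3 → ℤ => t * (3 * ‖H‖ + 2 * (3 * ‖K‖)) *
      (nn x * Real.exp (-(t * (c / 2) * nn x))) :=
    (summable_nn_exp (by positivity)).mul_left _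
  have key := hasDerivAt_tsum_of_isPreconnected (𝕜 := ℝ) (y := (0 : ℝ)) (y₀ := (0 : ℝ))
    (g := fun (x : Fin 3 → ℤ) (e : ℝ) => Real.exp (-(t * qf (Q + e • H + e ^ 2 • K) x)))
    (g' := fun (x : Fin 3 → ℤ) (e : ℝ) => -(t * (qf H x + 2 * e * qf K x)) *
      Real.exp (-(t * qf (Q + e • H + e ^ 2 • K) x))) hu Metric.isOpen_ball
    (Metric.isPreconnected_ball (x := (0 : ℝ)) (r := r)) ?_ ?_ (Metric.mem_ball_self hr0) ?_
    (Metric.mem_ball_self hr0)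
  · convert! key using 1
    unfold Th
    rw [← tsum_mul_left, ← tsum_neg]
    refine tsum_congr fun x => ?_
    simp only [zero_smul, add_zero, ne_eq, OfNat.ofNat_ne_zero, not_false_eq_true, zero_pow,
      mul_zero, zero_mul]
    ring
  · intro x e _
    have h1 : HasDerivAt (fun e : ℝ => -(t * qf (Q + e • H + e ^ 2 • K) x))
        (-(t * (qf H x + 2 * e * qf K x))) e := by
      have h2 : (fun e : ℝ => -(t * qf (Q + e • H + e ^ 2 • K) x)) =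
          fun e : ℝ => -(t * (qf Q x + e * qf H x + e ^ 2 * qf K x)) := by
        funext e; rw [hval]
      rw [h2]
      have h3 : HasDerivAt (fun e : ℝ => qf Q x + e * qf H x + e ^ 2 * qf K x)
          (0 + 1 * qf H x + (2 : ℕ) * e ^ (2 - 1) * qf K x) e :=
        ((hasDerivAt_const e (qf Q x)).add ((hasDerivAt_id e).mul_const _)).add
          ((hasDerivAt_pow 2 e).mul_const _)
      have h4 := (h3.const_mul t).neg
      convert! h4 using 1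
      push_cast
      ring
    have h5 := h1.exp
    convert! h5 using 1
    ring
  · intro x e he
    have he1 : |e| < r := by simpa using he
    have he2 : |e| ≤ 1 := he1.le.trans (min_le_left _ _)
    rw [Real.norm_eq_abs, abs_mul, abs_of_pos (Real.exp_pos _), abs_neg, abs_mul, abs_of_pos ht]
    have hn := nn_nonneg x
    have h1 : |qf H x + 2 * e * qf K x| ≤ (3 * ‖H‖ + 2 * (3 * ‖K‖)) * nn x := by
      have h2 : |2 * e * qf K x| ≤ 2 * (3 * ‖K‖ * nn x) := by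
        rw [abs_mul, abs_mul, abs_of_pos (by norm_num : (0 : ℝ) < 2)]
        have := hK x
        have h3 : 0 ≤ 3 * ‖K‖ * nn x := by positivity
        calc 2 * |e| * |qf K x| ≤ 2 * 1 * (3 * ‖K‖ * nn x) :=
              mul_le_mul (by linarith) this (abs_nonneg _) (by norm_num)
          _ = _ := by ring
      calc |qf H x + 2 * e * qf K x| ≤ |qf H x| + |2 * e * qf K x| := abs_add_le _ _
        _ ≤ 3 * ‖H‖ * nn x + 2 * (3 * ‖K‖ * nn x) := add_le_add (hH x) h2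
        _ = _ := by ring
    have h2 : Real.exp (-(t * qf (Q + e • H + e ^ 2 • K) x)) ≤
        Real.exp (-(t * (c / 2) * nn x)) := by
      refine Real.exp_le_exp.mpr ?_
      have := mul_le_mul_of_nonneg_left (hlow e he x) ht.le
      linarith
    calc t * |qf H x + 2 * e * qf K x| * Real.exp (-(t * qf (Q + e • H + e ^ 2 • K) x))
        ≤ t * ((3 * ‖H‖ + 2 * (3 * ‖K‖)) * nn x) * Real.exp (-(t * (c / 2) * nn x)) :=
          mul_le_mul (mul_le_mul_of_nonneg_left h1 ht.le) h2 (Real.exp_pos _).le (by positivity)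
      _ = _ := by ring
  · simp only [zero_smul, add_zero, ne_eq, OfNat.ofNat_ne_zero, not_false_eq_true, zero_pow]
    exact summable_theta hQ ht

/-- the direction of the path `(1 + ε z wᵀ)ᵀ Q (1 + ε z wᵀ)` -/
def Hd (Q : Mx 3) (w z : Fin 3 → ℝ) : Mx 3 :=
  vecMulVec (Q *ᵥ z) w + vecMulVec w (Q *ᵥ z)

lemma Hd_symm (Q : Mx 3) (w z : Fin 3 → ℝ) : (Hd Q w z).IsSymm := by
  unfold Hd Matrix.IsSymm
  rw [transpose_add, transpose_vecMulVec, transpose_vecMulVec, add_comm]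

lemma qr_vecMulVec (u v y : Fin 3 → ℝ) : qr (vecMulVec u v) y = (u ⬝ᵥ y) * (v ⬝ᵥ y) := by
  rw [qr, vecMulVec_mulVec, dotProduct_smul]
  simp only [MulOpposite.smul_eq_mul_unop, MulOpposite.unop_op]
  rw [dotProduct_comm y u]

lemma qf_Hd (Q : Mx 3) (w z : Fin 3 → ℝ) (x : Fin 3 → ℤ) :
    qf (Hd Q w z) x = 2 * (w ⬝ᵥ rv x) * ((Q *ᵥ z) ⬝ᵥ rv x) := by
  unfold Hd qf
  rw [qr_add, qr_vecMulVec, qr_vecMulVec]
  ring

lemma trace_Hd {Q : Mx 3} (hQ : PD Q) (w z : Fin 3 → ℝ) :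
    (Q⁻¹ * Hd Q w z).trace = 2 * (w ⬝ᵥ z) := by
  have hu := hQ.det_pos.ne'.isUnit
  unfold Hd
  rw [mul_add, trace_add, mul_vecMulVec, mul_vecMulVec, trace_vecMulVec, trace_vecMulVec,
    mulVec_mulVec, Matrix.nonsing_inv_mul _ hu, one_mulVec]
  have h1 : (Q⁻¹ *ᵥ w) ⬝ᵥ (Q *ᵥ z) = w ⬝ᵥ z := by
    rw [dotProduct_mulVec, ← mulVec_transpose, hQ.1.eq, mulVec_mulVec,
      Matrix.mul_nonsing_inv _ hu, one_mulVec]
  rw [h1, dotProduct_comm z w]
  ring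

/-- the path with its inverse -/
lemma path_inv {Q : Mx 3} (hQ : PD Q) {w z : Fin 3 → ℝ} (hwz : w ⬝ᵥ z = 0) (e : ℝ) :
    Q + e • Hd Q w z + e ^ 2 • (qr Q z • vecMulVec w w) =
        (1 + e • vecMulVec z w)ᵀ * Q * (1 + e • vecMulVec z w) ∧
      (1 + e • vecMulVec z w).det = 1 ∧
      ((1 + e • vecMulVec z w)ᵀ * Q * (1 + e • vecMulVec z w))⁻¹ =
        Q⁻¹ + e • (-Hd Q⁻¹ z w) + e ^ 2 • (qr Q⁻¹ w • vecMulVec z z) := by
  have hu := hQ.det_pos.ne'.isUnit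
  have hzw : z ⬝ᵥ w = 0 := by rw [dotProduct_comm]; exact hwz
  have hQs : ∀ v u : Fin 3 → ℝ, vecMulVec v u * Q = vecMulVec v (Q *ᵥ u) := by
    intro v u
    rw [vecMulVec_mul, ← mulVec_transpose, hQ.1.eq]
  have hQis : ∀ v u : Fin 3 → ℝ, vecMulVec v u * Q⁻¹ = vecMulVec v (Q⁻¹ *ᵥ u) := by
    intro v u
    rw [vecMulVec_mul, ← mulVec_transpose, transpose_nonsing_inv, hQ.1.eq]
  have hsq : ∀ a b c d : Fin 3 → ℝ, vecMulVec a b * vecMulVec c d = (b ⬝ᵥ c) • vecMulVec a d := by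
    intro a b c d
    rw [vecMulVec_mul_vecMulVec, vecMulVec_smul]
  have h1 : Q + e • Hd Q w z + e ^ 2 • (qr Q z • vecMulVec w w) =
        (1 + e • vecMulVec z w)ᵀ * Q * (1 + e • vecMulVec z w) := by
    rw [transpose_add, transpose_one, transpose_smul, transpose_vecMulVec]
    rw [add_mul, one_mul, smul_mul_assoc, hQs, mul_add, mul_one, add_mul, mul_smul_comm,
      mul_vecMulVec, smul_mul_assoc, mul_smul_comm, hsq, smul_smul, smul_smul, smul_smul]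
    unfold Hd
    rw [smul_add]
    have : qr Q z = (Q *ᵥ z) ⬝ᵥ z := by rw [qr, dotProduct_comm]
    rw [this]
    have h2 : e ^ 2 * ((Q *ᵥ z) ⬝ᵥ z) = e * e * ((Q *ᵥ z) ⬝ᵥ z) := by ring
    rw [h2]
    abel
  have h2 : (1 + e • vecMulVec z w) * (1 + (-e) • vecMulVec z w) = 1 := by
    rw [mul_add, mul_one, add_mul, one_mul, mul_smul_comm, smul_mul_assoc, hsq, hwz]
    simp
  have h3 : (1 + e • vecMulVec z w).det = 1 := by
    have h0 : w 0 * z 0 + w 1 * z 1 + w 2 * z 2 = 0 := by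
      have := hwz
      rwa [dotProduct, Fin.sum_univ_three] at this
    simp only [det_fin_three, Matrix.add_apply, Matrix.smul_apply, vecMulVec_apply,
      Matrix.one_apply, smul_eq_mul, if_true, if_neg (by decide : ¬ ((0 : Fin 3) = 1)),
      if_neg (by decide : ¬ ((0 : Fin 3) = 2)), if_neg (by decide : ¬ ((1 : Fin 3) = 0)),
      if_neg (by decide : ¬ ((1 : Fin 3) = 2)), if_neg (by decide : ¬ ((2 : Fin 3) = 0)),
      if_neg (by decide : ¬ ((2 : Fin 3) = 1))]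
    linear_combination e * h0
  refine ⟨h1, h3, ?_⟩
  have h4 : (1 + e • vecMulVec z w)⁻¹ = 1 + (-e) • vecMulVec z w := inv_eq_right_inv h2
  rw [Matrix.mul_inv_rev, Matrix.mul_inv_rev, ← transpose_nonsing_inv, h4]
  rw [transpose_add, transpose_one, transpose_smul, transpose_vecMulVec]
  have hs : ∀ v : Fin 3 → ℝ, Q⁻¹ * vecMulVec w v = vecMulVec (Q⁻¹ *ᵥ w) v := fun v => by
    rw [mul_vecMulVec]
  rw [mul_add, mul_one, mul_smul_comm, hs, mul_add, add_mul, one_mul, smul_mul_assoc, hQis,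
    mul_smul_comm, add_mul, one_mul, smul_mul_assoc, hsq]
  unfold Hd
  have : qr Q⁻¹ w = w ⬝ᵥ (Q⁻¹ *ᵥ w) := rfl
  rw [this]
  simp only [smul_add, smul_neg, neg_smul, smul_smul, neg_add]
  have h5 : -e * (-e * (w ⬝ᵥ (Q⁻¹ *ᵥ w))) = e ^ 2 * (w ⬝ᵥ (Q⁻¹ *ᵥ w)) := by ring
  rw [h5]
  abel

lemma path_pd {Q : Mx 3} (hQ : PD Q) {w z : Fin 3 → ℝ} (hwz : w ⬝ᵥ z = 0) (e : ℝ) :
    PD (Q + e • Hd Q w z + e ^ 2 • (qr Q z • vecMulVec w w)) ∧
      (Q + e • Hd Q w z + e ^ 2 • (qr Q z • vecMulVec w w)).det = Q.det := by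
  obtain ⟨h1, h2, _⟩ := path_inv hQ hwz e
  rw [h1]
  constructor
  · exact LatBAux.pd_conj hQ (by rw [h2]; exact one_ne_zero)
  · rw [det_mul, det_mul, det_transpose, h2]
    ring

/-- the constant of the theta transformation for `Th` -/
noncomputable def Ct (Q : Mx 3) (t : ℝ) : ℝ :=
  (Real.pi / t) ^ ((3 : ℝ) / 2) * Q.det ^ (-(1 : ℝ) / 2) * (Real.pi ^ 2 / t ^ 2)

lemma Ct_pos {Q : Mx 3} (hQ : PD Q) {t : ℝ} (ht : 0 < t) : 0 < Ct Q t := by
  have := hQ.det_pos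
  have := Real.pi_pos
  unfold Ct
  positivity

theorem Th_dual_Hd {Q : Mx 3} (hQ : PD Q) {w z : Fin 3 → ℝ} (hwz : w ⬝ᵥ z = 0) {t : ℝ}
    (ht : 0 < t) :
    Th Q (Hd Q w z) t = -(Ct Q t * Th Q⁻¹ (Hd Q⁻¹ z w) (Real.pi ^ 2 / t)) := by
  have hpi := Real.pi_pos
  have h1 := hasDerivAt_theta hQ (Hd Q w z) (qr Q z • vecMulVec w w) ht
  have h2 := hasDerivAt_theta (inv_pd hQ) (-Hd Q⁻¹ z w) (qr Q⁻¹ w • vecMulVec z z)
    (t := Real.pi ^ 2 / t) (by positivity)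
  have h3 := h2.const_mul ((Real.pi / t) ^ ((3 : ℝ) / 2) * Q.det ^ (-(1 : ℝ) / 2))
  have h4 : (fun e : ℝ => ∑' x : Fin 3 → ℤ,
      Real.exp (-(t * qf (Q + e • Hd Q w z + e ^ 2 • (qr Q z • vecMulVec w w)) x))) =
      fun e : ℝ => (Real.pi / t) ^ ((3 : ℝ) / 2) * Q.det ^ (-(1 : ℝ) / 2) *
        ∑' x : Fin 3 → ℤ, Real.exp (-(Real.pi ^ 2 / t *
          qf (Q⁻¹ + e • (-Hd Q⁻¹ z w) + e ^ 2 • (qr Q⁻¹ w • vecMulVec z z)) x)) := by
    funext e
    obtain ⟨h5, h6⟩ := path_pd hQ hwz e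
    rw [theta_dual h5 ht, h6]
    congr 3
    funext y
    congr 4
    rw [(path_inv hQ hwz e).1, (path_inv hQ hwz e).2.2]
  rw [h4] at h1
  have h5 := h1.unique h3
  rw [Th_neg] at h5
  unfold Ct
  have h6 : Th Q (Hd Q w z) t = -(-(t * Th Q (Hd Q w z) t)) / t := by field_simp
  rw [h6, h5]
  field_simp

/-- the direction of the path `(1 + ε X)ᵀ Q (1 + ε X)` -/
def Hx (Q X : Mx 3) : Mx 3 := Q * X + Xᵀ * Q

lemma Hx_vec (Q : Mx 3) (hQ : Q.IsSymm) (w z : Fin 3 → ℝ) : Hx Q (vecMulVec z w) = Hd Q w z := by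
  unfold Hx Hd
  rw [mul_vecMulVec, transpose_vecMulVec, vecMulVec_mul, ← mulVec_transpose, hQ.eq]

lemma Hx_add (Q X Y : Mx 3) : Hx Q (X + Y) = Hx Q X + Hx Q Y := by
  unfold Hx
  rw [transpose_add, mul_add, add_mul]
  abel

lemma Hx_smul (Q X : Mx 3) (c : ℝ) : Hx Q (c • X) = c • Hx Q X := by
  unfold Hx
  rw [transpose_smul, Matrix.mul_smul, Matrix.smul_mul, smul_add]

lemma Hx_symm {Q : Mx 3} (hQ : Q.IsSymm) (X : Mx 3) : (Hx Q X).IsSymm := by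
  unfold Hx Matrix.IsSymm
  rw [transpose_add, transpose_mul, transpose_mul, transpose_transpose, hQ.eq, add_comm]

/-- traceless matrices are combinations of nilpotent matrices of rank one -/
lemma decomp {X : Mx 3} (hX : X.trace = 0) :
    X = (X 0 1) • vecMulVec ![1, 0, 0] ![0, 1, 0] + (X 0 2 + X 0 0) • vecMulVec ![1, 0, 0] ![0, 0, 1]
      + (X 1 0) • vecMulVec ![0, 1, 0] ![1, 0, 0] + (X 1 2 + X 1 1) • vecMulVec ![0, 1, 0] ![0, 0, 1]
      + (X 2 0 - X 0 0) • vecMulVec ![0, 0, 1] ![1, 0, 0]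
      + (X 2 1 - X 1 1) • vecMulVec ![0, 0, 1] ![0, 1, 0]
      + (X 0 0) • vecMulVec ![1, 0, 1] ![1, 0, -1] + (X 1 1) • vecMulVec ![0, 1, 1] ![0, 1, -1] := by
  have h : X 0 0 + X 1 1 + X 2 2 = 0 := by
    rwa [trace_fin_three] at hX
  ext i j
  fin_cases i <;> fin_cases j <;>
    simp [vecMulVec_apply]
  linarith

/-- the Poisson formula for the derivative of the theta function -/
theorem Th_dual {Q : Mx 3} (hQ : PD Q) {X : Mx 3} (hX : X.trace = 0) {t : ℝ} (ht : 0 < t) :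
    Th Q (Hx Q X) t = -(Ct Q t * Th Q⁻¹ (Hx Q⁻¹ Xᵀ) (Real.pi ^ 2 / t)) := by
  have hpi := Real.pi_pos
  have ht' : 0 < Real.pi ^ 2 / t := by positivity
  have hQi := inv_pd hQ
  have key : ∀ (c : ℝ) (w z : Fin 3 → ℝ), w ⬝ᵥ z = 0 →
      Th Q (Hx Q (c • vecMulVec z w)) t =
        -(Ct Q t * Th Q⁻¹ (Hx Q⁻¹ (c • vecMulVec z w)ᵀ) (Real.pi ^ 2 / t)) := by
    intro c w z hwz
    rw [transpose_smul, Hx_smul, Hx_smul, Th_smul, Th_smul, transpose_vecMulVec,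
      Hx_vec Q hQ.1, Hx_vec Q⁻¹ hQi.1, Th_dual_Hd hQ hwz ht]
    ring
  have add : ∀ X Y : Mx 3, Th Q (Hx Q X) t = -(Ct Q t * Th Q⁻¹ (Hx Q⁻¹ Xᵀ) (Real.pi ^ 2 / t)) →
      Th Q (Hx Q Y) t = -(Ct Q t * Th Q⁻¹ (Hx Q⁻¹ Yᵀ) (Real.pi ^ 2 / t)) →
      Th Q (Hx Q (X + Y)) t = -(Ct Q t * Th Q⁻¹ (Hx Q⁻¹ (X + Y)ᵀ) (Real.pi ^ 2 / t)) := by
    intro X Y hX hY
    rw [transpose_add, Hx_add, Hx_add, Th_add hQ _ _ ht, Th_add hQi _ _ ht', hX, hY]
    ring
  rw [decomp hX]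
  refine add _ _ (add _ _ (add _ _ (add _ _ (add _ _ (add _ _ (add _ _ ?_ ?_) ?_) ?_) ?_) ?_) ?_) ?_
  all_goals
    refine key _ _ _ ?_
    simp [dotProduct, Fin.sum_univ_three]

lemma trace_Hx {Q : Mx 3} (hQ : PD Q) (X : Mx 3) : (Q⁻¹ * Hx Q X).trace = 2 * X.trace := by
  have hu := hQ.det_pos.ne'.isUnit
  unfold Hx
  rw [mul_add, trace_add, ← mul_assoc, Matrix.nonsing_inv_mul _ hu, one_mul, trace_mul_comm,
    mul_assoc, Matrix.mul_nonsing_inv _ hu, mul_one, trace_transpose]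
  ring

lemma qf_Hx (Q : Mx 3) (hQ : Q.IsSymm) (X : Mx 3) (x : Fin 3 → ℤ) :
    qf (Hx Q X) x = 2 * (rv x ⬝ᵥ (Q *ᵥ (X *ᵥ rv x))) := by
  have h1 : rv x ⬝ᵥ ((Xᵀ * Q) *ᵥ rv x) = rv x ⬝ᵥ (Q *ᵥ (X *ᵥ rv x)) := by
    have e1 : rv x ⬝ᵥ (Xᵀ *ᵥ (Q *ᵥ rv x)) = (X *ᵥ rv x) ⬝ᵥ (Q *ᵥ rv x) := by
      rw [dotProduct_mulVec, vecMul_transpose]
    have e2 : (X *ᵥ rv x) ⬝ᵥ (Q *ᵥ rv x) = rv x ⬝ᵥ (Q *ᵥ (X *ᵥ rv x)) := by
      rw [dotProduct_mulVec, ← mulVec_transpose, hQ.eq, dotProduct_comm]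
    rw [← mulVec_mulVec, e1, e2]
  unfold Hx qf
  rw [qr_add, qr, qr, h1, ← mulVec_mulVec]
  ring

end Pool.Agent.Lib.EPL
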