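import Pool.Agent.Lib.EPL.CuD
import Pool.Agent.Lib.EPL.Pois

/-!
# EPL.CuG: forms in Gram-Schmidt coordinates near a cusp are not local minima

`gs d1 d2 d3 a b c = Nᵀ D N`, `N = [[1, a, b], [0, 1, c], [0, 0, 1]]`, `D = diag (d1, d2, d3)`.

PROOF. Let `X = N⁻¹ diag (1/2, -1/2, 0) N` (first case) resp. `X = N⁻¹ diag (0, 1/2, -1/2) N`
(second case), `Q = gs ...`.  Then `Hx Q X = Nᵀ diag (d1, -d2, 0) N` resp. `Nᵀ diag (0, d2, -d3) N`
and `Hx Q⁻¹ Xᵀ = N⁻¹ diag (1/d1, -1/d2, 0) N⁻ᵀ` resp. `N⁻¹ diag (0, 1/d2, -1/d3) N⁻ᵀ`, where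
`N⁻ᵀ y = (y1, y2 - a y1, y3 - c y2 + (a c - b) y1)`.
For `t > 0` put `τi = t di`.
FIRST CASE (`d2 ≥ 1.587 d1`, `d3 ≥ 3/4 d2`).  If `τ1 ≥ 2.1`: `t * Th Q H t` is the sum of
`CuS.cuS_pos` with `(a, b, c) = (τ1, τ2, τ3)`, `(i, j, k) = (x3, x2, x1)`, `α = c`, `β = b`, `γ = a`
(reindex `Fin 3 → ℤ` by `ℤ × ℤ × ℤ`).  If `τ1 < 2.1`: `Th_dual` gives
`Th Q (Hx Q X) t = Ct Q t * (- Th Q⁻¹ (Hx Q⁻¹ Xᵀ) u)`, `u = π²/t`, and `u` times the last factor is
the sum of `cuD_pos` with `(a, b, c) = (u/d3, u/d2, u/d1)`, `(i, j, k) = (y1, y2, y3)`,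
`α = -a`, `γ = -c`, `β = a c - b`; `u/d1 = π²/τ1 ≥ 9.8696/2.1 ≥ 4.699`.
SECOND CASE (`d3 ≥ 1.587 d2`, `d2 ≥ 3/4 d1`).  If `τ3 ≥ 4.699`: `t * Th Q H t`, `H` with value
`d2 Y2² - d3 Y3²`, is the sum of `cuD_pos` with `(a, b, c) = (τ1, τ2, τ3)`, `(i,j,k) = (x3,x2,x1)`.
If `τ3 < 4.699`: dual, value of `-Hx Q⁻¹ Xᵀ` is `z3²/d3 - z2²/d2`: `cuS_pos` with
`(a, b, c) = (u/d3, u/d2, u/d1)`, `u/d3 = π²/τ3 ≥ 9.8696/4.699 ≥ 2.1`.
Conclusion by `notMin_of_pos` (`trace_Hx`, `Hx_symm`; `X` has trace 0).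
-/

open Matrix
open scoped Matrix.Norms.Elementwise

namespace Pool.Agent.Lib.EPL

open Pool.Agent.Lib.EpZ

/-- the form with Gram-Schmidt numbers `d1, d2, d3` and shifts `a, b, c` -/
def gs (d1 d2 d3 a b c : ℝ) : Mx 3 :=
  !![d1, d1 * a, d1 * b;
     d1 * a, d1 * a ^ 2 + d2, d1 * a * b + d2 * c;
     d1 * b, d1 * a * b + d2 * c, d1 * b ^ 2 + d2 * c ^ 2 + d3]

namespace CuGAux

theorem qr_gs (d1 d2 d3 a b c : ℝ) (v : Fin 3 → ℝ) :
    qr (gs d1 d2 d3 a b c) v =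
      d1 * (v 0 + b * v 2 + a * v 1) ^ 2 + d2 * (v 1 + c * v 2) ^ 2 + d3 * v 2 ^ 2 := by
  simp only [qr, gs, dotProduct, mulVec, Fin.sum_univ_three]
  simp
  ring

/-- the dual form -/
def gi (e1 e2 e3 a b c : ℝ) : Mx 3 :=
  !![e1 + e2 * a ^ 2 + e3 * (a * c - b) ^ 2, -(e2 * a) - e3 * c * (a * c - b), e3 * (a * c - b);
     -(e2 * a) - e3 * c * (a * c - b), e2 + e3 * c ^ 2, -(e3 * c);
     e3 * (a * c - b), -(e3 * c), e3]

theorem qr_gi (e1 e2 e3 a b c : ℝ) (v : Fin 3 → ℝ) :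
    qr (gi e1 e2 e3 a b c) v =
      e3 * (v 2 + (a * c - b) * v 0 + (-c) * v 1) ^ 2 + e2 * (v 1 + (-a) * v 0) ^ 2 +
        e1 * v 0 ^ 2 := by
  simp only [qr, gi, dotProduct, mulVec, Fin.sum_univ_three]
  simp
  ring

theorem gs_inv {d1 d2 d3 : ℝ} (h1 : d1 ≠ 0) (h2 : d2 ≠ 0) (h3 : d3 ≠ 0) (a b c : ℝ) :
    (gs d1 d2 d3 a b c)⁻¹ = gi d1⁻¹ d2⁻¹ d3⁻¹ a b c := by
  refine Matrix.inv_eq_right_inv ?_
  ext i j
  fin_cases i <;> fin_cases j <;>
    simp [gs, gi, Matrix.mul_apply, Fin.sum_univ_three] <;> field_simp <;> ring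

/-- the first direction -/
noncomputable def X1 (a b c : ℝ) : Mx 3 := !![1 / 2, a, (b + a * c) / 2; 0, -(1 / 2), -(c / 2); 0, 0, 0]

/-- the second direction -/
noncomputable def X2 (a b c : ℝ) : Mx 3 := !![0, -(a / 2), b / 2 - a * c; 0, 1 / 2, c; 0, 0, -(1 / 2)]

theorem tr1 (a b c : ℝ) : (X1 a b c).trace = 0 := by
  simp [X1, trace_fin_three]

theorem tr2 (a b c : ℝ) : (X2 a b c).trace = 0 := by
  simp [X2, trace_fin_three]

theorem Hx1 (d1 d2 d3 a b c : ℝ) :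
    Hx (gs d1 d2 d3 a b c) (X1 a b c) = gs d1 (-d2) 0 a b c := by
  ext i j
  fin_cases i <;> fin_cases j <;>
    simp [Hx, gs, X1, Matrix.mul_apply, Fin.sum_univ_three, Matrix.add_apply] <;> ring

theorem Hx2 (d1 d2 d3 a b c : ℝ) :
    Hx (gs d1 d2 d3 a b c) (X2 a b c) = gs 0 d2 (-d3) a b c := by
  ext i j
  fin_cases i <;> fin_cases j <;>
    simp [Hx, gs, X2, Matrix.mul_apply, Fin.sum_univ_three, Matrix.add_apply] <;> ring

theorem X1t (a b c : ℝ) :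
    (X1 a b c)ᵀ = !![1 / 2, 0, 0; a, -(1 / 2), 0; (b + a * c) / 2, -(c / 2), 0] := by
  ext i j
  fin_cases i <;> fin_cases j <;> rfl

theorem X2t (a b c : ℝ) :
    (X2 a b c)ᵀ = !![0, 0, 0; -(a / 2), 1 / 2, 0; b / 2 - a * c, c, -(1 / 2)] := by
  ext i j
  fin_cases i <;> fin_cases j <;> rfl

theorem Hi1 (e1 e2 e3 a b c : ℝ) :
    Hx (gi e1 e2 e3 a b c) (X1 a b c)ᵀ = gi e1 (-e2) 0 a b c := by
  rw [Hx, transpose_transpose, X1t]
  ext i j
  fin_cases i <;> fin_cases j <;>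
    simp [gi, X1, Matrix.mul_apply, Fin.sum_univ_three, Matrix.add_apply] <;> ring

theorem Hi2 (e1 e2 e3 a b c : ℝ) :
    Hx (gi e1 e2 e3 a b c) (X2 a b c)ᵀ = gi 0 e2 (-e3) a b c := by
  rw [Hx, transpose_transpose, X2t]
  ext i j
  fin_cases i <;> fin_cases j <;>
    simp [gi, X2, Matrix.mul_apply, Fin.sum_univ_three, Matrix.add_apply] <;> ring

/-- reindexing -/
def eA : ℤ × ℤ × ℤ ≃ (Fin 3 → ℤ) where
  toFun p := ![p.1, p.2.1, p.2.2]
  invFun x := (x 0, x 1, x 2)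
  left_inv p := rfl
  right_inv x := by
    funext i
    fin_cases i <;> rfl

/-- reindexing, reversed -/
def eB : ℤ × ℤ × ℤ ≃ (Fin 3 → ℤ) where
  toFun p := ![p.2.2, p.2.1, p.1]
  invFun x := (x 2, x 1, x 0)
  left_inv p := rfl
  right_inv x := by
    funext i
    fin_cases i <;> rfl

theorem eA_zero (p : ℤ × ℤ × ℤ) : eA p 0 = p.1 := rfl
theorem eA_one (p : ℤ × ℤ × ℤ) : eA p 1 = p.2.1 := rfl
theorem eA_two (p : ℤ × ℤ × ℤ) : eA p 2 = p.2.2 := rfl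
theorem eB_zero (p : ℤ × ℤ × ℤ) : eB p 0 = p.2.2 := rfl
theorem eB_one (p : ℤ × ℤ × ℤ) : eB p 1 = p.2.1 := rfl
theorem eB_two (p : ℤ × ℤ × ℤ) : eB p 2 = p.1 := rfl

theorem Th_gs (d1 d2 d3 h1 h2 h3 a b c t : ℝ) :
    t * Th (gs d1 d2 d3 a b c) (gs h1 h2 h3 a b c) t =
      ∑' p : ℤ × ℤ × ℤ, (t * h1 * ((p.2.2 : ℝ) + b * p.1 + a * p.2.1) ^ 2 +
        t * h2 * ((p.2.1 : ℝ) + c * p.1) ^ 2 + t * h3 * (p.1 : ℝ) ^ 2) *
        Real.exp (-tq (t * d1) (t * d2) (t * d3) c b a p) := by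
  unfold Th
  rw [← tsum_mul_left, ← eB.tsum_eq]
  refine tsum_congr fun p => ?_
  rw [qf, qf, qr_gs, qr_gs]
  simp only [rv, eB_zero, eB_one, eB_two, tq]
  rw [← mul_assoc]
  congr 1
  · ring
  · congr 1
    ring

theorem Th_gi (e1 e2 e3 h1 h2 h3 a b c t : ℝ) :
    t * Th (gi e1 e2 e3 a b c) (gi h1 h2 h3 a b c) t =
      ∑' p : ℤ × ℤ × ℤ, (t * h3 * ((p.2.2 : ℝ) + (a * c - b) * p.1 + (-c) * p.2.1) ^ 2 +
        t * h2 * ((p.2.1 : ℝ) + (-a) * p.1) ^ 2 + t * h1 * (p.1 : ℝ) ^ 2) *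
        Real.exp (-tq (t * e3) (t * e2) (t * e1) (-a) (a * c - b) (-c) p) := by
  unfold Th
  rw [← tsum_mul_left, ← eA.tsum_eq]
  refine tsum_congr fun p => ?_
  rw [qf, qf, qr_gi, qr_gi]
  simp only [rv, eA_zero, eA_one, eA_two, tq]
  rw [← mul_assoc]
  congr 1
  · ring
  · congr 1
    ring

theorem pi_sq : (98690 / 10000 : ℝ) < Real.pi ^ 2 := by
  have := Real.pi_gt_d4
  nlinarith

end CuGAux

open CuGAux

theorem gs_pd {d1 d2 d3 : ℝ} (h1 : 0 < d1) (h2 : 0 < d2) (h3 : 0 < d3) (a b c : ℝ) :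
    PD (gs d1 d2 d3 a b c) := by
  refine ⟨?_, fun v hv => ?_⟩
  · unfold Matrix.IsSymm
    ext i j
    fin_cases i <;> fin_cases j <;> simp [gs, Matrix.transpose_apply]
  · rw [qr_gs]
    by_contra hle
    have p1 : 0 ≤ d1 * (v 0 + b * v 2 + a * v 1) ^ 2 := by positivity
    have p2 : 0 ≤ d2 * (v 1 + c * v 2) ^ 2 := by positivity
    have p3 : 0 ≤ d3 * v 2 ^ 2 := by positivity
    have q3 : d3 * v 2 ^ 2 = 0 := by linarith
    have r3 : v 2 = 0 := by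
      rcases mul_eq_zero.mp q3 with h | h
      · linarith
      · exact pow_eq_zero_iff (two_ne_zero) |>.mp h
    have q2 : d2 * (v 1 + c * v 2) ^ 2 = 0 := by linarith
    have r2 : v 1 = 0 := by
      rcases mul_eq_zero.mp q2 with h | h
      · linarith
      · have := pow_eq_zero_iff (two_ne_zero) |>.mp h
        rw [r3] at this
        linarith
    have q1 : d1 * (v 0 + b * v 2 + a * v 1) ^ 2 = 0 := by linarith
    have r1 : v 0 = 0 := by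
      rcases mul_eq_zero.mp q1 with h | h
      · linarith
      · have := pow_eq_zero_iff (two_ne_zero) |>.mp h
        rw [r3, r2] at this
        linarith
    refine hv ?_
    funext i
    fin_cases i
    · exact r1
    · exact r2
    · exact r3

theorem gs_det (d1 d2 d3 a b c : ℝ) : (gs d1 d2 d3 a b c).det = d1 * d2 * d3 := by
  rw [Matrix.det_fin_three]
  simp [gs]
  ring

/-- first case -/
theorem gs_notMin1 {d1 d2 d3 : ℝ} (h1 : 0 < d1) (h2 : 1587 / 1000 * d1 ≤ d2)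
    (h3 : 3 / 4 * d2 ≤ d3) (a b c : ℝ) {s : ℝ} (hs : 3 / 2 < s) :
    ¬ LocMin s (gs d1 d2 d3 a b c) := by
  have h20 : 0 < d2 := by linarith
  have h30 : 0 < d3 := by linarith
  have hQ : PD (gs d1 d2 d3 a b c) := gs_pd h1 h20 h30 a b c
  refine notMin_of_pos hQ (Hx_symm hQ.1 (X1 a b c)) ?_ ?_ hs
  · rw [trace_Hx hQ, tr1, mul_zero]
  · intro t ht
    by_cases hc : 21 / 10 ≤ t * d1
    · have key := cuS_pos (a := t * d1) (b := t * d2) (c := t * d3) hc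
        (by nlinarith) (by nlinarith) c b a
      have e := Th_gs d1 d2 d3 d1 (-d2) 0 a b c t
      rw [Hx1]
      have : 0 < t * Th (gs d1 d2 d3 a b c) (gs d1 (-d2) 0 a b c) t := by
        rw [e]
        convert key using 3
        ring
      exact (mul_pos_iff_of_pos_left ht).mp this
    · push_neg at hc
      have hpi := pi_sq
      have hpi0 := Real.pi_pos
      set u := Real.pi ^ 2 / t with hu
      have hu0 : 0 < u := by positivity
      have hud : 4699 / 1000 ≤ u * d1⁻¹ := by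
        rw [hu, ← div_eq_mul_inv, div_div, le_div_iff₀ (by positivity)]
        nlinarith
      rw [Th_dual hQ (tr1 a b c) ht, gs_inv h1.ne' h20.ne' h30.ne', Hi1]
      have key := cuD_pos (a := u * d3⁻¹) (b := u * d2⁻¹) (c := u * d1⁻¹) hud (by positivity)
        (by
          have : 1587 / 1000 * d2⁻¹ ≤ d1⁻¹ := by
            rw [← div_eq_mul_inv, div_le_iff₀ h20, inv_mul_eq_div, le_div_iff₀ h1]
            exact h2
          calc 1587 / 1000 * (u * d2⁻¹) = u * (1587 / 1000 * d2⁻¹) := by ring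
            _ ≤ _ := mul_le_mul_of_nonneg_left this hu0.le)
        (by positivity)
        (by
          have : d3⁻¹ ≤ 4 / 3 * d2⁻¹ := by
            rw [inv_le_iff_one_le_mul₀ h30]
            have : 4 / 3 * d2⁻¹ * (3 / 4 * d2) ≤ 4 / 3 * d2⁻¹ * d3 :=
              mul_le_mul_of_nonneg_left h3 (by positivity)
            have e2 : 4 / 3 * d2⁻¹ * (3 / 4 * d2) = 1 := by field_simp
            linarith
          calc u * d3⁻¹ ≤ u * (4 / 3 * d2⁻¹) := mul_le_mul_of_nonneg_left this hu0.le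
            _ = _ := by ring)
        (-a) (a * c - b) (-c)
      have e := Th_gi d1⁻¹ d2⁻¹ d3⁻¹ d1⁻¹ (-d2⁻¹) 0 a b c u
      have h4 : 0 < -(u * Th (gi d1⁻¹ d2⁻¹ d3⁻¹ a b c) (gi d1⁻¹ (-d2⁻¹) 0 a b c) u) := by
        rw [e, ← tsum_neg]
        refine lt_of_lt_of_eq key (tsum_congr fun p => ?_)
        ring
      have h5 : 0 < -Th (gi d1⁻¹ d2⁻¹ d3⁻¹ a b c) (gi d1⁻¹ (-d2⁻¹) 0 a b c) u := by
        rw [← mul_neg] at h4
        exact (mul_pos_iff_of_pos_left hu0).mp h4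
      rw [← mul_neg]
      exact mul_pos (Ct_pos hQ ht) h5

/-- second case -/
theorem gs_notMin2 {d1 d2 d3 : ℝ} (h1 : 0 < d1) (h2 : 3 / 4 * d1 ≤ d2)
    (h3 : 1587 / 1000 * d2 ≤ d3) (a b c : ℝ) {s : ℝ} (hs : 3 / 2 < s) :
    ¬ LocMin s (gs d1 d2 d3 a b c) := by
  have h20 : 0 < d2 := by linarith
  have h30 : 0 < d3 := by linarith
  have hQ : PD (gs d1 d2 d3 a b c) := gs_pd h1 h20 h30 a b c
  refine notMin_of_pos hQ (Hx_symm hQ.1 (X2 a b c)) ?_ ?_ hs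
  · rw [trace_Hx hQ, tr2, mul_zero]
  · intro t ht
    by_cases hc : 4699 / 1000 ≤ t * d3
    · have key := cuD_pos (a := t * d1) (b := t * d2) (c := t * d3) hc
        (by positivity) (by nlinarith) (by positivity) (by nlinarith) c b a
      have e := Th_gs d1 d2 d3 0 d2 (-d3) a b c t
      rw [Hx2]
      have : 0 < t * Th (gs d1 d2 d3 a b c) (gs 0 d2 (-d3) a b c) t := by
        rw [e]
        convert key using 3
        ring
      exact (mul_pos_iff_of_pos_left ht).mp this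
    · push_neg at hc
      have hpi := pi_sq
      have hpi0 := Real.pi_pos
      set u := Real.pi ^ 2 / t with hu
      have hu0 : 0 < u := by positivity
      have hud : 21 / 10 ≤ u * d3⁻¹ := by
        rw [hu, ← div_eq_mul_inv, div_div, le_div_iff₀ (by positivity)]
        nlinarith
      rw [Th_dual hQ (tr2 a b c) ht, gs_inv h1.ne' h20.ne' h30.ne', Hi2]
      have key := cuS_pos (a := u * d3⁻¹) (b := u * d2⁻¹) (c := u * d1⁻¹) hud
        (by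
          have : 1587 / 1000 * d3⁻¹ ≤ d2⁻¹ := by
            rw [← div_eq_mul_inv, div_le_iff₀ h30, inv_mul_eq_div, le_div_iff₀ h20]
            exact h3
          calc 1587 / 1000 * (u * d3⁻¹) = u * (1587 / 1000 * d3⁻¹) := by ring
            _ ≤ _ := mul_le_mul_of_nonneg_left this hu0.le)
        (by
          have : 3 / 4 * d2⁻¹ ≤ d1⁻¹ := by
            rw [← div_eq_mul_inv, div_le_iff₀ h20, inv_mul_eq_div, le_div_iff₀ h1]
            exact h2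
          calc 3 / 4 * (u * d2⁻¹) = u * (3 / 4 * d2⁻¹) := by ring
            _ ≤ _ := mul_le_mul_of_nonneg_left this hu0.le)
        (-a) (a * c - b) (-c)
      have e := Th_gi d1⁻¹ d2⁻¹ d3⁻¹ 0 d2⁻¹ (-d3⁻¹) a b c u
      have h4 : 0 < -(u * Th (gi d1⁻¹ d2⁻¹ d3⁻¹ a b c) (gi 0 d2⁻¹ (-d3⁻¹) a b c) u) := by
        rw [e, ← tsum_neg]
        refine lt_of_lt_of_eq key (tsum_congr fun p => ?_)
        ring
      have h5 : 0 < -Th (gi d1⁻¹ d2⁻¹ d3⁻¹ a b c) (gi 0 d2⁻¹ (-d3⁻¹) a b c) u := by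
        rw [← mul_neg] at h4
        exact (mul_pos_iff_of_pos_left hu0).mp h4
      rw [← mul_neg]
      exact mul_pos (Ct_pos hQ ht) h5

end Pool.Agent.Lib.EPL
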