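import Pool.Agent.Lib.EPL.T1

/-!
# EPL.T1c: direct bounds for the weighted one-dimensional theta functions (proofs: header of T1)
-/

namespace Pool.Agent.Lib.EPL

namespace T1cAux

theorem term_nonneg (σ : ℝ) {x : ℝ} (hx : 0 < x) (k : ℤ) :
    0 ≤ x * ((k : ℝ) + σ) ^ 2 * Real.exp (-(x * ((k : ℝ) + σ) ^ 2)) :=
  mul_nonneg (mul_nonneg hx.le (sq_nonneg _)) (Real.exp_pos _).le

/-- splitting into two half sums -/
theorem th2_split (σ : ℝ) {x : ℝ} (hx : 0 < x) :
    th2 σ x = ∑' n : ℕ, (x * ((n : ℝ) + σ) ^ 2 * Real.exp (-(x * ((n : ℝ) + σ) ^ 2))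
      + x * ((n : ℝ) + 1 - σ) ^ 2 * Real.exp (-(x * ((n : ℝ) + 1 - σ) ^ 2))) ∧
    Summable (fun n : ℕ => (x * ((n : ℝ) + σ) ^ 2 * Real.exp (-(x * ((n : ℝ) + σ) ^ 2))
      + x * ((n : ℝ) + 1 - σ) ^ 2 * Real.exp (-(x * ((n : ℝ) + 1 - σ) ^ 2)))) := by
  have hs := summable_th2 σ hx
  have h1 := hs.comp_injective (i := fun n : ℕ => (n : ℤ)) (fun a b h => by simpa using h)
  have h2 := hs.comp_injective (i := fun n : ℕ => (-((n : ℤ) + 1))) (fun a b h => by simpa using h)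
  have e2 : ∀ n : ℕ, (((-((n : ℤ) + 1) : ℤ) : ℝ) + σ) ^ 2 = ((n : ℝ) + 1 - σ) ^ 2 := by
    intro n; push_cast; ring
  have h2' : Summable (fun n : ℕ => x * ((n : ℝ) + 1 - σ) ^ 2
      * Real.exp (-(x * ((n : ℝ) + 1 - σ) ^ 2))) := by
    refine h2.congr (fun n => ?_)
    simp only [Function.comp]
    rw [e2]
  have h1' : Summable (fun n : ℕ => x * ((n : ℝ) + σ) ^ 2
      * Real.exp (-(x * ((n : ℝ) + σ) ^ 2))) := by
    refine h1.congr (fun n => ?_)
    simp [Function.comp]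
  refine ⟨?_, h1'.add h2'⟩
  rw [h1'.tsum_add h2']
  unfold th2
  rw [tsum_of_nat_of_neg_add_one h1 h2]
  congr 1
  apply tsum_congr
  intro n
  rw [e2]

/-- `p e^{-p}` is decreasing for `p ≥ 1` -/
theorem f_anti {a b : ℝ} (ha : 1 ≤ a) (hab : a ≤ b) :
    b * Real.exp (-b) ≤ a * Real.exp (-a) := by
  have h : b ≤ a * Real.exp (b - a) := by
    have := Real.add_one_le_exp (b - a)
    nlinarith
  have e : Real.exp (-a) = Real.exp (b - a) * Real.exp (-b) := by
    rw [← Real.exp_add]; congr 1; ring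
  rw [e, ← mul_assoc]
  exact mul_le_mul_of_nonneg_right h (Real.exp_pos _).le

/-- `p e^{-p} ≤ 1/e` -/
theorem f_le (p : ℝ) : p * Real.exp (-p) ≤ Real.exp (-1) := by
  have h := Real.add_one_le_exp (p - 1)
  have e : Real.exp (-1) = Real.exp (p - 1) * Real.exp (-p) := by
    rw [← Real.exp_add]; congr 1; ring
  rw [e]
  exact mul_le_mul_of_nonneg_right (by linarith) (Real.exp_pos _).le

theorem exp_neg_one_le : Real.exp (-1) ≤ 36788 / 100000 := by
  rw [Real.exp_neg]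
  have h := Real.exp_one_gt_d9
  rw [inv_le_comm₀ (Real.exp_pos _) (by norm_num)]
  refine le_trans ?_ h.le
  norm_num

theorem exp_lower : (27937 / 1000 : ℝ) ≤ Real.exp (333 / 100) := by
  have h := Real.exp_one_gt_d9
  have e : Real.exp (333 / 100) = Real.exp 1 ^ 3 * Real.exp (33 / 100) := by
    rw [← Real.exp_nat_mul, ← Real.exp_add]; congr 1; norm_num
  have h2 : (139093 / 100000 : ℝ) ≤ Real.exp (33 / 100) := by
    have := Real.sum_le_exp_of_nonneg (x := 33 / 100) (by norm_num) 5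
    refine le_trans ?_ this
    norm_num [Finset.sum_range_succ, Nat.factorial]
  have h3 : (200855 / 10000 : ℝ) ≤ Real.exp 1 ^ 3 := by
    refine le_trans ?_ (pow_le_pow_left₀ (by norm_num) h.le 3)
    norm_num
  rw [e]
  refine le_trans ?_ (mul_le_mul h3 h2 (by norm_num) (by positivity))
  norm_num

theorem exp_neg_le : Real.exp (-(333 / 100)) ≤ 3580 / 100000 := by
  rw [Real.exp_neg]
  have h := exp_lower
  rw [inv_le_comm₀ (Real.exp_pos _) (by norm_num)]
  refine le_trans ?_ h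
  norm_num

theorem sq_le_pow (n : ℕ) : ((n : ℝ) + 2) ^ 2 ≤ 4 * 4 ^ n := by
  induction n with
  | zero => norm_num
  | succ n ih =>
    push_cast
    rw [pow_succ (4 : ℝ) n]
    have : (0 : ℝ) ≤ n := Nat.cast_nonneg n
    nlinarith

/-- the terms from the second on -/
theorem F_bound {x : ℝ} (hx : 333 / 100 ≤ x) (n : ℕ) :
    x * ((n : ℝ) + 2) ^ 2 * Real.exp (-(x * ((n : ℝ) + 2) ^ 2)) ≤
      x * Real.exp (-x) * (4 * Real.exp (-(3 * x))) * (1 / 4) ^ n := by
  have hx0 : 0 < x := by linarith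
  have hn : (0 : ℝ) ≤ n := Nat.cast_nonneg n
  have h1 : Real.exp (-(x * ((n : ℝ) + 2) ^ 2)) ≤
      Real.exp (-x) * Real.exp (-(3 * x)) * Real.exp (-(4 * x)) ^ n := by
    rw [← Real.exp_nat_mul, ← Real.exp_add, ← Real.exp_add]
    apply Real.exp_le_exp.mpr
    nlinarith [mul_nonneg hx0.le (mul_nonneg hn hn)]
  have h2 : Real.exp (-(4 * x)) ≤ 1 / 16 := by
    have h3 : Real.exp (-(4 * x)) ≤ Real.exp (-(333 / 100)) := Real.exp_le_exp.mpr (by linarith)
    have := exp_neg_le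
    refine h3.trans (this.trans (by norm_num))
  have h4 : Real.exp (-(4 * x)) ^ n ≤ (1 / 16) ^ n :=
    pow_le_pow_left₀ (Real.exp_pos _).le h2 n
  have h5 := sq_le_pow n
  have h6 : (0 : ℝ) < Real.exp (-x) * Real.exp (-(3 * x)) := by positivity
  calc x * ((n : ℝ) + 2) ^ 2 * Real.exp (-(x * ((n : ℝ) + 2) ^ 2))
      ≤ x * (4 * 4 ^ n) * (Real.exp (-x) * Real.exp (-(3 * x)) * (1 / 16) ^ n) := by
        apply mul_le_mul
        · exact mul_le_mul_of_nonneg_left h5 hx0.le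
        · exact h1.trans (mul_le_mul_of_nonneg_left h4 h6.le)
        · exact (Real.exp_pos _).le
        · positivity
    _ = x * Real.exp (-x) * (4 * Real.exp (-(3 * x))) * (4 ^ n * (1 / 16) ^ n) := by ring
    _ = x * Real.exp (-x) * (4 * Real.exp (-(3 * x))) * (1 / 4) ^ n := by
        rw [← mul_pow]; norm_num

/-- a series with geometric tail -/
theorem tsum_bound {a : ℕ → ℝ} (ha : Summable a) {A B C : ℝ} (h0 : a 0 ≤ A) (h1 : a 1 ≤ B)
    (h2 : ∀ n, a (n + 2) ≤ C * (1 / 4) ^ n) : ∑' n, a n ≤ A + B + 4 / 3 * C := by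
  rw [← ha.sum_add_tsum_nat_add 2, Finset.sum_range_succ, Finset.sum_range_one]
  have hg : HasSum (fun n : ℕ => (1 / 4 : ℝ) ^ n) (1 - 1 / 4)⁻¹ :=
    hasSum_geometric_of_lt_one (by norm_num) (by norm_num)
  have hC := hg.mul_left C
  have h3 : ∑' n, a (n + 2) ≤ ∑' n : ℕ, C * (1 / 4) ^ n :=
    Summable.tsum_le_tsum h2 ((summable_nat_add_iff 2).mpr ha) hC.summable
  rw [hC.tsum_eq] at h3
  have : C * (1 - 1 / 4 : ℝ)⁻¹ = 4 / 3 * C := by norm_num; ring
  linarith

theorem exp3_le {x : ℝ} (hx : 333 / 100 ≤ x) : Real.exp (-(3 * x)) ≤ 46 / 1000000 := by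
  have h1 : Real.exp (-(3 * x)) ≤ Real.exp (-(333 / 100)) ^ 3 := by
    rw [← Real.exp_nat_mul]
    apply Real.exp_le_exp.mpr
    push_cast; linarith
  have h2 := pow_le_pow_left₀ (Real.exp_pos _).le exp_neg_le 3
  refine h1.trans (h2.trans ?_)
  norm_num

theorem th2_shift (σ : ℝ) (m : ℤ) (x : ℝ) : th2 (σ + m) x = th2 σ x := by
  unfold th2
  rw [← (Equiv.addRight m).tsum_eq (fun k : ℤ => x * ((k : ℝ) + σ) ^ 2
    * Real.exp (-(x * ((k : ℝ) + σ) ^ 2)))]
  apply tsum_congr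
  intro k
  have e : (k : ℝ) + (σ + m) = (((Equiv.addRight m) k : ℤ) : ℝ) + σ := by
    simp only [Equiv.coe_addRight]; push_cast; ring
  rw [e]

theorem th2_neg (σ x : ℝ) : th2 (-σ) x = th2 σ x := by
  unfold th2
  rw [← (Equiv.neg ℤ).tsum_eq (fun k : ℤ => x * ((k : ℝ) + σ) ^ 2
    * Real.exp (-(x * ((k : ℝ) + σ) ^ 2)))]
  apply tsum_congr
  intro k
  have e : ((k : ℝ) + -σ) ^ 2 = ((((Equiv.neg ℤ) k : ℤ) : ℝ) + σ) ^ 2 := by
    simp only [Equiv.neg_apply]; push_cast; ring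
  rw [e]

theorem th2_le_aux {σ : ℝ} (h0 : 0 ≤ σ) (h1 : σ ≤ 1 / 2) {x : ℝ} (hx : 333 / 100 ≤ x) :
    th2 σ x ≤ 86 / 100 := by
  have hx0 : 0 < x := by linarith
  obtain ⟨hs, hsum⟩ := th2_split σ hx0
  rw [hs]
  have hE := exp_neg_le
  have hF := F_bound (le_refl (333 / 100 : ℝ))
  have h3 := exp3_le (le_refl (333 / 100 : ℝ))
  have hFC : ∀ n : ℕ, (333 / 100 : ℝ) * ((n : ℝ) + 2) ^ 2
      * Real.exp (-((333 / 100 : ℝ) * ((n : ℝ) + 2) ^ 2)) ≤ 22 / 1000000 * (1 / 4) ^ n := by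
    intro n
    refine (hF n).trans (mul_le_mul_of_nonneg_right ?_ (by positivity))
    have h4 := Real.exp_pos (-(3 * (333 / 100 : ℝ)))
    have h5 := Real.exp_pos (-(333 / 100 : ℝ))
    calc (333 / 100 : ℝ) * Real.exp (-(333 / 100)) * (4 * Real.exp (-(3 * (333 / 100))))
        ≤ (333 / 100 : ℝ) * (3580 / 100000) * (4 * (46 / 1000000)) := by gcongr
      _ ≤ _ := by norm_num
  refine (tsum_bound hsum (A := 2 * (36788 / 100000))
    (B := 333 / 100 * (3580 / 100000) + 29970 / 4000 * ((3580 / 100000) ^ 2 * (436 / 1000)))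
    (C := 2 * (22 / 1000000)) ?_ ?_ ?_).trans ?_
  · have ha := (f_le (x * ((0 : ℕ) + σ) ^ 2)).trans exp_neg_one_le
    have hb := (f_le (x * ((0 : ℕ) + 1 - σ) ^ 2)).trans exp_neg_one_le
    linarith
  · have ha : x * (((1 : ℕ) : ℝ) + σ) ^ 2 * Real.exp (-(x * (((1 : ℕ) : ℝ) + σ) ^ 2)) ≤
        333 / 100 * (3580 / 100000) := by
      refine (f_anti (a := 333 / 100) (by norm_num) ?_).trans ?_
      · push_cast; nlinarith
      · exact mul_le_mul_of_nonneg_left hE (by norm_num)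
    have hb : x * (((1 : ℕ) : ℝ) + 1 - σ) ^ 2 * Real.exp (-(x * (((1 : ℕ) : ℝ) + 1 - σ) ^ 2)) ≤
        29970 / 4000 * ((3580 / 100000) ^ 2 * (436 / 1000)) := by
      refine (f_anti (a := 29970 / 4000) (by norm_num) ?_).trans ?_
      · push_cast
        have : (9 / 4 : ℝ) ≤ (1 + 1 - σ) ^ 2 := by nlinarith
        nlinarith
      · refine mul_le_mul_of_nonneg_left ?_ (by norm_num)
        have e : Real.exp (-(29970 / 4000)) =
            Real.exp (-(333 / 100)) ^ 2 * Real.exp (-(333 / 400)) := by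
          rw [← Real.exp_nat_mul, ← Real.exp_add]; congr 1; norm_num
        rw [e]
        have h6 := pow_le_pow_left₀ (Real.exp_pos _).le hE 2
        refine mul_le_mul h6 ?_ (Real.exp_pos _).le (by positivity)
        rw [Real.exp_neg, inv_le_comm₀ (Real.exp_pos _) (by norm_num)]
        have := Real.sum_le_exp_of_nonneg (x := 333 / 400) (by norm_num) 6
        refine le_trans ?_ this
        norm_num [Finset.sum_range_succ, Nat.factorial]
    exact add_le_add ha hb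
  · intro n
    have hn : (0 : ℝ) ≤ n := Nat.cast_nonneg n
    have hq : (1 : ℝ) ≤ 333 / 100 * ((n : ℝ) + 2) ^ 2 := by nlinarith
    have ha : x * (((n + 2 : ℕ) : ℝ) + σ) ^ 2 * Real.exp (-(x * (((n + 2 : ℕ) : ℝ) + σ) ^ 2)) ≤
        22 / 1000000 * (1 / 4) ^ n := by
      refine (f_anti hq ?_).trans (hFC n)
      push_cast
      have : ((n : ℝ) + 2) ^ 2 ≤ ((n : ℝ) + 2 + σ) ^ 2 := by nlinarith
      nlinarith
    have hb : x * (((n + 2 : ℕ) : ℝ) + 1 - σ) ^ 2
        * Real.exp (-(x * (((n + 2 : ℕ) : ℝ) + 1 - σ) ^ 2)) ≤ 22 / 1000000 * (1 / 4) ^ n := by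
      refine (f_anti hq ?_).trans (hFC n)
      push_cast
      have : ((n : ℝ) + 2) ^ 2 ≤ ((n : ℝ) + 2 + 1 - σ) ^ 2 := by nlinarith
      nlinarith
    linarith
  · norm_num

end T1cAux

open T1cAux

/-- `th2 0 x ≥ 2 x e^{-x}` -/
theorem th2_ge {x : ℝ} (hx : 0 < x) : 2 * x * Real.exp (-x) ≤ th2 0 x := by
  have h := (summable_th2 0 hx).sum_le_tsum ({1, -1} : Finset ℤ) (fun k _ => term_nonneg 0 hx k)
  rw [Finset.sum_pair (by decide)] at h
  unfold th2
  refine le_trans (le_of_eq ?_) h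
  norm_num
  ring

theorem th2_lower {x : ℝ} (hx : 0 < x) :
    2 * x * Real.exp (-x) / (1 + 2 * Real.exp (-x)) * th 0 x ≤ th2 0 x := by
  set E := Real.exp (-x) with hE
  have hE0 : 0 < E := Real.exp_pos _
  set q : ℝ := 2 * x * E / (1 + 2 * E) with hq
  have hq1 : q * (1 + 2 * E) = 2 * x * E := by rw [hq]; field_simp
  have hqx : q ≤ x := by
    rw [hq, div_le_iff₀ (by positivity)]; nlinarith
  have hs1 := summable_th2 0 hx
  have hs2 := (summable_th 0 hx).mul_left q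
  have hs := hs1.sub hs2
  have h := hs.sum_le_tsum ({-1, 0, 1} : Finset ℤ) (by
    intro k hk
    have hk1 : (1 : ℝ) ≤ ((k : ℝ) + 0) ^ 2 := by
      have hk0 : k ≠ 0 := by
        rintro rfl
        exact hk (by decide)
      have : (1 : ℤ) ≤ k ^ 2 := by
        have := Int.one_le_abs hk0
        nlinarith [sq_abs k]
      rw [add_zero]
      exact_mod_cast this
    have : q ≤ x * ((k : ℝ) + 0) ^ 2 := by nlinarith
    have h0 := Real.exp_pos (-(x * ((k : ℝ) + 0) ^ 2))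
    nlinarith)
  rw [hs1.tsum_sub hs2, tsum_mul_left] at h
  have e : ∑ k ∈ ({-1, 0, 1} : Finset ℤ), (x * ((k : ℝ) + 0) ^ 2
      * Real.exp (-(x * ((k : ℝ) + 0) ^ 2)) - q * Real.exp (-(x * ((k : ℝ) + 0) ^ 2))) = 0 := by
    rw [Finset.sum_insert (by decide), Finset.sum_insert (by decide), Finset.sum_singleton]
    norm_num
    rw [← hE]
    linarith
  rw [e] at h
  unfold th2 th
  linarith

/-- `th2 0 x ≤ 2.001 x e^{-x}` for `x ≥ 3.33` (`4 e^{-3x} ≤ 0.0002`) -/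
theorem th2_upper {x : ℝ} (hx : 333 / 100 ≤ x) : th2 0 x ≤ 2001 / 1000 * x * Real.exp (-x) := by
  have hx0 : 0 < x := by linarith
  obtain ⟨h1, h2⟩ := th2_split 0 hx0
  rw [h1]
  clear h1
  have h3 := exp3_le hx
  set s := Real.exp (-(3 * x)) with hs
  have hs0 : 0 < s := Real.exp_pos _
  set E := Real.exp (-x) with hE
  have hE0 : 0 < E := Real.exp_pos _
  have hF := F_bound hx
  have hF0 := hF 0
  rw [← hE, ← hs] at hF0
  norm_num at hF0
  refine (tsum_bound h2 (A := x * E) (B := x * E + x * E * (4 * s))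
    (C := x * E * (5 * s)) ?_ ?_ ?_).trans ?_
  · norm_num
    rw [← hE]
  · norm_num
    rw [← hE]
    linarith
  · intro n
    have ha := hF n
    have hb := hF (n + 1)
    rw [← hE, ← hs] at ha hb
    rw [pow_succ (1 / 4 : ℝ) n] at hb
    push_cast at hb ⊢
    have e1 : (n : ℝ) + 1 + 2 = n + 2 + 1 := by ring
    rw [e1] at hb
    simp only [add_zero, sub_zero]
    linarith
  · have : x * E * s ≤ x * E * (46 / 1000000) := mul_le_mul_of_nonneg_left h3 (by positivity)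
    have h0 : 0 < x * E := by positivity
    nlinarith

/-- upper bound for all shifts -/
theorem th2_le (σ : ℝ) {x : ℝ} (hx : 333 / 100 ≤ x) : th2 σ x ≤ 86 / 100 := by
  have h := abs_sub_round σ
  have e : σ = (σ - round σ) + (round σ : ℤ) := by ring
  rw [e, th2_shift]
  rcases le_total 0 (σ - round σ) with h0 | h0
  · rw [abs_of_nonneg h0] at h
    exact th2_le_aux h0 h hx
  · rw [abs_of_nonpos h0] at h
    rw [← th2_neg]
    exact th2_le_aux (by linarith) h hx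

end Pool.Agent.Lib.EPL
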