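import Pool.Agent.Lib.EPL.T1b
import Pool.Agent.Lib.EPL.T1c

/-!
# EPL.CuS: the first triangular sum of the cusp lemma

For `(i, j, k) ∈ ℤ³` let `Y₃ = i`, `Y₂ = j + α i`, `Y₁ = k + β i + γ j` and
`S = ∑ (a Y₁² - b Y₂²) exp (-(a Y₁² + b Y₂² + c Y₃²))`.
Claim: `S > 0` if `a ≥ 2.1`, `b ≥ 1.587 a`, `c ≥ 3/4 b`.

PROOF. Summability of everything: the exponent is `≥ δ (i² + j² + k²)` for some `δ > 0`
(`a, b, c > 0`; or iterate one-dimensional sums), weights `a Y₁²`, `b Y₂²` are absorbed by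
`p e^{-p} ≤ e^{-p/2}`.  Write the sum as iterated sums over `i`, `j`, `k` (`Summable.tsum_prod` etc).
Drop the part `a Y₁²` for `(i, j) ≠ 0`; for `i = j = 0`: `Y₂ = Y₃ = 0`, `Y₁ = k`:
`S ≥ th2 0 a - ∑_{(i,j)} b Y₂² e^{-b Y₂² - c i²} th (β i + γ j) a`
  `≥ th2 0 a - th 0 a * (th2 0 b + ∑_{i ≠ 0} e^{-c i²} th2 (α i) b)`        (`th_le`)
  `≥ th2 0 a - th 0 a * (th2 0 b + 0.86 (th 0 c - 1))`                      (`th2_le`, b ≥ 3.33)
  `≥ 2 a e^{-a} - (1 + 2.01 e^{-a}) (2.001 b e^{-b} + 0.86 * 2.01 e^{-c})`  (`th2_ge, th_upper, th2_upper`).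
`b e^{-b}` is decreasing for `b ≥ 1` and `b ≥ 1.587 a`, `c ≥ 1.19025 a`: after division by
`2 a e^{-a}` it remains
`(1 + 2.01 e^{-a}) (1.0005 * 1.587 e^{-0.587 a} + 0.8643 e^{-0.19025 a} / a) < 1`, the left side is
decreasing in `a`, at `a = 2.1` it is `1.2462 * (0.4629 + 0.2761) = 0.921`.
-/

namespace Pool.Agent.Lib.EPL

/-- the exponent of the triangular sums -/
def tq (a b c α β γ : ℝ) (p : ℤ × ℤ × ℤ) : ℝ :=
  a * ((p.2.2 : ℝ) + β * p.1 + γ * p.2.1) ^ 2 + b * ((p.2.1 : ℝ) + α * p.1) ^ 2 + c * (p.1 : ℝ) ^ 2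

namespace CuSAux

/-- the inner double sum -/
theorem inner {a : ℝ} (ha : 0 < a) (v : ℝ → ℝ) (hv0 : ∀ y, 0 ≤ v y) (σ : ℝ)
    (hv : Summable fun j : ℤ => v ((j : ℝ) + σ)) (τ γ : ℝ) :
    Summable (fun q : ℤ × ℤ => v ((q.1 : ℝ) + σ) *
      Real.exp (-(a * ((q.2 : ℝ) + τ + γ * q.1) ^ 2))) ∧
    ∑' q : ℤ × ℤ, v ((q.1 : ℝ) + σ) * Real.exp (-(a * ((q.2 : ℝ) + τ + γ * q.1) ^ 2)) ≤
      th 0 a * ∑' j : ℤ, v ((j : ℝ) + σ) := by
  have hk : ∀ j : ℤ, Summable fun k : ℤ => v ((j : ℝ) + σ) *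
      Real.exp (-(a * ((k : ℝ) + τ + γ * j) ^ 2)) := by
    intro j
    have := (summable_th (τ + γ * j) ha).mul_left (v ((j : ℝ) + σ))
    simpa only [add_assoc] using this
  have hval : ∀ j : ℤ, ∑' k : ℤ, v ((j : ℝ) + σ) * Real.exp (-(a * ((k : ℝ) + τ + γ * j) ^ 2)) =
      v ((j : ℝ) + σ) * th (τ + γ * j) a := by
    intro j
    rw [tsum_mul_left, th]
    simp only [add_assoc]
  have hle : ∀ j : ℤ, v ((j : ℝ) + σ) * th (τ + γ * j) a ≤ th 0 a * v ((j : ℝ) + σ) := by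
    intro j
    rw [mul_comm]
    exact mul_le_mul_of_nonneg_right (th_le _ ha) (hv0 _)
  have hs1 : Summable fun j : ℤ => v ((j : ℝ) + σ) * th (τ + γ * j) a :=
    Summable.of_nonneg_of_le (fun j => mul_nonneg (hv0 _) (th_pos _ ha).le) hle (hv.mul_left _)
  have hS : Summable (fun q : ℤ × ℤ => v ((q.1 : ℝ) + σ) *
      Real.exp (-(a * ((q.2 : ℝ) + τ + γ * q.1) ^ 2))) := by
    rw [summable_prod_of_nonneg (fun q => mul_nonneg (hv0 _) (Real.exp_pos _).le)]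
    refine ⟨fun j => hk j, ?_⟩
    simpa only [hval] using hs1
  refine ⟨hS, ?_⟩
  rw [hS.tsum_prod' (fun j => hk j)]
  simp only [hval]
  rw [← tsum_mul_left]
  exact hs1.tsum_le_tsum hle (hv.mul_left _)

theorem summable_gauss {c : ℝ} (hc : 0 < c) : Summable fun i : ℤ => Real.exp (-(c * (i : ℝ) ^ 2)) := by
  have := summable_th 0 hc
  simpa only [add_zero] using this

/-- the triple sum -/
theorem outer {a c : ℝ} (ha : 0 < a) (hc : 0 < c) (v : ℝ → ℝ) (hv0 : ∀ y, 0 ≤ v y)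
    (hv : ∀ σ : ℝ, Summable fun j : ℤ => v ((j : ℝ) + σ)) {K : ℝ}
    (hK : ∀ σ : ℝ, ∑' j : ℤ, v ((j : ℝ) + σ) ≤ K) (α β γ : ℝ) :
    Summable (fun p : ℤ × ℤ × ℤ => Real.exp (-(c * (p.1 : ℝ) ^ 2)) *
      (v ((p.2.1 : ℝ) + α * p.1) *
        Real.exp (-(a * ((p.2.2 : ℝ) + β * p.1 + γ * p.2.1) ^ 2)))) ∧
    ∑' p : ℤ × ℤ × ℤ, Real.exp (-(c * (p.1 : ℝ) ^ 2)) *
      (v ((p.2.1 : ℝ) + α * p.1) *
        Real.exp (-(a * ((p.2.2 : ℝ) + β * p.1 + γ * p.2.1) ^ 2))) ≤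
      th 0 a * ∑' i : ℤ, Real.exp (-(c * (i : ℝ) ^ 2)) * ∑' j : ℤ, v ((j : ℝ) + α * i) := by
  have hin := fun i : ℤ => inner ha v hv0 (α * i) (hv (α * i)) (β * i) γ
  have hk : ∀ i : ℤ, Summable fun q : ℤ × ℤ => Real.exp (-(c * (i : ℝ) ^ 2)) *
      (v ((q.1 : ℝ) + α * i) * Real.exp (-(a * ((q.2 : ℝ) + β * i + γ * q.1) ^ 2))) :=
    fun i => (hin i).1.mul_left _
  have hval : ∀ i : ℤ, ∑' q : ℤ × ℤ, Real.exp (-(c * (i : ℝ) ^ 2)) *
      (v ((q.1 : ℝ) + α * i) * Real.exp (-(a * ((q.2 : ℝ) + β * i + γ * q.1) ^ 2))) =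
      Real.exp (-(c * (i : ℝ) ^ 2)) * ∑' q : ℤ × ℤ,
      (v ((q.1 : ℝ) + α * i) * Real.exp (-(a * ((q.2 : ℝ) + β * i + γ * q.1) ^ 2))) :=
    fun i => tsum_mul_left
  have hth : 0 < th 0 a := th_pos 0 ha
  have hle : ∀ i : ℤ, Real.exp (-(c * (i : ℝ) ^ 2)) * ∑' q : ℤ × ℤ,
      (v ((q.1 : ℝ) + α * i) * Real.exp (-(a * ((q.2 : ℝ) + β * i + γ * q.1) ^ 2))) ≤
      th 0 a * (Real.exp (-(c * (i : ℝ) ^ 2)) * ∑' j : ℤ, v ((j : ℝ) + α * i)) := by
    intro i
    have := mul_le_mul_of_nonneg_left (hin i).2 (Real.exp_pos (-(c * (i : ℝ) ^ 2))).le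
    calc _ ≤ _ := this
      _ = _ := by ring
  have hsr : Summable fun i : ℤ => Real.exp (-(c * (i : ℝ) ^ 2)) * ∑' j : ℤ, v ((j : ℝ) + α * i) :=
    Summable.of_nonneg_of_le
      (fun i => mul_nonneg (Real.exp_pos _).le (tsum_nonneg fun j => hv0 _))
      (fun i => mul_le_mul_of_nonneg_left (hK _) (Real.exp_pos _).le)
      ((summable_gauss hc).mul_right K)
  have hs1 : Summable fun i : ℤ => Real.exp (-(c * (i : ℝ) ^ 2)) * ∑' q : ℤ × ℤ,
      (v ((q.1 : ℝ) + α * i) * Real.exp (-(a * ((q.2 : ℝ) + β * i + γ * q.1) ^ 2))) :=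
    Summable.of_nonneg_of_le
      (fun i => mul_nonneg (Real.exp_pos _).le
        (tsum_nonneg fun q => mul_nonneg (hv0 _) (Real.exp_pos _).le)) hle (hsr.mul_left _)
  have hS : Summable (fun p : ℤ × ℤ × ℤ => Real.exp (-(c * (p.1 : ℝ) ^ 2)) *
      (v ((p.2.1 : ℝ) + α * p.1) *
        Real.exp (-(a * ((p.2.2 : ℝ) + β * p.1 + γ * p.2.1) ^ 2)))) := by
    rw [summable_prod_of_nonneg (fun p => mul_nonneg (Real.exp_pos _).le
      (mul_nonneg (hv0 _) (Real.exp_pos _).le))]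
    refine ⟨fun i => hk i, ?_⟩
    simpa only [hval] using hs1
  refine ⟨hS, ?_⟩
  rw [hS.tsum_prod' (fun i => hk i)]
  simp only [hval]
  rw [← tsum_mul_left]
  exact hs1.tsum_le_tsum hle (hsr.mul_left _)

theorem exp_tq (a b c α β γ : ℝ) (p : ℤ × ℤ × ℤ) :
    Real.exp (-tq a b c α β γ p) = Real.exp (-(c * (p.1 : ℝ) ^ 2)) *
      (Real.exp (-(b * ((p.2.1 : ℝ) + α * p.1) ^ 2)) *
        Real.exp (-(a * ((p.2.2 : ℝ) + β * p.1 + γ * p.2.1) ^ 2))) := by
  rw [← Real.exp_add, ← Real.exp_add, tq]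
  congr 1
  ring

theorem summable_exp_tq {a b c : ℝ} (ha : 0 < a) (hb : 0 < b) (hc : 0 < c) (α β γ : ℝ) :
    Summable fun p : ℤ × ℤ × ℤ => Real.exp (-tq a b c α β γ p) := by
  simp only [exp_tq]
  exact (outer (K := th 0 b) ha hc (fun y => Real.exp (-(b * y ^ 2)))
    (fun y => (Real.exp_pos _).le) (fun σ => summable_th σ hb) (fun σ => th_le σ hb) α β γ).1

theorem tq_nonneg {a b c : ℝ} (ha : 0 < a) (hb : 0 < b) (hc : 0 < c) (α β γ : ℝ)
    (p : ℤ × ℤ × ℤ) : 0 ≤ tq a b c α β γ p := by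
  unfold tq
  positivity

theorem one_add_le {t : ℝ} (_ht : 0 ≤ t) : (1 + t) * Real.exp (-t) ≤ 2 * Real.exp (-(t / 2)) := by
  have h1 : 1 + t ≤ 2 * Real.exp (t / 2) := by
    have := Real.add_one_le_exp (t / 2)
    linarith
  have h2 : Real.exp (-(t / 2)) = Real.exp (t / 2) * Real.exp (-t) := by
    rw [← Real.exp_add]; congr 1; ring
  rw [h2, ← mul_assoc]
  exact mul_le_mul_of_nonneg_right h1 (Real.exp_pos _).le

theorem num {a b c : ℝ} (ha : 21 / 10 ≤ a) (hb : 1587 / 1000 * a ≤ b) (hc : 3 / 4 * b ≤ c) :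
    (1 + 201 / 100 * Real.exp (-a)) *
      (2001 / 1000 * b * Real.exp (-b) + 86 / 100 * (201 / 100 * Real.exp (-c))) <
    2 * a * Real.exp (-a) := by
  have ha0 : 0 < a := by linarith
  have hb1 : 1 ≤ 1587 / 1000 * a := by linarith
  -- decreasing function
  have hdec : b * Real.exp (-b) ≤ 1587 / 1000 * a * Real.exp (-(1587 / 1000 * a)) := by
    set y : ℝ := 1587 / 1000 * a with hy
    have h1 := Real.add_one_le_exp (b - y)
    have h2 : b ≤ y * Real.exp (b - y) := by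
      have h3 : y * (b - y + 1) ≤ y * Real.exp (b - y) :=
        mul_le_mul_of_nonneg_left h1 (by linarith)
      nlinarith
    have h4 : Real.exp (-y) = Real.exp (b - y) * Real.exp (-b) := by
      rw [← Real.exp_add]; congr 1; ring
    rw [h4, ← mul_assoc]
    exact mul_le_mul_of_nonneg_right h2 (Real.exp_pos _).le
  have hE : 0 < Real.exp (-a) := Real.exp_pos _
  have he1 : (2.718 : ℝ) ≤ Real.exp 1 := by
    have := Real.exp_one_gt_d9; linarith
  have hA : Real.exp (-a) ≤ 13 / 100 := by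
    have h1 : Real.exp (-a) ≤ (100 / 13 : ℝ)⁻¹ := by
      rw [Real.exp_neg]
      apply inv_anti₀ (by norm_num)
      have h2 : Real.exp (21 / 10) ≤ Real.exp a := Real.exp_le_exp.mpr ha
      refine le_trans ?_ h2
      have h3 : Real.exp (21 / 10) = Real.exp 1 ^ 2 * Real.exp (1 / 10) := by
        rw [← Real.exp_nat_mul, ← Real.exp_add]; congr 1; norm_num
      have h4 := Real.add_one_le_exp (1 / 10 : ℝ)
      have h5 : (2.718 : ℝ) ^ 2 ≤ Real.exp 1 ^ 2 := pow_le_pow_left₀ (by norm_num) he1 2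
      rw [h3]
      calc (100 / 13 : ℝ) ≤ 2.718 ^ 2 * (1 / 10 + 1) := by norm_num
        _ ≤ _ := mul_le_mul h5 h4 (by norm_num) (by positivity)
    norm_num at h1 ⊢
    exact h1
  have hB : Real.exp (-(1587 / 1000 * a)) ≤ 30 / 100 * Real.exp (-a) := by
    have h1 : Real.exp (-(1587 / 1000 * a)) = Real.exp (-(587 / 1000 * a)) * Real.exp (-a) := by
      rw [← Real.exp_add]; congr 1; ring
    rw [h1]
    apply mul_le_mul_of_nonneg_right _ hE.le
    have h2 : Real.exp (-(587 / 1000 * a)) ≤ (100 / 30 : ℝ)⁻¹ := by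
      rw [Real.exp_neg]
      apply inv_anti₀ (by norm_num)
      have h3 : Real.exp (1 + 2327 / 10000) ≤ Real.exp (587 / 1000 * a) := by
        apply Real.exp_le_exp.mpr; linarith
      refine le_trans ?_ h3
      rw [Real.exp_add]
      have h4 := Real.quadratic_le_exp_of_nonneg (show (0 : ℝ) ≤ 2327 / 10000 by norm_num)
      calc (100 / 30 : ℝ) ≤ 2.718 * (1 + 2327 / 10000 + (2327 / 10000) ^ 2 / 2) := by norm_num
        _ ≤ _ := mul_le_mul he1 h4 (by norm_num) (by positivity)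
    norm_num at h2 ⊢
    exact h2
  have hC : Real.exp (-c) ≤ 68 / 100 * Real.exp (-a) := by
    have h0 : Real.exp (-c) ≤ Real.exp (-(19 / 100 * a)) * Real.exp (-a) := by
      rw [← Real.exp_add]
      apply Real.exp_le_exp.mpr
      linarith
    refine h0.trans ?_
    apply mul_le_mul_of_nonneg_right _ hE.le
    have h2 : Real.exp (-(19 / 100 * a)) ≤ (100 / 68 : ℝ)⁻¹ := by
      rw [Real.exp_neg]
      apply inv_anti₀ (by norm_num)
      have h3 : Real.exp (399 / 1000) ≤ Real.exp (19 / 100 * a) := by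
        apply Real.exp_le_exp.mpr; linarith
      refine le_trans ?_ h3
      have h4 := Real.quadratic_le_exp_of_nonneg (show (0 : ℝ) ≤ 399 / 1000 by norm_num)
      refine le_trans ?_ h4
      norm_num
    norm_num at h2 ⊢
    exact h2
  have hbb : 2001 / 1000 * b * Real.exp (-b) ≤ 953 / 1000 * a * Real.exp (-a) := by
    have h1 : 1587 / 1000 * a * Real.exp (-(1587 / 1000 * a)) ≤
        1587 / 1000 * a * (30 / 100 * Real.exp (-a)) :=
      mul_le_mul_of_nonneg_left hB (by positivity)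
    have h2 : 0 ≤ a * Real.exp (-a) := by positivity
    nlinarith
  have hcc : 86 / 100 * (201 / 100 * Real.exp (-c)) ≤ 561 / 1000 * a * Real.exp (-a) := by
    have h2 : 21 / 10 * Real.exp (-a) ≤ a * Real.exp (-a) :=
      mul_le_mul_of_nonneg_right ha hE.le
    nlinarith
  have hsum : 2001 / 1000 * b * Real.exp (-b) + 86 / 100 * (201 / 100 * Real.exp (-c)) ≤
      1514 / 1000 * (a * Real.exp (-a)) := by
    nlinarith
  have hfac : 1 + 201 / 100 * Real.exp (-a) ≤ 12613 / 10000 := by linarith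
  have hpos : 0 < a * Real.exp (-a) := by positivity
  have hb0 : 0 < b := by linarith
  calc (1 + 201 / 100 * Real.exp (-a)) *
      (2001 / 1000 * b * Real.exp (-b) + 86 / 100 * (201 / 100 * Real.exp (-c)))
      ≤ 12613 / 10000 * (1514 / 1000 * (a * Real.exp (-a))) :=
        mul_le_mul hfac hsum (by positivity) (by norm_num)
    _ < 2 * a * Real.exp (-a) := by nlinarith

end CuSAux

theorem summable_tq {a b c : ℝ} (ha : 0 < a) (hb : 0 < b) (hc : 0 < c) (α β γ : ℝ) :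
    Summable fun p : ℤ × ℤ × ℤ => (1 + tq a b c α β γ p) * Real.exp (-tq a b c α β γ p) := by
  have h := (CuSAux.summable_exp_tq (half_pos ha) (half_pos hb) (half_pos hc) α β γ).mul_left 2
  refine Summable.of_nonneg_of_le (fun p => ?_) (fun p => ?_) h
  · have := CuSAux.tq_nonneg ha hb hc α β γ p
    positivity
  · have e : tq (a / 2) (b / 2) (c / 2) α β γ p = tq a b c α β γ p / 2 := by
      unfold tq; ring
    rw [e]
    exact CuSAux.one_add_le (CuSAux.tq_nonneg ha hb hc α β γ p)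

/-- the first triangular sum is positive -/
theorem cuS_pos {a b c : ℝ} (ha : 21 / 10 ≤ a) (hb : 1587 / 1000 * a ≤ b) (hc : 3 / 4 * b ≤ c)
    (α β γ : ℝ) :
    0 < ∑' p : ℤ × ℤ × ℤ, (a * ((p.2.2 : ℝ) + β * p.1 + γ * p.2.1) ^ 2 -
      b * ((p.2.1 : ℝ) + α * p.1) ^ 2) * Real.exp (-tq a b c α β γ p) := by
  have ha0 : 0 < a := by linarith
  have hb0 : 0 < b := by linarith
  have hc0 : 0 < c := by linarith
  have hb333 : 333 / 100 ≤ b := by linarith
  have hc21 : 21 / 10 ≤ c := by linarith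
  have hS := summable_tq ha0 hb0 hc0 α β γ
  -- the first part
  have h1s : Summable fun p : ℤ × ℤ × ℤ =>
      a * ((p.2.2 : ℝ) + β * p.1 + γ * p.2.1) ^ 2 * Real.exp (-tq a b c α β γ p) := by
    refine Summable.of_nonneg_of_le (fun p => by positivity) (fun p => ?_) hS
    apply mul_le_mul_of_nonneg_right _ (Real.exp_pos _).le
    have e1 : 0 ≤ b * ((p.2.1 : ℝ) + α * p.1) ^ 2 := by positivity
    have e2 : 0 ≤ c * (p.1 : ℝ) ^ 2 := by positivity
    unfold tq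
    linarith
  -- the second part
  have hv := CuSAux.outer (K := 86 / 100) ha0 hc0 (fun y => b * y ^ 2 * Real.exp (-(b * y ^ 2)))
    (fun y => by positivity) (fun σ => summable_th2 σ hb0) (fun σ => th2_le σ hb333) α β γ
  have e2 : ∀ p : ℤ × ℤ × ℤ, b * ((p.2.1 : ℝ) + α * p.1) ^ 2 * Real.exp (-tq a b c α β γ p) =
      Real.exp (-(c * (p.1 : ℝ) ^ 2)) *
      (b * ((p.2.1 : ℝ) + α * p.1) ^ 2 * Real.exp (-(b * ((p.2.1 : ℝ) + α * p.1) ^ 2)) *
        Real.exp (-(a * ((p.2.2 : ℝ) + β * p.1 + γ * p.2.1) ^ 2))) := by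
    intro p
    rw [CuSAux.exp_tq]
    ring
  have h2s : Summable fun p : ℤ × ℤ × ℤ =>
      b * ((p.2.1 : ℝ) + α * p.1) ^ 2 * Real.exp (-tq a b c α β γ p) := by
    simp only [e2]
    exact hv.1
  have hsplit : ∑' p : ℤ × ℤ × ℤ, (a * ((p.2.2 : ℝ) + β * p.1 + γ * p.2.1) ^ 2 -
      b * ((p.2.1 : ℝ) + α * p.1) ^ 2) * Real.exp (-tq a b c α β γ p) =
      (∑' p : ℤ × ℤ × ℤ, a * ((p.2.2 : ℝ) + β * p.1 + γ * p.2.1) ^ 2 *
        Real.exp (-tq a b c α β γ p)) -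
      ∑' p : ℤ × ℤ × ℤ, b * ((p.2.1 : ℝ) + α * p.1) ^ 2 * Real.exp (-tq a b c α β γ p) := by
    rw [← h1s.tsum_sub h2s]
    apply tsum_congr
    intro p
    ring
  -- lower bound of the first part
  have hlow : th2 0 a ≤ ∑' p : ℤ × ℤ × ℤ, a * ((p.2.2 : ℝ) + β * p.1 + γ * p.2.1) ^ 2 *
        Real.exp (-tq a b c α β γ p) := by
    have hinj : Function.Injective fun k : ℤ => ((0, 0, k) : ℤ × ℤ × ℤ) := by
      intro k l h
      simpa using h
    have h3 := tsum_comp_le_tsum_of_inj h1s (fun p => by positivity) hinj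
    refine le_trans (le_of_eq ?_) h3
    rw [th2]
    apply tsum_congr
    intro k
    simp [tq]
  -- upper bound of the second part
  have hup : ∑' p : ℤ × ℤ × ℤ, b * ((p.2.1 : ℝ) + α * p.1) ^ 2 * Real.exp (-tq a b c α β γ p) ≤
      th 0 a * (th2 0 b + 86 / 100 * (th 0 c - 1)) := by
    simp only [e2]
    refine hv.2.trans ?_
    apply mul_le_mul_of_nonneg_left _ (th_pos 0 ha0).le
    have hg := CuSAux.summable_gauss hc0
    have hthc : ∑' i : ℤ, Real.exp (-(c * (i : ℝ) ^ 2)) = th 0 c := by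
      rw [th]; simp only [add_zero]
    have hsingle : Summable fun i : ℤ => if i = 0 then (th2 0 b - 86 / 100) else 0 :=
      (hasSum_ite_eq (0 : ℤ) (th2 0 b - 86 / 100)).summable
    have hle : ∀ i : ℤ, Real.exp (-(c * (i : ℝ) ^ 2)) *
        ∑' j : ℤ, b * ((j : ℝ) + α * i) ^ 2 * Real.exp (-(b * ((j : ℝ) + α * i) ^ 2)) ≤
        86 / 100 * Real.exp (-(c * (i : ℝ) ^ 2)) + if i = 0 then (th2 0 b - 86 / 100) else 0 := by
      intro i
      by_cases hi : i = 0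
      · subst hi
        simp [th2]
      · rw [if_neg hi, add_zero, mul_comm]
        exact mul_le_mul_of_nonneg_right (th2_le (α * i) hb333) (Real.exp_pos _).le
    have hsl : Summable fun i : ℤ => Real.exp (-(c * (i : ℝ) ^ 2)) *
        ∑' j : ℤ, b * ((j : ℝ) + α * i) ^ 2 * Real.exp (-(b * ((j : ℝ) + α * i) ^ 2)) :=
      Summable.of_nonneg_of_le
        (fun i => mul_nonneg (Real.exp_pos _).le (tsum_nonneg fun j => by positivity))
        (fun i => mul_le_mul_of_nonneg_left (th2_le (α * i) hb333) (Real.exp_pos _).le)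
        (hg.mul_right _)
    refine (hsl.tsum_le_tsum hle ((hg.mul_left _).add hsingle)).trans (le_of_eq ?_)
    rw [(hg.mul_left _).tsum_add hsingle, tsum_mul_left, hthc, tsum_ite_eq]
    ring
  rw [hsplit]
  have hnum := CuSAux.num ha hb hc
  have g1 := th2_ge ha0
  have g2 := th_upper ha
  have g3 := th2_upper hb333
  have g4 := th_upper hc21
  have hX0 : 0 ≤ th2 0 b + 86 / 100 * (th 0 c - 1) := by
    have hA := th2_ge hb0
    have hB : 1 ≤ th 0 c := by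
      have := (summable_th 0 hc0).le_tsum 0 (fun k _ => (Real.exp_pos _).le)
      simpa [th] using this
    have hC : 0 ≤ 2 * b * Real.exp (-b) := by positivity
    nlinarith
  have hmul : th 0 a * (th2 0 b + 86 / 100 * (th 0 c - 1)) ≤
      (1 + 201 / 100 * Real.exp (-a)) *
      (2001 / 1000 * b * Real.exp (-b) + 86 / 100 * (201 / 100 * Real.exp (-c))) := by
    apply mul_le_mul g2 _ hX0 (by positivity)
    linarith
  linarith

end Pool.Agent.Lib.EPL
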