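import Pool.Agent.Lib.EPL.CuG
import Pool.Agent.Lib.EpZ.Inv

/-!
# EPL.Cusp: forms with a short vector are not local minima

PROOF of `exists_gs`.  Let `Q` be PD and `U₀ ∈ GL₃(ℤ)`.  Consider all `U ∈ GL₃(ℤ)`; write
`A = act U Q`.  `A 0 0 = Q[U e1]` is the value of `Q` at a nonzero integer vector, the leading minor
`A 0 0 * A 1 1 - (A 0 1)²` is the value of the positive definite form `adj Q` at the nonzero integer
vector `U e1 × U e2`; both take only finitely many values below any bound (`finite_level`), so one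
can choose `U` with `A 0 0` minimal, and among these one with minimal leading minor `m2`.
Replacing `e2` by `e2 + k e1`, and `e3` by `e3 + l e2`, changes neither; hence we may assume
`|A 0 1| ≤ A 0 0 / 2` and `|c| ≤ 1/2`.  Put `d1 = A 0 0`, `a = A 0 1 / d1`, `b = A 0 2 / d1`,
`d2 = m2 / d1`, `c = (A 1 2 - d1 a b) / d2`, `d3 = det Q / m2`; then `A = gs d1 d2 d3 a b c`.
Swapping `e1, e2`: `A 1 1 = d1 a² + d2 ≥ d1`, so `d2 ≥ 3/4 d1`.  Swapping `e2, e3`: the leading minor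
becomes `d1 (d2 c² + d3) ≥ d1 d2`, so `d3 ≥ 3/4 d2`.  `d1 ≤ Q[U₀ e1]` by minimality.

PROOF of `cusp`.  `LocMin` is invariant under `act` (`Eqv.locMin`).  `4 d1³ ≤ det Q = d1 d2 d3`, i.e.
`4 d1² ≤ d2 d3`.  If `d2 ≥ 1.587 d1`: `gs_notMin1`.  Otherwise `d2 < 1.587 d1` and
`d2 d3 ≥ 4 d1² > 4 d2² / 1.587²`, `d3 > 4 / 2.5186 d2 ≥ 1.587 d2`: `gs_notMin2`.
-/

open Matrix
open scoped Matrix.Norms.Elementwise

namespace Pool.Agent.Lib.EPL

open Pool.Agent.Lib.EpZ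

namespace CuspAux

/-- the bilinear form -/
def bl (Q : Mx 3) (x y : Fin 3 → ℤ) : ℝ := ∑ i, ∑ j, (x i : ℝ) * Q i j * (y j : ℝ)

lemma bl_self (Q : Mx 3) (x : Fin 3 → ℤ) : bl Q x x = qf Q x := by
  unfold bl qf
  rw [qr_eq]
  rfl

lemma act_apply (U : Matrix (Fin 3) (Fin 3) ℤ) (Q : Mx 3) (p q : Fin 3) :
    act U Q p q = bl Q (fun i => U i p) (fun i => U i q) := by
  unfold act bl
  simp only [Matrix.mul_apply, Matrix.transpose_apply, Matrix.map_apply, Fin.sum_univ_three]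
  ring

/-- the leading minor -/
def m2 (A : Mx 3) : ℝ := A 0 0 * A 1 1 - A 0 1 ^ 2

def E01 (k : ℤ) : Matrix (Fin 3) (Fin 3) ℤ := !![1, k, 0; 0, 1, 0; 0, 0, 1]
def E12 (k : ℤ) : Matrix (Fin 3) (Fin 3) ℤ := !![1, 0, 0; 0, 1, k; 0, 0, 1]
def P01 : Matrix (Fin 3) (Fin 3) ℤ := !![0, 1, 0; 1, 0, 0; 0, 0, 1]
def P12 : Matrix (Fin 3) (Fin 3) ℤ := !![1, 0, 0; 0, 0, 1; 0, 1, 0]

lemma det_E01 (k : ℤ) : (E01 k).det = 1 := by
  simp [E01, Matrix.det_fin_three]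
lemma det_E12 (k : ℤ) : (E12 k).det = 1 := by
  simp [E12, Matrix.det_fin_three]
lemma det_P01 : P01.det = -1 := by
  simp [P01, Matrix.det_fin_three]
lemma det_P12 : P12.det = -1 := by
  simp [P12, Matrix.det_fin_three]

lemma unit_mul {U V : Matrix (Fin 3) (Fin 3) ℤ} (hU : IsUnit U.det) (hV : IsUnit V.det) :
    IsUnit (U * V).det := by
  rw [det_mul]
  exact hU.mul hV

lemma uE01 (k : ℤ) : IsUnit (E01 k).det := by rw [det_E01]; exact isUnit_one
lemma uE12 (k : ℤ) : IsUnit (E12 k).det := by rw [det_E12]; exact isUnit_one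
lemma uP01 : IsUnit P01.det := by rw [det_P01]; exact isUnit_one.neg
lemma uP12 : IsUnit P12.det := by rw [det_P12]; exact isUnit_one.neg

lemma col_ne {U : Matrix (Fin 3) (Fin 3) ℤ} (hU : IsUnit U.det) (p : Fin 3) :
    (fun i => U i p) ≠ 0 := by
  intro h
  have h1 : U.det = 0 := Matrix.det_eq_zero_of_column_eq_zero p fun i => by
    have := congrFun h i
    simpa using this
  rw [h1] at hU
  exact not_isUnit_zero hU

lemma sym {A : Mx 3} (hA : PD A) (i j : Fin 3) : A i j = A j i := by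
  have := hA.1.apply i j
  exact this.symm

lemma pd_act {Q : Mx 3} (hQ : PD Q) {U : Matrix (Fin 3) (Fin 3) ℤ} (hU : IsUnit U.det) :
    PD (act U Q) := (show Eqv Q (act U Q) from ⟨U, hU, rfl⟩).pd hQ

lemma pos00 {A : Mx 3} (hA : PD A) : 0 < A 0 0 := by
  have h := hA.2 ![1, 0, 0] (by
    intro h
    have := congrFun h 0
    simp at this)
  rw [qr_eq] at h
  simp [Fin.sum_univ_three] at h
  exact h

/-- first minimum -/
lemma first {Q : Mx 3} (hQ : PD Q) (U₀ : Matrix (Fin 3) (Fin 3) ℤ) (hU₀ : IsUnit U₀.det) :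
    ∃ U : Matrix (Fin 3) (Fin 3) ℤ, IsUnit U.det ∧ ∀ V : Matrix (Fin 3) (Fin 3) ℤ, IsUnit V.det →
      act U Q 0 0 ≤ act V Q 0 0 := by
  set r := act U₀ Q 0 0 with hr
  set X : Set (NZ 3) := {x | qf Q x.1 ≤ r ∧ ∃ U : Matrix (Fin 3) (Fin 3) ℤ, IsUnit U.det ∧
    x.1 = fun i => U i 0} with hX
  have hfin : X.Finite := (finite_level hQ r).subset fun x hx => hx.1
  have hne : X.Nonempty := ⟨⟨fun i => U₀ i 0, col_ne hU₀ 0⟩, by
    refine ⟨?_, U₀, hU₀, rfl⟩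
    rw [hr, act_apply, bl_self]⟩
  obtain ⟨x, ⟨hx1, U, hU, hxU⟩, hmin⟩ := Set.exists_min_image X (fun x => qf Q x.1) hfin hne
  refine ⟨U, hU, fun V hV => ?_⟩
  rw [act_apply, act_apply, bl_self, bl_self, ← hxU]
  by_cases h : qf Q (fun i => V i 0) ≤ r
  · exact hmin ⟨fun i => V i 0, col_ne hV 0⟩ ⟨h, V, hV, rfl⟩
  · push Not at h
    exact hx1.trans h.le

lemma act_E01 (A : Mx 3) (hA : PD A) (k : ℤ) :
    act (E01 k) A 0 0 = A 0 0 ∧ act (E01 k) A 0 1 = A 0 1 + k * A 0 0 ∧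
    m2 (act (E01 k) A) = m2 A := by
  have h10 := sym hA 1 0
  refine ⟨?_, ?_, ?_⟩
  · rw [act_apply]
    simp [bl, E01, Fin.sum_univ_three]
  · rw [act_apply]
    simp [bl, E01, Fin.sum_univ_three]
    ring
  · unfold m2
    rw [act_apply, act_apply, act_apply]
    simp [bl, E01, Fin.sum_univ_three]
    rw [h10]
    ring

lemma round_half (x : ℝ) : |x + ((-round x : ℤ) : ℝ)| ≤ 1 / 2 := by
  have := abs_sub_round x
  push_cast
  rw [← sub_eq_add_neg]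
  exact this

/-- size reduction of the second vector -/
lemma size2 {Q : Mx 3} (hQ : PD Q) {U : Matrix (Fin 3) (Fin 3) ℤ} (hU : IsUnit U.det) :
    ∃ V : Matrix (Fin 3) (Fin 3) ℤ, IsUnit V.det ∧ act V Q 0 0 = act U Q 0 0 ∧
      |act V Q 0 1| ≤ act U Q 0 0 / 2 ∧ m2 (act V Q) = m2 (act U Q) := by
  have hA := pd_act hQ hU
  have h0 := pos00 hA
  set A := act U Q with hAdef
  set k : ℤ := -round (A 0 1 / A 0 0) with hk
  obtain ⟨h1, h2, h3⟩ := act_E01 A hA k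
  refine ⟨U * E01 k, unit_mul hU (uE01 k), ?_⟩
  rw [← InvAux.act_act, ← hAdef]
  refine ⟨h1, ?_, h3⟩
  rw [h2]
  have h4 := round_half (A 0 1 / A 0 0)
  rw [← hk] at h4
  have h5 : A 0 1 + k * A 0 0 = (A 0 1 / A 0 0 + k) * A 0 0 := by
    field_simp
  rw [h5, abs_mul, abs_of_pos h0]
  nlinarith

/-- second minimum -/
lemma second {Q : Mx 3} (hQ : PD Q) (U₀ : Matrix (Fin 3) (Fin 3) ℤ) (hU₀ : IsUnit U₀.det) :
    ∃ U : Matrix (Fin 3) (Fin 3) ℤ, IsUnit U.det ∧ act U Q 0 0 = act U₀ Q 0 0 ∧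
      |act U Q 0 1| ≤ act U₀ Q 0 0 / 2 ∧
      ∀ V : Matrix (Fin 3) (Fin 3) ℤ, IsUnit V.det → act V Q 0 0 = act U₀ Q 0 0 →
        m2 (act U Q) ≤ m2 (act V Q) := by
  set d := act U₀ Q 0 0 with hd
  have hd0 : 0 < d := pos00 (pd_act hQ hU₀)
  obtain ⟨U₁, hU₁, h11, h12, h13⟩ := size2 hQ hU₀
  rw [← hd] at h11 h12
  set m0 := m2 (act U₁ Q) with hm0
  set r := max d ((m0 + d ^ 2 / 4) / d) with hr
  set L : Set (NZ 3) := {x | qf Q x.1 ≤ r} with hL
  have hLf : L.Finite := finite_level hQ r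
  set X : Set (NZ 3 × NZ 3) := {p | p ∈ L ×ˢ L ∧ ∃ U : Matrix (Fin 3) (Fin 3) ℤ, IsUnit U.det ∧
    act U Q 0 0 = d ∧ |act U Q 0 1| ≤ d / 2 ∧ (p.1.1 = fun i => U i 0) ∧ (p.2.1 = fun i => U i 1)}
    with hX
  have hXf : X.Finite := (hLf.prod hLf).subset fun p hp => hp.1
  have key : ∀ U : Matrix (Fin 3) (Fin 3) ℤ, ∀ hU : IsUnit U.det, act U Q 0 0 = d →
      |act U Q 0 1| ≤ d / 2 → m2 (act U Q) ≤ m0 →
      ((⟨fun i => U i 0, col_ne hU 0⟩, ⟨fun i => U i 1, col_ne hU 1⟩) : NZ 3 × NZ 3) ∈ X := by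
    intro U hU h1 h2 h3
    refine ⟨Set.mem_prod.2 ⟨?_, ?_⟩, U, hU, h1, h2, rfl, rfl⟩
    · show qf Q (fun i => U i 0) ≤ r
      rw [← bl_self, ← act_apply, h1]
      exact le_max_left _ _
    · show qf Q (fun i => U i 1) ≤ r
      rw [← bl_self, ← act_apply]
      refine le_trans ?_ (le_max_right _ _)
      rw [le_div_iff₀ hd0]
      unfold m2 at h3
      rw [h1] at h3
      have h4 : (act U Q 0 1) ^ 2 ≤ (d / 2) ^ 2 := by
        rw [← sq_abs]
        exact pow_le_pow_left₀ (abs_nonneg _) h2 2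
      nlinarith
  have hXne : X.Nonempty := ⟨_, key U₁ hU₁ h11 h12 le_rfl⟩
  obtain ⟨p, ⟨hpL, U, hU, hU1, hU2, hp1, hp2⟩, hmin⟩ := Set.exists_min_image X
    (fun p => qf Q p.1.1 * qf Q p.2.1 - (bl Q p.1.1 p.2.1) ^ 2) hXf hXne
  have hval : ∀ V : Matrix (Fin 3) (Fin 3) ℤ, m2 (act V Q) =
      qf Q (fun i => V i 0) * qf Q (fun i => V i 1) - (bl Q (fun i => V i 0) (fun i => V i 1)) ^ 2 := by
    intro V
    unfold m2
    rw [act_apply, act_apply, act_apply, bl_self, bl_self]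
  have hUm : m2 (act U Q) ≤ m0 := by
    have := hmin _ (key U₁ hU₁ h11 h12 le_rfl)
    rw [hp1, hp2] at this
    rw [hval U, hm0, hval U₁]
    exact this
  refine ⟨U, hU, hU1, hU2, fun V hV hV1 => ?_⟩
  have hdV : act V Q 0 0 = d := hV1
  obtain ⟨V', hV', h1, h2, h3⟩ := size2 hQ hV
  rw [hdV] at h1 h2
  rw [← h3]
  by_cases h : m2 (act V' Q) ≤ m0
  · have := hmin _ (key V' hV' h1 h2 h)
    rw [hp1, hp2] at this
    rw [hval U, hval V']
    exact this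
  · push Not at h
    exact hUm.trans h.le

lemma act_E12 (A : Mx 3) (hA : PD A) (k : ℤ) :
    act (E12 k) A 0 0 = A 0 0 ∧ act (E12 k) A 0 1 = A 0 1 ∧ act (E12 k) A 1 1 = A 1 1 ∧
    act (E12 k) A 0 2 = A 0 2 + k * A 0 1 ∧ act (E12 k) A 1 2 = A 1 2 + k * A 1 1 := by
  refine ⟨?_, ?_, ?_, ?_, ?_⟩
  · rw [act_apply]; simp [bl, E12, Fin.sum_univ_three]
  · rw [act_apply]; simp [bl, E12, Fin.sum_univ_three]
  · rw [act_apply]; simp [bl, E12, Fin.sum_univ_three]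
  · rw [act_apply]; simp [bl, E12, Fin.sum_univ_three]; ring
  · rw [act_apply]; simp [bl, E12, Fin.sum_univ_three]; ring

lemma act_P01 (A : Mx 3) : act P01 A 0 0 = A 1 1 := by
  rw [act_apply]; simp [bl, P01, Fin.sum_univ_three]

lemma act_P12 (A : Mx 3) : act P12 A 0 0 = A 0 0 ∧ m2 (act P12 A) = A 0 0 * A 2 2 - A 0 2 ^ 2 := by
  refine ⟨?_, ?_⟩
  · rw [act_apply]; simp [bl, P12, Fin.sum_univ_three]
  · unfold m2
    rw [act_apply, act_apply, act_apply]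
    simp [bl, P12, Fin.sum_univ_three]

end CuspAux

open CuspAux

/-- a reduced basis -/
theorem exists_gs {Q : Mx 3} (hQ : PD Q) (U₀ : Matrix (Fin 3) (Fin 3) ℤ) (hU₀ : IsUnit U₀.det) :
    ∃ (U : Matrix (Fin 3) (Fin 3) ℤ) (d1 d2 d3 a b c : ℝ), IsUnit U.det ∧
      act U Q = gs d1 d2 d3 a b c ∧ 0 < d1 ∧ 3 / 4 * d1 ≤ d2 ∧ 3 / 4 * d2 ≤ d3 ∧
      d1 ≤ qf Q (fun i => U₀ i 0) := by
  obtain ⟨U₁, hU₁, hmin1⟩ := first hQ U₀ hU₀
  obtain ⟨U₂, hU₂, h20, h21, hmin2⟩ := second hQ U₁ hU₁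
  set B := act U₂ Q with hB
  have hBpd : PD B := pd_act hQ hU₂
  have hB0 : 0 < B 0 0 := pos00 hBpd
  -- the second Gram-Schmidt number
  have hm2 : ∀ A : Mx 3, PD A → 0 < m2 A := by
    intro A hA
    have h0 := pos00 hA
    have h := hA.2 ![-(A 0 1), A 0 0, 0] (by
      intro h
      have := congrFun h 1
      simp at this
      exact h0.ne' this)
    rw [qr_eq] at h
    simp [Fin.sum_univ_three] at h
    rw [sym hA 1 0] at h
    have h2 : 0 < A 0 0 * m2 A := by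
      unfold m2
      nlinarith
    exact (mul_pos_iff_of_pos_left h0).1 h2
  have hmB := hm2 B hBpd
  set c0 : ℝ := (B 1 2 - B 0 1 * B 0 2 / B 0 0) / (m2 B / B 0 0) with hc0
  set l : ℤ := -round c0 with hl
  obtain ⟨e1, e2, e3, e4, e5⟩ := act_E12 B hBpd l
  set U := U₂ * E12 l with hUdef
  have hU : IsUnit U.det := unit_mul hU₂ (uE12 l)
  set A := act U Q with hA
  have hAB : A = act (E12 l) B := by
    rw [hA, hUdef, hB, InvAux.act_act]
  have hApd : PD A := pd_act hQ hU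
  rw [← hAB] at e1 e2 e3 e4 e5
  have hA0 : 0 < A 0 0 := pos00 hApd
  have hmA : m2 A = m2 B := by
    unfold m2
    rw [e1, e2, e3]
  have hmA0 : 0 < m2 A := hm2 A hApd
  set d1 := A 0 0 with hd1
  set a := A 0 1 / d1 with ha
  set b := A 0 2 / d1 with hb
  set d2 := m2 A / d1 with hd2
  set c := (A 1 2 - d1 * a * b) / d2 with hc
  set d3 := A 2 2 - d1 * b ^ 2 - d2 * c ^ 2 with hd3
  have hd2p : 0 < d2 := div_pos hmA0 hA0
  have ha' : d1 * a = A 0 1 := by rw [ha]; field_simp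
  have hb' : d1 * b = A 0 2 := by rw [hb]; field_simp
  have hc' : d2 * c = A 1 2 - d1 * a * b := by rw [hc]; field_simp
  have hd2' : d2 = A 1 1 - d1 * a ^ 2 := by
    rw [hd2, div_eq_iff hA0.ne']
    unfold m2
    rw [← ha']
    ring
  have h10 := sym hApd 1 0
  have h20' := sym hApd 2 0
  have h21' := sym hApd 2 1
  have hgs : A = gs d1 d2 d3 a b c := by
    ext i j
    fin_cases i <;> fin_cases j <;> simp [gs]
    · rfl
    · exact ha'.symm
    · exact hb'.symm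
    · rw [h10]; exact ha'.symm
    · rw [hd2']; ring
    · rw [hc']; ring
    · rw [h20']; exact hb'.symm
    · rw [h21', hc']; ring
    · rw [hd3]; ring
  -- the bounds for a and c
  have hA1 : A 0 0 = act U₁ Q 0 0 := by
    rw [← hd1, e1]
    exact h20
  have haa : |a| ≤ 1 / 2 := by
    rw [ha, abs_div, abs_of_pos hA0, div_le_iff₀ hA0, e2]
    refine h21.trans (le_of_eq ?_)
    rw [← hA1]
    ring
  have hcc : |c| ≤ 1 / 2 := by
    have h1 := round_half c0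
    rw [← hl] at h1
    have h2 : c = c0 + l := by
      have hB0' : B 0 0 = d1 := e1.symm
      have hd2B : m2 B / B 0 0 = d2 := by rw [hd2, hmA, hB0']
      have h3 : d2 * c0 = B 1 2 - B 0 1 * B 0 2 / d1 := by
        rw [hc0, hd2B, hB0']
        field_simp
      have h4 : d2 * c = d2 * (c0 + l) := by
        rw [mul_add, h3, hc', e5]
        have h5 : d1 * a * b = A 0 1 * A 0 2 / d1 := by
          rw [ha', hb]
          ring
        rw [h5, e4, hd2', e3]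
        have h6 : d1 * a ^ 2 = A 0 1 * A 0 1 / d1 := by
          rw [← ha']
          field_simp
        rw [h6, e2]
        ring
      exact mul_left_cancel₀ hd2p.ne' h4
    rw [h2]
    exact h1
  have ha2 : a ^ 2 ≤ 1 / 4 := by
    have := pow_le_pow_left₀ (abs_nonneg a) haa 2
    rw [sq_abs] at this
    linarith
  have hc2 : c ^ 2 ≤ 1 / 4 := by
    have := pow_le_pow_left₀ (abs_nonneg c) hcc 2
    rw [sq_abs] at this
    linarith
  refine ⟨U, d1, d2, d3, a, b, c, hU, hgs, hA0, ?_, ?_, ?_⟩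
  · have h1 := hmin1 (U * P01) (unit_mul hU uP01)
    rw [← InvAux.act_act, ← hA, act_P01, ← hA1] at h1
    have h2 : A 1 1 = d1 * a ^ 2 + d2 := by rw [hd2']; ring
    nlinarith
  · obtain ⟨p1, p2⟩ := act_P12 A
    have h1 := hmin2 (U * P12) (unit_mul hU uP12) (by
      rw [← InvAux.act_act, ← hA, p1]
      exact hA1)
    rw [← InvAux.act_act, ← hA, p2, ← hmA] at h1
    have h2 : m2 A = d1 * d2 := by rw [hd2]; field_simp
    have h3 : A 0 0 * A 2 2 - A 0 2 ^ 2 = d1 * (d2 * c ^ 2 + d3) := by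
      rw [← hb', hd3, ← hd1]
      ring
    rw [h2, h3] at h1
    have h4 : d2 ≤ d2 * c ^ 2 + d3 := le_of_mul_le_mul_left h1 hA0
    nlinarith
  · have h1 := hmin1 U₀ hU₀
    rw [← hA1] at h1
    rw [← bl_self, ← act_apply]
    exact h1

/-- a form with a basis vector `x` such that `4 Q[x]³ ≤ det Q` is not a local minimum -/
theorem cusp {Q : Mx 3} (hQ : PD Q) (U : Matrix (Fin 3) (Fin 3) ℤ) (hU : IsUnit U.det)
    (hx : 4 * (qf Q (fun i => U i 0)) ^ 3 ≤ Q.det) {s : ℝ} (hs : 3 / 2 < s) : ¬ LocMin s Q := by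
  obtain ⟨V, d1, d2, d3, a, b, c, hV, hgs, h1, h2, h3, h4⟩ := exists_gs hQ U hU
  intro hmin
  have hE : Eqv Q (act V Q) := ⟨V, hV, rfl⟩
  have hmin' := hE.locMin hmin
  have hdet := hE.det
  rw [hgs] at hmin' hdet
  rw [gs_det] at hdet
  have h5 : d1 ^ 3 ≤ (qf Q (fun i => U i 0)) ^ 3 := pow_le_pow_left₀ h1.le h4 3
  have h6 : 4 * d1 ^ 3 ≤ d1 * d2 * d3 := by linarith
  have h7 : 4 * d1 ^ 2 ≤ d2 * d3 := by
    have : d1 * (4 * d1 ^ 2) ≤ d1 * (d2 * d3) := by nlinarith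
    exact le_of_mul_le_mul_left this h1
  have hd2 : 0 < d2 := by linarith
  by_cases hc : 1587 / 1000 * d1 ≤ d2
  · exact gs_notMin1 h1 hc h3 a b c hs hmin'
  · push Not at hc
    refine gs_notMin2 h1 h2 ?_ a b c hs hmin'
    by_contra hlt
    push Not at hlt
    have h8 : d2 * d3 < 1587 / 1000 * d2 ^ 2 := by nlinarith
    have h9 : d2 ^ 2 < (1587 / 1000 * d1) ^ 2 := pow_lt_pow_left₀ hc hd2.le (by norm_num)
    nlinarith [sq_nonneg d1]

end Pool.Agent.Lib.EPL
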