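import Pool.Agent.Lib.EPL.Mel
import Pool.Agent.Lib.EPS.Split
import Pool.Agent.Lib.EpZ.First

/-!
# First order conditions at a local minimum in terms of theta functions
-/

open MeasureTheory Set Filter Topology Matrix
open scoped Matrix.Norms.Elementwise

namespace Pool.Agent.Lib.EPL

open Pool.Agent.Lib.EpZ Pool.Agent.Lib.EPS

/-- the derivative of the theta function of `Q` in the direction `H`, up to the factor `-t` -/
noncomputable def Th (Q H : Mx 3) (t : ℝ) : ℝ :=
  ∑' x : Fin 3 → ℤ, qf H x * Real.exp (-(t * qf Q x))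

lemma nn_exp {c : ℝ} (hc : 0 < c) (n : ℝ) (hn : 0 ≤ n) :
    n * Real.exp (-(c * n)) ≤ 2 / c * Real.exp (-(c / 2 * n)) := by
  have h1 : c / 2 * n ≤ Real.exp (c / 2 * n) := by
    have := Real.add_one_le_exp (c / 2 * n)
    linarith
  have h2 : Real.exp (-(c * n)) = Real.exp (-(c / 2 * n)) * Real.exp (-(c / 2 * n)) := by
    rw [← Real.exp_add]; congr 1; ring
  have h3 : Real.exp (c / 2 * n) * Real.exp (-(c / 2 * n)) = 1 := by
    rw [← Real.exp_add]; simp
  have h4 : n ≤ 2 / c * Real.exp (c / 2 * n) := by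
    have : 2 / c * (c / 2 * n) ≤ 2 / c * Real.exp (c / 2 * n) :=
      mul_le_mul_of_nonneg_left h1 (by positivity)
    have h5 : 2 / c * (c / 2 * n) = n := by field_simp
    linarith
  calc n * Real.exp (-(c * n)) ≤ (2 / c * Real.exp (c / 2 * n)) * Real.exp (-(c * n)) :=
        mul_le_mul_of_nonneg_right h4 (Real.exp_pos _).le
    _ = 2 / c * Real.exp (-(c / 2 * n)) * (Real.exp (c / 2 * n) * Real.exp (-(c / 2 * n))) := by
        rw [h2]; ring
    _ = _ := by rw [h3]; ring

/-- sums of squares weighted by Gaussians -/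
lemma summable_nn_exp {c : ℝ} (hc : 0 < c) :
    Summable fun x : Fin 3 → ℤ => nn x * Real.exp (-(c * nn x)) := by
  refine Summable.of_nonneg_of_le (fun x => mul_nonneg (nn_nonneg x) (Real.exp_pos _).le)
    (fun x => nn_exp hc (nn x) (nn_nonneg x)) ?_
  refine Summable.mul_left _ ?_
  refine (P34eea4.summable_gauss_int (Fin 3) (c := c / 2) (by positivity)).congr fun x => ?_
  unfold nn
  congr 1
  ring

/-- the defining sum of `Th` converges -/
lemma summable_Th {Q : Mx 3} (hQ : PD Q) (H : Mx 3) {t : ℝ} (ht : 0 < t) :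
    Summable fun x : Fin 3 → ℤ => qf H x * Real.exp (-(t * qf Q x)) := by
  obtain ⟨c, hc, hl⟩ := hQ.low
  refine Summable.of_norm_bounded ((summable_nn_exp (mul_pos ht hc)).mul_left (3 * ‖H‖)) fun x => ?_
  rw [Real.norm_eq_abs, abs_mul, abs_of_pos (Real.exp_pos _)]
  have h1 : |qf H x| ≤ 3 * ‖H‖ * nn x := by
    have := qf_abs_le H x
    simpa using this
  have h2 : Real.exp (-(t * qf Q x)) ≤ Real.exp (-(t * c * nn x)) := by
    refine Real.exp_le_exp.mpr ?_
    have := mul_le_mul_of_nonneg_left (hl x) ht.le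
    linarith
  calc |qf H x| * Real.exp (-(t * qf Q x)) ≤ (3 * ‖H‖ * nn x) * Real.exp (-(t * c * nn x)) :=
        mul_le_mul h1 h2 (Real.exp_pos _).le (by have := nn_nonneg x; positivity)
    _ = _ := by ring

lemma Th_nz {Q : Mx 3} (hQ : PD Q) (H : Mx 3) {t : ℝ} (ht : 0 < t) :
    Th Q H t = ∑' x : NZ 3, qf H x.1 * Real.exp (-(qf Q x.1 * t)) := by
  unfold Th
  rw [tsum_nz (summable_Th hQ H ht), qf_zero]
  simp only [zero_mul, zero_add]
  exact tsum_congr fun x => by rw [mul_comm t]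

/-- the Mellin transform of `Th` -/
theorem mel_Th {Q : Mx 3} (hQ : PD Q) (H : Mx 3) {s : ℝ} (hs : 3 / 2 < s) :
    IntegrableOn (fun t : ℝ => t ^ s * Th Q H t) (Ioi 0) ∧
      ∫ t in Ioi (0 : ℝ), t ^ s * Th Q H t =
        Real.Gamma (s + 1) * ∑' x : NZ 3, qf Q x.1 ^ (-s) * (qf H x.1 / qf Q x.1) := by
  obtain ⟨c, hc, hl⟩ := hQ.low
  have e1 : ∀ x : NZ 3, qf H x.1 / qf Q x.1 ^ (s + 1) = qf Q x.1 ^ (-s) * (qf H x.1 / qf Q x.1) := by
    intro x
    have hp := hQ.pos x
    rw [Real.rpow_add hp, Real.rpow_one, Real.rpow_neg hp.le]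
    field_simp
  have e2 : ∀ x : NZ 3, |qf H x.1| / qf Q x.1 ^ (s + 1) =
      |qf Q x.1 ^ (-s) * (qf H x.1 / qf Q x.1)| := by
    intro x
    rw [← e1 x, abs_div, abs_of_pos (Real.rpow_pos_of_pos (hQ.pos x) _)]
  have hsum : Summable fun x : NZ 3 => |qf H x.1| / qf Q x.1 ^ (s + 1) := by
    simp only [e2]
    exact (hl.summable_mul hc (by norm_num; exact hs) H).abs
  have hpt : ∀ t : ℝ, 0 < t → Summable fun x : NZ 3 => qf H x.1 * Real.exp (-(qf Q x.1 * t)) := by
    intro t ht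
    refine ((summable_Th hQ H ht).subtype _).congr fun x => ?_
    simp [mul_comm]
  have h := mel (a := fun x : NZ 3 => qf H x.1) (p := fun x : NZ 3 => qf Q x.1)
    (fun x => hQ.pos x) (s := s + 1) (by linarith) hsum hpt
  have e3 : ∀ t ∈ Ioi (0 : ℝ), t ^ (s + 1 - 1) * ∑' x : NZ 3, qf H x.1 * Real.exp (-(qf Q x.1 * t)) =
      t ^ s * Th Q H t := by
    intro t ht
    rw [Th_nz hQ H ht]
    congr 2
    ring
  constructor
  · exact h.1.congr_fun e3 measurableSet_Ioi
  · rw [← setIntegral_congr_fun measurableSet_Ioi e3, h.2]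
    simp only [e1]

/-- at a local minimum the Mellin transform of the derivative vanishes -/
theorem locMin_zero {Q : Mx 3} (hQ : PD Q) {H : Mx 3} (hH : H.IsSymm)
    (htr : (Q⁻¹ * H).trace = 0) {s : ℝ} (hs : 3 / 2 < s) (hm : LocMin s Q) :
    ∫ t in Ioi (0 : ℝ), t ^ s * Th Q H t = 0 := by
  have h1 := crit_of_locMin (d := 3) (by norm_num) (s := s) (by norm_num; exact hs) hQ hm H hH
  rw [(mel_Th hQ H hs).2, h1, htr]
  simp

/-- a form with a direction in which all theta functions increase is not a local minimum -/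
theorem notMin_of_pos {Q : Mx 3} (hQ : PD Q) {H : Mx 3} (hH : H.IsSymm)
    (htr : (Q⁻¹ * H).trace = 0) (hpos : ∀ t : ℝ, 0 < t → 0 < Th Q H t) {s : ℝ} (hs : 3 / 2 < s) :
    ¬ LocMin s Q := by
  intro hm
  have h0 := locMin_zero hQ hH htr hs hm
  have hI := (mel_Th hQ H hs).1
  have hp : 0 < ∫ t in Ioi (0 : ℝ), t ^ s * Th Q H t := by
    rw [setIntegral_pos_iff_support_of_nonneg_ae]
    · have : Function.support (fun t : ℝ => t ^ s * Th Q H t) ∩ Ioi 0 = Ioi 0 := by
        refine inter_eq_right.mpr fun t ht => ?_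
        exact (mul_pos (Real.rpow_pos_of_pos ht _) (hpos t ht)).ne'
      rw [this, Real.volume_Ioi]
      exact ENNReal.coe_lt_top
    · refine (ae_restrict_iff' measurableSet_Ioi).mpr (Filter.Eventually.of_forall fun t ht => ?_)
      exact (mul_pos (Real.rpow_pos_of_pos ht _) (hpos t ht)).le
    · exact hI
  linarith

end Pool.Agent.Lib.EPL
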