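import Pool.Agent.Lib.EPL.LeafR

/-!
# EPL.Itm: exponential sums over lists of items
-/

open MeasureTheory Set Filter Topology Matrix
open scoped Matrix.Norms.Elementwise

namespace Pool.Agent.Lib.EPL

open Pool.Agent.Lib.EpZ Pool.Agent.Lib.EPS

/-- Abel summation with prefix conditions with respect to an order refining the length -/
theorem abel_rank {ι β : Type*} [LinearOrder β] (s : Finset ι) (m q : ι → ℝ) (r : ι → β)
    (hr : ∀ i j, r i ≤ r j → q i ≤ q j) {W y0 c : ℝ} (hW : 0 ≤ W) (hc : 0 ≤ c)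
    (h : ∀ j ∈ s, m j < 0 → y0 ≤ q j ∧ -W ≤ ∑ i ∈ s with r i ≤ r j, m i) :
    -(W * Real.exp (-(c * y0))) ≤ ∑ i ∈ s, m i * Real.exp (-(c * q i)) := by
  classical
  -- the total is at least `-W`
  have tot : ∀ s : Finset ι, (∀ j ∈ s, m j < 0 → y0 ≤ q j ∧ -W ≤ ∑ i ∈ s with r i ≤ r j, m i) →
      -W ≤ ∑ i ∈ s, m i := by
    intro s h
    by_cases hneg : (s.filter fun j => m j < 0).Nonempty
    · obtain ⟨j, hj, hmax⟩ := Finset.exists_max_image _ r hneg
      rw [Finset.mem_filter] at hj
      have h1 := (h j hj.1 hj.2).2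
      refine h1.trans (Finset.sum_le_sum_of_subset_of_nonneg (Finset.filter_subset _ _) ?_)
      intro i hi hni
      by_contra hlt
      push Not at hlt
      exact hni (Finset.mem_filter.mpr ⟨hi, hmax i (Finset.mem_filter.mpr ⟨hi, hlt⟩)⟩)
    · have h1 : 0 ≤ ∑ i ∈ s, m i := by
        refine Finset.sum_nonneg fun i hi => ?_
        by_contra hlt
        push Not at hlt
        exact hneg ⟨i, Finset.mem_filter.mpr ⟨hi, hlt⟩⟩
      linarith
  have key : ∀ s : Finset ι, (∀ j ∈ s, m j < 0 → y0 ≤ q j ∧ -W ≤ ∑ i ∈ s with r i ≤ r j, m i) →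
      ∀ K : ℝ, y0 ≤ K → (∀ i ∈ s, q i ≤ K) →
      -(W * (Real.exp (-(c * y0)) - Real.exp (-(c * K)))) + (∑ i ∈ s, m i) * Real.exp (-(c * K)) ≤
        ∑ i ∈ s, m i * Real.exp (-(c * q i)) := by
    intro s
    refine Finset.induction_on_max_value (fun i => toLex (r i, if m i < 0 then (1 : ℕ) else 0)) s
      ?_ ?_
    · intro _ K hK _
      simp only [Finset.sum_empty, zero_mul, add_zero]
      have h1 : Real.exp (-(c * K)) ≤ Real.exp (-(c * y0)) :=
        Real.exp_le_exp.mpr (by nlinarith)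
      nlinarith
    · intro a s ha hmax ih h K hK hKs
      have htot := tot (insert a s) h
      have hqa : q a ≤ K := hKs a (Finset.mem_insert_self _ _)
      have hrs : ∀ i ∈ s, r i ≤ r a := by
        intro i hi
        have := hmax i hi
        rw [Prod.Lex.le_iff] at this
        rcases this with h1 | h1
        · exact le_of_lt h1
        · exact le_of_eq h1.1
      have hqs : ∀ i ∈ s, q i ≤ q a := fun i hi => hr i a (hrs i hi)
      rw [Finset.sum_insert ha] at htot ⊢
      rw [Finset.sum_insert ha]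
      by_cases hya : y0 ≤ q a
      · have ih' := ih ?_ (q a) hya hqs
        · have h1 : Real.exp (-(c * K)) ≤ Real.exp (-(c * q a)) :=
            Real.exp_le_exp.mpr (by nlinarith)
          nlinarith
        · intro j hj hjm
          obtain ⟨h1, h2⟩ := h j (Finset.mem_insert_of_mem hj) hjm
          refine ⟨h1, ?_⟩
          rw [Finset.filter_insert] at h2
          split_ifs at h2 with h3
          · -- a tie: then `m a < 0`
            have h4 : r j = r a := le_antisymm (hrs j hj) h3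
            have h5 : m a < 0 := by
              have := hmax j hj
              rw [Prod.Lex.le_iff] at this
              rcases this with h6 | h6
              · exact absurd h6 (by simp [h4])
              · have h7 := h6.2
                simp only [ofLex_toLex, hjm, if_true] at h7
                by_contra h8
                simp [h8] at h7
            rw [Finset.sum_insert (by simp [ha])] at h2
            linarith
          · exact h2
      · push Not at hya
        have hnn : ∀ i ∈ insert a s, 0 ≤ m i := by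
          intro i hi
          by_contra hlt
          push Not at hlt
          have h1 := (h i hi hlt).1
          rcases Finset.mem_insert.mp hi with rfl | hi'
          · linarith
          · have := hqs i hi'
            linarith
        have h1 : ∀ i ∈ insert a s, m i * Real.exp (-(c * K)) ≤ m i * Real.exp (-(c * q i)) := by
          intro i hi
          refine mul_le_mul_of_nonneg_left (Real.exp_le_exp.mpr ?_) (hnn i hi)
          have := hKs i hi
          nlinarith
        have h2 := Finset.sum_le_sum h1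
        rw [Finset.sum_insert ha, Finset.sum_insert ha, ← Finset.sum_mul] at h2
        have h3 : Real.exp (-(c * K)) ≤ Real.exp (-(c * y0)) :=
          Real.exp_le_exp.mpr (by nlinarith)
        nlinarith
  obtain ⟨K, hK0, hK⟩ : ∃ K : ℝ, y0 ≤ K ∧ ∀ i ∈ s, q i ≤ K := by
    rcases s.eq_empty_or_nonempty with hs | hs
    · exact ⟨y0, le_refl _, by simp [hs]⟩
    · obtain ⟨j, _, hmax⟩ := Finset.exists_max_image s q hs
      exact ⟨max y0 (q j), le_max_left _ _, fun i hi => (hmax i hi).trans (le_max_right _ _)⟩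
  have h1 := key s h K hK0 hK
  have h2 := tot s h
  have h3 := Real.exp_pos (-(c * K))
  nlinarith

lemma sum_map_ng {α : Type*} (l : List α) (f : α → ℝ) :
    (l.map fun i => -f i).sum = -(l.map f).sum := by
  induction l with
  | nil => simp
  | cons a l ih =>
    simp only [List.map_cons, List.sum_cons, ih]
    ring

/-- exponential sum of a list of items (coefficient, length) -/
noncomputable def eS (I : List (ℝ × ℝ)) (t : ℝ) : ℝ :=
  (I.map fun i => i.1 * Real.exp (-(t * i.2))).sum

lemma eS_append (I J : List (ℝ × ℝ)) (t : ℝ) : eS (I ++ J) t = eS I t + eS J t := by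
  simp [eS]

/-- the items with the opposite coefficients -/
def ngI (I : List (ℝ × ℝ)) : List (ℝ × ℝ) := I.map fun i => (-i.1, i.2)

lemma eS_ng (I : List (ℝ × ℝ)) (t : ℝ) : eS (ngI I) t = -eS I t := by
  unfold eS ngI
  rw [List.map_map]
  have : (fun i : ℝ × ℝ => i.1 * Real.exp (-(t * i.2))) ∘ (fun i : ℝ × ℝ => (-i.1, i.2)) =
      fun i => -(i.1 * Real.exp (-(t * i.2))) := by
    funext i; simp
  rw [this, sum_map_ng]

lemma sum_ng (I : List (ℝ × ℝ)) (f : ℝ → ℝ) :
    ((ngI I).map fun i => i.1 * f i.2).sum = -(I.map fun i => i.1 * f i.2).sum := by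
  unfold ngI
  rw [List.map_map]
  have : (fun i : ℝ × ℝ => i.1 * f i.2) ∘ (fun i : ℝ × ℝ => (-i.1, i.2)) =
      fun i => -(i.1 * f i.2) := by
    funext i; simp
  rw [this, sum_map_ng]

lemma sum_fin {α : Type*} (l : List α) (f : α → ℝ) :
    ∑ i : Fin l.length, f l[i.1] = (l.map f).sum := Fin.sum_univ_fun_getElem l f

/-- Abel summation for items: good items `G`, bad items `B`, far item `(M, ℓ)` -/
theorem itm_abel {G B : List (ℝ × ℝ)} {M W y0 ℓ : ℝ} (hG : ∀ i ∈ G, 0 ≤ i.1) (hM : 0 ≤ M)
    (hW : 0 ≤ W) (hy : ∀ b ∈ B, y0 ≤ b.2) (hyℓ : y0 ≤ ℓ)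
    (hp : ∀ b ∈ B, -W ≤ (G.map fun i => if i.2 ≤ b.2 then i.1 * Real.exp (-i.2) else 0).sum -
      (B.map fun i => if i.2 ≤ b.2 then i.1 * Real.exp (-i.2) else 0).sum -
      (if ℓ < b.2 then M else 0))
    (hF : -W ≤ (G.map fun i => if i.2 ≤ ℓ then i.1 * Real.exp (-i.2) else 0).sum -
      (B.map fun i => if i.2 ≤ ℓ then i.1 * Real.exp (-i.2) else 0).sum - M)
    {t : ℝ} (ht : 1 ≤ t) :
    -(W * Real.exp (-((t - 1) * y0))) ≤ eS G t - eS B t - M * Real.exp (-((t - 1) * ℓ)) := by
  classical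
  -- the items with masses and ranks
  set K : List (ℝ × ℝ × ℕ) := (G.map fun i => (i.1 * Real.exp (-i.2), i.2, 0)) ++
    ((B.map fun i => (-(i.1 * Real.exp (-i.2)), i.2, 0)) ++ [(-M, ℓ, 1)]) with hK
  have hsum : ∀ f : ℝ × ℝ × ℕ → ℝ, (K.map f).sum =
      (G.map fun i => f (i.1 * Real.exp (-i.2), i.2, 0)).sum +
      ((B.map fun i => f (-(i.1 * Real.exp (-i.2)), i.2, 0)).sum + f (-M, ℓ, 1)) := by
    intro f
    rw [hK]
    simp only [List.map_append, List.sum_append, List.map_map, List.map_cons, List.map_nil,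
      List.sum_cons, List.sum_nil, add_zero]
    rfl
  have hrank : ∀ i j : Fin K.length, toLex (K[i.1].2.1, K[i.1].2.2) ≤
      toLex (K[j.1].2.1, K[j.1].2.2) → K[i.1].2.1 ≤ K[j.1].2.1 := by
    intro i j h
    rw [Prod.Lex.le_iff] at h
    rcases h with h1 | h1
    · exact le_of_lt h1
    · exact le_of_eq h1.1
  have key := abel_rank (Finset.univ : Finset (Fin K.length)) (fun i => K[i.1].1)
    (fun i => K[i.1].2.1) (fun i => toLex (K[i.1].2.1, K[i.1].2.2)) hrank hW
    (c := t - 1) (y0 := y0) (by linarith) ?_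
  · have e1 : ∑ i : Fin K.length, K[i.1].1 * Real.exp (-((t - 1) * K[i.1].2.1)) =
        (K.map fun k => k.1 * Real.exp (-((t - 1) * k.2.1))).sum :=
      sum_fin K (fun k => k.1 * Real.exp (-((t - 1) * k.2.1)))
    rw [e1, hsum] at key
    refine key.trans (le_of_eq ?_)
    unfold eS
    have e2 : ∀ i : ℝ × ℝ, i.1 * Real.exp (-i.2) * Real.exp (-((t - 1) * i.2)) =
        i.1 * Real.exp (-(t * i.2)) := by
      intro i
      rw [mul_assoc, ← Real.exp_add]
      congr 2
      ring
    have e3 : (B.map fun i => -(i.1 * Real.exp (-i.2)) * Real.exp (-((t - 1) * i.2))).sum =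
        -(B.map fun i => i.1 * Real.exp (-(t * i.2))).sum := by
      rw [← sum_map_ng]
      congr 1
      refine List.map_congr_left fun i _ => ?_
      rw [neg_mul, e2]
    simp only [e2]
    rw [e3]
    ring
  · intro j _ hj
    have hmem : K[j.1] ∈ K := List.getElem_mem j.2
    have hfil : ∑ i : Fin K.length with toLex (K[i.1].2.1, K[i.1].2.2) ≤
        toLex (K[j.1].2.1, K[j.1].2.2), K[i.1].1 =
        (K.map fun k => if toLex (k.2.1, k.2.2) ≤ toLex (K[j.1].2.1, K[j.1].2.2) then k.1
          else 0).sum := by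
      rw [Finset.sum_filter]
      exact sum_fin K (fun k => if toLex (k.2.1, k.2.2) ≤ toLex (K[j.1].2.1, K[j.1].2.2) then k.1
          else 0)
    rw [hfil, hsum]
    have hmem' : ∀ k ∈ K, k ∈ (G.map fun i => (i.1 * Real.exp (-i.2), i.2, 0)) ∨
        k ∈ (B.map fun i => (-(i.1 * Real.exp (-i.2)), i.2, 0)) ∨ k = (-M, ℓ, 1) := by
      intro k hk
      rw [hK, List.mem_append, List.mem_append, List.mem_singleton] at hk
      exact hk
    rcases hmem' _ hmem with h1 | h1 | he
    · -- a good item is not negative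
      obtain ⟨i, hi, he⟩ := List.mem_map.mp h1
      exfalso
      rw [← he] at hj
      have := mul_nonneg (hG i hi) (Real.exp_pos (-i.2)).le
      simp only at hj
      linarith
    · obtain ⟨b, hb, he⟩ := List.mem_map.mp h1
      rw [← he]
      refine ⟨hy b hb, ?_⟩
      have h2 := hp b hb
      refine h2.trans (le_of_eq ?_)
      have c1 : ∀ x : ℝ, (toLex (x, 0) ≤ toLex (b.2, (0 : ℕ))) ↔ x ≤ b.2 := by
        intro x
        rw [Prod.Lex.le_iff]
        simp only [ofLex_toLex, le_refl, and_true]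
        exact le_iff_lt_or_eq.symm
      have c2 : (toLex (ℓ, 1) ≤ toLex (b.2, (0 : ℕ))) ↔ ℓ < b.2 := by
        rw [Prod.Lex.le_iff]
        simp
      simp only [c1, c2]
      have e3 : (B.map fun i => if i.2 ≤ b.2 then -(i.1 * Real.exp (-i.2)) else 0).sum =
          -(B.map fun i => if i.2 ≤ b.2 then i.1 * Real.exp (-i.2) else 0).sum := by
        rw [← sum_map_ng]
        congr 1
        refine List.map_congr_left fun i _ => ?_
        split_ifs <;> simp
      rw [e3]
      split_ifs <;> ring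
    · rw [he]
      refine ⟨hyℓ, ?_⟩
      refine hF.trans (le_of_eq ?_)
      have c1 : ∀ x : ℝ, (toLex (x, 0) ≤ toLex (ℓ, (1 : ℕ))) ↔ x ≤ ℓ := by
        intro x
        rw [Prod.Lex.le_iff]
        simp only [ofLex_toLex, zero_le, and_true]
        exact le_iff_lt_or_eq.symm
      have c2 : toLex (ℓ, 1) ≤ toLex (ℓ, (1 : ℕ)) := le_refl _
      simp only [c1, c2, if_true]
      have e3 : (B.map fun i => if i.2 ≤ ℓ then -(i.1 * Real.exp (-i.2)) else 0).sum =
          -(B.map fun i => if i.2 ≤ ℓ then i.1 * Real.exp (-i.2) else 0).sum := by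
        rw [← sum_map_ng]
        congr 1
        refine List.map_congr_left fun i _ => ?_
        split_ifs <;> simp
      rw [e3]
      ring

/-- the direct side for items -/
theorem itm_dir {A H : Mx 3} (hA : PD A) {G B : List (ℝ × ℝ)} {M ℓ : ℝ} (hℓ : 0 < ℓ)
    (hGl : ∀ i ∈ G, 0 < i.2) (hBl : ∀ i ∈ B, 0 < i.2)
    (hlow : ∀ t : ℝ, 1 ≤ t → 2 * (eS G t - eS B t - M * Real.exp (-((t - 1) * ℓ))) ≤ Th A H t)
    (hab : ∀ t : ℝ, 1 ≤ t → 0 ≤ eS G t - eS B t - M * Real.exp (-((t - 1) * ℓ))) :
    (∀ t : ℝ, 1 < t → 0 ≤ Th A H t) ∧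
      2 * ((G.map fun i => i.1 * gw i.2).sum - (B.map fun i => i.1 * gw i.2).sum -
        M * (1 / ℓ + 3 / (2 * ℓ ^ 2))) ≤
        ∫ t in Ioi (1 : ℝ), (1 + 3 / 2 * (t - 1)) * Th A H t := by
  refine ⟨fun t ht => ?_, ?_⟩
  · have h1 := hlow t ht.le
    have h2 := hab t ht.le
    linarith
  · set I : List (ℝ × ℝ) := G ++ ngI B with hI
    have hIl : ∀ i ∈ I, 0 < i.2 := by
      intro i hi
      rw [hI, List.mem_append] at hi
      rcases hi with h | h
      · exact hGl i h
      · obtain ⟨b, hb, he⟩ := List.mem_map.mp h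
        rw [← he]
        exact hBl b hb
    have h := direct_value hA H (Finset.univ : Finset (Fin I.length)) (fun i => 2 * I[i.1].1)
      (fun i => I[i.1].2) (fun i _ => hIl _ (List.getElem_mem i.2)) (M := 2 * M) hℓ ?_
    · refine le_trans (le_of_eq ?_) h
      have e1 : ∑ i : Fin I.length, 2 * I[i.1].1 * gw I[i.1].2 =
          (I.map fun k => 2 * k.1 * gw k.2).sum := sum_fin I (fun k => 2 * k.1 * gw k.2)
      have e2 : (I.map fun k => 2 * k.1 * gw k.2).sum = 2 * (I.map fun k => k.1 * gw k.2).sum := by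
        rw [← List.sum_map_mul_left]
        congr 1
        exact List.map_congr_left fun i _ => by ring
      rw [e1, e2, hI, List.map_append, List.sum_append, sum_ng]
      ring
    · intro t ht
      have e1 : ∑ i : Fin I.length, 2 * I[i.1].1 * Real.exp (-(t * I[i.1].2)) =
          (I.map fun k => 2 * k.1 * Real.exp (-(t * k.2))).sum :=
        sum_fin I (fun k => 2 * k.1 * Real.exp (-(t * k.2)))
      have e2 : (I.map fun k => 2 * k.1 * Real.exp (-(t * k.2))).sum = 2 * eS I t := by
        unfold eS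
        rw [← List.sum_map_mul_left]
        congr 1
        exact List.map_congr_left fun i _ => by ring
      rw [e1, e2, hI, eS_append, eS_ng]
      have := hlow t ht.le
      linarith

/-- the dual side for items: a signed part `G1, B1` and a part with prefix conditions -/
theorem itm_dual {A H : Mx 3} {G1 B1 G2 B2 : List (ℝ × ℝ)} {M W y0 ρ ℓ : ℝ} (hW : 0 ≤ W)
    (hy0 : 0 < y0) (hG1 : ∀ i ∈ G1, 0 ≤ i.1 ∧ ρ ≤ i.2 ∧ 0 < i.2)
    (hB1 : ∀ i ∈ B1, 0 ≤ i.1 ∧ i.2 ≤ ρ ∧ 0 < i.2)
    (hlow : ∀ t : ℝ, 1 ≤ t → 2 * (eS G1 t + eS G2 t - eS B1 t - eS B2 t -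
      M * Real.exp (-((t - 1) * ℓ))) ≤ Th A H t)
    (hab : ∀ t : ℝ, 1 ≤ t → -(W * Real.exp (-((t - 1) * y0))) ≤
      eS G2 t - eS B2 t - M * Real.exp (-((t - 1) * ℓ)))
    {s : ℝ} (hs : 3 / 2 < s)
    (hI : IntegrableOn (fun v : ℝ => v ^ (3 / 2 - s) * Th A H v) (Ioi 1)) :
    2 * (min 0 ((G1.map fun i => i.1 * hw i.2).sum - (B1.map fun i => i.1 * hw i.2).sum) -
      W / y0) ≤ ∫ v in Ioi (1 : ℝ), v ^ (3 / 2 - s) * Th A H v := by
  obtain ⟨w0, w1, w2⟩ := rpow_weight hs
  set ι := Fin G1.length ⊕ Fin B1.length with hι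
  set p : ι → ℝ := Sum.elim (fun i => 2 * G1[i.1].1) (fun i => 2 * B1[i.1].1) with hp
  set y : ι → ℝ := Sum.elim (fun i => G1[i.1].2) (fun i => B1[i.1].2) with hy
  have h1 := one_sign (ι := ι) (Finset.univ.map Function.Embedding.inl)
    (Finset.univ.map Function.Embedding.inr) p p y (ρ := ρ) ?_ ?_ ?_ ?_ ?_ ?_ w0 w1 w2
  · have h2 := one_sign (ι := Unit) ∅ {()} (fun _ => 0) (fun _ => 2 * W * Real.exp y0)
      (fun _ => y0) (ρ := y0) (by simp) (fun _ _ => by positivity) (by simp) (fun _ _ => le_rfl)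
      (fun _ _ => hy0) (by simp) w0 w1 w2
    obtain ⟨hi1, hv1⟩ := h1
    obtain ⟨hi2, hv2⟩ := h2
    have hadd := integral_add hi1 hi2
    have hle := setIntegral_mono_on (hi1.add hi2) hI measurableSet_Ioi (fun v hv => ?_)
    · rw [show (∫ v in Ioi (1 : ℝ), ((fun v => v ^ (3 / 2 - s) *
          (∑ i ∈ Finset.univ.map Function.Embedding.inl, p i * Real.exp (-(v * y i)) -
          ∑ i ∈ Finset.univ.map Function.Embedding.inr, p i * Real.exp (-(v * y i)))) +
          fun v => v ^ (3 / 2 - s) *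
          (∑ i ∈ (∅ : Finset Unit), (fun _ => (0 : ℝ)) i * Real.exp (-(v * (fun _ => y0) i)) -
          ∑ i ∈ ({()} : Finset Unit), (fun _ => 2 * W * Real.exp y0) i *
            Real.exp (-(v * (fun _ => y0) i)))) v) = _ from hadd] at hle
      refine le_trans ?_ hle
      refine le_trans ?_ (add_le_add hv1 hv2)
      simp only [Finset.sum_map, Finset.sum_empty, Finset.sum_singleton, zero_sub]
      have e1 : ∑ i : Fin G1.length, p (Function.Embedding.inl i) *
          (Real.exp (-y (Function.Embedding.inl i)) / y (Function.Embedding.inl i)) =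
          2 * (G1.map fun k => k.1 * hw k.2).sum := by
        have : ∑ i : Fin G1.length, p (Function.Embedding.inl i) *
          (Real.exp (-y (Function.Embedding.inl i)) / y (Function.Embedding.inl i)) =
          ((G1.map fun k => 2 * k.1 * (Real.exp (-k.2) / k.2))).sum :=
          sum_fin G1 (fun k => 2 * k.1 * (Real.exp (-k.2) / k.2))
        rw [this, ← List.sum_map_mul_left]
        congr 1
        exact List.map_congr_left fun i _ => by unfold hw; ring
      have e2 : ∑ i : Fin B1.length, p (Function.Embedding.inr i) *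
          (Real.exp (-y (Function.Embedding.inr i)) / y (Function.Embedding.inr i)) =
          2 * (B1.map fun k => k.1 * hw k.2).sum := by
        have : ∑ i : Fin B1.length, p (Function.Embedding.inr i) *
          (Real.exp (-y (Function.Embedding.inr i)) / y (Function.Embedding.inr i)) =
          ((B1.map fun k => 2 * k.1 * (Real.exp (-k.2) / k.2))).sum :=
          sum_fin B1 (fun k => 2 * k.1 * (Real.exp (-k.2) / k.2))
        rw [this, ← List.sum_map_mul_left]
        congr 1
        exact List.map_congr_left fun i _ => by unfold hw; ring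
      rw [e1, e2]
      have e3 : 2 * W * Real.exp y0 * (Real.exp (-y0) / y0) = 2 * (W / y0) := by
        have : Real.exp y0 * Real.exp (-y0) = 1 := by rw [← Real.exp_add]; simp
        calc 2 * W * Real.exp y0 * (Real.exp (-y0) / y0) =
              2 * W * (Real.exp y0 * Real.exp (-y0)) / y0 := by ring
          _ = _ := by rw [this]; ring
      rw [e3]
      have e4 : 0 ≤ W / y0 := div_nonneg hW hy0.le
      rw [min_eq_right (by linarith : -(2 * (W / y0)) ≤ 0)]
      have e5 : min 0 (2 * (G1.map fun k => k.1 * hw k.2).sum -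
          2 * (B1.map fun k => k.1 * hw k.2).sum) =
          2 * min 0 ((G1.map fun k => k.1 * hw k.2).sum - (B1.map fun k => k.1 * hw k.2).sum) := by
        rcases le_total 0 ((G1.map fun k => k.1 * hw k.2).sum -
          (B1.map fun k => k.1 * hw k.2).sum) with h | h
        · rw [min_eq_left h, min_eq_left (by linarith), mul_zero]
        · rw [min_eq_right h, min_eq_right (by linarith)]
          ring
      rw [e5]
      linarith
    · have hv1' : (1 : ℝ) < v := hv
      have hl := hlow v hv1'.le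
      have ha := hab v hv1'.le
      have hw0 := w0 v hv1'
      simp only [Pi.add_apply]
      rw [← mul_add]
      refine mul_le_mul_of_nonneg_left ?_ hw0
      simp only [Finset.sum_map, Finset.sum_empty, Finset.sum_singleton, zero_sub]
      have e1 : ∑ i : Fin G1.length, p (Function.Embedding.inl i) *
          Real.exp (-(v * y (Function.Embedding.inl i))) = 2 * eS G1 v := by
        have : ∑ i : Fin G1.length, p (Function.Embedding.inl i) *
          Real.exp (-(v * y (Function.Embedding.inl i))) =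
          ((G1.map fun k => 2 * k.1 * Real.exp (-(v * k.2)))).sum :=
          sum_fin G1 (fun k => 2 * k.1 * Real.exp (-(v * k.2)))
        unfold eS
        rw [this, ← List.sum_map_mul_left]
        congr 1
        exact List.map_congr_left fun i _ => by ring
      have e2 : ∑ i : Fin B1.length, p (Function.Embedding.inr i) *
          Real.exp (-(v * y (Function.Embedding.inr i))) = 2 * eS B1 v := by
        have : ∑ i : Fin B1.length, p (Function.Embedding.inr i) *
          Real.exp (-(v * y (Function.Embedding.inr i))) =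
          ((B1.map fun k => 2 * k.1 * Real.exp (-(v * k.2)))).sum :=
          sum_fin B1 (fun k => 2 * k.1 * Real.exp (-(v * k.2)))
        unfold eS
        rw [this, ← List.sum_map_mul_left]
        congr 1
        exact List.map_congr_left fun i _ => by ring
      rw [e1, e2]
      have e3 : 2 * W * Real.exp y0 * Real.exp (-(v * y0)) =
          2 * (W * Real.exp (-((v - 1) * y0))) := by
        rw [mul_assoc, ← Real.exp_add]
        rw [show y0 + -(v * y0) = -((v - 1) * y0) by ring]
        ring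
      rw [e3]
      linarith
  · intro i hi
    rw [Finset.mem_map] at hi
    obtain ⟨j, -, rfl⟩ := hi
    exact mul_nonneg (by norm_num) (hG1 _ (List.getElem_mem j.2)).1
  · intro i hi
    rw [Finset.mem_map] at hi
    obtain ⟨j, -, rfl⟩ := hi
    exact mul_nonneg (by norm_num) (hB1 _ (List.getElem_mem j.2)).1
  · intro i hi
    rw [Finset.mem_map] at hi
    obtain ⟨j, -, rfl⟩ := hi
    exact (hG1 _ (List.getElem_mem j.2)).2.1
  · intro i hi
    rw [Finset.mem_map] at hi
    obtain ⟨j, -, rfl⟩ := hi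
    exact (hB1 _ (List.getElem_mem j.2)).2.1
  · intro i hi
    rw [Finset.mem_map] at hi
    obtain ⟨j, -, rfl⟩ := hi
    exact (hB1 _ (List.getElem_mem j.2)).2.2
  · intro i hi
    rw [Finset.mem_map] at hi
    obtain ⟨j, -, rfl⟩ := hi
    exact (hG1 _ (List.getElem_mem j.2)).2.2

/-- the leaf for items -/
theorem leaf_itm {Q : Mx 3} (hQ : PD Q) {X : Mx 3} (hX : X.trace = 0)
    {G B G1 B1 G2 B2 : List (ℝ × ℝ)} {M M' W y0 ρ ℓ : ℝ} (hℓ : 0 < ℓ)
    (hGl : ∀ i ∈ G, 0 < i.2) (hBl : ∀ i ∈ B, 0 < i.2)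
    (hlow : ∀ t : ℝ, 1 ≤ t → 2 * (eS G t - eS B t - M * Real.exp (-((t - 1) * ℓ))) ≤
      Th Q (Hx Q X) t)
    (hab : ∀ t : ℝ, 1 ≤ t → 0 ≤ eS G t - eS B t - M * Real.exp (-((t - 1) * ℓ)))
    (hW : 0 ≤ W) (hy0 : 0 < y0) (hG1 : ∀ i ∈ G1, 0 ≤ i.1 ∧ ρ ≤ i.2 ∧ 0 < i.2)
    (hB1 : ∀ i ∈ B1, 0 ≤ i.1 ∧ i.2 ≤ ρ ∧ 0 < i.2)
    (hlow' : ∀ t : ℝ, 1 ≤ t → 2 * (eS G1 t + eS G2 t - eS B1 t - eS B2 t -
      M' * Real.exp (-((t - 1) * ℓ))) ≤ Th (Pd Q) (Hx (Pd Q) (-Xᵀ)) t)
    (hab' : ∀ t : ℝ, 1 ≤ t → -(W * Real.exp (-((t - 1) * y0))) ≤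
      eS G2 t - eS B2 t - M' * Real.exp (-((t - 1) * ℓ)))
    (fin : Real.pi ^ ((3 : ℝ) / 2) * Q.det ^ (-(1 : ℝ) / 2) *
        (W / y0 - min 0 ((G1.map fun i => i.1 * hw i.2).sum - (B1.map fun i => i.1 * hw i.2).sum)) <
      (G.map fun i => i.1 * gw i.2).sum - (B.map fun i => i.1 * gw i.2).sum -
        M * (1 / ℓ + 3 / (2 * ℓ ^ 2)))
    {s : ℝ} (hs : 3 / 2 < s) : ¬ LocMin s Q := by
  have hpi := Real.pi_pos
  obtain ⟨hB, hD'⟩ := itm_dir hQ hℓ hGl hBl hlow hab
  refine notMin_abs hQ hX hB hD' (E := 2 / Real.pi ^ 2 *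
    (W / y0 - min 0 ((G1.map fun i => i.1 * hw i.2).sum - (B1.map fun i => i.1 * hw i.2).sum)))
    ?_ ?_ hs
  · intro s hs
    have hI0 := (mix hQ hX hs).2.1
    have hI : IntegrableOn (fun v : ℝ => v ^ (3 / 2 - s) * Th (Pd Q) (Hx (Pd Q) (-Xᵀ)) v)
        (Ioi 1) := by
      have h := Integrable.const_mul hI0 (Real.pi ^ 2)
      refine h.congr (Filter.Eventually.of_forall fun v => ?_)
      show Real.pi ^ 2 * (v ^ (3 / 2 - s) * Ths Q X v) =
        v ^ (3 / 2 - s) * Th (Pd Q) (Hx (Pd Q) (-Xᵀ)) v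
      rw [Th_Pd]
      ring
    have h3 := itm_dual hW hy0 hG1 hB1 hlow' hab' hs hI
    have h4 : ∫ v in Ioi (1 : ℝ), v ^ (3 / 2 - s) * Th (Pd Q) (Hx (Pd Q) (-Xᵀ)) v =
        Real.pi ^ 2 * ∫ v in Ioi (1 : ℝ), v ^ (3 / 2 - s) * Ths Q X v := by
      rw [← integral_const_mul]
      refine integral_congr_ae (Filter.Eventually.of_forall fun v => ?_)
      show v ^ (3 / 2 - s) * Th (Pd Q) (Hx (Pd Q) (-Xᵀ)) v = _
      rw [Th_Pd]
      ring
    rw [h4] at h3
    have h5 : 0 < Real.pi ^ 2 := by positivity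
    have h6 := (div_le_iff₀' h5).mpr h3
    refine le_trans (le_of_eq ?_) h6
    field_simp
    ring
  · have e : Cd Q * (2 / Real.pi ^ 2 * (W / y0 -
        min 0 ((G1.map fun i => i.1 * hw i.2).sum - (B1.map fun i => i.1 * hw i.2).sum))) =
        2 * (Real.pi ^ ((3 : ℝ) / 2) * Q.det ^ (-(1 : ℝ) / 2) *
        (W / y0 - min 0 ((G1.map fun i => i.1 * hw i.2).sum -
          (B1.map fun i => i.1 * hw i.2).sum))) := by
      unfold Cd
      have e1 : Real.pi ^ ((7 : ℝ) / 2) = Real.pi ^ ((3 : ℝ) / 2) * Real.pi ^ 2 := by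
        rw [← Real.rpow_natCast Real.pi 2, ← Real.rpow_add hpi]; norm_num
      rw [e1]
      field_simp
    rw [e]
    linarith

end Pool.Agent.Lib.EPL
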