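import Pool.Agent.Lib.EPL.Side

/-!
# EPL.LeafR: the leaf in terms of real numbers
-/

open MeasureTheory Set Filter Topology Matrix
open scoped Matrix.Norms.Elementwise

namespace Pool.Agent.Lib.EPL

open Pool.Agent.Lib.EpZ Pool.Agent.Lib.EPS

/-- the dual form, scaled by `π²` -/
noncomputable def Pd (Q : Mx 3) : Mx 3 := Real.pi ^ 2 • Q⁻¹

lemma Pd_pd {Q : Mx 3} (hQ : PD Q) : PD (Pd Q) := (inv_pd hQ).smul (by positivity)

lemma Th_scale (A H : Mx 3) (c t : ℝ) : Th (c • A) H t = Th A H (c * t) := by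
  unfold Th
  refine tsum_congr fun x => ?_
  have : qf (c • A) x = c * qf A x := by
    unfold qf qr
    rw [Matrix.smul_mulVec, dotProduct_smul, smul_eq_mul]
  rw [this]
  congr 3
  ring

lemma Hx_scale (A X : Mx 3) (c : ℝ) : Hx (c • A) X = c • Hx A X := by
  unfold Hx
  rw [smul_mul_assoc, mul_smul_comm, smul_add]

lemma Hx_neg (A X : Mx 3) : Hx A (-X) = -Hx A X := by
  unfold Hx
  rw [transpose_neg, mul_neg, neg_mul, neg_add]

/-- the dual function is the theta sum of the dual form -/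
theorem Th_Pd (Q X : Mx 3) (v : ℝ) :
    Th (Pd Q) (Hx (Pd Q) (-Xᵀ)) v = Real.pi ^ 2 * Ths Q X v := by
  unfold Pd Ths
  rw [Th_scale, Hx_scale, Hx_neg, smul_neg, Th_neg, Th_smul]
  ring

/-- the leaf -/
theorem leaf_real {Q : Mx 3} (hQ : PD Q) {X : Mx 3} (hX : X.trace = 0)
    {LD LE : List (Fin 3 → ℤ)} {cD fD c1 c2 fE : (Fin 3 → ℤ) → ℝ} {β τD MD yD τE ME W y0 ρ ℓ : ℝ}
    (hℓ : 0 < ℓ) (hMD : 0 ≤ MD) (hD : SideOK Q (Hx Q X) LD cD fD β τD MD ℓ)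
    (hpD : Pre Q LD cD MD 0 yD ℓ)
    (hME : 0 ≤ ME) (hW : 0 ≤ W) (hy0 : 0 < y0)
    (hE : SideOK (Pd Q) (Hx (Pd Q) (-Xᵀ)) LE (fun x => c1 x + c2 x) fE β τE ME ℓ)
    (hpE : Pre (Pd Q) LE c2 ME W y0 ℓ)
    (h1 : ∀ x ∈ LE, 0 < c1 x → ρ ≤ qf (Pd Q) x) (h2 : ∀ x ∈ LE, c1 x < 0 → qf (Pd Q) x ≤ ρ)
    (fin : Real.pi ^ ((3 : ℝ) / 2) * Q.det ^ (-(1 : ℝ) / 2) *
        (W / y0 - min 0 (LE.map fun x => c1 x * hw (qf (Pd Q) x)).sum) <
      (LD.map fun x => cD x * gw (qf Q x)).sum - MD * (1 / ℓ + 3 / (2 * ℓ ^ 2)))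
    {s : ℝ} (hs : 3 / 2 < s) : ¬ LocMin s Q := by
  have hpi := Real.pi_pos
  obtain ⟨hB, hD'⟩ := side_dir hQ hMD hℓ hD hpD
  refine notMin_abs hQ hX hB hD' (E := 2 / Real.pi ^ 2 *
    (W / y0 - min 0 (LE.map fun x => c1 x * hw (qf (Pd Q) x)).sum)) ?_ ?_ hs
  · intro s hs
    have hI0 := (mix hQ hX hs).2.1
    have hI : IntegrableOn (fun v : ℝ => v ^ (3 / 2 - s) * Th (Pd Q) (Hx (Pd Q) (-Xᵀ)) v)
        (Ioi 1) := by
      have h := Integrable.const_mul hI0 (Real.pi ^ 2)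
      refine h.congr (Filter.Eventually.of_forall fun v => ?_)
      show Real.pi ^ 2 * (v ^ (3 / 2 - s) * Ths Q X v) =
        v ^ (3 / 2 - s) * Th (Pd Q) (Hx (Pd Q) (-Xᵀ)) v
      rw [Th_Pd]
      ring
    have h3 := side_dual (Pd_pd hQ) hME hW hy0 hE hpE h1 h2 hs hI
    have h4 : ∫ v in Ioi (1 : ℝ), v ^ (3 / 2 - s) * Th (Pd Q) (Hx (Pd Q) (-Xᵀ)) v =
        Real.pi ^ 2 * ∫ v in Ioi (1 : ℝ), v ^ (3 / 2 - s) * Ths Q X v := by
      rw [← integral_const_mul]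
      refine integral_congr_ae (Filter.Eventually.of_forall fun v => ?_)
      show v ^ (3 / 2 - s) * Th (Pd Q) (Hx (Pd Q) (-Xᵀ)) v = _
      rw [Th_Pd]
      ring
    rw [h4] at h3
    have h5 : 0 < Real.pi ^ 2 := by positivity
    have h6 := (div_le_iff₀' h5).mpr h3
    refine le_trans (le_of_eq ?_) h6
    field_simp
    ring
  · have e : Cd Q * (2 / Real.pi ^ 2 * (W / y0 -
        min 0 (LE.map fun x => c1 x * hw (qf (Pd Q) x)).sum)) =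
        2 * (Real.pi ^ ((3 : ℝ) / 2) * Q.det ^ (-(1 : ℝ) / 2) *
        (W / y0 - min 0 (LE.map fun x => c1 x * hw (qf (Pd Q) x)).sum)) := by
      unfold Cd
      have e1 : Real.pi ^ ((7 : ℝ) / 2) = Real.pi ^ ((3 : ℝ) / 2) * Real.pi ^ 2 := by
        rw [← Real.rpow_natCast Real.pi 2, ← Real.rpow_add hpi]; norm_num
      rw [e1]
      field_simp
    rw [e]
    linarith

end Pool.Agent.Lib.EPL
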