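import Mathlib

/-!
# Integrals of functions with one sign change against decreasing weights
-/

open MeasureTheory Set

namespace Pool.Agent.Lib.EPL

lemma exp_int {y : ℝ} (hy : 0 < y) :
    IntegrableOn (fun v : ℝ => Real.exp (-(v * y))) (Ioi 1) ∧
      ∫ v in Ioi (1 : ℝ), Real.exp (-(v * y)) = Real.exp (-y) / y := by
  have h1 := integrableOn_exp_mul_Ioi (a := -y) (by linarith) 1
  have h2 := integral_exp_mul_Ioi (a := -y) (by linarith) 1
  have e : ∀ v : ℝ, Real.exp (-y * v) = Real.exp (-(v * y)) := fun v => by congr 1; ring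
  simp only [e] at h1 h2
  refine ⟨h1, h2.trans ?_⟩
  rw [show -(1 * y) = -y by ring]
  field_simp

/-- One sign change: short negative items, long positive items, decreasing weight. -/
theorem one_sign {ι : Type*} (G N : Finset ι) (p n y : ι → ℝ) {ρ : ℝ}
    (hp : ∀ i ∈ G, 0 ≤ p i) (hn : ∀ i ∈ N, 0 ≤ n i) (hG : ∀ i ∈ G, ρ ≤ y i)
    (hN : ∀ i ∈ N, y i ≤ ρ) (hy : ∀ i ∈ N, 0 < y i) (hyG : ∀ i ∈ G, 0 < y i)
    {ω : ℝ → ℝ} (hω0 : ∀ v, 1 < v → 0 ≤ ω v) (hω1 : ∀ v, 1 < v → ω v ≤ 1)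
    (hω : AntitoneOn ω (Ioi 1)) :
    IntegrableOn (fun v => ω v * (∑ i ∈ G, p i * Real.exp (-(v * y i)) -
        ∑ i ∈ N, n i * Real.exp (-(v * y i)))) (Ioi 1) ∧
    min 0 (∑ i ∈ G, p i * (Real.exp (-y i) / y i) - ∑ i ∈ N, n i * (Real.exp (-y i) / y i)) ≤
      ∫ v in Ioi (1 : ℝ), ω v * (∑ i ∈ G, p i * Real.exp (-(v * y i)) -
        ∑ i ∈ N, n i * Real.exp (-(v * y i))) := by
  set B : ℝ → ℝ := fun v => ∑ i ∈ G, p i * Real.exp (-(v * y i)) -
    ∑ i ∈ N, n i * Real.exp (-(v * y i)) with hB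
  have hBi : IntegrableOn B (Ioi 1) := by
    refine Integrable.sub (integrable_finset_sum _ fun i hi => ?_)
      (integrable_finset_sum _ fun i hi => ?_)
    · exact Integrable.const_mul (exp_int (hyG i hi)).1 _
    · exact Integrable.const_mul (exp_int (hy i hi)).1 _
  have hBv : ∫ v in Ioi (1 : ℝ), B v = ∑ i ∈ G, p i * (Real.exp (-y i) / y i) -
      ∑ i ∈ N, n i * (Real.exp (-y i) / y i) := by
    rw [hB, integral_sub (integrable_finset_sum _ fun i hi =>
      Integrable.const_mul (exp_int (hyG i hi)).1 _) (integrable_finset_sum _ fun i hi =>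
      Integrable.const_mul (exp_int (hy i hi)).1 _), integral_finset_sum _ fun i hi =>
      Integrable.const_mul (exp_int (hyG i hi)).1 _, integral_finset_sum _ fun i hi =>
      Integrable.const_mul (exp_int (hy i hi)).1 _]
    congr 1
    · exact Finset.sum_congr rfl fun i hi => by rw [integral_const_mul, (exp_int (hyG i hi)).2]
    · exact Finset.sum_congr rfl fun i hi => by rw [integral_const_mul, (exp_int (hy i hi)).2]
  have hωm : AEStronglyMeasurable ω (volume.restrict (Ioi (1 : ℝ))) :=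
    (aemeasurable_restrict_of_antitoneOn measurableSet_Ioi hω).aestronglyMeasurable
  have hωB : IntegrableOn (fun v => ω v * B v) (Ioi 1) := by
    refine Integrable.mono hBi (hωm.mul hBi.1) ?_
    refine (ae_restrict_iff' measurableSet_Ioi).mpr (Filter.Eventually.of_forall fun v hv => ?_)
    rw [norm_mul, Real.norm_of_nonneg (hω0 v hv)]
    exact mul_le_of_le_one_left (norm_nonneg _) (hω1 v hv)
  refine ⟨hωB, ?_⟩
  rw [← hBv]
  -- monotonicity of `e^{vρ} B(v)`
  have hmono : ∀ u v : ℝ, u ≤ v → Real.exp (v * ρ) * B v ≤ Real.exp (u * ρ) * B u := by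
    intro u v huv
    have e1 : ∀ v, Real.exp (v * ρ) * B v = ∑ i ∈ G, p i * Real.exp (-(v * (y i - ρ))) -
        ∑ i ∈ N, n i * Real.exp (v * (ρ - y i)) := by
      intro v
      rw [hB]
      simp only [mul_sub, Finset.mul_sum]
      congr 1
      · refine Finset.sum_congr rfl fun i _ => ?_
        rw [mul_left_comm, ← Real.exp_add]
        congr 2 <;> ring
      · refine Finset.sum_congr rfl fun i _ => ?_
        rw [mul_left_comm, ← Real.exp_add]
        congr 2 <;> ring
    rw [e1, e1]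
    refine sub_le_sub (Finset.sum_le_sum fun i hi => ?_) (Finset.sum_le_sum fun i hi => ?_)
    · refine mul_le_mul_of_nonneg_left (Real.exp_le_exp.mpr ?_) (hp i hi)
      have := hG i hi
      nlinarith
    · refine mul_le_mul_of_nonneg_left (Real.exp_le_exp.mpr ?_) (hn i hi)
      have := hN i hi
      nlinarith
  by_cases hall : ∀ v, 1 < v → 0 ≤ B v
  · refine (min_le_left _ _).trans (setIntegral_nonneg measurableSet_Ioi fun v hv => ?_)
    exact mul_nonneg (hω0 v hv) (hall v hv)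
  · push Not at hall
    obtain ⟨v1, hv1, hBv1⟩ := hall
    set S : Set ℝ := {v | 1 < v ∧ B v < 0} with hS
    have hSn : S.Nonempty := ⟨v1, hv1, hBv1⟩
    have hSb : BddBelow S := ⟨1, fun v hv => hv.1.le⟩
    set v0 : ℝ := sInf S with hv0
    have hlow : ∀ v, 1 < v → v < v0 → 0 ≤ B v := by
      intro v hv hlt
      by_contra hneg
      push Not at hneg
      exact absurd (csInf_le hSb ⟨hv, hneg⟩) (not_le.mpr hlt)
    have hhigh : ∀ v, v0 < v → B v ≤ 0 := by
      intro v hv
      obtain ⟨u, hu, huv⟩ := exists_lt_of_csInf_lt hSn hv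
      have h1 := hmono u v huv.le
      have h2 : Real.exp (u * ρ) * B u ≤ 0 :=
        mul_nonpos_of_nonneg_of_nonpos (Real.exp_pos _).le hu.2.le
      have h3 : Real.exp (v * ρ) * B v ≤ 0 := h1.trans h2
      by_contra hpos
      push Not at hpos
      have := mul_pos (Real.exp_pos (v * ρ)) hpos
      linarith
    -- the level of the weight
    obtain ⟨w, hw0, hw1, hwl, hwh⟩ : ∃ w : ℝ, 0 ≤ w ∧ w ≤ 1 ∧ (∀ v, 1 < v → v < v0 → w ≤ ω v) ∧
        (∀ v, 1 < v → v0 < v → ω v ≤ w) := by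
      set T : Set ℝ := ω '' {v | 1 < v ∧ v0 < v} with hT
      have hv0' : 1 ≤ v0 := le_csInf hSn fun v hv => hv.1.le
      have hTn : T.Nonempty := ⟨ω (v0 + 1), v0 + 1, ⟨by linarith, by linarith⟩, rfl⟩
      have hTb : BddAbove T := ⟨1, by rintro _ ⟨v, hv, rfl⟩; exact hω1 v hv.1⟩
      refine ⟨sSup T, ?_, ?_, ?_, ?_⟩
      · refine le_csSup_of_le hTb ⟨v0 + 1, ⟨by linarith, by linarith⟩, rfl⟩ (hω0 _ (by linarith))
      · exact csSup_le hTn (by rintro _ ⟨v, hv, rfl⟩; exact hω1 v hv.1)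
      · intro v hv hlt
        exact csSup_le hTn (by rintro _ ⟨u, hu, rfl⟩; exact hω hv hu.1 (by linarith [hu.2]))
      · intro v hv hlt
        exact le_csSup hTb ⟨v, ⟨hv, hlt⟩, rfl⟩
    have hpt : ∀ᵐ v ∂(volume.restrict (Ioi (1 : ℝ))), w * B v ≤ ω v * B v := by
      have hne : ∀ᵐ v ∂(volume.restrict (Ioi (1 : ℝ))), v ≠ v0 := by
        refine ae_restrict_of_ae ?_
        exact (measure_eq_zero_iff_ae_notMem.mp (by simp) : ∀ᵐ v ∂volume, v ∉ ({v0} : Set ℝ))
      filter_upwards [hne, ae_restrict_mem measurableSet_Ioi] with v hv hv1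
      rcases lt_or_gt_of_ne hv with h | h
      · exact mul_le_mul_of_nonneg_right (hwl v hv1 h) (hlow v hv1 h)
      · exact mul_le_mul_of_nonpos_right (hwh v hv1 h) (hhigh v h)
    have h1 : ∫ v in Ioi (1 : ℝ), w * B v ≤ ∫ v in Ioi (1 : ℝ), ω v * B v :=
      integral_mono_ae (Integrable.const_mul hBi w) hωB hpt
    rw [integral_const_mul] at h1
    refine le_trans ?_ h1
    rcases le_total 0 (∫ v in Ioi (1 : ℝ), B v) with h | h
    · exact (min_le_left _ _).trans (mul_nonneg hw0 h)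
    · refine (min_le_right _ _).trans ?_
      nlinarith

end Pool.Agent.Lib.EPL
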