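import Pool.Agent.Lib.EPL.Mix
import Pool.Agent.Lib.EPL.Abel
import Pool.Agent.Lib.EPL.OneS

/-!
# From finite lists of vectors to the abstract leaf
-/

open MeasureTheory Set Filter Topology Matrix
open scoped Matrix.Norms.Elementwise

namespace Pool.Agent.Lib.EPL

open Pool.Agent.Lib.EpZ Pool.Agent.Lib.EPS

/-- the weight of the direct value -/
noncomputable def gw (q : ℝ) : ℝ := Real.exp (-q) * (1 / q + 3 / (2 * q ^ 2))

lemma lin_exp_int {q : ℝ} (hq : 0 < q) :
    IntegrableOn (fun t : ℝ => (1 + 3 / 2 * (t - 1)) * Real.exp (-(t * q))) (Ioi 1) ∧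
      ∫ t in Ioi (1 : ℝ), (1 + 3 / 2 * (t - 1)) * Real.exp (-(t * q)) = gw q := by
  -- an antiderivative
  set F : ℝ → ℝ := fun t => -(Real.exp (-(t * q)) * ((1 + 3 / 2 * (t - 1)) / q + 3 / (2 * q ^ 2)))
    with hF
  have hd : ∀ t : ℝ, HasDerivAt F ((1 + 3 / 2 * (t - 1)) * Real.exp (-(t * q))) t := by
    intro t
    have h0 : HasDerivAt (fun t : ℝ => t * q) q t := by
      simpa using (hasDerivAt_id t).mul_const q
    have h1 : HasDerivAt (fun t : ℝ => -(t * q)) (-q) t := h0.fun_neg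
    have h2 := h1.exp
    have h3 : HasDerivAt (fun t : ℝ => (1 + 3 / 2 * (t - 1)) / q + 3 / (2 * q ^ 2))
        (3 / 2 / q) t := by
      have h4 : HasDerivAt (fun t : ℝ => 1 + 3 / 2 * (t - 1)) (3 / 2) t := by
        simpa using (((hasDerivAt_id t).sub_const 1).const_mul (3 / 2 : ℝ)).const_add 1
      exact (h4.div_const q).add_const _
    have h5 := (h2.fun_mul h3).fun_neg
    convert! h5 using 1
    field_simp
    ring
  have hlim : Tendsto F atTop (𝓝 0) := by
    have h1 : Tendsto (fun t : ℝ => t * q) atTop atTop := tendsto_id.atTop_mul_const hq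
    have h2 : Tendsto (fun x : ℝ => Real.exp (-x)) atTop (𝓝 0) :=
      Real.tendsto_exp_neg_atTop_nhds_zero
    have h3 : Tendsto (fun x : ℝ => x ^ 1 * Real.exp (-x)) atTop (𝓝 0) :=
      Real.tendsto_pow_mul_exp_neg_atTop_nhds_zero 1
    have h4 := (h2.comp h1)
    have h5 := (h3.comp h1)
    have e : F = fun t => -(3 / 2 / q ^ 2 * ((t * q) ^ 1 * Real.exp (-(t * q))) +
        ((-1 / 2) / q + 3 / (2 * q ^ 2)) * Real.exp (-(t * q))) := by
      funext t
      rw [hF]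
      field_simp
      ring
    rw [e]
    have h6 := ((h5.const_mul (3 / 2 / q ^ 2)).add (h4.const_mul ((-1 / 2) / q + 3 / (2 * q ^ 2)))).neg
    simpa using h6
  have hpos : ∀ t ∈ Ioi (1 : ℝ), 0 ≤ (1 + 3 / 2 * (t - 1)) * Real.exp (-(t * q)) := by
    intro t ht
    have : (1 : ℝ) < t := ht
    exact mul_nonneg (by linarith) (Real.exp_pos _).le
  have hcont : ContinuousWithinAt F (Ici 1) 1 := (hd 1).continuousAt.continuousWithinAt
  refine ⟨integrableOn_Ioi_deriv_of_nonneg hcont (fun t _ => hd t) hpos hlim, ?_⟩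
  rw [integral_Ioi_of_hasDerivAt_of_nonneg hcont (fun t _ => hd t) hpos hlim, hF]
  unfold gw
  simp only [one_mul, sub_self, mul_zero, add_zero]
  ring

/-- the weighted direct function is integrable -/
theorem lin_Th_int {Q : Mx 3} (hQ : PD Q) (H : Mx 3) :
    IntegrableOn (fun t : ℝ => (1 + 3 / 2 * (t - 1)) * Th Q H t) (Ioi 1) := by
  have hI := (mel_Th hQ H (s := 2) (by norm_num)).1
  have hI1 : IntegrableOn (fun t : ℝ => t ^ (2 : ℝ) * Th Q H t) (Ioi 1) :=
    hI.mono_set fun t ht => by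
      have : (1 : ℝ) < t := ht
      exact mem_Ioi.mpr (by linarith)
  have hmeas : AEStronglyMeasurable (fun t : ℝ => (1 + 3 / 2 * (t - 1)) * Th Q H t)
      (volume.restrict (Ioi 1)) := by
    have h1 : AEStronglyMeasurable (fun t : ℝ => t ^ (-2 : ℝ) * (t ^ (2 : ℝ) * Th Q H t))
        (volume.restrict (Ioi 1)) := by
      refine AEStronglyMeasurable.mul ?_ hI1.1
      refine ContinuousOn.aestronglyMeasurable ?_ measurableSet_Ioi
      refine ContinuousOn.rpow_const continuousOn_id fun t ht => Or.inl ?_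
      exact (lt_trans one_pos ht).ne'
    have h2 : AEStronglyMeasurable (fun t : ℝ => Th Q H t) (volume.restrict (Ioi 1)) := by
      refine h1.congr ((ae_restrict_iff' measurableSet_Ioi).mpr
        (Filter.Eventually.of_forall fun t ht => ?_))
      have ht0 : (0 : ℝ) < t := lt_trans one_pos ht
      show t ^ (-2 : ℝ) * (t ^ (2 : ℝ) * Th Q H t) = Th Q H t
      rw [← mul_assoc, ← Real.rpow_add ht0]
      simp
    exact (Continuous.aestronglyMeasurable (by fun_prop)).mul h2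
  refine Integrable.mono hI1 hmeas ((ae_restrict_iff' measurableSet_Ioi).mpr
      (Filter.Eventually.of_forall fun t ht => ?_))
  have ht0 : (1 : ℝ) < t := ht
  rw [norm_mul, norm_mul, Real.norm_of_nonneg (by nlinarith : (0 : ℝ) ≤ 1 + 3 / 2 * (t - 1)),
    Real.norm_of_nonneg (Real.rpow_nonneg (by linarith) _)]
  refine mul_le_mul_of_nonneg_right ?_ (norm_nonneg _)
  have : t ^ (2 : ℝ) = t ^ 2 := by exact_mod_cast Real.rpow_natCast t 2
  rw [this]
  nlinarith

/-- lower bound of the weighted integral from a finite list and a far group -/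
theorem direct_value {Q : Mx 3} (hQ : PD Q) (H : Mx 3) {ι : Type*} (S : Finset ι) (a q : ι → ℝ)
    (hq : ∀ i ∈ S, 0 < q i) {M L : ℝ} (hL : 0 < L)
    (hB : ∀ t, 1 < t → ∑ i ∈ S, a i * Real.exp (-(t * q i)) - M * Real.exp (-((t - 1) * L)) ≤
      Th Q H t) :
    ∑ i ∈ S, a i * gw (q i) - M * (1 / L + 3 / (2 * L ^ 2)) ≤
      ∫ t in Ioi (1 : ℝ), (1 + 3 / 2 * (t - 1)) * Th Q H t := by
  have hi : ∀ i ∈ S, IntegrableOn (fun t : ℝ => a i * ((1 + 3 / 2 * (t - 1)) *
      Real.exp (-(t * q i)))) (Ioi 1) := fun i hi =>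
    Integrable.const_mul (lin_exp_int (hq i hi)).1 _
  have hS : IntegrableOn (fun t : ℝ => ∑ i ∈ S, a i * ((1 + 3 / 2 * (t - 1)) *
      Real.exp (-(t * q i)))) (Ioi 1) := integrable_finsetSum _ hi
  have hF : IntegrableOn (fun t : ℝ => M * Real.exp L * ((1 + 3 / 2 * (t - 1)) *
      Real.exp (-(t * L)))) (Ioi 1) := Integrable.const_mul (lin_exp_int hL).1 _
  have hle : ∫ t in Ioi (1 : ℝ), (∑ i ∈ S, a i * ((1 + 3 / 2 * (t - 1)) * Real.exp (-(t * q i))) -
      M * Real.exp L * ((1 + 3 / 2 * (t - 1)) * Real.exp (-(t * L)))) ≤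
      ∫ t in Ioi (1 : ℝ), (1 + 3 / 2 * (t - 1)) * Th Q H t := by
    refine setIntegral_mono_on (hS.sub hF) (lin_Th_int hQ H) measurableSet_Ioi fun t ht => ?_
    have ht0 : (1 : ℝ) < t := ht
    have h1 := mul_le_mul_of_nonneg_left (hB t ht0) (by linarith : (0 : ℝ) ≤ 1 + 3 / 2 * (t - 1))
    have h2 : Real.exp (-((t - 1) * L)) = Real.exp L * Real.exp (-(t * L)) := by
      rw [← Real.exp_add]; congr 1; ring
    rw [h2] at h1
    refine le_trans (le_of_eq ?_) h1
    rw [mul_sub (1 + 3 / 2 * (t - 1)), Finset.mul_sum]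
    congr 1
    · exact Finset.sum_congr rfl fun i _ => by ring
    · ring
  refine le_trans (le_of_eq ?_) hle
  rw [integral_sub hS hF, integral_finsetSum _ hi, integral_const_mul, (lin_exp_int hL).2]
  congr 1
  · exact Finset.sum_congr rfl fun i hi => by rw [integral_const_mul, (lin_exp_int (hq i hi)).2]
  · unfold gw
    have : Real.exp L * Real.exp (-L) = 1 := by rw [← Real.exp_add]; simp
    calc M * (1 / L + 3 / (2 * L ^ 2)) = M * (Real.exp L * Real.exp (-L)) *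
          (1 / L + 3 / (2 * L ^ 2)) := by rw [this, mul_one]
      _ = _ := by ring

lemma rpow_weight {s : ℝ} (hs : 3 / 2 < s) : (∀ v : ℝ, 1 < v → 0 ≤ v ^ (3 / 2 - s)) ∧
    (∀ v : ℝ, 1 < v → v ^ (3 / 2 - s) ≤ 1) ∧ AntitoneOn (fun v : ℝ => v ^ (3 / 2 - s)) (Ioi 1) := by
  refine ⟨fun v hv => Real.rpow_nonneg (by linarith) _, fun v hv => ?_, fun u hu v hv huv => ?_⟩
  · exact Real.rpow_le_one_of_one_le_of_nonpos hv.le (by linarith)
  · have : (1 : ℝ) < u := hu
    exact Real.rpow_le_rpow_of_nonpos (by linarith) huv (by linarith)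

/-- dual part, type 2: short bad vectors against longer good ones -/
theorem dual_type2 {Q : Mx 3} (hQ : PD Q) {X : Mx 3} (hX : X.trace = 0) {ι : Type*}
    (G N : Finset ι) (p n y : ι → ℝ) {ρ : ℝ}
    (hp : ∀ i ∈ G, 0 ≤ p i) (hn : ∀ i ∈ N, 0 ≤ n i) (hG : ∀ i ∈ G, ρ ≤ y i)
    (hN : ∀ i ∈ N, y i ≤ ρ) (hy : ∀ i ∈ N, 0 < y i) (hyG : ∀ i ∈ G, 0 < y i)
    (hB : ∀ v, 1 < v → ∑ i ∈ G, p i * Real.exp (-(v * y i)) -
      ∑ i ∈ N, n i * Real.exp (-(v * y i)) ≤ Ths Q X v) {s : ℝ} (hs : 3 / 2 < s) :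
    min 0 (∑ i ∈ G, p i * (Real.exp (-y i) / y i) - ∑ i ∈ N, n i * (Real.exp (-y i) / y i)) ≤
      ∫ v in Ioi (1 : ℝ), v ^ (3 / 2 - s) * Ths Q X v := by
  obtain ⟨w0, w1, w2⟩ := rpow_weight hs
  obtain ⟨hi, hv⟩ := one_sign G N p n y hp hn hG hN hy hyG w0 w1 w2
  refine hv.trans (setIntegral_mono_on hi (mix hQ hX hs).2.1 measurableSet_Ioi fun v hv => ?_)
  exact mul_le_mul_of_nonneg_left (hB v hv) (w0 v hv)

/-- dual part, type 1: prefix sums bounded below -/
theorem dual_type1 {Q : Mx 3} (hQ : PD Q) {X : Mx 3} (hX : X.trace = 0) {W y0 : ℝ} (hW : 0 ≤ W)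
    (hy0 : 0 < y0) (hB : ∀ v, 1 < v → -(W * Real.exp (-((v - 1) * y0))) ≤ Ths Q X v) {s : ℝ}
    (hs : 3 / 2 < s) :
    -(W / y0) ≤ ∫ v in Ioi (1 : ℝ), v ^ (3 / 2 - s) * Ths Q X v := by
  have h := dual_type2 hQ hX (ι := Unit) ∅ {()} (fun _ => 0) (fun _ => W * Real.exp y0)
    (fun _ => y0) (ρ := y0) (by simp) (fun _ _ => by positivity) (by simp) (fun _ _ => le_rfl)
    (fun _ _ => hy0) (by simp) (fun v hv => ?_) hs
  · refine le_trans (le_of_eq ?_) h
    simp only [Finset.sum_empty, Finset.sum_singleton, zero_sub]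
    have h1 : W * Real.exp y0 * (Real.exp (-y0) / y0) = W / y0 := by
      have : Real.exp y0 * Real.exp (-y0) = 1 := by rw [← Real.exp_add]; simp
      calc W * Real.exp y0 * (Real.exp (-y0) / y0) =
            W * (Real.exp y0 * Real.exp (-y0)) / y0 := by ring
        _ = W / y0 := by rw [this, mul_one]
    rw [h1, min_eq_right (by have := div_nonneg hW hy0.le; linarith)]
  · refine le_trans (le_of_eq ?_) (hB v hv)
    simp only [Finset.sum_empty, Finset.sum_singleton, zero_sub]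
    rw [mul_assoc, ← Real.exp_add]
    congr 3
    ring

end Pool.Agent.Lib.EPL
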