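import Mathlib

/-!
# Mellin transforms of exponential sums
-/

open MeasureTheory Set Filter Topology

namespace Pool.Agent.Lib.EPL

lemma term_int {a p s : ℝ} (hp : 0 < p) (hs : 0 < s) :
    IntegrableOn (fun t : ℝ => t ^ (s - 1) * (a * Real.exp (-(p * t)))) (Ioi 0) := by
  have h1 := Real.integral_rpow_mul_exp_neg_mul_Ioi hs hp
  have h2 : IntegrableOn (fun t : ℝ => t ^ (s - 1) * Real.exp (-(p * t))) (Ioi 0) := by
    by_contra hcon
    rw [integral_undef hcon] at h1
    have : 0 < (1 / p) ^ s * Real.Gamma s := mul_pos (by positivity) (Real.Gamma_pos_of_pos hs)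
    linarith
  refine (Integrable.const_mul h2 a).congr (Filter.Eventually.of_forall fun t => ?_)
  show a * (t ^ (s - 1) * Real.exp (-(p * t))) = t ^ (s - 1) * (a * Real.exp (-(p * t)))
  ring

lemma term_val {a p s : ℝ} (hp : 0 < p) (hs : 0 < s) :
    ∫ t in Ioi (0 : ℝ), t ^ (s - 1) * (a * Real.exp (-(p * t))) = Real.Gamma s * (a / p ^ s) := by
  have h1 := Real.integral_rpow_mul_exp_neg_mul_Ioi hs hp
  have h3 : ∀ t : ℝ, t ^ (s - 1) * (a * Real.exp (-(p * t))) =
      a * (t ^ (s - 1) * Real.exp (-(p * t))) := fun t => by ring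
  simp only [h3]
  rw [integral_const_mul, h1, Real.div_rpow one_pos.le hp.le, Real.one_rpow]
  ring

/-- the Mellin transform of a sum of exponentials -/
theorem mel {ι : Type*} [Countable ι] {a p : ι → ℝ} (hp : ∀ i, 0 < p i) {s : ℝ} (hs : 0 < s)
    (hsum : Summable fun i => |a i| / p i ^ s)
    (hpt : ∀ t : ℝ, 0 < t → Summable fun i => a i * Real.exp (-(p i * t))) :
    IntegrableOn (fun t : ℝ => t ^ (s - 1) * ∑' i, a i * Real.exp (-(p i * t))) (Ioi 0) ∧
      ∫ t in Ioi (0 : ℝ), t ^ (s - 1) * ∑' i, a i * Real.exp (-(p i * t)) =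
        Real.Gamma s * ∑' i, a i / p i ^ s := by
  set f : ι → ℝ → ℝ := fun i t => t ^ (s - 1) * (a i * Real.exp (-(p i * t))) with hf
  have hfi : ∀ i, IntegrableOn (f i) (Ioi 0) := fun i => term_int (hp i) hs
  have hnorm : ∀ i, ∫ t in Ioi (0 : ℝ), ‖f i t‖ = Real.Gamma s * (|a i| / p i ^ s) := by
    intro i
    rw [← term_val (a := |a i|) (hp i) hs]
    refine setIntegral_congr_fun measurableSet_Ioi fun t ht => ?_
    have ht0 : (0 : ℝ) < t := ht
    rw [hf]
    simp only [Real.norm_eq_abs, abs_mul]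
    rw [abs_of_nonneg (Real.rpow_nonneg ht0.le _), abs_of_pos (Real.exp_pos _)]
  have hS : Summable fun i => ∫ t in Ioi (0 : ℝ), ‖f i t‖ := by
    simp only [hnorm]
    exact hsum.mul_left _
  have hEq : ∀ t ∈ Ioi (0 : ℝ), t ^ (s - 1) * ∑' i, a i * Real.exp (-(p i * t)) =
      ∑' i, f i t := by
    intro t _
    rw [hf, tsum_mul_left]
  constructor
  · have hfin : ∑' i, ∫⁻ t in Ioi (0 : ℝ), ‖f i t‖ₑ ≠ ⊤ := by
      have h1 : ∀ i, ∫⁻ t in Ioi (0 : ℝ), ‖f i t‖ₑ = ENNReal.ofReal (∫ t in Ioi (0 : ℝ), ‖f i t‖) :=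
        fun i => (ofReal_integral_norm_eq_lintegral_enorm (hfi i)).symm
      simp only [h1]
      rw [← ENNReal.ofReal_tsum_of_nonneg (fun i => integral_nonneg fun t => norm_nonneg _) hS]
      exact ENNReal.ofReal_ne_top
    have hmeas : AEStronglyMeasurable (fun t => ∑' i, f i t) (volume.restrict (Ioi (0 : ℝ))) := by
      refine aestronglyMeasurable_of_tendsto_ae (u := (atTop : Filter (Finset ι)))
        (f := fun (F : Finset ι) (t : ℝ) => ∑ i ∈ F, f i t) (fun F => ?_) ?_
      · exact Finset.aestronglyMeasurable_fun_sum F fun i _ => (hfi i).1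
      · refine (ae_restrict_iff' measurableSet_Ioi).mpr (Filter.Eventually.of_forall fun t ht => ?_)
        exact ((hpt t ht).mul_left (t ^ (s - 1))).hasSum
    have hint : Integrable (fun t => ∑' i, f i t) (volume.restrict (Ioi (0 : ℝ))) := by
      refine ⟨hmeas, ?_⟩
      have h2 : ∫⁻ t in Ioi (0 : ℝ), ‖∑' i, f i t‖ₑ ≤ ∫⁻ t in Ioi (0 : ℝ), ∑' i, ‖f i t‖ₑ := by
        refine lintegral_mono_ae ?_
        refine (ae_restrict_iff' measurableSet_Ioi).mpr (Filter.Eventually.of_forall fun t ht => ?_)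
        exact enorm_tsum_le_tsum_enorm
      refine lt_of_le_of_lt h2 ?_
      rw [lintegral_tsum fun i => (hfi i).1.enorm]
      exact lt_top_iff_ne_top.mpr hfin
    exact hint.congr ((ae_restrict_iff' measurableSet_Ioi).mpr
      (Filter.Eventually.of_forall fun t ht => (hEq t ht).symm))
  · rw [setIntegral_congr_fun measurableSet_Ioi hEq,
      ← integral_tsum_of_summable_integral_norm hfi hS]
    simp only [hf, term_val (hp _) hs]
    rw [tsum_mul_left]

end Pool.Agent.Lib.EPL
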