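import Pool.Agent.Lib.EPL.Pois

/-!
# The Mellin integral split at `t = 1`
-/

open MeasureTheory Set Filter Topology Matrix
open scoped Matrix.Norms.Elementwise

namespace Pool.Agent.Lib.EPL

open Pool.Agent.Lib.EpZ Pool.Agent.Lib.EPS

lemma ind_inv (f : ℝ → ℝ) {v : ℝ} (hv : 0 < v) :
    (|(-1 : ℝ)| * v ^ ((-1 : ℝ) - 1)) • (indicator (Ioo (0 : ℝ) 1) f) (v ^ (-1 : ℝ)) =
      indicator (Ioi (1 : ℝ)) (fun v => v ^ (-2 : ℝ) * f v⁻¹) v := by
  have hinv : v ^ (-1 : ℝ) = v⁻¹ := by rw [Real.rpow_neg_one]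
  rw [hinv]
  by_cases h1 : 1 < v
  · have hm : v⁻¹ ∈ Ioo (0 : ℝ) 1 := ⟨by positivity, inv_lt_one_of_one_lt₀ h1⟩
    rw [indicator_of_mem hm, indicator_of_mem (show v ∈ Ioi (1 : ℝ) from h1), smul_eq_mul]
    simp only [abs_neg, abs_one, one_mul]
    norm_num
  · have hm : v⁻¹ ∉ Ioo (0 : ℝ) 1 := by
      intro h
      exact h1 ((inv_lt_one₀ hv).mp h.2)
    rw [indicator_of_notMem hm, indicator_of_notMem (show v ∉ Ioi (1 : ℝ) from h1), smul_zero]

/-- the substitution `t = 1 / v` -/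
theorem sub_inv (f : ℝ → ℝ) :
    ∫ t in Ioo (0 : ℝ) 1, f t = ∫ v in Ioi (1 : ℝ), v ^ (-2 : ℝ) * f v⁻¹ := by
  have h := integral_comp_rpow_Ioi (indicator (Ioo (0 : ℝ) 1) f) (p := -1) (by norm_num)
  rw [setIntegral_indicator measurableSet_Ioo] at h
  have e1 : Ioi (0 : ℝ) ∩ Ioo 0 1 = Ioo 0 1 := by
    ext t; constructor
    · intro ht; exact ht.2
    · intro ht; exact ⟨ht.1, ht⟩
  rw [e1] at h
  rw [← h, setIntegral_congr_fun measurableSet_Ioi (fun v hv => ind_inv f hv),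
    setIntegral_indicator measurableSet_Ioi]
  congr 2
  ext t; constructor
  · intro ht; exact ht.2
  · intro ht
    have : (1 : ℝ) < t := ht
    exact ⟨mem_Ioi.mpr (by linarith), ht⟩

theorem sub_inv_int (f : ℝ → ℝ) (hf : IntegrableOn f (Ioo 0 1)) :
    IntegrableOn (fun v => v ^ (-2 : ℝ) * f v⁻¹) (Ioi 1) := by
  have h := (integrableOn_Ioi_comp_rpow_iff (indicator (Ioo (0 : ℝ) 1) f) (p := -1)
    (by norm_num)).mpr ?_
  · have h2 : IntegrableOn (indicator (Ioi (1 : ℝ)) (fun v => v ^ (-2 : ℝ) * f v⁻¹)) (Ioi 0) :=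
      h.congr_fun (fun v hv => ind_inv f hv) measurableSet_Ioi
    have h3 := h2.mono_set (show Ioi (1 : ℝ) ⊆ Ioi 0 from fun t ht => by
      have : (1 : ℝ) < t := ht
      exact mem_Ioi.mpr (by linarith))
    exact h3.congr_fun (fun v hv => by rw [indicator_of_mem hv]) measurableSet_Ioi
  · rw [IntegrableOn, integrable_indicator_iff measurableSet_Ioo, IntegrableOn,
      Measure.restrict_restrict measurableSet_Ioo]
    exact hf.mono_set inter_subset_left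

/-- the dual function -/
noncomputable def Ths (Q X : Mx 3) (v : ℝ) : ℝ := -Th Q⁻¹ (Hx Q⁻¹ Xᵀ) (Real.pi ^ 2 * v)

/-- the constant -/
noncomputable def Cd (Q : Mx 3) : ℝ := Real.pi ^ ((7 : ℝ) / 2) * Q.det ^ (-(1 : ℝ) / 2)

lemma Cd_pos {Q : Mx 3} (hQ : PD Q) : 0 < Cd Q := by
  have := hQ.det_pos
  have := Real.pi_pos
  unfold Cd
  positivity

theorem Th_inv {Q : Mx 3} (hQ : PD Q) {X : Mx 3} (hX : X.trace = 0) {v : ℝ} (hv : 0 < v) :
    Th Q (Hx Q X) v⁻¹ = Cd Q * v ^ ((7 : ℝ) / 2) * Ths Q X v := by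
  have hpi := Real.pi_pos
  rw [Th_dual hQ hX (inv_pos.mpr hv)]
  unfold Ct Cd Ths
  have e1 : Real.pi ^ 2 / v⁻¹ = Real.pi ^ 2 * v := by field_simp
  have e2 : Real.pi / v⁻¹ = Real.pi * v := by field_simp
  have e3 : Real.pi ^ 2 / v⁻¹ ^ 2 = Real.pi ^ 2 * v ^ 2 := by field_simp
  rw [e1, e2, e3, Real.mul_rpow hpi.le hv.le]
  have e4 : Real.pi ^ ((7 : ℝ) / 2) = Real.pi ^ ((3 : ℝ) / 2) * Real.pi ^ 2 := by
    rw [← Real.rpow_natCast Real.pi 2, ← Real.rpow_add hpi]; norm_num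
  have e5 : v ^ ((7 : ℝ) / 2) = v ^ ((3 : ℝ) / 2) * v ^ 2 := by
    rw [← Real.rpow_natCast v 2, ← Real.rpow_add hv]; norm_num
  rw [e4, e5]
  ring

/-- the Mellin integral split at `t = 1` -/
theorem mix {Q : Mx 3} (hQ : PD Q) {X : Mx 3} (hX : X.trace = 0) {s : ℝ} (hs : 3 / 2 < s) :
    IntegrableOn (fun t : ℝ => t ^ s * Th Q (Hx Q X) t) (Ioi 1) ∧
      IntegrableOn (fun v : ℝ => v ^ (3 / 2 - s) * Ths Q X v) (Ioi 1) ∧
      ∫ t in Ioi (0 : ℝ), t ^ s * Th Q (Hx Q X) t =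
        (∫ t in Ioi (1 : ℝ), t ^ s * Th Q (Hx Q X) t) +
          Cd Q * ∫ v in Ioi (1 : ℝ), v ^ (3 / 2 - s) * Ths Q X v := by
  have hI := (mel_Th hQ (Hx Q X) hs).1
  have hI1 : IntegrableOn (fun t : ℝ => t ^ s * Th Q (Hx Q X) t) (Ioi 1) :=
    hI.mono_set fun t ht => by
      have : (1 : ℝ) < t := ht
      exact mem_Ioi.mpr (by linarith)
  have hI0 : IntegrableOn (fun t : ℝ => t ^ s * Th Q (Hx Q X) t) (Ioo 0 1) :=
    hI.mono_set fun t ht => ht.1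
  have hC := Cd_pos hQ
  have hconv : ∀ v ∈ Ioi (1 : ℝ), v ^ (-2 : ℝ) * ((v⁻¹) ^ s * Th Q (Hx Q X) v⁻¹) =
      Cd Q * (v ^ (3 / 2 - s) * Ths Q X v) := by
    intro v hv
    have hv0 : (0 : ℝ) < v := lt_trans one_pos hv
    rw [Th_inv hQ hX hv0, Real.inv_rpow hv0.le, ← Real.rpow_neg hv0.le]
    have e : v ^ (3 / 2 - s) = v ^ (-2 : ℝ) * (v ^ (-s) * v ^ ((7 : ℝ) / 2)) := by
      rw [← Real.rpow_add hv0, ← Real.rpow_add hv0]; congr 1; ring
    rw [e]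
    ring
  refine ⟨hI1, ?_, ?_⟩
  · have h1 := (sub_inv_int _ hI0).congr_fun hconv measurableSet_Ioi
    have h2 := Integrable.const_mul h1 (Cd Q)⁻¹
    refine h2.congr (Filter.Eventually.of_forall fun v => ?_)
    show (Cd Q)⁻¹ * (Cd Q * (v ^ (3 / 2 - s) * Ths Q X v)) = v ^ (3 / 2 - s) * Ths Q X v
    field_simp
  · have hU : Ioi (0 : ℝ) = Ioc 0 1 ∪ Ioi 1 := (Ioc_union_Ioi_eq_Ioi zero_le_one).symm
    have hI0' : IntegrableOn (fun t : ℝ => t ^ s * Th Q (Hx Q X) t) (Ioc 0 1) :=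
      hI.mono_set fun t ht => ht.1
    rw [hU, setIntegral_union (Set.Ioc_disjoint_Ioi le_rfl) measurableSet_Ioi hI0' hI1,
      integral_Ioc_eq_integral_Ioo, sub_inv, setIntegral_congr_fun measurableSet_Ioi hconv,
      integral_const_mul]
    ring

/-- The abstract leaf: the direct function is nonnegative, its weighted integral is at least `D`,
the dual integral is at least `-E`, and `D > Cd Q * E`. -/
theorem notMin_abs {Q : Mx 3} (hQ : PD Q) {X : Mx 3} (hX : X.trace = 0) {D E : ℝ}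
    (hB : ∀ t, 1 < t → 0 ≤ Th Q (Hx Q X) t)
    (hD : D ≤ ∫ t in Ioi (1 : ℝ), (1 + 3 / 2 * (t - 1)) * Th Q (Hx Q X) t)
    (hE : ∀ s : ℝ, 3 / 2 < s → -E ≤ ∫ v in Ioi (1 : ℝ), v ^ (3 / 2 - s) * Ths Q X v)
    (hDE : Cd Q * E < D) {s : ℝ} (hs : 3 / 2 < s) : ¬ LocMin s Q := by
  intro hm
  have h0 := locMin_zero hQ (Hx_symm hQ.1 X) (by rw [trace_Hx hQ, hX, mul_zero]) hs hm
  obtain ⟨hI1, _, hmix⟩ := mix hQ hX hs
  rw [h0] at hmix
  have hw : ∀ t : ℝ, 1 < t → 1 + 3 / 2 * (t - 1) ≤ t ^ s := by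
    intro t ht
    have h1 := one_add_mul_self_le_rpow_one_add (s := t - 1) (by linarith) (p := s) (by linarith)
    have h2 : 3 / 2 * (t - 1) ≤ s * (t - 1) := mul_le_mul_of_nonneg_right hs.le (by linarith)
    have h3 : (1 + (t - 1)) = t := by ring
    rw [h3] at h1
    linarith
  have hmeas : AEStronglyMeasurable (fun t : ℝ => (1 + 3 / 2 * (t - 1)) * Th Q (Hx Q X) t)
      (volume.restrict (Ioi 1)) := by
    have h1 : AEStronglyMeasurable (fun t : ℝ => t ^ (-s) * (t ^ s * Th Q (Hx Q X) t))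
        (volume.restrict (Ioi 1)) := by
      refine AEStronglyMeasurable.mul ?_ hI1.1
      refine ContinuousOn.aestronglyMeasurable ?_ measurableSet_Ioi
      refine ContinuousOn.rpow_const continuousOn_id fun t ht => Or.inl ?_
      exact (lt_trans one_pos ht).ne'
    have h2 : AEStronglyMeasurable (fun t : ℝ => Th Q (Hx Q X) t) (volume.restrict (Ioi 1)) := by
      refine h1.congr ((ae_restrict_iff' measurableSet_Ioi).mpr
        (Filter.Eventually.of_forall fun t ht => ?_))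
      have ht0 : (0 : ℝ) < t := lt_trans one_pos ht
      show t ^ (-s) * (t ^ s * Th Q (Hx Q X) t) = Th Q (Hx Q X) t
      rw [← mul_assoc, ← Real.rpow_add ht0]
      simp
    exact (Continuous.aestronglyMeasurable (by fun_prop)).mul h2
  have hint : IntegrableOn (fun t : ℝ => (1 + 3 / 2 * (t - 1)) * Th Q (Hx Q X) t) (Ioi 1) := by
    refine Integrable.mono hI1 hmeas ((ae_restrict_iff' measurableSet_Ioi).mpr
        (Filter.Eventually.of_forall fun t ht => ?_))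
    have ht0 : (1 : ℝ) < t := ht
    rw [norm_mul, norm_mul, Real.norm_of_nonneg (by nlinarith : (0 : ℝ) ≤ 1 + 3 / 2 * (t - 1)),
      Real.norm_of_nonneg (Real.rpow_nonneg (by linarith) s)]
    exact mul_le_mul_of_nonneg_right (hw t ht0) (norm_nonneg _)
  have h1 : ∫ t in Ioi (1 : ℝ), (1 + 3 / 2 * (t - 1)) * Th Q (Hx Q X) t ≤
      ∫ t in Ioi (1 : ℝ), t ^ s * Th Q (Hx Q X) t :=
    setIntegral_mono_on hint hI1 measurableSet_Ioi fun t ht =>
      mul_le_mul_of_nonneg_right (hw t ht) (hB t ht)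
  have h2 := mul_le_mul_of_nonneg_left (hE s hs) (Cd_pos hQ).le
  linarith

end Pool.Agent.Lib.EPL
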