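import Pool.Agent.Lib.EPL.Sec

/-!
# EPL.PathT: paths of forms with given first and second derivatives
-/

open MeasureTheory Set Filter Topology Matrix
open scoped Matrix.Norms.Elementwise

namespace Pool.Agent.Lib.EPL

open Pool.Agent.Lib.EpZ Pool.Agent.Lib.EPS

namespace PathTAux

/-- the determinant of `1 + e A + e² B` -/
lemma det_expand (A B : Mx 3) (hA : A.trace = 0) (hB : B.trace = (A * A).trace / 2) (e : ℝ) :
    (1 + e • A + e ^ 2 • B).det = 1 + e ^ 3 * (A.trace * B.trace - (A * B).trace +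
      e * ((B.trace ^ 2 - (B * B).trace) / 2) + (A + e • B).det) := by
  have hA' := hA
  have hB' := hB
  simp only [Matrix.trace, Matrix.diag, Fin.sum_univ_three, Matrix.mul_apply] at hA' hB' ⊢
  simp only [Matrix.det_fin_three, Matrix.add_apply, Matrix.smul_apply, smul_eq_mul,
    Matrix.one_apply, Fin.isValue]
  simp only [Fin.isValue, if_true, Fin.reduceEq, if_false, zero_ne_one, one_ne_zero]
  have e0 : A 2 2 = -A 0 0 - A 1 1 := by linarith
  have e1 : B 2 2 = (A 0 0 * A 0 0 + A 0 1 * A 1 0 + A 0 2 * A 2 0 +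
      (A 1 0 * A 0 1 + A 1 1 * A 1 1 + A 1 2 * A 2 1) +
      (A 2 0 * A 0 2 + A 2 1 * A 1 2 + A 2 2 * A 2 2)) / 2 - B 0 0 - B 1 1 := by linarith
  rw [e1, e0]
  ring

lemma rpow_close : ∃ C > 0, ∀ x : ℝ, |x| ≤ 1 / 2 → |(1 + x) ^ (-(1 : ℝ) / 3) - 1| ≤ C * |x| := by
  refine ⟨4, by norm_num, fun x hx => ?_⟩
  have h1 := (abs_le.mp hx).1
  have h2 := (abs_le.mp hx).2
  have hp : 0 < 1 + x := by linarith
  set y : ℝ := (1 + x) ^ (-(1 : ℝ) / 3) with hy
  have hy0 : 0 < y := Real.rpow_pos_of_pos hp _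
  have hy3 : y ^ 3 * (1 + x) = 1 := by
    rw [hy, ← Real.rpow_natCast, ← Real.rpow_mul hp.le]
    norm_num
    rw [Real.rpow_neg_one, inv_mul_cancel₀ hp.ne']
  have hyle : y ≤ 2 := by
    by_contra hcon
    push Not at hcon
    have h3 : 8 < y ^ 3 := by nlinarith [sq_nonneg y, mul_pos hy0 hy0]
    nlinarith
  have key : (y - 1) * (y ^ 2 + y + 1) = -(x * y ^ 3) := by
    have : (y - 1) * (y ^ 2 + y + 1) = y ^ 3 - 1 := by ring
    rw [this]
    linarith
  have h4 : |y - 1| * (y ^ 2 + y + 1) = |x| * y ^ 3 := by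
    have := congrArg abs key
    rw [abs_mul, abs_neg, abs_mul, abs_of_pos (by positivity : 0 < y ^ 2 + y + 1),
      abs_of_pos (by positivity : 0 < y ^ 3)] at this
    exact this
  have h5 : y ^ 3 ≤ 4 * (y ^ 2 + y + 1) := by nlinarith [sq_nonneg y]
  have h6 : |x| * y ^ 3 ≤ |x| * (4 * (y ^ 2 + y + 1)) := mul_le_mul_of_nonneg_left h5 (abs_nonneg x)
  have h7 : |y - 1| * (y ^ 2 + y + 1) ≤ (4 * |x|) * (y ^ 2 + y + 1) := by
    rw [h4]; linarith
  exact le_of_mul_le_mul_right h7 (by positivity)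

end PathTAux

open PathTAux

/-- A pair `H, K` of symmetric matrices is the pair of derivatives of a path of forms of constant
determinant if the first two derivatives of the determinant vanish. -/
theorem path_of_trace {Q : Mx 3} (hQ : PD Q) {H K : Mx 3} (hH : H.IsSymm) (hK : K.IsSymm)
    (h1 : (Q⁻¹ * H).trace = 0) (h2 : (Q⁻¹ * K).trace = (Q⁻¹ * H * (Q⁻¹ * H)).trace / 2) :
    Path Q H K := by
  have hdet := hQ.det_pos
  set A : Mx 3 := Q⁻¹ * H with hA
  set B : Mx 3 := Q⁻¹ * K with hB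
  have hQA : Q * A = H := by
    rw [hA, ← Matrix.mul_assoc, Matrix.mul_nonsing_inv _ hdet.ne'.isUnit, Matrix.one_mul]
  have hQB : Q * B = K := by
    rw [hB, ← Matrix.mul_assoc, Matrix.mul_nonsing_inv _ hdet.ne'.isUnit, Matrix.one_mul]
  set ρ : ℝ → ℝ := fun e => A.trace * B.trace - (A * B).trace +
      e * ((B.trace ^ 2 - (B * B).trace) / 2) + (A + e • B).det with hρ
  have hdetE : ∀ e : ℝ, (Q + e • H + e ^ 2 • K).det = Q.det * (1 + e ^ 3 * ρ e) := by
    intro e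
    rw [← det_expand A B h1 h2, ← Matrix.det_mul]
    congr 1
    rw [Matrix.mul_add, Matrix.mul_add, Matrix.mul_one, Matrix.mul_smul, Matrix.mul_smul, hQA, hQB]
  have hcont : Continuous ρ := by
    rw [hρ]
    refine Continuous.add (by fun_prop) ?_
    exact Continuous.matrix_det (by fun_prop)
  obtain ⟨R, hR⟩ := (isCompact_Icc (a := (-1 : ℝ)) (b := 1)).exists_bound_of_continuousOn
    hcont.continuousOn
  have hR0 : 0 ≤ R := (norm_nonneg _).trans (hR 0 (by norm_num))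
  obtain ⟨C, hC, hcl⟩ := rpow_close
  set N : ℝ := ‖Q‖ + ‖H‖ + ‖K‖ with hN
  have hN0 : 0 ≤ N := by positivity
  refine ⟨fun e => (1 + e ^ 3 * ρ e) ^ (-(1 : ℝ) / 3) • (Q + e • H + e ^ 2 • K), C * R * N,
    min 1 (1 / (2 * (R + 1))), by positivity, fun e he => ?_⟩
  have he1 : |e| ≤ 1 := he.trans (min_le_left _ _)
  have he2 : |e| ≤ 1 / (2 * (R + 1)) := he.trans (min_le_right _ _)
  have heI : e ∈ Icc (-1 : ℝ) 1 := ⟨(abs_le.mp he1).1, (abs_le.mp he1).2⟩
  have hρe : |ρ e| ≤ R := hR e heI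
  have he3 : |e| ^ 3 ≤ |e| := by
    have h0 := abs_nonneg e
    have : |e| ^ 2 ≤ 1 := by nlinarith
    nlinarith
  have hx : |e ^ 3 * ρ e| ≤ R * |e| ^ 3 := by
    rw [abs_mul, abs_pow]
    nlinarith [pow_nonneg (abs_nonneg e) 3]
  have hx2 : |e ^ 3 * ρ e| ≤ 1 / 2 := by
    refine hx.trans ?_
    have h3 : R * |e| ^ 3 ≤ R * |e| := mul_le_mul_of_nonneg_left he3 hR0
    have h4 : R * |e| ≤ R * (1 / (2 * (R + 1))) := mul_le_mul_of_nonneg_left he2 hR0
    have h5 : R * (1 / (2 * (R + 1))) ≤ 1 / 2 := by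
      rw [mul_one_div, div_le_iff₀ (by positivity)]
      nlinarith
    linarith
  have hp : 0 < 1 + e ^ 3 * ρ e := by
    have := (abs_le.mp hx2).1
    linarith
  refine ⟨?_, ?_, ?_⟩
  · exact ((hQ.1.add (hH.smul e)).add (hK.smul (e ^ 2))).smul _
  · rw [Matrix.det_smul, hdetE e, Fintype.card_fin]
    rw [← Real.rpow_natCast ((1 + e ^ 3 * ρ e) ^ (-(1 : ℝ) / 3)) 3, ← Real.rpow_mul hp.le]
    norm_num
    rw [Real.rpow_neg_one]
    field_simp
  · have e1 : (1 + e ^ 3 * ρ e) ^ (-(1 : ℝ) / 3) • (Q + e • H + e ^ 2 • K) -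
        (Q + e • H + e ^ 2 • K) =
        ((1 + e ^ 3 * ρ e) ^ (-(1 : ℝ) / 3) - 1) • (Q + e • H + e ^ 2 • K) := by
      rw [sub_smul, one_smul]
    rw [e1, norm_smul, Real.norm_eq_abs]
    have h3 := hcl _ hx2
    have h4 : ‖Q + e • H + e ^ 2 • K‖ ≤ N := by
      refine (norm_add_le _ _).trans ?_
      have h5 := norm_add_le Q (e • H)
      rw [norm_smul, Real.norm_eq_abs] at h5
      rw [norm_smul, norm_pow, Real.norm_eq_abs]
      have h6 : |e| * ‖H‖ ≤ ‖H‖ := mul_le_of_le_one_left (norm_nonneg _) he1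
      have h7 : |e| ^ 2 * ‖K‖ ≤ ‖K‖ :=
        mul_le_of_le_one_left (norm_nonneg _) (pow_le_one₀ (abs_nonneg _) he1)
      rw [hN]
      linarith
    have h5 : |(1 + e ^ 3 * ρ e) ^ (-(1 : ℝ) / 3) - 1| ≤ C * (R * |e| ^ 3) :=
      h3.trans (mul_le_mul_of_nonneg_left hx hC.le)
    calc |(1 + e ^ 3 * ρ e) ^ (-(1 : ℝ) / 3) - 1| * ‖Q + e • H + e ^ 2 • K‖ ≤
          C * (R * |e| ^ 3) * N := mul_le_mul h5 h4 (norm_nonneg _) (by positivity)
      _ = C * R * N * |e| ^ 3 := by ring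

end Pool.Agent.Lib.EPL
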