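import Pool.Agent.Lib.EPL.Second

/-!
# The second order condition in terms of theta functions
-/

open MeasureTheory Set Filter Topology Matrix
open scoped Matrix.Norms.Elementwise

namespace Pool.Agent.Lib.EPL

open Pool.Agent.Lib.EpZ Pool.Agent.Lib.EPS

/-- powers are dominated by exponentials -/
lemma pow_exp (m : ℕ) {c : ℝ} (hc : 0 < c) : ∃ C > 0, ∀ n : ℝ, 0 ≤ n →
    n ^ m * Real.exp (-(c * n)) ≤ C * Real.exp (-(c / 2 * n)) := by
  refine ⟨m.factorial / (c / 2) ^ m, by positivity, fun n hn => ?_⟩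
  have h1 := Real.pow_div_factorial_le_exp (c / 2 * n) (by positivity) m
  have h2 : Real.exp (-(c * n)) = Real.exp (-(c / 2 * n)) * Real.exp (-(c / 2 * n)) := by
    rw [← Real.exp_add]; congr 1; ring
  have h3 : Real.exp (c / 2 * n) * Real.exp (-(c / 2 * n)) = 1 := by
    rw [← Real.exp_add]; simp
  have h4 : n ^ m ≤ m.factorial / (c / 2) ^ m * Real.exp (c / 2 * n) := by
    rw [div_le_iff₀ (by positivity), mul_pow] at h1
    rw [div_mul_eq_mul_div, le_div_iff₀ (by positivity)]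
    linarith
  calc n ^ m * Real.exp (-(c * n)) ≤
        (m.factorial / (c / 2) ^ m * Real.exp (c / 2 * n)) * Real.exp (-(c * n)) :=
        mul_le_mul_of_nonneg_right h4 (Real.exp_pos _).le
    _ = m.factorial / (c / 2) ^ m * Real.exp (-(c / 2 * n)) *
          (Real.exp (c / 2 * n) * Real.exp (-(c / 2 * n))) := by rw [h2]; ring
    _ = _ := by rw [h3]; ring

/-- weights of polynomial growth -/
def Pg (a : (Fin 3 → ℤ) → ℝ) (m : ℕ) : Prop := a 0 = 0 ∧ ∃ M : ℝ, ∀ x, |a x| ≤ M * nn x ^ m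

lemma Pg.summable {a : (Fin 3 → ℤ) → ℝ} {m : ℕ} (ha : Pg a m) {Q : Mx 3} (hQ : PD Q) {t : ℝ}
    (ht : 0 < t) : Summable fun x : Fin 3 → ℤ => a x * Real.exp (-(t * qf Q x)) := by
  obtain ⟨c, hc, hl⟩ := hQ.low
  obtain ⟨_, M, hM⟩ := ha
  obtain ⟨C, hC, hCe⟩ := pow_exp m (mul_pos ht hc)
  have hg := P34eea4.summable_gauss_int (Fin 3) (c := t * c / 2) (by positivity)
  refine Summable.of_norm_bounded (hg.mul_left (|M| * C)) fun x => ?_
  rw [Real.norm_eq_abs, abs_mul, abs_of_pos (Real.exp_pos _)]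
  have h1 : |a x| ≤ |M| * nn x ^ m := (hM x).trans
    (mul_le_mul_of_nonneg_right (le_abs_self M) (pow_nonneg (nn_nonneg x) m))
  have h2 : Real.exp (-(t * qf Q x)) ≤ Real.exp (-(t * c * nn x)) := by
    refine Real.exp_le_exp.mpr ?_
    have := mul_le_mul_of_nonneg_left (hl x) ht.le
    linarith
  have h3 := hCe (nn x) (nn_nonneg x)
  have h4 : Real.exp (-(t * c / 2 * nn x)) = Real.exp (-(t * c / 2) * ∑ i, (x i : ℝ) ^ 2) := by
    unfold nn; congr 1; ring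
  rw [h4] at h3
  calc |a x| * Real.exp (-(t * qf Q x)) ≤ (|M| * nn x ^ m) * Real.exp (-(t * c * nn x)) :=
        mul_le_mul h1 h2 (Real.exp_pos _).le (by have := nn_nonneg x; positivity)
    _ = |M| * (nn x ^ m * Real.exp (-(t * c * nn x))) := by ring
    _ ≤ |M| * (C * Real.exp (-(t * c / 2) * ∑ i, (x i : ℝ) ^ 2)) :=
        mul_le_mul_of_nonneg_left h3 (abs_nonneg _)
    _ = _ := by ring

lemma Pg.summable_rpow {a : (Fin 3 → ℤ) → ℝ} {m : ℕ} (ha : Pg a m) {Q : Mx 3} (hQ : PD Q) {p : ℝ}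
    (hp : m + 3 / 2 < p) : Summable fun x : NZ 3 => |a x.1| / qf Q x.1 ^ p := by
  obtain ⟨c, hc, hl⟩ := hQ.low
  obtain ⟨_, M, hM⟩ := ha
  have hS := hQ.summable (s := p - m) (by norm_num; linarith)
  refine Summable.of_nonneg_of_le (fun x => ?_) (fun x => ?_) (hS.mul_left (|M| / c ^ m))
  · have := Real.rpow_pos_of_pos (hQ.pos x) p
    positivity
  · have hx := hQ.pos x
    have hn := nn_nonneg x.1
    have h1 : |a x.1| ≤ |M| * nn x.1 ^ m := (hM x.1).trans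
      (mul_le_mul_of_nonneg_right (le_abs_self M) (pow_nonneg hn m))
    have h2 : nn x.1 ^ m ≤ (qf Q x.1) ^ m / c ^ m := by
      rw [le_div_iff₀ (by positivity), ← mul_pow, mul_comm]
      exact pow_le_pow_left₀ (by positivity) (hl x.1) m
    have h3 : qf Q x.1 ^ (-(p - m)) = qf Q x.1 ^ m / qf Q x.1 ^ p := by
      rw [neg_sub, Real.rpow_sub hx, Real.rpow_natCast]
    rw [h3]
    have hpp := Real.rpow_pos_of_pos hx p
    rw [div_le_iff₀ hpp]
    calc |a x.1| ≤ |M| * (qf Q x.1 ^ m / c ^ m) :=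
          h1.trans (mul_le_mul_of_nonneg_left h2 (abs_nonneg _))
      _ = _ := by field_simp

/-- the Mellin transform of a weighted theta function -/
theorem Pg.mel {a : (Fin 3 → ℤ) → ℝ} {m : ℕ} (ha : Pg a m) {Q : Mx 3} (hQ : PD Q) {p : ℝ}
    (hp : m + 3 / 2 < p) :
    IntegrableOn (fun t : ℝ => t ^ (p - 1) * ∑' x : Fin 3 → ℤ, a x * Real.exp (-(t * qf Q x)))
        (Ioi 0) ∧
      ∫ t in Ioi (0 : ℝ), t ^ (p - 1) * ∑' x : Fin 3 → ℤ, a x * Real.exp (-(t * qf Q x)) =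
        Real.Gamma p * ∑' x : NZ 3, a x.1 / qf Q x.1 ^ p := by
  have hp0 : 0 < p := by
    have : (0 : ℝ) ≤ m := Nat.cast_nonneg m
    linarith
  have hpt : ∀ t : ℝ, 0 < t → Summable fun x : NZ 3 => a x.1 * Real.exp (-(qf Q x.1 * t)) := by
    intro t ht
    refine ((ha.summable hQ ht).subtype _).congr fun x => ?_
    simp [mul_comm]
  have h := EPL.mel (a := fun x : NZ 3 => a x.1) (p := fun x : NZ 3 => qf Q x.1)
    (fun x => hQ.pos x) hp0 (ha.summable_rpow hQ hp) hpt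
  have e3 : ∀ t ∈ Ioi (0 : ℝ), t ^ (p - 1) * ∑' x : NZ 3, a x.1 * Real.exp (-(qf Q x.1 * t)) =
      t ^ (p - 1) * ∑' x : Fin 3 → ℤ, a x * Real.exp (-(t * qf Q x)) := by
    intro t ht
    rw [tsum_nz (ha.summable hQ ht), ha.1]
    simp only [zero_mul, zero_add]
    congr 1
    exact tsum_congr fun x => by rw [mul_comm t]
  exact ⟨h.1.congr_fun e3 measurableSet_Ioi, by
    rw [← setIntegral_congr_fun measurableSet_Ioi e3, h.2]⟩

lemma Pg.qf (H : Mx 3) : Pg (fun x => qf H x) 1 := by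
  refine ⟨qf_zero H, 3 * ‖H‖, fun x => ?_⟩
  have := qf_abs_le H x
  rw [pow_one]
  simpa using this

lemma Pg.mul {a b : (Fin 3 → ℤ) → ℝ} {m n : ℕ} (ha : Pg a m) (hb : Pg b n) :
    Pg (fun x => a x * b x) (m + n) := by
  obtain ⟨h1, M, hM⟩ := ha
  obtain ⟨h2, N, hN⟩ := hb
  refine ⟨by simp [h1], |M| * |N|, fun x => ?_⟩
  rw [abs_mul, pow_add]
  have hn := nn_nonneg x
  have e1 : |a x| ≤ |M| * nn x ^ m := (hM x).trans
    (mul_le_mul_of_nonneg_right (le_abs_self M) (pow_nonneg hn m))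
  have e2 : |b x| ≤ |N| * nn x ^ n := (hN x).trans
    (mul_le_mul_of_nonneg_right (le_abs_self N) (pow_nonneg hn n))
  calc |a x| * |b x| ≤ (|M| * nn x ^ m) * (|N| * nn x ^ n) :=
        mul_le_mul e1 e2 (abs_nonneg _) (by positivity)
    _ = _ := by ring

/-- the weighted theta function -/
noncomputable def Tw (Q : Mx 3) (a : (Fin 3 → ℤ) → ℝ) (t : ℝ) : ℝ :=
  ∑' x : Fin 3 → ℤ, a x * Real.exp (-(t * EpZ.qf Q x))

lemma Th_eq_Tw (Q H : Mx 3) (t : ℝ) : Th Q H t = Tw Q (fun x => EpZ.qf H x) t := rfl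

/-- A form is not a local minimum if, for a path with derivatives `H`, `K` and a direction `H'`,
the function `t² Tw(H²)/2 - t Tw(K) + c t Tw(H') + b t² Tw(H' Q)` is negative for all `t > 0`. -/
theorem notMin_second {Q : Mx 3} (hQ : PD Q) {H K H' : Mx 3} (hH : H.IsSymm)
    (htr : (Q⁻¹ * H).trace = 0) (hP : Path Q H K) (hH' : H'.IsSymm)
    (htr' : (Q⁻¹ * H').trace = 0) {b c : ℝ}
    (hneg : ∀ t : ℝ, 0 < t → t ^ 2 / 2 * Tw Q (fun x => EpZ.qf H x * EpZ.qf H x) t -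
      t * Tw Q (fun x => EpZ.qf K x) t + c * (t * Tw Q (fun x => EpZ.qf H' x) t) +
        b * (t ^ 2 * Tw Q (fun x => EpZ.qf H' x * EpZ.qf Q x) t) < 0)
    {s : ℝ} (hs : 3 / 2 < s) : ¬ LocMin s Q := by
  intro hm
  have hs0 : 0 < s := by linarith
  have h2 := second_of_locMin hQ hH htr hP hs hm
  have hcrit : ∑' x : NZ 3, EpZ.qf H' x.1 / EpZ.qf Q x.1 ^ (s + 1) = 0 := by
    have h1 := crit_of_locMin (d := 3) (by norm_num) (s := s) (by norm_num; exact hs) hQ hm H' hH'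
    rw [htr'] at h1
    simp only [Nat.cast_ofNat, zero_div, mul_zero] at h1
    rw [← h1]
    refine tsum_congr fun x => ?_
    have hp := hQ.pos x
    rw [Real.rpow_add hp, Real.rpow_one, Real.rpow_neg hp.le]
    field_simp
  have hcrit2 : ∑' x : NZ 3, EpZ.qf H' x.1 * EpZ.qf Q x.1 / EpZ.qf Q x.1 ^ (s + 2) = 0 := by
    rw [← hcrit]
    refine tsum_congr fun x => ?_
    have hp := hQ.pos x
    rw [show s + 2 = (s + 1) + 1 by ring, Real.rpow_add hp (s + 1), Real.rpow_one]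
    field_simp
  obtain ⟨i1, v1⟩ := ((Pg.qf H).mul (Pg.qf H)).mel hQ (p := s + 2) (by norm_num; linarith)
  obtain ⟨i2, v2⟩ := (Pg.qf K).mel hQ (p := s + 1) (by norm_num; linarith)
  obtain ⟨i3, v3⟩ := (Pg.qf H').mel hQ (p := s + 1) (by norm_num; linarith)
  obtain ⟨i4, v4⟩ := ((Pg.qf H').mul (Pg.qf Q)).mel hQ (p := s + 2) (by norm_num; linarith)
  rw [hcrit, mul_zero] at v3
  rw [hcrit2, mul_zero] at v4
  set f1 : ℝ → ℝ := fun t => t ^ (s + 2 - 1) *
    ∑' x : Fin 3 → ℤ, EpZ.qf H x * EpZ.qf H x * Real.exp (-(t * EpZ.qf Q x)) with hf1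
  set f2 : ℝ → ℝ := fun t => t ^ (s + 1 - 1) *
    ∑' x : Fin 3 → ℤ, EpZ.qf K x * Real.exp (-(t * EpZ.qf Q x)) with hf2
  set f3 : ℝ → ℝ := fun t => t ^ (s + 1 - 1) *
    ∑' x : Fin 3 → ℤ, EpZ.qf H' x * Real.exp (-(t * EpZ.qf Q x)) with hf3
  set f4 : ℝ → ℝ := fun t => t ^ (s + 2 - 1) *
    ∑' x : Fin 3 → ℤ, EpZ.qf H' x * EpZ.qf Q x * Real.exp (-(t * EpZ.qf Q x)) with hf4
  have j1 : IntegrableOn (fun t => 1 / 2 * f1 t) (Ioi 0) := Integrable.const_mul i1 (1 / 2)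
  have j2 : IntegrableOn (fun t => 1 / 2 * f1 t - f2 t) (Ioi 0) := Integrable.sub j1 i2
  have j3 : IntegrableOn (fun t => c * f3 t) (Ioi 0) := Integrable.const_mul i3 c
  have j4 : IntegrableOn (fun t => 1 / 2 * f1 t - f2 t + c * f3 t) (Ioi 0) := Integrable.add j2 j3
  have j5 : IntegrableOn (fun t => b * f4 t) (Ioi 0) := Integrable.const_mul i4 b
  have iA : IntegrableOn (fun t => 1 / 2 * f1 t - f2 t + c * f3 t + b * f4 t) (Ioi 0) :=
    Integrable.add j4 j5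
  have vA : ∫ t in Ioi (0 : ℝ), (1 / 2 * f1 t - f2 t + c * f3 t + b * f4 t) =
      Real.Gamma s * ∑' x : NZ 3, (s * (s + 1) / 2 * (EpZ.qf Q x.1 ^ (-s) *
        (EpZ.qf H x.1 / EpZ.qf Q x.1) ^ 2) - s * (EpZ.qf Q x.1 ^ (-s) *
          (EpZ.qf K x.1 / EpZ.qf Q x.1))) := by
    obtain ⟨c₀, hc₀, hl⟩ := hQ.low
    have hd : ((3 : ℕ) : ℝ) / 2 < s := by norm_num; exact hs
    rw [integral_add j4 j5, integral_add j2 j3, integral_sub j1 i2,
      integral_const_mul, integral_const_mul, integral_const_mul, v1, v2, v3, v4,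
      ((hl.summable_mul_sq hc₀ hd H).mul_left _).tsum_sub
        ((hl.summable_mul hc₀ hd K).mul_left _), tsum_mul_left, tsum_mul_left]
    have g1 : Real.Gamma (s + 1) = s * Real.Gamma s := Real.Gamma_add_one hs0.ne'
    have g2 : Real.Gamma (s + 2) = (s + 1) * (s * Real.Gamma s) := by
      rw [show s + 2 = (s + 1) + 1 by ring, Real.Gamma_add_one (by linarith), g1]
    have e1 : ∑' x : NZ 3, EpZ.qf H x.1 * EpZ.qf H x.1 / EpZ.qf Q x.1 ^ (s + 2) =
        ∑' x : NZ 3, EpZ.qf Q x.1 ^ (-s) * (EpZ.qf H x.1 / EpZ.qf Q x.1) ^ 2 := by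
      refine tsum_congr fun x => ?_
      have hp := hQ.pos x
      rw [Real.rpow_add hp, Real.rpow_neg hp.le]
      norm_num
      field_simp
    have e2 : ∑' x : NZ 3, EpZ.qf K x.1 / EpZ.qf Q x.1 ^ (s + 1) =
        ∑' x : NZ 3, EpZ.qf Q x.1 ^ (-s) * (EpZ.qf K x.1 / EpZ.qf Q x.1) := by
      refine tsum_congr fun x => ?_
      have hp := hQ.pos x
      rw [Real.rpow_add hp, Real.rpow_one, Real.rpow_neg hp.le]
      field_simp
    rw [e1, e2, g1, g2]
    ring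
  have hlt : ∀ t ∈ Ioi (0 : ℝ), 1 / 2 * f1 t - f2 t + c * f3 t + b * f4 t < 0 := by
    intro t ht
    have ht0 : (0 : ℝ) < t := ht
    have h1 := hneg t ht0
    have e1 : t ^ (s + 2 - 1) = t ^ (s - 1) * t ^ 2 := by
      rw [← Real.rpow_natCast t 2, ← Real.rpow_add ht0]; congr 1; norm_num; ring
    have e2 : t ^ (s + 1 - 1) = t ^ (s - 1) * t := by
      nth_rewrite 3 [← Real.rpow_one t]
      rw [← Real.rpow_add ht0]; congr 1; ring
    have e3 : 1 / 2 * f1 t - f2 t + c * f3 t + b * f4 t = t ^ (s - 1) *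
        (t ^ 2 / 2 * Tw Q (fun x => EpZ.qf H x * EpZ.qf H x) t -
      t * Tw Q (fun x => EpZ.qf K x) t + c * (t * Tw Q (fun x => EpZ.qf H' x) t) +
        b * (t ^ 2 * Tw Q (fun x => EpZ.qf H' x * EpZ.qf Q x) t)) := by
      simp only [hf1, hf2, hf3, hf4, Tw]
      rw [e1, e2]
      ring
    rw [e3]
    exact mul_neg_of_pos_of_neg (Real.rpow_pos_of_pos ht0 _) h1
  have hI : ∫ t in Ioi (0 : ℝ), -(1 / 2 * f1 t - f2 t + c * f3 t + b * f4 t) ≤ 0 := by
    rw [integral_neg, vA]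
    have := mul_nonneg (Real.Gamma_pos_of_pos hs0).le h2
    linarith
  have hp : 0 < ∫ t in Ioi (0 : ℝ), -(1 / 2 * f1 t - f2 t + c * f3 t + b * f4 t) := by
    rw [setIntegral_pos_iff_support_of_nonneg_ae]
    · have : Function.support (fun t : ℝ => -(1 / 2 * f1 t - f2 t + c * f3 t + b * f4 t)) ∩ Ioi 0 =
          Ioi 0 := by
        refine inter_eq_right.mpr fun t ht => ?_
        have := hlt t ht
        exact (neg_pos.mpr this).ne'
      rw [this, Real.volume_Ioi]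
      exact ENNReal.coe_lt_top
    · refine (ae_restrict_iff' measurableSet_Ioi).mpr (Filter.Eventually.of_forall fun t ht => ?_)
      exact (neg_pos.mpr (hlt t ht)).le
    · exact iA.neg
  linarith

/-- unipotent paths -/
theorem path_unipotent {Q : Mx 3} (hQ : PD Q) {w z : Fin 3 → ℝ} (hwz : w ⬝ᵥ z = 0) :
    Path Q (Hd Q w z) (qr Q z • vecMulVec w w) := by
  refine ⟨fun e => Q + e • Hd Q w z + e ^ 2 • (qr Q z • vecMulVec w w), 0, 1, one_pos,
    fun e _ => ?_⟩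
  obtain ⟨h1, h2⟩ := path_pd hQ hwz e
  exact ⟨h1.1, h2, by simp⟩

end Pool.Agent.Lib.EPL
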