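import Pool.Agent.Lib.EPL.Pois

/-!
# Second order conditions at a local minimum
-/

open MeasureTheory Set Filter Topology Matrix
open scoped Matrix.Norms.Elementwise

namespace Pool.Agent.Lib.EPL

open Pool.Agent.Lib.EpZ Pool.Agent.Lib.EPS

/-- second order expansion of a power -/
lemma rpow_expand {s : ℝ} (hs : 0 < s) : ∃ C > 0, ∃ r > 0, r ≤ 1 / 2 ∧ ∀ y : ℝ, |y| ≤ r →
    (1 + y) ^ (-s) ≤ 1 - s * y + s * (s + 1) / 2 * y ^ 2 + C * |y| ^ 3 := by
  refine ⟨2 * s + 4 * s * (s + 1) ^ 2 + 27 * (s + 1) ^ 3, by positivity, 1 / (4 * (s + 1)),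
    by positivity, ?_, ?_⟩
  · rw [div_le_div_iff₀ (by positivity) (by norm_num)]
    nlinarith
  intro y hy
  have hs1 : 0 < s + 1 := by linarith
  have hy0 := abs_nonneg y
  have hyr : |y| * (4 * (s + 1)) ≤ 1 := by
    rwa [le_div_iff₀ (by positivity)] at hy
  have hy4 : |y| ≤ 1 / 4 := by nlinarith
  obtain ⟨hy1, hy2⟩ := abs_le.mp hy4
  have hpos : 0 < 1 + y := by linarith
  -- the logarithm
  have hlog : y - y ^ 2 / 2 - 2 * |y| ^ 3 ≤ Real.log (1 + y) := by
    have h1 := Real.abs_log_sub_add_sum_range_le (x := -y) (by rw [abs_neg]; linarith) 2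
    simp only [Finset.sum_range_succ, Finset.sum_range_zero, abs_neg, sub_neg_eq_add] at h1
    have h2 := (abs_le.mp h1).1
    have h3 : |y| ^ (2 + 1) / (1 - |y|) ≤ 2 * |y| ^ 3 := by
      rw [div_le_iff₀ (by linarith)]
      have : 0 ≤ |y| ^ 3 := by positivity
      norm_num
      nlinarith
    norm_num at h2
    norm_num at h3
    nlinarith
  set z : ℝ := -s * (y - y ^ 2 / 2 - 2 * |y| ^ 3) with hz
  have hsq : y ^ 2 = |y| ^ 2 := (sq_abs y).symm
  have hz1 : |z + s * y| ≤ s * |y| ^ 2 := by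
    have h1 : z + s * y = s * (y ^ 2 / 2 + 2 * |y| ^ 3) := by rw [hz]; ring
    have h2 : 0 ≤ y ^ 2 / 2 + 2 * |y| ^ 3 := by positivity
    rw [h1, abs_of_nonneg (mul_nonneg hs.le h2), hsq]
    refine mul_le_mul_of_nonneg_left ?_ hs.le
    nlinarith [sq_nonneg |y|]
  have hz2 : |z| ≤ 2 * (s + 1) * |y| := by
    have h1 : |z| ≤ |z + s * y| + |s * y| := by
      have := abs_add_le (z + s * y) (-(s * y))
      rw [abs_neg] at this
      simpa using this
    rw [abs_mul s y, abs_of_pos hs] at h1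
    nlinarith
  have hz3 : |z| ≤ 1 := by nlinarith
  have h7 : (1 + y) ^ (-s) ≤ Real.exp z := by
    rw [Real.rpow_def_of_pos hpos]
    refine Real.exp_le_exp.mpr ?_
    rw [hz]
    nlinarith
  have h8 : Real.exp z ≤ 1 + z + z ^ 2 / 2 + |z| ^ 3 := by
    have h1 := Real.exp_bound hz3 (n := 3) (by norm_num)
    simp only [Finset.sum_range_succ, Finset.sum_range_zero] at h1
    have h2 := (abs_le.mp h1).2
    have h3 : 0 ≤ |z| ^ 3 := by positivity
    norm_num [Nat.factorial] at h2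
    nlinarith
  have h9 : z ≤ -s * y + s / 2 * y ^ 2 + 2 * s * |y| ^ 3 := by rw [hz]; ring_nf; rfl
  have h10 : z ^ 2 ≤ s ^ 2 * y ^ 2 + 4 * s * (s + 1) ^ 2 * |y| ^ 3 := by
    have h1 : z = -(s * y) + (z + s * y) := by ring
    have h2 : |z + s * y| * |y| ≤ s * |y| ^ 3 := by
      calc |z + s * y| * |y| ≤ s * |y| ^ 2 * |y| := mul_le_mul_of_nonneg_right hz1 hy0
        _ = s * |y| ^ 3 := by ring
    have h3 : z ^ 2 = s ^ 2 * y ^ 2 - 2 * s * (y * (z + s * y)) + (z + s * y) ^ 2 := by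
      ring
    have h4 : -(y * (z + s * y)) ≤ |z + s * y| * |y| := by
      rw [← abs_mul, mul_comm (z + s * y)]
      exact neg_le_abs _
    have h5 : (z + s * y) ^ 2 ≤ s ^ 2 * |y| ^ 3 := by
      have h6 : (z + s * y) ^ 2 = |z + s * y| ^ 2 := (sq_abs _).symm
      have h7 : |z + s * y| ^ 2 ≤ (s * |y| ^ 2) ^ 2 :=
        pow_le_pow_left₀ (abs_nonneg _) hz1 2
      have h8 : (s * |y| ^ 2) ^ 2 = s ^ 2 * |y| ^ 3 * |y| := by ring
      have h9 : s ^ 2 * |y| ^ 3 * |y| ≤ s ^ 2 * |y| ^ 3 := by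
        have : 0 ≤ s ^ 2 * |y| ^ 3 := by positivity
        nlinarith
      rw [h6]; linarith
    have h6 : 0 ≤ |y| ^ 3 := by positivity
    rw [h3]
    have h10 : 2 * s * (s * |y| ^ 3) + s ^ 2 * |y| ^ 3 ≤ 4 * s * (s + 1) ^ 2 * |y| ^ 3 := by
      have : 2 * s * s + s ^ 2 ≤ 4 * s * (s + 1) ^ 2 := by nlinarith [mul_pos hs hs]
      nlinarith
    nlinarith
  have h11 : |z| ^ 3 ≤ 8 * (s + 1) ^ 3 * |y| ^ 3 := by
    calc |z| ^ 3 ≤ (2 * (s + 1) * |y|) ^ 3 := pow_le_pow_left₀ (abs_nonneg _) hz2 3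
      _ = _ := by ring
  have h12 : 0 ≤ (s + 1) ^ 3 * |y| ^ 3 := by positivity
  have h13 : 0 ≤ s * (s + 1) ^ 2 * |y| ^ 3 := by positivity
  linarith

/-- a path of forms with the same determinant, with given first and second derivatives -/
def Path (Q H K : Mx 3) : Prop :=
  ∃ (P : ℝ → Mx 3) (C r : ℝ), 0 < r ∧ ∀ e : ℝ, |e| ≤ r →
    (P e).IsSymm ∧ (P e).det = Q.det ∧ ‖P e - (Q + e • H + e ^ 2 • K)‖ ≤ C * |e| ^ 3

/-- the second order condition -/
theorem second_of_locMin {Q : Mx 3} (hQ : PD Q) {H K : Mx 3} (hH : H.IsSymm)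
    (htr : (Q⁻¹ * H).trace = 0) (hP : Path Q H K) {s : ℝ} (hs : 3 / 2 < s) (hm : LocMin s Q) :
    0 ≤ ∑' x : NZ 3, (s * (s + 1) / 2 * (qf Q x.1 ^ (-s) * (qf H x.1 / qf Q x.1) ^ 2) -
      s * (qf Q x.1 ^ (-s) * (qf K x.1 / qf Q x.1))) := by
  obtain ⟨P, C, r, hr, hPe⟩ := hP
  obtain ⟨c, hc, hl⟩ := hQ.low
  obtain ⟨D, hD, ρ, hρ, hρ1, hexp⟩ := rpow_expand (s := s) (by linarith)
  obtain ⟨ε, hε, hmin⟩ := hm
  obtain ⟨q, hq, hpd⟩ := pd_near hQ
  have hC : 0 ≤ |C| := abs_nonneg _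
  -- constants
  set A : ℝ := 3 * ‖H‖ / c + 3 * ‖K‖ / c + 3 * |C| / c + 1 with hA
  have hA0 : 0 < A := by positivity
  set S0 : ℝ := ∑' x : NZ 3, qf Q x.1 ^ (-s) with hS0
  have hsm : (3 : ℝ) / 2 < s := hs
  have hd : ((3 : ℕ) : ℝ) / 2 < s := by norm_num; exact hs
  have hS := hQ.summable hd
  have hS2 := hl.summable_mul_sq hc hd H
  have hS1 := hl.summable_mul hc hd H
  have hS3 := hl.summable_mul hc hd K
  have hS00 : 0 ≤ S0 := tsum_nonneg fun x => Real.rpow_nonneg (hQ.pos x).le _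
  have hT : Summable fun x : NZ 3 => (s * (s + 1) / 2 * (qf Q x.1 ^ (-s) *
      (qf H x.1 / qf Q x.1) ^ 2) - s * (qf Q x.1 ^ (-s) * (qf K x.1 / qf Q x.1))) :=
    (hS2.mul_left _).sub (hS3.mul_left _)
  set T : ℝ := ∑' x : NZ 3, (s * (s + 1) / 2 * (qf Q x.1 ^ (-s) * (qf H x.1 / qf Q x.1) ^ 2) -
      s * (qf Q x.1 ^ (-s) * (qf K x.1 / qf Q x.1))) with hTd
  have hcrit : ∑' x : NZ 3, qf Q x.1 ^ (-s) * (qf H x.1 / qf Q x.1) = 0 := by
    have h1 := crit_of_locMin (d := 3) (by norm_num) (s := s) (by norm_num; exact hs) hQ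
      ⟨ε, hε, hmin⟩ H hH
    rw [h1, htr]
    simp
  -- the ratios
  have hrH : ∀ x : NZ 3, |qf H x.1 / qf Q x.1| ≤ A := fun x => by
    have := hl.ratio hc H x
    have h1 : (((3 : ℕ) : ℝ)) * ‖H‖ / c ≤ A := by
      rw [hA]; push_cast
      have : 0 ≤ 3 * ‖K‖ / c := by positivity
      have : 0 ≤ 3 * |C| / c := by positivity
      linarith
    linarith
  have hrK : ∀ x : NZ 3, |qf K x.1 / qf Q x.1| ≤ A := fun x => by
    have := hl.ratio hc K x
    have h1 : (((3 : ℕ) : ℝ)) * ‖K‖ / c ≤ A := by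
      rw [hA]; push_cast
      have : 0 ≤ 3 * ‖H‖ / c := by positivity
      have : 0 ≤ 3 * |C| / c := by positivity
      linarith
    linarith
  -- the key estimate
  have key : ∃ E > 0, ∃ δ > 0, ∀ e : ℝ, 0 < e → e ≤ δ → 0 ≤ e ^ 2 * T + E * e ^ 3 := by
    refine ⟨(s * A + s * (s + 1) / 2 * (8 * A ^ 2) +
      D * (3 * A) ^ 3 + 1) * (S0 + 1), by positivity, min 1 (min r (min (ρ / (3 * A))
        (min (ε / (2 * ((‖H‖ + ‖K‖ + |C|) + 1))) (q / (2 * ((‖H‖ + ‖K‖ + |C|) + 1)))))),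
      by positivity, ?_⟩
    intro e he hle
    have he1 : e ≤ 1 := hle.trans (min_le_left _ _)
    have he2 : e ≤ r := (hle.trans (min_le_right _ _)).trans (min_le_left _ _)
    have he3 : e ≤ ρ / (3 * A) :=
      ((hle.trans (min_le_right _ _)).trans (min_le_right _ _)).trans (min_le_left _ _)
    have he4 : e ≤ ε / (2 * ((‖H‖ + ‖K‖ + |C|) + 1)) :=
      (((hle.trans (min_le_right _ _)).trans (min_le_right _ _)).trans (min_le_right _ _)).trans
        (min_le_left _ _)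
    have he5 : e ≤ q / (2 * ((‖H‖ + ‖K‖ + |C|) + 1)) :=
      (((hle.trans (min_le_right _ _)).trans (min_le_right _ _)).trans (min_le_right _ _)).trans
        (min_le_right _ _)
    obtain ⟨hsym, hdet, hnorm⟩ := hPe e (by rw [abs_of_pos he]; exact he2)
    rw [abs_of_pos he] at hnorm
    have hCle : C ≤ |C| := le_abs_self C
    have hnorm' : ‖P e - (Q + e • H + e ^ 2 • K)‖ ≤ |C| * e ^ 3 :=
      hnorm.trans (mul_le_mul_of_nonneg_right hCle (by positivity))
    have he23 : e ^ 2 ≤ e := by nlinarith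
    have he33 : e ^ 3 ≤ e := by nlinarith [mul_nonneg he.le (sub_nonneg.mpr he23)]
    have hdist : ‖P e - Q‖ ≤ e * (‖H‖ + ‖K‖ + |C|) := by
      have h1 : P e - Q = (P e - (Q + e • H + e ^ 2 • K)) + (e • H + e ^ 2 • K) := by abel
      rw [h1]
      refine (norm_add_le _ _).trans ?_
      have h2 : ‖e • H + e ^ 2 • K‖ ≤ e * ‖H‖ + e * ‖K‖ := by
        refine (norm_add_le _ _).trans (add_le_add ?_ ?_)
        · rw [norm_smul, Real.norm_of_nonneg he.le]
        · rw [norm_smul, Real.norm_of_nonneg (by positivity)]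
          exact mul_le_mul_of_nonneg_right he23 (norm_nonneg _)
      have h3 : |C| * e ^ 3 ≤ |C| * e := mul_le_mul_of_nonneg_left he33 hC
      nlinarith
    have hN : 0 ≤ ‖H‖ + ‖K‖ + |C| := by positivity
    have hPD : PD (P e) := by
      refine hpd _ hsym (hdist.trans ?_)
      calc e * (‖H‖ + ‖K‖ + |C|) ≤ q / (2 * ((‖H‖ + ‖K‖ + |C|) + 1)) * ((‖H‖ + ‖K‖ + |C|) + 1) :=
            mul_le_mul he5 (by linarith) hN (by positivity)
        _ = q / 2 := by field_simp
        _ ≤ q := by linarith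
    have hlt : ‖P e - Q‖ < ε := by
      refine lt_of_le_of_lt hdist ?_
      calc e * (‖H‖ + ‖K‖ + |C|) ≤ ε / (2 * ((‖H‖ + ‖K‖ + |C|) + 1)) * ((‖H‖ + ‖K‖ + |C|) + 1) :=
            mul_le_mul he4 (by linarith) hN (by positivity)
        _ = ε / 2 := by field_simp
        _ < ε := by linarith
    have hEn := hmin _ hPD hlt
    have hF : F s Q ≤ F s (P e) := by
      unfold En at hEn
      rw [hdet] at hEn
      exact le_of_mul_le_mul_right hEn (Real.rpow_pos_of_pos hQ.det_pos _)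
    -- termwise
    set B : ℝ := s * A + s * (s + 1) / 2 * (8 * A ^ 2) + D * (3 * A) ^ 3 + 1 with hB
    have hterm : ∀ x : NZ 3, qf (P e) x.1 ^ (-s) ≤ qf Q x.1 ^ (-s) -
        s * e * (qf Q x.1 ^ (-s) * (qf H x.1 / qf Q x.1)) +
        e ^ 2 * (s * (s + 1) / 2 * (qf Q x.1 ^ (-s) * (qf H x.1 / qf Q x.1) ^ 2) -
          s * (qf Q x.1 ^ (-s) * (qf K x.1 / qf Q x.1))) + B * e ^ 3 * qf Q x.1 ^ (-s) := by
      intro x
      have hp := hQ.pos x
      set h : ℝ := qf H x.1 / qf Q x.1 with hh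
      set k : ℝ := qf K x.1 / qf Q x.1 with hk
      set R : ℝ := (qf (P e) x.1 - (qf Q x.1 + e * qf H x.1 + e ^ 2 * qf K x.1)) / qf Q x.1 with hR
      have hRb : |R| ≤ A * e ^ 3 := by
        have h1 : qf (P e) x.1 - (qf Q x.1 + e * qf H x.1 + e ^ 2 * qf K x.1) =
            qf (P e - (Q + e • H + e ^ 2 • K)) x.1 := by
          rw [qf_sub, qf_add, qf_add, qf_smul, qf_smul]
        rw [hR, h1]
        refine (hl.ratio hc _ x).trans ?_
        rw [div_le_iff₀ hc]
        push_cast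
        have h2 : 3 * ‖P e - (Q + e • H + e ^ 2 • K)‖ ≤ 3 * (|C| * e ^ 3) :=
          mul_le_mul_of_nonneg_left hnorm' (by norm_num)
        refine h2.trans ?_
        have h3 : 3 * |C| ≤ A * c := by
          rw [hA]
          have h4 : 3 * |C| / c * c = 3 * |C| := by field_simp
          have h5 : 0 ≤ 3 * ‖H‖ / c * c := by positivity
          have h6 : 0 ≤ 3 * ‖K‖ / c * c := by positivity
          nlinarith
        have h4 : 0 ≤ e ^ 3 := by positivity
        nlinarith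
      set y : ℝ := e * h + e ^ 2 * k + R with hy
      have hval : qf (P e) x.1 = qf Q x.1 * (1 + y) := by
        rw [hy, hh, hk, hR]
        field_simp
        ring
      have hh1 : |h| ≤ A := hrH x
      have hk1 : |k| ≤ A := hrK x
      have hyb : |y| ≤ 3 * A * e := by
        have h1 : |y| ≤ |e * h| + |e ^ 2 * k| + |R| := by
          rw [hy]
          exact (abs_add_le _ _).trans (by linarith [abs_add_le (e * h) (e ^ 2 * k)])
        rw [abs_mul, abs_mul, abs_of_pos he, abs_of_nonneg (by positivity : 0 ≤ e ^ 2)] at h1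
        have h2 : e * |h| ≤ e * A := mul_le_mul_of_nonneg_left hh1 he.le
        have h3 : e ^ 2 * |k| ≤ e * A := mul_le_mul he23 hk1 (abs_nonneg _) he.le
        have h4 : A * e ^ 3 ≤ A * e := mul_le_mul_of_nonneg_left he33 hA0.le
        linarith
      have hyρ : |y| ≤ ρ := by
        refine hyb.trans ?_
        calc 3 * A * e ≤ 3 * A * (ρ / (3 * A)) := mul_le_mul_of_nonneg_left he3 (by positivity)
          _ = ρ := by field_simp
      have hx := hexp y hyρ
      have h1y : 0 ≤ 1 + y := by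
        have := (abs_le.mp (hyρ.trans hρ1)).1
        linarith
      have hy3 : |y| ^ 3 ≤ (3 * A) ^ 3 * e ^ 3 := by
        calc |y| ^ 3 ≤ (3 * A * e) ^ 3 := pow_le_pow_left₀ (abs_nonneg _) hyb 3
          _ = _ := by ring
      have hy1 : -y ≤ -(e * h) - e ^ 2 * k + A * e ^ 3 := by
        have := (abs_le.mp hRb).1
        rw [hy]; linarith
      have hy2 : y ^ 2 ≤ e ^ 2 * h ^ 2 + 8 * A ^ 2 * e ^ 3 := by
        have h1 : |y - e * h| ≤ 2 * A * e ^ 2 := by
          have h2 : y - e * h = e ^ 2 * k + R := by rw [hy]; ring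
          rw [h2]
          refine (abs_add_le _ _).trans ?_
          rw [abs_mul, abs_of_nonneg (by positivity : 0 ≤ e ^ 2)]
          have h3 : e ^ 2 * |k| ≤ e ^ 2 * A := mul_le_mul_of_nonneg_left hk1 (by positivity)
          have h4 : A * e ^ 3 ≤ A * e ^ 2 := by
            refine mul_le_mul_of_nonneg_left ?_ hA0.le
            nlinarith [sq_nonneg e]
          linarith
        have h2 : y ^ 2 = e ^ 2 * h ^ 2 + (y - e * h) * (y + e * h) := by ring
        have h3 : |y + e * h| ≤ 4 * A * e := by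
          refine (abs_add_le _ _).trans ?_
          rw [abs_mul e h, abs_of_pos he]
          have := mul_le_mul_of_nonneg_left hh1 he.le
          linarith
        have h4 : (y - e * h) * (y + e * h) ≤ 2 * A * e ^ 2 * (4 * A * e) := by
          refine (le_abs_self _).trans ?_
          rw [abs_mul]
          exact mul_le_mul h1 h3 (abs_nonneg _) (by positivity)
        rw [h2]
        have h5 : 2 * A * e ^ 2 * (4 * A * e) = 8 * A ^ 2 * e ^ 3 := by ring
        linarith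
      rw [hval, Real.mul_rpow hp.le h1y]
      have hQs : 0 ≤ qf Q x.1 ^ (-s) := Real.rpow_nonneg hp.le _
      have hfin : (1 + y) ^ (-s) ≤ 1 - s * e * h + e ^ 2 * (s * (s + 1) / 2 * h ^ 2 - s * k) +
          B * e ^ 3 := by
        have g1 : s * -y ≤ s * (-(e * h) - e ^ 2 * k + A * e ^ 3) :=
          mul_le_mul_of_nonneg_left hy1 (by linarith)
        have g2 : s * (s + 1) / 2 * y ^ 2 ≤ s * (s + 1) / 2 * (e ^ 2 * h ^ 2 +
            8 * A ^ 2 * e ^ 3) := mul_le_mul_of_nonneg_left hy2 (by positivity)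
        have g3 : D * |y| ^ 3 ≤ D * ((3 * A) ^ 3 * e ^ 3) := mul_le_mul_of_nonneg_left hy3 hD.le
        have g4 : 0 ≤ e ^ 3 := by positivity
        rw [hB]
        linarith
      calc qf Q x.1 ^ (-s) * (1 + y) ^ (-s) ≤ qf Q x.1 ^ (-s) * (1 - s * e * h +
            e ^ 2 * (s * (s + 1) / 2 * h ^ 2 - s * k) + B * e ^ 3) :=
            mul_le_mul_of_nonneg_left hfin hQs
        _ = _ := by ring
    have hsum := (hPD.summable hd).tsum_le_tsum hterm
      ((((hS.sub (hS1.mul_left (s * e))).add (hT.mul_left (e ^ 2)))).add (hS.mul_left (B * e ^ 3)))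
    rw [((hS.sub (hS1.mul_left (s * e))).add (hT.mul_left (e ^ 2))).tsum_add
      (hS.mul_left (B * e ^ 3)), (hS.sub (hS1.mul_left (s * e))).tsum_add (hT.mul_left (e ^ 2)),
      hS.tsum_sub (hS1.mul_left (s * e)), tsum_mul_left, tsum_mul_left, tsum_mul_left,
      ← hTd, ← hS0, hcrit] at hsum
    have hF' : S0 ≤ ∑' x : NZ 3, qf (P e) x.1 ^ (-s) := hF
    have hBpos : 0 ≤ B := by positivity
    have g4 : 0 ≤ e ^ 3 := by positivity
    nlinarith [mul_nonneg hBpos g4]
  obtain ⟨E, hE, δ, hδ, hk⟩ := key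
  by_contra hneg
  push Not at hneg
  have hT0 : T < 0 := hneg
  set e : ℝ := min δ (-T / (2 * E)) with he
  have he0 : 0 < e := lt_min hδ (by have : 0 < -T := by linarith
                                    positivity)
  have h1 := hk e he0 (min_le_left _ _)
  have h2 : e * (2 * E) ≤ -T := by
    have := min_le_right δ (-T / (2 * E))
    rw [← he] at this
    rwa [le_div_iff₀ (by positivity)] at this
  have h3 : 0 < e ^ 2 := by positivity
  nlinarith

end Pool.Agent.Lib.EPL
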