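import Mathlib

/-!
# EPL.Sid: packed numbers with fields at Golomb positions

`RepN N B n f`: `n = ∑ k < N, f k * B ^ k`. The statements `repn_*` are finite sums
(`Finset.sum_add_distrib`, `Finset.mul_sum`), `repn_sub` from `repn_add` by cancellation
(compare `Pool/Agent/Lib/EPS/Pk.lean`, `rep_sub`). `repn_pk`: `Finset.sum_range_succ` and
evaluation of the `if`s. `lin_mono`, `qdr_mono`: `gp i < 18`, `gp i + gp j < 35`.
-/

namespace Pool.Agent.Lib.EPL

/-- `n` is the packed number with the fields `f k`, `k < N` -/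
def RepN (N B n : ℕ) (f : ℕ → ℕ) : Prop := n = ∑ k ∈ Finset.range N, f k * B ^ k

/-- the six positions -/
def gp : Fin 6 → ℕ := ![0, 1, 4, 10, 12, 17]

/-- fields outside the six positions are zero -/
def Supp (f : ℕ → ℕ) : Prop := ∀ k, (∀ i, k ≠ gp i) → f k = 0

/-- the Cauchy product -/
def conv (f g : ℕ → ℕ) (k : ℕ) : ℕ := ∑ i ∈ Finset.range (k + 1), f i * g (k - i)

/-- the value of a linear packed number -/
def lin (l : Fin 6 → ℝ) (f : ℕ → ℕ) : ℝ := ∑ i, l i * (f (gp i) : ℝ)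

/-- the value of a quadratic packed number -/
def qdr (l : Fin 6 → ℝ) (f : ℕ → ℕ) : ℝ :=
  ∑ i, ∑ j, if i ≤ j then l i * l j * (f (gp i + gp j) : ℝ) else 0

namespace SidAux

theorem gp_lt (i : Fin 6) : gp i < 18 := by
  fin_cases i <;> simp [gp]

end SidAux

theorem repn_zero (N B : ℕ) : RepN N B 0 (fun _ => 0) := by
  simp [RepN]

theorem repn_add {N B m n : ℕ} {f g : ℕ → ℕ} (hm : RepN N B m f) (hn : RepN N B n g) :
    RepN N B (Nat.add m n) (fun k => f k + g k) := by
  unfold RepN at *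
  show m + n = _
  rw [hm, hn, ← Finset.sum_add_distrib]
  exact Finset.sum_congr rfl fun k _ => by ring

theorem repn_mul {N B n : ℕ} {f : ℕ → ℕ} (c : ℕ) (hn : RepN N B n f) :
    RepN N B (Nat.mul c n) (fun k => c * f k) := by
  unfold RepN at *
  show c * n = _
  rw [hn, Finset.mul_sum]
  exact Finset.sum_congr rfl fun k _ => by ring

theorem repn_mul' {N B n : ℕ} {f : ℕ → ℕ} (c : ℕ) (hn : RepN N B n f) :
    RepN N B (Nat.mul n c) (fun k => f k * c) := by
  unfold RepN at *
  show n * c = _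
  rw [hn, Finset.sum_mul]
  exact Finset.sum_congr rfl fun k _ => by ring

theorem repn_sub {N B m n : ℕ} {f g : ℕ → ℕ} (hm : RepN N B m f) (hn : RepN N B n g)
    (h : ∀ k < N, g k ≤ f k) : RepN N B (Nat.sub m n) (fun k => f k - g k) := by
  unfold RepN at *
  show m - n = _
  have e : m = (∑ k ∈ Finset.range N, (f k - g k) * B ^ k) + n := by
    rw [hm, hn, ← Finset.sum_add_distrib]
    refine Finset.sum_congr rfl fun k hk => ?_
    rw [← add_mul, Nat.sub_add_cancel (h k (Finset.mem_range.1 hk))]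
  rw [e, Nat.add_sub_cancel]

/-- six fields at the six positions -/
theorem repn_pk (B a0 a1 a2 a3 a4 a5 : ℕ) :
    RepN 18 B (a0 + a1 * B + a2 * B ^ 4 + a3 * B ^ 10 + a4 * B ^ 12 + a5 * B ^ 17)
      (fun k => if k = 0 then a0 else if k = 1 then a1 else if k = 4 then a2 else
        if k = 10 then a3 else if k = 12 then a4 else if k = 17 then a5 else 0) := by
  unfold RepN
  simp [Finset.sum_range_succ]

/-- more fields -/
theorem repn_ext {N M B n : ℕ} {f : ℕ → ℕ} (hn : RepN N B n f) (h : N ≤ M)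
    (hf : ∀ k, N ≤ k → f k = 0) : RepN M B n f := by
  unfold RepN at *
  rw [hn]
  refine Finset.sum_subset (Finset.range_mono h) fun k _ hk => ?_
  rw [hf k (by simpa using hk), zero_mul]

theorem supp_add {f g : ℕ → ℕ} (hf : Supp f) (hg : Supp g) : Supp (fun k => f k + g k) := by
  intro k hk
  show f k + g k = 0
  rw [hf k hk, hg k hk]

theorem supp_mul {f : ℕ → ℕ} (c : ℕ) (hf : Supp f) : Supp (fun k => c * f k) := by
  intro k hk
  show c * f k = 0
  rw [hf k hk, mul_zero]

theorem supp_zero_of_ge {f : ℕ → ℕ} (hf : Supp f) {k : ℕ} (hk : 18 ≤ k) : f k = 0 := by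
  exact hf k fun i => by
    have := SidAux.gp_lt i
    omega

theorem lin_add (l : Fin 6 → ℝ) (f g : ℕ → ℕ) :
    lin l (fun k => f k + g k) = lin l f + lin l g := by
  unfold lin
  rw [← Finset.sum_add_distrib]
  exact Finset.sum_congr rfl fun i _ => by push_cast; ring

theorem lin_mul (l : Fin 6 → ℝ) (c : ℕ) (f : ℕ → ℕ) : lin l (fun k => c * f k) = c * lin l f := by
  unfold lin
  rw [Finset.mul_sum]
  exact Finset.sum_congr rfl fun i _ => by push_cast; ring

theorem qdr_add (l : Fin 6 → ℝ) (f g : ℕ → ℕ) :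
    qdr l (fun k => f k + g k) = qdr l f + qdr l g := by
  unfold qdr
  rw [← Finset.sum_add_distrib]
  refine Finset.sum_congr rfl fun i _ => ?_
  rw [← Finset.sum_add_distrib]
  refine Finset.sum_congr rfl fun j _ => ?_
  split_ifs
  · push_cast
    ring
  · simp

theorem qdr_mul (l : Fin 6 → ℝ) (c : ℕ) (f : ℕ → ℕ) : qdr l (fun k => c * f k) = c * qdr l f := by
  unfold qdr
  rw [Finset.mul_sum]
  refine Finset.sum_congr rfl fun i _ => ?_
  rw [Finset.mul_sum]
  refine Finset.sum_congr rfl fun j _ => ?_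
  split_ifs
  · push_cast
    ring
  · simp

theorem lin_mono {l : Fin 6 → ℝ} (hl : ∀ i, 0 ≤ l i) {f g : ℕ → ℕ}
    (h : ∀ k < 18, f k ≤ g k) : lin l f ≤ lin l g := by
  unfold lin
  refine Finset.sum_le_sum fun i _ => mul_le_mul_of_nonneg_left ?_ (hl i)
  exact Nat.cast_le.2 (h _ (SidAux.gp_lt i))

theorem qdr_mono {l : Fin 6 → ℝ} (hl : ∀ i, 0 ≤ l i) {f g : ℕ → ℕ}
    (h : ∀ k < 35, f k ≤ g k) : qdr l f ≤ qdr l g := by
  unfold qdr
  refine Finset.sum_le_sum fun i _ => Finset.sum_le_sum fun j _ => ?_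
  split_ifs
  · refine mul_le_mul_of_nonneg_left (Nat.cast_le.2 (h _ ?_)) (mul_nonneg (hl i) (hl j))
    have h1 := SidAux.gp_lt i
    have h2 := SidAux.gp_lt j
    omega
  · exact le_rfl

end Pool.Agent.Lib.EPL
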