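import Pool.Agent.Lib.EPL.Sid

/-!
# EPL.SidC: products of packed numbers

`repn_conv`: the product of two such numbers with 18 fields is the Cauchy product
(`Finset.sum_mul_sum` and regrouping by `i + j`; the terms have `i + j ≤ 34`). For `k < 35` the sum in
`conv` runs over all `i + j = k` and only `i, j < 18` matter by `Supp` (`f i = 0` unless `i` is one of
`0, 1, 4, 10, 12, 17`).

`qdr_conv`: the sums of two elements of `{0, 1, 4, 10, 12, 17}` are pairwise different (as sums of
unordered pairs), so `conv f g (gp i + gp j) = f (gp i) g (gp j) + f (gp j) g (gp i)` for `i < j` and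
`conv f g (2 gp i) = f (gp i) g (gp i)`. (Expand `conv` at the 21 positions with
`Finset.sum_range_succ` and the zeros `f k = 0` for the other `k`; then `ring`.)

`conv_le`: for given `k` there are at most two pairs `(i, j)` of positions with `i + j = k`.
-/

namespace Pool.Agent.Lib.EPL

namespace SidCAux

theorem zer {f : ℕ → ℕ} (hf : Supp f) (k : ℕ)
    (h : k ≠ 0 ∧ k ≠ 1 ∧ k ≠ 4 ∧ k ≠ 10 ∧ k ≠ 12 ∧ k ≠ 17) : f k = 0 := by
  refine hf k fun i => ?_
  fin_cases i
  · exact h.1
  · exact h.2.1
  · exact h.2.2.1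
  · exact h.2.2.2.1
  · exact h.2.2.2.2.1
  · exact h.2.2.2.2.2

theorem gp_inj : ∀ i j : Fin 6, gp i = gp j → i = j := by decide

/-- a sum over the naturals of a function supported on the six positions -/
theorem sum_gp {f : ℕ → ℕ} (hf : Supp f) (n : ℕ) (c : ℕ → ℕ) :
    ∑ k ∈ Finset.range n, f k * c k = ∑ i : Fin 6, if gp i < n then f (gp i) * c (gp i) else 0 := by
  have h1 : ∀ k ∈ Finset.range n, f k * c k =
      ∑ i : Fin 6, if gp i = k then f k * c k else 0 := by
    intro k _
    by_cases hk : ∀ i, k ≠ gp i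
    · rw [hf k hk]
      simp
    · push Not at hk
      obtain ⟨i, hi⟩ := hk
      rw [Finset.sum_eq_single i]
      · rw [if_pos hi.symm]
      · intro j _ hj
        rw [if_neg]
        intro h
        exact hj (gp_inj j i (h.trans hi))
      · intro h
        exact absurd (Finset.mem_univ i) h
  rw [Finset.sum_congr rfl h1, Finset.sum_comm]
  refine Finset.sum_congr rfl fun i _ => ?_
  rw [Finset.sum_ite_eq]
  simp only [Finset.mem_range]

theorem conv_eq {f g : ℕ → ℕ} (hf : Supp f) (hg : Supp g) (k : ℕ) :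
    conv f g k = ∑ i : Fin 6, ∑ j : Fin 6,
      if gp i + gp j = k then f (gp i) * g (gp j) else 0 := by
  unfold conv
  rw [sum_gp hf (k + 1) (fun i => g (k - i))]
  refine Finset.sum_congr rfl fun i _ => ?_
  by_cases hk : gp i < k + 1
  · rw [if_pos hk]
    by_cases h : ∀ j, k - gp i ≠ gp j
    · rw [hg _ h, mul_zero, Finset.sum_eq_zero]
      intro j _
      rw [if_neg]
      intro e
      exact h j (by omega)
    · push Not at h
      obtain ⟨j, hj⟩ := h
      rw [Finset.sum_eq_single j]
      · rw [if_pos (by omega), hj]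
      · intro j' _ hj'
        rw [if_neg]
        intro e
        exact hj' (gp_inj j' j (by omega))
      · intro h
        exact absurd (Finset.mem_univ j) h
  · rw [if_neg hk, Finset.sum_eq_zero]
    intro j _
    rw [if_neg (by omega)]

theorem cnt : ∀ k < 35, ∑ i : Fin 6, ∑ j : Fin 6, (if gp i + gp j = k then 1 else 0) ≤ 2 := by
  decide +kernel

theorem cnt' (k : ℕ) : ∑ i : Fin 6, ∑ j : Fin 6, (if gp i + gp j = k then 1 else 0) ≤ 2 := by
  by_cases h : k < 35
  · exact cnt k h
  · rw [Finset.sum_eq_zero]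
    · omega
    · intro i _
      refine Finset.sum_eq_zero fun j _ => ?_
      rw [if_neg]
      have h1 := SidAux.gp_lt i
      have h2 := SidAux.gp_lt j
      omega

theorem gp_add_inj : ∀ i j i' j' : Fin 6, gp i' + gp j' = gp i + gp j →
    (i' = i ∧ j' = j) ∨ (i' = j ∧ j' = i) := by
  decide +kernel

theorem conv_ne {f g : ℕ → ℕ} (hf : Supp f) (hg : Supp g) {i j : Fin 6} (hij : i ≠ j) :
    conv f g (gp i + gp j) = f (gp i) * g (gp j) + f (gp j) * g (gp i) := by
  rw [conv_eq hf hg]
  have h1 : ∀ i' j' : Fin 6, (if gp i' + gp j' = gp i + gp j then f (gp i') * g (gp j') else 0) =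
      (if i' = i then (if j' = j then f (gp i) * g (gp j) else 0) else 0) +
      (if i' = j then (if j' = i then f (gp j) * g (gp i) else 0) else 0) := by
    intro i' j'
    by_cases h : gp i' + gp j' = gp i + gp j
    · rcases gp_add_inj i j i' j' h with ⟨rfl, rfl⟩ | ⟨rfl, rfl⟩
      · simp [hij]
      · simp [hij.symm, add_comm]
    · rw [if_neg h]
      by_cases h2 : i' = i
      · subst h2
        by_cases h3 : j' = j
        · subst h3
          exact absurd rfl h
        · simp [h3, hij]
      · by_cases h4 : i' = j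
        · subst h4
          by_cases h3 : j' = i
          · subst h3
            exact absurd (add_comm _ _) h
          · simp [h3, h2]
        · simp [h2, h4]
  simp only [h1, Finset.sum_add_distrib]
  simp

theorem conv_self {f g : ℕ → ℕ} (hf : Supp f) (hg : Supp g) (i : Fin 6) :
    conv f g (gp i + gp i) = f (gp i) * g (gp i) := by
  rw [conv_eq hf hg]
  have h1 : ∀ i' j' : Fin 6, (if gp i' + gp j' = gp i + gp i then f (gp i') * g (gp j') else 0) =
      (if i' = i then (if j' = i then f (gp i) * g (gp i) else 0) else 0) := by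
    intro i' j'
    by_cases h : gp i' + gp j' = gp i + gp i
    · rcases gp_add_inj i i i' j' h with ⟨rfl, rfl⟩ | ⟨rfl, rfl⟩
      · simp
      · simp
    · rw [if_neg h]
      by_cases h2 : i' = i
      · subst h2
        by_cases h3 : j' = i'
        · subst h3
          exact absurd rfl h
        · simp [h3]
      · simp [h2]
  simp only [h1]
  simp

end SidCAux

theorem repn_conv {B m n : ℕ} {f g : ℕ → ℕ} (hm : RepN 18 B m f) (hn : RepN 18 B n g)
    (hf : Supp f) (hg : Supp g) : RepN 35 B (Nat.mul m n) (conv f g) := by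
  unfold RepN at *
  show m * n = _
  have e1 : m = ∑ i : Fin 6, f (gp i) * B ^ gp i := by
    rw [hm, SidCAux.sum_gp hf 18 (fun k => B ^ k)]
    exact Finset.sum_congr rfl fun i _ => if_pos (SidAux.gp_lt i)
  have e2 : n = ∑ i : Fin 6, g (gp i) * B ^ gp i := by
    rw [hn, SidCAux.sum_gp hg 18 (fun k => B ^ k)]
    exact Finset.sum_congr rfl fun i _ => if_pos (SidAux.gp_lt i)
  have e3 : ∀ k ∈ Finset.range 35, conv f g k * B ^ k = ∑ i : Fin 6, ∑ j : Fin 6,
      if k = gp i + gp j then f (gp i) * g (gp j) * B ^ (gp i + gp j) else 0 := by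
    intro k _
    rw [SidCAux.conv_eq hf hg, Finset.sum_mul]
    refine Finset.sum_congr rfl fun i _ => ?_
    rw [Finset.sum_mul]
    refine Finset.sum_congr rfl fun j _ => ?_
    by_cases h : gp i + gp j = k
    · rw [if_pos h, if_pos h.symm, h]
    · rw [if_neg h, if_neg (fun e => h e.symm), zero_mul]
  rw [Finset.sum_congr rfl e3, Finset.sum_comm]
  conv_lhs => rw [e1, e2, Finset.sum_mul_sum]
  refine Finset.sum_congr rfl fun i _ => ?_
  rw [Finset.sum_comm]
  refine Finset.sum_congr rfl fun j _ => ?_
  rw [Finset.sum_ite_eq', if_pos]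
  · rw [pow_add]
    ring
  · have h1 := SidAux.gp_lt i
    have h2 := SidAux.gp_lt j
    rw [Finset.mem_range]
    omega

theorem conv_le {f g : ℕ → ℕ} (hf : Supp f) (hg : Supp g) {a c : ℕ} (ha : ∀ i, f (gp i) ≤ a)
    (hc : ∀ i, g (gp i) ≤ c) (k : ℕ) : conv f g k ≤ 2 * (a * c) := by
  rw [SidCAux.conv_eq hf hg]
  calc ∑ i : Fin 6, ∑ j : Fin 6, (if gp i + gp j = k then f (gp i) * g (gp j) else 0)
      ≤ ∑ i : Fin 6, ∑ j : Fin 6, (if gp i + gp j = k then 1 else 0) * (a * c) := by
        refine Finset.sum_le_sum fun i _ => Finset.sum_le_sum fun j _ => ?_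
        split_ifs
        · rw [one_mul]
          exact Nat.mul_le_mul (ha i) (hc j)
        · exact Nat.zero_le _
    _ = (∑ i : Fin 6, ∑ j : Fin 6, (if gp i + gp j = k then 1 else 0)) * (a * c) := by
        rw [Finset.sum_mul]
        refine Finset.sum_congr rfl fun i _ => ?_
        rw [Finset.sum_mul]
    _ ≤ 2 * (a * c) := Nat.mul_le_mul_right _ (SidCAux.cnt' k)

theorem qdr_conv (l : Fin 6 → ℝ) {f g : ℕ → ℕ} (hf : Supp f) (hg : Supp g) :
    qdr l (conv f g) = lin l f * lin l g := by
  have h1 : ∀ i j : Fin 6, (if i ≤ j then l i * l j * (conv f g (gp i + gp j) : ℝ) else 0) =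
      (if i < j then l i * l j * ((f (gp i) : ℝ) * g (gp j) + f (gp j) * g (gp i)) else 0) +
      (if i = j then l i * l i * ((f (gp i) : ℝ) * g (gp i)) else 0) := by
    intro i j
    rcases lt_trichotomy i j with h | h | h
    · rw [if_pos h.le, if_pos h, if_neg h.ne, SidCAux.conv_ne hf hg h.ne]
      push_cast
      ring
    · subst h
      rw [if_pos le_rfl, if_neg (lt_irrefl _), if_pos rfl, SidCAux.conv_self hf hg]
      push_cast
      ring
    · rw [if_neg (not_le.2 h), if_neg (not_lt.2 h.le), if_neg h.ne']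
      ring
  unfold qdr lin
  simp only [h1]
  simp [Fin.sum_univ_six]
  ring

end Pool.Agent.Lib.EPL
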