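import Pool.Agent.Lib.EPL.Lst

/-!
# EPL.Wgt: tangents and chords of the three weights

The weights are `exp (-z)`, `gw z = exp (-z) (1 / z + 3 / (2 z ^ 2))` (file Lst) and
`hw z = exp (-z) / z`. All three are convex and decreasing on `(0, ∞)`: for `exp` directly; `gw`, `hw`
are products of positive decreasing convex functions (a product of two positive, decreasing, convex
functions is convex), or: `hw z = ∫_1^∞ exp (-(v z)) dv`, `gw z = ∫_1^∞ (1 + 3/2 (t - 1)) exp (-(t z)) dt`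
(`exp_int`, `lin_exp_int`) are integrals of convex functions: the tangent inequality
`exp (-(t z)) ≥ exp (-(t z0)) (1 - t (z - z0))` may be integrated.

Tangent: the exact tangent at `z0` is `(f z0 + d z0 * z0) - d z0 * z` with `d = -f'`; as `z > 0`, every
`a - b z` with `a ≤ f z0 + d z0 * z0`, `b ≥ d z0` lies below `f`.
Chord: for `z1 ≤ z ≤ z2`, `z1 < z2`: `z` is the convex combination of `z1, z2` with weights
`(z2 - z) / (z2 - z1)`, `(z - z1) / (z2 - z1)`.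
-/

open MeasureTheory Set Filter Topology

namespace Pool.Agent.Lib.EPL

/-- the weight of the dual value -/
noncomputable def hw (z : ℝ) : ℝ := Real.exp (-z) / z

/-- `-gw'` -/
noncomputable def gd (z : ℝ) : ℝ := Real.exp (-z) * (1 / z + 5 / (2 * z ^ 2) + 3 / z ^ 3)

/-- `-hw'` -/
noncomputable def hd (z : ℝ) : ℝ := Real.exp (-z) * (1 / z + 1 / z ^ 2)

namespace WgtAux

lemma prod_tan {A A0 A1 p p0 p1 h : ℝ} (hA : A0 + A1 * h ≤ A) (hp : p0 + p1 * h ≤ p)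
    (hA0 : 0 ≤ A0) (hp0 : 0 ≤ p0) (hs : 0 ≤ (A - A0) * (p - p0)) :
    A0 * p0 + (A1 * p0 + A0 * p1) * h ≤ A * p := by
  have h1 : 0 ≤ (A - A0 - A1 * h) * p0 := mul_nonneg (by linarith) hp0
  have h2 : 0 ≤ A0 * (p - p0 - p1 * h) := mul_nonneg hA0 (by linarith)
  nlinarith [h1, h2, hs]

lemma exp_t (z0 z : ℝ) : Real.exp (-z0) + (-Real.exp (-z0)) * (z - z0) ≤ Real.exp (-z) := by
  have h1 := Real.add_one_le_exp (-(z - z0))
  have h2 : Real.exp (-z) = Real.exp (-z0) * Real.exp (-(z - z0)) := by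
    rw [← Real.exp_add]
    congr 1
    ring
  rw [h2]
  have h3 := Real.exp_pos (-z0)
  nlinarith [mul_le_mul_of_nonneg_left h1 h3.le]

lemma exp_d {z z' : ℝ} (h : z ≤ z') : Real.exp (-z') ≤ Real.exp (-z) :=
  Real.exp_le_exp.2 (by linarith)

lemma inv_t {z0 z : ℝ} (h0 : 0 < z0) (hz : 0 < z) :
    1 / z0 + (-(1 / z0 ^ 2)) * (z - z0) ≤ 1 / z := by
  have h1 : 1 / z - (1 / z0 + (-(1 / z0 ^ 2)) * (z - z0)) = (z - z0) ^ 2 / (z * z0 ^ 2) := by
    field_simp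
    ring
  have h2 : 0 ≤ (z - z0) ^ 2 / (z * z0 ^ 2) := by positivity
  linarith

lemma inv_d {z z' : ℝ} (hz : 0 < z) (h : z ≤ z') : 1 / z' ≤ 1 / z :=
  one_div_le_one_div_of_le hz h

/-- two functions which are both decreasing -/
lemma same {f g : ℝ → ℝ} (hf : ∀ z z', 0 < z → z ≤ z' → f z' ≤ f z)
    (hg : ∀ z z', 0 < z → z ≤ z' → g z' ≤ g z) {z0 z : ℝ} (h0 : 0 < z0) (hz : 0 < z) :
    0 ≤ (f z - f z0) * (g z - g z0) := by
  rcases le_total z z0 with h | h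
  · exact mul_nonneg (by linarith [hf z z0 hz h]) (by linarith [hg z z0 hz h])
  · exact mul_nonneg_of_nonpos_of_nonpos (by linarith [hf z0 z h0 h]) (by linarith [hg z0 z h0 h])

lemma sq_t {z0 z : ℝ} (h0 : 0 < z0) (hz : 0 < z) :
    1 / z0 ^ 2 + (-(2 / z0 ^ 3)) * (z - z0) ≤ 1 / z ^ 2 := by
  have h1 := prod_tan (inv_t h0 hz) (inv_t h0 hz) (by positivity) (by positivity)
    (mul_self_nonneg _)
  have h2 : 1 / z * (1 / z) = 1 / z ^ 2 := by field_simp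
  have h3 : 1 / z0 * (1 / z0) + (-(1 / z0 ^ 2) * (1 / z0) + 1 / z0 * -(1 / z0 ^ 2)) * (z - z0) =
      1 / z0 ^ 2 + (-(2 / z0 ^ 3)) * (z - z0) := by
    field_simp
    ring
  rw [h2, h3] at h1
  exact h1

lemma sq_d {z z' : ℝ} (hz : 0 < z) (h : z ≤ z') : 1 / z' ^ 2 ≤ 1 / z ^ 2 :=
  one_div_le_one_div_of_le (by positivity) (by gcongr)

/-- the second factor of `gw` -/
noncomputable def pg (z : ℝ) : ℝ := 1 / z + 3 / (2 * z ^ 2)

lemma gw_eq (z : ℝ) : gw z = Real.exp (-z) * pg z := rfl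

lemma pg_eq {z : ℝ} (hz : 0 < z) : pg z = 1 / z + 3 / 2 * (1 / z ^ 2) := by
  unfold pg
  field_simp

lemma pg_pos {z : ℝ} (hz : 0 < z) : 0 < pg z := by
  unfold pg
  positivity

lemma pg_t {z0 z : ℝ} (h0 : 0 < z0) (hz : 0 < z) :
    pg z0 + (-(1 / z0 ^ 2 + 3 / z0 ^ 3)) * (z - z0) ≤ pg z := by
  rw [pg_eq h0, pg_eq hz]
  have h1 := inv_t h0 hz
  have h2 := sq_t h0 hz
  have h3 : 3 / z0 ^ 3 = 3 / 2 * (2 / z0 ^ 3) := by ring
  rw [h3]
  linarith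

lemma pg_d {z z' : ℝ} (hz : 0 < z) (h : z ≤ z') : pg z' ≤ pg z := by
  rw [pg_eq hz, pg_eq (hz.trans_le h)]
  have h1 := inv_d hz h
  have h2 := sq_d hz h
  linarith

lemma gw_t {z0 z : ℝ} (h0 : 0 < z0) (hz : 0 < z) : gw z0 - gd z0 * (z - z0) ≤ gw z := by
  have h1 := prod_tan (exp_t z0 z) (pg_t h0 hz) (Real.exp_pos _).le (pg_pos h0).le
    (same (f := fun z => Real.exp (-z)) (g := pg) (fun _ _ _ h => exp_d h)
      (fun _ _ hz h => pg_d hz h) h0 hz)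
  rw [gw_eq z]
  refine le_trans (le_of_eq ?_) h1
  rw [gw_eq z0]
  unfold gd pg
  field_simp
  ring

lemma hw_t {z0 z : ℝ} (h0 : 0 < z0) (hz : 0 < z) : hw z0 - hd z0 * (z - z0) ≤ hw z := by
  have h1 := prod_tan (exp_t z0 z) (inv_t h0 hz) (Real.exp_pos _).le (by positivity)
    (same (f := fun z => Real.exp (-z)) (g := fun z => 1 / z) (fun _ _ _ h => exp_d h)
      (fun _ _ hz h => inv_d hz h) h0 hz)
  have h2 : hw z = Real.exp (-z) * (1 / z) := by unfold hw; ring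
  rw [h2]
  refine le_trans (le_of_eq ?_) h1
  unfold hw hd
  field_simp
  ring

/-- from tangents to chords -/
lemma chord {f d : ℝ → ℝ} {z1 z2 u1 u2 z : ℝ}
    (ht1 : f z - d z * (z1 - z) ≤ f z1) (ht2 : f z - d z * (z2 - z) ≤ f z2)
    (h1 : f z1 ≤ u1) (h2 : f z2 ≤ u2) (hz1 : z1 ≤ z) (hz2 : z ≤ z2) :
    f z * (z2 - z1) ≤ u1 * (z2 - z) + u2 * (z - z1) := by
  have a1 : 0 ≤ z2 - z := by linarith
  have a2 : 0 ≤ z - z1 := by linarith
  have e1 := mul_le_mul_of_nonneg_right (ht1.trans h1) a1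
  have e2 := mul_le_mul_of_nonneg_right (ht2.trans h2) a2
  nlinarith [e1, e2]

end WgtAux

open WgtAux

theorem tan_exp {z0 a b z : ℝ} (ha : a ≤ Real.exp (-z0) * (1 + z0)) (hb : Real.exp (-z0) ≤ b)
    (hz : 0 ≤ z) : a - b * z ≤ Real.exp (-z) := by
  have h1 := exp_t z0 z
  have h2 := mul_le_mul_of_nonneg_right hb hz
  nlinarith [h1, h2]

theorem tan_gw {z0 a b z : ℝ} (h0 : 0 < z0) (ha : a ≤ gw z0 + gd z0 * z0) (hb : gd z0 ≤ b)
    (hz : 0 < z) : a - b * z ≤ gw z := by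
  have h1 := gw_t h0 hz
  have h2 := mul_le_mul_of_nonneg_right hb hz.le
  nlinarith [h1, h2]

theorem tan_hw {z0 a b z : ℝ} (h0 : 0 < z0) (ha : a ≤ hw z0 + hd z0 * z0) (hb : hd z0 ≤ b)
    (hz : 0 < z) : a - b * z ≤ hw z := by
  have h1 := hw_t h0 hz
  have h2 := mul_le_mul_of_nonneg_right hb hz.le
  nlinarith [h1, h2]

theorem chord_exp {z1 z2 u1 u2 z : ℝ} (h12 : z1 < z2) (h1 : Real.exp (-z1) ≤ u1)
    (h2 : Real.exp (-z2) ≤ u2) (hz1 : z1 ≤ z) (hz2 : z ≤ z2) :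
    Real.exp (-z) * (z2 - z1) ≤ u1 * (z2 - z) + u2 * (z - z1) := by
  have t1 := exp_t z z1
  have t2 := exp_t z z2
  exact chord (f := fun z => Real.exp (-z)) (d := fun z => Real.exp (-z)) (by linarith)
    (by linarith) h1 h2 hz1 hz2

theorem chord_gw {z1 z2 u1 u2 z : ℝ} (h0 : 0 < z1) (h12 : z1 < z2) (h1 : gw z1 ≤ u1)
    (h2 : gw z2 ≤ u2) (hz1 : z1 ≤ z) (hz2 : z ≤ z2) :
    gw z * (z2 - z1) ≤ u1 * (z2 - z) + u2 * (z - z1) := by
  have hz : 0 < z := h0.trans_le hz1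
  exact chord (gw_t hz h0) (gw_t hz (hz.trans_le hz2)) h1 h2 hz1 hz2

theorem chord_hw {z1 z2 u1 u2 z : ℝ} (h0 : 0 < z1) (h12 : z1 < z2) (h1 : hw z1 ≤ u1)
    (h2 : hw z2 ≤ u2) (hz1 : z1 ≤ z) (hz2 : z ≤ z2) :
    hw z * (z2 - z1) ≤ u1 * (z2 - z) + u2 * (z - z1) := by
  have hz : 0 < z := h0.trans_le hz1
  exact chord (hw_t hz h0) (hw_t hz (hz.trans_le hz2)) h1 h2 hz1 hz2

/-- the weights are positive and decreasing -/
theorem gw_pos {z : ℝ} (hz : 0 < z) : 0 < gw z := by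
  rw [gw_eq]
  exact mul_pos (Real.exp_pos _) (pg_pos hz)

theorem hw_pos {z : ℝ} (hz : 0 < z) : 0 < hw z := by
  unfold hw
  exact div_pos (Real.exp_pos _) hz

theorem gw_anti {z z' : ℝ} (hz : 0 < z) (h : z ≤ z') : gw z' ≤ gw z := by
  rw [gw_eq, gw_eq]
  exact mul_le_mul (exp_d h) (pg_d hz h) (pg_pos (hz.trans_le h)).le (Real.exp_pos _).le

theorem hw_anti {z z' : ℝ} (hz : 0 < z) (h : z ≤ z') : hw z' ≤ hw z := by
  unfold hw
  exact div_le_div₀ (Real.exp_pos _).le (exp_d h) hz h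

end Pool.Agent.Lib.EPL
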