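import Pool.Agent.Lib.EPL.Thsp
import Pool.Agent.Lib.EPL.Wgt

/-!
# EPL.Side: the direct and the dual side of a leaf

`pre_abel`: `abel` (file Abel) for the finite family consisting of the items `x ∈ L` with
`m x = c x exp (-(qf A x))`, `q x = qf A x`, and one more item (index `none` of
`Option (Fin L.length)`, or `Option` of the subtype) with `m = -M`, `q = ℓ`; `c` there is `t - 1`.
`c x exp (-(t q)) = m x exp (-((t - 1) q))`. If `M = 0` the condition for the additional item is not
needed but it is part of `Pre`.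

`side_low`: `Th_split`, `low`, and for `x` with `f x ≠ 0`: `f x exp (-(t q)) = f x exp (-q)
exp (-((t - 1) q)) ≤ f x exp (-q) exp (-((t - 1) ℓ))`.

`side_dir`: the first part is `side_low` and `pre_abel` with `W = 0`; the second is `direct_value`
(file Lst) with `M, L := 2 M, ℓ` and the items of the list (`ι = Fin L.length` or `S = L.toFinset`,
`List.sum_toFinset` with `Half.1`).

`side_dual`: `side_low` for `c = c1 + c2`; the part `c2` is at least `-W exp (-((v - 1) y0))`
(`pre_abel`), the part `c1` has one sign change (`one_sign`, with the items `c1 x > 0` in `G`, `c1 x < 0`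
in `N`). Weight `v ^ (3/2 - s)`: `rpow_weight`. The integral of
`2 (part c1) - 2 W exp y0 exp (-(v y0))` against the weight: `one_sign` twice (see `dual_type1`,
`dual_type2` in Lst for the pattern), and `min 0 (2 a) = 2 min 0 a`.
-/

open MeasureTheory Set Filter Topology Matrix
open scoped Matrix.Norms.Elementwise

namespace Pool.Agent.Lib.EPL

open Pool.Agent.Lib.EpZ Pool.Agent.Lib.EPS

/-- prefix conditions: coefficients `c`, a far group of mass `M` and length `ℓ`, allowed debt `W`,
least length of a negative item `y0` -/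
def Pre (A : Mx 3) (L : List (Fin 3 → ℤ)) (c : (Fin 3 → ℤ) → ℝ) (M W y0 ℓ : ℝ) : Prop :=
  (∀ b ∈ L, c b < 0 → y0 ≤ qf A b ∧
    -W ≤ (L.map fun x => if qf A x ≤ qf A b then c x * Real.exp (-(qf A x)) else 0).sum -
      (if ℓ ≤ qf A b then M else 0)) ∧
  y0 ≤ ℓ ∧
  -W ≤ (L.map fun x => if qf A x ≤ ℓ then c x * Real.exp (-(qf A x)) else 0).sum - M

/-- the hypotheses on one side -/
structure SideOK (A H : Mx 3) (L : List (Fin 3 → ℤ)) (c f : (Fin 3 → ℤ) → ℝ) (β τ M ℓ : ℝ) :
    Prop where
  half : Half L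
  tail : TailOK A L τ ℓ
  beta0 : 0 ≤ β
  beta : ∀ x : Fin 3 → ℤ, |qf H x| ≤ 2 * β * qf A x
  low : ∀ x ∈ L, c x - f x ≤ qf H x
  f0 : ∀ x ∈ L, 0 ≤ f x
  far : ∀ x ∈ L, f x ≠ 0 → ℓ ≤ qf A x
  mass : (L.map fun x => f x * Real.exp (-(qf A x))).sum + 2 * β * τ ≤ M

namespace SideAux

lemma sum_filter_eq {A : Mx 3} {L : List (Fin 3 → ℤ)} (hL : L.Nodup) (c : (Fin 3 → ℤ) → ℝ)
    (M ℓ r : ℝ) :
    (∑ i ∈ (Finset.insertNone L.toFinset) with
        (Option.elim i ℓ fun x => qf A x) ≤ r,
        (Option.elim i (-M) fun x => c x * Real.exp (-(qf A x)))) =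
      (L.map fun x => if qf A x ≤ r then c x * Real.exp (-(qf A x)) else 0).sum -
        (if ℓ ≤ r then M else 0) := by
  rw [Finset.sum_filter, Finset.sum_insertNone, ← List.sum_toFinset _ hL]
  simp only [Option.elim]
  split_ifs <;> ring

lemma exp_split (t q : ℝ) : Real.exp (-q) * Real.exp (-((t - 1) * q)) = Real.exp (-(t * q)) := by
  rw [← Real.exp_add]
  congr 1
  ring

end SideAux

theorem pre_abel {A : Mx 3} {L : List (Fin 3 → ℤ)} (hL : L.Nodup) {c : (Fin 3 → ℤ) → ℝ}
    {M W y0 ℓ : ℝ} (hM : 0 ≤ M) (hW : 0 ≤ W) (h : Pre A L c M W y0 ℓ) {t : ℝ} (ht : 1 ≤ t) :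
    -(W * Real.exp (-((t - 1) * y0))) ≤
      (L.map fun x => c x * Real.exp (-(t * qf A x))).sum - M * Real.exp (-((t - 1) * ℓ)) := by
  classical
  have hab := abel (Finset.insertNone L.toFinset)
    (fun i => Option.elim i (-M) fun x => c x * Real.exp (-(qf A x)))
    (fun i => Option.elim i ℓ fun x => qf A x) (W := W) (y0 := y0) (c := t - 1) hW (by linarith)
    (fun j hj hm => by
      rw [SideAux.sum_filter_eq hL c M ℓ]
      cases j with
      | none =>
        refine ⟨h.2.1, ?_⟩
        have h2 := h.2.2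
        simp only [Option.elim, le_refl, if_true]
        exact h2
      | some b =>
        have hb : b ∈ L := by
          have := Finset.mem_insertNone.1 hj b (by simp)
          exact List.mem_toFinset.1 this
        simp only [Option.elim] at hm
        have hc : c b < 0 := by
          by_contra hcon
          push Not at hcon
          exact absurd hm (not_lt.2 (mul_nonneg hcon (Real.exp_pos _).le))
        exact h.1 b hb hc)
  refine hab.trans (le_of_eq ?_)
  rw [Finset.sum_insertNone, ← List.sum_toFinset _ hL]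
  simp only [Option.elim]
  have e : ∀ x ∈ L.toFinset, c x * Real.exp (-(qf A x)) * Real.exp (-((t - 1) * qf A x)) =
      c x * Real.exp (-(t * qf A x)) := fun x _ => by
    rw [mul_assoc, SideAux.exp_split]
  rw [Finset.sum_congr rfl e]
  ring

theorem side_low {A H : Mx 3} {L : List (Fin 3 → ℤ)} {c f : (Fin 3 → ℤ) → ℝ} {β τ M ℓ : ℝ}
    (hA : PD A) (h : SideOK A H L c f β τ M ℓ) {t : ℝ} (ht : 1 ≤ t) :
    2 * ((L.map fun x => c x * Real.exp (-(t * qf A x))).sum -
      M * Real.exp (-((t - 1) * ℓ))) ≤ Th A H t := by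
  have h1 := Th_split hA H h.beta0 h.beta h.half h.tail ht
  refine le_trans ?_ h1
  have hE : 0 ≤ Real.exp (-((t - 1) * ℓ)) := (Real.exp_pos _).le
  have h2 : (L.map fun x => c x * Real.exp (-(t * qf A x))).sum ≤
      (L.map fun x => qf H x * Real.exp (-(t * qf A x)) +
        f x * Real.exp (-(qf A x)) * Real.exp (-((t - 1) * ℓ))).sum := by
    refine List.sum_le_sum fun x hx => ?_
    have h3 : c x * Real.exp (-(t * qf A x)) ≤
        (qf H x + f x) * Real.exp (-(t * qf A x)) :=
      mul_le_mul_of_nonneg_right (by linarith [h.low x hx]) (Real.exp_pos _).le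
    have h4 : f x * Real.exp (-(t * qf A x)) ≤
        f x * Real.exp (-(qf A x)) * Real.exp (-((t - 1) * ℓ)) := by
      by_cases hf : f x = 0
      · rw [hf]
        simp
      · rw [← SideAux.exp_split, ← mul_assoc]
        refine mul_le_mul_of_nonneg_left (Real.exp_le_exp.2 ?_)
          (mul_nonneg (h.f0 x hx) (Real.exp_pos _).le)
        have h5 := mul_le_mul_of_nonneg_left (h.far x hx hf) (by linarith : (0 : ℝ) ≤ t - 1)
        linarith
    linarith
  rw [List.sum_map_add, List.sum_map_mul_right] at h2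
  have h3 := mul_le_mul_of_nonneg_right h.mass hE
  nlinarith [h2, h3]

theorem side_dir {A H : Mx 3} {L : List (Fin 3 → ℤ)} {c f : (Fin 3 → ℤ) → ℝ} {β τ M y0 ℓ : ℝ}
    (hA : PD A) (hM : 0 ≤ M) (hℓ : 0 < ℓ) (h : SideOK A H L c f β τ M ℓ)
    (hp : Pre A L c M 0 y0 ℓ) :
    (∀ t : ℝ, 1 < t → 0 ≤ Th A H t) ∧
      2 * ((L.map fun x => c x * gw (qf A x)).sum - M * (1 / ℓ + 3 / (2 * ℓ ^ 2))) ≤
        ∫ t in Ioi (1 : ℝ), (1 + 3 / 2 * (t - 1)) * Th A H t := by
  have hlow : ∀ t : ℝ, 1 < t →
      2 * ((L.map fun x => c x * Real.exp (-(t * qf A x))).sum -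
        M * Real.exp (-((t - 1) * ℓ))) ≤ Th A H t := fun t ht => side_low hA h ht.le
  refine ⟨fun t ht => ?_, ?_⟩
  · have h1 := pre_abel h.half.1 hM le_rfl hp ht.le
    have h2 := hlow t ht
    simp only [zero_mul, neg_zero] at h1
    linarith
  · have h1 := direct_value hA H L.toFinset (fun x => 2 * c x) (fun x => qf A x)
      (fun x hx => hA.pos ⟨x, h.half.2.1 x (List.mem_toFinset.1 hx)⟩) (M := 2 * M) hℓ
      (fun t ht => by
        refine le_trans (le_of_eq ?_) (hlow t ht)
        rw [List.sum_toFinset _ h.half.1]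
        have e : (fun x : Fin 3 → ℤ => 2 * c x * Real.exp (-(t * qf A x))) =
            fun x => 2 * (c x * Real.exp (-(t * qf A x))) := by
          funext x
          ring
        rw [e, List.sum_map_mul_left]
        ring)
    refine le_trans (le_of_eq ?_) h1
    rw [List.sum_toFinset _ h.half.1]
    have e : (fun x : Fin 3 → ℤ => 2 * c x * gw (qf A x)) =
        fun x => 2 * (c x * gw (qf A x)) := by
      funext x
      ring
    rw [e, List.sum_map_mul_left]
    ring

theorem side_dual {A H : Mx 3} {L : List (Fin 3 → ℤ)} {c1 c2 f : (Fin 3 → ℤ) → ℝ}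
    {β τ M W y0 ρ ℓ : ℝ} (hA : PD A) (hM : 0 ≤ M) (hW : 0 ≤ W) (hy0 : 0 < y0)
    (h : SideOK A H L (fun x => c1 x + c2 x) f β τ M ℓ) (hp : Pre A L c2 M W y0 ℓ)
    (h1 : ∀ x ∈ L, 0 < c1 x → ρ ≤ qf A x) (h2 : ∀ x ∈ L, c1 x < 0 → qf A x ≤ ρ)
    {s : ℝ} (hs : 3 / 2 < s)
    (hI : IntegrableOn (fun v : ℝ => v ^ (3 / 2 - s) * Th A H v) (Ioi 1)) :
    2 * (min 0 (L.map fun x => c1 x * hw (qf A x)).sum - W / y0) ≤
      ∫ v in Ioi (1 : ℝ), v ^ (3 / 2 - s) * Th A H v := by
  classical
  have hnd := h.half.1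
  have hpos : ∀ x ∈ L.toFinset, 0 < qf A x := fun x hx =>
    hA.pos ⟨x, h.half.2.1 x (List.mem_toFinset.1 hx)⟩
  obtain ⟨w0, w1, w2⟩ := rpow_weight hs
  -- splitting of a sum over the list by the sign of the coefficients
  have hsplit : ∀ g : (Fin 3 → ℤ) → ℝ, (∑ x ∈ L.toFinset.filter (fun x => 0 < c1 x),
      2 * c1 x * g x) - (∑ x ∈ L.toFinset.filter (fun x => c1 x < 0), -(2 * c1 x) * g x) =
      2 * (L.map fun x => c1 x * g x).sum := by
    intro g
    rw [← List.sum_toFinset _ hnd, Finset.sum_filter, Finset.sum_filter,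
      ← Finset.sum_sub_distrib, Finset.mul_sum]
    refine Finset.sum_congr rfl fun x _ => ?_
    rcases lt_trichotomy (c1 x) 0 with hx | hx | hx
    · rw [if_neg (by linarith), if_pos hx]
      ring
    · rw [hx]
      simp
    · rw [if_pos hx, if_neg (by linarith)]
      ring
  obtain ⟨i1, v1⟩ := one_sign (L.toFinset.filter (fun x => 0 < c1 x))
    (L.toFinset.filter (fun x => c1 x < 0)) (fun x => 2 * c1 x) (fun x => -(2 * c1 x))
    (fun x => qf A x) (ρ := ρ)
    (fun x hx => by
      have := (Finset.mem_filter.1 hx).2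
      linarith)
    (fun x hx => by
      have := (Finset.mem_filter.1 hx).2
      linarith)
    (fun x hx => h1 x (List.mem_toFinset.1 (Finset.mem_filter.1 hx).1) (Finset.mem_filter.1 hx).2)
    (fun x hx => h2 x (List.mem_toFinset.1 (Finset.mem_filter.1 hx).1) (Finset.mem_filter.1 hx).2)
    (fun x hx => hpos x (Finset.mem_filter.1 hx).1)
    (fun x hx => hpos x (Finset.mem_filter.1 hx).1) w0 w1 w2
  obtain ⟨i2, v2⟩ := one_sign (ι := Unit) ∅ {()} (fun _ => 0)
    (fun _ => 2 * W * Real.exp y0) (fun _ => y0) (ρ := y0) (by simp)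
    (fun _ _ => by positivity) (by simp) (fun _ _ => le_rfl) (fun _ _ => hy0) (by simp) w0 w1 w2
  simp only [Finset.sum_empty, Finset.sum_singleton, zero_sub] at i2 v2
  rw [hsplit fun x => Real.exp (-(qf A x)) / qf A x] at v1
  have e1 : 2 * W * Real.exp y0 * (Real.exp (-y0) / y0) = 2 * (W / y0) := by
    have h3 : Real.exp y0 * Real.exp (-y0) = 1 := by
      rw [← Real.exp_add]
      simp
    calc 2 * W * Real.exp y0 * (Real.exp (-y0) / y0) =
          2 * (W * (Real.exp y0 * Real.exp (-y0)) / y0) := by ring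
      _ = _ := by rw [h3, mul_one]
  rw [e1, min_eq_right (by have := div_nonneg hW hy0.le; linarith)] at v2
  have e2 : (fun x : Fin 3 → ℤ => c1 x * (Real.exp (-(qf A x)) / qf A x)) =
      fun x => c1 x * hw (qf A x) := rfl
  rw [e2] at v1
  have hle : (∫ v in Ioi (1 : ℝ), (v ^ (3 / 2 - s) *
        ((∑ x ∈ L.toFinset.filter (fun x => 0 < c1 x), 2 * c1 x * Real.exp (-(v * qf A x))) -
          ∑ x ∈ L.toFinset.filter (fun x => c1 x < 0),
            -(2 * c1 x) * Real.exp (-(v * qf A x))) +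
        v ^ (3 / 2 - s) * -(2 * W * Real.exp y0 * Real.exp (-(v * y0))))) ≤
      ∫ v in Ioi (1 : ℝ), v ^ (3 / 2 - s) * Th A H v := by
    refine setIntegral_mono_on (i1.add i2) hI measurableSet_Ioi fun v hv => ?_
    have hv1 : (1 : ℝ) < v := hv
    rw [← mul_add]
    refine mul_le_mul_of_nonneg_left ?_ (w0 v hv1)
    rw [hsplit fun x => Real.exp (-(v * qf A x))]
    have h3 := side_low hA h hv1.le
    have h4 := pre_abel hnd hM hW hp hv1.le
    have e3 : (L.map fun x => (c1 x + c2 x) * Real.exp (-(v * qf A x))).sum =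
        (L.map fun x => c1 x * Real.exp (-(v * qf A x))).sum +
          (L.map fun x => c2 x * Real.exp (-(v * qf A x))).sum := by
      rw [← List.sum_map_add]
      refine congrArg List.sum (List.map_congr_left fun x _ => ?_)
      ring
    have e4 : Real.exp y0 * Real.exp (-(v * y0)) = Real.exp (-((v - 1) * y0)) := by
      rw [← Real.exp_add]
      congr 1
      ring
    have e5 : 2 * W * Real.exp y0 * Real.exp (-(v * y0)) =
        2 * (W * Real.exp (-((v - 1) * y0))) := by
      rw [← e4]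
      ring
    rw [e3] at h3
    rw [e5]
    linarith
  rw [integral_add i1 i2] at hle
  have h5 : 2 * min 0 (L.map fun x => c1 x * hw (qf A x)).sum ≤
      min 0 (2 * (L.map fun x => c1 x * hw (qf A x)).sum) := by
    rcases le_total 0 (L.map fun x => c1 x * hw (qf A x)).sum with h6 | h6
    · rw [min_eq_left h6, min_eq_left (by linarith)]
      simp
    · rw [min_eq_right h6, min_eq_right (by linarith)]
  linarith

end Pool.Agent.Lib.EPL
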