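import Pool.Agent.Lib.EPL.T1

/-!
# EPL.T1b: quantitative Poisson bounds for the one-dimensional theta functions (proofs: header of T1)
-/

namespace Pool.Agent.Lib.EPL

namespace T1bAux

/-- the Poisson constant -/
noncomputable def cc (x : ℝ) : ℝ := (Real.pi / x) ^ (1 / 2 : ℝ)

theorem cc_pos {x : ℝ} (hx : 0 < x) : 0 < cc x :=
  Real.rpow_pos_of_pos (div_pos Real.pi_pos hx) _

/-- the dual parameter -/
noncomputable def yy (x : ℝ) : ℝ := Real.pi ^ 2 / x

theorem yy_pos {x : ℝ} (hx : 0 < x) : 0 < yy x := by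
  have := Real.pi_pos
  unfold yy; positivity

theorem cc_cast {x : ℝ} (hx : 0 < x) :
    ((Real.pi / x : ℝ) : ℂ) ^ (1 / 2 : ℂ) = ((cc x : ℝ) : ℂ) := by
  have h := Complex.ofReal_cpow (div_pos Real.pi_pos hx).le (1 / 2 : ℝ)
  rw [cc, h]
  congr 1
  push_cast
  rfl

theorem hterm {x : ℝ} (hx : 0 < x) (τ : ℝ) (n : ℤ) :
    ‖Complex.exp (-Real.pi * ((Real.pi / x : ℝ) : ℂ) * n ^ 2
      + 2 * Real.pi * (-(Complex.I * τ)) * n)‖ = Real.exp (-(yy x * ((n : ℝ) + 0) ^ 2)) := by
  have e : -(Real.pi : ℂ) * ((Real.pi / x : ℝ) : ℂ) * n ^ 2 + 2 * Real.pi * (-(Complex.I * τ)) * n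
      = ((-(yy x * ((n : ℝ) + 0) ^ 2) : ℝ) : ℂ)
        + ((-(2 * Real.pi * τ * n) : ℝ) : ℂ) * Complex.I := by
    have hx' : (x : ℂ) ≠ 0 := by exact_mod_cast hx.ne'
    unfold yy
    push_cast
    field_simp
    ring
  rw [e, Complex.exp_add, norm_mul, Complex.norm_exp_ofReal_mul_I, mul_one, ← Complex.ofReal_exp,
    Complex.norm_real, Real.norm_eq_abs, abs_of_pos (Real.exp_pos _)]

/-- lower bound from Poisson summation -/
theorem lower (σ : ℝ) {x : ℝ} (hx : 0 < x) : cc x * (2 - th 0 (yy x)) ≤ th σ x := by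
  have hy := yy_pos hx
  set f : ℤ → ℂ := fun n => Complex.exp (-Real.pi * ((Real.pi / x : ℝ) : ℂ) * n ^ 2
      + 2 * Real.pi * (-(Complex.I * σ)) * n) with hf
  set g : ℤ → ℝ := fun n => Real.exp (-(yy x * ((n : ℝ) + 0) ^ 2)) with hg
  have hfg : ∀ n, ‖f n‖ = g n := fun n => hterm hx σ n
  have hgs : Summable g := summable_th 0 hy
  have hfs : Summable f := Summable.of_norm (by simpa only [hfg] using hgs)
  have h1 := hfs.tsum_eq_add_tsum_ite 0
  have h2 := hgs.tsum_eq_add_tsum_ite 0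
  have hf0 : f 0 = 1 := by simp [hf]
  have hg0 : g 0 = 1 := by simp [hg]
  have hT : th 0 (yy x) = ∑' n, g n := rfl
  have hgs' : Summable fun n => ite (n = 0) 0 (g n) := by
    refine Summable.of_nonneg_of_le (fun n => ?_) (fun n => ?_) hgs
    · split_ifs
      · exact le_rfl
      · exact (Real.exp_pos _).le
    · split_ifs
      · exact (Real.exp_pos _).le
      · exact le_rfl
  have hn : ∀ n : ℤ, ‖(ite (n = 0) 0 (f n) : ℂ)‖ = ite (n = 0) 0 (g n) := by
    intro n
    split_ifs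
    · simp
    · exact hfg n
  have h3 : ‖∑' n, ite (n = 0) 0 (f n)‖ ≤ th 0 (yy x) - 1 := by
    have h4 := norm_tsum_le_tsum_norm (f := fun n : ℤ => (ite (n = 0) 0 (f n) : ℂ))
      (by simpa only [hn] using hgs')
    simp only [hn] at h4
    rw [hT, h2, hg0]
    linarith
  have h5 : ((th σ x : ℝ) : ℂ) - ((cc x : ℝ) : ℂ) = ((cc x : ℝ) : ℂ) * ∑' n, ite (n = 0) 0 (f n) := by
    rw [T1Aux.poisson σ hx, cc_cast hx]
    change ((cc x : ℝ) : ℂ) * (∑' n, f n) - _ = _
    rw [h1, hf0]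
    ring
  have h6 : |th σ x - cc x| ≤ cc x * (th 0 (yy x) - 1) := by
    have h7 := congrArg (‖·‖) h5
    simp only [norm_mul] at h7
    rw [← Complex.ofReal_sub, Complex.norm_real, Complex.norm_real, Real.norm_eq_abs,
      Real.norm_eq_abs, abs_of_pos (cc_pos hx)] at h7
    rw [h7]
    exact mul_le_mul_of_nonneg_left h3 (cc_pos hx).le
  have h8 := (abs_le.mp h6).1
  linarith

/-- Poisson summation without shift -/
theorem zero {x : ℝ} (hx : 0 < x) : th 0 x = cc x * th 0 (yy x) := by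
  have h := Real.tsum_exp_neg_mul_int_sq (div_pos Real.pi_pos hx)
  have e1 : (∑' n : ℤ, Real.exp (-Real.pi * (Real.pi / x) * (n : ℝ) ^ 2)) = th 0 (yy x) := by
    unfold th yy
    apply tsum_congr
    intro n
    congr 1
    ring
  have hp := Real.pi_pos
  have e2 : (∑' n : ℤ, Real.exp (-Real.pi / (Real.pi / x) * (n : ℝ) ^ 2)) = th 0 x := by
    unfold th
    apply tsum_congr
    intro n
    congr 1
    field_simp
    ring
  rw [e1, e2] at h
  rw [h]
  have : (Real.pi / x) ^ (1 / 2 : ℝ) = cc x := rfl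
  rw [this]
  have := cc_pos hx
  field_simp

theorem exp_neg_three : Real.exp (-(3 : ℝ)) ≤ 1 / 19 := by
  have h2 : Real.exp (-(3 : ℝ)) = (Real.exp 1 ^ 3)⁻¹ := by
    rw [← Real.exp_nat_mul, ← Real.exp_neg]; congr 1; norm_num
  have h4 : (2.7 : ℝ) ≤ Real.exp 1 := by
    have := Real.exp_one_gt_d9; linarith
  have h3 : (19 : ℝ) ≤ Real.exp 1 ^ 3 := by
    calc (19 : ℝ) ≤ 2.7 ^ 3 := by norm_num
      _ ≤ _ := pow_le_pow_left₀ (by norm_num) h4 3
  rw [h2, one_div]
  exact inv_anti₀ (by norm_num) h3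

theorem exp_neg_eight : Real.exp (-(8 : ℝ)) ≤ 1 / 2800 := by
  have h2 : Real.exp (-(8 : ℝ)) = (Real.exp 1 ^ 8)⁻¹ := by
    rw [← Real.exp_nat_mul, ← Real.exp_neg]; congr 1; norm_num
  have h4 : (2.7 : ℝ) ≤ Real.exp 1 := by
    have := Real.exp_one_gt_d9; linarith
  have h3 : (2800 : ℝ) ≤ Real.exp 1 ^ 8 := by
    calc (2800 : ℝ) ≤ 2.7 ^ 8 := by norm_num
      _ ≤ _ := pow_le_pow_left₀ (by norm_num) h4 8
  rw [h2, one_div]
  exact inv_anti₀ (by norm_num) h3

/-- `th 0 y ≤ 1.11` for `y ≥ 3` -/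
theorem up3 {y : ℝ} (hy : 3 ≤ y) : th 0 y ≤ 1 + 201 / 1900 := by
  have h := th_upper (x := y) (by linarith)
  have h1 : Real.exp (-y) ≤ 1 / 19 := (Real.exp_le_exp.mpr (by linarith)).trans exp_neg_three
  linarith

theorem up8 {y : ℝ} (hy : 8 ≤ y) : th 0 y ≤ 1 + 201 / 280000 := by
  have h := th_upper (x := y) (by linarith)
  have h1 : Real.exp (-y) ≤ 1 / 2800 := (Real.exp_le_exp.mpr (by linarith)).trans exp_neg_eight
  linarith

theorem th_ge_one {y : ℝ} (hy : 0 < y) : 1 ≤ th 0 y := by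
  have h := (summable_th 0 hy).le_tsum (0 : ℤ) (fun _ _ => (Real.exp_pos _).le)
  have e : Real.exp (-(y * (((0 : ℤ) : ℝ) + 0) ^ 2)) = 1 := by simp
  rw [e] at h
  exact h

/-- one term -/
theorem one_term (σ : ℝ) {x : ℝ} (hx : 0 < x) : Real.exp (-(x / 4)) ≤ th σ x := by
  have h := (summable_th σ hx).le_tsum (-(round σ)) (fun _ _ => (Real.exp_pos _).le)
  refine le_trans ?_ h
  apply Real.exp_le_exp.mpr
  have h1 : |σ - round σ| ≤ 1 / 2 := abs_sub_round σ
  have h2 : (((-(round σ) : ℤ) : ℝ) + σ) ^ 2 ≤ 1 / 4 := by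
    push_cast
    have h3 := abs_le.mp h1
    nlinarith [h3.1, h3.2]
  have := mul_le_mul_of_nonneg_left h2 hx.le
  linarith

/-- difference quotient bound -/
theorem diff {x h : ℝ} (hx : 0 < x) (hh : 0 < h) :
    th 0 x - th 0 ((1 + h) * x) ≤ h * th2 0 x := by
  have hx' : 0 < (1 + h) * x := by positivity
  have s1 := summable_th 0 hx
  have s2 := summable_th 0 hx'
  have s3 := (summable_th2 0 hx).mul_left h
  unfold th th2
  rw [← tsum_mul_left, ← s1.tsum_sub s2]
  refine (s1.sub s2).tsum_le_tsum (fun k => ?_) s3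
  set p : ℝ := x * ((k : ℝ) + 0) ^ 2 with hp
  have e : (1 + h) * x * ((k : ℝ) + 0) ^ 2 = p + h * p := by rw [hp]; ring
  rw [e]
  have h1 : Real.exp (-(p + h * p)) = Real.exp (-p) * Real.exp (-(h * p)) := by
    rw [← Real.exp_add]; congr 1; ring
  rw [h1]
  have h2 := Real.add_one_le_exp (-(h * p))
  have h3 := mul_le_mul_of_nonneg_left h2 (Real.exp_pos (-p)).le
  nlinarith

end T1bAux

open T1bAux in
/-- the theta function with shift is not too small -/
theorem le_th (σ : ℝ) {x : ℝ} (hx : 0 < x) : 9 / 10 * Real.exp (-(x / 4)) * th 0 x ≤ th σ x := by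
  have hpi := Real.pi_gt_three
  rcases le_total 3 x with h3 | h3
  · -- large `x`
    have h1 := one_term σ hx
    have h2 := up3 h3
    have h4 := Real.exp_pos (-(x / 4))
    have h5 : 9 / 10 * th 0 x ≤ 1 := by linarith
    nlinarith
  · have hl := lower σ hx
    rw [zero hx]
    have hc := cc_pos hx
    set T := th 0 (yy x) with hT
    have hT1 : 1 ≤ T := th_ge_one (yy_pos hx)
    refine le_trans ?_ hl
    have key : 9 / 10 * Real.exp (-(x / 4)) * T ≤ 2 - T := by
      rcases le_total 1 x with h1 | h1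
      · have hy : 3 ≤ yy x := by
          unfold yy
          rw [le_div_iff₀ hx]
          nlinarith
        have h2 := up3 hy
        have h4 : Real.exp (-(x / 4)) ≤ 4 / 5 := by
          have h5 : Real.exp (-(x / 4)) ≤ Real.exp (-(1 / 4)) := Real.exp_le_exp.mpr (by linarith)
          have h6 : Real.exp (-(1 / 4 : ℝ)) ≤ 4 / 5 := by
            rw [Real.exp_neg]
            have h7 := Real.add_one_le_exp (1 / 4 : ℝ)
            have : (4 / 5 : ℝ) = (5 / 4)⁻¹ := by norm_num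
            rw [this]
            exact inv_anti₀ (by norm_num) (by linarith)
          linarith
        have h8 := Real.exp_pos (-(x / 4))
        nlinarith
      · have hy : 8 ≤ yy x := by
          unfold yy
          rw [le_div_iff₀ hx]
          nlinarith
        have h2 := up8 hy
        have h4 : Real.exp (-(x / 4)) ≤ 1 := Real.exp_le_one_iff.mpr (by linarith)
        have h8 := Real.exp_pos (-(x / 4))
        nlinarith
    calc 9 / 10 * Real.exp (-(x / 4)) * (cc x * T) = cc x * (9 / 10 * Real.exp (-(x / 4)) * T) := by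
          ring
      _ ≤ _ := mul_le_mul_of_nonneg_left key hc.le

namespace T1bAux

/-- the summand of `th2 - q th` -/
theorem direct {x : ℝ} (hx : 1 ≤ x) (hx2 : x ≤ 2) : 42 / 100 * th 0 x ≤ th2 0 x := by
  have hx0 : 0 < x := by linarith
  have hE : 42 / 100 * (1 + 2 * Real.exp (-x)) ≤ 2 * x * Real.exp (-x) := by
    -- `0.42 e^x ≤ 2 x - 0.84` by convexity
    have h1 : Real.exp x ≤ (2 - x) * Real.exp 1 + (x - 1) * Real.exp 2 := by
      have h := convexOn_exp.2 (Set.mem_univ (1 : ℝ)) (Set.mem_univ (2 : ℝ))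
        (by linarith : (0 : ℝ) ≤ 2 - x) (by linarith : (0 : ℝ) ≤ x - 1) (by ring)
      simp only [smul_eq_mul] at h
      have e : (2 - x) * 1 + (x - 1) * 2 = x := by ring
      rwa [e] at h
    have h2 : Real.exp 1 ≤ 2.7183 := by
      have := Real.exp_one_lt_d9; linarith
    have h3 : Real.exp 2 ≤ 7.3892 := by
      have : Real.exp 2 = Real.exp 1 * Real.exp 1 := by rw [← Real.exp_add]; norm_num
      rw [this]
      have := Real.exp_one_lt_d9
      have := Real.exp_pos 1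
      nlinarith
    have h4 : 42 / 100 * Real.exp x ≤ 2 * x - 84 / 100 := by
      have h5 := mul_le_mul_of_nonneg_left h2 (by linarith : (0 : ℝ) ≤ 2 - x)
      have h6 := mul_le_mul_of_nonneg_left h3 (by linarith : (0 : ℝ) ≤ x - 1)
      nlinarith
    have h7 : Real.exp (-x) * Real.exp x = 1 := by rw [← Real.exp_add]; simp
    have h8 := mul_le_mul_of_nonneg_left h4 (Real.exp_pos (-x)).le
    nlinarith
  have s1 := summable_th 0 hx0
  have s2 := summable_th2 0 hx0
  have s3 := s2.sub (s1.mul_left (42 / 100))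
  have hsum : ∑ k ∈ ({-1, 0, 1} : Finset ℤ), (x * ((k : ℝ) + 0) ^ 2 * Real.exp (-(x * ((k : ℝ) + 0) ^ 2))
      - 42 / 100 * Real.exp (-(x * ((k : ℝ) + 0) ^ 2))) =
      2 * x * Real.exp (-x) - 42 / 100 * (1 + 2 * Real.exp (-x)) := by
    rw [Finset.sum_insert (by decide), Finset.sum_insert (by decide), Finset.sum_singleton]
    push_cast
    simp
    ring
  have h0 : 0 ≤ ∑' k : ℤ, (x * ((k : ℝ) + 0) ^ 2 * Real.exp (-(x * ((k : ℝ) + 0) ^ 2))
      - 42 / 100 * Real.exp (-(x * ((k : ℝ) + 0) ^ 2))) := by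
    have h := s3.sum_le_tsum ({-1, 0, 1} : Finset ℤ) (fun k hk => ?_)
    · rw [hsum] at h
      linarith
    · have hk2 : (1 : ℝ) ≤ (k : ℝ) ^ 2 := by
        have : k ≠ 0 := by
          rintro rfl; simp at hk
        have h1 : (1 : ℤ) ≤ k ^ 2 := by
          have := sq_pos_of_ne_zero this
          omega
        exact_mod_cast h1
      have hp := Real.exp_pos (-(x * ((k : ℝ) + 0) ^ 2))
      have h5 : 42 / 100 ≤ x * ((k : ℝ) + 0) ^ 2 := by
        rw [add_zero]; nlinarith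
      have h6 := mul_le_mul_of_nonneg_right h5 hp.le
      linarith
  rw [s2.tsum_sub (s1.mul_left (42 / 100)), tsum_mul_left] at h0
  unfold th th2
  linarith

end T1bAux

open T1bAux in
theorem th2_lower' {x : ℝ} (hx : 0 < x) (hx2 : x ≤ 2) : 42 / 100 * th 0 x ≤ th2 0 x := by
  rcases le_total 1 x with h1 | h1
  · exact direct h1 hx2
  have hpi := Real.pi_gt_three
  have hd := diff hx (h := 21 / 100) (by norm_num)
  have hx' : 0 < (1 + 21 / 100) * x := by positivity
  rw [zero hx'] at hd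
  rw [zero hx] at hd ⊢
  have hc := cc_pos hx
  have e1 : cc ((1 + 21 / 100) * x) = cc x / (11 / 10) := by
    unfold cc
    have : Real.pi / ((1 + 21 / 100) * x) = Real.pi / x / (11 / 10) ^ 2 := by
      field_simp; norm_num
    rw [this, Real.div_rpow (div_pos Real.pi_pos hx).le (by norm_num)]
    congr 1
    rw [← Real.sqrt_eq_rpow, Real.sqrt_sq (by norm_num)]
  rw [e1] at hd
  have hT1 : 1 ≤ th 0 (yy x) := th_ge_one (yy_pos hx)
  have hT2 : th 0 (yy x) ≤ 1 + 201 / 280000 := up8 (by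
    unfold yy; rw [le_div_iff₀ hx]; nlinarith)
  have hT3 : th 0 (yy ((1 + 21 / 100) * x)) ≤ 1 + 201 / 280000 := up8 (by
    have := Real.pi_gt_d2
    unfold yy; rw [le_div_iff₀ hx']; nlinarith)
  have h2 : cc x * th 0 (yy x) - cc x / (11 / 10) * th 0 (yy ((1 + 21 / 100) * x))
      ≥ cc x * (th 0 (yy x) - 10 / 11 * (1 + 201 / 280000)) := by
    have := mul_le_mul_of_nonneg_left hT3 hc.le
    nlinarith
  have h3 : 21 / 100 * (42 / 100 * (cc x * th 0 (yy x)))
      ≤ cc x * (th 0 (yy x) - 10 / 11 * (1 + 201 / 280000)) := by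
    have : 21 / 100 * (42 / 100 * th 0 (yy x)) ≤ th 0 (yy x) - 10 / 11 * (1 + 201 / 280000) := by
      linarith
    have := mul_le_mul_of_nonneg_left this hc.le
    linarith
  linarith

end Pool.Agent.Lib.EPL
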