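import Pool.Agent.Lib.EPL.Lst
import Pool.Agent.Lib.EPS.Vsum

/-!
# EPL.Thsp: the theta sum and a half system of vectors

`Th A H t = ∑' x, A-weighted`: the sum over all integer vectors splits into `x = 0` (zero), the
vectors of the list `L`, their opposites (disjoint by `Half`; `qf_even` in EPS/Vsum) and the vectors
outside (`Out`). For the latter `|qf H x exp (-(t qf A x))| ≤ 2 β qf A x exp (-(t qf A x))`, and the sum is at
most `2 β (2 τ exp (-((t - 1) ℓ)))`. Summability: `summable_Th hA H`, `summable_Th hA A`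
(`Summable.subtype`, `Summable.tsum_subtype_add_tsum_subtype_compl` or
`tsum_eq_sum_add…`; compare `half_le` in EPS/Vsum).
-/

open MeasureTheory Set Filter Topology Matrix
open scoped Matrix.Norms.Elementwise

namespace Pool.Agent.Lib.EPL

open Pool.Agent.Lib.EpZ Pool.Agent.Lib.EPS

/-- a half system of vectors: no repetition, no zero vector, no pair of opposite vectors -/
def Half (L : List (Fin 3 → ℤ)) : Prop :=
  L.Nodup ∧ (∀ x ∈ L, x ≠ 0) ∧ ∀ x ∈ L, -x ∉ L

/-- the nonzero vectors outside a half system and its opposite -/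
def Out (L : List (Fin 3 → ℤ)) (x : Fin 3 → ℤ) : Prop := x ≠ 0 ∧ x ∉ L ∧ -x ∉ L

/-- the vectors outside contribute at most `2 τ exp (-ℓ (t - 1))` -/
def TailOK (A : Mx 3) (L : List (Fin 3 → ℤ)) (τ ℓ : ℝ) : Prop :=
  ∀ t : ℝ, 1 ≤ t → ∑' x : {x : Fin 3 → ℤ // Out L x}, qf A x.1 * Real.exp (-(t * qf A x.1)) ≤
    2 * τ * Real.exp (-((t - 1) * ℓ))

namespace ThspAux

theorem sum_list (f : (Fin 3 → ℤ) → ℝ) (hfe : ∀ x, f (-x) = f x) (hf0 : f 0 = 0)
    {L : List (Fin 3 → ℤ)} (hL : Half L) :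
    ∑ x ∈ insert 0 (L.toFinset ∪ L.toFinset.image (fun x => -x)), f x = 2 * (L.map f).sum := by
  classical
  obtain ⟨h1, h2, h3⟩ := hL
  have hA : (L.map f).sum = ∑ x ∈ L.toFinset, f x := (List.sum_toFinset f h1).symm
  have hB : ∑ x ∈ L.toFinset.image (fun x => -x), f x = ∑ x ∈ L.toFinset, f x := by
    rw [Finset.sum_image (fun a _ b _ h => neg_injective h)]
    exact Finset.sum_congr rfl fun x _ => hfe x
  have hdis : Disjoint L.toFinset (L.toFinset.image (fun x => -x)) := by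
    rw [Finset.disjoint_left]
    intro a ha hb
    obtain ⟨b, hb1, hb2⟩ := Finset.mem_image.mp hb
    have e1 : a ∈ L := List.mem_toFinset.mp ha
    have e2 : b ∈ L := List.mem_toFinset.mp hb1
    have e3 : -a = b := by rw [← hb2, neg_neg]
    exact h3 a e1 (e3 ▸ e2)
  have hnz : (0 : Fin 3 → ℤ) ∉ L.toFinset ∪ L.toFinset.image (fun x => -x) := by
    intro hx
    rcases Finset.mem_union.mp hx with hx | hx
    · exact h2 0 (List.mem_toFinset.mp hx) rfl
    · obtain ⟨b, hb1, hb2⟩ := Finset.mem_image.mp hx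
      exact h2 b (List.mem_toFinset.mp hb1) (neg_eq_zero.mp hb2)
  rw [Finset.sum_insert hnz, hf0, Finset.sum_union hdis, hB, hA]
  ring

theorem out_iff (L : List (Fin 3 → ℤ)) (x : Fin 3 → ℤ) :
    Out L x ↔ x ∉ insert 0 (L.toFinset ∪ L.toFinset.image (fun x => -x)) := by
  classical
  unfold Out
  rw [Finset.mem_insert, Finset.mem_union, Finset.mem_image, List.mem_toFinset]
  constructor
  · rintro ⟨h1, h2, h3⟩ (h | h | ⟨b, hb, rfl⟩)
    · exact h1 h
    · exact h2 h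
    · rw [neg_neg] at h3
      exact h3 (List.mem_toFinset.mp hb)
  · intro h
    refine ⟨fun h' => h (Or.inl h'), fun h' => h (Or.inr (Or.inl h')), fun h' => ?_⟩
    exact h (Or.inr (Or.inr ⟨-x, List.mem_toFinset.mpr h', neg_neg x⟩))

theorem mul_exp_anti {a b : ℝ} (ha : 1 ≤ a) (hab : a ≤ b) :
    b * Real.exp (-b) ≤ a * Real.exp (-a) := by
  have h1 := Real.add_one_le_exp (b - a)
  have h2 : Real.exp (-a) = Real.exp (b - a) * Real.exp (-b) := by
    rw [← Real.exp_add]; congr 1; ring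
  have h3 : b ≤ a * Real.exp (b - a) := by nlinarith
  calc b * Real.exp (-b) ≤ (a * Real.exp (b - a)) * Real.exp (-b) :=
        mul_le_mul_of_nonneg_right h3 (Real.exp_pos _).le
    _ = a * Real.exp (-a) := by rw [h2]; ring

end ThspAux

open ThspAux

theorem Th_split {A : Mx 3} (hA : PD A) (H : Mx 3) {β τ ℓ : ℝ} (hβ0 : 0 ≤ β)
    (hβ : ∀ x : Fin 3 → ℤ, |qf H x| ≤ 2 * β * qf A x) {L : List (Fin 3 → ℤ)} (hL : Half L)
    (hT : TailOK A L τ ℓ) {t : ℝ} (ht : 1 ≤ t) :
    2 * ((L.map fun x => qf H x * Real.exp (-(t * qf A x))).sum -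
      2 * β * τ * Real.exp (-((t - 1) * ℓ))) ≤ Th A H t := by
  classical
  have ht0 : 0 < t := by linarith
  set f : (Fin 3 → ℤ) → ℝ := fun x => qf H x * Real.exp (-(t * qf A x)) with hf
  set g : (Fin 3 → ℤ) → ℝ := fun x => qf A x * Real.exp (-(t * qf A x)) with hg
  have hfs : Summable f := summable_Th hA H ht0
  have hgs : Summable g := summable_Th hA A ht0
  have hfe : ∀ x, f (-x) = f x := fun x => by simp only [hf, VsumAux.qf_even]
  have hf0 : f 0 = 0 := by simp only [hf, qf_zero, zero_mul]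
  set S : Finset (Fin 3 → ℤ) := insert 0 (L.toFinset ∪ L.toFinset.image (fun x => -x)) with hS
  have hset : {x | Out L x} = ((S : Set (Fin 3 → ℤ)))ᶜ := by
    ext x
    rw [Set.mem_compl_iff, Finset.mem_coe]
    exact out_iff L x
  have hsplit : ∑ x ∈ S, f x + ∑' x : {x : Fin 3 → ℤ // Out L x}, f x.1 = Th A H t := by
    have h1 := hfs.sum_add_tsum_compl (s := S)
    rw [← hset] at h1
    exact h1
  have hle : ∀ x : {x : Fin 3 → ℤ // Out L x}, -(2 * β * g x.1) ≤ f x.1 := by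
    intro x
    have h1 := hβ x.1
    have h2 := (abs_le.mp h1).1
    have h3 := Real.exp_pos (-(t * qf A x.1))
    simp only [hf, hg]
    nlinarith
  have hgs' : Summable fun x : {x : Fin 3 → ℤ // Out L x} => g x.1 := hgs.subtype _
  have hfs' : Summable fun x : {x : Fin 3 → ℤ // Out L x} => f x.1 := hfs.subtype _
  have h4 : -(2 * β * ∑' x : {x : Fin 3 → ℤ // Out L x}, g x.1) ≤
      ∑' x : {x : Fin 3 → ℤ // Out L x}, f x.1 := by
    rw [← tsum_mul_left, ← tsum_neg]
    exact (hgs'.mul_left (2 * β)).neg.tsum_le_tsum hle hfs'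
  have h5 : ∑' x : {x : Fin 3 → ℤ // Out L x}, g x.1 ≤ 2 * τ * Real.exp (-((t - 1) * ℓ)) :=
    hT t ht
  have h6 : 2 * β * ∑' x : {x : Fin 3 → ℤ // Out L x}, g x.1 ≤
      2 * β * (2 * τ * Real.exp (-((t - 1) * ℓ))) :=
    mul_le_mul_of_nonneg_left h5 (by positivity)
  rw [← hsplit, hS, sum_list f hfe hf0 hL]
  linarith

/-- the tail condition from pointwise lower bounds `T x ≥ ℓ ≥ 1` outside the list -/
theorem tailOK_of {A : Mx 3} (hA : PD A) {L : List (Fin 3 → ℤ)} {τ ℓ : ℝ} (T : (Fin 3 → ℤ) → ℝ)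
    (hℓ : 1 ≤ ℓ) (h12 : ∀ x, Out L x → ℓ ≤ T x) (hT : ∀ x, Out L x → T x ≤ qf A x)
    (hs : Summable fun x : {x : Fin 3 → ℤ // Out L x} => T x.1 * Real.exp (-(T x.1)))
    (hτ : ∑' x : {x : Fin 3 → ℤ // Out L x}, T x.1 * Real.exp (-(T x.1)) ≤ 2 * τ) :
    TailOK A L τ ℓ := by
  -- `q exp (-q)` decreases for `q ≥ 1`, and `exp (-(t q)) = exp (-q) exp (-((t - 1) q))`,
  -- `exp (-((t - 1) q)) ≤ exp (-((t - 1) ℓ))`
  intro t ht
  have hle : ∀ x : {x : Fin 3 → ℤ // Out L x}, qf A x.1 * Real.exp (-(t * qf A x.1)) ≤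
      T x.1 * Real.exp (-(T x.1)) * Real.exp (-((t - 1) * ℓ)) := by
    intro x
    have h1 := h12 x.1 x.2
    have h2 := hT x.1 x.2
    have h3 : Real.exp (-(t * qf A x.1)) =
        Real.exp (-(qf A x.1)) * Real.exp (-((t - 1) * qf A x.1)) := by
      rw [← Real.exp_add]; congr 1; ring
    have h4 : Real.exp (-((t - 1) * qf A x.1)) ≤ Real.exp (-((t - 1) * ℓ)) := by
      refine Real.exp_le_exp.mpr ?_
      have : (t - 1) * ℓ ≤ (t - 1) * qf A x.1 :=
        mul_le_mul_of_nonneg_left (by linarith) (by linarith)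
      linarith
    rw [h3, ← mul_assoc]
    refine mul_le_mul (mul_exp_anti (by linarith) h2) h4 (Real.exp_pos _).le ?_
    exact mul_nonneg (by linarith) (Real.exp_pos _).le
  have hgs : Summable fun x : {x : Fin 3 → ℤ // Out L x} =>
      qf A x.1 * Real.exp (-(t * qf A x.1)) :=
    (summable_Th hA A (by linarith : 0 < t)).subtype _
  calc ∑' x : {x : Fin 3 → ℤ // Out L x}, qf A x.1 * Real.exp (-(t * qf A x.1)) ≤
        ∑' x : {x : Fin 3 → ℤ // Out L x},
          T x.1 * Real.exp (-(T x.1)) * Real.exp (-((t - 1) * ℓ)) :=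
        hgs.tsum_le_tsum hle (hs.mul_right _)
    _ = (∑' x : {x : Fin 3 → ℤ // Out L x}, T x.1 * Real.exp (-(T x.1))) *
          Real.exp (-((t - 1) * ℓ)) := tsum_mul_right
    _ ≤ 2 * τ * Real.exp (-((t - 1) * ℓ)) :=
        mul_le_mul_of_nonneg_right hτ (Real.exp_pos _).le

end Pool.Agent.Lib.EPL
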