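import Pool.Agent.Lib.EPS.Top
import Pool.Agent.Lib.FCC.Main
import Pool.Agent.Lib.EpZ.LatB
import Pool.Agent.Lib.EPL.BDef

/-!
# The classification of the local minima in dimension three from its building blocks
-/

open Matrix
open scoped Matrix.Norms.Elementwise

namespace Pool.Agent.Lib.EPL

open Pool.Agent.Lib.EpZ Pool.Agent.Lib.FCC Pool.Agent.Lib.EPS

/-- The body-centred cubic lattice of determinant one: the vectors `2^(-2/3) x`, `x` an integral
vector whose coordinates have the same parity. -/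
def bcc : Set (EuclideanSpace ℝ (Fin 3)) :=
  {v | ∃ x : Fin 3 → ℤ, Even (x 0 - x 1) ∧ Even (x 1 - x 2) ∧
    ∀ i, v i = (2 : ℝ) ^ (-(2 : ℝ) / 3) * (x i : ℝ)}

/-- the building blocks of the classification, for the region `SR` and the exponent `s0` -/
structure Blocks (SR : (Fin 6 → ℝ) → Prop) (s0 : ℝ) : Prop where
  tree : ∀ l : Fin 6 → ℝ, 0 ≤ l 0 → (∀ i, l 0 ≤ l i) → l 3 ≤ l 2 → l 4 ≤ l 2 → l 5 ≤ l 2 →
    0 < dt l → ∀ s : ℝ, 3 / 2 < s → LocMin s (formOf l) → SR l
  slem : ∀ l : Fin 6 → ℝ, (∀ i, 0 ≤ l i) → 0 < dt l → SR l → ∀ s : ℝ, 3 / 2 < s →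
    LocMin s (formOf l) → l 0 = l 1 ∧ l 2 = l 3 ∧ l 4 = l 5
  bco : ∀ a b c : ℝ, 0 ≤ a → 0 ≤ b → 0 ≤ c → 0 < dt ![a, a, b, b, c, c] → SR ![a, a, b, b, c, c] →
    ∀ s : ℝ, 3 / 2 < s → LocMin s (formOf ![a, a, b, b, c, c]) → a = b ∨ b = c ∨ a = c
  seg : ∀ p q : ℝ, 0 < p → p < q → ∀ s : ℝ, 3 / 2 < s → ¬ LocMin s (formOf ![p, p, q, q, q, q])
  ridge : ∀ p q : ℝ, 0 < q → q < p → SR ![q, q, p, p, q, q] → ∀ s : ℝ, 3 / 2 < s →
    ¬ LocMin s (formOf ![q, q, p, p, q, q])
  bcc : ∀ s : ℝ, 3 / 2 < s → (LocMin s Qb ↔ s < s0)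

namespace TopLAux

/-- the scaling factor -/
noncomputable def c : ℝ := (2 : ℝ) ^ (-(2 : ℝ) / 3)

/-- a basis of the body-centred cubic lattice -/
def M1 : Mx 3 := !![1, 1, -1; 1, -1, 1; -1, 1, 1]

/-- a basis of the body-centred cubic lattice of determinant one -/
noncomputable def B1 : Mx 3 := c • M1

lemma c_pos : 0 < c := Real.rpow_pos_of_pos (by norm_num) _

lemma c_cube : c ^ 3 = 1 / 4 := by
  unfold c
  rw [← Real.rpow_natCast, ← Real.rpow_mul (by norm_num)]
  have : -(2 : ℝ) / 3 * ((3 : ℕ) : ℝ) = -(2 : ℕ) := by push_cast; ring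
  rw [this, Real.rpow_neg (by norm_num), Real.rpow_natCast]
  norm_num

lemma det_M1 : M1.det = -4 := by
  unfold M1
  rw [Matrix.det_fin_three]
  simp only [Matrix.of_apply, Matrix.cons_val', Matrix.cons_val_zero, Matrix.cons_val_one,
    Matrix.cons_val, Matrix.cons_val_fin_one]
  norm_num

lemma det_B1 : |B1.det| = 1 := by
  unfold B1
  rw [Matrix.det_smul, Fintype.card_fin, c_cube, det_M1]
  norm_num

lemma gram_M1 : EpZ.gram M1 = Qb := by
  unfold EpZ.gram M1 Qb
  ext i j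
  fin_cases i <;> fin_cases j <;>
    simp [Matrix.mul_apply, Fin.sum_univ_three] <;> norm_num

lemma gram_B1 : EpZ.gram B1 = (c ^ 2) • Qb := by
  unfold B1
  rw [← gram_M1]
  unfold EpZ.gram
  rw [Matrix.transpose_smul, Matrix.smul_mul, Matrix.mul_smul, smul_smul, pow_two]

lemma bcc_eq : bcc = lat B1 := by
  ext v
  have key : ∀ (x : Fin 3 → ℤ) (i : Fin 3), ∑ j, B1 i j * (x j : ℝ) =
      c * (((![x 0 + x 1 - x 2, x 0 - x 1 + x 2, -x 0 + x 1 + x 2] : Fin 3 → ℤ) i : ℤ) : ℝ) := by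
    intro x i
    unfold B1 M1
    fin_cases i
    · simp [Fin.sum_univ_three]
      ring
    · simp [Fin.sum_univ_three]
      ring
    · simp [Fin.sum_univ_three]
      ring
  constructor
  · rintro ⟨X, ⟨k, hk⟩, ⟨m, hm⟩, hv⟩
    refine ⟨![X 1 + k, X 2 + k + m, X 2 + m], fun i => ?_⟩
    rw [key, hv i]
    congr 2
    fin_cases i
    · show X 0 = (X 1 + k) + (X 2 + k + m) - (X 2 + m)
      omega
    · show X 1 = (X 1 + k) - (X 2 + k + m) + (X 2 + m)
      omega
    · show X 2 = -(X 1 + k) + (X 2 + k + m) + (X 2 + m)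
      omega
  · rintro ⟨x, hv⟩
    refine ⟨![x 0 + x 1 - x 2, x 0 - x 1 + x 2, -x 0 + x 1 + x 2], ⟨x 1 - x 2, ?_⟩,
      ⟨x 0 - x 1, ?_⟩, fun i => ?_⟩
    · show x 0 + x 1 - x 2 - (x 0 - x 1 + x 2) = x 1 - x 2 + (x 1 - x 2)
      ring
    · show x 0 - x 1 + x 2 - (-x 0 + x 1 + x 2) = x 0 - x 1 + (x 0 - x 1)
      ring
    · rw [hv i, key]
      rfl

lemma Qb_pd : PD Qb := by
  rw [← gram_M1]
  exact gram_pd (by rw [det_M1]; norm_num)

lemma Qb_det : Qb.det = 16 := by
  rw [← gram_M1, gram_det, det_M1]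
  norm_num

lemma formOf_fcc (b : ℝ) : formOf ![0, 0, b, b, b, b] = b • G0 := by
  unfold formOf G0
  ext i j
  fin_cases i <;> fin_cases j <;> simp <;> ring

lemma formOf_bcc (b : ℝ) : formOf ![b, b, b, b, b, b] = b • Qb := by
  unfold formOf Qb
  ext i j
  fin_cases i <;> fin_cases j <;> simp <;> ring

lemma vec6 {l : Fin 6 → ℝ} {a b c : ℝ} (h0 : l 0 = a) (h1 : l 1 = a) (h2 : l 2 = b) (h3 : l 3 = b)
    (h4 : l 4 = c) (h5 : l 5 = c) : l = ![a, a, b, b, c, c] := by
  funext i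
  fin_cases i
  · exact h0
  · exact h1
  · exact h2
  · exact h3
  · exact h4
  · exact h5

/-- the scaling factors are determined by the determinant -/
lemma scale_unique {a b : ℝ} (ha : 0 < a) (hb : 0 < b) (h : a ^ 3 = b ^ 3) : a = b :=
  (pow_left_inj₀ ha.le hb.le (by norm_num)).mp h

end TopLAux

open TopLAux

/-- the classification for forms -/
theorem classify_form {SR : (Fin 6 → ℝ) → Prop} {s0 : ℝ} (hb : Blocks SR s0) {Q : Mx 3}
    (hQ : PD Q) {s : ℝ} (hs : 3 / 2 < s) (hm : LocMin s Q) :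
    ∃ b : ℝ, 0 < b ∧ (Eqv Q (b • G0) ∨ (s < s0 ∧ Eqv Q (b • Qb))) := by
  obtain ⟨l, hl, hQl⟩ := exists_superbase Q hQ
  obtain ⟨l', h0, h1, h3, h4, h5, hdt, hE⟩ := exists_reduced l hl
  have hE' : Eqv Q (formOf l') := hQl.trans hE
  have hl' : ∀ i, 0 ≤ l' i := fun i => h0.trans (h1 i)
  have hd : 0 < dt l' := by
    rw [← formOf_det, hE'.det]
    exact hQ.det_pos
  have hm' : LocMin s (formOf l') := hE'.locMin hm
  have hSR := hb.tree l' h0 h1 h3 h4 h5 hd s hs hm'
  obtain ⟨e1, e2, e3⟩ := hb.slem l' hl' hd hSR s hs hm'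
  have hv : l' = ![l' 0, l' 0, l' 2, l' 2, l' 4, l' 4] :=
    vec6 rfl e1.symm rfl e2.symm rfl e3.symm
  set a := l' 0 with ha
  set b := l' 2 with hbd
  set c := l' 4 with hc
  have hac : a ≤ c := h1 4
  rw [hv] at hd hm' hSR hE'
  have hb0 : 0 < b := by
    rcases (hl' 2).lt_or_eq with h | h
    · exact h
    · exfalso
      have hc0 : c = 0 := le_antisymm (by rw [h]; exact h4) (hl' 4)
      have ha0 : a = 0 := le_antisymm (by rw [← hc0]; exact hac) h0
      rw [← hbd] at h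
      rw [ha0, hc0, ← h] at hd
      simp [dt] at hd
  -- the body-centred cubic case
  have hbcc : a = b → c = b → ∃ b : ℝ, 0 < b ∧ (Eqv Q (b • G0) ∨ (s < s0 ∧ Eqv Q (b • Qb))) := by
    intro hab hcb
    rw [hab, hcb, formOf_bcc] at hE'
    refine ⟨b, hb0, Or.inr ⟨?_, hE'⟩⟩
    have h6 : LocMin s (b • Qb) := hE'.locMin hm
    have h7 := LocMin.smul (d := 3) (by norm_num) (Qb_pd.smul hb0) h6 (l := b⁻¹) (by positivity)
    rw [smul_smul, inv_mul_cancel₀ hb0.ne', one_smul] at h7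
    exact (hb.bcc s hs).mp h7
  rcases hb.bco a b c h0 hb0.le (hl' 4) hd hSR s hs hm' with h | h | h
  · exact hbcc h (le_antisymm h4 (by rw [← h]; exact hac))
  · -- `b = c`
    rcases h0.lt_or_eq with h6 | h6
    · rcases (show a ≤ b from h1 2).lt_or_eq with h7 | h7
      · rw [← h] at hm'
        exact absurd hm' (hb.seg a b h6 h7 s hs)
      · exact hbcc h7 h.symm
    · rw [← h, ← h6, formOf_fcc] at hE'
      exact ⟨b, hb0, Or.inl hE'⟩
  · -- `a = c`
    rcases (show a ≤ b from h1 2).lt_or_eq with h7 | h7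
    · have ha0 : 0 < a := by
        rcases h0.lt_or_eq with h8 | h8
        · exact h8
        · exfalso
          rw [← h, ← h8] at hd
          simp [dt] at hd
      rw [← h] at hm' hSR
      exact absurd hm' (hb.ridge b a ha0 h7 hSR s hs)
    · exact hbcc h7 (h ▸ h7)

/-- the classification for lattices -/
theorem classify {SR : (Fin 6 → ℝ) → Prop} {s0 : ℝ} (hb : Blocks SR s0) {s : ℝ} (hs : 3 / 2 < s)
    (hglob : IsGlobalMinimum fcc s) (Λ : Set (EuclideanSpace ℝ (Fin 3))) :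
    IsLocalMinimum Λ s ↔ IsUnitLattice Λ ∧ (Isometric Λ fcc ∨ (s < s0 ∧ Isometric Λ bcc)) := by
  have hs' : ((3 : ℕ) : ℝ) / 2 < s := by norm_num; exact hs
  have hB0' := det_ne_of_abs MainAux.det_B0
  have hB1' := det_ne_of_abs det_B1
  constructor
  · intro h
    obtain ⟨B, hB, rfl, hmin⟩ := h
    have hB' := det_ne_of_abs hB
    have hm : LocMin s (gram B) := (isLocalMinimum_iff (by norm_num) hB hs').mp ⟨B, hB, rfl, hmin⟩
    refine ⟨⟨B, hB, rfl⟩, ?_⟩
    obtain ⟨b, hb0, h⟩ := classify_form hb (gram_pd hB') hs hm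
    rcases h with h | ⟨h1, h⟩
    · left
      have hd := h.det
      rw [Matrix.det_smul, Fintype.card_fin, TopAux.G0_det, gram_det_of_abs hB] at hd
      have hbc : b = MainAux.c ^ 2 := by
        refine scale_unique hb0 (pow_pos MainAux.c_pos 2) ?_
        have h2 := MainAux.c_cube
        calc b ^ 3 = 1 / 4 := by linarith
          _ = (MainAux.c ^ 3) ^ 2 := by rw [h2]; norm_num
          _ = _ := by ring
      rw [hbc, ← MainAux.gram_B0] at h
      rw [MainAux.fcc_eq]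
      exact (isometric_iff hB' hB0').mpr h
    · right
      refine ⟨h1, ?_⟩
      have hd := h.det
      rw [Matrix.det_smul, Fintype.card_fin, Qb_det, gram_det_of_abs hB] at hd
      have hbc : b = TopLAux.c ^ 2 := by
        refine scale_unique hb0 (pow_pos TopLAux.c_pos 2) ?_
        have h2 := TopLAux.c_cube
        calc b ^ 3 = 1 / 16 := by linarith
          _ = (TopLAux.c ^ 3) ^ 2 := by rw [h2]; norm_num
          _ = _ := by ring
      rw [hbc, ← gram_B1] at h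
      rw [bcc_eq]
      exact (isometric_iff hB' hB1').mpr h
  · rintro ⟨⟨B, hB, rfl⟩, h⟩
    have hB' := det_ne_of_abs hB
    rw [isLocalMinimum_iff (by norm_num) hB hs']
    rcases h with h | ⟨h1, h⟩
    · rw [MainAux.fcc_eq] at h hglob
      have h2 := (isometric_iff hB' hB0').mp h
      have h3 : LocMin s (gram MainAux.B0) := by
        rw [isGlobalMinimum_iff (by norm_num) MainAux.det_B0] at hglob
        exact ⟨1, one_pos, fun Q' hQ' _ => hglob Q' hQ'⟩
      exact h2.symm.locMin h3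
    · rw [bcc_eq] at h
      have h2 := (isometric_iff hB' hB1').mp h
      have h3 : LocMin s Qb := (hb.bcc s hs).mpr h1
      have h4 : LocMin s (gram B1) := by
        rw [gram_B1]
        exact LocMin.smul (d := 3) (by norm_num) Qb_pd h3 (pow_pos TopLAux.c_pos 2)
      exact h2.symm.locMin h4

end Pool.Agent.Lib.EPL
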